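import Pool.Agent.T9h83.RAY.JU2
set_option autoImplicit false

/-! The final estimate without boundedness. -/

namespace Pool.Agent.T9h83.RAY

open Complex MeasureTheory Set ProbabilityTheory Filter
open scoped ENNReal Real ComplexConjugate Topology

section base

variable {Z0 X0 : Type} [MeasurableSpace Z0] [MeasurableSpace X0]
  {μ0 : Measure Z0} [IsFiniteMeasure μ0]
  {φ0 : (ℝ × X0) × Z0 → ℂ} {P m : ℕ} {Λ : Type} [MeasurableSpace Λ]

/-- the limit of the extensions -/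
lemma EB_tendsto (hφ : Measurable φ0) (h0 : ∀ p, ‖φ0 p‖ = 1) [StandardBorelSpace Λ] [Nonempty Λ]
    {κ : Kernel ((Fin P → ℝ) × Z0) Λ}
    [IsMarkovKernel κ] {R : ℝ} (hR : 0 ≤ R) {c : Fin P → ℂ} (hc : ∀ p, ‖c p‖ ≤ R)
    {h : Λ × ((Fin P → ℝ) × Z0) → ℂ} (hm : Measurable h)
    {g : Fin P → Λ × (ℝ × ((Fin P → ℝ) × Z0)) → ℂ} (hg : ∀ p, Measurable (g p))
    {b : Fin m → Λ × (ℝ × ((Fin P → ℝ) × Z0)) → ℂ} (hb : ∀ j, Measurable (b j))
    (hgR : ∀ p l, RBY (c p) (fun v : (Fin P → ℝ) × Z0 => v.1 p) (fun v => g p (l, v)))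
    (hbL : ∀ j l, LBY (fun v => b j (l, v)))
    (hfin : ∫⁻ v, mass κ h v ∂((ciP P).prod μ0) ≠ ∞) (t : ℝ) (x : ZZ P m × X0) :
    Tendsto (fun N : ℕ => EB μ0 φ0 ((QB Z0 P m).indicator (AvK κ c (trn N h) g b)) t x) atTop
      (𝓝 (EB μ0 φ0 ((QB Z0 P m).indicator (AvK κ c h g b)) t x)) := by
  set D : ZZ P m × Z0 → ℝ≥0∞ := (QB Z0 P m).indicator (fun ζ => mass κ h (vc c ζ)) with hD
  have hDm : Measurable D := ((mass_meas κ hm).comp (vc_meas c)).indicator (QB_meas P m)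
  have hDf : ∫⁻ ζ, D ζ ∂(volume.prod μ0) ≠ ∞ := by
    refine ne_top_of_le_ne_top ?_ (int_QB (μ0 := μ0) hR hc (mass_meas κ hm))
    refine ENNReal.mul_ne_top (ENNReal.mul_ne_top (ENNReal.pow_ne_top ENNReal.ofReal_ne_top)
      (ENNReal.pow_ne_top ENNReal.ofReal_ne_top)) (ENNReal.mul_ne_top
      (ENNReal.mul_ne_top (ENNReal.pow_ne_top c3_fin) (ENNReal.pow_ne_top c4_fin)) hfin)
  have hDa : ∀ᵐ ζ ∂(volume.prod μ0), D ζ < ∞ := ae_lt_top hDm hDf
  unfold EB
  apply tendsto_integral_of_dominated_convergence (fun ζ => (D ζ).toReal)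
  · intro N
    have h1 := (AvK_meas κ c (trn_meas N hm) hg hb).indicator (QB_meas (Z0 := Z0) P m)
    exact (h1.mul (phB_meas2 hφ t x)).aestronglyMeasurable
  · exact integrable_toReal_of_lintegral_ne_top hDm.aemeasurable hDf
  · intro N
    filter_upwards [hDa, ae_neC (μ0 := μ0) (m := m) c] with ζ h1 h2
    rw [norm_mul, norm_phB h0, mul_one]
    by_cases hQ : ζ ∈ QB Z0 P m
    · have hDz : D ζ = mass κ h (vc c ζ) := indicator_of_mem hQ _
      rw [indicator_of_mem hQ]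
      rw [hDz] at h1 ⊢
      have h3 := AvK_le (κ := κ) (h := trn N h) hgR hbL hQ h2
      have h4 : mass κ (trn N h) (vc c ζ) ≤ mass κ h (vc c ζ) :=
        lintegral_mono fun l => trn_le N h _
      have h5 := h3.trans h4
      rw [← ofReal_norm] at h5
      exact (ENNReal.ofReal_le_iff_le_toReal h1.ne).1 h5
    · rw [indicator_of_notMem hQ, norm_zero]
      exact ENNReal.toReal_nonneg
  · filter_upwards [hDa, ae_neC (μ0 := μ0) (m := m) c] with ζ h1 h2
    apply Tendsto.mul_const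
    by_cases hQ : ζ ∈ QB Z0 P m
    · have hDz : D ζ = mass κ h (vc c ζ) := indicator_of_mem hQ _
      rw [hDz] at h1
      simp only [indicator_of_mem hQ]
      exact AvK_tendsto hm hg hb hgR hbL hQ h2 h1.ne
    · simp only [indicator_of_notMem hQ]
      exact tendsto_const_nhds

end base

/-- **The estimate for averages depending on the rough variables, without boundedness.** -/
theorem jointU_final {q : ℝ} {P m k : ℕ} (hk : k ≤ 1) (hn : 2 ≤ 2 * P + m + k)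
    (hq : 2 + 2 / ((2 * P + m + k : ℕ) : ℝ) < q) {R : ℝ} (hR : 0 ≤ R) :
    ∃ C : ℝ≥0∞, C ≠ ∞ ∧ ∀ c : Fin P → ℂ, (∀ p, ‖c p‖ ≤ R) →
      ∀ {Λ : Type} [MeasurableSpace Λ] [StandardBorelSpace Λ]
      (κ : Kernel ((Fin P → ℝ) × (Fin k → ℝ)) Λ) [IsMarkovKernel κ]
      (h : Λ × ((Fin P → ℝ) × (Fin k → ℝ)) → ℂ)
      (g : Fin P → Λ × (ℝ × ((Fin P → ℝ) × (Fin k → ℝ))) → ℂ)
      (b : Fin m → Λ × (ℝ × ((Fin P → ℝ) × (Fin k → ℝ))) → ℂ), Measurable h →
      (∀ p, Measurable (g p)) → (∀ j, Measurable (b j)) →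
      (∀ p l, RBY (c p) (fun v : (Fin P → ℝ) × (Fin k → ℝ) => v.1 p) (fun v => g p (l, v))) →
      (∀ j l, LBY (fun v => b j (l, v))) →
      Measurable (AvK κ c h g b) ∧
      ∫⁻ t, ∫⁻ x, ‖EB (muk k) (phk k) ((QB (Fin k → ℝ) P m).indicator (AvK κ c h g b)) t x‖ₑ ^ q
        ∂(volume.prod volume) ≤
        C * ∫⁻ v, (∫⁻ l, ‖h (l, v)‖ₑ ^ q ∂(κ v)) ∂((ciP P).prod (muk k)) := by
  obtain ⟨C, hC, hfin⟩ := jointK_final (P := P) (m := m) hk hn hq hR
  have hn0 : (0 : ℝ) < ((2 * P + m + k : ℕ) : ℝ) := by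
    have : (2 : ℝ) ≤ ((2 * P + m + k : ℕ) : ℝ) := by exact_mod_cast hn
    linarith
  have hq1 : 1 ≤ q := by
    have : 0 < 2 / ((2 * P + m + k : ℕ) : ℝ) := by positivity
    linarith
  refine ⟨C + 1, ENNReal.add_ne_top.2 ⟨hC, ENNReal.one_ne_top⟩, ?_⟩
  rintro c hc Λ _ _ κ _ h g b hm hg hb hgR hbL
  have hne : Nonempty Λ := by
    have h1 : κ (0, 0) univ ≠ 0 := by rw [measure_univ]; exact one_ne_zero
    obtain ⟨l, _⟩ := nonempty_of_measure_ne_zero h1
    exact ⟨l⟩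
  refine ⟨AvK_meas κ c hm hg hb, ?_⟩
  set S : ℝ≥0∞ := ∫⁻ v, (∫⁻ l, ‖h (l, v)‖ₑ ^ q ∂(κ v)) ∂((ciP P).prod (muk k)) with hS
  by_cases hSt : S = ∞
  · rw [hSt, ENNReal.mul_top (by simp)]
    exact le_top
  have hmf := mass_fin κ hm hq1 hSt
  have hN : ∀ N : ℕ, ∫⁻ t, ∫⁻ x, ‖EB (muk k) (phk k)
      ((QB (Fin k → ℝ) P m).indicator (AvK κ c (trn N h) g b)) t x‖ₑ ^ q
      ∂(volume.prod volume) ≤ C * S := by
    intro N
    refine (hfin c hc κ (trn N h) g b (trn_meas N hm) ⟨N, trn_bd N h⟩ hg hb hgR hbL).2.trans ?_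
    refine mul_le_mul' le_rfl ?_
    rw [hS]
    refine lintegral_mono fun v => lintegral_mono fun l => ?_
    exact ENNReal.rpow_le_rpow (trn_le N h _) (by linarith)
  set u : ℕ → ℝ → (ZZ P m × (Fin k → ℝ)) → ℝ≥0∞ := fun N t x => ‖EB (muk k) (phk k)
      ((QB (Fin k → ℝ) P m).indicator (AvK κ c (trn N h) g b)) t x‖ₑ ^ q with hu
  have hum : ∀ N, Measurable fun p : ℝ × (ZZ P m × (Fin k → ℝ)) => u N p.1 p.2 := by
    intro N
    have h3 : Measurable fun r : (ℝ × (ZZ P m × (Fin k → ℝ))) × (ZZ P m × (Fin k → ℝ)) =>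
        (QB (Fin k → ℝ) P m).indicator (AvK κ c (trn N h) g b) r.2 :=
      ((AvK_meas κ c (trn_meas N hm) hg hb).indicator (QB_meas P m)).comp measurable_snd
    exact (EB_meas (μ0 := muk k) (phk_meas k) (Y := ℝ × (ZZ P m × (Fin k → ℝ))) h3
      (t := fun y => y.1) measurable_fst (x := fun y => y.2) measurable_snd).enorm.pow_const q
  have hlim : ∀ t x, ‖EB (muk k) (phk k)
      ((QB (Fin k → ℝ) P m).indicator (AvK κ c h g b)) t x‖ₑ ^ q =
      liminf (fun N => u N t x) atTop := by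
    intro t x
    have h1 := EB_tendsto (μ0 := muk k) (phk_meas k) (norm_phk k) hR hc hm hg hb hgR hbL hmf t x
    have h2 : Tendsto (fun N => u N t x) atTop (𝓝 (‖EB (muk k) (phk k)
      ((QB (Fin k → ℝ) P m).indicator (AvK κ c h g b)) t x‖ₑ ^ q)) :=
      (ENNReal.continuous_rpow_const.tendsto _).comp h1.enorm
    exact h2.liminf_eq.symm
  clear_value u
  simp_rw [hlim]
  calc ∫⁻ t, ∫⁻ x, liminf (fun N => u N t x) atTop ∂(volume.prod volume) ≤
        ∫⁻ t, liminf (fun N => ∫⁻ x, u N t x ∂(volume.prod volume)) atTop := by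
        apply lintegral_mono
        intro t
        simp only
        apply lintegral_liminf_le
        intro N
        exact (hum N).comp measurable_prodMk_left
    _ ≤ liminf (fun N => ∫⁻ t, ∫⁻ x, u N t x ∂(volume.prod volume)) atTop := by
        apply lintegral_liminf_le
        intro N
        exact (hum N).lintegral_prod_right'
    _ ≤ liminf (fun _ : ℕ => C * S) atTop := by
        refine liminf_le_liminf (Filter.Eventually.of_forall fun N => ?_)
        have := hN N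
        rw [hu] at *
        exact this
    _ = C * S := liminf_const _
    _ ≤ (C + 1) * S := mul_le_mul' le_self_add le_rfl

end Pool.Agent.T9h83.RAY
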