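import Mathlib
set_option autoImplicit false

/-! Algebra of the quadruple Gaussian integral. -/

namespace Pool.Agent.T9h83.RAY

open Complex

/-- the polynomial `W` -/
def Wp (p12 p13 p14 p23 p24 p34 : ℝ) (a b c d : ℂ) : ℂ :=
  p34 * (a * b) + p24 * (a * c) + p23 * (a * d) + p14 * (b * c) + p13 * (b * d) + p12 * (c * d)

/-- the relations between the squares of the sines and the vector `V` -/
structure Rel (p12 p13 p14 p23 p24 p34 R1 R2 R3 R4 δ : ℝ) : Prop where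
  h12 : 0 ≤ p12
  h13 : 0 ≤ p13
  h14 : 0 ≤ p14
  h23 : 0 ≤ p23
  h24 : 0 ≤ p24
  h34 : 0 ≤ p34
  l12 : p12 ≤ 1
  l13 : p13 ≤ 1
  l14 : p14 ≤ 1
  l23 : p23 ≤ 1
  l24 : p24 ≤ 1
  l34 : p34 ≤ 1
  hδ : 0 ≤ δ
  lδ : δ ≤ 4
  f1 : p13 + p14 + p23 + p24 - p12 - p34 = δ ^ 2 / 4
  g1 : p13 + p14 - p12 = R1 / 2
  g2 : p23 + p24 - p12 = R2 / 2
  g3 : p13 + p23 - p34 = - R3 / 2
  g4 : p14 + p24 - p34 = - R4 / 2
  b1 : |R1| ≤ δ
  b2 : |R2| ≤ δ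
  b3 : |R3| ≤ δ
  b4 : |R4| ≤ δ
  d12 : (R1 - R2) ^ 2 ≤ 4 * p12 * δ ^ 2
  d34 : (R3 - R4) ^ 2 ≤ 4 * p34 * δ ^ 2

variable {p12 p13 p14 p23 p24 p34 R1 R2 R3 R4 δ : ℝ}

/-- the value of `W` at the point of interest -/
lemma W_val (t : ℝ) : Wp p12 p13 p14 p23 p24 p34 (1 - 2 * I * t) (1 - 2 * I * t)
      (1 + 2 * I * t) (1 + 2 * I * t) =
    (((p12 + p34 + p13 + p14 + p23 + p24) + 4 * t ^ 2 * (p13 + p14 + p23 + p24 - p12 - p34) : ℝ) : ℂ)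
      + ((4 * t * (p12 - p34) : ℝ) : ℂ) * I := by
  unfold Wp
  push_cast
  linear_combination (4 * (p12:ℂ) * t ^ 2 + 4 * p34 * t ^ 2 - 4 * t ^ 2 * (p13 + p14 + p23 + p24)) * I_sq

/-- abstract bounds: `w` is the norm of `W` -/
structure WB (p12 p13 p14 p23 p24 p34 δ t w : ℝ) : Prop where
  re : (p12 + p34 + p13 + p14 + p23 + p24) + t ^ 2 * δ ^ 2 ≤ w
  im : 4 * |t| * |p12 - p34| ≤ w

lemma wb (h : Rel p12 p13 p14 p23 p24 p34 R1 R2 R3 R4 δ) (t : ℝ) :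
    WB p12 p13 p14 p23 p24 p34 δ t ‖Wp p12 p13 p14 p23 p24 p34 (1 - 2 * I * t) (1 - 2 * I * t)
      (1 + 2 * I * t) (1 + 2 * I * t)‖ := by
  rw [W_val]
  have key : ∀ X Y : ℝ, X ≤ ‖(X : ℂ) + (Y : ℂ) * I‖ ∧ |Y| ≤ ‖(X : ℂ) + (Y : ℂ) * I‖ := by
    intro X Y
    have h1 := Complex.abs_re_le_norm ((X : ℂ) + (Y : ℂ) * I)
    have h2 := Complex.abs_im_le_norm ((X : ℂ) + (Y : ℂ) * I)
    simp only [add_re, ofReal_re, mul_re, I_re, mul_zero, ofReal_im, I_im, mul_one, sub_self,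
      add_zero, add_im, mul_im, zero_add] at h1 h2
    exact ⟨(le_abs_self X).trans h1, h2⟩
  obtain ⟨h1, h2⟩ := key ((p12 + p34 + p13 + p14 + p23 + p24) +
    4 * t ^ 2 * (p13 + p14 + p23 + p24 - p12 - p34)) (4 * t * (p12 - p34))
  constructor
  · refine le_trans (le_of_eq ?_) h1
    rw [h.f1]; ring
  · refine le_trans (le_of_eq ?_) h2
    rw [abs_mul, abs_mul]
    simp

/-- the bound for the first coefficient -/
lemma key1 {p34 p23 p24 p13 p14 p12 R1 R2 δ t w : ℝ} (ht : 1 ≤ |t|) (hδ0 : 0 ≤ δ)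
    (hδ4 : δ ≤ 4) (h12 : 0 ≤ p12)
    (f1 : p13 + p14 + p23 + p24 - p12 - p34 = δ ^ 2 / 4)
    (g1 : p13 + p14 - p12 = R1 / 2) (g2 : p23 + p24 - p12 = R2 / 2) (b1 : |R1| ≤ δ)
    (d12 : (R1 - R2) ^ 2 ≤ 4 * p12 * δ ^ 2)
    (hw1 : p12 + t ^ 2 * δ ^ 2 ≤ w) (hw2 : 4 * |t| * |p12 - p34| ≤ w) :
    2 * |t| * |p23 + p24 - p34| ≤ 2 * w ∧ |p23 + p24 - p34| ≤ 3 / 2 * δ := by
  have hw : 0 ≤ w := le_trans (by positivity) hw1
  have e1 : p23 + p24 - p34 = δ ^ 2 / 4 - R1 / 2 := by linarith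
  have e2 : R1 + R2 = δ ^ 2 / 2 + 2 * (p34 - p12) := by linarith
  have ht2 : |t| ≤ t ^ 2 := by
    rw [← sq_abs]; nlinarith
  have htd : |t| * δ ^ 2 ≤ w := by
    have : |t| * δ ^ 2 ≤ t ^ 2 * δ ^ 2 := mul_le_mul_of_nonneg_right ht2 (by positivity)
    linarith
  have h3 : |t| * |R1 - R2| ≤ w := by
    have h4 : (|t| * |R1 - R2|) ^ 2 ≤ (p12 + t ^ 2 * δ ^ 2) ^ 2 := by
      rw [mul_pow, sq_abs, sq_abs]
      have : t ^ 2 * (R1 - R2) ^ 2 ≤ t ^ 2 * (4 * p12 * δ ^ 2) :=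
        mul_le_mul_of_nonneg_left d12 (by positivity)
      nlinarith [sq_nonneg (p12 - t ^ 2 * δ ^ 2)]
    exact (abs_le_of_sq_le_sq' h4 (by positivity)).2.trans hw1
  have h5 : |t| * |R1 + R2| ≤ w := by
    rw [e2]
    have : |δ ^ 2 / 2 + 2 * (p34 - p12)| ≤ δ ^ 2 / 2 + 2 * |p12 - p34| := by
      refine (abs_add_le _ _).trans ?_
      rw [abs_of_nonneg (by positivity : (0:ℝ) ≤ δ ^ 2 / 2), abs_mul, abs_sub_comm p34 p12]
      simp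
    calc |t| * |δ ^ 2 / 2 + 2 * (p34 - p12)| ≤ |t| * (δ ^ 2 / 2 + 2 * |p12 - p34|) := by gcongr
      _ = (|t| * δ ^ 2) / 2 + (4 * |t| * |p12 - p34|) / 2 := by ring
      _ ≤ w := by linarith
  have h6 : |t| * |R1| ≤ w := by
    have : |R1| ≤ (|R1 + R2| + |R1 - R2|) / 2 := by
      have : R1 = ((R1 + R2) + (R1 - R2)) / 2 := by ring
      calc |R1| = |((R1 + R2) + (R1 - R2)) / 2| := by rw [← this]
        _ = |(R1 + R2) + (R1 - R2)| / 2 := by rw [abs_div]; norm_num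
        _ ≤ _ := by gcongr; exact abs_add_le _ _
    calc |t| * |R1| ≤ |t| * ((|R1 + R2| + |R1 - R2|) / 2) := by gcongr
      _ = (|t| * |R1 + R2| + |t| * |R1 - R2|) / 2 := by ring
      _ ≤ w := by linarith
  have h7 : |p23 + p24 - p34| ≤ δ ^ 2 / 4 + |R1| / 2 := by
    rw [e1]
    refine (abs_sub _ _).trans ?_
    rw [abs_of_nonneg (by positivity : (0:ℝ) ≤ δ ^ 2 / 4), abs_div]
    norm_num
  constructor
  · calc 2 * |t| * |p23 + p24 - p34| ≤ 2 * |t| * (δ ^ 2 / 4 + |R1| / 2) := by gcongr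
      _ = (|t| * δ ^ 2) / 2 + |t| * |R1| := by ring
      _ ≤ 2 * w := by linarith
  · have : δ ^ 2 ≤ 4 * δ := by nlinarith
    linarith

/-- the norm of a coefficient -/
lemma coef_norm (x y t : ℝ) (hx : 0 ≤ x) (hy : 0 ≤ y) :
    ‖(x : ℂ) * (1 - 2 * I * t) + y * (1 + 2 * I * t)‖ ≤ (x + y) + 2 * |t| * |y - x| := by
  have e : (x : ℂ) * (1 - 2 * I * t) + y * (1 + 2 * I * t) =
      ((x + y : ℝ) : ℂ) + ((2 * t * (y - x) : ℝ) : ℂ) * I := by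
    push_cast; ring
  rw [e]
  refine (norm_add_le _ _).trans ?_
  rw [norm_mul, norm_I, mul_one, norm_real, norm_real, Real.norm_eq_abs, Real.norm_eq_abs,
    abs_of_nonneg (add_nonneg hx hy), abs_mul, abs_mul]
  simp

/-- The bounds of the coefficients. -/
structure CB (t δ w : ℝ) (z : ℂ) : Prop where
  a : ‖z‖ ≤ 3 * w
  b : 1 ≤ |t| * δ → ‖z‖ * (|t| * δ) ≤ 6 * w

lemma cb_of {x y t δ w : ℝ} (hx : 0 ≤ x) (hy : 0 ≤ y) (hδ0 : 0 ≤ δ)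
    (hxy : x + y ≤ w) (hxy3 : x + y ≤ 3) (hw : t ^ 2 * δ ^ 2 ≤ w)
    (h : 2 * |t| * |y - x| ≤ 2 * w ∧ |y - x| ≤ 3 / 2 * δ) :
    CB t δ w ((x : ℂ) * (1 - 2 * I * t) + y * (1 + 2 * I * t)) := by
  have h0 := coef_norm x y t hx hy
  constructor
  · linarith [h.1]
  · intro hX
    have h1 : 2 * |t| * |y - x| ≤ 3 * (|t| * δ) := by
      have := mul_le_mul_of_nonneg_left h.2 (by positivity : 0 ≤ 2 * |t|)
      linarith
    have h2 : ‖(x : ℂ) * (1 - 2 * I * t) + y * (1 + 2 * I * t)‖ ≤ 6 * (|t| * δ) := by linarith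
    have h3 : (|t| * δ) ^ 2 ≤ w := by rw [mul_pow, sq_abs]; exact hw
    calc _ ≤ 6 * (|t| * δ) * (|t| * δ) := mul_le_mul_of_nonneg_right h2 (by positivity)
      _ = 6 * (|t| * δ) ^ 2 := by ring
      _ ≤ 6 * w := by linarith

lemma cb1 (h : Rel p12 p13 p14 p23 p24 p34 R1 R2 R3 R4 δ) {t w : ℝ} (ht : 1 ≤ |t|)
    (hw : WB p12 p13 p14 p23 p24 p34 δ t w) :
    CB t δ w ((p34 : ℂ) * (1 - 2 * I * t) + (p24 + p23 : ℝ) * (1 + 2 * I * t)) := by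
  obtain ⟨h12, h13, h14, h23, h24, h34, l12, l13, l14, l23, l24, l34, hδ, lδ, f1, g1, g2, g3, g4,
    b1, b2, b3, b4, d12, d34⟩ := h
  have hp := hw.re
  have hq : 0 ≤ t ^ 2 * δ ^ 2 := by positivity
  refine cb_of h34 (by linarith) hδ (by linarith) (by linarith) (by linarith) ?_
  have := key1 (p34 := p34) (p23 := p23) (p24 := p24) (p13 := p13) (p14 := p14) (p12 := p12)
    ht hδ lδ h12 f1 g1 g2 b1 d12 (by linarith) hw.im
  rw [show p24 + p23 - p34 = p23 + p24 - p34 by ring]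
  exact this

lemma cb2 (h : Rel p12 p13 p14 p23 p24 p34 R1 R2 R3 R4 δ) {t w : ℝ} (ht : 1 ≤ |t|)
    (hw : WB p12 p13 p14 p23 p24 p34 δ t w) :
    CB t δ w ((p34 : ℂ) * (1 - 2 * I * t) + (p14 + p13 : ℝ) * (1 + 2 * I * t)) := by
  obtain ⟨h12, h13, h14, h23, h24, h34, l12, l13, l14, l23, l24, l34, hδ, lδ, f1, g1, g2, g3, g4,
    b1, b2, b3, b4, d12, d34⟩ := h
  have hp := hw.re
  have hq : 0 ≤ t ^ 2 * δ ^ 2 := by positivity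
  refine cb_of h34 (by linarith) hδ (by linarith) (by linarith) (by linarith) ?_
  have := key1 (p34 := p34) (p23 := p13) (p24 := p14) (p13 := p23) (p14 := p24) (p12 := p12)
    (R1 := R2) (R2 := R1)
    ht hδ lδ h12 (by linarith) g2 g1 b2 (by nlinarith [d12]) (by linarith) hw.im
  rw [show p14 + p13 - p34 = p13 + p14 - p34 by ring]
  exact this

lemma cb3 (h : Rel p12 p13 p14 p23 p24 p34 R1 R2 R3 R4 δ) {t w : ℝ} (ht : 1 ≤ |t|)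
    (hw : WB p12 p13 p14 p23 p24 p34 δ t w) :
    CB t δ w (((p24 + p14 : ℝ) : ℂ) * (1 - 2 * I * t) + p12 * (1 + 2 * I * t)) := by
  obtain ⟨h12, h13, h14, h23, h24, h34, l12, l13, l14, l23, l24, l34, hδ, lδ, f1, g1, g2, g3, g4,
    b1, b2, b3, b4, d12, d34⟩ := h
  have hp := hw.re
  have hq : 0 ≤ t ^ 2 * δ ^ 2 := by positivity
  refine cb_of (by linarith) h12 hδ (by linarith) (by linarith) (by linarith) ?_
  have := key1 (p34 := p12) (p23 := p14) (p24 := p24) (p13 := p13) (p14 := p23) (p12 := p34)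
    (R1 := -R3) (R2 := -R4)
    ht hδ lδ h34 (by linarith) (by linarith) (by linarith) (by rwa [abs_neg])
    (by nlinarith [d34]) (by linarith) (by rw [abs_sub_comm]; exact hw.im)
  rw [show p12 - (p24 + p14) = -(p14 + p24 - p12) by ring, abs_neg]
  exact this

lemma cb4 (h : Rel p12 p13 p14 p23 p24 p34 R1 R2 R3 R4 δ) {t w : ℝ} (ht : 1 ≤ |t|)
    (hw : WB p12 p13 p14 p23 p24 p34 δ t w) :
    CB t δ w (((p23 + p13 : ℝ) : ℂ) * (1 - 2 * I * t) + p12 * (1 + 2 * I * t)) := by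
  obtain ⟨h12, h13, h14, h23, h24, h34, l12, l13, l14, l23, l24, l34, hδ, lδ, f1, g1, g2, g3, g4,
    b1, b2, b3, b4, d12, d34⟩ := h
  have hp := hw.re
  have hq : 0 ≤ t ^ 2 * δ ^ 2 := by positivity
  refine cb_of (by linarith) h12 hδ (by linarith) (by linarith) (by linarith) ?_
  have := key1 (p34 := p12) (p23 := p13) (p24 := p23) (p13 := p14) (p14 := p24) (p12 := p34)
    (R1 := -R4) (R2 := -R3)
    ht hδ lδ h34 (by linarith) (by linarith) (by linarith) (by rwa [abs_neg])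
    (by nlinarith [d34]) (by linarith) (by rw [abs_sub_comm]; exact hw.im)
  rw [show p12 - (p23 + p13) = -(p13 + p23 - p12) by ring, abs_neg]
  exact this

/-- the fourth logarithmic derivative of `W^(-1/2)` -/
noncomputable def Q4 (W W1 W2 W3 W4 W12 W13 W14 W23 W24 W34 : ℂ) : ℂ :=
  105 / 16 * (W1 * W2 * W3 * W4) / W ^ 4
  - 15 / 8 * (W12 * (W3 * W4) + W13 * (W2 * W4) + W14 * (W2 * W3) + W23 * (W1 * W4)
      + W24 * (W1 * W3) + W34 * (W1 * W2)) / W ^ 3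
  + 3 / 4 * (W12 * W34 + W13 * W24 + W14 * W23) / W ^ 2

lemma Q4_norm (W W1 W2 W3 W4 : ℂ) (p12 p13 p14 p23 p24 p34 : ℝ) (hW : W ≠ 0)
    (h12 : 0 ≤ p12) (h13 : 0 ≤ p13) (h14 : 0 ≤ p14) (h23 : 0 ≤ p23) (h24 : 0 ≤ p24)
    (h34 : 0 ≤ p34) :
    ‖Q4 W W1 W2 W3 W4 p34 p24 p23 p14 p13 p12‖ ≤
      105 / 16 * ((‖W1‖ / ‖W‖) * (‖W2‖ / ‖W‖) * (‖W3‖ / ‖W‖) * (‖W4‖ / ‖W‖))
      + 15 / 8 * ((p34 / ‖W‖) * (‖W3‖ / ‖W‖) * (‖W4‖ / ‖W‖)
        + (p24 / ‖W‖) * (‖W2‖ / ‖W‖) * (‖W4‖ / ‖W‖) + (p23 / ‖W‖) * (‖W2‖ / ‖W‖) * (‖W3‖ / ‖W‖)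
        + (p14 / ‖W‖) * (‖W1‖ / ‖W‖) * (‖W4‖ / ‖W‖) + (p13 / ‖W‖) * (‖W1‖ / ‖W‖) * (‖W3‖ / ‖W‖)
        + (p12 / ‖W‖) * (‖W1‖ / ‖W‖) * (‖W2‖ / ‖W‖))
      + 3 / 4 * ((p34 / ‖W‖) * (p12 / ‖W‖) + (p24 / ‖W‖) * (p13 / ‖W‖)
        + (p23 / ‖W‖) * (p14 / ‖W‖)) := by
  have hw : 0 < ‖W‖ := norm_pos_iff.2 hW
  unfold Q4
  refine (norm_add_le _ _).trans ?_
  have A1 : ‖(105 / 16 * (W1 * W2 * W3 * W4) / W ^ 4 : ℂ)‖ =
      105 / 16 * ((‖W1‖ / ‖W‖) * (‖W2‖ / ‖W‖) * (‖W3‖ / ‖W‖) * (‖W4‖ / ‖W‖)) := by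
    simp only [norm_mul, norm_div, norm_pow, RCLike.norm_ofNat]
    field_simp
  have nr : ∀ x : ℝ, 0 ≤ x → ‖(x : ℂ)‖ = x := fun x hx => by
    rw [norm_real, Real.norm_eq_abs, abs_of_nonneg hx]
  have A2 : ‖(15 / 8 * (p34 * (W3 * W4) + p24 * (W2 * W4) + p23 * (W2 * W3) + p14 * (W1 * W4)
      + p13 * (W1 * W3) + p12 * (W1 * W2)) / W ^ 3 : ℂ)‖ ≤
      15 / 8 * ((p34 / ‖W‖) * (‖W3‖ / ‖W‖) * (‖W4‖ / ‖W‖)
        + (p24 / ‖W‖) * (‖W2‖ / ‖W‖) * (‖W4‖ / ‖W‖) + (p23 / ‖W‖) * (‖W2‖ / ‖W‖) * (‖W3‖ / ‖W‖)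
        + (p14 / ‖W‖) * (‖W1‖ / ‖W‖) * (‖W4‖ / ‖W‖) + (p13 / ‖W‖) * (‖W1‖ / ‖W‖) * (‖W3‖ / ‖W‖)
        + (p12 / ‖W‖) * (‖W1‖ / ‖W‖) * (‖W2‖ / ‖W‖)) := by
    rw [norm_div, norm_mul, norm_pow, norm_div, RCLike.norm_ofNat, RCLike.norm_ofNat]
    have B : ‖((p34 : ℂ) * (W3 * W4) + p24 * (W2 * W4) + p23 * (W2 * W3) + p14 * (W1 * W4)
      + p13 * (W1 * W3) + p12 * (W1 * W2))‖ ≤ p34 * (‖W3‖ * ‖W4‖) + p24 * (‖W2‖ * ‖W4‖)
        + p23 * (‖W2‖ * ‖W3‖) + p14 * (‖W1‖ * ‖W4‖) + p13 * (‖W1‖ * ‖W3‖)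
        + p12 * (‖W1‖ * ‖W2‖) := by
      refine (norm_add_le _ _).trans (add_le_add ?_ (by rw [norm_mul, norm_mul, nr _ h12]))
      refine (norm_add_le _ _).trans (add_le_add ?_ (by rw [norm_mul, norm_mul, nr _ h13]))
      refine (norm_add_le _ _).trans (add_le_add ?_ (by rw [norm_mul, norm_mul, nr _ h14]))
      refine (norm_add_le _ _).trans (add_le_add ?_ (by rw [norm_mul, norm_mul, nr _ h23]))
      refine (norm_add_le _ _).trans (add_le_add (by rw [norm_mul, norm_mul, nr _ h34])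
        (by rw [norm_mul, norm_mul, nr _ h24]))
    rw [div_le_iff₀ (by positivity)]
    refine (mul_le_mul_of_nonneg_left B (by norm_num)).trans (le_of_eq ?_)
    field_simp
  have A3 : ‖(3 / 4 * ((p34 : ℂ) * p12 + p24 * p13 + p23 * p14) / W ^ 2 : ℂ)‖ ≤
      3 / 4 * ((p34 / ‖W‖) * (p12 / ‖W‖) + (p24 / ‖W‖) * (p13 / ‖W‖)
        + (p23 / ‖W‖) * (p14 / ‖W‖)) := by
    rw [norm_div, norm_mul, norm_pow, norm_div, RCLike.norm_ofNat, RCLike.norm_ofNat]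
    have B : ‖((p34 : ℂ) * p12 + p24 * p13 + p23 * p14)‖ ≤ p34 * p12 + p24 * p13 + p23 * p14 := by
      refine (norm_add_le _ _).trans (add_le_add ?_ (by rw [norm_mul, nr _ h23, nr _ h14]))
      refine (norm_add_le _ _).trans (add_le_add (by rw [norm_mul, nr _ h34, nr _ h12])
        (by rw [norm_mul, nr _ h24, nr _ h13]))
    rw [div_le_iff₀ (by positivity)]
    refine (mul_le_mul_of_nonneg_left B (by norm_num)).trans (le_of_eq ?_)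
    field_simp
  refine add_le_add ?_ A3
  refine (norm_sub_le _ _).trans ?_
  rw [A1]
  exact add_le_add le_rfl A2

/-- the coefficients at the point of interest -/
noncomputable def Q4at (p12 p13 p14 p23 p24 p34 t : ℝ) : ℂ :=
  Q4 (Wp p12 p13 p14 p23 p24 p34 (1 - 2 * I * t) (1 - 2 * I * t) (1 + 2 * I * t) (1 + 2 * I * t))
    ((p34 : ℂ) * (1 - 2 * I * t) + (p24 + p23 : ℝ) * (1 + 2 * I * t))
    ((p34 : ℂ) * (1 - 2 * I * t) + (p14 + p13 : ℝ) * (1 + 2 * I * t))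
    (((p24 + p14 : ℝ) : ℂ) * (1 - 2 * I * t) + p12 * (1 + 2 * I * t))
    (((p23 + p13 : ℝ) : ℂ) * (1 - 2 * I * t) + p12 * (1 + 2 * I * t))
    p34 p24 p23 p14 p13 p12

lemma Q4_bound (h : Rel p12 p13 p14 p23 p24 p34 R1 R2 R3 R4 δ) {t : ℝ} (ht : 1 ≤ |t|)
    (hW : Wp p12 p13 p14 p23 p24 p34 (1 - 2 * I * t) (1 - 2 * I * t) (1 + 2 * I * t)
      (1 + 2 * I * t) ≠ 0) :
    ‖Q4at p12 p13 p14 p23 p24 p34 t‖ ≤ 700 ∧
    (1 ≤ |t| * δ → ‖Q4at p12 p13 p14 p23 p24 p34 t‖ * (|t| * δ) ≤ 1400) := by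
  have hwb := wb h t
  have c1 := cb1 h ht hwb
  have c2 := cb2 h ht hwb
  have c3 := cb3 h ht hwb
  have c4 := cb4 h ht hwb
  obtain ⟨h12, h13, h14, h23, h24, h34, l12, l13, l14, l23, l24, l34, hδ, lδ, f1, g1, g2, g3, g4,
    b1, b2, b3, b4, d12, d34⟩ := h
  have hQ := Q4_norm _ ((p34 : ℂ) * (1 - 2 * I * t) + (p24 + p23 : ℝ) * (1 + 2 * I * t))
    ((p34 : ℂ) * (1 - 2 * I * t) + (p14 + p13 : ℝ) * (1 + 2 * I * t))
    (((p24 + p14 : ℝ) : ℂ) * (1 - 2 * I * t) + p12 * (1 + 2 * I * t))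
    (((p23 + p13 : ℝ) : ℂ) * (1 - 2 * I * t) + p12 * (1 + 2 * I * t))
    p12 p13 p14 p23 p24 p34 hW h12 h13 h14 h23 h24 h34
  have hw : 0 < ‖Wp p12 p13 p14 p23 p24 p34 (1 - 2 * I * t) (1 - 2 * I * t)
      (1 + 2 * I * t) (1 + 2 * I * t)‖ := norm_pos_iff.2 hW
  rw [show Q4 _ _ _ _ _ _ _ _ _ _ _ = Q4at p12 p13 p14 p23 p24 p34 t from rfl] at hQ
  set w := ‖Wp p12 p13 p14 p23 p24 p34 (1 - 2 * I * t) (1 - 2 * I * t)
      (1 + 2 * I * t) (1 + 2 * I * t)‖ with hwdef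
  have hwre := hwb.re
  have hq : 0 ≤ t ^ 2 * δ ^ 2 := by positivity
  -- normalised quantities
  have U : ∀ {z : ℂ}, CB t δ w z → 0 ≤ ‖z‖ / w ∧ ‖z‖ / w ≤ 3 ∧
      (1 ≤ |t| * δ → ‖z‖ / w * (|t| * δ) ≤ 6) := by
    intro z hz
    refine ⟨by positivity, ?_, ?_⟩
    · rw [div_le_iff₀ hw]; exact hz.a
    · intro hX
      rw [div_mul_eq_mul_div, div_le_iff₀ hw]; exact hz.b hX
  have V : ∀ {p : ℝ}, 0 ≤ p → p ≤ 1 → p ≤ w → 0 ≤ p / w ∧ p / w ≤ 1 ∧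
      (1 ≤ |t| * δ → p / w * (|t| * δ) ≤ 1) := by
    intro p hp0 hp1 hpw
    refine ⟨by positivity, ?_, ?_⟩
    · rw [div_le_iff₀ hw]; linarith
    · intro hX
      rw [div_mul_eq_mul_div, div_le_iff₀ hw]
      have h3 : (|t| * δ) ^ 2 ≤ w := by rw [mul_pow, sq_abs]; linarith
      nlinarith
  obtain ⟨u1, v1, w1⟩ := U c1
  obtain ⟨u2, v2, w2⟩ := U c2
  obtain ⟨u3, v3, w3⟩ := U c3
  obtain ⟨u4, v4, w4⟩ := U c4
  obtain ⟨q12, r12, s12⟩ := V h12 l12 (by linarith)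
  obtain ⟨q13, r13, s13⟩ := V h13 l13 (by linarith)
  obtain ⟨q14, r14, s14⟩ := V h14 l14 (by linarith)
  obtain ⟨q23, r23, s23⟩ := V h23 l23 (by linarith)
  obtain ⟨q24, r24, s24⟩ := V h24 l24 (by linarith)
  obtain ⟨q34, r34, s34⟩ := V h34 l34 (by linarith)
  generalize ‖(p34 : ℂ) * (1 - 2 * I * t) + (p24 + p23 : ℝ) * (1 + 2 * I * t)‖ / w = x1 at *
  generalize ‖(p34 : ℂ) * (1 - 2 * I * t) + (p14 + p13 : ℝ) * (1 + 2 * I * t)‖ / w = x2 at *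
  generalize ‖((p24 + p14 : ℝ) : ℂ) * (1 - 2 * I * t) + p12 * (1 + 2 * I * t)‖ / w = x3 at *
  generalize ‖((p23 + p13 : ℝ) : ℂ) * (1 - 2 * I * t) + p12 * (1 + 2 * I * t)‖ / w = x4 at *
  generalize p12 / w = y12 at *
  generalize p13 / w = y13 at *
  generalize p14 / w = y14 at *
  generalize p23 / w = y23 at *
  generalize p24 / w = y24 at *
  generalize p34 / w = y34 at *
  have m3 : ∀ {y x x' : ℝ}, 0 ≤ y → y ≤ 1 → 0 ≤ x → x ≤ 3 → 0 ≤ x' → x' ≤ 3 → y * x * x' ≤ 9 := by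
    intro y x x' a1 a2 a3 a4 a5 a6
    calc y * x * x' ≤ 1 * 3 * 3 := by gcongr
      _ = 9 := by norm_num
  have m2 : ∀ {y y' : ℝ}, 0 ≤ y → y ≤ 1 → 0 ≤ y' → y' ≤ 1 → y * y' ≤ 1 := by
    intro y y' a1 a2 a3 a4
    calc y * y' ≤ 1 * 1 := by gcongr
      _ = 1 := by norm_num
  constructor
  · refine hQ.trans ?_
    have e1 : x1 * x2 * x3 * x4 ≤ 3 * 3 * 3 * 3 := by gcongr
    have := m3 q34 r34 u3 v3 u4 v4
    have := m3 q24 r24 u2 v2 u4 v4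
    have := m3 q23 r23 u2 v2 u3 v3
    have := m3 q14 r14 u1 v1 u4 v4
    have := m3 q13 r13 u1 v1 u3 v3
    have := m3 q12 r12 u1 v1 u2 v2
    have := m2 q34 r34 q12 r12
    have := m2 q24 r24 q13 r13
    have := m2 q23 r23 q14 r14
    linarith
  · intro hX
    have hX0 : 0 ≤ |t| * δ := by linarith
    have W1 := w1 hX
    have S12 := s12 hX
    have S13 := s13 hX
    have S14 := s14 hX
    have S23 := s23 hX
    have S24 := s24 hX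
    have S34 := s34 hX
    set X := |t| * δ with hXdef
    have n3 : ∀ {y x x' : ℝ}, 0 ≤ y → y * X ≤ 1 → 0 ≤ x → x ≤ 3 → 0 ≤ x' → x' ≤ 3 →
        y * x * x' * X ≤ 9 := by
      intro y x x' a1 a2 a3 a4 a5 a6
      calc y * x * x' * X = (y * X) * x * x' := by ring
        _ ≤ 1 * 3 * 3 := by gcongr
        _ = 9 := by norm_num
    have n2 : ∀ {y y' : ℝ}, 0 ≤ y → y * X ≤ 1 → 0 ≤ y' → y' ≤ 1 → y * y' * X ≤ 1 := by
      intro y y' a1 a2 a3 a4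
      calc y * y' * X = (y * X) * y' := by ring
        _ ≤ 1 * 1 := by gcongr
        _ = 1 := by norm_num
    refine (mul_le_mul_of_nonneg_right hQ hX0).trans ?_
    have e1 : x1 * x2 * x3 * x4 * X ≤ 6 * 3 * 3 * 3 := by
      calc x1 * x2 * x3 * x4 * X = (x1 * X) * x2 * x3 * x4 := by ring
        _ ≤ 6 * 3 * 3 * 3 := by gcongr
    have := n3 q34 S34 u3 v3 u4 v4
    have := n3 q24 S24 u2 v2 u4 v4
    have := n3 q23 S23 u2 v2 u3 v3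
    have := n3 q14 S14 u1 v1 u4 v4
    have := n3 q13 S13 u1 v1 u3 v3
    have := n3 q12 S12 u1 v1 u2 v2
    have := n2 q34 S34 q12 r12
    have := n2 q24 S24 q13 r13
    have := n2 q23 S23 q14 r14
    linarith

end Pool.Agent.T9h83.RAY
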