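import Pool.Agent.T9h83.RAY.OV
set_option autoImplicit false

/-! The base of the induction and the chain of steps. -/

namespace Pool.Agent.T9h83.RAY

open Complex MeasureTheory Set
open scoped ENNReal NNReal Real ComplexConjugate

/-- the point -/
noncomputable def z00 : ZZ 0 0 := (isEmptyElim, isEmptyElim)

lemma vol00 : (volume : Measure (ZZ 0 0)) = Measure.dirac z00 := by
  rw [Measure.volume_eq_prod, volume_pi, volume_pi, Measure.pi_of_empty, Measure.pi_of_empty,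
    Measure.dirac_prod_dirac]
  rfl

lemma ciP0 : ciP 0 = Measure.dirac (isEmptyElim : Fin 0 → ℝ) := by
  unfold ciP
  rw [Measure.pi_of_empty]

lemma lint_dirac {U V : Type*} [MeasurableSpace U] [MeasurableSpace V] (u : U) (μ : Measure V)
    [SFinite μ] {f : U × V → ℝ≥0∞} (hf : Measurable f) :
    ∫⁻ p, f p ∂((Measure.dirac u).prod μ) = ∫⁻ v, f (u, v) ∂μ := by
  rw [Measure.dirac_prod, lintegral_map hf measurable_prodMk_left]

lemma int_dirac {U V : Type*} [MeasurableSpace U] [MeasurableSpace V] (u : U) (μ : Measure V)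
    [SFinite μ] {f : U × V → ℂ} (hf : Measurable f) :
    ∫ p, f p ∂((Measure.dirac u).prod μ) = ∫ v, f (u, v) ∂μ := by
  rw [Measure.dirac_prod, integral_map measurable_prodMk_left.aemeasurable hf.aestronglyMeasurable]

section base

variable {Z0 X0 : Type} [MeasurableSpace Z0] [MeasurableSpace X0]
  {μ0 : Measure Z0} [IsFiniteMeasure μ0]
  {ν0 : Measure X0} [SFinite ν0] {φ0 : (ℝ × X0) × Z0 → ℂ}

/-- the base of the induction -/
lemma TT_base (hφ : Measurable φ0) {q N e : ℝ}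
    (hb : ∃ C : ℝ≥0∞, C ≠ ∞ ∧ ∀ w : Z0 → ℂ, Measurable w → (∃ B : ℝ, ∀ s, ‖w s‖ ≤ B) → ∀ c : ℝ,
      ∫⁻ t, jb (t - c) ^ (-e) * ∫⁻ x, ‖∫ s, w s * φ0 ((t, x), s) ∂μ0‖ₑ ^ q ∂ν0 ≤
      C * ∫⁻ s, ‖w s‖ₑ ^ q ∂μ0) : TT μ0 ν0 φ0 q N e 0 0 := by
  obtain ⟨C, hC, hw⟩ := hb
  refine ⟨C, hC, ?_⟩
  rintro h g b hh ⟨B, hB⟩ hg hb c
  have hgm : ∀ p, Measurable (g p) := fun p => (hg p).pb.meas
  have hbm : ∀ j, Measurable (b j) := fun j => (hb j).pb.meas
  set w : Z0 → ℂ := fun s => h (isEmptyElim, s) with hwd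
  have hwm : Measurable w := hh.comp measurable_prodMk_left
  have hFm := FB_meas1 hh hgm hbm
  have e1 : ∀ (t : ℝ) (x : ZZ 0 0 × X0), EB μ0 φ0 (FB h g b) t x =
      ∫ s, w s * φ0 ((t, x.2), s) ∂μ0 := by
    intro t x
    unfold EB
    have hmm : Measurable fun ζ : ZZ 0 0 × Z0 => FB h g b ζ * phB φ0 t x ζ :=
      hFm.mul (phB_meas2 hφ t x)
    rw [vol00, int_dirac _ _ hmm]
    congr 1; funext s
    have e2 : FB h g b (z00, s) = w s := by
      unfold FB GZ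
      simp only [Finset.univ_eq_empty, Finset.prod_empty, mul_one]
      rw [hwd]
      simp only
      congr 2
      exact Subsingleton.elim _ _
    have e3 : phB φ0 t x (z00, s) = φ0 ((t, x.2), s) := by
      unfold phB phZ
      simp only [Finset.univ_eq_empty, Finset.prod_empty, mul_one, one_mul]
    rw [e2, e3]
  have hm1 : Measurable fun p : (ℝ × X0) × Z0 => w p.2 * φ0 p := (hwm.comp measurable_snd).mul hφ
  have hm2 : Measurable fun p : ℝ × X0 => ‖∫ s, w s * φ0 (p, s) ∂μ0‖ₑ ^ q :=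
    (hm1.stronglyMeasurable.integral_prod_right').measurable.enorm.pow_const q
  have e4 : ∀ t, ∫⁻ x : ZZ 0 0 × X0, ‖EB μ0 φ0 (FB h g b) t x‖ₑ ^ q ∂(volume.prod ν0) =
      ∫⁻ x, ‖∫ s, w s * φ0 ((t, x), s) ∂μ0‖ₑ ^ q ∂ν0 := by
    intro t
    simp_rw [e1]
    have a1 : Measurable fun x : ZZ 0 0 × X0 => (t, x.2) := by fun_prop
    have a2 := hm2.comp a1
    rw [vol00]
    exact lint_dirac z00 ν0 a2
  simp_rw [e4]
  refine (hw w hwm ⟨B, fun s => hB _⟩ c).trans (le_of_eq ?_)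
  congr 1
  rw [ciP0, lint_dirac _ μ0 (hh.enorm.pow_const q)]

end base

/-- the measure on the rough variables -/
noncomputable def muk (k : ℕ) : Measure (Fin k → ℝ) :=
  Measure.pi fun _ => volume.restrict (Icc (-1 : ℝ) 1)

instance (k : ℕ) : IsFiniteMeasure (muk k) := by unfold muk; infer_instance

/-- the phase in the rough variables -/
noncomputable def phk (k : ℕ) (p : (ℝ × (Fin k → ℝ)) × (Fin k → ℝ)) : ℂ :=
  ∏ i, ph ((p.1.2 i : ℝ) : ℂ) p.1.1 ((p.2 i : ℝ) : ℂ)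

lemma norm_phk (k : ℕ) (p : (ℝ × (Fin k → ℝ)) × (Fin k → ℝ)) : ‖phk k p‖ = 1 := by
  unfold phk
  rw [norm_prod]
  simp [norm_ph]

lemma phk_meas (k : ℕ) : Measurable (phk k) := by
  unfold phk
  have hph : Measurable fun p : (ℂ × ℝ) × ℂ => ph p.1.1 p.1.2 p.2 := by
    have : Continuous fun p : (ℂ × ℝ) × ℂ => ph p.1.1 p.1.2 p.2 := by
      unfold ph
      fun_prop
    exact this.measurable
  refine Finset.measurable_prod _ fun i _ => ?_
  have h1 : Measurable fun p : (ℝ × (Fin k → ℝ)) × (Fin k → ℝ) =>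
      ((((p.1.2 i : ℝ) : ℂ), p.1.1), ((p.2 i : ℝ) : ℂ)) := by fun_prop
  have h2 := hph.comp h1
  exact h2

lemma base_zero {q e : ℝ} (hq : 0 < q) (he : 1 < e) :
    ∃ C : ℝ≥0∞, C ≠ ∞ ∧ ∀ w : (Fin 0 → ℝ) → ℂ, Measurable w → (∃ B : ℝ, ∀ s, ‖w s‖ ≤ B) →
      ∀ c : ℝ, ∫⁻ t, jb (t - c) ^ (-e) * ∫⁻ x, ‖∫ s, w s * phk 0 ((t, x), s) ∂(muk 0)‖ₑ ^ q ≤
      C * ∫⁻ s, ‖w s‖ₑ ^ q ∂(muk 0) := by
  refine ⟨∫⁻ τ, jb τ ^ (-e), jb_int he, ?_⟩
  rintro w hw _ c
  have e0 : muk 0 = Measure.dirac (isEmptyElim : Fin 0 → ℝ) := by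
    unfold muk
    rw [Measure.pi_of_empty]
  have e1 : ∀ (t : ℝ) (x : Fin 0 → ℝ), ∫ s, w s * phk 0 ((t, x), s) ∂(muk 0) = w isEmptyElim := by
    intro t x
    rw [e0, integral_dirac]
    unfold phk
    simp
  simp_rw [e1]
  have e2 : ∫⁻ s, ‖w s‖ₑ ^ q ∂(muk 0) = ‖w isEmptyElim‖ₑ ^ q := by
    rw [e0, lintegral_dirac]
  have e3 : ∫⁻ _x : Fin 0 → ℝ, ‖w isEmptyElim‖ₑ ^ q = ‖w isEmptyElim‖ₑ ^ q := by
    rw [volume_pi, Measure.pi_of_empty, lintegral_dirac]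
  rw [e2, e3, lintegral_mul_const' _ _ (ENNReal.rpow_ne_top_of_nonneg hq.le enorm_ne_top)]
  have e4 : ∫⁻ t, jb (t - c) ^ (-e) = ∫⁻ t, jb t ^ (-e) :=
    lintegral_sub_right_eq_self (fun t => jb t ^ (-e)) c
  rw [e4]

lemma base_one (n : ℕ) (hn : 2 ≤ n) {q e : ℝ} (hq : 2 < n * (q - 2))
    (he : ((n : ℝ) - 1) / n < e) :
    ∃ C : ℝ≥0∞, C ≠ ∞ ∧ ∀ w : (Fin 1 → ℝ) → ℂ, Measurable w → (∃ B : ℝ, ∀ s, ‖w s‖ ≤ B) →
      ∀ c : ℝ, ∫⁻ t, jb (t - c) ^ (-e) * ∫⁻ x, ‖∫ s, w s * phk 1 ((t, x), s) ∂(muk 1)‖ₑ ^ q ≤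
      C * ∫⁻ s, ‖w s‖ₑ ^ q ∂(muk 1) := by
  obtain ⟨C, hC, h⟩ := ov n hn hq he
  refine ⟨C, hC, ?_⟩
  rintro w hw ⟨B, hB⟩ c
  have hm : Measurable fun s : ℝ => (fun _ : Fin 1 => s) := by fun_prop
  have h1 := h (fun s => w fun _ => s) (hw.comp hm) ⟨B, fun s => hB _⟩ c
  have mp : MeasurePreserving (MeasurableEquiv.funUnique (Fin 1) ℝ) (muk 1)
      (volume.restrict (Icc (-1 : ℝ) 1)) := measurePreserving_funUnique _ _
  have mp2 : MeasurePreserving (MeasurableEquiv.funUnique (Fin 1) ℝ) volume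
      (volume : Measure ℝ) := volume_preserving_funUnique _ _
  have hx : ∀ x : Fin 1 → ℝ, (fun _ : Fin 1 => (MeasurableEquiv.funUnique (Fin 1) ℝ) x) = x := by
    intro x
    funext i
    have : i = 0 := Subsingleton.elim _ _
    rw [this]
    rfl
  have e1 : ∀ (t : ℝ) (x : Fin 1 → ℝ), ∫ s, w s * phk 1 ((t, x), s) ∂(muk 1) =
      ∫ s in Icc (-1 : ℝ) 1, w (fun _ => s) * ph ((x 0 : ℝ) : ℂ) t (s : ℂ) := by
    intro t x
    rw [← mp.integral_comp (MeasurableEquiv.funUnique (Fin 1) ℝ).measurableEmbedding]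
    congr 1; funext s
    rw [hx s]
    unfold phk
    simp only [Finset.univ_unique, Fin.default_eq_zero, Finset.prod_singleton]
    rfl
  have e2 : ∫⁻ s, ‖w s‖ₑ ^ q ∂(muk 1) = ∫⁻ s in Icc (-1 : ℝ) 1, ‖w fun _ => s‖ₑ ^ q := by
    rw [← mp.lintegral_comp_emb (MeasurableEquiv.funUnique (Fin 1) ℝ).measurableEmbedding]
    apply lintegral_congr
    intro s
    rw [hx s]
  have e3 : ∀ t : ℝ, ∫⁻ x : Fin 1 → ℝ,
      ‖∫ s in Icc (-1 : ℝ) 1, w (fun _ => s) * ph ((x 0 : ℝ) : ℂ) t (s : ℂ)‖ₑ ^ q =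
      ∫⁻ y : ℝ, ‖∫ s in Icc (-1 : ℝ) 1, w (fun _ => s) * ph (y : ℂ) t (s : ℂ)‖ₑ ^ q := by
    intro t
    rw [← mp2.lintegral_comp_emb (MeasurableEquiv.funUnique (Fin 1) ℝ).measurableEmbedding]
    rfl
  simp_rw [e1, e3, e2]
  exact h1

/-- the base for at most one rough variable -/
lemma base_k {k : ℕ} (hk : k ≤ 1) (n : ℕ) (hn : 2 ≤ n) {q e : ℝ} (hq : 2 < n * (q - 2))
    (he : ((n : ℝ) - k) / n < e) :
    ∃ C : ℝ≥0∞, C ≠ ∞ ∧ ∀ w : (Fin k → ℝ) → ℂ, Measurable w → (∃ B : ℝ, ∀ s, ‖w s‖ ≤ B) →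
      ∀ c : ℝ, ∫⁻ t, jb (t - c) ^ (-e) * ∫⁻ x, ‖∫ s, w s * phk k ((t, x), s) ∂(muk k)‖ₑ ^ q ≤
      C * ∫⁻ s, ‖w s‖ₑ ^ q ∂(muk k) := by
  have hn1 : (2 : ℝ) ≤ n := by exact_mod_cast hn
  have hq2 : 2 < q := by
    by_contra hc
    push Not at hc
    nlinarith
  have hn0 : (n : ℝ) ≠ 0 := by linarith
  rcases Nat.le_one_iff_eq_zero_or_eq_one.1 hk with h | h
  · subst h
    refine base_zero (by linarith) ?_
    rwa [Nat.cast_zero, sub_zero, div_self hn0] at he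
  · subst h
    refine base_one n hn hq ?_
    rwa [Nat.cast_one] at he

/-- **The chain of steps.** -/
theorem TT_chain {P m k : ℕ} (hk : k ≤ 1) (hn : 2 ≤ 2 * P + m + k) {q : ℝ}
    (hq : 2 + 2 / ((2 * P + m + k : ℕ) : ℝ) < q) (hq4 : q < 4) {N : ℝ} (hN : 0 ≤ N) :
    TT (muk k) volume (phk k) q N 0 P m := by
  set n : ℕ := 2 * P + m + k with hnd
  have hn1 : (2 : ℝ) ≤ n := by exact_mod_cast hn
  have hn0 : (0 : ℝ) < n := by linarith
  have hq2 : 2 < q := by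
    have : 0 < 2 / (n : ℝ) := by positivity
    linarith
  have hqn : 2 < n * (q - 2) := by
    have : 2 / (n : ℝ) < q - 2 := by linarith
    rw [div_lt_iff₀ hn0] at this
    linarith
  have hk1 : (k : ℝ) ≤ 1 := by exact_mod_cast hk
  have hPm : (P : ℝ) + m / 2 = (n - k) / 2 := by
    rw [hnd]; push_cast; ring
  set D : ℝ := (q - 2) * (P + m / 2) with hD
  have hnk : (0 : ℝ) < n - k := by linarith
  have hD1 : ((n : ℝ) - k) / n < D := by
    rw [hD, hPm, div_lt_iff₀ hn0]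
    nlinarith
  have hb0 : 0 < ((n : ℝ) - k) / n := div_pos hnk hn0
  set eb : ℝ := (((n : ℝ) - k) / n + D) / 2 with heb
  have heb1 : ((n : ℝ) - k) / n < eb := by rw [heb]; linarith
  have heb2 : eb < D := by rw [heb]; linarith
  have heb0 : 0 < eb := by linarith
  have hD0 : 0 < D := by linarith
  set lam : ℝ := eb / D with hlam
  have hl0 : 0 < lam := div_pos heb0 hD0
  have hl1 : lam < 1 := by rw [hlam, div_lt_one hD0]; exact heb2
  have hlD : lam * D = eb := by rw [hlam]; field_simp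
  have hbase : TT (muk k) volume (phk k) q N eb 0 0 :=
    TT_base (phk_meas k) (base_k hk n hn hqn heb1)
  -- linear blocks
  have hlin : ∀ m' : ℕ, m' ≤ m →
      TT (muk k) volume (phk k) q N (eb - lam * ((q - 2) * (m' / 2))) 0 m' := by
    intro m'
    induction m' with
    | zero =>
      intro _
      simpa using hbase
    | succ m' ih =>
      intro hm'
      refine TT_linear (phk_meas k) (norm_phk k) hq2 hN ?_ ?_ (ih (by omega))
      · have h1 : ((m' + 1 : ℕ) : ℝ) ≤ m := by exact_mod_cast hm'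
        have h2 : (q - 2) * (((m' + 1 : ℕ) : ℝ) / 2) ≤ D := by
          rw [hD]
          apply mul_le_mul_of_nonneg_left _ (by linarith)
          have : (0 : ℝ) ≤ P := Nat.cast_nonneg _
          linarith
        have h3 : lam * ((q - 2) * (((m' + 1 : ℕ) : ℝ) / 2)) ≤ lam * D :=
          mul_le_mul_of_nonneg_left h2 hl0.le
        rw [hlD] at h3
        linarith
      · push_cast
        have : lam * (q - 2) < q - 2 := by nlinarith
        nlinarith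
  -- planar blocks
  have hpl : ∀ P' : ℕ, P' ≤ P →
      TT (muk k) volume (phk k) q N (eb - lam * ((q - 2) * (P' + m / 2))) P' m := by
    intro P'
    induction P' with
    | zero =>
      intro _
      have := hlin m le_rfl
      simpa using this
    | succ P' ih =>
      intro hP'
      refine TT_planar (phk_meas k) (norm_phk k) hq2 hq4 hN ?_ ?_ (ih (by omega))
      · have h1 : ((P' + 1 : ℕ) : ℝ) ≤ P := by exact_mod_cast hP'
        have h2 : (q - 2) * (((P' + 1 : ℕ) : ℝ) + m / 2) ≤ D := by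
          rw [hD]
          apply mul_le_mul_of_nonneg_left _ (by linarith)
          linarith
        have h3 : lam * ((q - 2) * (((P' + 1 : ℕ) : ℝ) + m / 2)) ≤ lam * D :=
          mul_le_mul_of_nonneg_left h2 hl0.le
        rw [hlD] at h3
        linarith
      · push_cast
        have : lam * (q - 2) < q - 2 := by nlinarith
        nlinarith
  have hfin := hpl P le_rfl
  rw [← hD, hlD, sub_self] at hfin
  exact hfin

end Pool.Agent.T9h83.RAY
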