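import Mathlib
set_option autoImplicit false

/-! The modulus of continuity in the mean of a function of bounded variation on an interval,
extended by zero. -/

namespace Pool.Agent.T9h83.RAY

open MeasureTheory Set
open scoped ENNReal

lemma jump_vol (T : Set ℝ) (h : ℝ)
    (hST : ∀ v ∈ T, ∀ v' ∈ T, v < v' → v' - v ≤ h) (hh : 0 ≤ h) : volume T ≤ ENNReal.ofReal h := by
  refine (Real.volume_le_diam T).trans ?_
  rw [Metric.ediam_le_iff]
  intro x hx y hy
  rw [edist_dist, Real.dist_eq]
  apply ENNReal.ofReal_le_ofReal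
  rcases lt_trichotomy x y with h1 | h1 | h1
  · rw [abs_sub_comm, abs_of_pos (by linarith)]
    exact hST x hx y hy h1
  · rw [h1]; simpa using hh
  · rw [abs_of_pos (by linarith)]
    exact hST y hy x hx h1

theorem bv_mod_pos {S : Set ℝ} (hS : S.OrdConnected) (hSm : MeasurableSet S) {L : ℝ} (hL : 0 ≤ L)
    (hSL : S ⊆ Icc 0 L) {g : ℝ → ℂ} (hb : ∀ u ∈ S, ‖g u‖ ≤ 1)
    (hv : eVariationOn g S ≤ 1) {h : ℝ} (hh : 0 ≤ h) :
    ∫⁻ u, ‖S.indicator g (u + h) - S.indicator g u‖ₑ ≤ ENNReal.ofReal (3 * h) := by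
  have hne : ∀ v : ℝ, eVariationOn g (S ∩ Iic v) ≤ 1 := fun v =>
    (eVariationOn.mono g inter_subset_left).trans hv
  have hnt : ∀ v : ℝ, eVariationOn g (S ∩ Iic v) ≠ ∞ := fun v =>
    ne_top_of_le_ne_top ENNReal.one_ne_top (hne v)
  set p : ℝ → ℝ := fun v => (eVariationOn g (S ∩ Iic v)).toReal with hp
  have hpm : Monotone p := by
    intro v w hvw
    exact ENNReal.toReal_mono (hnt w)
      (eVariationOn.mono g (inter_subset_inter_right S (Iic_subset_Iic.2 hvw)))
  have hp0 : ∀ v, 0 ≤ p v := fun v => ENNReal.toReal_nonneg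
  have hp1 : ∀ v, p v ≤ 1 := by
    intro v
    have := ENNReal.toReal_mono ENNReal.one_ne_top (hne v)
    simpa using this
  have hdiff : ∀ v ∈ S, ∀ w ∈ S, v ≤ w → ‖g w - g v‖ₑ ≤ ENNReal.ofReal (p w - p v) := by
    intro v hv' w hw hvw
    have h1 : eVariationOn g (S ∩ Iic v) + eVariationOn g (S ∩ Icc v w) ≤
        eVariationOn g (S ∩ Iic w) := by
      refine (eVariationOn.add_le_union g ?_).trans (eVariationOn.mono g ?_)
      · intro x hx y hy
        exact hx.2.trans hy.2.1
      · rintro x (hx | hx)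
        · exact ⟨hx.1, hx.2.trans hvw⟩
        · exact ⟨hx.1, hx.2.2⟩
    have h2 : edist (g w) (g v) ≤ eVariationOn g (S ∩ Icc v w) :=
      eVariationOn.edist_le g ⟨hw, hvw, le_rfl⟩ ⟨hv', le_rfl, hvw⟩
    rw [edist_eq_enorm_sub] at h2
    rw [hp]
    simp only
    rw [ENNReal.ofReal_sub _ ENNReal.toReal_nonneg, ENNReal.ofReal_toReal (hnt w),
      ENNReal.ofReal_toReal (hnt v)]
    apply ENNReal.le_sub_of_add_le_left (hnt v)
    exact (add_le_add le_rfl h2).trans h1
  set T1 : Set ℝ := {v | v ∉ S ∧ v + h ∈ S} with hT1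
  set T2 : Set ℝ := {v | v ∈ S ∧ v + h ∉ S} with hT2
  have hsh : MeasurableSet {v : ℝ | v + h ∈ S} := (measurable_id.add_const h) hSm
  have hT1m : MeasurableSet T1 := hSm.compl.inter hsh
  have hT2m : MeasurableSet T2 := hSm.inter hsh.compl
  have v1 : volume T1 ≤ ENNReal.ofReal h := by
    apply jump_vol T1 h _ hh
    intro v hv' w hw hvw
    by_contra hcon
    push Not at hcon
    exact hw.1 (hS.out hv'.2 hw.2 ⟨by linarith, by linarith⟩)
  have v2 : volume T2 ≤ ENNReal.ofReal h := by
    apply jump_vol T2 h _ hh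
    intro v hv' w hw hvw
    by_contra hcon
    push Not at hcon
    exact hv'.2 (hS.out hv'.1 hw.1 ⟨by linarith, by linarith⟩)
  set I : Set ℝ := Icc 0 L with hI
  have hpt : ∀ u, ‖S.indicator g (u + h) - S.indicator g u‖ₑ ≤
      I.indicator (fun v => ENNReal.ofReal (p (v + h) - p v)) u +
      (T1.indicator (fun _ => (1 : ℝ≥0∞)) u + T2.indicator (fun _ => (1 : ℝ≥0∞)) u) := by
    intro u
    have hen : ∀ u ∈ S, ‖g u‖ₑ ≤ 1 := by
      intro u hu
      rw [← ofReal_norm]
      exact ENNReal.ofReal_le_one.2 (hb u hu)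
    by_cases h1 : u ∈ S
    · by_cases h2 : u + h ∈ S
      · refine le_trans ?_ le_self_add
        rw [indicator_of_mem h1, indicator_of_mem h2, indicator_of_mem (hSL h1)]
        exact hdiff u h1 (u + h) h2 (by linarith)
      · have h3 : u ∈ T2 := ⟨h1, h2⟩
        rw [indicator_of_mem h1, indicator_of_notMem h2, indicator_of_mem h3, zero_sub, enorm_neg]
        calc ‖g u‖ₑ ≤ 1 := hen u h1
          _ ≤ _ := le_add_self
          _ ≤ _ := le_add_self
    · by_cases h2 : u + h ∈ S
      · have h3 : u ∈ T1 := ⟨h1, h2⟩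
        rw [indicator_of_notMem h1, indicator_of_mem h2, indicator_of_mem h3, sub_zero]
        calc ‖g (u + h)‖ₑ ≤ 1 := hen _ h2
          _ ≤ 1 + T2.indicator (fun _ => (1 : ℝ≥0∞)) u := le_self_add
          _ ≤ _ := le_add_self
      · rw [indicator_of_notMem h1, indicator_of_notMem h2, sub_zero, enorm_zero]
        exact zero_le
  have hGm : Measurable fun v => ENNReal.ofReal (p (v + h) - p v) := by
    exact ENNReal.measurable_ofReal.comp
      ((hpm.measurable.comp (measurable_id.add_const h)).sub hpm.measurable)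
  have hGint : ∫⁻ v in I, ENNReal.ofReal (p (v + h) - p v) ≤ ENNReal.ofReal h := by
    have hPi : ∀ a b : ℝ, IntervalIntegrable p volume a b := fun a b => hpm.intervalIntegrable
    have hPi2 : IntervalIntegrable (fun v => p (v + h)) volume 0 L := by
      have hm : Monotone fun v => p (v + h) := fun v w hvw => hpm (by linarith)
      exact hm.intervalIntegrable
    have hGi : IntervalIntegrable (fun v => p (v + h) - p v) volume 0 L := hPi2.sub (hPi _ _)
    have hGi2 : IntegrableOn (fun v => p (v + h) - p v) I := by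
      rw [hI, integrableOn_Icc_iff_integrableOn_Ioc]
      exact (intervalIntegrable_iff_integrableOn_Ioc_of_le hL).1 hGi
    rw [← ofReal_integral_eq_lintegral_ofReal hGi2 (Filter.Eventually.of_forall fun v =>
      sub_nonneg.2 (hpm (by linarith)))]
    refine ENNReal.ofReal_le_ofReal ?_
    rw [hI, integral_Icc_eq_integral_Ioc, ← intervalIntegral.integral_of_le hL,
      intervalIntegral.integral_sub hPi2 (hPi _ _), intervalIntegral.integral_comp_add_right]
    have e4 : ∫ v in (0 + h)..(L + h), p v = (∫ v in (0:ℝ)..L, p v) +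
        (∫ v in L..(L + h), p v) - ∫ v in (0 : ℝ)..(0 + h), p v := by
      have a1 := intervalIntegral.integral_add_adjacent_intervals (hPi 0 L) (hPi L (L + h))
      have a2 := intervalIntegral.integral_add_adjacent_intervals (hPi 0 (0 + h))
        (hPi (0 + h) (L + h))
      rw [a1, ← a2]
      ring
    have e5 : ∫ v in L..(L + h), p v ≤ h := by
      calc ∫ v in L..(L + h), p v ≤ ∫ _v in L..(L + h), (1 : ℝ) :=
            intervalIntegral.integral_mono (by linarith) (hPi _ _) intervalIntegrable_const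
              fun v => hp1 v
        _ = h := by simp
    have e6 : 0 ≤ ∫ v in (0 : ℝ)..(0 + h), p v :=
      intervalIntegral.integral_nonneg (by linarith) fun v _ => hp0 v
    rw [e4]
    linarith
  calc ∫⁻ u, ‖S.indicator g (u + h) - S.indicator g u‖ₑ
      ≤ ∫⁻ u, (I.indicator (fun v => ENNReal.ofReal (p (v + h) - p v)) u +
      (T1.indicator (fun _ => (1 : ℝ≥0∞)) u + T2.indicator (fun _ => (1 : ℝ≥0∞)) u)) :=
        lintegral_mono hpt
    _ = (∫⁻ v in I, ENNReal.ofReal (p (v + h) - p v)) + (volume T1 + volume T2) := by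
        rw [lintegral_add_left (hGm.indicator measurableSet_Icc),
          lintegral_add_left (measurable_const.indicator hT1m),
          lintegral_indicator measurableSet_Icc, lintegral_indicator hT1m,
          lintegral_indicator hT2m, setLIntegral_const, setLIntegral_const, one_mul, one_mul]
    _ ≤ ENNReal.ofReal h + (ENNReal.ofReal h + ENNReal.ofReal h) :=
        add_le_add hGint (add_le_add v1 v2)
    _ = ENNReal.ofReal (3 * h) := by
        rw [← ENNReal.ofReal_add hh hh, ← ENNReal.ofReal_add hh (by positivity)]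
        congr 1
        ring

theorem bv_mod {S : Set ℝ} (hS : S.OrdConnected) (hSm : MeasurableSet S) {L : ℝ} (hL : 0 ≤ L)
    (hSL : S ⊆ Icc 0 L) {g : ℝ → ℂ} (hb : ∀ u ∈ S, ‖g u‖ ≤ 1)
    (hv : eVariationOn g S ≤ 1) (h : ℝ) :
    ∫⁻ u, ‖S.indicator g (u + h) - S.indicator g u‖ₑ ≤ ENNReal.ofReal (3 * |h|) := by
  rcases le_or_gt 0 h with hh | hh
  · rw [abs_of_nonneg hh]
    exact bv_mod_pos hS hSm hL hSL hb hv hh
  · rw [abs_of_neg hh]
    refine le_trans (le_of_eq ?_) (bv_mod_pos hS hSm hL hSL hb hv (h := -h) (by linarith))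
    rw [← lintegral_add_right_eq_self
      (fun u => ‖S.indicator g (u + h) - S.indicator g u‖ₑ) (-h)]
    refine lintegral_congr fun v => ?_
    rw [neg_add_cancel_right, enorm_sub_rev]

/-- the exponential weight, constant outside `[0, L]` -/
noncomputable def ew (L u : ℝ) : ℝ := Real.exp (Real.pi * max 0 (min u L))

lemma ew_eq {L u : ℝ} (h0 : 0 ≤ u) (hL : u ≤ L) : ew L u = Real.exp (Real.pi * u) := by
  unfold ew
  rw [min_eq_left hL, max_eq_right h0]

lemma ew_le {L : ℝ} (hL : 0 ≤ L) (u : ℝ) : ew L u ≤ Real.exp (Real.pi * L) := by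
  unfold ew
  apply Real.exp_le_exp.2
  have : max 0 (min u L) ≤ L := max_le hL (min_le_right _ _)
  have := Real.pi_pos
  nlinarith

lemma ew_pos (L u : ℝ) : 0 < ew L u := Real.exp_pos _

lemma ew_cont (L : ℝ) : Continuous (ew L) := by unfold ew; fun_prop

lemma exp_lip {M a b : ℝ} (ha : a ≤ M) (hb : b ≤ M) :
    |Real.exp a - Real.exp b| ≤ Real.exp M * |a - b| := by
  have key : ∀ a b : ℝ, a ≤ M → b ≤ a → Real.exp a - Real.exp b ≤ Real.exp M * (a - b) := by
    intro a b ha hba
    have h1 := Real.add_one_le_exp (b - a)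
    have h2 : Real.exp b = Real.exp a * Real.exp (b - a) := by rw [← Real.exp_add]; ring_nf
    have h3 : Real.exp a ≤ Real.exp M := Real.exp_le_exp.2 ha
    have h4 := Real.exp_pos a
    rw [h2]
    calc Real.exp a - Real.exp a * Real.exp (b - a) = Real.exp a * (1 - Real.exp (b - a)) := by
          ring
      _ ≤ Real.exp a * (a - b) := by
          apply mul_le_mul_of_nonneg_left _ h4.le
          linarith
      _ ≤ _ := by
          apply mul_le_mul_of_nonneg_right h3
          linarith
  rcases le_total b a with h | h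
  · rw [abs_of_nonneg (sub_nonneg.2 h), abs_of_nonneg (sub_nonneg.2 (Real.exp_le_exp.2 h))]
    exact key a b ha h
  · rw [abs_sub_comm, abs_sub_comm a b, abs_of_nonneg (sub_nonneg.2 h),
      abs_of_nonneg (sub_nonneg.2 (Real.exp_le_exp.2 h))]
    exact key b a hb h

lemma clamp_lip (L u v : ℝ) : |max 0 (min u L) - max 0 (min v L)| ≤ |u - v| := by
  have h1 : |max 0 (min u L) - max 0 (min v L)| ≤ |min u L - min v L| := by
    have := abs_max_sub_max_le_max 0 (min u L) 0 (min v L)
    simpa using this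
  have h2 : |min u L - min v L| ≤ |u - v| := by
    have := abs_min_sub_min_le_max u L v L
    simpa using this
  exact h1.trans h2

lemma ew_lip {L : ℝ} (hL : 0 ≤ L) (u v : ℝ) :
    |ew L u - ew L v| ≤ Real.exp (Real.pi * L) * Real.pi * |u - v| := by
  unfold ew
  have hpi := Real.pi_pos
  have h1 : ∀ u : ℝ, Real.pi * max 0 (min u L) ≤ Real.pi * L := by
    intro u
    have : max 0 (min u L) ≤ L := max_le hL (min_le_right _ _)
    nlinarith
  refine (exp_lip (h1 u) (h1 v)).trans ?_
  rw [← mul_sub, abs_mul, abs_of_pos hpi, mul_assoc]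
  exact mul_le_mul_of_nonneg_left (mul_le_mul_of_nonneg_left (clamp_lip L u v) hpi.le)
    (Real.exp_pos _).le

end Pool.Agent.T9h83.RAY
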