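import Pool.Agent.T9h83.RAY.Step
set_option autoImplicit false

/-! Functions on products of planar and linear blocks. -/

namespace Pool.Agent.T9h83.RAY

open Complex MeasureTheory Set
open scoped ENNReal Real ComplexConjugate

/-- a bounded profile with a parameter -/
structure PN {Y : Type*} [MeasurableSpace Y] (N : ℝ) (Φ : ℝ × Y → ℂ) : Prop where
  pb : PB N N Φ
  bdd : ∀ p, ‖Φ p‖ ≤ N

/-- the directions -/
noncomputable def arP {P : ℕ} (ξ : Fin P → ℂ) : Fin P → ℝ := fun p => arg (ξ p)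

lemma arP_cn {P : ℕ} (a : ℂ) (ξ : Fin P → ℂ) : arP (cn a ξ) = cn (arg a) (arP ξ) := by
  funext i
  refine Fin.cases ?_ (fun j => ?_) i
  · rfl
  · rfl

lemma arP_meas {P : ℕ} : Measurable (arP (P := P)) := by
  rw [measurable_pi_iff]
  intro p
  exact measurable_arg.comp (measurable_pi_apply p)

/-- the phase -/
noncomputable def phZ {P m : ℕ} (t : ℝ) (x ζ : ZZ P m) : ℂ :=
  (∏ p, ph (x.1 p) t (ζ.1 p)) * ∏ j, ph ((x.2 j : ℝ) : ℂ) t ((ζ.2 j : ℝ) : ℂ)

lemma phZ_cn {P m : ℕ} (t : ℝ) (a b : ℂ) (x ζ : ZZ P m) :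
    phZ t (cn a x.1, x.2) (cn b ζ.1, ζ.2) = ph a t b * phZ t x ζ := by
  unfold phZ
  simp only [Fin.prod_univ_succ, cn_zero, cn_succ]
  ring

lemma norm_phZ {P m : ℕ} (t : ℝ) (x ζ : ZZ P m) : ‖phZ t x ζ‖ = 1 := by
  unfold phZ
  rw [norm_mul, norm_prod, norm_prod]
  simp [norm_ph]

lemma ph_meas2 (t : ℝ) : Measurable fun p : ℂ × ℂ => ph p.1 t p.2 := by
  have : Continuous fun p : ℂ × ℂ => ph p.1 t p.2 := by
    unfold ph
    fun_prop
  exact this.measurable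

lemma phZ_meas {P m : ℕ} (t : ℝ) : Measurable fun p : ZZ P m × ZZ P m => phZ t p.1 p.2 := by
  unfold phZ
  refine Measurable.mul (Finset.measurable_prod _ fun i _ => ?_)
    (Finset.measurable_prod _ fun j _ => ?_)
  · have h1 : Measurable fun p : ZZ P m × ZZ P m => (p.1.1 i, p.2.1 i) := by fun_prop
    have h2 := (ph_meas2 t).comp h1
    exact h2
  · have h1 : Measurable fun p : ZZ P m × ZZ P m =>
        (((p.1.2 j : ℝ) : ℂ), ((p.2.2 j : ℝ) : ℂ)) := by fun_prop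
    have h2 := (ph_meas2 t).comp h1
    exact h2

/-- the extension operator -/
noncomputable def EZ {P m : ℕ} (F : ZZ P m → ℂ) (t : ℝ) (x : ZZ P m) : ℂ :=
  ∫ ζ, F ζ * phZ t x ζ

/-- the Gaussian weight -/
noncomputable def GZ {P m : ℕ} (ζ : ZZ P m) : ℂ :=
  (∏ p, gs (ζ.1 p)) * ∏ j, gs ((ζ.2 j : ℝ) : ℂ)

lemma GZ_cn {P m : ℕ} (a : ℂ) (ζ : ZZ P m) :
    GZ ((cn a ζ.1, ζ.2) : ZZ (P + 1) m) = gs a * GZ ζ := by
  unfold GZ
  simp only [Fin.prod_univ_succ, cn_zero, cn_succ]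
  ring

lemma GZ_int {P m : ℕ} : Integrable (GZ (P := P) (m := m)) := by
  have h1 : Integrable (fun x : Fin P → ℂ => ∏ p, gs (x p)) :=
    Integrable.fintype_prod fun _ => gs_int
  have h2 : Integrable (fun x : Fin m → ℝ => ∏ j, gs ((x j : ℝ) : ℂ)) :=
    Integrable.fintype_prod (f := fun (_ : Fin m) (s : ℝ) => gs (s : ℂ)) fun _ => gsr_int
  exact h1.mul_prod h2

lemma GZ_meas {P m : ℕ} : Measurable (GZ (P := P) (m := m)) := by
  unfold GZ
  refine Measurable.mul (Finset.measurable_prod _ fun i _ => ?_)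
    (Finset.measurable_prod _ fun j _ => ?_)
  · exact gs_cont.measurable.comp ((measurable_pi_apply i).comp measurable_fst)
  · exact gsr_cont.measurable.comp ((measurable_pi_apply j).comp measurable_snd)

/-- the functions -/
noncomputable def FZ {P m : ℕ} (h : (Fin P → ℝ) → ℂ) (g : Fin P → ℝ × (Fin P → ℝ) → ℂ)
    (b : Fin m → ℝ × (Fin P → ℝ) → ℂ) (ζ : ZZ P m) : ℂ :=
  h (arP ζ.1) * (((∏ p, g p (‖ζ.1 p‖ ^ 2, arP ζ.1)) * ∏ j, b j (ζ.2 j, arP ζ.1)) * GZ ζ)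

/-- joint measurability -/
lemma FZ_meas {Y : Type*} [MeasurableSpace Y] {P m : ℕ} {h : Y × (Fin P → ℝ) → ℂ}
    (hh : Measurable h) {g : Fin P → Y × (ℝ × (Fin P → ℝ)) → ℂ} (hg : ∀ p, Measurable (g p))
    {b : Fin m → Y × (ℝ × (Fin P → ℝ)) → ℂ} (hb : ∀ j, Measurable (b j)) :
    Measurable fun r : Y × ZZ P m => FZ (fun θ => h (r.1, θ)) (fun p v => g p (r.1, v))
      (fun j v => b j (r.1, v)) r.2 := by
  unfold FZ
  have ha : Measurable fun r : Y × ZZ P m => arP r.2.1 :=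
    arP_meas.comp (measurable_fst.comp measurable_snd)
  refine Measurable.mul ?_ (Measurable.mul (Measurable.mul
    (Finset.measurable_prod _ fun i _ => ?_) (Finset.measurable_prod _ fun j _ => ?_)) ?_)
  · have h1 := hh.comp (measurable_fst.prodMk ha)
    exact h1
  · have h2 : Measurable fun r : Y × ZZ P m => ‖r.2.1 i‖ ^ 2 :=
      ((measurable_pi_apply i).comp (measurable_fst.comp measurable_snd)).norm.pow_const 2
    have h1 := (hg i).comp (measurable_fst.prodMk (h2.prodMk ha))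
    exact h1
  · have h2 : Measurable fun r : Y × ZZ P m => r.2.2 j :=
      (measurable_pi_apply j).comp (measurable_snd.comp measurable_snd)
    have h1 := (hb j).comp (measurable_fst.prodMk (h2.prodMk ha))
    exact h1
  · exact GZ_meas.comp measurable_snd

lemma FZ_meas1 {P m : ℕ} {h : (Fin P → ℝ) → ℂ} {g : Fin P → ℝ × (Fin P → ℝ) → ℂ}
    {b : Fin m → ℝ × (Fin P → ℝ) → ℂ} (hh : Measurable h) (hg : ∀ p, Measurable (g p))
    (hb : ∀ j, Measurable (b j)) : Measurable (FZ h g b) := by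
  have h1 := FZ_meas (Y := Unit) (h := fun p => h p.2) (hh.comp measurable_snd)
    (g := fun p v => g p v.2) (fun p => (hg p).comp measurable_snd)
    (b := fun j v => b j v.2) (fun j => (hb j).comp measurable_snd)
  have h2 := h1.comp (measurable_prodMk_left (x := ()) : Measurable fun ζ : ZZ P m => ((), ζ))
  exact h2

/-- the pointwise bound -/
lemma FZ_bd {P m : ℕ} {h : (Fin P → ℝ) → ℂ} {g : Fin P → ℝ × (Fin P → ℝ) → ℂ}
    {b : Fin m → ℝ × (Fin P → ℝ) → ℂ} {B N : ℝ} (hh : ∀ θ, ‖h θ‖ ≤ B)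
    (hg : ∀ p, PN N (g p)) (hb : ∀ j, PN N (b j)) (ζ : ZZ P m) :
    ‖FZ h g b ζ‖ ≤ B * (N ^ P * N ^ m) * ‖GZ ζ‖ := by
  have hB : 0 ≤ B := (norm_nonneg _).trans (hh 0)
  unfold FZ
  rw [norm_mul, norm_mul, norm_mul, norm_prod, norm_prod, mul_assoc B]
  refine mul_le_mul (hh _) (mul_le_mul_of_nonneg_right ?_ (norm_nonneg _)) (by positivity) hB
  refine mul_le_mul ?_ ?_ (by positivity) ?_
  · calc ∏ p, ‖g p (‖ζ.1 p‖ ^ 2, arP ζ.1)‖ ≤ ∏ _p : Fin P, N :=
          Finset.prod_le_prod (fun _ _ => norm_nonneg _) fun p _ => (hg p).bdd _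
      _ = N ^ P := by simp
  · calc ∏ j, ‖b j (ζ.2 j, arP ζ.1)‖ ≤ ∏ _j : Fin m, N :=
          Finset.prod_le_prod (fun _ _ => norm_nonneg _) fun j _ => (hb j).bdd _
      _ = N ^ m := by simp
  · rcases Nat.eq_zero_or_pos P with h0 | h0
    · rw [h0]; simp
    · have : 0 ≤ N := (norm_nonneg _).trans ((hg ⟨0, h0⟩).bdd (0, 0))
      positivity

lemma FZ_int {P m : ℕ} {h : (Fin P → ℝ) → ℂ} {g : Fin P → ℝ × (Fin P → ℝ) → ℂ}
    {b : Fin m → ℝ × (Fin P → ℝ) → ℂ} {B N : ℝ} (hm : Measurable h) (hh : ∀ θ, ‖h θ‖ ≤ B)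
    (hg : ∀ p, PN N (g p)) (hb : ∀ j, PN N (b j)) : Integrable (FZ h g b) := by
  refine (GZ_int.norm.const_mul (B * (N ^ P * N ^ m))).mono'
    (FZ_meas1 hm (fun p => (hg p).pb.meas) fun j => (hb j).pb.meas).aestronglyMeasurable
    (Filter.Eventually.of_forall fun ζ => FZ_bd hh hg hb ζ)

/-- the slices -/
lemma PN.slice {P : ℕ} {N : ℝ} {g : ℝ × (Fin (P + 1) → ℝ) → ℂ} (hg : PN N g) (a : ℝ) :
    PN N (fun v : ℝ × (Fin P → ℝ) => g (v.1, cn a v.2)) := by
  have hc : Measurable fun v : ℝ × (Fin P → ℝ) => (v.1, cn a v.2) := by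
    have h1 : Measurable fun v : ℝ × (Fin P → ℝ) => (a, v.2) :=
      measurable_const.prodMk measurable_snd
    have h2 := cn_meas.comp h1
    exact measurable_fst.prodMk h2
  refine ⟨⟨?_, fun y => hg.pb.int (cn a y), fun y k => hg.pb.mod (cn a y) k⟩,
    fun p => hg.bdd _⟩
  have h3 := hg.pb.meas.comp hc
  exact h3

end Pool.Agent.T9h83.RAY
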