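import Mathlib
set_option autoImplicit false

/-! Splitting off one coordinate. -/

namespace Pool.Agent.T9h83.RAY

open MeasureTheory Set
open scoped ENNReal Real

variable {α : Type*}

/-- a vector with a new first entry -/
def cn {P : ℕ} (a : α) (v : Fin P → α) : Fin (P + 1) → α := Fin.cons a v

@[simp] lemma cn_zero {P : ℕ} (a : α) (v : Fin P → α) : cn a v 0 = a := rfl

@[simp] lemma cn_succ {P : ℕ} (a : α) (v : Fin P → α) (i : Fin P) : cn a v i.succ = v i := rfl

lemma cn_meas [MeasurableSpace α] {P : ℕ} :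
    Measurable fun p : α × (Fin P → α) => cn p.1 p.2 := by
  rw [measurable_pi_iff]
  intro i
  refine Fin.cases ?_ (fun j => ?_) i
  · exact measurable_fst
  · exact (measurable_pi_apply j).comp measurable_snd

/-- the measurable equivalence -/
noncomputable def ecn (α : Type*) [MeasurableSpace α] (P : ℕ) :
    α × (Fin P → α) ≃ᵐ (Fin (P + 1) → α) :=
  (MeasurableEquiv.piFinSuccAbove (fun _ => α) 0).symm

lemma ecn_apply [MeasurableSpace α] {P : ℕ} (p : α × (Fin P → α)) :
    ecn α P p = cn p.1 p.2 := by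
  unfold ecn cn
  rw [MeasurableEquiv.piFinSuccAbove_symm_apply]
  simp [Fin.insertNthEquiv]

lemma mp_ecn [MeasurableSpace α] (μ : Measure α) [SigmaFinite μ] (P : ℕ) :
    MeasurePreserving (ecn α P) (μ.prod (Measure.pi fun _ : Fin P => μ))
      (Measure.pi fun _ : Fin (P + 1) => μ) :=
  (measurePreserving_piFinSuccAbove (fun _ : Fin (P + 1) => μ) 0).symm

lemma lint_cn [MeasurableSpace α] (μ : Measure α) [SigmaFinite μ] {P : ℕ}
    {f : (Fin (P + 1) → α) → ℝ≥0∞} (hf : Measurable f) :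
    ∫⁻ x, f x ∂(Measure.pi fun _ : Fin (P + 1) => μ) =
      ∫⁻ a, ∫⁻ v, f (cn a v) ∂(Measure.pi fun _ : Fin P => μ) ∂μ := by
  have h1 : Measurable fun p => f (ecn α P p) := hf.comp (ecn α P).measurable
  rw [← (mp_ecn μ P).lintegral_comp_emb (ecn α P).measurableEmbedding,
    lintegral_prod _ h1.aemeasurable]
  simp_rw [ecn_apply]

lemma lint_prod {m : ℕ} {f : Fin m → ℝ → ℝ≥0∞} (hf : ∀ j, Measurable (f j)) :
    ∫⁻ y : Fin m → ℝ, ∏ j, f j (y j) = ∏ j, ∫⁻ s, f j s := by
  induction m with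
  | zero => simp [volume_pi]
  | succ m ih =>
    have hm : Measurable fun y : Fin (m + 1) → ℝ => ∏ j, f j (y j) :=
      Finset.measurable_prod _ fun j _ => (hf j).comp (measurable_pi_apply j)
    rw [volume_pi, lint_cn volume hm, Fin.prod_univ_succ]
    simp_rw [Fin.prod_univ_succ, cn_zero, cn_succ]
    have e : ∀ a : ℝ, ∫⁻ v : Fin m → ℝ, f 0 a * ∏ j : Fin m, f j.succ (v j)
        ∂(Measure.pi fun _ => volume) = f 0 a * ∏ j : Fin m, ∫⁻ s, f j.succ s := by
      intro a
      rw [lintegral_const_mul, ← volume_pi, ih fun j => hf j.succ]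
      exact Finset.measurable_prod _ fun j _ => (hf j.succ).comp (measurable_pi_apply j)
    simp_rw [e]
    rw [lintegral_mul_const _ (hf 0)]

/-- the space of frequencies -/
abbrev ZZ (P m : ℕ) := (Fin P → ℂ) × (Fin m → ℝ)

/-- the measurable equivalence splitting off the first planar block -/
noncomputable def ecz (P m : ℕ) : ℂ × ZZ P m ≃ᵐ ZZ (P + 1) m :=
  MeasurableEquiv.prodAssoc.symm.trans ((ecn ℂ P).prodCongr (MeasurableEquiv.refl _))

lemma ecz_apply {P m : ℕ} (p : ℂ × ZZ P m) : ecz P m p = (cn p.1 p.2.1, p.2.2) := by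
  unfold ecz
  simp only [MeasurableEquiv.trans_apply]
  change (ecn ℂ P (p.1, p.2.1), p.2.2) = _
  rw [ecn_apply]

lemma mp_ecz (P m : ℕ) : MeasurePreserving (ecz P m)
    ((volume : Measure ℂ).prod (volume : Measure (ZZ P m))) (volume : Measure (ZZ (P + 1) m)) := by
  have h1 : MeasurePreserving (MeasurableEquiv.prodAssoc.symm : ℂ × ZZ P m ≃ᵐ _)
      ((volume : Measure ℂ).prod ((volume : Measure (Fin P → ℂ)).prod
        (volume : Measure (Fin m → ℝ))))
      (((volume : Measure ℂ).prod (volume : Measure (Fin P → ℂ))).prod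
        (volume : Measure (Fin m → ℝ))) :=
    (measurePreserving_prodAssoc _ _ _).symm
  have h2 : MeasurePreserving (ecn ℂ P) ((volume : Measure ℂ).prod (volume : Measure (Fin P → ℂ)))
      (volume : Measure (Fin (P + 1) → ℂ)) := mp_ecn volume P
  have h3 : MeasurePreserving (Prod.map (ecn ℂ P) (MeasurableEquiv.refl (Fin m → ℝ)))
      (((volume : Measure ℂ).prod (volume : Measure (Fin P → ℂ))).prod
        (volume : Measure (Fin m → ℝ)))
      ((volume : Measure (Fin (P + 1) → ℂ)).prod (volume : Measure (Fin m → ℝ))) :=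
    h2.prod (MeasurePreserving.id _)
  exact h3.comp h1

lemma lint_cz {P m : ℕ} {f : ZZ (P + 1) m → ℝ≥0∞} (hf : Measurable f) :
    ∫⁻ z, f z = ∫⁻ ζ : ZZ P m, ∫⁻ a : ℂ, f (cn a ζ.1, ζ.2) := by
  have h1 : Measurable fun p => f (ecz P m p) := hf.comp (ecz P m).measurable
  rw [← (mp_ecz P m).lintegral_comp_emb (ecz P m).measurableEmbedding,
    lintegral_prod_symm _ h1.aemeasurable]
  simp_rw [ecz_apply]

lemma int_cz {P m : ℕ} {F : ZZ (P + 1) m → ℂ} (hF : Integrable F) :
    ∫ z, F z = ∫ a : ℂ, ∫ ζ : ZZ P m, F (cn a ζ.1, ζ.2) := by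
  have h1 := (mp_ecz P m).integral_comp (ecz P m).measurableEmbedding F
  have h2 : Integrable (fun p => F (ecz P m p))
      ((volume : Measure ℂ).prod (volume : Measure (ZZ P m))) :=
    (mp_ecz P m).integrable_comp_of_integrable hF
  rw [← h1, integral_prod _ h2]
  simp_rw [ecz_apply]

end Pool.Agent.T9h83.RAY
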