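import Pool.Agent.T9h83.RAY.Prof
set_option autoImplicit false

/-! Representation of `G(|ξ|², ξ) exp(-π|ξ|²)` by time translations. -/

namespace Pool.Agent.T9h83.RAY

open Complex MeasureTheory Set
open scoped ENNReal Real ComplexConjugate

/-- the damping factor -/
noncomputable def dmp (ε τ : ℝ) : ℂ := ((Real.exp (-(π * ε) * τ ^ 2) : ℝ) : ℂ)

lemma dmp_cont (ε : ℝ) : Continuous (dmp ε) := by unfold dmp; fun_prop

lemma norm_dmp (ε τ : ℝ) : ‖dmp ε τ‖ = Real.exp (-(π * ε) * τ ^ 2) := by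
  unfold dmp
  rw [norm_real, Real.norm_eq_abs, abs_of_pos (Real.exp_pos _)]

lemma norm_dmp_le {ε : ℝ} (hε : 0 < ε) (τ : ℝ) : ‖dmp ε τ‖ ≤ 1 := by
  rw [norm_dmp, Real.exp_le_one_iff]
  have : 0 ≤ π * ε * τ ^ 2 := by positivity
  linarith

lemma dmp_int {ε : ℝ} (hε : 0 < ε) : Integrable (dmp ε) := by
  unfold dmp
  exact (integrable_exp_neg_mul_sq (b := π * ε) (by positivity)).ofReal

lemma gg_real_norm {ε : ℝ} (hε : 0 < ε) (s : ℝ) :
    ‖gg (ε : ℂ) s‖ = Real.sqrt ε⁻¹ * Real.exp (-π * s ^ 2 / ε) := by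
  unfold gg
  rw [norm_mul, norm_cpow_half (by simpa using hε), norm_cexp_div, norm_real, Real.norm_eq_abs,
    abs_of_pos hε, ofReal_re, normSq_ofReal]
  congr 2
  field_simp

/-- the regularised profile -/
noncomputable def Ge (ε : ℝ) (G : ℝ × ℂ → ℂ) (v : ℝ) (ξ : ℂ) : ℂ :=
  ∫ u : ℝ, G (u, ξ) * gg (ε : ℂ) (v - u)

lemma gg_mass {ε : ℝ} (hε : 0 < ε) : ∫ h : ℝ, gg (ε : ℂ) h = 1 := by
  have h1 : ∫ h : ℝ, Real.exp (-(π / ε) * h ^ 2) = Real.sqrt (π / (π / ε)) := integral_gaussian _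
  have h2 : ∀ h : ℝ, gg (ε : ℂ) h =
      (ε : ℂ) ^ (-(1 / 2) : ℂ) * ((Real.exp (-(π / ε) * h ^ 2) : ℝ) : ℂ) := by
    intro h
    unfold gg
    push_cast
    congr 2
    ring
  simp_rw [h2]
  have h3 : ∫ h : ℝ, ((Real.exp (-(π / ε) * h ^ 2) : ℝ) : ℂ) =
      ((∫ h : ℝ, Real.exp (-(π / ε) * h ^ 2) : ℝ) : ℂ) := integral_ofReal
  rw [integral_const_mul, h3, h1]
  have h4 : Real.sqrt (π / (π / ε)) = ε ^ (1 / 2 : ℝ) := by
    rw [← Real.sqrt_eq_rpow]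
    congr 1
    field_simp
  rw [h4]
  have h5 : (ε : ℂ) ^ (-(1 / 2) : ℂ) = ((ε ^ (-(1 / 2) : ℝ) : ℝ) : ℂ) := by
    rw [ofReal_cpow hε.le]
    push_cast
    rfl
  rw [h5, ← ofReal_mul, ← Real.rpow_add hε]
  norm_num

lemma gg_integrable {ε : ℝ} (hε : 0 < ε) : Integrable (gg (ε : ℂ)) := by
  by_contra h
  have := gg_mass hε
  rw [integral_undef h] at this
  exact zero_ne_one this

lemma gg_bdd {ε : ℝ} (hε : 0 < ε) (s : ℝ) : ‖gg (ε : ℂ) s‖ ≤ Real.sqrt ε⁻¹ := by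
  rw [gg_real_norm hε]
  have : Real.exp (-π * s ^ 2 / ε) ≤ 1 := by
    rw [Real.exp_le_one_iff]
    have : 0 ≤ π * s ^ 2 / ε := by positivity
    have e : -π * s ^ 2 / ε = -(π * s ^ 2 / ε) := by ring
    linarith
  calc _ ≤ Real.sqrt ε⁻¹ * 1 := by gcongr
    _ = _ := mul_one _

/-- first moment of the Gaussian kernel -/
lemma gg_moment {ε : ℝ} (hε : 0 < ε) {A : ℝ} (hA : 0 ≤ A) :
    ∫⁻ h : ℝ, ‖gg (ε : ℂ) h‖ₑ * ENNReal.ofReal (A * |h|) ≤ ENNReal.ofReal (2 * A * Real.sqrt ε) := by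
  have hs : 0 < Real.sqrt ε := Real.sqrt_pos.2 hε
  have h1 : ∀ h : ℝ, ‖gg (ε : ℂ) h‖ₑ * ENNReal.ofReal (A * |h|) ≤
      ENNReal.ofReal (A * Real.exp (-(π / (2 * ε)) * h ^ 2)) := by
    intro h
    rw [← ofReal_norm, ← ENNReal.ofReal_mul (norm_nonneg _)]
    apply ENNReal.ofReal_le_ofReal
    rw [gg_real_norm hε]
    set y := |h| / Real.sqrt ε with hy
    have hy0 : 0 ≤ y := by positivity
    have hh : |h| = y * Real.sqrt ε := by rw [hy]; field_simp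
    have hh2 : h ^ 2 = y ^ 2 * ε := by
      rw [← sq_abs, hh, mul_pow, Real.sq_sqrt hε.le]
    have e1 : Real.sqrt ε⁻¹ = (Real.sqrt ε)⁻¹ := Real.sqrt_inv ε
    have e2 : -π * h ^ 2 / ε = -(π / 2 * y ^ 2) + -(π / 2 * y ^ 2) := by
      rw [hh2]; field_simp; ring
    have e3 : -(π / (2 * ε)) * h ^ 2 = -(π / 2 * y ^ 2) := by
      rw [hh2]; field_simp
    rw [e1, e2, e3, hh, Real.exp_add]
    have h3 : y * Real.exp (-(π / 2 * y ^ 2)) ≤ 1 := by
      rw [Real.exp_neg, ← div_eq_mul_inv, div_le_one (Real.exp_pos _)]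
      have := Real.add_one_le_exp (π / 2 * y ^ 2)
      nlinarith [sq_nonneg (y - 1), Real.pi_gt_three]
    calc (Real.sqrt ε)⁻¹ * (Real.exp (-(π / 2 * y ^ 2)) * Real.exp (-(π / 2 * y ^ 2))) *
          (A * (y * Real.sqrt ε)) =
          A * ((y * Real.exp (-(π / 2 * y ^ 2))) * Real.exp (-(π / 2 * y ^ 2))) := by
          field_simp
      _ ≤ A * (1 * Real.exp (-(π / 2 * y ^ 2))) := by gcongr
      _ = _ := by rw [one_mul]
  refine (lintegral_mono h1).trans ?_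
  have hi : Integrable fun h : ℝ => A * Real.exp (-(π / (2 * ε)) * h ^ 2) :=
    (integrable_exp_neg_mul_sq (by positivity)).const_mul A
  rw [← ofReal_integral_eq_lintegral_ofReal hi (Filter.Eventually.of_forall fun h => by positivity)]
  apply ENNReal.ofReal_le_ofReal
  rw [integral_const_mul, integral_gaussian]
  have e4 : Real.sqrt (π / (π / (2 * ε))) ≤ 2 * Real.sqrt ε := by
    have : π / (π / (2 * ε)) = 2 * ε := by field_simp
    rw [this]
    apply Real.sqrt_le_iff.2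
    refine ⟨by positivity, ?_⟩
    rw [mul_pow, Real.sq_sqrt hε.le]
    linarith
  calc A * Real.sqrt (π / (π / (2 * ε))) ≤ A * (2 * Real.sqrt ε) := by gcongr
    _ = _ := by ring

lemma Ge_mod {B A : ℝ} (hA : 0 ≤ A) {G : ℝ × ℂ → ℂ} (h : Prof B A G) {ε : ℝ} (hε : 0 < ε)
    (ξ : ℂ) : ∫⁻ v, ‖Ge ε G v ξ - G (v, ξ)‖ₑ ≤ ENNReal.ofReal (2 * A * Real.sqrt ε) := by
  have h1 : ∀ v, Ge ε G v ξ - G (v, ξ) = ∫ s : ℝ, (G (v - s, ξ) - G (v, ξ)) * gg (ε : ℂ) s := by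
    intro v
    have e1 : Ge ε G v ξ = ∫ s : ℝ, G (v - s, ξ) * gg (ε : ℂ) s := by
      unfold Ge
      rw [← integral_sub_left_eq_self (fun s : ℝ => G (v - s, ξ) * gg (ε : ℂ) s) volume v]
      simp
    have i1 : Integrable fun s : ℝ => G (v - s, ξ) * gg (ε : ℂ) s :=
      ((h.integrable ξ).comp_sub_left v).mul_bdd (c := Real.sqrt ε⁻¹)
        (gg_cont _).aestronglyMeasurable (Filter.Eventually.of_forall fun s => gg_bdd hε s)
    have i2 : Integrable fun s : ℝ => G (v, ξ) * gg (ε : ℂ) s := (gg_integrable hε).const_mul _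
    have e2 : G (v, ξ) = ∫ s : ℝ, G (v, ξ) * gg (ε : ℂ) s := by
      rw [integral_const_mul, gg_mass hε, mul_one]
    rw [e1]
    conv_lhs => rw [e2]
    rw [← integral_sub i1 i2]
    congr 1; funext s; ring
  simp_rw [h1]
  have hm : Measurable fun p : ℝ × ℝ => ‖G (p.1 - p.2, ξ) - G (p.1, ξ)‖ₑ * ‖gg (ε : ℂ) p.2‖ₑ := by
    have a1 : Measurable fun p : ℝ × ℝ => G (p.1 - p.2, ξ) :=
      h.meas.comp ((measurable_fst.sub measurable_snd).prodMk measurable_const)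
    have a2 : Measurable fun p : ℝ × ℝ => G (p.1, ξ) :=
      h.meas.comp (measurable_fst.prodMk measurable_const)
    exact (a1.sub a2).enorm.mul ((gg_cont _).measurable.comp measurable_snd).enorm
  calc ∫⁻ v, ‖∫ s : ℝ, (G (v - s, ξ) - G (v, ξ)) * gg (ε : ℂ) s‖ₑ ≤
        ∫⁻ v, ∫⁻ s : ℝ, ‖G (v - s, ξ) - G (v, ξ)‖ₑ * ‖gg (ε : ℂ) s‖ₑ := by
        apply lintegral_mono
        intro v
        refine (enorm_integral_le_lintegral_enorm _).trans (le_of_eq ?_)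
        simp_rw [enorm_mul]
    _ = ∫⁻ s : ℝ, ∫⁻ v, ‖G (v - s, ξ) - G (v, ξ)‖ₑ * ‖gg (ε : ℂ) s‖ₑ :=
        lintegral_lintegral_swap hm.aemeasurable
    _ ≤ ∫⁻ s : ℝ, ‖gg (ε : ℂ) s‖ₑ * ENNReal.ofReal (A * |s|) := by
        apply lintegral_mono
        intro s
        simp only
        have hfin : ‖gg (ε : ℂ) s‖ₑ ≠ ∞ := enorm_ne_top
        rw [lintegral_mul_const' _ _ hfin, mul_comm]
        gcongr
        have := h.mod ξ (-s)
        rw [abs_neg] at this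
        simpa [sub_eq_add_neg] using this
    _ ≤ _ := gg_moment hε hA

lemma Ge_meas {B A : ℝ} {G : ℝ × ℂ → ℂ} (h : Prof B A G) (ε : ℝ) :
    Measurable fun p : ℝ × ℂ => Ge ε G p.1 p.2 := by
  have h1 : Measurable fun r : (ℝ × ℂ) × ℝ => G (r.2, r.1.2) * gg (ε : ℂ) (r.1.1 - r.2) :=
    (h.meas.comp (measurable_snd.prodMk (measurable_snd.comp measurable_fst))).mul
      ((gg_cont _).measurable.comp ((measurable_fst.comp measurable_fst).sub measurable_snd))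
  exact h1.stronglyMeasurable.integral_prod_right'.measurable

lemma Ge_hom {G : ℝ × ℂ → ℂ} (h : ∀ r : ℝ, 0 < r → ∀ (u : ℝ) (ξ : ℂ), G (u, r * ξ) = G (u, ξ))
    (ε : ℝ) {r : ℝ} (hr : 0 < r) (v : ℝ) (ξ : ℂ) : Ge ε G v (r * ξ) = Ge ε G v ξ := by
  unfold Ge
  simp_rw [h r hr]

lemma ph_shift (x : ℂ) (t τ : ℝ) (ξ : ℂ) :
    ph x (t + τ) ξ = ph x t ξ * cexp (((2 * π * τ * ‖ξ‖ ^ 2 : ℝ) : ℂ) * I) := by
  unfold ph
  rw [← Complex.exp_add]
  congr 1
  push_cast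
  ring

/-- the inner Fubini argument -/
lemma inner_fub {B A : ℝ} {G : ℝ × ℂ → ℂ} (h : Prof B A G) {ε : ℝ} (hε : 0 < ε) (ξ : ℂ) (v : ℝ) :
    ∫ τ : ℝ, dmp ε τ * (Gh G (τ, ξ) * cexp (((2 * π * τ * v : ℝ) : ℂ) * I)) = Ge ε G v ξ := by
  have e1 : ∀ τ : ℝ, dmp ε τ * (Gh G (τ, ξ) * cexp (((2 * π * τ * v : ℝ) : ℂ) * I)) =
      ∫ u : ℝ, dmp ε τ * (G (u, ξ) * cexp (((2 * π * τ * (v - u) : ℝ) : ℂ) * I)) := by
    intro τ
    rw [integral_const_mul]
    congr 1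
    unfold Gh
    rw [← integral_mul_const]
    congr 1; funext u
    simp only
    rw [mul_assoc, ← Complex.exp_add]
    congr 2
    push_cast; ring
  simp_rw [e1]
  have hm : Measurable fun p : ℝ × ℝ =>
      dmp ε p.1 * (G (p.2, ξ) * cexp (((2 * π * p.1 * (v - p.2) : ℝ) : ℂ) * I)) := by
    have a1 : Measurable fun p : ℝ × ℝ => dmp ε p.1 := (dmp_cont ε).measurable.comp measurable_fst
    have a2 : Measurable fun p : ℝ × ℝ => G (p.2, ξ) :=
      h.meas.comp (measurable_snd.prodMk measurable_const)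
    have a3 : Measurable fun p : ℝ × ℝ => cexp (((2 * π * p.1 * (v - p.2) : ℝ) : ℂ) * I) := by
      fun_prop
    exact a1.mul (a2.mul a3)
  have hI : Integrable (fun p : ℝ × ℝ =>
      dmp ε p.1 * (G (p.2, ξ) * cexp (((2 * π * p.1 * (v - p.2) : ℝ) : ℂ) * I)))
      (volume.prod volume) := by
    have h1 : Integrable (fun p : ℝ × ℝ => ‖dmp ε p.1‖ * ‖G (p.2, ξ)‖) (volume.prod volume) :=
      (dmp_int hε).norm.mul_prod (h.integrable ξ).norm
    refine h1.mono' hm.aestronglyMeasurable (Filter.Eventually.of_forall fun p => ?_)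
    rw [norm_mul, norm_mul, norm_exp_ofReal_mul_I, mul_one]
  rw [integral_integral_swap (f := fun τ u =>
    dmp ε τ * (G (u, ξ) * cexp (((2 * π * τ * (v - u) : ℝ) : ℂ) * I))) hI]
  unfold Ge
  congr 1; funext u
  rw [← gg_eq_int (a := (ε : ℂ)) (by simpa using hε), ← integral_const_mul]
  congr 1; funext τ
  unfold dmp
  rw [ofReal_exp, mul_left_comm, ← Complex.exp_add]
  congr 2
  push_cast; ring

/-- **Time translations.** -/
theorem cut {B A : ℝ} (hA : 0 ≤ A) {G : ℝ × ℂ → ℂ} (h : Prof B A G) (x : ℂ) (t : ℝ) :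
    ‖EV (fun ξ => G (‖ξ‖ ^ 2, ξ) * gs ξ) x t‖ₑ ≤
      ∫⁻ τ, ‖EV (fun ξ => Gh G (τ, ξ) * gs ξ) x (t + τ)‖ₑ := by
  -- measurability and integrability of the functions on the plane
  have hGm : Measurable fun ξ : ℂ => G (‖ξ‖ ^ 2, ξ) :=
    h.meas.comp ((measurable_norm.pow_const 2).prodMk measurable_id)
  have gse : ∀ ξ, ‖gs ξ‖ₑ ≤ 1 := by
    intro ξ
    rw [← ofReal_norm, ← ENNReal.ofReal_one]
    exact ENNReal.ofReal_le_ofReal (gs_bdd ξ)
  have hFi : Integrable fun ξ : ℂ => G (‖ξ‖ ^ 2, ξ) * gs ξ := by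
    refine ⟨(hGm.mul gs_cont.measurable).aestronglyMeasurable, ?_⟩
    rw [hasFiniteIntegral_iff_enorm]
    have h1 := polar_bound (F := fun p => ‖G p‖ₑ) h.meas.enorm
      (fun r hr u ξ => by rw [h.hom r hr]) h.int
    refine lt_of_le_of_lt (le_trans (lintegral_mono fun ξ => ?_) h1)
      (ENNReal.mul_lt_top ENNReal.ofReal_lt_top ENNReal.ofReal_lt_top)
    simp only
    rw [enorm_mul]
    calc _ ≤ ‖G (‖ξ‖ ^ 2, ξ)‖ₑ * 1 := by gcongr; exact gse ξ
      _ = _ := mul_one _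
  set D : ℝ → ℂ := fun τ => EV (fun ξ => Gh G (τ, ξ) * gs ξ) x (t + τ) with hD
  -- the identity for positive ε
  have key : ∀ ε : ℝ, 0 < ε → ‖EV (fun ξ => G (‖ξ‖ ^ 2, ξ) * gs ξ) x t‖ₑ ≤
      (∫⁻ τ, ‖D τ‖ₑ) + ENNReal.ofReal (2 * π) * ENNReal.ofReal (2 * A * Real.sqrt ε) := by
    intro ε hε
    have hGem : Measurable fun ξ : ℂ => Ge ε G (‖ξ‖ ^ 2) ξ :=
      (Ge_meas h ε).comp ((measurable_norm.pow_const 2).prodMk measurable_id)
    -- difference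
    have hdiff : ∫⁻ ξ : ℂ, ‖G (‖ξ‖ ^ 2, ξ) * gs ξ - Ge ε G (‖ξ‖ ^ 2) ξ * gs ξ‖ₑ ≤
        ENNReal.ofReal (2 * π) * ENNReal.ofReal (2 * A * Real.sqrt ε) := by
      have h1 := polar_bound (F := fun p : ℝ × ℂ => ‖Ge ε G p.1 p.2 - G p‖ₑ)
        ((Ge_meas h ε).sub h.meas).enorm
        (fun r hr u ξ => by rw [h.hom r hr, Ge_hom h.hom ε hr])
        (fun ξ => Ge_mod hA h hε ξ)
      refine le_trans (lintegral_mono fun ξ => ?_) h1
      simp only
      rw [← sub_mul, enorm_mul, enorm_sub_rev]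
      calc _ ≤ ‖Ge ε G (‖ξ‖ ^ 2) ξ - G (‖ξ‖ ^ 2, ξ)‖ₑ * 1 := by gcongr; exact gse ξ
        _ = _ := mul_one _
    have hGei : Integrable fun ξ : ℂ => Ge ε G (‖ξ‖ ^ 2) ξ * gs ξ := by
      have h2 : Integrable fun ξ : ℂ => G (‖ξ‖ ^ 2, ξ) * gs ξ - Ge ε G (‖ξ‖ ^ 2) ξ * gs ξ :=
        ⟨((hGm.mul gs_cont.measurable).sub (hGem.mul gs_cont.measurable)).aestronglyMeasurable,
          lt_of_le_of_lt hdiff (ENNReal.mul_lt_top ENNReal.ofReal_lt_top ENNReal.ofReal_lt_top)⟩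
      have h3 := hFi.sub h2
      refine h3.congr (Filter.Eventually.of_forall fun ξ => ?_)
      simp
    -- Fubini
    have e1 : ∫ τ : ℝ, dmp ε τ * D τ = EV (fun ξ => Ge ε G (‖ξ‖ ^ 2) ξ * gs ξ) x t := by
      have e2 : ∀ τ : ℝ, dmp ε τ * D τ = ∫ ξ : ℂ, (gs ξ * ph x t ξ) * (dmp ε τ * (Gh G (τ, ξ) *
          cexp (((2 * π * τ * ‖ξ‖ ^ 2 : ℝ) : ℂ) * I))) := by
        intro τ
        rw [hD]
        unfold EV
        simp only
        rw [← integral_const_mul]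
        congr 1; funext ξ
        rw [ph_shift]
        ring
      simp_rw [e2]
      have hm : Measurable fun p : ℝ × ℂ => (gs p.2 * ph x t p.2) * (dmp ε p.1 * (Gh G (p.1, p.2) *
          cexp (((2 * π * p.1 * ‖p.2‖ ^ 2 : ℝ) : ℂ) * I))) := by
        have a1 : Measurable fun p : ℝ × ℂ => gs p.2 * ph x t p.2 :=
          (gs_cont.mul (ph_cont x t)).measurable.comp measurable_snd
        have a2 : Measurable fun p : ℝ × ℂ => dmp ε p.1 :=
          (dmp_cont ε).measurable.comp measurable_fst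
        have a3 : Measurable fun p : ℝ × ℂ =>
            cexp (((2 * π * p.1 * ‖p.2‖ ^ 2 : ℝ) : ℂ) * I) := by fun_prop
        exact a1.mul (a2.mul ((Gh_meas h).mul a3))
      have hI : Integrable (fun p : ℝ × ℂ => (gs p.2 * ph x t p.2) * (dmp ε p.1 *
          (Gh G (p.1, p.2) * cexp (((2 * π * p.1 * ‖p.2‖ ^ 2 : ℝ) : ℂ) * I))))
          ((volume : Measure ℝ).prod (volume : Measure ℂ)) := by
        have h1 : Integrable (fun p : ℝ × ℂ => (max B 0 * ‖dmp ε p.1‖) * ‖gs p.2‖)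
            ((volume : Measure ℝ).prod (volume : Measure ℂ)) :=
          ((dmp_int hε).norm.const_mul (max B 0)).mul_prod gs_int.norm
        refine h1.mono' hm.aestronglyMeasurable (Filter.Eventually.of_forall fun p => ?_)
        rw [norm_mul, norm_mul, norm_mul, norm_mul, norm_exp_ofReal_mul_I, norm_ph, mul_one,
          mul_one]
        have h2 : ‖Gh G (p.1, p.2)‖ ≤ max B 0 := by
          have h3 := Gh_bd0 h (p.1, p.2)
          rw [← ofReal_norm] at h3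
          have h4 : ENNReal.ofReal B ≤ ENNReal.ofReal (max B 0) :=
            ENNReal.ofReal_le_ofReal (le_max_left _ _)
          exact (ENNReal.ofReal_le_ofReal_iff (le_max_right _ _)).1 (h3.trans h4)
        calc ‖gs p.2‖ * (‖dmp ε p.1‖ * ‖Gh G (p.1, p.2)‖) ≤
            ‖gs p.2‖ * (‖dmp ε p.1‖ * max B 0) := by gcongr
          _ = _ := by ring
      rw [integral_integral_swap (f := fun τ ξ => (gs ξ * ph x t ξ) * (dmp ε τ * (Gh G (τ, ξ) *
          cexp (((2 * π * τ * ‖ξ‖ ^ 2 : ℝ) : ℂ) * I)))) hI]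
      unfold EV
      congr 1; funext ξ
      rw [integral_const_mul, inner_fub h hε]
      ring
    have e3 : ‖∫ τ : ℝ, dmp ε τ * D τ‖ₑ ≤ ∫⁻ τ, ‖D τ‖ₑ := by
      refine (enorm_integral_le_lintegral_enorm _).trans (lintegral_mono fun τ => ?_)
      simp only
      rw [enorm_mul]
      have : ‖dmp ε τ‖ₑ ≤ 1 := by
        rw [← ofReal_norm, ← ENNReal.ofReal_one]
        exact ENNReal.ofReal_le_ofReal (norm_dmp_le hε τ)
      calc _ ≤ 1 * ‖D τ‖ₑ := by gcongr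
        _ = _ := one_mul _
    have e4 : EV (fun ξ => G (‖ξ‖ ^ 2, ξ) * gs ξ) x t = (∫ τ : ℝ, dmp ε τ * D τ) +
        EV (fun ξ => G (‖ξ‖ ^ 2, ξ) * gs ξ - Ge ε G (‖ξ‖ ^ 2) ξ * gs ξ) x t := by
      have hs2 : Integrable fun ξ : ℂ => G (‖ξ‖ ^ 2, ξ) * gs ξ - Ge ε G (‖ξ‖ ^ 2) ξ * gs ξ :=
        hFi.sub hGei
      rw [e1, ← EV_add hGei hs2]
      congr 1
      funext ξ
      ring
    rw [e4]
    refine (enorm_add_le _ _).trans (add_le_add e3 ?_)
    exact (EV_sup _ x t).trans hdiff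
  -- the limit
  apply ENNReal.le_of_forall_pos_le_add
  intro δ hδ _
  have hc : 0 < 4 * π * A + 1 := by
    have := Real.pi_pos
    positivity
  set s : ℝ := δ / (4 * π * A + 1) with hs
  have hs0 : 0 < s := div_pos (by exact_mod_cast hδ) hc
  refine (key (s ^ 2) (by positivity)).trans ?_
  gcongr
  rw [← ENNReal.ofReal_mul (by positivity), Real.sqrt_sq hs0.le]
  apply ENNReal.ofReal_le_of_le_toReal
  rw [ENNReal.coe_toReal]
  calc 2 * π * (2 * A * s) = 4 * π * A * s := by ring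
    _ ≤ (4 * π * A + 1) * s := by nlinarith
    _ = δ := by rw [hs]; field_simp

end Pool.Agent.T9h83.RAY
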