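import Pool.Agent.T9h83.RAY.Gauss2
set_option autoImplicit false

/-! The functions `g_a(s) = a^(-1/2) exp(-π s²/a)` and their derivatives in `a`. -/

namespace Pool.Agent.T9h83.RAY

open Complex MeasureTheory Metric Filter Topology

/-- `g_a(s)` -/
noncomputable def gg (a : ℂ) (s : ℝ) : ℂ := a ^ (-(1 / 2) : ℂ) * cexp (-Real.pi * (s : ℂ) ^ 2 / a)

/-- `∂_a g_a(s)` -/
noncomputable def ggp (a : ℂ) (s : ℝ) : ℂ :=
  (-(1 / (2 * a)) + Real.pi * (s : ℂ) ^ 2 / a ^ 2) * gg a s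

lemma ne_zero_of_re {a : ℂ} (ha : 0 < a.re) : a ≠ 0 := by rintro rfl; simp at ha

lemma cpow_sq {a : ℂ} : (a ^ (-(1 / 2) : ℂ)) ^ 2 = a⁻¹ := by
  rw [← cpow_nat_mul]
  norm_num
  exact cpow_neg_one a

lemma gg_hasDeriv {a : ℂ} (ha : 0 < a.re) (s : ℝ) :
    HasDerivAt (fun z => gg z s) (ggp a s) a := by
  have h0 := ne_zero_of_re ha
  have h1 : HasDerivAt (fun z : ℂ => z ^ (-(1 / 2) : ℂ))
      ((-(1 / 2) : ℂ) * a ^ ((-(1 / 2) : ℂ) - 1)) a := by
    have := (hasDerivAt_id a).cpow_const (c := (-(1 / 2) : ℂ)) (Or.inl ha)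
    simpa using this
  have h2 : HasDerivAt (fun z : ℂ => -Real.pi * (s : ℂ) ^ 2 / z)
      (Real.pi * (s : ℂ) ^ 2 / a ^ 2) a := by
    have := (hasDerivAt_inv h0).const_mul (-Real.pi * (s : ℂ) ^ 2)
    simp only [div_eq_mul_inv]
    refine this.congr_deriv ?_
    ring
  have h3 := h1.mul h2.cexp
  refine h3.congr_deriv ?_
  unfold ggp gg
  have e : a ^ ((-(1 / 2) : ℂ) - 1) = a ^ (-(1 / 2) : ℂ) / a := by
    rw [cpow_sub _ _ h0, cpow_one]
  rw [e]
  field_simp

lemma norm_cexp_div (a : ℂ) (s : ℝ) :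
    ‖cexp (-Real.pi * (s : ℂ) ^ 2 / a)‖ = Real.exp (-Real.pi * s ^ 2 * (a.re / normSq a)) := by
  rw [norm_exp]
  congr 1
  have e : (-Real.pi * (s : ℂ) ^ 2 / a : ℂ) = ((-Real.pi * s ^ 2 : ℝ) : ℂ) * a⁻¹ := by
    push_cast; ring
  rw [e, re_ofReal_mul, inv_re]

lemma norm_cpow_half {a : ℂ} (ha : 0 < a.re) : ‖a ^ (-(1 / 2) : ℂ)‖ = Real.sqrt (‖a‖⁻¹) := by
  symm
  rw [Real.sqrt_eq_iff_mul_self_eq (by positivity) (norm_nonneg _), ← sq, ← norm_pow, cpow_sq,
    norm_inv]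

/-- uniform Gaussian bounds near a point -/
lemma gg_bounds {a : ℂ} (ha : 0 < a.re) : ∃ C c : ℝ, 0 < C ∧ 0 < c ∧ ∀ z ∈ ball a (a.re / 2),
    0 < z.re ∧ ∀ s : ℝ, ‖gg z s‖ ≤ C * Real.exp (-c * s ^ 2) ∧
      ‖ggp z s‖ ≤ C * Real.exp (-c * s ^ 2) := by
  set r := a.re / 2 with hr
  have hr0 : 0 < r := by positivity
  set M := ‖a‖ + r with hM
  have hM0 : 0 < M := by positivity
  set κ := r / M ^ 2 with hκ
  have hκ0 : 0 < κ := by positivity
  set c := Real.pi * κ / 2 with hc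
  have hc0 : 0 < c := by positivity
  set D := Real.sqrt r⁻¹ with hD
  set B := 1 / (2 * r) + Real.pi / r ^ 2 * (1 / c) + 1 with hB
  refine ⟨D * B + 1, c, by positivity, hc0, ?_⟩
  intro z hz
  rw [mem_ball, dist_eq_norm] at hz
  have hzre : r < z.re := by
    have h1 := abs_re_le_norm (z - a)
    rw [sub_re] at h1
    have h2 := (abs_lt.1 (h1.trans_lt hz)).1
    have : a.re = 2 * r := by rw [hr]; ring
    linarith
  have hz0 : 0 < z.re := hr0.trans hzre
  have hzn : r ≤ ‖z‖ := hzre.le.trans ((le_abs_self _).trans (abs_re_le_norm z))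
  have hzM : ‖z‖ ≤ M := by
    have : ‖z‖ ≤ ‖a‖ + ‖z - a‖ := by
      calc ‖z‖ = ‖a + (z - a)‖ := by ring_nf
        _ ≤ _ := norm_add_le _ _
    rw [hM]; linarith
  have hk : κ ≤ z.re / normSq z := by
    rw [hκ, ← Complex.sq_norm]
    have : 0 < ‖z‖ := hr0.trans_le hzn
    gcongr
  refine ⟨hz0, fun s => ?_⟩
  have hg : ‖gg z s‖ ≤ D * (Real.exp (-c * s ^ 2) * Real.exp (-c * s ^ 2)) := by
    unfold gg
    rw [norm_mul, norm_cpow_half hz0, norm_cexp_div]
    have q1 : Real.sqrt (‖z‖⁻¹) ≤ D := by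
      rw [hD]
      apply Real.sqrt_le_sqrt
      gcongr
    have q2 : Real.exp (-Real.pi * s ^ 2 * (z.re / normSq z)) ≤
        Real.exp (-c * s ^ 2) * Real.exp (-c * s ^ 2) := by
      rw [← Real.exp_add]
      apply Real.exp_le_exp.2
      have : Real.pi * s ^ 2 * κ ≤ Real.pi * s ^ 2 * (z.re / normSq z) := by gcongr
      rw [hc]
      nlinarith
    exact mul_le_mul q1 q2 (Real.exp_pos _).le (Real.sqrt_nonneg _)
  have hE1 : Real.exp (-c * s ^ 2) ≤ 1 := by
    rw [Real.exp_le_one_iff]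
    have : 0 ≤ c * s ^ 2 := by positivity
    linarith
  have hE0 : 0 ≤ Real.exp (-c * s ^ 2) := (Real.exp_pos _).le
  have hD0 : 0 ≤ D := Real.sqrt_nonneg _
  have hB1 : 1 ≤ B := by
    have : 0 ≤ 1 / (2 * r) + Real.pi / r ^ 2 * (1 / c) := by positivity
    rw [hB]; linarith
  constructor
  · calc ‖gg z s‖ ≤ D * (Real.exp (-c * s ^ 2) * Real.exp (-c * s ^ 2)) := hg
      _ ≤ D * (Real.exp (-c * s ^ 2) * 1) := by gcongr
      _ = D * 1 * Real.exp (-c * s ^ 2) := by ring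
      _ ≤ (D * B + 1) * Real.exp (-c * s ^ 2) := by
          apply mul_le_mul_of_nonneg_right _ hE0
          have : D * 1 ≤ D * B := by gcongr
          linarith
  · unfold ggp
    rw [norm_mul]
    have h1 : ‖(-(1 / (2 * z)) + Real.pi * (s : ℂ) ^ 2 / z ^ 2 : ℂ)‖ ≤
        1 / (2 * r) + Real.pi / r ^ 2 * s ^ 2 := by
      refine (norm_add_le _ _).trans (add_le_add ?_ ?_)
      · rw [norm_neg, norm_div, norm_mul, norm_one, RCLike.norm_ofNat]
        gcongr
      · rw [norm_div, norm_mul, norm_pow, norm_pow, norm_real, norm_real, Real.norm_eq_abs,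
          Real.norm_eq_abs, abs_of_pos Real.pi_pos, sq_abs]
        rw [div_mul_eq_mul_div]
        gcongr
    have h2 : s ^ 2 * Real.exp (-c * s ^ 2) ≤ 1 / c := by
      have h3 := Real.add_one_le_exp (c * s ^ 2)
      have h4 : Real.exp (-c * s ^ 2) = (Real.exp (c * s ^ 2))⁻¹ := by
        rw [← Real.exp_neg]; congr 1; ring
      rw [h4, ← div_eq_mul_inv, div_le_div_iff₀ (Real.exp_pos _) hc0]
      linarith
    calc _ ≤ (1 / (2 * r) + Real.pi / r ^ 2 * s ^ 2) *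
          (D * (Real.exp (-c * s ^ 2) * Real.exp (-c * s ^ 2))) := by gcongr
      _ = D * (1 / (2 * r) * Real.exp (-c * s ^ 2) +
          Real.pi / r ^ 2 * (s ^ 2 * Real.exp (-c * s ^ 2))) * Real.exp (-c * s ^ 2) := by ring
      _ ≤ D * (1 / (2 * r) * 1 + Real.pi / r ^ 2 * (1 / c)) * Real.exp (-c * s ^ 2) := by gcongr
      _ ≤ (D * B + 1) * Real.exp (-c * s ^ 2) := by
          apply mul_le_mul_of_nonneg_right _ hE0
          have : D * (1 / (2 * r) * 1 + Real.pi / r ^ 2 * (1 / c)) ≤ D * B := by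
            gcongr
            rw [hB]; linarith
          linarith

lemma gg_cont (a : ℂ) : Continuous (gg a) := by unfold gg; fun_prop

lemma ggp_cont (a : ℂ) : Continuous (ggp a) := by
  unfold ggp
  exact (by fun_prop : Continuous fun s : ℝ => (-(1 / (2 * a)) + Real.pi * (s : ℂ) ^ 2 / a ^ 2)).mul
    (gg_cont a)

/-- differentiation under the integral sign -/
lemma hasDeriv_int {X : Type*} [MeasurableSpace X] {μ : Measure X} {s : X → ℝ}
    (hs : Measurable s) {G : X → ℂ} (hG : Integrable G μ) {a : ℂ} (ha : 0 < a.re) :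
    HasDerivAt (fun z => ∫ x, gg z (s x) * G x ∂μ) (∫ x, ggp a (s x) * G x ∂μ) a := by
  obtain ⟨C, c, hC, hc, hb⟩ := gg_bounds ha
  have hE1 : ∀ s : ℝ, Real.exp (-c * s ^ 2) ≤ 1 := by
    intro s
    rw [Real.exp_le_one_iff]
    have : 0 ≤ c * s ^ 2 := by positivity
    linarith
  have hm : ∀ z, AEStronglyMeasurable (fun x => gg z (s x) * G x) μ := fun z =>
    (((gg_cont z).measurable.comp hs).aestronglyMeasurable).mul hG.1
  refine (hasDerivAt_integral_of_dominated_loc_of_deriv_le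
    (F := fun z x => gg z (s x) * G x) (F' := fun z x => ggp z (s x) * G x)
    (bound := fun x => C * ‖G x‖) (ball_mem_nhds a (by positivity : 0 < a.re / 2))
    (Eventually.of_forall hm) ?_ ?_ ?_ (hG.norm.const_mul C) ?_).2
  · refine (hG.norm.const_mul C).mono' (hm a) (Eventually.of_forall fun x => ?_)
    rw [norm_mul]
    have := ((hb a (mem_ball_self (by positivity))).2 (s x)).1
    have h2 : ‖gg a (s x)‖ ≤ C := this.trans (by nlinarith [hE1 (s x)])
    gcongr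
  · exact (((ggp_cont a).measurable.comp hs).aestronglyMeasurable).mul hG.1
  · refine Eventually.of_forall fun x z hz => ?_
    rw [norm_mul]
    have := ((hb z hz).2 (s x)).2
    have h2 : ‖ggp z (s x)‖ ≤ C := this.trans (by nlinarith [hE1 (s x)])
    gcongr
  · refine Eventually.of_forall fun x z hz => ?_
    exact (gg_hasDeriv (hb z hz).1 (s x)).mul_const _

end Pool.Agent.T9h83.RAY
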