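import Pool.Agent.T9h83.RAY.Der1
set_option autoImplicit false

/-! The quadruple integral and its derivatives. -/

namespace Pool.Agent.T9h83.RAY

open Complex MeasureTheory Metric Filter Topology

/-- the coordinate of a point in the direction `θ` -/
noncomputable def ss (θ : ℝ) (p : ℝ × ℝ) : ℝ := p.1 * Real.cos θ + p.2 * Real.sin θ

lemma ss_cont (θ : ℝ) : Continuous (ss θ) := by unfold ss; fun_prop

/-- Gaussian bounds -/
structure GB (u : ℝ → ℂ) : Prop where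
  cont : Continuous u
  bd : ∃ C c : ℝ, 0 < c ∧ ∀ s, ‖u s‖ ≤ C * Real.exp (-c * s ^ 2)

lemma gg_GB {a : ℂ} (ha : 0 < a.re) : GB (gg a) := by
  obtain ⟨C, c, -, hc, hb⟩ := gg_bounds ha
  exact ⟨gg_cont a, C, c, hc, fun s => ((hb a (mem_ball_self (by positivity))).2 s).1⟩

lemma ggp_GB {a : ℂ} (ha : 0 < a.re) : GB (ggp a) := by
  obtain ⟨C, c, -, hc, hb⟩ := gg_bounds ha
  exact ⟨ggp_cont a, C, c, hc, fun s => ((hb a (mem_ball_self (by positivity))).2 s).2⟩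

lemma GB.bdd {u : ℝ → ℂ} (h : GB u) : ∃ C : ℝ, ∀ s, ‖u s‖ ≤ C := by
  obtain ⟨C, c, hc, hb⟩ := h.bd
  refine ⟨|C|, fun s => (hb s).trans ?_⟩
  have hE1 : Real.exp (-c * s ^ 2) ≤ 1 := by
    rw [Real.exp_le_one_iff]
    have : 0 ≤ c * s ^ 2 := by positivity
    linarith
  calc C * Real.exp (-c * s ^ 2) ≤ |C| * Real.exp (-c * s ^ 2) := by gcongr; exact le_abs_self _
    _ ≤ |C| * 1 := by gcongr
    _ = |C| := mul_one _

lemma ss_lower (x y : ℝ) (p : ℝ × ℝ) :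
    pp x y / 2 * (p.1 ^ 2 + p.2 ^ 2) ≤ ss x p ^ 2 + ss y p ^ 2 := by
  unfold pp ss
  rw [Real.sin_sub]
  have hx := Real.cos_sq_add_sin_sq x
  have hy := Real.cos_sq_add_sin_sq y
  set c := Real.cos x
  set s := Real.sin x
  set c' := Real.cos y
  set s' := Real.sin y
  set a := p.1 * c + p.2 * s with ha
  set b := p.1 * c' + p.2 * s' with hb
  have e1 : (s * c' - c * s') * p.1 = -(s' * a - s * b) := by rw [ha, hb]; ring
  have e2 : (s * c' - c * s') * p.2 = c' * a - c * b := by rw [ha, hb]; ring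
  have e3 : (s * c' - c * s') ^ 2 * (p.1 ^ 2 + p.2 ^ 2) = (s' * a - s * b) ^ 2 +
      (c' * a - c * b) ^ 2 := by
    have : (s * c' - c * s') ^ 2 * (p.1 ^ 2 + p.2 ^ 2) = ((s * c' - c * s') * p.1) ^ 2 +
      ((s * c' - c * s') * p.2) ^ 2 := by ring
    rw [this, e1, e2]; ring
  have e4 : (s' * a - s * b) ^ 2 + (c' * a - c * b) ^ 2 ≤ 2 * (a ^ 2 + b ^ 2) := by
    have : (s' * a - s * b) ^ 2 + (c' * a - c * b) ^ 2 = (c' ^ 2 + s' ^ 2) * a ^ 2 +
      (c ^ 2 + s ^ 2) * b ^ 2 - 2 * (c * c' + s * s') * (a * b) := by ring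
    rw [this, hx, hy]
    have h5 : (c * c' + s * s') ^ 2 ≤ 1 := by
      have : (c * c' + s * s') ^ 2 + (s * c' - c * s') ^ 2 = (c ^ 2 + s ^ 2) * (c' ^ 2 + s' ^ 2) := by
        ring
      rw [hx, hy] at this
      nlinarith [sq_nonneg (s * c' - c * s')]
    have h6 : |c * c' + s * s'| ≤ 1 := by
      rw [← sq_le_one_iff_abs_le_one]; exact h5
    have h7 : -(2 * (c * c' + s * s') * (a * b)) ≤ a ^ 2 + b ^ 2 := by
      have h8 : |2 * (c * c' + s * s') * (a * b)| ≤ 2 * |a * b| := by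
        rw [abs_mul, abs_mul, abs_two]
        nlinarith [abs_nonneg (a * b)]
      have h9 : 2 * |a * b| ≤ a ^ 2 + b ^ 2 := by
        rw [abs_mul]; nlinarith [sq_nonneg (|a| - |b|), sq_abs a, sq_abs b]
      linarith [neg_abs_le (2 * (c * c' + s * s') * (a * b))]
    linarith
  nlinarith

/-- integrability of a product of two factors with independent directions -/
lemma pair_int {x y : ℝ} (hxy : 0 < pp x y) {u v : ℝ → ℂ} (hu : GB u) (hv : GB v) :
    Integrable (fun p : ℝ × ℝ => u (ss x p) * v (ss y p)) := by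
  obtain ⟨C, c, hc, hb⟩ := hu.bd
  obtain ⟨C', c', hc', hb'⟩ := hv.bd
  set k := min c c' with hk
  have hk0 : 0 < k := lt_min hc hc'
  set κ := k * (pp x y / 2) with hκ
  have hκ0 : 0 < κ := by positivity
  have hg : Integrable (fun x : ℝ => Real.exp (-κ * x ^ 2)) := integrable_exp_neg_mul_sq hκ0
  have hm : AEStronglyMeasurable (fun p : ℝ × ℝ => u (ss x p) * v (ss y p)) volume :=
    ((hu.cont.comp (ss_cont x)).mul (hv.cont.comp (ss_cont y))).aestronglyMeasurable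
  refine (((hg.mul_prod hg).const_mul (|C| * |C'|))).mono' hm ?_
  refine Eventually.of_forall fun p => ?_
  rw [norm_mul]
  have h1 : ‖u (ss x p)‖ ≤ |C| * Real.exp (-k * ss x p ^ 2) := by
    refine (hb _).trans ?_
    have : Real.exp (-c * ss x p ^ 2) ≤ Real.exp (-k * ss x p ^ 2) := by
      apply Real.exp_le_exp.2
      have := mul_le_mul_of_nonneg_right (min_le_left c c') (sq_nonneg (ss x p))
      rw [← hk] at this
      linarith
    calc C * Real.exp (-c * ss x p ^ 2) ≤ |C| * Real.exp (-c * ss x p ^ 2) := by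
          gcongr; exact le_abs_self _
      _ ≤ _ := by gcongr
  have h2 : ‖v (ss y p)‖ ≤ |C'| * Real.exp (-k * ss y p ^ 2) := by
    refine (hb' _).trans ?_
    have : Real.exp (-c' * ss y p ^ 2) ≤ Real.exp (-k * ss y p ^ 2) := by
      apply Real.exp_le_exp.2
      have := mul_le_mul_of_nonneg_right (min_le_right c c') (sq_nonneg (ss y p))
      rw [← hk] at this
      linarith
    calc C' * Real.exp (-c' * ss y p ^ 2) ≤ |C'| * Real.exp (-c' * ss y p ^ 2) := by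
          gcongr; exact le_abs_self _
      _ ≤ _ := by gcongr
  calc ‖u (ss x p)‖ * ‖v (ss y p)‖ ≤ (|C| * Real.exp (-k * ss x p ^ 2)) *
        (|C'| * Real.exp (-k * ss y p ^ 2)) := by gcongr
    _ = |C| * |C'| * Real.exp (-k * (ss x p ^ 2 + ss y p ^ 2)) := by
        rw [mul_add (-k), Real.exp_add]; ring
    _ ≤ |C| * |C'| * Real.exp (-κ * (p.1 ^ 2 + p.2 ^ 2)) := by
        gcongr ?_ * Real.exp ?_
        have := mul_le_mul_of_nonneg_left (ss_lower x y p) hk0.le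
        rw [hκ]
        linarith
    _ = _ := by rw [mul_add (-κ), Real.exp_add]

lemma triple_int {x y z : ℝ} (hxy : 0 < pp x y) {u v w : ℝ → ℂ} (hu : GB u) (hv : GB v)
    (hw : GB w) : Integrable (fun p : ℝ × ℝ => u (ss x p) * v (ss y p) * w (ss z p)) := by
  obtain ⟨C, hC⟩ := hw.bdd
  exact (pair_int hxy hu hv).mul_bdd (c := C)
    (hw.cont.comp (ss_cont z)).aestronglyMeasurable (Eventually.of_forall fun p => hC _)

/-- the quadruple integral -/
noncomputable def Phi (x y z w : ℝ) (f1 f2 f3 f4 : ℝ → ℂ) : ℂ :=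
  ∫ p : ℝ × ℝ, f1 (ss x p) * f2 (ss y p) * f3 (ss z p) * f4 (ss w p)

lemma Phi_d1 {x y z w : ℝ} (h34 : 0 < pp z w) {f2 f3 f4 : ℝ → ℂ}
    (h2 : GB f2) (h3 : GB f3) (h4 : GB f4) {a : ℂ} (ha : 0 < a.re) :
    HasDerivAt (fun a => Phi x y z w (gg a) f2 f3 f4) (Phi x y z w (ggp a) f2 f3 f4) a := by
  have hG : Integrable (fun p : ℝ × ℝ => f3 (ss z p) * f4 (ss w p) * f2 (ss y p)) :=
    triple_int h34 h3 h4 h2
  have := hasDeriv_int (ss_cont x).measurable hG ha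
  unfold Phi
  convert this using 1
  · funext b; congr 1; funext p; ring
  · congr 1; funext p; ring

lemma Phi_d2 {x y z w : ℝ} (h34 : 0 < pp z w) {f1 f3 f4 : ℝ → ℂ}
    (h1 : GB f1) (h3 : GB f3) (h4 : GB f4) {a : ℂ} (ha : 0 < a.re) :
    HasDerivAt (fun a => Phi x y z w f1 (gg a) f3 f4) (Phi x y z w f1 (ggp a) f3 f4) a := by
  have hG : Integrable (fun p : ℝ × ℝ => f3 (ss z p) * f4 (ss w p) * f1 (ss x p)) :=
    triple_int h34 h3 h4 h1
  have := hasDeriv_int (ss_cont y).measurable hG ha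
  unfold Phi
  convert this using 1
  · funext b; congr 1; funext p; ring
  · congr 1; funext p; ring

lemma Phi_d3 {x y z w : ℝ} (h12 : 0 < pp x y) {f1 f2 f4 : ℝ → ℂ}
    (h1 : GB f1) (h2 : GB f2) (h4 : GB f4) {a : ℂ} (ha : 0 < a.re) :
    HasDerivAt (fun a => Phi x y z w f1 f2 (gg a) f4) (Phi x y z w f1 f2 (ggp a) f4) a := by
  have hG : Integrable (fun p : ℝ × ℝ => f1 (ss x p) * f2 (ss y p) * f4 (ss w p)) :=
    triple_int h12 h1 h2 h4
  have := hasDeriv_int (ss_cont z).measurable hG ha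
  unfold Phi
  convert this using 1
  · funext b; congr 1; funext p; ring
  · congr 1; funext p; ring

lemma Phi_d4 {x y z w : ℝ} (h12 : 0 < pp x y) {f1 f2 f3 : ℝ → ℂ}
    (h1 : GB f1) (h2 : GB f2) (h3 : GB f3) {a : ℂ} (ha : 0 < a.re) :
    HasDerivAt (fun a => Phi x y z w f1 f2 f3 (gg a)) (Phi x y z w f1 f2 f3 (ggp a)) a := by
  have hG : Integrable (fun p : ℝ × ℝ => f1 (ss x p) * f2 (ss y p) * f3 (ss z p)) :=
    triple_int h12 h1 h2 h3
  have := hasDeriv_int (ss_cont w).measurable hG ha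
  unfold Phi
  convert this using 1
  · funext b; congr 1; funext p; ring
  · congr 1; funext p; ring

/-- the value of the quadruple Gaussian integral, squared -/
lemma Phi_sq {x y z w : ℝ} (h12 : 0 < pp x y) {a b c d : ℂ} (ha : 0 < a.re) (hb : 0 < b.re)
    (hc : 0 < c.re) (hd : 0 < d.re) :
    Phi x y z w (gg a) (gg b) (gg c) (gg d) ^ 2 *
      Wp (pp x y) (pp x z) (pp x w) (pp y z) (pp y w) (pp z w) a b c d = 1 := by
  have ha0 := ne_zero_of_re ha
  have hb0 := ne_zero_of_re hb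
  have hc0 := ne_zero_of_re hc
  have hd0 := ne_zero_of_re hd
  set A : ℂ := a⁻¹ * (Real.cos x : ℂ) ^ 2 + b⁻¹ * (Real.cos y : ℂ) ^ 2 +
    c⁻¹ * (Real.cos z : ℂ) ^ 2 + d⁻¹ * (Real.cos w : ℂ) ^ 2 with hA
  set B : ℂ := a⁻¹ * (Real.cos x * Real.sin x : ℂ) + b⁻¹ * (Real.cos y * Real.sin y : ℂ) +
    c⁻¹ * (Real.cos z * Real.sin z : ℂ) + d⁻¹ * (Real.cos w * Real.sin w : ℂ) with hB
  set C : ℂ := a⁻¹ * (Real.sin x : ℂ) ^ 2 + b⁻¹ * (Real.sin y : ℂ) ^ 2 +
    c⁻¹ * (Real.sin z : ℂ) ^ 2 + d⁻¹ * (Real.sin w : ℂ) ^ 2 with hC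
  have e1 : Phi x y z w (gg a) (gg b) (gg c) (gg d) =
      (a ^ (-(1 / 2) : ℂ) * b ^ (-(1 / 2) : ℂ) * c ^ (-(1 / 2) : ℂ) * d ^ (-(1 / 2) : ℂ)) *
      ∫ p : ℝ × ℝ, cexp (-Real.pi * (A * (p.1 : ℂ) ^ 2 + 2 * B * p.1 * p.2
        + C * (p.2 : ℂ) ^ 2)) := by
    unfold Phi
    rw [← integral_const_mul]
    congr 1
    funext p
    unfold gg
    have e : cexp (-Real.pi * (A * (p.1 : ℂ) ^ 2 + 2 * B * p.1 * p.2 + C * (p.2 : ℂ) ^ 2)) =
        cexp (-Real.pi * (ss x p : ℂ) ^ 2 / a) * cexp (-Real.pi * (ss y p : ℂ) ^ 2 / b) *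
        cexp (-Real.pi * (ss z p : ℂ) ^ 2 / c) * cexp (-Real.pi * (ss w p : ℂ) ^ 2 / d) := by
      rw [← Complex.exp_add, ← Complex.exp_add, ← Complex.exp_add]
      congr 1
      rw [hA, hB, hC]
      unfold ss
      push_cast
      ring
    rw [e]
    ring
  have ire : ∀ {q : ℂ}, 0 < q.re → 0 < (q⁻¹).re := by
    intro q hq
    rw [inv_re]
    exact div_pos hq (normSq_pos.2 (ne_zero_of_re hq))
  set m := min (a⁻¹).re (b⁻¹).re with hm
  have hm0 : 0 < m := lt_min (ire ha) (ire hb)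
  have hκ : ∀ u v : ℝ, m * (pp x y / 2) * (u ^ 2 + v ^ 2) ≤
      A.re * u ^ 2 + 2 * B.re * u * v + C.re * v ^ 2 := by
    intro u v
    have rr : ∀ (q : ℂ) (r : ℝ), (q * (r : ℂ)).re = q.re * r := fun q r => by
      rw [mul_comm, re_ofReal_mul, mul_comm]
    have e2 : A.re * u ^ 2 + 2 * B.re * u * v + C.re * v ^ 2 =
        (a⁻¹).re * ss x (u, v) ^ 2 + (b⁻¹).re * ss y (u, v) ^ 2 + (c⁻¹).re * ss z (u, v) ^ 2 +
          (d⁻¹).re * ss w (u, v) ^ 2 := by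
      rw [hA, hB, hC]
      simp only [add_re, ← ofReal_pow, ← ofReal_mul, rr]
      unfold ss
      ring
    rw [e2]
    have h1 := ss_lower x y (u, v)
    simp only at h1
    have h2 : m * ss x (u, v) ^ 2 ≤ (a⁻¹).re * ss x (u, v) ^ 2 := by
      gcongr; exact min_le_left _ _
    have h3 : m * ss y (u, v) ^ 2 ≤ (b⁻¹).re * ss y (u, v) ^ 2 := by
      gcongr; exact min_le_right _ _
    have h4 : 0 ≤ (c⁻¹).re * ss z (u, v) ^ 2 := mul_nonneg (ire hc).le (sq_nonneg _)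
    have h5 : 0 ≤ (d⁻¹).re * ss w (u, v) ^ 2 := mul_nonneg (ire hd).le (sq_nonneg _)
    nlinarith
  have h6 := gauss2 (by positivity : 0 < m * (pp x y / 2)) hκ
  rw [e1, mul_pow, mul_pow, mul_pow, mul_pow, cpow_sq, cpow_sq, cpow_sq, cpow_sq]
  have e3 : Wp (pp x y) (pp x z) (pp x w) (pp y z) (pp y w) (pp z w) a b c d =
      a * b * c * d * (A * C - B ^ 2) := by
    rw [hA, hB, hC]
    unfold Wp pp
    simp only [Real.sin_sub]
    push_cast
    field_simp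
    ring
  rw [e3]
  set K := ∫ p : ℝ × ℝ, cexp (-Real.pi * (A * (p.1 : ℂ) ^ 2 + 2 * B * p.1 * p.2
        + C * (p.2 : ℂ) ^ 2))
  calc a⁻¹ * b⁻¹ * c⁻¹ * d⁻¹ * K ^ 2 * (a * b * c * d * (A * C - B ^ 2))
      = (a⁻¹ * a) * (b⁻¹ * b) * (c⁻¹ * c) * (d⁻¹ * d) * (K ^ 2 * (A * C - B ^ 2)) := by ring
    _ = 1 := by
        rw [h6, inv_mul_cancel₀ ha0, inv_mul_cancel₀ hb0, inv_mul_cancel₀ hc0, inv_mul_cancel₀ hd0]
        norm_num

end Pool.Agent.T9h83.RAY
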