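import Pool.Agent.T9h83.RAY.Der2
set_option autoImplicit false

/-! The fourth derivative of the quadruple Gaussian integral. -/

namespace Pool.Agent.T9h83.RAY

open Complex MeasureTheory Metric Filter Topology

section W
variable (p12 p13 p14 p23 p24 p34 : ℝ)

/-- `∂_a W` -/
noncomputable def W1 (b c d : ℂ) : ℂ := p34 * b + p24 * c + p23 * d
/-- `∂_b W` -/
noncomputable def W2 (a c d : ℂ) : ℂ := p34 * a + p14 * c + p13 * d
/-- `∂_c W` -/
noncomputable def W3 (a b d : ℂ) : ℂ := p24 * a + p14 * b + p12 * d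
/-- `∂_d W` -/
noncomputable def W4 (a b c : ℂ) : ℂ := p23 * a + p13 * b + p12 * c

lemma aff_deriv {f : ℂ → ℂ} {k m : ℂ} (h : ∀ z, f z = k * z + m) (z : ℂ) : HasDerivAt f k z := by
  have e : f = fun z => k * z + m := funext h
  rw [e]
  simpa using ((hasDerivAt_id z).const_mul k).add_const m

lemma W_d1 (a b c d : ℂ) : HasDerivAt (fun a => Wp p12 p13 p14 p23 p24 p34 a b c d)
    (W1 p23 p24 p34 b c d) a :=
  aff_deriv (m := p14 * (b * c) + p13 * (b * d) + p12 * (c * d))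
    (fun z => by unfold Wp W1; ring) a

lemma W_d2 (a b c d : ℂ) : HasDerivAt (fun b => Wp p12 p13 p14 p23 p24 p34 a b c d)
    (W2 p13 p14 p34 a c d) b :=
  aff_deriv (m := p24 * (a * c) + p23 * (a * d) + p12 * (c * d))
    (fun z => by unfold Wp W2; ring) b

lemma W_d3 (a b c d : ℂ) : HasDerivAt (fun c => Wp p12 p13 p14 p23 p24 p34 a b c d)
    (W3 p12 p14 p24 a b d) c :=
  aff_deriv (m := p34 * (a * b) + p23 * (a * d) + p13 * (b * d))
    (fun z => by unfold Wp W3; ring) c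

lemma W_d4 (a b c d : ℂ) : HasDerivAt (fun d => Wp p12 p13 p14 p23 p24 p34 a b c d)
    (W4 p12 p13 p23 a b c) d :=
  aff_deriv (m := p34 * (a * b) + p24 * (a * c) + p14 * (b * c))
    (fun z => by unfold Wp W4; ring) d

end W

/-- the derivative of a square root of `1/W` -/
lemma log_deriv {J W : ℂ → ℂ} {J' W' z : ℂ} (hJ : HasDerivAt J J' z) (hW : HasDerivAt W W' z)
    (h : ∀ᶠ y in 𝓝 z, J y ^ 2 * W y = 1) : J' = -(1 / 2) * J z * W' / W z := by
  have h1 : HasDerivAt (fun y => J y ^ 2 * W y) (2 * J z * J' * W z + J z ^ 2 * W') z := by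
    have := (hJ.pow 2).mul hW
    refine this.congr_deriv ?_
    norm_num
  have h2 : HasDerivAt (fun y => J y ^ 2 * W y) 0 z :=
    (hasDerivAt_const z (1 : ℂ)).congr_of_eventuallyEq h
  have h3 := h1.unique h2
  have h4 := h.self_of_nhds
  have hW0 : W z ≠ 0 := by rintro h0; rw [h0] at h4; simp at h4
  have hJ0 : J z ≠ 0 := by rintro h0; rw [h0] at h4; simp at h4
  field_simp
  have h5 : J z * (2 * J' * W z + J z * W') = 0 := by linear_combination h3
  have h6 := (mul_eq_zero.1 h5).resolve_left hJ0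
  linear_combination h6

lemma re_nhds {a : ℂ} (ha : 0 < a.re) : ∀ᶠ z in 𝓝 a, 0 < z.re :=
  (continuous_re.isOpen_preimage _ isOpen_Ioi).mem_nhds ha

section calcu
variable {J W U V T : ℂ → ℂ} {W' U' V' T' z : ℂ}

lemma step1 (hJ : HasDerivAt J (-(1 / 2) * J z * W' / W z) z) (hW : HasDerivAt W W' z)
    (hU : HasDerivAt U U' z) (h0 : W z ≠ 0) :
    HasDerivAt (fun y => -(1 / 2) * J y * U y / W y)
      (J z * (3 / 4 * (U z * W') / W z ^ 2 - 1 / 2 * U' / W z)) z := by
  have := ((hJ.const_mul (-(1 / 2) : ℂ)).mul hU).div hW h0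
  refine this.congr_deriv ?_
  simp only [Pi.mul_apply]
  field_simp
  ring

lemma step2 {k : ℂ} (hJ : HasDerivAt J (-(1 / 2) * J z * W' / W z) z) (hW : HasDerivAt W W' z)
    (hU : HasDerivAt U U' z) (hV : HasDerivAt V V' z) (h0 : W z ≠ 0) :
    HasDerivAt (fun y => J y * (3 / 4 * (U y * V y) / W y ^ 2 - 1 / 2 * k / W y))
      (J z * (-(15 / 8) * (U z * V z * W') / W z ^ 3 +
        3 / 4 * (k * W' + U' * V z + U z * V') / W z ^ 2)) z := by
  have h1 := ((hU.mul hV).const_mul (3 / 4 : ℂ)).div (hW.pow 2) (pow_ne_zero 2 h0)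
  have h2 := (hasDerivAt_const z (1 / 2 * k)).div hW h0
  have := hJ.mul (h1.sub h2)
  refine this.congr_deriv ?_
  simp only [Pi.mul_apply, Pi.pow_apply, Pi.sub_apply, Pi.div_apply]
  field_simp
  ring

lemma step3 {k l m : ℂ} (hJ : HasDerivAt J (-(1 / 2) * J z * W' / W z) z)
    (hW : HasDerivAt W W' z) (hU : HasDerivAt U U' z) (hV : HasDerivAt V V' z)
    (hT : HasDerivAt T T' z) (h0 : W z ≠ 0) :
    HasDerivAt (fun y => J y * (-(15 / 8) * (U y * V y * T y) / W y ^ 3 +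
        3 / 4 * (k * T y + l * V y + m * U y) / W y ^ 2))
      (J z * (105 / 16 * (U z * V z * T z * W') / W z ^ 4
        - 15 / 8 * (k * T z * W' + l * V z * W' + m * U z * W' + U' * V z * T z +
          U z * V' * T z + U z * V z * T') / W z ^ 3
        + 3 / 4 * (k * T' + l * V' + m * U') / W z ^ 2)) z := by
  have h1 := (((hU.mul hV).mul hT).const_mul (-(15 / 8) : ℂ)).div (hW.pow 3) (pow_ne_zero 3 h0)
  have h2 := ((((hT.const_mul k).add (hV.const_mul l)).add (hU.const_mul m)).const_mul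
    (3 / 4 : ℂ)).div (hW.pow 2) (pow_ne_zero 2 h0)
  have := hJ.mul (h1.add h2)
  refine this.congr_deriv ?_
  simp only [Pi.mul_apply, Pi.pow_apply, Pi.sub_apply, Pi.div_apply, Pi.add_apply]
  field_simp
  ring

end calcu

section main
variable {x y z w : ℝ} (h12 : 0 < pp x y) (h34 : 0 < pp z w) {a b c d : ℂ}
  (ha : 0 < a.re) (hb : 0 < b.re) (hc : 0 < c.re) (hd : 0 < d.re)
include h12 h34 ha hb hc hd

/-- the quadruple Gaussian integral -/
noncomputable def JJ (x y z w : ℝ) (a b c d : ℂ) : ℂ := Phi x y z w (gg a) (gg b) (gg c) (gg d)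

/-- `W` for the angles -/
noncomputable def WW (x y z w : ℝ) (a b c d : ℂ) : ℂ :=
  Wp (pp x y) (pp x z) (pp x w) (pp y z) (pp y w) (pp z w) a b c d

omit h34 in
lemma JJ_sq : JJ x y z w a b c d ^ 2 * WW x y z w a b c d = 1 := Phi_sq h12 ha hb hc hd

omit h34 in
lemma WW_ne : WW x y z w a b c d ≠ 0 := by
  intro h0
  have := JJ_sq h12 ha hb hc hd (z := z) (w := w)
  rw [h0] at this
  simp at this

lemma JJ_v1 : Phi x y z w (ggp a) (gg b) (gg c) (gg d) = -(1 / 2) * JJ x y z w a b c d *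
    W1 (pp y z) (pp y w) (pp z w) b c d / WW x y z w a b c d := by
  have h := Phi_d1 (x := x) h34 (gg_GB hb) (gg_GB hc) (gg_GB hd) ha (y := y)
  refine log_deriv (J := fun a => JJ x y z w a b c d) (W := fun a => WW x y z w a b c d)
    h (W_d1 _ _ _ _ _ _ a b c d) ?_
  filter_upwards [re_nhds ha] with a' ha'
  exact JJ_sq h12 ha' hb hc hd

lemma JJ_d2 : HasDerivAt (fun b => JJ x y z w a b c d) (-(1 / 2) * JJ x y z w a b c d *
    W2 (pp x z) (pp x w) (pp z w) a c d / WW x y z w a b c d) b := by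
  have h := Phi_d2 (x := x) (y := y) h34 (gg_GB ha) (gg_GB hc) (gg_GB hd) hb
  have e := log_deriv (J := fun b => JJ x y z w a b c d) (W := fun b => WW x y z w a b c d)
    h (W_d2 _ _ _ _ _ _ a b c d) (by
      filter_upwards [re_nhds hb] with b' hb'
      exact JJ_sq h12 ha hb' hc hd)
  exact h.congr_deriv e

omit h34 in
lemma JJ_d3 : HasDerivAt (fun c => JJ x y z w a b c d) (-(1 / 2) * JJ x y z w a b c d *
    W3 (pp x y) (pp x w) (pp y w) a b d / WW x y z w a b c d) c := by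
  have h := Phi_d3 (z := z) (w := w) h12 (gg_GB ha) (gg_GB hb) (gg_GB hd) hc
  have e := log_deriv (J := fun c => JJ x y z w a b c d) (W := fun c => WW x y z w a b c d)
    h (W_d3 _ _ _ _ _ _ a b c d) (by
      filter_upwards [re_nhds hc] with c' hc'
      exact JJ_sq h12 ha hb hc' hd)
  exact h.congr_deriv e

omit h34 in
lemma JJ_d4 : HasDerivAt (fun d => JJ x y z w a b c d) (-(1 / 2) * JJ x y z w a b c d *
    W4 (pp x y) (pp x z) (pp y z) a b c / WW x y z w a b c d) d := by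
  have h := Phi_d4 (z := z) (w := w) h12 (gg_GB ha) (gg_GB hb) (gg_GB hc) hd
  have e := log_deriv (J := fun d => JJ x y z w a b c d) (W := fun d => WW x y z w a b c d)
    h (W_d4 _ _ _ _ _ _ a b c d) (by
      filter_upwards [re_nhds hd] with d' hd'
      exact JJ_sq h12 ha hb hc hd')
  exact h.congr_deriv e

lemma JJ_v12 : Phi x y z w (ggp a) (ggp b) (gg c) (gg d) = JJ x y z w a b c d *
    (3 / 4 * (W1 (pp y z) (pp y w) (pp z w) b c d * W2 (pp x z) (pp x w) (pp z w) a c d) /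
      WW x y z w a b c d ^ 2 - 1 / 2 * (pp z w : ℂ) / WW x y z w a b c d) := by
  have h := Phi_d2 (x := x) (y := y) h34 (ggp_GB ha) (gg_GB hc) (gg_GB hd) hb
  have hU : HasDerivAt (fun b => W1 (pp y z) (pp y w) (pp z w) b c d) (pp z w : ℂ) b :=
    aff_deriv (m := pp y w * c + pp y z * d) (fun t => by unfold W1; ring) b
  have h2 := step1 (J := fun b => JJ x y z w a b c d) (W := fun b => WW x y z w a b c d)
    (U := fun b => W1 (pp y z) (pp y w) (pp z w) b c d) (z := b) (JJ_d2 h12 h34 ha hb hc hd) (W_d2 _ _ _ _ _ _ a b c d) hU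
    (WW_ne h12 ha hb hc hd)
  refine h.unique (h2.congr_of_eventuallyEq ?_)
  filter_upwards [re_nhds hb] with b' hb'
  exact JJ_v1 h12 h34 ha hb' hc hd

lemma JJ_v123 : Phi x y z w (ggp a) (ggp b) (ggp c) (gg d) = JJ x y z w a b c d *
    (-(15 / 8) * (W1 (pp y z) (pp y w) (pp z w) b c d * W2 (pp x z) (pp x w) (pp z w) a c d *
      W3 (pp x y) (pp x w) (pp y w) a b d) / WW x y z w a b c d ^ 3 +
    3 / 4 * ((pp z w : ℂ) * W3 (pp x y) (pp x w) (pp y w) a b d +
      (pp y w : ℂ) * W2 (pp x z) (pp x w) (pp z w) a c d +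
      (pp x w : ℂ) * W1 (pp y z) (pp y w) (pp z w) b c d) / WW x y z w a b c d ^ 2) := by
  have h := Phi_d3 (z := z) (w := w) h12 (ggp_GB ha) (ggp_GB hb) (gg_GB hd) hc
  have hU : HasDerivAt (fun c => W1 (pp y z) (pp y w) (pp z w) b c d) (pp y w : ℂ) c :=
    aff_deriv (m := pp z w * b + pp y z * d) (fun t => by unfold W1; ring) c
  have hV : HasDerivAt (fun c => W2 (pp x z) (pp x w) (pp z w) a c d) (pp x w : ℂ) c :=
    aff_deriv (m := pp z w * a + pp x z * d) (fun t => by unfold W2; ring) c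
  have h2 := step2 (k := (pp z w : ℂ)) (J := fun c => JJ x y z w a b c d)
    (W := fun c => WW x y z w a b c d) (U := fun c => W1 (pp y z) (pp y w) (pp z w) b c d)
    (V := fun c => W2 (pp x z) (pp x w) (pp z w) a c d) (z := c) (JJ_d3 h12 ha hb hc hd) (W_d3 _ _ _ _ _ _ a b c d) hU hV
    (WW_ne h12 ha hb hc hd)
  refine (h.unique (h2.congr_of_eventuallyEq ?_)).trans ?_
  · filter_upwards [re_nhds hc] with c' hc'
    exact JJ_v12 h12 h34 ha hb hc' hd
  · congr 4
    ring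

lemma JJ_v1234 : Phi x y z w (ggp a) (ggp b) (ggp c) (ggp d) = JJ x y z w a b c d *
    Q4 (WW x y z w a b c d) (W1 (pp y z) (pp y w) (pp z w) b c d)
      (W2 (pp x z) (pp x w) (pp z w) a c d) (W3 (pp x y) (pp x w) (pp y w) a b d)
      (W4 (pp x y) (pp x z) (pp y z) a b c) (pp z w) (pp y w) (pp y z) (pp x w) (pp x z)
      (pp x y) := by
  have h := Phi_d4 (z := z) (w := w) h12 (ggp_GB ha) (ggp_GB hb) (ggp_GB hc) hd
  have hU : HasDerivAt (fun d => W1 (pp y z) (pp y w) (pp z w) b c d) (pp y z : ℂ) d :=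
    aff_deriv (m := pp z w * b + pp y w * c) (fun t => by unfold W1; ring) d
  have hV : HasDerivAt (fun d => W2 (pp x z) (pp x w) (pp z w) a c d) (pp x z : ℂ) d :=
    aff_deriv (m := pp z w * a + pp x w * c) (fun t => by unfold W2; ring) d
  have hT : HasDerivAt (fun d => W3 (pp x y) (pp x w) (pp y w) a b d) (pp x y : ℂ) d :=
    aff_deriv (m := pp y w * a + pp x w * b) (fun t => by unfold W3; ring) d
  have h2 := step3 (k := (pp z w : ℂ)) (l := (pp y w : ℂ)) (m := (pp x w : ℂ))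
    (J := fun d => JJ x y z w a b c d)
    (W := fun d => WW x y z w a b c d) (U := fun d => W1 (pp y z) (pp y w) (pp z w) b c d)
    (V := fun d => W2 (pp x z) (pp x w) (pp z w) a c d)
    (T := fun d => W3 (pp x y) (pp x w) (pp y w) a b d) (z := d)
    (JJ_d4 h12 ha hb hc hd) (W_d4 _ _ _ _ _ _ a b c d) hU hV hT
    (WW_ne h12 ha hb hc hd)
  refine (h.unique (h2.congr_of_eventuallyEq ?_)).trans ?_
  · filter_upwards [re_nhds hd] with d' hd'
    exact JJ_v123 h12 h34 ha hb hc hd'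
  · unfold Q4
    ring

end main

/-- **The quadruple integral of the derivatives.** -/
lemma quad_bound {x y z w : ℝ} (h12 : 0 < pp x y) (h34 : 0 < pp z w) {t : ℝ} (ht : 1 ≤ |t|)
    {κ : ℝ} (h1 : 1 ≤ κ) (h2 : κ ≤ 2) (hpos : 0 < dd x y z w) :
    ‖Phi x y z w (ggp (1 - 2 * I * t)) (ggp (1 - 2 * I * t)) (ggp (1 + 2 * I * t))
      (ggp (1 + 2 * I * t))‖ ≤ 1400 * (|t| * dd x y z w) ^ (-κ) := by
  have ra : 0 < (1 - 2 * I * t : ℂ).re := by simp
  have rb : 0 < (1 + 2 * I * t : ℂ).re := by simp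
  rw [JJ_v1234 h12 h34 ra ra rb rb]
  have hsq := JJ_sq h12 ra ra rb rb (z := z) (w := w)
  have hne := WW_ne h12 ra ra rb rb (z := z) (w := w)
  have hR := rel x y z w
  have hwb := wb hR t
  obtain ⟨q1, q2⟩ := Q4_bound hR ht hne
  have eQ : Q4 (WW x y z w (1 - 2 * I * t) (1 - 2 * I * t) (1 + 2 * I * t) (1 + 2 * I * t))
      (W1 (pp y z) (pp y w) (pp z w) (1 - 2 * I * t) (1 + 2 * I * t) (1 + 2 * I * t))
      (W2 (pp x z) (pp x w) (pp z w) (1 - 2 * I * t) (1 + 2 * I * t) (1 + 2 * I * t))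
      (W3 (pp x y) (pp x w) (pp y w) (1 - 2 * I * t) (1 - 2 * I * t) (1 + 2 * I * t))
      (W4 (pp x y) (pp x z) (pp y z) (1 - 2 * I * t) (1 - 2 * I * t) (1 + 2 * I * t))
      (pp z w) (pp y w) (pp y z) (pp x w) (pp x z) (pp x y) =
      Q4at (pp x y) (pp x z) (pp x w) (pp y z) (pp y w) (pp z w) t := by
    unfold Q4at
    congr 1
    · unfold W1; push_cast; ring
    · unfold W2; push_cast; ring
    · unfold W3; push_cast; ring
    · unfold W4; push_cast; ring
  rw [eQ, norm_mul]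
  set Q := ‖Q4at (pp x y) (pp x z) (pp x w) (pp y z) (pp y w) (pp z w) t‖ with hQ
  have hQ0 : 0 ≤ Q := norm_nonneg _
  set δ := dd x y z w with hδ
  have hδ0 : 0 ≤ δ := dd_nonneg _ _ _ _
  set j := ‖JJ x y z w (1 - 2 * I * t) (1 - 2 * I * t) (1 + 2 * I * t) (1 + 2 * I * t)‖ with hj
  have hj0 : 0 ≤ j := norm_nonneg _
  set X := |t| * δ with hX
  have hX0 : 0 ≤ X := by positivity
  have hjW : j ^ 2 * ‖WW x y z w (1 - 2 * I * t) (1 - 2 * I * t) (1 + 2 * I * t)
      (1 + 2 * I * t)‖ = 1 := by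
    rw [hj, ← norm_pow, ← norm_mul, hsq, norm_one]
  have hjX : j * X ≤ 1 := by
    have h3 : X ^ 2 ≤ ‖WW x y z w (1 - 2 * I * t) (1 - 2 * I * t) (1 + 2 * I * t)
      (1 + 2 * I * t)‖ := by
      have h4 := hwb.re
      have e : X ^ 2 = t ^ 2 * δ ^ 2 := by rw [hX, mul_pow, sq_abs]
      have := hR.h12; have := hR.h13; have := hR.h14; have := hR.h23; have := hR.h24
      have := hR.h34
      rw [e]
      refine le_trans ?_ h4
      linarith
    have h5 : (j * X) ^ 2 ≤ 1 ^ 2 := by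
      rw [mul_pow]
      calc j ^ 2 * X ^ 2 ≤ j ^ 2 * _ := mul_le_mul_of_nonneg_left h3 (sq_nonneg j)
        _ = 1 := hjW
        _ = 1 ^ 2 := by norm_num
    exact (abs_le_of_sq_le_sq' h5 (by norm_num)).2
  have hXp : 0 < X := mul_pos (by linarith) hpos
  have hjX' : j ≤ X⁻¹ := by
    rw [← one_div, le_div_iff₀ hXp]; exact hjX
  · rcases le_total X 1 with hX1 | hX1
    · have e1 : X⁻¹ ≤ X ^ (-κ) := by
        rw [← Real.rpow_neg_one]
        exact Real.rpow_le_rpow_of_exponent_ge hXp hX1 (by linarith)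
      calc j * Q ≤ X ^ (-κ) * 700 := by
            gcongr
            exact hjX'.trans e1
        _ ≤ 1400 * X ^ (-κ) := by
            have : 0 ≤ X ^ (-κ) := by positivity
            linarith
    · have h6 : Q ≤ 1400 * X⁻¹ := by
        rw [← div_eq_mul_inv, le_div_iff₀ hXp]
        exact q2 hX1
      have e1 : X⁻¹ * X⁻¹ ≤ X ^ (-κ) := by
        have : X⁻¹ * X⁻¹ = X ^ (-2 : ℝ) := by
          rw [Real.rpow_neg hXp.le, ← mul_inv]
          congr 1
          norm_num [sq]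
        rw [this]
        exact Real.rpow_le_rpow_of_exponent_le hX1 (by linarith)
      calc j * Q ≤ X⁻¹ * (1400 * X⁻¹) := by gcongr
        _ = 1400 * (X⁻¹ * X⁻¹) := by ring
        _ ≤ 1400 * X ^ (-κ) := by gcongr

end Pool.Agent.T9h83.RAY
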