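import Pool.Agent.T9h83.RAY.Mom
set_option autoImplicit false

/-! The energy integral, uniformly in one angle, and permutations of the four angles. -/

namespace Pool.Agent.T9h83.RAY

open Complex MeasureTheory Set
open scoped ENNReal Real ComplexConjugate

lemma mθ_def : mθ = volume.restrict (Ioc (0:ℝ) π) := rfl

/-- the energy with the first angle fixed -/
lemma energy_unif {κ : ℝ} (hκ : 0 ≤ κ) (h2 : κ < 2) :
    ∃ E1 : ℝ≥0∞, E1 ≠ ∞ ∧ ∀ x : ℝ, ∫⁻ q, ee κ (x, q) ∂(mθ.prod (mθ.prod mθ)) ≤ E1 := by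
  set s := κ / 2 with hs
  have hs0 : 0 ≤ s := by rw [hs]; linarith
  have hs1 : s < 1 := by rw [hs]; linarith
  have hK := Kσ_lt hs0 hs1
  have m1 : ∀ c : ℝ, Measurable fun w => ks s (c - w) := fun c => (ks_meas s).comp (by fun_prop)
  have m2 : ∀ c : ℝ, Measurable fun w => ks s (c - w + π / 2) := fun c =>
    (ks_meas s).comp (by fun_prop)
  have hb : ∀ x z w : ℝ, ∫⁻ y, ENNReal.ofReal (dd x y z w) ^ (-κ) ∂mθ ≤
      (4 ^ s * 2 ^ s * Kσ s) * (ks s (x - z) * ks s (x - w) + ks s (z - w + π / 2) * ks s (x - w) +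
      ks s (z - w + π / 2) * ks s (x - z)) := by
    intro x z w
    refine (inner_bound hκ x z w).trans ?_
    rw [← hs]
    calc 4 ^ s * (ENNReal.ofReal (PP x z w) ^ (-s) * Kσ s) ≤ 4 ^ s * ((2 ^ s *
          (ks s (x - z) * ks s (x - w) + ks s (z - w + π / 2) * ks s (x - w) +
          ks s (z - w + π / 2) * ks s (x - z))) * Kσ s) := by
            gcongr; exact PP_le hs0 x z w
      _ = _ := by ring
  set D : ℝ≥0∞ := 4 ^ s * 2 ^ s * Kσ s with hD
  have hDt : D ≠ ∞ := by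
    rw [hD]
    refine (ENNReal.mul_lt_top (ENNReal.mul_lt_top ?_ ?_) hK).ne
    · exact ENNReal.rpow_lt_top_of_nonneg hs0 (by norm_num)
    · exact ENNReal.rpow_lt_top_of_nonneg hs0 (by norm_num)
  have mm2' : ∀ x : ℝ, Measurable fun p : ℝ × ℝ => ks s (p.1 - p.2 + π / 2) * ks s (x - p.2) :=
    fun x => ((ks_meas s).comp (by fun_prop)).mul ((ks_meas s).comp (by fun_prop))
  have t1 : ∀ x, ∫⁻ z, ∫⁻ w, ks s (x - z) * ks s (x - w) ∂mθ ∂mθ = Kσ s * Kσ s := by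
    intro x
    simp_rw [lintegral_const_mul _ (m1 x), mθ_def, ks_shift']
    rw [lintegral_mul_const _ (m1 x), ks_shift']
  have t3 : ∀ x, ∫⁻ z, ∫⁻ w, ks s (z - w + π / 2) * ks s (x - z) ∂mθ ∂mθ =
      Kσ s * Kσ s := by
    intro x
    simp_rw [lintegral_mul_const _ (m2 _), mθ_def, ks_shift3]
    rw [lintegral_const_mul _ (m1 x), ks_shift']
  have t2 : ∀ x, ∫⁻ z, ∫⁻ w, ks s (z - w + π / 2) * ks s (x - w) ∂mθ ∂mθ =
      Kσ s * Kσ s := by
    intro x
    rw [lintegral_lintegral_swap (f := fun z w => ks s (z - w + π / 2) * ks s (x - w))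
      (mm2' x).aemeasurable]
    have : ∀ w, ∫⁻ z, ks s (z - w + π / 2) * ks s (x - w) ∂mθ = Kσ s * ks s (x - w) := by
      intro w
      have m4 : Measurable fun z => ks s (z - w + π / 2) := (ks_meas s).comp (by fun_prop)
      rw [lintegral_mul_const _ m4, mθ_def, ks_shift'']
    simp_rw [this]
    rw [lintegral_const_mul _ (m1 x), mθ_def, ks_shift']
  refine ⟨D * (Kσ s * Kσ s + Kσ s * Kσ s + Kσ s * Kσ s), ?_, ?_⟩
  · have h3 : Kσ s * Kσ s ≠ ∞ := ENNReal.mul_ne_top hK.ne hK.ne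
    exact ENNReal.mul_ne_top hDt (ENNReal.add_ne_top.2 ⟨ENNReal.add_ne_top.2 ⟨h3, h3⟩, h3⟩)
  · intro x
    have m0 := ee_meas κ
    have m3 : Measurable fun q : ℝ × ℝ × ℝ => ee κ (x, q) := m0.comp measurable_prodMk_left
    rw [lintegral_prod _ m3.aemeasurable]
    have e1 : ∀ z : ℝ, ∫⁻ q : ℝ × ℝ, ee κ (x, z, q) ∂(mθ.prod mθ) =
        ∫⁻ w, ∫⁻ y, ee κ (x, z, w, y) ∂mθ ∂mθ := by
      intro z
      have m4 : Measurable fun q : ℝ × ℝ => ee κ (x, z, q) := m3.comp measurable_prodMk_left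
      rw [lintegral_prod _ m4.aemeasurable]
    simp_rw [e1]
    have mA : ∀ z : ℝ, Measurable fun w : ℝ => ks s (x - z) * ks s (x - w) := fun z =>
      (m1 x).const_mul _
    have mB : ∀ z : ℝ, Measurable fun w : ℝ => ks s (z - w + π / 2) * ks s (x - w) := fun z =>
      (m2 z).mul (m1 x)
    have mC : ∀ z : ℝ, Measurable fun w : ℝ => ks s (z - w + π / 2) * ks s (x - z) := fun z =>
      (m2 z).mul_const _
    have mA2 : Measurable fun z : ℝ => ∫⁻ w, ks s (x - z) * ks s (x - w) ∂mθ := by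
      have : Measurable fun p : ℝ × ℝ => ks s (x - p.1) * ks s (x - p.2) :=
        ((ks_meas s).comp (by fun_prop)).mul ((ks_meas s).comp (by fun_prop))
      exact this.lintegral_prod_right'
    have mB2 : Measurable fun z : ℝ => ∫⁻ w, ks s (z - w + π / 2) * ks s (x - w) ∂mθ :=
      (mm2' x).lintegral_prod_right'
    calc ∫⁻ z, ∫⁻ w, ∫⁻ y, ee κ (x, z, w, y) ∂mθ ∂mθ ∂mθ ≤
        ∫⁻ z, ∫⁻ w, D * (ks s (x - z) * ks s (x - w) + ks s (z - w + π / 2) * ks s (x - w) +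
      ks s (z - w + π / 2) * ks s (x - z)) ∂mθ ∂mθ :=
          lintegral_mono fun z => lintegral_mono fun w => hb x z w
      _ = D * ∫⁻ z, ((∫⁻ w, ks s (x - z) * ks s (x - w) ∂mθ) +
          (∫⁻ w, ks s (z - w + π / 2) * ks s (x - w) ∂mθ) +
          ∫⁻ w, ks s (z - w + π / 2) * ks s (x - z) ∂mθ) ∂mθ := by
          rw [← lintegral_const_mul' _ _ hDt]
          apply lintegral_congr
          intro z
          have mAB : Measurable fun w => ks s (x - z) * ks s (x - w) +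
              ks s (z - w + π / 2) * ks s (x - w) := (mA z).add (mB z)
          rw [lintegral_const_mul' _ _ hDt, lintegral_add_left mAB,
            lintegral_add_left (mA z)]
      _ = D * (Kσ s * Kσ s + Kσ s * Kσ s + Kσ s * Kσ s) := by
          have mAB2 : Measurable fun z => (∫⁻ w, ks s (x - z) * ks s (x - w) ∂mθ) +
              ∫⁻ w, ks s (z - w + π / 2) * ks s (x - w) ∂mθ := mA2.add mB2
          rw [lintegral_add_left mAB2, lintegral_add_left mA2, t1, t2, t3]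

/-- exchange of the first two coordinates -/
lemma swap01 {β : Type*} [MeasurableSpace β] {ν : Measure β} [SFinite ν] {F : ℝ × ℝ × β → ℝ≥0∞}
    (hF : Measurable F) : ∫⁻ q, F q ∂(mθ.prod (mθ.prod ν)) =
      ∫⁻ q, F (q.2.1, q.1, q.2.2) ∂(mθ.prod (mθ.prod ν)) := by
  have hF' : Measurable fun q : ℝ × ℝ × β => F (q.2.1, q.1, q.2.2) :=
    hF.comp ((measurable_fst.comp measurable_snd).prodMk
      (measurable_fst.prodMk (measurable_snd.comp measurable_snd)))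
  rw [lintegral_prod _ hF.aemeasurable, lintegral_prod _ hF'.aemeasurable]
  have e1 : ∀ x : ℝ, ∫⁻ q : ℝ × β, F (x, q) ∂(mθ.prod ν) = ∫⁻ z, ∫⁻ r, F (x, z, r) ∂ν ∂mθ := by
    intro x
    exact lintegral_prod _ (hF.comp measurable_prodMk_left).aemeasurable
  have e2 : ∀ x : ℝ, ∫⁻ q : ℝ × β, F (q.1, x, q.2) ∂(mθ.prod ν) =
      ∫⁻ z, ∫⁻ r, F (z, x, r) ∂ν ∂mθ := by
    intro x
    have : Measurable fun q : ℝ × β => F (q.1, x, q.2) :=
      hF.comp (measurable_fst.prodMk (measurable_const.prodMk measurable_snd))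
    exact lintegral_prod _ this.aemeasurable
  simp only
  simp_rw [e1, e2]
  rw [lintegral_lintegral_swap]
  have : Measurable fun p : (ℝ × ℝ) × β => F (p.1.1, p.1.2, p.2) :=
    hF.comp ((measurable_fst.comp measurable_fst).prodMk
      ((measurable_snd.comp measurable_fst).prodMk measurable_snd))
  exact this.lintegral_prod_right'.aemeasurable

lemma swap12 {F : ℝ × ℝ × ℝ × ℝ → ℝ≥0∞} (hF : Measurable F) : ∫⁻ q, F q ∂M4 =
    ∫⁻ q, F (q.1, q.2.2.1, q.2.1, q.2.2.2) ∂M4 := by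
  unfold M4
  have hF' : Measurable fun q : ℝ × ℝ × ℝ × ℝ => F (q.1, q.2.2.1, q.2.1, q.2.2.2) :=
    hF.comp (mm1.prodMk (mm3.prodMk (mm2.prodMk mm4)))
  rw [lintegral_prod _ hF.aemeasurable, lintegral_prod _ hF'.aemeasurable]
  congr 1; funext x
  have := swap01 (ν := mθ) (F := fun r => F (x, r)) (hF.comp measurable_prodMk_left)
  exact this

lemma swap23 {F : ℝ × ℝ × ℝ × ℝ → ℝ≥0∞} (hF : Measurable F) : ∫⁻ q, F q ∂M4 =
    ∫⁻ q, F (q.1, q.2.1, q.2.2.2, q.2.2.1) ∂M4 := by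
  unfold M4
  have hF' : Measurable fun q : ℝ × ℝ × ℝ × ℝ => F (q.1, q.2.1, q.2.2.2, q.2.2.1) :=
    hF.comp (mm1.prodMk (mm2.prodMk (mm4.prodMk mm3)))
  rw [lintegral_prod _ hF.aemeasurable, lintegral_prod _ hF'.aemeasurable]
  congr 1; funext x
  have g1 : Measurable fun r : ℝ × ℝ × ℝ => F (x, r) := hF.comp measurable_prodMk_left
  have g2 : Measurable fun r : ℝ × ℝ × ℝ => F (x, r.1, r.2.2, r.2.1) :=
    g1.comp (measurable_fst.prodMk ((measurable_snd.comp measurable_snd).prodMk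
      (measurable_fst.comp measurable_snd)))
  simp only
  rw [lintegral_prod _ g1.aemeasurable, lintegral_prod _ g2.aemeasurable]
  congr 1; funext z
  have g3 : Measurable fun r : ℝ × ℝ => F (x, z, r) := g1.comp measurable_prodMk_left
  exact (lintegral_prod_swap (μ := mθ) (ν := mθ) (fun r : ℝ × ℝ => F (x, z, r))).symm

lemma swap01' {F : ℝ × ℝ × ℝ × ℝ → ℝ≥0∞} (hF : Measurable F) : ∫⁻ q, F q ∂M4 =
    ∫⁻ q, F (q.2.1, q.1, q.2.2) ∂M4 := by
  unfold M4
  exact swap01 hF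

lemma dd_swap_xy (x y z w : ℝ) : dd y x z w = dd x y z w := by
  unfold dd Vr Vi; ring_nf

lemma dd_swap_zw (x y z w : ℝ) : dd x y w z = dd x y z w := by
  unfold dd Vr Vi; ring_nf

lemma dd_swap_pairs (x y z w : ℝ) : dd z w x y = dd x y z w := by
  unfold dd Vr Vi
  congr 1
  ring

lemma ee_def (κ x z w y : ℝ) : ee κ (x, z, w, y) = ENNReal.ofReal (dd x y z w) ^ (-κ) := rfl

/-- each of the four angles can carry the function -/
lemma four_terms {κ : ℝ} {E1 : ℝ≥0∞}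
    (hE : ∀ x : ℝ, ∫⁻ q, ee κ (x, q) ∂(mθ.prod (mθ.prod mθ)) ≤ E1) {u : ℝ → ℝ≥0∞}
    (hu : Measurable u) :
    ∫⁻ q, (u q.1 + u q.2.1 + u q.2.2.1 + u q.2.2.2) * ee κ q ∂M4 ≤
      4 * (E1 * ∫⁻ θ, u θ ∂mθ) := by
  have me := ee_meas κ
  have m1 : Measurable fun q : ℝ × ℝ × ℝ × ℝ => u q.1 * ee κ q := (hu.comp mm1).mul me
  have m2 : Measurable fun q : ℝ × ℝ × ℝ × ℝ => u q.2.1 * ee κ q := (hu.comp mm2).mul me
  have m3 : Measurable fun q : ℝ × ℝ × ℝ × ℝ => u q.2.2.1 * ee κ q := (hu.comp mm3).mul me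
  have m4 : Measurable fun q : ℝ × ℝ × ℝ × ℝ => u q.2.2.2 * ee κ q := (hu.comp mm4).mul me
  set T := ∫⁻ q, u q.1 * ee κ q ∂M4 with hT
  have b1 : T ≤ E1 * ∫⁻ θ, u θ ∂mθ := by
    rw [hT]
    unfold M4
    rw [lintegral_prod _ m1.aemeasurable]
    have : ∀ x : ℝ, ∫⁻ q : ℝ × ℝ × ℝ, u x * ee κ (x, q) ∂(mθ.prod (mθ.prod mθ)) ≤ E1 * u x := by
      intro x
      have m5 : Measurable fun q : ℝ × ℝ × ℝ => ee κ (x, q) := me.comp measurable_prodMk_left
      rw [lintegral_const_mul _ m5, mul_comm]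
      gcongr
      exact hE x
    refine (lintegral_mono this).trans ?_
    rw [lintegral_const_mul _ hu]
  have b2 : ∫⁻ q, u q.2.1 * ee κ q ∂M4 = T := by
    rw [swap01' m2]
    have g : Measurable fun q : ℝ × ℝ × ℝ × ℝ => u q.1 * ee κ (q.2.1, q.1, q.2.2) :=
      (hu.comp mm1).mul (me.comp (mm2.prodMk (mm1.prodMk (measurable_snd.comp measurable_snd))))
    simp only
    rw [swap23 g, hT]
    apply lintegral_congr
    rintro ⟨x, z, w, y⟩
    simp only
    rw [ee_def, ee_def, dd_swap_pairs]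
  have b3 : ∫⁻ q, u q.2.2.1 * ee κ q ∂M4 = T := by
    rw [swap12 m3, ← b2]
    apply lintegral_congr
    rintro ⟨x, z, w, y⟩
    simp only
    rw [ee_def, ee_def, dd_swap_zw]
  have b4 : ∫⁻ q, u q.2.2.2 * ee κ q ∂M4 = T := by
    rw [swap01' m4]
    have g : Measurable fun q : ℝ × ℝ × ℝ × ℝ => u q.2.2.2 * ee κ (q.2.1, q.1, q.2.2) :=
      (hu.comp mm4).mul (me.comp (mm2.prodMk (mm1.prodMk (measurable_snd.comp measurable_snd))))
    simp only
    rw [swap23 g, ← b3]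
    apply lintegral_congr
    rintro ⟨x, z, w, y⟩
    simp only
    rw [ee_def, ee_def, dd_swap_pairs]
  have e : ∀ q : ℝ × ℝ × ℝ × ℝ, (u q.1 + u q.2.1 + u q.2.2.1 + u q.2.2.2) * ee κ q =
      ((u q.1 * ee κ q + u q.2.1 * ee κ q) + u q.2.2.1 * ee κ q) + u q.2.2.2 * ee κ q := by
    intro q; ring
  simp_rw [e]
  have n1 : Measurable fun q : ℝ × ℝ × ℝ × ℝ => u q.1 * ee κ q + u q.2.1 * ee κ q := m1.add m2
  have n2 : Measurable fun q : ℝ × ℝ × ℝ × ℝ => u q.1 * ee κ q + u q.2.1 * ee κ q +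
    u q.2.2.1 * ee κ q := n1.add m3
  rw [lintegral_add_left n2, lintegral_add_left n1, lintegral_add_left m1, ← hT, b2, b3, b4]
  calc T + T + T + T = 4 * T := by ring
    _ ≤ _ := by gcongr

end Pool.Agent.T9h83.RAY
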