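import Pool.Agent.T9h83.RAY.Rel
set_option autoImplicit false

/-! The energy integral. -/

namespace Pool.Agent.T9h83.RAY

open MeasureTheory Set
open scoped ENNReal Real

/-- antitone powers -/
lemma rpow_anti {a b : ℝ≥0∞} (h : a ≤ b) {s : ℝ} (hs : 0 ≤ s) : b ^ (-s) ≤ a ^ (-s) := by
  rw [ENNReal.rpow_neg, ENNReal.rpow_neg]
  exact ENNReal.inv_le_inv.2 (ENNReal.rpow_le_rpow h hs)

/-- `|sin|^(-σ)` -/
noncomputable def ks (σ θ : ℝ) : ℝ≥0∞ := ENNReal.ofReal |Real.sin θ| ^ (-σ)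

lemma ks_meas (σ : ℝ) : Measurable (ks σ) := by unfold ks; fun_prop

lemma ks_per (σ θ : ℝ) : ks σ (θ + π) = ks σ θ := by
  unfold ks
  rw [Real.sin_add_pi, abs_neg]

/-- the integral over a period -/
noncomputable def Kσ (σ : ℝ) : ℝ≥0∞ := ∫⁻ θ in Ioc 0 π, ks σ θ

lemma ks_shift (σ ω : ℝ) : ∫⁻ θ in Ioc 0 π, ks σ (θ - ω) = Kσ σ := by
  have hp := Real.pi_pos
  have h1 : ∫⁻ θ in Ioc 0 π, ks σ (θ - ω) = ∫⁻ θ in Ioc (-ω) (-ω + π), ks σ θ := by
    have e : Ioc (0:ℝ) π = (fun θ => θ - ω) ⁻¹' (Ioc (-ω) (-ω + π)) := by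
      ext θ
      simp only [mem_Ioc, mem_preimage]
      constructor <;> rintro ⟨a, b⟩ <;> constructor <;> linarith
    rw [e]
    exact (measurePreserving_sub_right volume ω).setLIntegral_comp_preimage measurableSet_Ioc
      (ks_meas σ)
  rw [h1]
  have a1 := isAddFundamentalDomain_Ioc hp (-ω)
  have a2 := isAddFundamentalDomain_Ioc hp 0
  rw [zero_add] at a2
  unfold Kσ
  refine a1.setLIntegral_eq a2 (ks σ) ?_
  rintro ⟨g, hg⟩ x
  obtain ⟨n, rfl⟩ := AddSubgroup.mem_zmultiples_iff.1 hg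
  have : Function.Periodic (ks σ) π := fun θ => ks_per σ θ
  have h := this.zsmul n x
  rw [AddSubgroup.vadd_def, vadd_eq_add, add_comm]
  exact h

lemma Kσ_lt {σ : ℝ} (h0 : 0 ≤ σ) (h1 : σ < 1) : Kσ σ < ∞ := by
  have hp := Real.pi_pos
  have hb : ∀ θ ∈ Ioc (0:ℝ) π, ks σ θ ≤ ENNReal.ofReal (2 / π) ^ (-σ) *
      (ENNReal.ofReal θ ^ (-σ) + ENNReal.ofReal (π - θ) ^ (-σ)) := by
    intro θ hθ
    have hs0 : 0 ≤ Real.sin θ := Real.sin_nonneg_of_nonneg_of_le_pi hθ.1.le hθ.2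
    have hs : 2 / π * min θ (π - θ) ≤ Real.sin θ := by
      rcases le_total θ (π / 2) with h | h
      · rw [min_eq_left (by linarith)]
        exact Real.mul_le_sin hθ.1.le h
      · rw [min_eq_right (by linarith), ← Real.sin_pi_sub]
        exact Real.mul_le_sin (by linarith [hθ.2]) (by linarith)
    unfold ks
    rw [abs_of_nonneg hs0]
    have h2 : ENNReal.ofReal (2 / π) * ENNReal.ofReal (min θ (π - θ)) ≤
        ENNReal.ofReal (Real.sin θ) := by
      rw [← ENNReal.ofReal_mul (by positivity)]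
      exact ENNReal.ofReal_le_ofReal hs
    refine (rpow_anti h2 h0).trans ?_
    rw [ENNReal.mul_rpow_of_ne_top ENNReal.ofReal_ne_top ENNReal.ofReal_ne_top]
    gcongr
    rcases le_total θ (π - θ) with h | h
    · rw [min_eq_left h]; exact le_self_add
    · rw [min_eq_right h]; exact le_add_self
  have hI : ∫⁻ θ in Ioc (0:ℝ) π, ENNReal.ofReal θ ^ (-σ) < ∞ := by
    have hi : IntervalIntegrable (fun x : ℝ => x ^ (-σ)) volume 0 π :=
      intervalIntegral.intervalIntegrable_rpow' (by linarith)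
    rw [intervalIntegrable_iff_integrableOn_Ioc_of_le hp.le] at hi
    have h3 := hi.lintegral_lt_top
    refine lt_of_le_of_lt (le_of_eq ?_) h3
    apply setLIntegral_congr_fun measurableSet_Ioc
    intro θ hθ
    simp only
    rw [ENNReal.ofReal_rpow_of_pos hθ.1]
  have hI2 : ∫⁻ θ in Ioc (0:ℝ) π, ENNReal.ofReal (π - θ) ^ (-σ) < ∞ := by
    have e : ∫⁻ θ in Ioo (0:ℝ) π, ENNReal.ofReal (π - θ) ^ (-σ) =
        ∫⁻ θ in Ioo (0:ℝ) π, ENNReal.ofReal θ ^ (-σ) := by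
      have e1 : Ioo (0:ℝ) π = (fun θ => π - θ) ⁻¹' (Ioo 0 π) := by
        ext θ
        simp only [mem_Ioo, mem_preimage]
        constructor <;> rintro ⟨a, b⟩ <;> constructor <;> linarith
      conv_lhs => rw [e1]
      exact (Measure.measurePreserving_sub_left volume π).setLIntegral_comp_preimage measurableSet_Ioo
        (f := fun θ => ENNReal.ofReal θ ^ (-σ)) (by fun_prop)
    rw [← Measure.restrict_congr_set (Ioo_ae_eq_Ioc), e,
      Measure.restrict_congr_set (Ioo_ae_eq_Ioc)]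
    exact hI
  unfold Kσ
  calc ∫⁻ θ in Ioc 0 π, ks σ θ ≤ ∫⁻ θ in Ioc 0 π, ENNReal.ofReal (2 / π) ^ (-σ) *
      (ENNReal.ofReal θ ^ (-σ) + ENNReal.ofReal (π - θ) ^ (-σ)) :=
        setLIntegral_mono' measurableSet_Ioc hb
    _ = ENNReal.ofReal (2 / π) ^ (-σ) * ((∫⁻ θ in Ioc (0:ℝ) π, ENNReal.ofReal θ ^ (-σ)) +
          ∫⁻ θ in Ioc (0:ℝ) π, ENNReal.ofReal (π - θ) ^ (-σ)) := by
        rw [lintegral_const_mul _ (by fun_prop), lintegral_add_left (by fun_prop)]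
    _ < ∞ := by
        apply ENNReal.mul_lt_top
        · exact (ENNReal.rpow_ne_top_of_ne_zero (ENNReal.ofReal_pos.2 (by positivity)).ne'
            ENNReal.ofReal_ne_top).lt_top
        · exact ENNReal.add_lt_top.2 ⟨hI, hI2⟩

/-- the product of the three sines -/
noncomputable def PP (x z w : ℝ) : ℝ :=
  |Real.cos (z - w)| * |Real.sin (x - z)| * |Real.sin (x - w)|

lemma rho_eq (x z w : ℝ) :
    (Real.cos (2 * x) - Real.cos (2 * z) - Real.cos (2 * w)) ^ 2 +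
      (Real.sin (2 * x) - Real.sin (2 * z) - Real.sin (2 * w)) ^ 2 - 1 =
    8 * (Real.cos (z - w) * Real.sin (x - z) * Real.sin (x - w)) := by
  have hx := Real.cos_sq_add_sin_sq (2 * x)
  have hz := Real.cos_sq_add_sin_sq (2 * z)
  have hw := Real.cos_sq_add_sin_sq (2 * w)
  have e1 : (Real.cos (2 * x) - Real.cos (2 * z) - Real.cos (2 * w)) ^ 2 +
      (Real.sin (2 * x) - Real.sin (2 * z) - Real.sin (2 * w)) ^ 2 - 1 =
      2 + 2 * Real.cos (2 * (z - w)) - 2 * Real.cos (2 * (x - z)) -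
        2 * Real.cos (2 * (x - w)) := by
    rw [show 2 * (z - w) = 2 * z - 2 * w by ring, show 2 * (x - z) = 2 * x - 2 * z by ring,
      show 2 * (x - w) = 2 * x - 2 * w by ring, Real.cos_sub, Real.cos_sub, Real.cos_sub]
    linear_combination hx + hz + hw
  rw [e1, Real.cos_two_mul, Real.cos_two_mul, Real.cos_two_mul]
  have ez : Real.cos (z - w) = Real.cos (x - w) * Real.cos (x - z) +
      Real.sin (x - w) * Real.sin (x - z) := by
    rw [← Real.cos_sub]; congr 1; ring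
  have h1 := Real.cos_sq_add_sin_sq (x - z)
  have h2 := Real.cos_sq_add_sin_sq (x - w)
  rw [ez]
  set a := Real.cos (x - z)
  set b := Real.sin (x - z)
  set c := Real.cos (x - w)
  set d := Real.sin (x - w)
  linear_combination (4 * d ^ 2 * 0 + 4 * c ^ 2 - 4 - 4 * d ^ 2 * 0) * h1 +
    (-4 * b ^ 2) * h2 + 0 * h1

lemma final_ineq {P c ρ : ℝ} (hP0 : 0 ≤ P) (hP1 : P ≤ 1) (hc0 : 0 ≤ c) (hc1 : c ≤ 1)
    (hρ0 : 0 ≤ ρ) (h10 : 4 * P ^ 2 ≤ (ρ - 1) ^ 2) :
    P * c / 4 ≤ (ρ - 1) ^ 2 + 4 * ρ * c ^ 2 := by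
  rcases le_total ρ (1 / 2) with h | h
  · have : 1 / 4 ≤ (ρ - 1) ^ 2 := by nlinarith
    have h11 : P * c ≤ 1 := by nlinarith
    have : 0 ≤ 4 * ρ * c ^ 2 := by positivity
    linarith
  · have h12 : 2 * c ^ 2 ≤ 4 * ρ * c ^ 2 := by
      have := sq_nonneg c
      nlinarith
    have h13 : P * c ≤ (P ^ 2 + c ^ 2) / 2 := by nlinarith [sq_nonneg (P - c)]
    have := sq_nonneg c
    have := sq_nonneg P
    linarith

/-- the lower bound for `δ²` -/
lemma dd_lower (x z w : ℝ) : ∃ ω : ℝ, ∀ y : ℝ,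
    PP x z w * |Real.cos (y - ω)| / 4 ≤ dd x y z w ^ 2 := by
  set X := Real.cos (2 * x) - Real.cos (2 * z) - Real.cos (2 * w) with hX
  set Y := Real.sin (2 * x) - Real.sin (2 * z) - Real.sin (2 * w) with hY
  set W : ℂ := ⟨X, Y⟩ with hW
  set ρ := ‖W‖ with hρ
  have hρ0 : 0 ≤ ρ := norm_nonneg _
  have hρ2 : ρ ^ 2 = X ^ 2 + Y ^ 2 := by
    rw [hρ, Complex.sq_norm, Complex.normSq_apply, hW]; ring
  refine ⟨W.arg / 2, fun y => ?_⟩
  set ω := W.arg / 2 with hω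
  have hXc : X = ρ * Real.cos (2 * ω) := by
    have h : W.re = ρ * Real.cos W.arg := by
      rcases eq_or_ne W 0 with h0 | h0
      · rw [hρ, h0]; simp
      · rw [Complex.cos_arg h0, hρ]
        have : ‖W‖ ≠ 0 := norm_ne_zero_iff.2 h0
        field_simp
    rw [hω, show 2 * (W.arg / 2) = W.arg by ring, ← h]
  have hYc : Y = ρ * Real.sin (2 * ω) := by
    have h : W.im = ρ * Real.sin W.arg := by
      rw [Complex.sin_arg, hρ]
      rcases eq_or_ne W 0 with h0 | h0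
      · rw [h0]; simp
      · have : ‖W‖ ≠ 0 := norm_ne_zero_iff.2 h0
        field_simp
    rw [hω, show 2 * (W.arg / 2) = W.arg by ring, ← h]
  have hy := Real.cos_sq_add_sin_sq (2 * y)
  have hd : dd x y z w ^ 2 = (ρ - 1) ^ 2 + 4 * ρ * Real.cos (y - ω) ^ 2 := by
    rw [dd_sq]
    have e1 : Vr x y z w = X + Real.cos (2 * y) := by unfold Vr; rw [hX]; ring
    have e2 : Vi x y z w = Y + Real.sin (2 * y) := by unfold Vi; rw [hY]; ring
    have e3 : Real.cos (2 * ω) * Real.cos (2 * y) + Real.sin (2 * ω) * Real.sin (2 * y) =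
        2 * Real.cos (y - ω) ^ 2 - 1 := by
      rw [← Real.cos_two_mul, ← Real.cos_sub, ← Real.cos_neg]; congr 1; ring
    have e4 : X * Real.cos (2 * y) + Y * Real.sin (2 * y) =
        ρ * (2 * Real.cos (y - ω) ^ 2 - 1) := by
      rw [← e3, hXc, hYc]
      have : ∀ a b c d r : ℝ, r * a * b + r * c * d = r * (a * b + c * d) := by intros; ring
      rw [this]
    rw [e1, e2]
    linear_combination hy + 2 * e4 - hρ2
  have hP : |ρ ^ 2 - 1| = 8 * PP x z w := by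
    rw [hρ2, hX, hY, rho_eq]
    unfold PP
    rw [abs_mul, abs_mul, abs_mul]
    norm_num
  have hPle : PP x z w ≤ 1 := by
    unfold PP
    have h1 := Real.abs_cos_le_one (z - w)
    have h2 := Real.abs_sin_le_one (x - z)
    have h3 := Real.abs_sin_le_one (x - w)
    calc |Real.cos (z - w)| * |Real.sin (x - z)| * |Real.sin (x - w)| ≤ 1 * 1 * 1 := by gcongr
      _ = 1 := by norm_num
  have hP0 : 0 ≤ PP x z w := by unfold PP; positivity
  have hρ3 : ρ ≤ 3 := by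
    have : ρ ^ 2 ≤ 9 := by
      have := (abs_le.1 (le_of_eq hP)).2
      linarith
    nlinarith
  have hc1 := Real.abs_cos_le_one (y - ω)
  have hc0 := abs_nonneg (Real.cos (y - ω))
  have hcs : Real.cos (y - ω) ^ 2 = |Real.cos (y - ω)| ^ 2 := (sq_abs _).symm
  rw [hd, hcs]
  set c := |Real.cos (y - ω)|
  have h8 : |ρ - 1| * (ρ + 1) = 8 * PP x z w := by
    rw [← hP, show ρ ^ 2 - 1 = (ρ - 1) * (ρ + 1) by ring, abs_mul, abs_of_pos (by linarith : 0 < ρ + 1)]
  have h9 : 2 * PP x z w ≤ |ρ - 1| := by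
    have := abs_nonneg (ρ - 1)
    nlinarith
  have h10 : 4 * PP x z w ^ 2 ≤ (ρ - 1) ^ 2 := by
    rw [← sq_abs (ρ - 1)]; nlinarith
  exact final_ineq hP0 hPle hc0 hc1 hρ0 h10

lemma cos_ks (σ y ω : ℝ) : ENNReal.ofReal |Real.cos (y - ω)| ^ (-σ) = ks σ (y - (ω - π / 2)) := by
  unfold ks
  rw [show y - (ω - π / 2) = (y - ω) + π / 2 by ring, Real.sin_add_pi_div_two]

/-- integration in the free angle -/
lemma inner_bound {κ : ℝ} (hκ : 0 ≤ κ) (x z w : ℝ) :
    ∫⁻ y in Ioc 0 π, ENNReal.ofReal (dd x y z w) ^ (-κ) ≤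
      4 ^ (κ / 2) * (ENNReal.ofReal (PP x z w) ^ (-(κ / 2)) * Kσ (κ / 2)) := by
  obtain ⟨ω, hω⟩ := dd_lower x z w
  have hk2 : 0 ≤ κ / 2 := by linarith
  rw [← ks_shift (κ / 2) (ω - π / 2), ← lintegral_const_mul _ (by
    exact (ks_meas _).comp (by fun_prop)), ← lintegral_const_mul _ (by
    exact ((ks_meas _).comp (by fun_prop)).const_mul _)]
  apply lintegral_mono
  intro y
  simp only
  rw [← cos_ks]
  have h1 : ENNReal.ofReal (dd x y z w) ^ (-κ) = ENNReal.ofReal (dd x y z w ^ 2) ^ (-(κ / 2)) := by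
    rw [ENNReal.ofReal_pow (dd_nonneg _ _ _ _), ← ENNReal.rpow_natCast, ← ENNReal.rpow_mul]
    congr 1; push_cast; ring
  rw [h1]
  refine (rpow_anti (ENNReal.ofReal_le_ofReal (hω y)) hk2).trans (le_of_eq ?_)
  have hP0 : 0 ≤ PP x z w := by unfold PP; positivity
  rw [show PP x z w * |Real.cos (y - ω)| / 4 = (1 / 4) * (PP x z w * |Real.cos (y - ω)|) by ring,
    ENNReal.ofReal_mul (by norm_num), ENNReal.ofReal_mul hP0,
    ENNReal.mul_rpow_of_ne_top ENNReal.ofReal_ne_top (ENNReal.mul_ne_top ENNReal.ofReal_ne_top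
      ENNReal.ofReal_ne_top),
    ENNReal.mul_rpow_of_ne_top ENNReal.ofReal_ne_top ENNReal.ofReal_ne_top]
  congr 1
  rw [ENNReal.rpow_neg, ← ENNReal.inv_rpow]
  congr 1
  rw [one_div, ENNReal.ofReal_inv_of_pos (by norm_num), inv_inv]
  norm_num

/-- the three products of two factors -/
lemma PP_le {s : ℝ} (hs : 0 ≤ s) (x z w : ℝ) : ENNReal.ofReal (PP x z w) ^ (-s) ≤
    2 ^ s * (ks s (x - z) * ks s (x - w) + ks s (z - w + π / 2) * ks s (x - w) +
      ks s (z - w + π / 2) * ks s (x - z)) := by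
  have ez : |Real.cos (z - w)| = |Real.sin (z - w + π / 2)| := by rw [Real.sin_add_pi_div_two]
  have key : 1 / 2 ≤ |Real.cos (z - w)| ∨ 1 / 2 ≤ |Real.sin (x - z)| ∨
      1 / 2 ≤ |Real.sin (x - w)| := by
    by_contra hcon
    push Not at hcon
    obtain ⟨h1, h2, h3⟩ := hcon
    have ez : Real.cos (z - w) = Real.cos (x - w) * Real.cos (x - z) +
        Real.sin (x - w) * Real.sin (x - z) := by
      rw [← Real.cos_sub]; congr 1; ring
    have g1 := Real.cos_sq_add_sin_sq (x - z)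
    have g2 := Real.cos_sq_add_sin_sq (x - w)
    have k1 : Real.sin (x - z) ^ 2 < 1 / 4 := by rw [← sq_abs]; nlinarith [abs_nonneg (Real.sin (x - z))]
    have k2 : Real.sin (x - w) ^ 2 < 1 / 4 := by rw [← sq_abs]; nlinarith [abs_nonneg (Real.sin (x - w))]
    have k3 : 9 / 16 < (Real.cos (x - w) * Real.cos (x - z)) ^ 2 := by rw [mul_pow]; nlinarith
    have k4 : 3 / 4 < |Real.cos (x - w) * Real.cos (x - z)| := by
      rw [← sq_abs] at k3
      nlinarith [abs_nonneg (Real.cos (x - w) * Real.cos (x - z))]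
    have k5 : |Real.sin (x - w) * Real.sin (x - z)| ≤ 1 / 4 := by
      rw [abs_mul]; nlinarith [abs_nonneg (Real.sin (x - z)), abs_nonneg (Real.sin (x - w))]
    have k6 : |Real.cos (x - w) * Real.cos (x - z)| ≤ |Real.cos (z - w)| +
        |Real.sin (x - w) * Real.sin (x - z)| := by
      have : Real.cos (x - w) * Real.cos (x - z) = Real.cos (z - w) -
        Real.sin (x - w) * Real.sin (x - z) := by rw [ez]; ring
      rw [this]; exact abs_sub _ _
    linarith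
  have half : ∀ {a : ℝ}, 1 / 2 ≤ a → ENNReal.ofReal a ^ (-s) ≤ 2 ^ s := by
    intro a ha
    refine (rpow_anti (ENNReal.ofReal_le_ofReal ha) hs).trans (le_of_eq ?_)
    rw [ENNReal.rpow_neg, ← ENNReal.inv_rpow]
    congr 1
    rw [one_div, ENNReal.ofReal_inv_of_pos (by norm_num), inv_inv]
    norm_num
  have e : ENNReal.ofReal (PP x z w) ^ (-s) =
      ks s (z - w + π / 2) * ks s (x - z) * ks s (x - w) := by
    unfold PP ks
    rw [ez, ENNReal.ofReal_mul (by positivity), ENNReal.ofReal_mul (by positivity),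
      ENNReal.mul_rpow_of_ne_top (ENNReal.mul_ne_top ENNReal.ofReal_ne_top
      ENNReal.ofReal_ne_top) ENNReal.ofReal_ne_top,
      ENNReal.mul_rpow_of_ne_top ENNReal.ofReal_ne_top ENNReal.ofReal_ne_top]
  rw [e]
  rcases key with h | h | h
  · have h1 : ks s (z - w + π / 2) ≤ 2 ^ s := by
      unfold ks; rw [← ez]; exact half h
    calc _ = ks s (z - w + π / 2) * (ks s (x - z) * ks s (x - w)) := by ring
      _ ≤ 2 ^ s * (ks s (x - z) * ks s (x - w)) := by gcongr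
      _ ≤ _ := by
        gcongr
        rw [add_assoc]
        exact le_self_add
  · have h1 : ks s (x - z) ≤ 2 ^ s := by unfold ks; exact half h
    calc _ = ks s (x - z) * (ks s (z - w + π / 2) * ks s (x - w)) := by ring
      _ ≤ 2 ^ s * (ks s (z - w + π / 2) * ks s (x - w)) := by gcongr
      _ ≤ _ := by
        gcongr
        refine le_trans ?_ (le_self_add)
        exact le_add_self
  · have h1 : ks s (x - w) ≤ 2 ^ s := by unfold ks; exact half h
    calc _ = ks s (x - w) * (ks s (z - w + π / 2) * ks s (x - z)) := by ring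
      _ ≤ 2 ^ s * (ks s (z - w + π / 2) * ks s (x - z)) := by gcongr
      _ ≤ _ := by
        gcongr
        exact le_add_self

lemma ks_shift' (σ ω : ℝ) : ∫⁻ θ in Ioc 0 π, ks σ (ω - θ) = Kσ σ := by
  have : ∀ θ, ks σ (ω - θ) = ks σ (θ - ω) := by
    intro θ; unfold ks; rw [← neg_sub, Real.sin_neg, abs_neg]
  simp_rw [this]
  exact ks_shift σ ω

lemma ks_shift'' (σ ω : ℝ) : ∫⁻ θ in Ioc 0 π, ks σ (θ - ω + π / 2) = Kσ σ := by
  have : ∀ θ, θ - ω + π / 2 = θ - (ω - π / 2) := by intro θ; ring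
  simp_rw [this]
  exact ks_shift σ _

lemma ks_shift3 (σ ω : ℝ) : ∫⁻ θ in Ioc 0 π, ks σ (ω - θ + π / 2) = Kσ σ := by
  have : ∀ θ, ω - θ + π / 2 = (ω + π / 2) - θ := by intro θ; ring
  simp_rw [this]
  exact ks_shift' σ _

/-- **The energy integral is finite.** -/
lemma energy {κ : ℝ} (hκ : 0 ≤ κ) (h2 : κ < 2) :
    ∫⁻ x in Ioc 0 π, ∫⁻ z in Ioc 0 π, ∫⁻ w in Ioc 0 π, ∫⁻ y in Ioc 0 π,
      ENNReal.ofReal (dd x y z w) ^ (-κ) < ∞ := by
  set s := κ / 2 with hs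
  have hs0 : 0 ≤ s := by rw [hs]; linarith
  have hs1 : s < 1 := by rw [hs]; linarith
  have hK := Kσ_lt hs0 hs1
  have m1 : ∀ c : ℝ, Measurable fun w => ks s (c - w) := fun c => (ks_meas s).comp (by fun_prop)
  have m2 : ∀ c : ℝ, Measurable fun w => ks s (c - w + π / 2) := fun c =>
    (ks_meas s).comp (by fun_prop)
  have hv : volume (Ioc (0:ℝ) π) = ENNReal.ofReal π := by rw [Real.volume_Ioc, sub_zero]
  have hb : ∀ x z w : ℝ, ∫⁻ y in Ioc 0 π, ENNReal.ofReal (dd x y z w) ^ (-κ) ≤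
      (4 ^ s * 2 ^ s * Kσ s) * (ks s (x - z) * ks s (x - w) + ks s (z - w + π / 2) * ks s (x - w) +
      ks s (z - w + π / 2) * ks s (x - z)) := by
    intro x z w
    refine (inner_bound hκ x z w).trans ?_
    rw [← hs]
    calc 4 ^ s * (ENNReal.ofReal (PP x z w) ^ (-s) * Kσ s) ≤ 4 ^ s * ((2 ^ s *
          (ks s (x - z) * ks s (x - w) + ks s (z - w + π / 2) * ks s (x - w) +
          ks s (z - w + π / 2) * ks s (x - z))) * Kσ s) := by
            gcongr; exact PP_le hs0 x z w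
      _ = _ := by ring
  set D : ℝ≥0∞ := 4 ^ s * 2 ^ s * Kσ s with hD
  have hDt : D < ∞ := by
    rw [hD]
    refine ENNReal.mul_lt_top (ENNReal.mul_lt_top ?_ ?_) hK
    · exact ENNReal.rpow_lt_top_of_nonneg hs0 (by norm_num)
    · exact ENNReal.rpow_lt_top_of_nonneg hs0 (by norm_num)
  set μ : Measure ℝ := volume.restrict (Ioc (0:ℝ) π) with hμ
  have mm1 : Measurable fun p : ℝ × ℝ × ℝ => ks s (p.1 - p.2.1) * ks s (p.1 - p.2.2) :=
    ((ks_meas s).comp (by fun_prop)).mul ((ks_meas s).comp (by fun_prop))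
  have mm2 : Measurable fun p : ℝ × ℝ × ℝ => ks s (p.2.1 - p.2.2 + π / 2) *
      ks s (p.1 - p.2.2) :=
    ((ks_meas s).comp (by fun_prop)).mul ((ks_meas s).comp (by fun_prop))
  have mm3 : Measurable fun p : ℝ × ℝ × ℝ => ks s (p.2.1 - p.2.2 + π / 2) *
      ks s (p.1 - p.2.1) :=
    ((ks_meas s).comp (by fun_prop)).mul ((ks_meas s).comp (by fun_prop))
  have t1 : ∀ x, ∫⁻ z, ∫⁻ w, ks s (x - z) * ks s (x - w) ∂μ ∂μ = Kσ s * Kσ s := by
    intro x
    simp_rw [lintegral_const_mul _ (m1 x), hμ, ks_shift']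
    rw [lintegral_mul_const _ (m1 x), ks_shift']
  have t3 : ∀ x, ∫⁻ z, ∫⁻ w, ks s (z - w + π / 2) * ks s (x - z) ∂μ ∂μ =
      Kσ s * Kσ s := by
    intro x
    simp_rw [lintegral_mul_const _ (m2 _), hμ, ks_shift3]
    rw [lintegral_const_mul _ (m1 x), ks_shift']
  have t2 : ∀ x, ∫⁻ z, ∫⁻ w, ks s (z - w + π / 2) * ks s (x - w) ∂μ ∂μ =
      Kσ s * Kσ s := by
    intro x
    rw [lintegral_lintegral_swap (f := fun z w => ks s (z - w + π / 2) * ks s (x - w))
      ((mm2.comp (by fun_prop : Measurable fun p : ℝ × ℝ => (x, p.1, p.2))).aemeasurable)]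
    have : ∀ w, ∫⁻ z, ks s (z - w + π / 2) * ks s (x - w) ∂μ = Kσ s * ks s (x - w) := by
      intro w
      have m4 : Measurable fun z => ks s (z - w + π / 2) := (ks_meas s).comp (by fun_prop)
      rw [lintegral_mul_const _ m4, hμ, ks_shift'']
    simp_rw [this]
    rw [lintegral_const_mul _ (m1 x), hμ, ks_shift']
  have tot : ∀ f : ℝ × ℝ × ℝ → ℝ≥0∞, Measurable f →
      (∀ x, ∫⁻ z, ∫⁻ w, f (x, z, w) ∂μ ∂μ = Kσ s * Kσ s) →
      ∫⁻ p, f p ∂(μ.prod (μ.prod μ)) < ∞ := by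
    intro f hf h
    rw [lintegral_prod _ hf.aemeasurable]
    have : ∀ x, ∫⁻ q, f (x, q) ∂(μ.prod μ) = Kσ s * Kσ s := by
      intro x
      have m5 : Measurable fun q : ℝ × ℝ => f (x, q) := hf.comp (by fun_prop)
      rw [lintegral_prod _ m5.aemeasurable]
      exact h x
    simp_rw [this]
    rw [lintegral_const, hμ, Measure.restrict_apply_univ, hv]
    exact ENNReal.mul_lt_top (ENNReal.mul_lt_top hK hK) ENNReal.ofReal_lt_top
  set F1 : ℝ × ℝ × ℝ → ℝ≥0∞ := fun p => ks s (p.1 - p.2.1) * ks s (p.1 - p.2.2) with hF1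
  set F2 : ℝ × ℝ × ℝ → ℝ≥0∞ := fun p => ks s (p.2.1 - p.2.2 + π / 2) * ks s (p.1 - p.2.2) with hF2
  set F3 : ℝ × ℝ × ℝ → ℝ≥0∞ := fun p => ks s (p.2.1 - p.2.2 + π / 2) * ks s (p.1 - p.2.1) with hF3
  have fin : ∫⁻ p, (F1 p + F2 p + F3 p) ∂(μ.prod (μ.prod μ)) < ∞ := by
    have m12 : Measurable fun p => F1 p + F2 p := mm1.add mm2
    rw [lintegral_add_left m12]
    refine ENNReal.add_lt_top.2 ⟨?_, tot _ mm3 t3⟩
    rw [lintegral_add_left mm1]
    exact ENNReal.add_lt_top.2 ⟨tot _ mm1 t1, tot _ mm2 t2⟩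
  have hm : Measurable fun p => D * (F1 p + F2 p + F3 p) := ((mm1.add mm2).add mm3).const_mul D
  have fin2 : ∫⁻ x, ∫⁻ z, ∫⁻ w, D * (ks s (x - z) * ks s (x - w) +
      ks s (z - w + π / 2) * ks s (x - w) + ks s (z - w + π / 2) * ks s (x - z)) ∂μ ∂μ ∂μ < ∞ := by
    have e := lintegral_prod (μ := μ) (ν := μ.prod μ) _ hm.aemeasurable
    have e2 : ∀ x, ∫⁻ q : ℝ × ℝ, D * (F1 (x, q) + F2 (x, q) + F3 (x, q)) ∂(μ.prod μ) =
        ∫⁻ z, ∫⁻ w, D * (ks s (x - z) * ks s (x - w) +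
      ks s (z - w + π / 2) * ks s (x - w) + ks s (z - w + π / 2) * ks s (x - z)) ∂μ ∂μ := by
      intro x
      have m5 : Measurable fun q : ℝ × ℝ => D * (F1 (x, q) + F2 (x, q) + F3 (x, q)) :=
        hm.comp (by fun_prop : Measurable fun q : ℝ × ℝ => ((x, q) : ℝ × ℝ × ℝ))
      rw [lintegral_prod _ m5.aemeasurable]
    simp_rw [← e2]
    refine lt_of_eq_of_lt e.symm ?_
    have m6 : Measurable fun p => F1 p + F2 p + F3 p := (mm1.add mm2).add mm3
    rw [lintegral_const_mul _ m6]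
    exact ENNReal.mul_lt_top hDt fin
  refine lt_of_le_of_lt ?_ fin2
  exact lintegral_mono fun x => lintegral_mono fun z => lintegral_mono fun w => hb x z w

end Pool.Agent.T9h83.RAY
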