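import Pool.Agent.H153R4.Pl
set_option autoImplicit false

/-! Riesz projections are bounded in `L^4`: a proof with convolutions. -/

namespace Pool.Agent.T9h83.RAY

open Complex MeasureTheory Set FourierTransform Convolution
open scoped ENNReal Real ComplexConjugate

lemma pointwise4 (u v : ℂ) :
    ‖u‖ ^ 4 ≤ 4 * (u ^ 2 * conj (v ^ 2)).re + 58 * ‖u + v‖ ^ 4 := by
  set w := u + v with hw
  have hv : v = w - u := by rw [hw]; ring
  set a := ‖u‖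
  set b := ‖w‖
  have ha : 0 ≤ a := norm_nonneg _
  have hb : 0 ≤ b := norm_nonneg _
  have e1 : u * conj u = ((a ^ 2 : ℝ) : ℂ) := by rw [mul_conj, normSq_eq_norm_sq]
  have e2 : u ^ 2 * conj (v ^ 2) = ((u * conj w) ^ 2 - (2 * a ^ 2 : ℝ) * (u * conj w)) +
      ((a ^ 4 : ℝ) : ℂ) := by
    have : u ^ 2 * conj (v ^ 2) = (u * conj v) ^ 2 := by rw [map_pow]; ring
    rw [this, hv, map_sub, mul_sub, e1]
    push_cast
    ring
  have e3 : |((u * conj w) ^ 2 - (2 * a ^ 2 : ℝ) * (u * conj w)).re| ≤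
      a ^ 2 * b ^ 2 + 2 * a ^ 3 * b := by
    refine (abs_re_le_norm _).trans ((norm_sub_le _ _).trans (le_of_eq ?_))
    rw [norm_pow, norm_mul, norm_mul, norm_mul, RCLike.norm_conj, norm_real, Real.norm_eq_abs,
      abs_of_nonneg (by positivity)]
    ring
  have e4 : (u ^ 2 * conj (v ^ 2)).re =
      ((u * conj w) ^ 2 - (2 * a ^ 2 : ℝ) * (u * conj w)).re + a ^ 4 := by
    rw [e2, add_re, ofReal_re]
  have e5 := (abs_le.1 e3).1
  rw [e4]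
  nlinarith [sq_nonneg (a ^ 2 - 4 / 3 * a * b - 3 * b ^ 2), sq_nonneg (b * (a - 3 / 2 * b)),
    sq_nonneg (b ^ 2), sq_nonneg (a * b)]

section

variable {V : Type*} [NormedAddCommGroup V] [InnerProductSpace ℝ V] [MeasurableSpace V]
  [BorelSpace V] [FiniteDimensional ℝ V]

lemma memLp_two_of_bdd {f : V → ℂ} (hf : Integrable f) {B : ℝ} (hB : ∀ x, ‖f x‖ ≤ B) :
    MemLp f 2 := by
  rw [memLp_two_iff_integrable_sq_norm hf.aestronglyMeasurable]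
  have h1 : Integrable fun x => ‖f x‖ * B := hf.norm.mul_const B
  refine h1.mono' (hf.aestronglyMeasurable.norm.pow 2) ?_
  filter_upwards with x
  rw [Real.norm_eq_abs, abs_of_nonneg (by positivity), sq]
  exact mul_le_mul_of_nonneg_left (hB x) (norm_nonneg _)

/-- the square for convolution -/
noncomputable def cv (f : V → ℂ) : V → ℂ := f ⋆[ContinuousLinearMap.mul ℂ ℂ, volume] f

lemma cv_int {f : V → ℂ} (hf : Integrable f) : Integrable (cv f) :=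
  hf.integrable_convolution _ hf

lemma cv_apply (f : V → ℂ) (x : V) : cv f x = ∫ y, f y * f (x - y) := rfl

lemma cv_bdd {f : V → ℂ} (hf : Integrable f) {B : ℝ} (hB : ∀ x, ‖f x‖ ≤ B) (x : V) :
    ‖cv f x‖ ≤ (∫ y, ‖f y‖) * B := by
  rw [cv_apply, ← integral_mul_const]
  refine norm_integral_le_of_norm_le (hf.norm.mul_const B) ?_
  filter_upwards with y
  rw [norm_mul]
  exact mul_le_mul_of_nonneg_left (hB _) (norm_nonneg _)

lemma cv_four {f : V → ℂ} (hf : Integrable f) (ξ : V) : 𝓕 (cv f) ξ = 𝓕 f ξ ^ 2 := by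
  rw [sq]
  exact Real.fourier_mul_convolution_eq hf hf ξ

lemma cv_supp {A : Set V} (h1 : ∀ x ∈ A, ∀ y ∈ A, x + y ∈ A) (f : V → ℂ) {x : V} (hx : x ∉ A) :
    cv (A.indicator f) x = 0 := by
  rw [cv_apply]
  apply integral_eq_zero_of_ae
  filter_upwards with y
  by_cases hy : y ∈ A
  · have : x - y ∉ A := by
      intro h
      apply hx
      have := h1 y hy _ h
      simpa using this
    simp [this]
  · simp [hy]

lemma four_cont {f : V → ℂ} (hf : Integrable f) : Continuous (𝓕 f) :=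
  VectorFourier.fourierIntegral_continuous (L := innerₗ V) Real.continuous_fourierChar
    continuous_inner hf

lemma four_add {f g : V → ℂ} (hf : Integrable f) (hg : Integrable g) (ξ : V) :
    𝓕 (f + g) ξ = 𝓕 f ξ + 𝓕 g ξ := by
  have := VectorFourier.fourierIntegral_add (L := innerₗ V) Real.continuous_fourierChar
    continuous_inner hf hg
  exact congrFun this ξ

/-- **The Riesz projection in `L^4`.** -/
theorem riesz {A : Set V} (hA : MeasurableSet A) (h1 : ∀ x ∈ A, ∀ y ∈ A, x + y ∈ A)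
    (h2 : ∀ x ∈ Aᶜ, ∀ y ∈ Aᶜ, x + y ∈ Aᶜ) {f : V → ℂ} (hf : Integrable f)
    {B : ℝ} (hB : ∀ x, ‖f x‖ ≤ B) :
    ∫⁻ ξ, ‖𝓕 (A.indicator f) ξ‖ₑ ^ 4 ≤ 58 * ∫⁻ ξ, ‖𝓕 f ξ‖ₑ ^ 4 := by
  have hB0 : 0 ≤ B := (norm_nonneg _).trans (hB 0)
  set fp := A.indicator f with hfp
  set fm := Aᶜ.indicator f with hfm
  have ip : Integrable fp := hf.indicator hA
  have im : Integrable fm := hf.indicator hA.compl
  have bp : ∀ x, ‖fp x‖ ≤ B := fun x => (norm_indicator_le_norm_self _ _).trans (hB x)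
  have bm : ∀ x, ‖fm x‖ ≤ B := fun x => (norm_indicator_le_norm_self _ _).trans (hB x)
  have cpi := cv_int ip
  have cmi := cv_int im
  have cp2 := memLp_two_of_bdd cpi (cv_bdd ip bp)
  have cm2 := memLp_two_of_bdd cmi (cv_bdd im bm)
  have hsum : ∀ ξ, 𝓕 fp ξ + 𝓕 fm ξ = 𝓕 f ξ := by
    intro ξ
    rw [← four_add ip im]
    congr 1
    rw [hfp, hfm, indicator_self_add_compl]
  -- the three Plancherel identities
  have P1 : ∫⁻ ξ, ‖𝓕 fp ξ ^ 2‖ₑ ^ 2 = ∫⁻ x, ‖cv fp x‖ₑ ^ 2 := by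
    rw [← Pool.Agent.H153R4.plancherel _ cpi cp2]
    simp_rw [cv_four ip]
  have P2 : ∫⁻ ξ, ‖𝓕 fm ξ ^ 2‖ₑ ^ 2 = ∫⁻ x, ‖cv fm x‖ₑ ^ 2 := by
    rw [← Pool.Agent.H153R4.plancherel _ cmi cm2]
    simp_rw [cv_four im]
  have P3 : ∫⁻ ξ, ‖𝓕 fp ξ ^ 2 + 𝓕 fm ξ ^ 2‖ₑ ^ 2 = ∫⁻ x, ‖cv fp x + cv fm x‖ₑ ^ 2 := by
    have := Pool.Agent.H153R4.plancherel _ (cpi.add cmi) (cp2.add cm2)
    simp only [Pi.add_apply] at this
    rw [← this]
    apply lintegral_congr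
    intro ξ
    rw [four_add cpi cmi, cv_four ip, cv_four im]
  have P4 : ∫⁻ x, ‖cv fp x + cv fm x‖ₑ ^ 2 =
      (∫⁻ x, ‖cv fp x‖ₑ ^ 2) + ∫⁻ x, ‖cv fm x‖ₑ ^ 2 := by
    rw [← lintegral_add_left' (cpi.aestronglyMeasurable.enorm.pow_const 2)]
    apply lintegral_congr
    intro x
    by_cases hx : x ∈ A
    · have : cv fm x = 0 := cv_supp h2 f (by simpa using hx)
      rw [this]; simp
    · have : cv fp x = 0 := cv_supp h1 f hx
      rw [this]; simp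
  -- finiteness and integrability
  have F1 : MemLp (fun ξ => 𝓕 fp ξ ^ 2) 2 := by
    refine ⟨((four_cont ip).pow 2).aestronglyMeasurable, ?_⟩
    have e := eLpNorm_nnreal_pow_eq_lintegral (f := fun ξ => 𝓕 fp ξ ^ 2)
      (μ := (volume : Measure V)) (p := 2) (by norm_num)
    have e' := eLpNorm_nnreal_pow_eq_lintegral (f := cv fp) (μ := (volume : Measure V)) (p := 2)
      (by norm_num)
    simp only [NNReal.coe_ofNat, ENNReal.rpow_ofNat, ENNReal.coe_ofNat] at e e'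
    rw [P1, ← e'] at e
    have hf := cp2.2
    have : eLpNorm (fun ξ => 𝓕 fp ξ ^ 2) 2 volume ^ 2 < ∞ := by
      rw [e]; exact ENNReal.pow_lt_top hf
    by_contra hcon
    rw [not_lt, top_le_iff] at hcon
    rw [hcon] at this
    simp at this
  have F2 : MemLp (fun ξ => 𝓕 fm ξ ^ 2) 2 := by
    refine ⟨((four_cont im).pow 2).aestronglyMeasurable, ?_⟩
    have e := eLpNorm_nnreal_pow_eq_lintegral (f := fun ξ => 𝓕 fm ξ ^ 2)
      (μ := (volume : Measure V)) (p := 2) (by norm_num)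
    have e' := eLpNorm_nnreal_pow_eq_lintegral (f := cv fm) (μ := (volume : Measure V)) (p := 2)
      (by norm_num)
    simp only [NNReal.coe_ofNat, ENNReal.rpow_ofNat, ENNReal.coe_ofNat] at e e'
    rw [P2, ← e'] at e
    have hf := cm2.2
    have : eLpNorm (fun ξ => 𝓕 fm ξ ^ 2) 2 volume ^ 2 < ∞ := by
      rw [e]; exact ENNReal.pow_lt_top hf
    by_contra hcon
    rw [not_lt, top_le_iff] at hcon
    rw [hcon] at this
    simp at this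
  have F3 := F1.add F2
  have I1 := (memLp_two_iff_integrable_sq_norm F1.1).1 F1
  have I2 := (memLp_two_iff_integrable_sq_norm F2.1).1 F2
  have I3 := (memLp_two_iff_integrable_sq_norm F3.1).1 F3
  simp only [Pi.add_apply] at I3
  have tr : ∀ g : V → ℂ, Integrable (fun ξ => ‖g ξ‖ ^ 2) →
      ∫⁻ ξ, ‖g ξ‖ₑ ^ 2 = ENNReal.ofReal (∫ ξ, ‖g ξ‖ ^ 2) := by
    intro g hg
    rw [ofReal_integral_eq_lintegral_ofReal hg (Filter.Eventually.of_forall fun p => by positivity)]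
    congr 1; funext p
    rw [ENNReal.ofReal_pow (norm_nonneg _), ofReal_norm]
  rw [← P1, ← P2, ← P3, tr _ I1, tr _ I2, tr _ I3, ← ENNReal.ofReal_add
    (integral_nonneg fun _ => by positivity) (integral_nonneg fun _ => by positivity),
    ENNReal.ofReal_eq_ofReal_iff (integral_nonneg fun _ => by positivity)
      (add_nonneg (integral_nonneg fun _ => by positivity)
      (integral_nonneg fun _ => by positivity))] at P4
  have hre : ∀ ξ, (𝓕 fp ξ ^ 2 * conj (𝓕 fm ξ ^ 2)).re =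
      (1 / 2) * (‖𝓕 fp ξ ^ 2 + 𝓕 fm ξ ^ 2‖ ^ 2 - ‖𝓕 fp ξ ^ 2‖ ^ 2 - ‖𝓕 fm ξ ^ 2‖ ^ 2) := by
    intro ξ
    rw [← normSq_eq_norm_sq, ← normSq_eq_norm_sq, ← normSq_eq_norm_sq, normSq_add]
    ring
  have Ire : Integrable (fun ξ => (𝓕 fp ξ ^ 2 * conj (𝓕 fm ξ ^ 2)).re) := by
    simp_rw [hre]
    exact ((I3.sub I1).sub I2).const_mul _
  have Zre : ∫ ξ, (𝓕 fp ξ ^ 2 * conj (𝓕 fm ξ ^ 2)).re = 0 := by
    simp_rw [hre]
    have j1 : ∫ ξ, (‖𝓕 fp ξ ^ 2 + 𝓕 fm ξ ^ 2‖ ^ 2 - ‖𝓕 fp ξ ^ 2‖ ^ 2 - ‖𝓕 fm ξ ^ 2‖ ^ 2) =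
        (∫ ξ, (‖𝓕 fp ξ ^ 2 + 𝓕 fm ξ ^ 2‖ ^ 2 - ‖𝓕 fp ξ ^ 2‖ ^ 2)) - ∫ ξ, ‖𝓕 fm ξ ^ 2‖ ^ 2 :=
      integral_sub (I3.sub I1) I2
    have j2 : ∫ ξ, (‖𝓕 fp ξ ^ 2 + 𝓕 fm ξ ^ 2‖ ^ 2 - ‖𝓕 fp ξ ^ 2‖ ^ 2) =
        (∫ ξ, ‖𝓕 fp ξ ^ 2 + 𝓕 fm ξ ^ 2‖ ^ 2) - ∫ ξ, ‖𝓕 fp ξ ^ 2‖ ^ 2 := integral_sub I3 I1
    rw [integral_const_mul, j1, j2, P4]
    ring
  by_cases hfin : ∫⁻ ξ, ‖𝓕 f ξ‖ₑ ^ 4 = ∞
  · rw [hfin, ENNReal.mul_top (by norm_num)]; exact le_top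
  have I4 : Integrable (fun ξ => ‖𝓕 f ξ‖ ^ 4) := by
    refine ⟨((four_cont hf).norm.pow 4).aestronglyMeasurable, ?_⟩
    rw [hasFiniteIntegral_iff_enorm]
    have : ∀ ξ, ‖‖𝓕 f ξ‖ ^ 4‖ₑ = ‖𝓕 f ξ‖ₑ ^ 4 := by
      intro ξ; rw [enorm_pow, enorm_norm]
    simp_rw [this]
    exact lt_top_iff_ne_top.2 hfin
  have I5 : Integrable (fun ξ => ‖𝓕 fp ξ‖ ^ 4) := by
    refine I1.congr (Filter.Eventually.of_forall fun ξ => ?_)
    simp only
    rw [norm_pow]; ring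
  have tr4 : ∀ g : V → ℂ, Integrable (fun ξ => ‖g ξ‖ ^ 4) →
      ∫⁻ ξ, ‖g ξ‖ₑ ^ 4 = ENNReal.ofReal (∫ ξ, ‖g ξ‖ ^ 4) := by
    intro g hg
    rw [ofReal_integral_eq_lintegral_ofReal hg (Filter.Eventually.of_forall fun p => by positivity)]
    congr 1; funext p
    rw [ENNReal.ofReal_pow (norm_nonneg _), ofReal_norm]
  rw [tr4 _ I5, tr4 _ I4, show (58 : ℝ≥0∞) = ENNReal.ofReal 58 by norm_num,
    ← ENNReal.ofReal_mul (by norm_num)]
  apply ENNReal.ofReal_le_ofReal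
  calc ∫ ξ, ‖𝓕 fp ξ‖ ^ 4 ≤ ∫ ξ, (4 * (𝓕 fp ξ ^ 2 * conj (𝓕 fm ξ ^ 2)).re +
        58 * ‖𝓕 f ξ‖ ^ 4) := by
        refine integral_mono I5 ((Ire.const_mul 4).add (I4.const_mul 58)) (fun ξ => ?_)
        change ‖𝓕 fp ξ‖ ^ 4 ≤ 4 * (𝓕 fp ξ ^ 2 * conj (𝓕 fm ξ ^ 2)).re + 58 * ‖𝓕 f ξ‖ ^ 4
        rw [← hsum ξ]
        exact pointwise4 _ _
    _ = 58 * ∫ ξ, ‖𝓕 f ξ‖ ^ 4 := by
        rw [integral_add (Ire.const_mul 4) (I4.const_mul 58), integral_const_mul,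
          integral_const_mul, Zre]
        ring

end

end Pool.Agent.T9h83.RAY
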