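import Pool.Agent.T9h83.RAY.Link
import Pool.Agent.T9h83.RAY.Riesz
set_option autoImplicit false

/-! Estimates at a fixed time for homogeneous functions with the weight `|ξ| exp(-π|ξ|²)`. -/

namespace Pool.Agent.T9h83.RAY

open Complex MeasureTheory Set FourierTransform
open scoped ENNReal Real ComplexConjugate

/-- measurable, bounded by one, homogeneous of degree zero -/
structure HD (Ω : ℂ → ℂ) : Prop where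
  meas : Measurable Ω
  bdd : ∀ ξ, ‖Ω ξ‖ ≤ 1
  hom : ∀ r : ℝ, 0 < r → ∀ ξ : ℂ, Ω (r * ξ) = Ω ξ

lemma EV_four (F : ℂ → ℂ) (x : ℂ) (t : ℝ) : EV F x t = 𝓕 (fun ξ => F ξ * ph 0 t ξ) (-x) := by
  rw [Real.fourier_eq']
  unfold EV
  congr 1; funext ξ
  have e : ph x t ξ = cexp (↑(-2 * π * inner ℝ ξ (-x)) * I) * ph 0 t ξ := by
    unfold ph
    rw [← Complex.exp_add]
    congr 1
    rw [Complex.inner]
    simp only [mul_re, neg_re, Complex.conj_re, Complex.conj_im, neg_im, zero_re, zero_im]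
    push_cast
    ring
  rw [e, smul_eq_mul]
  ring

lemma mul_ph_int {F : ℂ → ℂ} (hF : Integrable F) (x : ℂ) (t : ℝ) :
    Integrable (fun ξ => F ξ * ph x t ξ) :=
  hF.mul_bdd (c := 1) (ph_cont x t).aestronglyMeasurable
    (Filter.Eventually.of_forall fun ξ => (norm_ph x t ξ).le)

lemma EV_cont {F : ℂ → ℂ} (hF : Integrable F) (t : ℝ) : Continuous fun x => EV F x t := by
  have : (fun x => EV F x t) = fun x => 𝓕 (fun ξ => F ξ * ph 0 t ξ) (-x) := by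
    funext x; exact EV_four F x t
  rw [this]
  exact (four_cont (mul_ph_int hF 0 t)).comp continuous_neg

lemma EV_add {F G : ℂ → ℂ} (hF : Integrable F) (hG : Integrable G) (x : ℂ) (t : ℝ) :
    EV (fun ξ => F ξ + G ξ) x t = EV F x t + EV G x t := by
  unfold EV
  rw [← integral_add (mul_ph_int hF x t) (mul_ph_int hG x t)]
  congr 1; funext ξ; ring

lemma lint_neg (f : ℂ → ℝ≥0∞) : ∫⁻ x, f (-x) = ∫⁻ x, f x := lintegral_neg_eq_self f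

lemma enorm_mul_ph (F : ℂ → ℂ) (x : ℂ) (t : ℝ) (ξ : ℂ) : ‖F ξ * ph x t ξ‖ₑ = ‖F ξ‖ₑ := by
  rw [enorm_mul, ← ofReal_norm (ph x t ξ), norm_ph, ENNReal.ofReal_one, mul_one]

lemma EV_planch {F : ℂ → ℂ} (hF : Integrable F) {B : ℝ} (hB : ∀ ξ, ‖F ξ‖ ≤ B) (t : ℝ) :
    ∫⁻ x, ‖EV F x t‖ₑ ^ 2 = ∫⁻ ξ, ‖F ξ‖ₑ ^ 2 := by
  simp_rw [EV_four]
  rw [lint_neg (fun x => ‖𝓕 (fun ξ => F ξ * ph 0 t ξ) x‖ₑ ^ 2)]
  have h1 := mul_ph_int hF 0 t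
  have h2 : ∀ ξ, ‖F ξ * ph 0 t ξ‖ ≤ B := fun ξ => by
    rw [norm_mul, norm_ph, mul_one]; exact hB ξ
  rw [Pool.Agent.H153R4.plancherel _ h1 (memLp_two_of_bdd h1 h2)]
  simp_rw [enorm_mul_ph]

lemma EV_riesz {A : Set ℂ} (hA : MeasurableSet A) (h1 : ∀ x ∈ A, ∀ y ∈ A, x + y ∈ A)
    (h2 : ∀ x ∈ Aᶜ, ∀ y ∈ Aᶜ, x + y ∈ Aᶜ) {F : ℂ → ℂ} (hF : Integrable F) {B : ℝ}
    (hB : ∀ ξ, ‖F ξ‖ ≤ B) (t : ℝ) :
    ∫⁻ x, ‖EV (A.indicator F) x t‖ₑ ^ 4 ≤ 58 * ∫⁻ x, ‖EV F x t‖ₑ ^ 4 := by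
  simp_rw [EV_four]
  rw [lint_neg (fun x => ‖𝓕 (fun ξ => F ξ * ph 0 t ξ) x‖ₑ ^ 4),
    lint_neg (fun x => ‖𝓕 (fun ξ => A.indicator F ξ * ph 0 t ξ) x‖ₑ ^ 4)]
  have e : (fun ξ => A.indicator F ξ * ph 0 t ξ) = A.indicator (fun ξ => F ξ * ph 0 t ξ) := by
    funext ξ
    by_cases h : ξ ∈ A <;> simp [h]
  rw [e]
  exact riesz hA h1 h2 (mul_ph_int hF 0 t) (B := B) (fun ξ => by
    rw [norm_mul, norm_ph, mul_one]; exact hB ξ)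

lemma EV_sup (F : ℂ → ℂ) (x : ℂ) (t : ℝ) : ‖EV F x t‖ₑ ≤ ∫⁻ ξ, ‖F ξ‖ₑ := by
  unfold EV
  refine (enorm_integral_le_lintegral_enorm _).trans (le_of_eq ?_)
  simp_rw [enorm_mul_ph]

/-- the trivial bound -/
lemma EV_triv {F : ℂ → ℂ} (hF : Integrable F) {B : ℝ} (hB : ∀ ξ, ‖F ξ‖ ≤ B) (t : ℝ) {q : ℝ}
    (hq : 2 ≤ q) : ∫⁻ x, ‖EV F x t‖ₑ ^ q ≤ (∫⁻ ξ, ‖F ξ‖ₑ) ^ (q - 2) * ∫⁻ ξ, ‖F ξ‖ₑ ^ 2 := by
  rw [← EV_planch hF hB t, ← lintegral_const_mul' _ _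
    (ENNReal.rpow_ne_top_of_nonneg (by linarith) hF.2.ne)]
  apply lintegral_mono
  intro x
  simp only
  calc ‖EV F x t‖ₑ ^ q = ‖EV F x t‖ₑ ^ (q - 2) * ‖EV F x t‖ₑ ^ (2:ℝ) := by
        rw [← ENNReal.rpow_add_of_nonneg _ _ (by linarith) (by norm_num)]
        congr 1; ring
    _ ≤ _ := by
        rw [ENNReal.rpow_two]
        gcongr
        exact EV_sup F x t

lemma wt_int : Integrable wt := by
  unfold wt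
  have h1 : Integrable fun ξ : ℂ => Real.exp (-(π / 2) * ‖ξ‖ ^ 2) := by
    have := GaussianFourier.integrable_cexp_neg_mul_sq_norm_add (V := ℂ) (b := ((π / 2 : ℝ) : ℂ))
      (by rw [ofReal_re]; positivity) 0 0
    have h2 := this.norm
    refine h2.congr (Filter.Eventually.of_forall fun ξ => ?_)
    simp only
    rw [norm_exp]
    congr 1
    simp [← ofReal_pow]
  refine Integrable.ofReal ?_
  have hc : Continuous fun ξ : ℂ => ‖ξ‖ * Real.exp (-π * ‖ξ‖ ^ 2) := by fun_prop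
  refine h1.mono' hc.aestronglyMeasurable (Filter.Eventually.of_forall fun ξ => ?_)
  change ‖‖ξ‖ * Real.exp (-π * ‖ξ‖ ^ 2)‖ ≤ _
  rw [Real.norm_eq_abs, abs_of_nonneg (by positivity)]
  have h3 : ‖ξ‖ ≤ Real.exp (π / 2 * ‖ξ‖ ^ 2) := by
    have h4 := Real.add_one_le_exp (π / 2 * ‖ξ‖ ^ 2)
    nlinarith [sq_nonneg (‖ξ‖ - 1), Real.pi_gt_three, sq_nonneg ‖ξ‖]
  calc ‖ξ‖ * Real.exp (-π * ‖ξ‖ ^ 2) ≤ Real.exp (π / 2 * ‖ξ‖ ^ 2) * Real.exp (-π * ‖ξ‖ ^ 2) := by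
        gcongr
    _ = _ := by rw [← Real.exp_add]; congr 1; ring

lemma wt_bdd (ξ : ℂ) : ‖wt ξ‖ ≤ 1 := by
  unfold wt
  rw [norm_real, Real.norm_eq_abs, abs_of_nonneg (by positivity)]
  have h4 := Real.add_one_le_exp (π * ‖ξ‖ ^ 2)
  have h3 : ‖ξ‖ ≤ Real.exp (π * ‖ξ‖ ^ 2) := by
    nlinarith [sq_nonneg (‖ξ‖ - 1), Real.pi_gt_three, sq_nonneg ‖ξ‖]
  calc ‖ξ‖ * Real.exp (-π * ‖ξ‖ ^ 2) ≤ Real.exp (π * ‖ξ‖ ^ 2) * Real.exp (-π * ‖ξ‖ ^ 2) := by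
        gcongr
    _ = 1 := by rw [← Real.exp_add]; simp

lemma mul_wt_int {Ω : ℂ → ℂ} (hm : Measurable Ω) (hb : ∀ ξ, ‖Ω ξ‖ ≤ 1) :
    Integrable fun ξ => Ω ξ * wt ξ := wt_int.bdd_mul hm.aestronglyMeasurable
  (Filter.Eventually.of_forall hb)

lemma mul_wt_bdd {Ω : ℂ → ℂ} (hb : ∀ ξ, ‖Ω ξ‖ ≤ 1) (ξ : ℂ) : ‖Ω ξ * wt ξ‖ ≤ 1 := by
  rw [norm_mul]
  exact mul_le_one₀ (hb ξ) (norm_nonneg _) (wt_bdd ξ)

end Pool.Agent.T9h83.RAY
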