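import Pool.Agent.T9h83.RAY.Fix
set_option autoImplicit false

/-! The estimate in `L^q`, `2 ≤ q ≤ 4`, at a fixed time for homogeneous functions with the weight
`|ξ| exp(-π|ξ|²)`. -/

namespace Pool.Agent.T9h83.RAY

open Complex MeasureTheory Set FourierTransform
open scoped ENNReal Real ComplexConjugate

/-- `1 + |t|` -/
noncomputable def jb (t : ℝ) : ℝ≥0∞ := ENNReal.ofReal (1 + |t|)

lemma jb_ne_zero (t : ℝ) : jb t ≠ 0 := by
  unfold jb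
  exact (ENNReal.ofReal_pos.2 (by positivity)).ne'

lemma jb_ne_top (t : ℝ) : jb t ≠ ∞ := ENNReal.ofReal_ne_top

lemma jb_rpow (t s : ℝ) : jb t ^ s = ENNReal.ofReal ((1 + |t|) ^ s) := by
  unfold jb
  exact ENNReal.ofReal_rpow_of_pos (by positivity)

lemma add_pow4 (a b : ℝ≥0∞) : (a + b) ^ 4 ≤ 8 * (a ^ 4 + b ^ 4) := by
  have := ENNReal.rpow_add_le_mul_rpow_add_rpow a b (p := 4) (by norm_num)
  have e : ((4:ℝ)) = ((4:ℕ) : ℝ) := by norm_num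
  rw [e, ENNReal.rpow_natCast, ENNReal.rpow_natCast, ENNReal.rpow_natCast] at this
  refine this.trans (le_of_eq ?_)
  congr 1
  have e2 : (((4:ℕ) : ℝ) - 1) = ((3:ℕ) : ℝ) := by norm_num
  rw [e2, ENNReal.rpow_natCast]
  norm_num

/-- interpolation between `L²` and `L⁴` -/
lemma interp {X : Type*} [MeasurableSpace X] {μ : Measure X} {u : X → ℝ≥0∞} (hu : Measurable u)
    {q : ℝ} (h2 : 2 ≤ q) (h4 : q ≤ 4) :
    ∫⁻ x, u x ^ q ∂μ ≤ (∫⁻ x, u x ^ 2 ∂μ) ^ ((4 - q) / 2) * (∫⁻ x, u x ^ 4 ∂μ) ^ ((q - 2) / 2) := by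
  have := ENNReal.lintegral_mul_norm_pow_le (μ := μ) (f := fun x => u x ^ 2)
    (g := fun x => u x ^ 4) (hu.pow_const 2).aemeasurable (hu.pow_const 4).aemeasurable
    (p := (4 - q) / 2) (q := (q - 2) / 2) (by linarith) (by linarith) (by ring)
  refine le_trans (le_of_eq ?_) this
  apply lintegral_congr
  intro x
  have e1 : u x ^ 2 = u x ^ ((2:ℕ):ℝ) := by rw [ENNReal.rpow_natCast]
  have e2 : u x ^ 4 = u x ^ ((4:ℕ):ℝ) := by rw [ENNReal.rpow_natCast]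
  rw [e1, e2, ← ENNReal.rpow_mul, ← ENNReal.rpow_mul,
    ← ENNReal.rpow_add_of_nonneg _ _ (by push_cast; linarith) (by push_cast; linarith)]
  congr 1
  push_cast
  ring

/-- the angular function of a homogeneous function -/
noncomputable def angf (Ω : ℂ → ℂ) (θ : ℝ) : ℂ := Ω (cexp (θ * I))

lemma HD.angf_meas {Ω : ℂ → ℂ} (h : HD Ω) : Measurable (angf Ω) := by
  unfold angf
  exact h.meas.comp (by fun_prop)

lemma HD.eq_angf {Ω : ℂ → ℂ} (h : HD Ω) {ξ : ℂ} (hξ : ξ ≠ 0) : Ω ξ = angf Ω (arg ξ) := by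
  unfold angf
  conv_lhs => rw [← norm_mul_exp_arg_mul_I ξ]
  exact h.hom _ (norm_pos_iff.2 hξ) _

lemma HD.neg {Ω : ℂ → ℂ} (h : HD Ω) : HD (fun ξ => Ω (-ξ)) :=
  ⟨h.meas.comp measurable_neg, fun ξ => h.bdd _, fun r hr ξ => by
    rw [← h.hom r hr (-ξ)]; ring_nf⟩

/-- the upper half-plane -/
def UH : Set ℂ := {ξ | 0 < ξ.im}

lemma UH_meas : MeasurableSet UH := measurableSet_lt measurable_const measurable_im

lemma UH_add : ∀ x ∈ UH, ∀ y ∈ UH, x + y ∈ UH := by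
  intro x hx y hy
  simp only [UH, mem_ofPred_eq, add_im] at *
  linarith

lemma UHc_add : ∀ x ∈ UHᶜ, ∀ y ∈ UHᶜ, x + y ∈ UHᶜ := by
  intro x hx y hy
  simp only [UH, mem_compl_iff, mem_ofPred_eq, add_im, not_lt] at *
  linarith

lemma HD.ind_up {Ω : ℂ → ℂ} (h : HD Ω) : UH.indicator (fun ξ => Ω ξ * wt ξ) =
    UH.indicator (fun ξ => Oev (angf Ω) ξ * wt ξ) := by
  funext ξ
  by_cases hξ : ξ ∈ UH
  · have h0 : ξ ≠ 0 := by rintro rfl; simp [UH] at hξ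
    rw [indicator_of_mem hξ, indicator_of_mem hξ, h.eq_angf h0]
    unfold Oev
    rw [if_pos (show 0 < ξ.im from hξ)]
  · rw [indicator_of_notMem hξ, indicator_of_notMem hξ]

lemma HD.ind_low {Ω : ℂ → ℂ} (h : HD Ω) : UHᶜ.indicator (fun ξ => Ω ξ * wt ξ) =
    UHᶜ.indicator (fun ξ => Oev (angf (fun ξ => Ω (-ξ))) ξ * wt ξ) := by
  funext ξ
  by_cases hξ : ξ ∈ UHᶜ
  · rw [indicator_of_mem hξ, indicator_of_mem hξ]
    rcases eq_or_ne ξ 0 with h0 | h0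
    · rw [h0]; unfold wt; simp
    · have e := h.neg.eq_angf (neg_ne_zero.2 h0)
      simp only [neg_neg] at e
      rw [e]
      unfold Oev
      rw [if_neg (show ¬ 0 < ξ.im from hξ)]
  · rw [indicator_of_notMem hξ, indicator_of_notMem hξ]

/-- transfer of the volume -/
lemma lint_pair (f : ℝ × ℝ → ℝ≥0∞) : ∫⁻ x : ℂ, f (x.re, x.im) = ∫⁻ p, f p := by
  have := Complex.volume_preserving_equiv_real_prod.lintegral_comp_emb
    Complex.measurableEquivRealProd.measurableEmbedding f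
  rw [← this]
  rfl

lemma even4 {κ : ℝ} (h1 : 1 ≤ κ) (h2 : κ < 2) {ω : ℝ → ℂ} (hω : Measurable ω)
    (hb : ∀ θ, ‖ω θ‖ ≤ 1) {t : ℝ} (ht : 1 ≤ |t|) :
    ∫⁻ x, ‖EV (fun ξ => Oev ω ξ * wt ξ) x t‖ₑ ^ 4 ≤ ENNReal.ofReal (1400 * |t| ^ (-κ)) * En κ := by
  refine le_trans ?_ (fourth h1 h2 hω hb ht)
  rw [← lint_pair]
  apply lintegral_mono
  intro x
  simp only
  rw [link hω hb]
  gcongr
  rw [enorm_mul]
  have : ‖-(1 / (π : ℂ))‖ₑ ≤ 1 := by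
    rw [← ofReal_norm, ← ENNReal.ofReal_one]
    apply ENNReal.ofReal_le_ofReal
    rw [norm_neg, norm_div, norm_one, norm_real, Real.norm_eq_abs, abs_of_pos Real.pi_pos,
      div_le_one Real.pi_pos]
    linarith [Real.pi_gt_three]
  calc _ ≤ 1 * ‖Fth ω (1 - 2 * I * t) (x.re, x.im)‖ₑ := by gcongr
    _ = _ := one_mul _

lemma hd4 {κ : ℝ} (h1 : 1 ≤ κ) (h2 : κ < 2) {Ω : ℂ → ℂ} (h : HD Ω) {t : ℝ} (ht : 1 ≤ |t|) :
    ∫⁻ x, ‖EV (fun ξ => Ω ξ * wt ξ) x t‖ₑ ^ 4 ≤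
      928 * (ENNReal.ofReal (1400 * |t| ^ (-κ)) * En κ) := by
  set F : ℂ → ℂ := fun ξ => Ω ξ * wt ξ with hF
  have hFi : Integrable F := mul_wt_int h.meas h.bdd
  have hsum : ∀ x, EV F x t = EV (UH.indicator F) x t + EV (UHᶜ.indicator F) x t := by
    intro x
    rw [← EV_add (hFi.indicator UH_meas) (hFi.indicator UH_meas.compl)]
    congr 1
    funext ξ
    have := congrFun (indicator_self_add_compl UH F) ξ
    rw [Pi.add_apply] at this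
    exact this.symm
  set K := ENNReal.ofReal (1400 * |t| ^ (-κ)) * En κ with hK
  have b1 : ∫⁻ x, ‖EV (UH.indicator F) x t‖ₑ ^ 4 ≤ 58 * K := by
    rw [hF, h.ind_up]
    have hb : ∀ θ, ‖angf Ω θ‖ ≤ 1 := fun θ => h.bdd _
    refine (EV_riesz UH_meas UH_add UHc_add (mul_wt_int (Oev_meas h.angf_meas) (Oev_bdd hb))
      (B := 1) (mul_wt_bdd (Oev_bdd hb)) t).trans ?_
    gcongr
    exact even4 h1 h2 h.angf_meas hb ht
  have b2 : ∫⁻ x, ‖EV (UHᶜ.indicator F) x t‖ₑ ^ 4 ≤ 58 * K := by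
    rw [hF, h.ind_low]
    have hb : ∀ θ, ‖angf (fun ξ => Ω (-ξ)) θ‖ ≤ 1 := fun θ => h.bdd _
    refine (EV_riesz UH_meas.compl UHc_add (by rw [compl_compl]; exact UH_add)
      (mul_wt_int (Oev_meas h.neg.angf_meas) (Oev_bdd hb))
      (B := 1) (mul_wt_bdd (Oev_bdd hb)) t).trans ?_
    gcongr
    exact even4 h1 h2 h.neg.angf_meas hb ht
  have m1 : Measurable fun x => ‖EV (UH.indicator F) x t‖ₑ ^ 4 :=
    (EV_cont (hFi.indicator UH_meas) t).enorm.measurable.pow_const 4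
  calc ∫⁻ x, ‖EV F x t‖ₑ ^ 4 ≤ ∫⁻ x, 8 * (‖EV (UH.indicator F) x t‖ₑ ^ 4 +
        ‖EV (UHᶜ.indicator F) x t‖ₑ ^ 4) := by
        apply lintegral_mono
        intro x
        simp only
        rw [hsum x]
        refine le_trans ?_ (add_pow4 _ _)
        gcongr
        exact enorm_add_le _ _
    _ = 8 * ((∫⁻ x, ‖EV (UH.indicator F) x t‖ₑ ^ 4) + ∫⁻ x, ‖EV (UHᶜ.indicator F) x t‖ₑ ^ 4) := by
        rw [lintegral_const_mul' _ _ (by norm_num), lintegral_add_left m1]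
    _ ≤ 8 * (58 * K + 58 * K) := by gcongr
    _ = 928 * K := by ring

/-- **The estimate in `L^q` at a fixed time**, with the weight. -/
theorem fixq {κ : ℝ} (h1 : 1 ≤ κ) (h2 : κ < 2) {q : ℝ} (hq2 : 2 ≤ q) (hq4 : q ≤ 4) :
    ∃ C : ℝ≥0∞, C ≠ ∞ ∧ ∀ Ω : ℂ → ℂ, HD Ω → ∀ t : ℝ,
      ∫⁻ x, ‖EV (fun ξ => Ω ξ * wt ξ) x t‖ₑ ^ q ≤ C * jb t ^ (-(κ * ((q - 2) / 2))) := by
  set L1 : ℝ≥0∞ := ∫⁻ ξ, ‖wt ξ‖ₑ with hL1
  set L2 : ℝ≥0∞ := ∫⁻ ξ, ‖wt ξ‖ₑ ^ 2 with hL2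
  have f1 : L1 ≠ ∞ := wt_int.2.ne
  have f2 : L2 ≠ ∞ := by
    have : L2 ≤ L1 := by
      apply lintegral_mono
      intro ξ
      simp only
      have : ‖wt ξ‖ₑ ≤ 1 := by
        rw [← ofReal_norm, ← ENNReal.ofReal_one]
        exact ENNReal.ofReal_le_ofReal (wt_bdd ξ)
      calc ‖wt ξ‖ₑ ^ 2 = ‖wt ξ‖ₑ * ‖wt ξ‖ₑ := sq _
        _ ≤ 1 * ‖wt ξ‖ₑ := by gcongr
        _ = _ := one_mul _
    exact (this.trans_lt (lt_top_iff_ne_top.2 f1)).ne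
  have hen : ∀ Ω : ℂ → ℂ, HD Ω → ∀ ξ, ‖Ω ξ * wt ξ‖ₑ ≤ ‖wt ξ‖ₑ := by
    intro Ω h ξ
    rw [enorm_mul]
    have : ‖Ω ξ‖ₑ ≤ 1 := by
      rw [← ofReal_norm, ← ENNReal.ofReal_one]
      exact ENNReal.ofReal_le_ofReal (h.bdd ξ)
    calc _ ≤ 1 * ‖wt ξ‖ₑ := by gcongr
      _ = _ := one_mul _
  have p2 : ∀ Ω : ℂ → ℂ, HD Ω → ∀ t, ∫⁻ x, ‖EV (fun ξ => Ω ξ * wt ξ) x t‖ₑ ^ 2 ≤ L2 := by
    intro Ω h t
    rw [EV_planch (mul_wt_int h.meas h.bdd) (B := 1) (mul_wt_bdd h.bdd) t]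
    apply lintegral_mono
    intro ξ
    simp only
    gcongr
    exact hen Ω h ξ
  have p4 : ∀ Ω : ℂ → ℂ, HD Ω → ∀ t, ∫⁻ x, ‖EV (fun ξ => Ω ξ * wt ξ) x t‖ₑ ^ 4 ≤
      L1 ^ 2 * L2 := by
    intro Ω h t
    have := EV_triv (mul_wt_int h.meas h.bdd) (B := 1) (mul_wt_bdd h.bdd) t (q := 4) (by norm_num)
    have e : (∫⁻ x, ‖EV (fun ξ => Ω ξ * wt ξ) x t‖ₑ ^ 4) =
        ∫⁻ x, ‖EV (fun ξ => Ω ξ * wt ξ) x t‖ₑ ^ (4:ℝ) := by
      congr 1; funext x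
      rw [show (4:ℝ) = ((4:ℕ):ℝ) by norm_num, ENNReal.rpow_natCast]
    rw [e]
    refine this.trans ?_
    have e2 : ((4:ℝ) - 2) = ((2:ℕ):ℝ) := by norm_num
    rw [e2, ENNReal.rpow_natCast]
    refine mul_le_mul' (pow_le_pow_left' (lintegral_mono fun ξ => hen Ω h ξ) 2)
      (lintegral_mono fun ξ => ?_)
    exact pow_le_pow_left' (hen Ω h ξ) 2
  set A : ℝ≥0∞ := 928 * (ENNReal.ofReal 1400 * En κ) with hA
  have fA : A ≠ ∞ := ENNReal.mul_ne_top (by norm_num)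
    (ENNReal.mul_ne_top ENNReal.ofReal_ne_top (En_lt (by linarith) h2).ne)
  set A' : ℝ≥0∞ := 4 * (A + L1 ^ 2 * L2) with hA'
  have fA' : A' ≠ ∞ := ENNReal.mul_ne_top (by norm_num) (ENNReal.add_ne_top.2
    ⟨fA, ENNReal.mul_ne_top (ENNReal.pow_ne_top f1) f2⟩)
  have q4 : ∀ Ω : ℂ → ℂ, HD Ω → ∀ t, ∫⁻ x, ‖EV (fun ξ => Ω ξ * wt ξ) x t‖ₑ ^ 4 ≤
      A' * jb t ^ (-κ) := by
    intro Ω h t
    rcases le_or_gt 1 |t| with ht | ht
    · refine (hd4 h1 h2 h ht).trans ?_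
      have ht0 : 0 < |t| := by linarith
      have e1 : 928 * (ENNReal.ofReal (1400 * |t| ^ (-κ)) * En κ) =
          A * ENNReal.ofReal (|t| ^ (-κ)) := by
        rw [ENNReal.ofReal_mul (by norm_num), hA]
        ring
      have e2 : ENNReal.ofReal (|t| ^ (-κ)) ≤ 4 * jb t ^ (-κ) := by
        rw [jb_rpow, show (4 : ℝ≥0∞) = ENNReal.ofReal 4 by norm_num,
          ← ENNReal.ofReal_mul (by norm_num)]
        apply ENNReal.ofReal_le_ofReal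
        rw [Real.rpow_neg ht0.le, Real.rpow_neg (by positivity), ← div_eq_mul_inv, ← one_div,
          div_le_div_iff₀ (by positivity) (by positivity), one_mul]
        calc (1 + |t|) ^ κ ≤ (2 * |t|) ^ κ := by
              apply Real.rpow_le_rpow (by positivity) _ (by linarith)
              linarith
          _ = 2 ^ κ * |t| ^ κ := Real.mul_rpow (by norm_num) ht0.le
          _ ≤ 2 ^ (2:ℝ) * |t| ^ κ := by
              gcongr
              norm_num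
          _ = 4 * |t| ^ κ := by norm_num
      rw [e1]
      calc A * ENNReal.ofReal (|t| ^ (-κ)) ≤ (A + L1 ^ 2 * L2) * (4 * jb t ^ (-κ)) := by
            gcongr
            exact le_self_add
        _ = _ := by rw [hA']; ring
    · refine (p4 Ω h t).trans ?_
      have e2 : 1 ≤ 4 * jb t ^ (-κ) := by
        rw [jb_rpow, show (4 : ℝ≥0∞) = ENNReal.ofReal 4 by norm_num,
          ← ENNReal.ofReal_mul (by norm_num), ← ENNReal.ofReal_one]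
        apply ENNReal.ofReal_le_ofReal
        rw [Real.rpow_neg (by positivity), ← div_eq_mul_inv, le_div_iff₀ (by positivity), one_mul]
        calc (1 + |t|) ^ κ ≤ 2 ^ κ := by
              apply Real.rpow_le_rpow (by positivity) _ (by linarith)
              linarith
          _ ≤ 2 ^ (2:ℝ) := Real.rpow_le_rpow_of_exponent_le (by norm_num) h2.le
          _ = 4 := by norm_num
      calc L1 ^ 2 * L2 ≤ (A + L1 ^ 2 * L2) * 1 := by rw [mul_one]; exact le_add_self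
        _ ≤ (A + L1 ^ 2 * L2) * (4 * jb t ^ (-κ)) := by gcongr
        _ = _ := by rw [hA']; ring
  refine ⟨L2 ^ ((4 - q) / 2) * A' ^ ((q - 2) / 2), ENNReal.mul_ne_top
    (ENNReal.rpow_ne_top_of_nonneg (by linarith) f2)
    (ENNReal.rpow_ne_top_of_nonneg (by linarith) fA'), ?_⟩
  intro Ω h t
  have hm : Measurable fun x => ‖EV (fun ξ => Ω ξ * wt ξ) x t‖ₑ :=
    (EV_cont (mul_wt_int h.meas h.bdd) t).enorm.measurable
  refine (interp hm hq2 hq4).trans ?_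
  calc _ ≤ L2 ^ ((4 - q) / 2) * (A' * jb t ^ (-κ)) ^ ((q - 2) / 2) := by
        exact mul_le_mul' (ENNReal.rpow_le_rpow (p2 Ω h t) (by linarith))
          (ENNReal.rpow_le_rpow (q4 Ω h t) (by linarith))
    _ = _ := by
        rw [ENNReal.mul_rpow_of_nonneg _ _ (by linarith : 0 ≤ (q - 2) / 2), ← ENNReal.rpow_mul,
          mul_assoc, neg_mul]

end Pool.Agent.T9h83.RAY
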