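import Pool.Agent.T9h83.RAY.Cut
set_option autoImplicit false

/-! The estimate at a fixed time for profiles. -/

namespace Pool.Agent.T9h83.RAY

open Complex MeasureTheory Set
open scoped ENNReal Real ComplexConjugate

lemma jb_meas : Measurable jb := by
  unfold jb
  exact ENNReal.measurable_ofReal.comp (measurable_const.add measurable_norm)

/-- the weight in the time integral -/
noncomputable def kt (γ t τ : ℝ) : ℝ≥0∞ := jb τ ^ (-1 : ℝ) * jb (t + τ) ^ (-γ)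

lemma kt_meas (γ t : ℝ) : Measurable (kt γ t) := by
  unfold kt
  exact (jb_meas.pow_const _).mul
    ((jb_meas.comp (measurable_const.add measurable_id)).pow_const _)

lemma kt_point {a b T γ γ' : ℝ} (ha : 1 ≤ a) (hb : 1 ≤ b) (hT1 : 1 ≤ T) (hT : T ≤ a + b)
    (h0 : 0 ≤ γ') (h1 : γ' ≤ γ) (h2 : γ' ≤ 1) :
    T ^ γ' * (a ^ (-1 : ℝ) * b ^ (-γ)) ≤
      2 * (a ^ (-(1 + (γ - γ'))) + b ^ (-(1 + (γ - γ')))) := by
  have ha0 : 0 < a := by linarith
  have hb0 : 0 < b := by linarith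
  have h22 : (2 : ℝ) ^ γ' ≤ 2 := by
    calc (2 : ℝ) ^ γ' ≤ 2 ^ (1:ℝ) := Real.rpow_le_rpow_of_exponent_le (by norm_num) h2
      _ = 2 := Real.rpow_one 2
  rcases le_total a b with hab | hab
  · have e1 : T ^ γ' ≤ 2 * b ^ γ' := by
      calc T ^ γ' ≤ (2 * b) ^ γ' := Real.rpow_le_rpow (by linarith) (by linarith) h0
        _ = 2 ^ γ' * b ^ γ' := Real.mul_rpow (by norm_num) hb0.le
        _ ≤ 2 * b ^ γ' := by gcongr
    have e2 : b ^ (γ' - γ) ≤ a ^ (γ' - γ) :=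
      Real.rpow_le_rpow_of_nonpos ha0 hab (by linarith)
    calc T ^ γ' * (a ^ (-1 : ℝ) * b ^ (-γ)) ≤ 2 * b ^ γ' * (a ^ (-1 : ℝ) * b ^ (-γ)) := by
          gcongr
      _ = 2 * (a ^ (-1 : ℝ) * (b ^ γ' * b ^ (-γ))) := by ring
      _ = 2 * (a ^ (-1 : ℝ) * b ^ (γ' - γ)) := by rw [← Real.rpow_add hb0]; ring_nf
      _ ≤ 2 * (a ^ (-1 : ℝ) * a ^ (γ' - γ)) := by gcongr
      _ = 2 * a ^ (-(1 + (γ - γ'))) := by rw [← Real.rpow_add ha0]; ring_nf
      _ ≤ _ := by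
          have : 0 ≤ b ^ (-(1 + (γ - γ'))) := by positivity
          linarith
  · have e1 : T ^ γ' ≤ 2 * a ^ γ' := by
      calc T ^ γ' ≤ (2 * a) ^ γ' := Real.rpow_le_rpow (by linarith) (by linarith) h0
        _ = 2 ^ γ' * a ^ γ' := Real.mul_rpow (by norm_num) ha0.le
        _ ≤ 2 * a ^ γ' := by gcongr
    have e2 : a ^ (γ' - 1) ≤ b ^ (γ' - 1) :=
      Real.rpow_le_rpow_of_nonpos hb0 hab (by linarith)
    calc T ^ γ' * (a ^ (-1 : ℝ) * b ^ (-γ)) ≤ 2 * a ^ γ' * (a ^ (-1 : ℝ) * b ^ (-γ)) := by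
          gcongr
      _ = 2 * ((a ^ γ' * a ^ (-1 : ℝ)) * b ^ (-γ)) := by ring
      _ = 2 * (a ^ (γ' - 1) * b ^ (-γ)) := by rw [← Real.rpow_add ha0]; ring_nf
      _ ≤ 2 * (b ^ (γ' - 1) * b ^ (-γ)) := by gcongr
      _ = 2 * b ^ (-(1 + (γ - γ'))) := by rw [← Real.rpow_add hb0]; ring_nf
      _ ≤ _ := by
          have : 0 ≤ a ^ (-(1 + (γ - γ'))) := by positivity
          linarith

lemma kt_int {γ γ' : ℝ} (h0 : 0 ≤ γ') (h1 : γ' < γ) (h2 : γ' ≤ 1) :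
    ∃ K : ℝ≥0∞, K ≠ ∞ ∧ ∀ t, ∫⁻ τ, kt γ t τ ≤ K * jb t ^ (-γ') := by
  set δ := γ - γ' with hδ
  have hδ0 : 0 < δ := by linarith
  set J : ℝ≥0∞ := ∫⁻ τ : ℝ, ENNReal.ofReal ((1 + ‖τ‖) ^ (-(1 + δ))) with hJ
  have hJf : J < ∞ := by
    apply finite_integral_one_add_norm
    simp only [Module.finrank_self, Nat.cast_one]
    linarith
  refine ⟨ENNReal.ofReal 2 * (J + J), ENNReal.mul_ne_top ENNReal.ofReal_ne_top
    (ENNReal.add_ne_top.2 ⟨hJf.ne, hJf.ne⟩), ?_⟩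
  intro t
  have e1 : jb t ^ γ' * ∫⁻ τ, kt γ t τ ≤ ENNReal.ofReal 2 * (J + J) := by
    have hne : jb t ^ γ' ≠ ∞ := ENNReal.rpow_ne_top_of_nonneg h0 (jb_ne_top t)
    rw [← lintegral_const_mul' _ _ hne]
    have hpt : ∀ τ, jb t ^ γ' * kt γ t τ ≤ ENNReal.ofReal 2 *
        (ENNReal.ofReal ((1 + ‖τ‖) ^ (-(1 + δ))) +
          ENNReal.ofReal ((1 + ‖t + τ‖) ^ (-(1 + δ)))) := by
      intro τ
      unfold kt
      rw [jb_rpow, jb_rpow, jb_rpow, ← ENNReal.ofReal_mul (by positivity),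
        ← ENNReal.ofReal_mul (by positivity), ← ENNReal.ofReal_add (by positivity) (by positivity),
        ← ENNReal.ofReal_mul (by positivity)]
      apply ENNReal.ofReal_le_ofReal
      simp only [Real.norm_eq_abs]
      apply kt_point (by linarith [abs_nonneg τ]) (by linarith [abs_nonneg (t + τ)])
        (by linarith [abs_nonneg t]) _ h0 h1.le h2
      have h3 : |t| ≤ |t + τ| + |τ| := by
        calc |t| = |(t + τ) - τ| := by ring_nf
          _ ≤ _ := abs_sub _ _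
      linarith
    refine (lintegral_mono hpt).trans ?_
    rw [lintegral_const_mul' _ _ ENNReal.ofReal_ne_top]
    have hm : Measurable fun τ : ℝ => ENNReal.ofReal ((1 + ‖τ‖) ^ (-(1 + δ))) :=
      ENNReal.measurable_ofReal.comp ((measurable_const.add measurable_norm).pow_const _)
    rw [lintegral_add_left hm]
    have h4 : ∫⁻ τ : ℝ, ENNReal.ofReal ((1 + ‖t + τ‖) ^ (-(1 + δ))) = J :=
      lintegral_add_left_eq_self (fun τ : ℝ => ENNReal.ofReal ((1 + ‖τ‖) ^ (-(1 + δ)))) t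
    rw [h4]
  have e2 : ∫⁻ τ, kt γ t τ = (jb t ^ γ' * ∫⁻ τ, kt γ t τ) * jb t ^ (-γ') := by
    rw [mul_right_comm, ← ENNReal.rpow_add _ _ (jb_ne_zero t) (jb_ne_top t), add_neg_cancel,
      ENNReal.rpow_zero, one_mul]
  rw [e2]
  gcongr

/-- the normalised transform of a profile -/
noncomputable def Om (N : ℝ) (G : ℝ × ℂ → ℂ) (τ : ℝ) (ξ : ℂ) : ℂ :=
  (((1 + |τ|) / N : ℝ) : ℂ) * Gh G (τ, ξ)

lemma Om_HD {B A : ℝ} (hA : 0 ≤ A) (hB : 0 ≤ B) {N : ℝ} (hN : 0 < N) (hBA : B + A ≤ N)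
    {G : ℝ × ℂ → ℂ} (h : Prof B A G) (τ : ℝ) : HD (Om N G τ) := by
  refine ⟨?_, ?_, ?_⟩
  · unfold Om
    exact measurable_const.mul ((Gh_meas h).comp (measurable_const.prodMk measurable_id))
  · intro ξ
    unfold Om
    rw [norm_mul, norm_real, Real.norm_eq_abs, abs_of_pos (by positivity), div_mul_eq_mul_div,
      div_le_one hN]
    exact (Gh_bd hA hB h (τ, ξ)).trans hBA
  · intro r hr ξ
    unfold Om
    rw [Gh_hom h.hom hr]

lemma EV_smul (c : ℂ) (F : ℂ → ℂ) (x : ℂ) (t : ℝ) :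
    EV (fun ξ => c * F ξ) x t = c * EV F x t := by
  unfold EV
  rw [← integral_const_mul]
  congr 1; funext ξ; ring

/-- **The estimate at a fixed time for profiles.** -/
theorem fixprof {κ : ℝ} (h1 : 1 ≤ κ) (h2 : κ < 2) {q : ℝ} (hq2 : 2 < q) (hq4 : q ≤ 4) {ρ : ℝ}
    (hρ0 : 0 ≤ ρ) (hρ : ρ < κ * ((q - 2) / 2)) :
    ∃ C : ℝ≥0∞, C ≠ ∞ ∧ ∀ (B A N : ℝ), 0 ≤ B → 0 ≤ A → 0 < N → B + A ≤ N →
      ∀ G : ℝ × ℂ → ℂ, Prof B A G → ∀ t : ℝ,
      ∫⁻ x, ‖EV (fun ξ => G (‖ξ‖ ^ 2, ξ) * gs ξ) x t‖ₑ ^ q ≤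
        C * ENNReal.ofReal N ^ q * jb t ^ (-ρ) := by
  obtain ⟨C, hC, h⟩ := fixg h1 h2 hq2.le hq4
  set σ := κ * ((q - 2) / 2) with hσ
  have hq0 : 0 < q := by linarith
  set γ := σ / q with hγ
  set γ' := ρ / q with hγ'
  have hγ'0 : 0 ≤ γ' := by positivity
  have hγγ : γ' < γ := by rw [hγ, hγ']; gcongr
  have hσ2 : σ < q := by rw [hσ]; nlinarith
  have hγ'1 : γ' ≤ 1 := by
    rw [hγ', div_le_one hq0]; linarith
  obtain ⟨K, hK, hkt⟩ := kt_int hγ'0 hγγ hγ'1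
  refine ⟨C * K ^ q, ENNReal.mul_ne_top hC (ENNReal.rpow_ne_top_of_nonneg hq0.le hK), ?_⟩
  intro B A N hB hA hN hBA G hG t
  -- the functions
  set W : ℂ × ℝ → ℝ≥0∞ := fun p => ‖EV (fun ξ => Gh G (p.2, ξ) * gs ξ) p.1 (t + p.2)‖ₑ with hW
  have hWm : Measurable W := by
    have hGG : Measurable fun r : (ℂ × ℝ) × ℂ => Gh G (r.1.2, r.2) * gs r.2 := by
      exact ((Gh_meas hG).comp ((measurable_snd.comp measurable_fst).prodMk measurable_snd)).mul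
        (gs_cont.measurable.comp measurable_snd)
    exact (EV_meas hGG (x := fun p : ℂ × ℝ => p.1) measurable_fst
      (t := fun p => t + p.2) (measurable_const.add measurable_snd)).enorm
  set g : ℂ × ℝ → ℝ≥0∞ := fun p => jb p.2 ^ (1 : ℝ) * jb (t + p.2) ^ γ * W p with hg
  have hgm : Measurable g := by
    refine Measurable.mul (Measurable.mul ?_ ?_) hWm
    · exact (jb_meas.comp measurable_snd).pow_const _
    · exact (jb_meas.comp (measurable_const.add measurable_snd)).pow_const _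
  have hkg : ∀ x τ, kt γ t τ * g (x, τ) = W (x, τ) := by
    intro x τ
    simp only [hg]
    unfold kt
    have a1 : jb τ ^ (-1 : ℝ) * jb τ ^ (1 : ℝ) = 1 := by
      rw [← ENNReal.rpow_add _ _ (jb_ne_zero _) (jb_ne_top _), neg_add_cancel, ENNReal.rpow_zero]
    have a2 : jb (t + τ) ^ (-γ) * jb (t + τ) ^ γ = 1 := by
      rw [← ENNReal.rpow_add _ _ (jb_ne_zero _) (jb_ne_top _), neg_add_cancel, ENNReal.rpow_zero]
    calc _ = (jb τ ^ (-1 : ℝ) * jb τ ^ (1 : ℝ)) * (jb (t + τ) ^ (-γ) * jb (t + τ) ^ γ) *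
          W (x, τ) := by ring
      _ = _ := by rw [a1, a2, one_mul, one_mul]
  have s1 : ∀ x, ‖EV (fun ξ => G (‖ξ‖ ^ 2, ξ) * gs ξ) x t‖ₑ ≤ ∫⁻ τ, kt γ t τ * g (x, τ) := by
    intro x
    simp_rw [hkg x]
    exact cut hA hG x t
  have s2 : ∀ x, ‖EV (fun ξ => G (‖ξ‖ ^ 2, ξ) * gs ξ) x t‖ₑ ^ q ≤
      (∫⁻ τ, kt γ t τ) ^ (q - 1) * ∫⁻ τ, kt γ t τ * g (x, τ) ^ q := by
    intro x
    refine (ENNReal.rpow_le_rpow (s1 x) hq0.le).trans ?_
    exact wjensen (kt_meas γ t) (hgm.comp measurable_prodMk_left) (by linarith)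
  have hkfin : ∫⁻ τ, kt γ t τ ≠ ∞ := by
    refine ne_top_of_le_ne_top (ENNReal.mul_ne_top hK ?_) (hkt t)
    exact ENNReal.rpow_ne_top_of_ne_zero (jb_ne_zero t) (jb_ne_top t)
  have s3 : ∀ τ, ∫⁻ x, g (x, τ) ^ q ≤ C * ENNReal.ofReal N ^ q := by
    intro τ
    have hO := Om_HD hA hB hN hBA hG τ
    have b1 := h _ hO (t + τ)
    have hjb1 : jb τ ^ (1:ℝ) ≠ ∞ := ENNReal.rpow_ne_top_of_nonneg (by norm_num) (jb_ne_top _)
    have hjb2 : ∀ s : ℝ, jb (t + τ) ^ s ≠ ∞ := fun s =>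
      ENNReal.rpow_ne_top_of_ne_zero (jb_ne_zero _) (jb_ne_top _)
    -- relation between W and Om
    have b2 : ∀ x, jb τ ^ (1:ℝ) * W (x, τ) =
        ENNReal.ofReal N * ‖EV (fun ξ => Om N G τ ξ * gs ξ) x (t + τ)‖ₑ := by
      intro x
      have b3 : EV (fun ξ => Om N G τ ξ * gs ξ) x (t + τ) =
          (((1 + |τ|) / N : ℝ) : ℂ) * EV (fun ξ => Gh G (τ, ξ) * gs ξ) x (t + τ) := by
        rw [← EV_smul]
        congr 1; funext ξ
        unfold Om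
        ring
      rw [b3, enorm_mul, ← mul_assoc]
      congr 1
      rw [← ofReal_norm, norm_real, Real.norm_eq_abs, abs_of_pos (by positivity),
        ← ENNReal.ofReal_mul hN.le, ENNReal.rpow_one]
      unfold jb
      congr 1
      field_simp
    have b4 : ∀ x, g (x, τ) ^ q = jb (t + τ) ^ σ * ENNReal.ofReal N ^ q *
        ‖EV (fun ξ => Om N G τ ξ * gs ξ) x (t + τ)‖ₑ ^ q := by
      intro x
      have b5 : g (x, τ) = jb (t + τ) ^ γ * (ENNReal.ofReal N *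
          ‖EV (fun ξ => Om N G τ ξ * gs ξ) x (t + τ)‖ₑ) := by
        rw [← b2 x]
        simp only [hg]
        ring
      rw [b5, ENNReal.mul_rpow_of_nonneg _ _ hq0.le, ENNReal.mul_rpow_of_nonneg _ _ hq0.le,
        ← ENNReal.rpow_mul, ← mul_assoc]
      congr 3
      rw [hγ]
      field_simp
    simp_rw [b4]
    rw [lintegral_const_mul' _ _ (ENNReal.mul_ne_top (hjb2 σ)
      (ENNReal.rpow_ne_top_of_nonneg hq0.le ENNReal.ofReal_ne_top))]
    calc _ ≤ jb (t + τ) ^ σ * ENNReal.ofReal N ^ q * (C * jb (t + τ) ^ (-σ)) := by gcongr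
      _ = C * ENNReal.ofReal N ^ q * (jb (t + τ) ^ σ * jb (t + τ) ^ (-σ)) := by ring
      _ = _ := by
          rw [← ENNReal.rpow_add _ _ (jb_ne_zero _) (jb_ne_top _), add_neg_cancel,
            ENNReal.rpow_zero, mul_one]
  calc ∫⁻ x, ‖EV (fun ξ => G (‖ξ‖ ^ 2, ξ) * gs ξ) x t‖ₑ ^ q ≤
        ∫⁻ x, (∫⁻ τ, kt γ t τ) ^ (q - 1) * ∫⁻ τ, kt γ t τ * g (x, τ) ^ q := lintegral_mono s2
    _ = (∫⁻ τ, kt γ t τ) ^ (q - 1) * ∫⁻ x, ∫⁻ τ, kt γ t τ * g (x, τ) ^ q := by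
        rw [lintegral_const_mul' _ _ (ENNReal.rpow_ne_top_of_nonneg (by linarith) hkfin)]
    _ = (∫⁻ τ, kt γ t τ) ^ (q - 1) * ∫⁻ τ, ∫⁻ x, kt γ t τ * g (x, τ) ^ q := by
        rw [lintegral_lintegral_swap]
        exact (((kt_meas γ t).comp measurable_snd).mul (hgm.pow_const q)).aemeasurable
    _ ≤ (∫⁻ τ, kt γ t τ) ^ (q - 1) * ∫⁻ τ, kt γ t τ * (C * ENNReal.ofReal N ^ q) := by
        refine mul_le_mul' le_rfl (lintegral_mono fun τ => ?_)
        simp only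
        have hgτ : Measurable fun x => g (x, τ) ^ q :=
          (hgm.comp measurable_prodMk_right).pow_const q
        rw [lintegral_const_mul _ hgτ]
        exact mul_le_mul' le_rfl (s3 τ)
    _ = (∫⁻ τ, kt γ t τ) ^ q * (C * ENNReal.ofReal N ^ q) := by
        rw [lintegral_mul_const _ (kt_meas γ t), ← mul_assoc]
        congr 1
        have e : ∀ y : ℝ≥0∞, y ^ (q - 1) * y = y ^ q := by
          intro y
          calc y ^ (q - 1) * y = y ^ (q - 1) * y ^ (1:ℝ) := by rw [ENNReal.rpow_one]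
            _ = y ^ q := by
                rw [← ENNReal.rpow_add_of_nonneg _ _ (by linarith) (by norm_num)]
                congr 1; ring
        exact e _
    _ ≤ (K * jb t ^ (-γ')) ^ q * (C * ENNReal.ofReal N ^ q) := by
        gcongr
        exact hkt t
    _ = _ := by
        rw [ENNReal.mul_rpow_of_nonneg _ _ hq0.le, ← ENNReal.rpow_mul]
        have : -γ' * q = -ρ := by rw [hγ']; field_simp
        rw [this]
        ring

end Pool.Agent.T9h83.RAY
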