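import Pool.Agent.T9h83.RAY.MomS
import Pool.Agent.T9h83.RAY.Fix2
set_option autoImplicit false

/-! Estimates at a fixed time with the `L⁴` and `L²` norms of the angular function. -/

namespace Pool.Agent.T9h83.RAY

open Complex MeasureTheory Set FourierTransform
open scoped ENNReal Real ComplexConjugate

/-- the measure on the circle -/
noncomputable def cir : Measure ℝ := volume.restrict (Ioo (-π) π)

instance : IsFiniteMeasure cir := by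
  unfold cir
  exact ⟨by rw [Measure.restrict_apply_univ, Real.volume_Ioo]; exact ENNReal.ofReal_lt_top⟩

lemma cir_univ : cir univ = ENNReal.ofReal (2 * π) := by
  unfold cir
  rw [Measure.restrict_apply_univ, Real.volume_Ioo]
  congr 1; ring

/-- separation of variables -/
lemma polar_sep {φ v : ℝ → ℝ≥0∞} (hφ : Measurable φ) (hv : Measurable v) :
    ∫⁻ ξ : ℂ, φ (arg ξ) * v ‖ξ‖ =
      (∫⁻ r in Ioi (0:ℝ), ENNReal.ofReal r * v r) * ∫⁻ θ, φ θ ∂cir := by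
  rw [← Complex.lintegral_comp_polarCoord_symm]
  have hst : polarCoord.target = Ioi (0:ℝ) ×ˢ Ioo (-π) π := rfl
  have h1 : ∀ p ∈ Ioi (0:ℝ) ×ˢ Ioo (-π) π, ENNReal.ofReal p.1 •
      (φ (arg (Complex.polarCoord.symm p)) * v ‖Complex.polarCoord.symm p‖) =
      (ENNReal.ofReal p.1 * v p.1) * φ p.2 := by
    intro p hp
    have hp1 : 0 < p.1 := hp.1
    rw [Complex.norm_polarCoord_symm, abs_of_pos hp1, Complex.polarCoord_symm_apply, smul_eq_mul]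
    have h2 : arg ((p.1 : ℂ) * (Real.cos p.2 + Real.sin p.2 * I)) = p.2 := by
      rw [ofReal_cos, ofReal_sin]
      exact arg_mul_cos_add_sin_mul_I hp1 ⟨hp.2.1, hp.2.2.le⟩
    rw [h2]
    ring
  rw [hst, setLIntegral_congr_fun (measurableSet_Ioi.prod measurableSet_Ioo) h1,
    Measure.volume_eq_prod, ← Measure.prod_restrict]
  exact lintegral_prod_mul ((ENNReal.measurable_ofReal.mul hv).aemeasurable) hφ.aemeasurable

/-- the function with angular part `ω` and weight -/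
noncomputable def FA (ω : ℝ → ℂ) (ξ : ℂ) : ℂ := ω (arg ξ) * wt ξ

lemma FA_meas {ω : ℝ → ℂ} (hω : Measurable ω) : Measurable (FA ω) := by
  unfold FA
  exact (hω.comp measurable_arg).mul wt_cont.measurable

lemma FA_int {ω : ℝ → ℂ} (hω : Measurable ω) {B : ℝ} (hb : ∀ θ, ‖ω θ‖ ≤ B) :
    Integrable (FA ω) := wt_int.bdd_mul (hω.comp measurable_arg).aestronglyMeasurable
  (Filter.Eventually.of_forall fun _ => hb _)

lemma FA_bdd {ω : ℝ → ℂ} {B : ℝ} (hb : ∀ θ, ‖ω θ‖ ≤ B) (ξ : ℂ) : ‖FA ω ξ‖ ≤ B := by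
  unfold FA
  rw [norm_mul]
  have h0 : 0 ≤ B := (norm_nonneg _).trans (hb 0)
  calc _ ≤ B * 1 := mul_le_mul (hb _) (wt_bdd ξ) (norm_nonneg _) h0
    _ = B := mul_one _

/-- the radial weight -/
noncomputable def wr (r : ℝ) : ℝ≥0∞ := ENNReal.ofReal (|r| * Real.exp (-π * r ^ 2))

lemma wr_meas : Measurable wr := by
  unfold wr
  exact ENNReal.measurable_ofReal.comp (by fun_prop)

lemma enorm_wt (ξ : ℂ) : ‖wt ξ‖ₑ = wr ‖ξ‖ := by
  unfold wt wr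
  rw [← ofReal_norm, norm_real, Real.norm_eq_abs, abs_mul, abs_of_pos (Real.exp_pos _)]

/-- the constant for the `L¹` norm -/
noncomputable def c1 : ℝ≥0∞ := ∫⁻ r in Ioi (0:ℝ), ENNReal.ofReal r * wr r
/-- the constant for the `L²` norm -/
noncomputable def c2 : ℝ≥0∞ := ∫⁻ r in Ioi (0:ℝ), ENNReal.ofReal r * wr r ^ 2

lemma wt_L1 : ∫⁻ ξ : ℂ, ‖wt ξ‖ₑ = c1 * cir univ := by
  have := polar_sep (φ := fun _ => 1) measurable_const wr_meas
  simp only [one_mul, lintegral_const] at this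
  rw [← c1] at this
  rw [← this]
  simp_rw [enorm_wt]

lemma cir_ne_zero : cir univ ≠ 0 := by
  rw [cir_univ]
  exact (ENNReal.ofReal_pos.2 (by positivity)).ne'

lemma c1_fin : c1 ≠ ∞ := by
  intro h
  have h1 := wt_L1
  rw [h, ENNReal.top_mul cir_ne_zero] at h1
  exact wt_int.2.ne h1

lemma wr_le_one (r : ℝ) : wr r ≤ 1 := by
  have h := wt_bdd (r : ℂ)
  have e : ‖wt (r : ℂ)‖ₑ = wr |r| := by rw [enorm_wt, norm_real, Real.norm_eq_abs]
  have e2 : wr |r| = wr r := by unfold wr; rw [abs_abs, sq_abs]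
  rw [← e2, ← e, ← ofReal_norm, ← ENNReal.ofReal_one]
  exact ENNReal.ofReal_le_ofReal h

lemma c2_fin : c2 ≠ ∞ := by
  refine ne_top_of_le_ne_top c1_fin ?_
  unfold c1 c2
  apply lintegral_mono
  intro r
  simp only
  gcongr
  calc wr r ^ 2 = wr r * wr r := sq _
    _ ≤ 1 * wr r := by gcongr; exact wr_le_one r
    _ = wr r := one_mul _

lemma FA_L1 {ω : ℝ → ℂ} (hω : Measurable ω) : ∫⁻ ξ, ‖FA ω ξ‖ₑ = c1 * ∫⁻ θ, ‖ω θ‖ₑ ∂cir := by
  rw [c1, ← polar_sep hω.enorm wr_meas]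
  apply lintegral_congr
  intro ξ
  unfold FA
  rw [enorm_mul, enorm_wt]

lemma FA_L2 {ω : ℝ → ℂ} (hω : Measurable ω) :
    ∫⁻ ξ, ‖FA ω ξ‖ₑ ^ 2 = c2 * ∫⁻ θ, ‖ω θ‖ₑ ^ 2 ∂cir := by
  rw [c2, ← polar_sep (hω.enorm.pow_const 2) (wr_meas.pow_const 2)]
  apply lintegral_congr
  intro ξ
  unfold FA
  rw [enorm_mul, enorm_wt, mul_pow]

/-- the reflected angular function -/
noncomputable def refl (ω : ℝ → ℂ) (θ : ℝ) : ℂ := ω (arg (-cexp (θ * I)))

lemma refl_meas {ω : ℝ → ℂ} (hω : Measurable ω) : Measurable (refl ω) := by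
  unfold refl
  have h : Continuous fun θ : ℝ => -cexp (θ * I) := by fun_prop
  exact hω.comp (measurable_arg.comp h.measurable)

lemma ind_up (ω : ℝ → ℂ) : UH.indicator (FA ω) = UH.indicator (fun ξ => Oev ω ξ * wt ξ) := by
  funext ξ
  by_cases hξ : ξ ∈ UH
  · rw [indicator_of_mem hξ, indicator_of_mem hξ]
    unfold Oev FA
    rw [if_pos (show 0 < ξ.im from hξ)]
  · rw [indicator_of_notMem hξ, indicator_of_notMem hξ]

lemma ind_low (ω : ℝ → ℂ) :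
    UHᶜ.indicator (FA ω) = UHᶜ.indicator (fun ξ => Oev (refl ω) ξ * wt ξ) := by
  funext ξ
  by_cases hξ : ξ ∈ UHᶜ
  · rw [indicator_of_mem hξ, indicator_of_mem hξ]
    rcases eq_or_ne ξ 0 with h0 | h0
    · rw [h0]; unfold FA wt; simp
    · unfold Oev FA refl
      rw [if_neg (show ¬ 0 < ξ.im from hξ)]
      have h1 : ξ = (‖ξ‖ : ℂ) * -cexp (arg (-ξ) * I) := by
        have := norm_mul_exp_arg_mul_I (-ξ)
        rw [norm_neg] at this
        rw [mul_neg, this, neg_neg]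
      have h2 : arg ξ = arg (-cexp (arg (-ξ) * I)) := by
        conv_lhs => rw [h1]
        exact arg_real_mul _ (norm_pos_iff.2 h0)
      rw [h2]
  · rw [indicator_of_notMem hξ, indicator_of_notMem hξ]

lemma norm_up {φ : ℝ → ℝ≥0∞} : ∫⁻ θ, φ θ ∂mθ ≤ ∫⁻ θ, φ θ ∂cir := by
  unfold mθ cir
  rw [← restrict_Ioo_eq_restrict_Ioc]
  exact lintegral_mono_set (Ioo_subset_Ioo_left (by linarith [Real.pi_pos]))

lemma arg_refl {θ : ℝ} (hθ : θ ∈ Ioc 0 π) : arg (-cexp (θ * I)) = θ - π := by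
  have h1 : -cexp (θ * I) = (1 : ℝ) * (Complex.cos ((θ - π : ℝ)) + Complex.sin ((θ - π : ℝ)) * I) := by
    rw [← exp_mul_I]
    have : ((θ - π : ℝ) : ℂ) * I = θ * I - π * I := by push_cast; ring
    rw [this, Complex.exp_sub, Complex.exp_pi_mul_I]
    push_cast
    ring
  rw [h1]
  exact arg_mul_cos_add_sin_mul_I one_pos ⟨by linarith [hθ.1], by linarith [hθ.2, Real.pi_pos]⟩

lemma norm_low {ω : ℝ → ℂ} (hω : Measurable ω) :
    ∫⁻ θ, ‖refl ω θ‖ₑ ^ 4 ∂mθ ≤ ∫⁻ θ, ‖ω θ‖ₑ ^ 4 ∂cir := by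
  have h1 : ∫⁻ θ, ‖refl ω θ‖ₑ ^ 4 ∂mθ = ∫⁻ θ in Ioc 0 π, ‖ω (θ - π)‖ₑ ^ 4 := by
    unfold mθ
    apply setLIntegral_congr_fun measurableSet_Ioc
    intro θ hθ
    unfold refl
    simp only
    rw [arg_refl hθ]
  have hm : Measurable fun θ => ‖ω θ‖ₑ ^ 4 := hω.enorm.pow_const 4
  have h2 : ∫⁻ θ in Ioc 0 π, ‖ω (θ - π)‖ₑ ^ 4 = ∫⁻ θ in Ioc (-π) 0, ‖ω θ‖ₑ ^ 4 := by
    rw [← lintegral_indicator measurableSet_Ioc, ← lintegral_indicator measurableSet_Ioc,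
      ← lintegral_sub_right_eq_self ((Ioc (-π) 0).indicator fun θ => ‖ω θ‖ₑ ^ 4) π]
    apply lintegral_congr
    intro θ
    by_cases h : θ ∈ Ioc 0 π
    · rw [indicator_of_mem h, indicator_of_mem (show θ - π ∈ Ioc (-π) 0 from
        ⟨by linarith [h.1], by linarith [h.2]⟩)]
    · rw [indicator_of_notMem h, indicator_of_notMem]
      intro h'
      exact h ⟨by linarith [h'.1], by linarith [h'.2]⟩
  rw [h1, h2]
  unfold cir
  exact lintegral_mono_set (fun x hx => ⟨hx.1, lt_of_le_of_lt hx.2 Real.pi_pos⟩)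

lemma even4S {κ : ℝ} (h1 : 1 ≤ κ) (h2 : κ < 2) {E1 : ℝ≥0∞}
    (hE : ∀ x : ℝ, ∫⁻ q, ee κ (x, q) ∂(mθ.prod (mθ.prod mθ)) ≤ E1) {ω : ℝ → ℂ}
    (hω : Measurable ω) {B : ℝ} (hb : ∀ θ, ‖ω θ‖ ≤ B) {t : ℝ} (ht : 1 ≤ |t|) :
    ∫⁻ x, ‖EV (fun ξ => Oev ω ξ * wt ξ) x t‖ₑ ^ 4 ≤ ENNReal.ofReal (1400 * |t| ^ (-κ)) *
      (4 * (E1 * ∫⁻ θ, ‖ω θ‖ₑ ^ 4 ∂mθ)) := by
  have hlink : ∀ x : ℂ, EV (fun ξ => Oev ω ξ * wt ξ) x t =
      -(1 / π) * Fth ω (1 - 2 * I * t) (x.re, x.im) := by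
    intro x
    set c : ℝ := |B| + 1 with hc
    have hc0 : 0 < c := by positivity
    set Ω' : ℝ → ℂ := fun θ => ((c⁻¹ : ℝ) : ℂ) * ω θ with hΩ'
    have hΩm : Measurable Ω' := measurable_const.mul hω
    have hb' : ∀ θ, ‖Ω' θ‖ ≤ 1 := by
      intro θ
      rw [hΩ']
      simp only
      rw [norm_mul, norm_real, Real.norm_eq_abs, abs_of_pos (inv_pos.2 hc0), inv_mul_le_iff₀ hc0]
      have := hb θ
      have h3 := le_abs_self B
      rw [hc]; linarith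
    have e : ω = fun θ => (c : ℂ) * Ω' θ := by
      funext θ
      rw [hΩ']
      simp only
      have : (c : ℂ) ≠ 0 := by exact_mod_cast hc0.ne'
      push_cast
      field_simp
    have e1 : (fun ξ => Oev ω ξ * wt ξ) = fun ξ => (c : ℂ) * (Oev Ω' ξ * wt ξ) := by
      funext ξ
      have : Oev ω ξ = (c : ℂ) * Oev Ω' ξ := by
        unfold Oev
        split_ifs <;> rw [e]
      rw [this]; ring
    have e2 : EV (fun ξ => (c : ℂ) * (Oev Ω' ξ * wt ξ)) x t =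
        (c : ℂ) * EV (fun ξ => Oev Ω' ξ * wt ξ) x t := by
      unfold EV
      rw [← integral_const_mul]
      congr 1; funext ξ; ring
    have e3 : Fth ω (1 - 2 * I * t) (x.re, x.im) =
        (c : ℂ) * Fth Ω' (1 - 2 * I * t) (x.re, x.im) := by
      rw [← Fth_smul]
      congr 1
    rw [e1, e2, link hΩm hb', e3]
    ring
  refine le_trans ?_ (fourthS h1 h2 hE hω hb ht)
  rw [← lint_pair]
  apply lintegral_mono
  intro x
  simp only
  rw [hlink]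
  gcongr
  rw [enorm_mul]
  have : ‖-(1 / (π : ℂ))‖ₑ ≤ 1 := by
    rw [← ofReal_norm, ← ENNReal.ofReal_one]
    apply ENNReal.ofReal_le_ofReal
    rw [norm_neg, norm_div, norm_one, norm_real, Real.norm_eq_abs, abs_of_pos Real.pi_pos,
      div_le_one Real.pi_pos]
    linarith [Real.pi_gt_three]
  calc _ ≤ 1 * ‖Fth ω (1 - 2 * I * t) (x.re, x.im)‖ₑ := by gcongr
    _ = _ := one_mul _

lemma Oev_bddB {ω : ℝ → ℂ} {B : ℝ} (hb : ∀ θ, ‖ω θ‖ ≤ B) (ξ : ℂ) :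
    ‖Oev ω ξ * wt ξ‖ ≤ B := by
  have h0 : 0 ≤ B := (norm_nonneg _).trans (hb 0)
  rw [norm_mul]
  calc _ ≤ B * 1 := by
        apply mul_le_mul _ (wt_bdd ξ) (norm_nonneg _) h0
        unfold Oev; split_ifs <;> exact hb _
    _ = B := mul_one _

lemma Oev_intB {ω : ℝ → ℂ} (hω : Measurable ω) {B : ℝ} (hb : ∀ θ, ‖ω θ‖ ≤ B) :
    Integrable fun ξ => Oev ω ξ * wt ξ :=
  wt_int.bdd_mul (Oev_meas hω).aestronglyMeasurable
    (Filter.Eventually.of_forall fun ξ => by unfold Oev; split_ifs <;> exact hb _)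

lemma fa4 {κ : ℝ} (h1 : 1 ≤ κ) (h2 : κ < 2) {E1 : ℝ≥0∞}
    (hE : ∀ x : ℝ, ∫⁻ q, ee κ (x, q) ∂(mθ.prod (mθ.prod mθ)) ≤ E1) {ω : ℝ → ℂ}
    (hω : Measurable ω) {B : ℝ} (hb : ∀ θ, ‖ω θ‖ ≤ B) {t : ℝ} (ht : 1 ≤ |t|) :
    ∫⁻ x, ‖EV (FA ω) x t‖ₑ ^ 4 ≤ 928 * (ENNReal.ofReal (1400 * |t| ^ (-κ)) *
      (4 * (E1 * ∫⁻ θ, ‖ω θ‖ₑ ^ 4 ∂cir))) := by
  set F : ℂ → ℂ := FA ω with hF
  have hFi : Integrable F := FA_int hω hb
  have hsum : ∀ x, EV F x t = EV (UH.indicator F) x t + EV (UHᶜ.indicator F) x t := by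
    intro x
    rw [← EV_add (hFi.indicator UH_meas) (hFi.indicator UH_meas.compl)]
    congr 1
    funext ξ
    have := congrFun (indicator_self_add_compl UH F) ξ
    rw [Pi.add_apply] at this
    exact this.symm
  set K := ENNReal.ofReal (1400 * |t| ^ (-κ)) * (4 * (E1 * ∫⁻ θ, ‖ω θ‖ₑ ^ 4 ∂cir)) with hK
  have hbr : ∀ θ, ‖refl ω θ‖ ≤ B := fun θ => hb _
  have b1 : ∫⁻ x, ‖EV (UH.indicator F) x t‖ₑ ^ 4 ≤ 58 * K := by
    rw [hF, ind_up]
    refine (EV_riesz UH_meas UH_add UHc_add (Oev_intB hω hb)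
      (B := B) (Oev_bddB hb) t).trans ?_
    gcongr
    refine (even4S h1 h2 hE hω hb ht).trans ?_
    rw [hK]
    exact mul_le_mul' le_rfl (mul_le_mul' le_rfl (mul_le_mul' le_rfl norm_up))
  have b2 : ∫⁻ x, ‖EV (UHᶜ.indicator F) x t‖ₑ ^ 4 ≤ 58 * K := by
    rw [hF, ind_low]
    refine (EV_riesz UH_meas.compl UHc_add (by rw [compl_compl]; exact UH_add)
      (Oev_intB (refl_meas hω) hbr)
      (B := B) (Oev_bddB hbr) t).trans ?_
    gcongr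
    refine (even4S h1 h2 hE (refl_meas hω) hbr ht).trans ?_
    rw [hK]
    exact mul_le_mul' le_rfl (mul_le_mul' le_rfl (mul_le_mul' le_rfl (norm_low hω)))
  have m1 : Measurable fun x => ‖EV (UH.indicator F) x t‖ₑ ^ 4 :=
    (EV_cont (hFi.indicator UH_meas) t).enorm.measurable.pow_const 4
  calc ∫⁻ x, ‖EV F x t‖ₑ ^ 4 ≤ ∫⁻ x, 8 * (‖EV (UH.indicator F) x t‖ₑ ^ 4 +
        ‖EV (UHᶜ.indicator F) x t‖ₑ ^ 4) := by
        apply lintegral_mono
        intro x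
        simp only
        rw [hsum x]
        refine le_trans ?_ (add_pow4 _ _)
        gcongr
        exact enorm_add_le _ _
    _ = 8 * ((∫⁻ x, ‖EV (UH.indicator F) x t‖ₑ ^ 4) + ∫⁻ x, ‖EV (UHᶜ.indicator F) x t‖ₑ ^ 4) := by
        rw [lintegral_const_mul' _ _ (by norm_num), lintegral_add_left m1]
    _ ≤ 8 * (58 * K + 58 * K) := by gcongr
    _ = 928 * K := by ring

end Pool.Agent.T9h83.RAY
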