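import Pool.Agent.T9h83.RAY.Fix2
set_option autoImplicit false

/-! Scaling, weighted Jensen, and the superposition giving the Gaussian weight `exp(-π|ξ|²)`. -/

namespace Pool.Agent.T9h83.RAY

open Complex MeasureTheory Set
open scoped ENNReal Real ComplexConjugate

lemma lint_smul {f : ℂ → ℝ≥0∞} (hf : Measurable f) {r : ℝ} (hr : 0 < r) :
    ∫⁻ x, f ((r : ℂ) * x) = ENNReal.ofReal (r ^ 2)⁻¹ * ∫⁻ x, f x := by
  have h1 := Measure.map_addHaar_smul (volume : Measure ℂ) hr.ne'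
  rw [Complex.finrank_real_complex, abs_of_pos (by positivity)] at h1
  have h2 : ∫⁻ x, f x ∂(Measure.map (fun x : ℂ => r • x) volume) = ∫⁻ x, f (r • x) :=
    lintegral_map hf (measurable_const_smul r)
  have h3 : Measure.map (fun x : ℂ => r • x) volume = ENNReal.ofReal (r ^ 2)⁻¹ • volume := h1
  rw [h3, lintegral_smul_measure] at h2
  simp_rw [real_smul] at h2
  rw [← h2, smul_eq_mul]

/-- joint measurability of the extension operator -/
lemma EV_meas {Y : Type*} [MeasurableSpace Y] {G : Y × ℂ → ℂ} (hG : Measurable G) {x : Y → ℂ}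
    (hx : Measurable x) {t : Y → ℝ} (ht : Measurable t) :
    Measurable fun y => EV (fun ξ => G (y, ξ)) (x y) (t y) := by
  have hre : Measurable fun p : Y × ℂ => (x p.1).re :=
    measurable_re.comp (hx.comp measurable_fst)
  have him : Measurable fun p : Y × ℂ => (x p.1).im :=
    measurable_im.comp (hx.comp measurable_fst)
  have ht' : Measurable fun p : Y × ℂ => t p.1 := ht.comp measurable_fst
  have h1 : Measurable fun p : Y × ℂ => ((x p.1).re * p.2.re + (x p.1).im * p.2.im +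
      t p.1 * ‖p.2‖ ^ 2 : ℝ) := by
    exact ((hre.mul (measurable_re.comp measurable_snd)).add
      (him.mul (measurable_im.comp measurable_snd))).add
      (ht'.mul (measurable_snd.norm.pow_const 2))
  have h2 : Measurable fun p : Y × ℂ => ph (x p.1) (t p.1) p.2 := by
    unfold ph
    exact (measurable_const.mul (measurable_ofReal.comp h1)).cexp
  exact (hG.mul h2).stronglyMeasurable.integral_prod_right'.measurable

/-- weighted Jensen inequality -/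
lemma wjensen {X : Type*} [MeasurableSpace X] {μ : Measure X} {k g : X → ℝ≥0∞}
    (hk : Measurable k) (hg : Measurable g) {q : ℝ} (hq : 1 ≤ q) :
    (∫⁻ x, k x * g x ∂μ) ^ q ≤ (∫⁻ x, k x ∂μ) ^ (q - 1) * ∫⁻ x, k x * g x ^ q ∂μ := by
  have hq0 : 0 < q := by linarith
  have hd : 0 ≤ 1 - 1 / q := by
    rw [sub_nonneg, div_le_one hq0]; exact hq
  have h := ENNReal.lintegral_mul_norm_pow_le (μ := μ) (f := k) (g := fun x => k x * g x ^ q)
    hk.aemeasurable (hk.mul (hg.pow_const q)).aemeasurable (p := 1 - 1 / q) (q := 1 / q) hd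
    (by positivity) (by ring)
  have e : ∀ x, k x ^ (1 - 1 / q) * (k x * g x ^ q) ^ (1 / q) = k x * g x := by
    intro x
    rw [ENNReal.mul_rpow_of_nonneg _ _ (by positivity : 0 ≤ 1 / q), ← ENNReal.rpow_mul,
      mul_one_div_cancel hq0.ne', ENNReal.rpow_one, ← mul_assoc,
      ← ENNReal.rpow_add_of_nonneg _ _ hd (by positivity), sub_add_cancel, ENNReal.rpow_one]
  simp_rw [e] at h
  calc (∫⁻ x, k x * g x ∂μ) ^ q ≤ ((∫⁻ x, k x ∂μ) ^ (1 - 1 / q) *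
        (∫⁻ x, k x * g x ^ q ∂μ) ^ (1 / q)) ^ q := ENNReal.rpow_le_rpow h hq0.le
    _ = _ := by
        rw [ENNReal.mul_rpow_of_nonneg _ _ hq0.le, ← ENNReal.rpow_mul, ← ENNReal.rpow_mul,
          one_div_mul_cancel hq0.ne', ENNReal.rpow_one]
        congr 2
        field_simp

/-- the dilated weight -/
noncomputable def wtm (m : ℝ) (ξ : ℂ) : ℂ := ((‖ξ‖ * Real.exp (-π * m * ‖ξ‖ ^ 2) : ℝ) : ℂ)

lemma EV_scale {Ω : ℂ → ℂ} (h : HD Ω) {c : ℝ} (hc : 0 < c) (x : ℂ) (t : ℝ) :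
    EV (fun ξ => Ω ξ * wtm (c ^ 2) ξ) x t =
      ((c⁻¹ ^ 3 : ℝ) : ℂ) * EV (fun ξ => Ω ξ * wt ξ) ((c⁻¹ : ℝ) * x) (t / c ^ 2) := by
  unfold EV
  have h1 := Measure.integral_comp_inv_smul_of_nonneg (volume : Measure ℂ)
    (fun ξ => Ω ξ * wtm (c ^ 2) ξ * ph x t ξ) hc.le
  rw [Complex.finrank_real_complex] at h1
  have h2 : ∀ ξ : ℂ, Ω (c⁻¹ • ξ) * wtm (c ^ 2) (c⁻¹ • ξ) * ph x t (c⁻¹ • ξ) =
      (c⁻¹ : ℝ) * (Ω ξ * wt ξ * ph ((c⁻¹ : ℝ) * x) (t / c ^ 2) ξ) := by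
    intro ξ
    have e1 : Ω (c⁻¹ • ξ) = Ω ξ := by rw [real_smul]; exact h.hom _ (by positivity) ξ
    have e2 : wtm (c ^ 2) (c⁻¹ • ξ) = (c⁻¹ : ℝ) * wt ξ := by
      unfold wtm wt
      rw [norm_smul, Real.norm_eq_abs, abs_of_pos (by positivity : 0 < c⁻¹), ← ofReal_mul]
      congr 1
      have : -π * c ^ 2 * (c⁻¹ * ‖ξ‖) ^ 2 = -π * ‖ξ‖ ^ 2 := by field_simp
      rw [this]; ring
    have e3 : ph x t (c⁻¹ • ξ) = ph ((c⁻¹ : ℝ) * x) (t / c ^ 2) ξ := by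
      unfold ph
      congr 3
      rw [smul_re, smul_im, norm_smul, Real.norm_eq_abs, abs_of_pos (by positivity : 0 < c⁻¹),
        re_ofReal_mul, im_ofReal_mul, smul_eq_mul, smul_eq_mul]
      field_simp
    rw [e1, e2, e3]; ring
  simp_rw [h2] at h1
  rw [integral_const_mul] at h1
  rw [real_smul] at h1
  have hc' : (c : ℂ) ≠ 0 := by exact_mod_cast hc.ne'
  have h3 : ∫ ξ : ℂ, Ω ξ * wtm (c ^ 2) ξ * ph x t ξ =
      ((c ^ 2 : ℝ) : ℂ)⁻¹ * ((c⁻¹ : ℝ) *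
        ∫ ξ : ℂ, Ω ξ * wt ξ * ph ((c⁻¹ : ℝ) * x) (t / c ^ 2) ξ) := by
    rw [h1]
    push_cast
    field_simp
  rw [h3]
  push_cast
  field_simp

/-- the estimate for the dilated weights -/
lemma fixm {κ : ℝ} (h0 : 0 ≤ κ) {q : ℝ} (hq2 : 2 ≤ q) {C : ℝ≥0∞}
    (hC : ∀ Ω : ℂ → ℂ, HD Ω → ∀ t : ℝ,
      ∫⁻ x, ‖EV (fun ξ => Ω ξ * wt ξ) x t‖ₑ ^ q ≤ C * jb t ^ (-(κ * ((q - 2) / 2))))
    {Ω : ℂ → ℂ} (h : HD Ω) {m : ℝ} (hm : 1 ≤ m) (t : ℝ) :
    ∫⁻ x, ‖EV (fun ξ => Ω ξ * wtm m ξ) x t‖ₑ ^ q ≤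
      C * ENNReal.ofReal (m ^ (1 - 3 * q / 2 + κ * ((q - 2) / 2))) *
        jb t ^ (-(κ * ((q - 2) / 2))) := by
  set σ := κ * ((q - 2) / 2) with hσ
  have hσ0 : 0 ≤ σ := mul_nonneg h0 (by linarith)
  have hm0 : 0 < m := by linarith
  set c := Real.sqrt m with hc
  have hc0 : 0 < c := Real.sqrt_pos.2 hm0
  have hcm : c ^ 2 = m := Real.sq_sqrt hm0.le
  have hms : Measurable fun x => ‖EV (fun ξ => Ω ξ * wt ξ) x (t / c ^ 2)‖ₑ ^ q :=
    (EV_cont (mul_wt_int h.meas h.bdd) _).enorm.measurable.pow_const q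
  have e1 : ∫⁻ x, ‖EV (fun ξ => Ω ξ * wtm m ξ) x t‖ₑ ^ q =
      ENNReal.ofReal (c⁻¹ ^ 3) ^ q * (ENNReal.ofReal (c⁻¹ ^ 2)⁻¹ *
        ∫⁻ x, ‖EV (fun ξ => Ω ξ * wt ξ) x (t / c ^ 2)‖ₑ ^ q) := by
    rw [← lint_smul hms (inv_pos.2 hc0), ← lintegral_const_mul' _ _
      (ENNReal.rpow_ne_top_of_nonneg (by linarith) ENNReal.ofReal_ne_top)]
    apply lintegral_congr
    intro x
    rw [← hcm, EV_scale h hc0, enorm_mul, ENNReal.mul_rpow_of_nonneg _ _ (by linarith)]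
    congr 2
    rw [← ofReal_norm, norm_real, Real.norm_eq_abs, abs_of_pos (by positivity)]
  rw [e1]
  have e2 : jb (t / c ^ 2) ^ (-σ) ≤ ENNReal.ofReal (m ^ σ) * jb t ^ (-σ) := by
    rw [jb_rpow, jb_rpow, ← ENNReal.ofReal_mul (by positivity), hcm]
    apply ENNReal.ofReal_le_ofReal
    rw [Real.rpow_neg (by positivity), Real.rpow_neg (by positivity), ← div_eq_mul_inv,
      inv_le_comm₀ (by positivity) (by positivity), inv_div,
      div_le_iff₀ (by positivity), ← Real.mul_rpow (by positivity) hm0.le]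
    apply Real.rpow_le_rpow (by positivity) _ hσ0
    rw [abs_div, abs_of_pos hm0]
    field_simp
    linarith
  have hcr : ∀ s : ℝ, c ^ s = m ^ (s / 2) := by
    intro s
    rw [hc, Real.sqrt_eq_rpow, ← Real.rpow_mul hm0.le]
    congr 1; ring
  have e3 : ENNReal.ofReal (c⁻¹ ^ 3) ^ q = ENNReal.ofReal (m ^ (-(3 * q / 2))) := by
    rw [ENNReal.ofReal_rpow_of_pos (by positivity)]
    congr 1
    have : c⁻¹ ^ 3 = c ^ (-3 : ℝ) := by
      rw [Real.rpow_neg hc0.le, inv_pow, ← Real.rpow_natCast]; norm_num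
    rw [this, ← Real.rpow_mul hc0.le, hcr]
    congr 1; ring
  have e4 : ENNReal.ofReal (c⁻¹ ^ 2)⁻¹ = ENNReal.ofReal (m ^ (1:ℝ)) := by
    rw [Real.rpow_one, inv_pow, inv_inv, hcm]
  rw [e3, e4]
  calc _ ≤ ENNReal.ofReal (m ^ (-(3 * q / 2))) * (ENNReal.ofReal (m ^ (1:ℝ)) *
        (C * (ENNReal.ofReal (m ^ σ) * jb t ^ (-σ)))) := by
        gcongr
        refine (hC Ω h _).trans ?_
        gcongr
    _ = C * (ENNReal.ofReal (m ^ (-(3 * q / 2))) * ENNReal.ofReal (m ^ (1:ℝ)) *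
        ENNReal.ofReal (m ^ σ)) * jb t ^ (-σ) := by ring
    _ = _ := by
        rw [← ENNReal.ofReal_mul (by positivity), ← ENNReal.ofReal_mul (by positivity),
          ← Real.rpow_add hm0, ← Real.rpow_add hm0]
        congr 4
        ring

end Pool.Agent.T9h83.RAY
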