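import Pool.Agent.T9h83.RAY.FixS
import Pool.Agent.T9h83.RAY.Sup
set_option autoImplicit false

/-! The `L⁴` and `L²` estimates at all times, with the norms of the angular function. -/

namespace Pool.Agent.T9h83.RAY

open Complex MeasureTheory Set FourierTransform
open scoped ENNReal Real ComplexConjugate

lemma hold_gen {X : Type*} [MeasurableSpace X] {μ : Measure X} {g : X → ℝ≥0∞}
    (hg : Measurable g) {q : ℝ} (hq : 1 ≤ q) :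
    (∫⁻ x, g x ∂μ) ^ q ≤ (μ univ) ^ (q - 1) * ∫⁻ x, g x ^ q ∂μ := by
  have := wjensen (μ := μ) (k := fun _ => 1) measurable_const hg hq
  simpa using this

lemma hold4 {X : Type*} [MeasurableSpace X] {μ : Measure X} {g : X → ℝ≥0∞} (hg : Measurable g) :
    (∫⁻ x, g x ∂μ) ^ 2 * ∫⁻ x, g x ^ 2 ∂μ ≤ (μ univ) ^ 2 * ∫⁻ x, g x ^ 4 ∂μ := by
  set M := μ univ
  set N1 := ∫⁻ x, g x ∂μ
  set N2 := ∫⁻ x, g x ^ 2 ∂μ
  set N4 := ∫⁻ x, g x ^ 4 ∂μ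
  have h1 : N1 ^ 4 ≤ M ^ 3 * N4 := by
    have := hold_gen (μ := μ) hg (q := 4) (by norm_num)
    have e : ((4:ℝ)) = ((4:ℕ) : ℝ) := by norm_num
    have e2 : (((4:ℕ) : ℝ) - 1) = ((3:ℕ) : ℝ) := by norm_num
    rw [e, e2] at this
    simpa only [ENNReal.rpow_natCast] using this
  have h2 : N2 ^ 2 ≤ M * N4 := by
    have := hold_gen (μ := μ) (hg.pow_const 2) (q := 2) (by norm_num)
    have e : ((2:ℝ)) = ((2:ℕ) : ℝ) := by norm_num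
    have e2 : (((2:ℕ) : ℝ) - 1) = 1 := by norm_num
    rw [e, e2, ENNReal.rpow_one] at this
    simp only [ENNReal.rpow_natCast] at this
    refine this.trans (le_of_eq ?_)
    congr 1
    apply lintegral_congr
    intro x
    rw [← pow_mul]
  have h3 : (N1 ^ 2 * N2) ^ 2 ≤ (M ^ 2 * N4) ^ 2 := by
    calc (N1 ^ 2 * N2) ^ 2 = N1 ^ 4 * N2 ^ 2 := by ring
      _ ≤ (M ^ 3 * N4) * (M * N4) := mul_le_mul' h1 h2
      _ = _ := by ring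
  have h4 : ∀ a : ℝ≥0∞, (a ^ 2) ^ (1 / 2 : ℝ) = a := by
    intro a
    rw [← ENNReal.rpow_natCast, ← ENNReal.rpow_mul]
    norm_num
  have h5 := ENNReal.rpow_le_rpow h3 (by norm_num : (0:ℝ) ≤ 1 / 2)
  rwa [h4, h4] at h5

/-- **The estimate in `L⁴`** at all times. -/
theorem fa4all {κ : ℝ} (h1 : 1 ≤ κ) (h2 : κ < 2) :
    ∃ C : ℝ≥0∞, C ≠ ∞ ∧ ∀ ω : ℝ → ℂ, Measurable ω → (∃ B : ℝ, ∀ θ, ‖ω θ‖ ≤ B) → ∀ t : ℝ,
      ∫⁻ x, ‖EV (FA ω) x t‖ₑ ^ 4 ≤ C * jb t ^ (-κ) * ∫⁻ θ, ‖ω θ‖ₑ ^ 4 ∂cir := by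
  obtain ⟨E1, hE1, hE⟩ := energy_unif (by linarith : 0 ≤ κ) h2
  set A : ℝ≥0∞ := 928 * (ENNReal.ofReal 1400 * (4 * E1)) with hA
  have fA : A ≠ ∞ := ENNReal.mul_ne_top (by norm_num)
    (ENNReal.mul_ne_top ENNReal.ofReal_ne_top (ENNReal.mul_ne_top (by norm_num) hE1))
  set A2 : ℝ≥0∞ := c1 ^ 2 * c2 * (cir univ) ^ 2 with hA2
  have fA2 : A2 ≠ ∞ := ENNReal.mul_ne_top (ENNReal.mul_ne_top (ENNReal.pow_ne_top c1_fin) c2_fin)
    (ENNReal.pow_ne_top (measure_ne_top _ _))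
  refine ⟨4 * (A + A2), ENNReal.mul_ne_top (by norm_num) (ENNReal.add_ne_top.2 ⟨fA, fA2⟩), ?_⟩
  rintro ω hω ⟨B, hb⟩ t
  set N := ∫⁻ θ, ‖ω θ‖ₑ ^ 4 ∂cir with hN
  rcases le_or_gt 1 |t| with ht | ht
  · refine (fa4 h1 h2 hE hω hb ht).trans ?_
    have ht0 : 0 < |t| := by linarith
    have e1 : 928 * (ENNReal.ofReal (1400 * |t| ^ (-κ)) * (4 * (E1 * N))) =
        A * ENNReal.ofReal (|t| ^ (-κ)) * N := by
      rw [ENNReal.ofReal_mul (by norm_num), hA]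
      ring
    have e2 : ENNReal.ofReal (|t| ^ (-κ)) ≤ 4 * jb t ^ (-κ) := by
      rw [jb_rpow, show (4 : ℝ≥0∞) = ENNReal.ofReal 4 by norm_num,
        ← ENNReal.ofReal_mul (by norm_num)]
      apply ENNReal.ofReal_le_ofReal
      rw [Real.rpow_neg ht0.le, Real.rpow_neg (by positivity), ← div_eq_mul_inv, ← one_div,
        div_le_div_iff₀ (by positivity) (by positivity), one_mul]
      calc (1 + |t|) ^ κ ≤ (2 * |t|) ^ κ := by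
            apply Real.rpow_le_rpow (by positivity) _ (by linarith)
            linarith
        _ = 2 ^ κ * |t| ^ κ := Real.mul_rpow (by norm_num) ht0.le
        _ ≤ 2 ^ (2:ℝ) * |t| ^ κ := by
            gcongr
            norm_num
        _ = 4 * |t| ^ κ := by norm_num
    rw [e1]
    calc A * ENNReal.ofReal (|t| ^ (-κ)) * N ≤ (A + A2) * (4 * jb t ^ (-κ)) * N :=
          mul_le_mul' (mul_le_mul' le_self_add e2) le_rfl
      _ = _ := by ring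
  · have h3 := EV_triv (FA_int hω hb) (FA_bdd hb) t (q := 4) (by norm_num)
    have e : (∫⁻ x, ‖EV (FA ω) x t‖ₑ ^ 4) = ∫⁻ x, ‖EV (FA ω) x t‖ₑ ^ (4:ℝ) := by
      congr 1; funext x
      rw [show (4:ℝ) = ((4:ℕ):ℝ) by norm_num, ENNReal.rpow_natCast]
    have e2 : ((4:ℝ) - 2) = ((2:ℕ):ℝ) := by norm_num
    rw [e]
    rw [e2, ENNReal.rpow_natCast, FA_L1 hω, FA_L2 hω] at h3
    have e3 : 1 ≤ 4 * jb t ^ (-κ) := by
      rw [jb_rpow, show (4 : ℝ≥0∞) = ENNReal.ofReal 4 by norm_num,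
        ← ENNReal.ofReal_mul (by norm_num), ← ENNReal.ofReal_one]
      apply ENNReal.ofReal_le_ofReal
      rw [Real.rpow_neg (by positivity), ← div_eq_mul_inv, le_div_iff₀ (by positivity), one_mul]
      calc (1 + |t|) ^ κ ≤ 2 ^ κ := by
            apply Real.rpow_le_rpow (by positivity) _ (by linarith)
            linarith
        _ ≤ 2 ^ (2:ℝ) := Real.rpow_le_rpow_of_exponent_le (by norm_num) h2.le
        _ = 4 := by norm_num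
    refine h3.trans ?_
    calc (c1 * ∫⁻ θ, ‖ω θ‖ₑ ∂cir) ^ 2 * (c2 * ∫⁻ θ, ‖ω θ‖ₑ ^ 2 ∂cir) =
          c1 ^ 2 * c2 * ((∫⁻ θ, ‖ω θ‖ₑ ∂cir) ^ 2 * ∫⁻ θ, ‖ω θ‖ₑ ^ 2 ∂cir) := by ring
      _ ≤ c1 ^ 2 * c2 * ((cir univ) ^ 2 * N) := by
          exact mul_le_mul' le_rfl (hold4 hω.enorm)
      _ = A2 * 1 * N := by rw [hA2]; ring
      _ ≤ (A + A2) * (4 * jb t ^ (-κ)) * N :=
          mul_le_mul' (mul_le_mul' le_add_self e3) le_rfl
      _ = _ := by ring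

/-- the estimate in `L²` -/
lemma fa2 {ω : ℝ → ℂ} (hω : Measurable ω) {B : ℝ} (hb : ∀ θ, ‖ω θ‖ ≤ B) (t : ℝ) :
    ∫⁻ x, ‖EV (FA ω) x t‖ₑ ^ 2 = c2 * ∫⁻ θ, ‖ω θ‖ₑ ^ 2 ∂cir := by
  rw [EV_planch (FA_int hω hb) (FA_bdd hb) t, FA_L2 hω]

end Pool.Agent.T9h83.RAY
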