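import Mathlib
set_option autoImplicit false

/-! Real interpolation between `L²` and `L⁴`. -/

namespace Pool.Agent.T9h83.RAY

open MeasureTheory Set
open scoped ENNReal

lemma int_low {q a : ℝ} (h2 : 2 < q) (ha : 0 < a) :
    ∫⁻ t in Ioo 0 a, ENNReal.ofReal (t ^ (q - 3)) = ENNReal.ofReal (a ^ (q - 2) / (q - 2)) := by
  have hi : IntegrableOn (fun t : ℝ => t ^ (q - 3)) (Ioo 0 a) :=
    (intervalIntegral.integrableOn_Ioo_rpow_iff ha).2 (by linarith)
  rw [← ofReal_integral_eq_lintegral_ofReal hi]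
  · congr 1
    rw [← integral_Ioc_eq_integral_Ioo, ← intervalIntegral.integral_of_le ha.le,
      integral_rpow (Or.inl (by linarith))]
    rw [show q - 3 + 1 = q - 2 by ring, Real.zero_rpow (by linarith), sub_zero]
  · filter_upwards [ae_restrict_mem measurableSet_Ioo] with t ht
    have : 0 < t := ht.1
    simp only [Pi.zero_apply]
    positivity

lemma int_high {q a : ℝ} (h4 : q < 4) (ha : 0 < a) :
    ∫⁻ t in Ioi a, ENNReal.ofReal (t ^ (q - 5)) = ENNReal.ofReal (a ^ (q - 4) / (4 - q)) := by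
  have hi : IntegrableOn (fun t : ℝ => t ^ (q - 5)) (Ioi a) :=
    integrableOn_Ioi_rpow_of_lt (by linarith) ha
  rw [← ofReal_integral_eq_lintegral_ofReal hi]
  · congr 1
    rw [integral_Ioi_rpow_of_lt (by linarith) ha, show q - 5 + 1 = q - 4 by ring]
    rw [show 4 - q = -(q - 4) by ring, div_neg, neg_div]
  · filter_upwards [ae_restrict_mem measurableSet_Ioi] with t ht
    have : 0 < t := ha.trans ht
    simp only [Pi.zero_apply]
    positivity

/-- Chebyshev's inequality with a power -/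
lemma cheb {X : Type*} [MeasurableSpace X] {μ : Measure X} {v : X → ℝ≥0∞} (hv : Measurable v)
    {ε : ℝ} (hε : 0 < ε) (n : ℕ) :
    μ {x | ENNReal.ofReal ε < v x} ≤ ENNReal.ofReal (ε ^ n)⁻¹ * ∫⁻ x, v x ^ n ∂μ := by
  have h1 := mul_meas_ge_le_lintegral (μ := μ) (hv.pow_const n) (ENNReal.ofReal ε ^ n)
  have h2 : μ {x | ENNReal.ofReal ε < v x} ≤ μ {x | ENNReal.ofReal ε ^ n ≤ v x ^ n} := by
    apply measure_mono
    intro x hx
    have : ENNReal.ofReal ε < v x := hx
    exact pow_le_pow_left' this.le n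
  have h3 : ENNReal.ofReal (ε ^ n)⁻¹ * ENNReal.ofReal ε ^ n = 1 := by
    rw [← ENNReal.ofReal_pow hε.le, ← ENNReal.ofReal_mul (by positivity),
      inv_mul_cancel₀ (by positivity), ENNReal.ofReal_one]
  calc μ {x | ENNReal.ofReal ε < v x} ≤ μ {x | ENNReal.ofReal ε ^ n ≤ v x ^ n} := h2
    _ = ENNReal.ofReal (ε ^ n)⁻¹ * (ENNReal.ofReal ε ^ n * μ {x | ENNReal.ofReal ε ^ n ≤ v x ^ n}) := by
        rw [← mul_assoc, h3, one_mul]
    _ ≤ _ := by gcongr

/-- **Interpolation.** -/
theorem marc {Θ X : Type*} [MeasurableSpace Θ] [MeasurableSpace X] {m : Measure Θ} {μ : Measure X}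
    [SFinite m] {q : ℝ} (h2 : 2 < q) (h4 : q < 4) {w : Θ → ℝ} (hw : Measurable w)
    (hw0 : ∀ θ, 0 ≤ w θ) {v : X → ℝ} (hv : Measurable v) (hv0 : ∀ x, 0 ≤ v x)
    {A2 A4 : ℝ≥0∞} {c : ℝ} (hc : 0 < c)
    (H : ∀ s : ℝ, 0 < s → ∃ v1 v2 : X → ℝ≥0∞, Measurable v1 ∧ Measurable v2 ∧
      (∀ x, ENNReal.ofReal (v x) ≤ v1 x + v2 x) ∧
      (∫⁻ x, v1 x ^ 2 ∂μ ≤ A2 * ∫⁻ θ, {θ | s < w θ}.indicator (fun θ => ENNReal.ofReal (w θ) ^ 2) θ ∂m) ∧
      (∫⁻ x, v2 x ^ 4 ∂μ ≤ A4 * ∫⁻ θ, {θ | w θ ≤ s}.indicator (fun θ => ENNReal.ofReal (w θ) ^ 4) θ ∂m)) :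
    ∫⁻ x, ENNReal.ofReal (v x ^ q) ∂μ ≤ ENNReal.ofReal q *
      (A2 * ENNReal.ofReal (4 * c ^ (2 - q) / (q - 2)) +
        A4 * ENNReal.ofReal (16 * c ^ (4 - q) / (4 - q))) * ∫⁻ θ, ENNReal.ofReal (w θ ^ q) ∂m := by
  have hq0 : 0 < q := by linarith
  rw [lintegral_rpow_eq_lintegral_meas_lt_mul μ (Filter.Eventually.of_forall hv0)
    hv.aemeasurable hq0, mul_assoc]
  refine mul_le_mul' le_rfl ?_
  -- the two kernels
  set k1 : ℝ × Θ → ℝ≥0∞ := fun p => {p : ℝ × Θ | c * p.1 < w p.2}.indicator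
    (fun p => ENNReal.ofReal (4 * p.1 ^ (q - 3)) * ENNReal.ofReal (w p.2) ^ 2) p with hk1
  set k2 : ℝ × Θ → ℝ≥0∞ := fun p => {p : ℝ × Θ | w p.2 ≤ c * p.1}.indicator
    (fun p => ENNReal.ofReal (16 * p.1 ^ (q - 5)) * ENNReal.ofReal (w p.2) ^ 4) p with hk2
  have hw2 : Measurable fun p : ℝ × Θ => w p.2 := hw.comp measurable_snd
  have hk1m : Measurable k1 := by
    refine Measurable.indicator ?_ (measurableSet_lt (measurable_fst.const_mul c) hw2)
    exact (ENNReal.measurable_ofReal.comp ((measurable_fst.pow_const _).const_mul 4)).mul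
      ((ENNReal.measurable_ofReal.comp hw2).pow_const 2)
  have hk2m : Measurable k2 := by
    refine Measurable.indicator ?_ (measurableSet_le hw2 (measurable_fst.const_mul c))
    exact (ENNReal.measurable_ofReal.comp ((measurable_fst.pow_const _).const_mul 16)).mul
      ((ENNReal.measurable_ofReal.comp hw2).pow_const 4)
  have step : ∀ t ∈ Ioi (0:ℝ), μ {x | t < v x} * ENNReal.ofReal (t ^ (q - 1)) ≤
      A2 * ∫⁻ θ, k1 (t, θ) ∂m + A4 * ∫⁻ θ, k2 (t, θ) ∂m := by
    intro t ht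
    have ht0 : 0 < t := ht
    obtain ⟨v1, v2, m1, m2, hsum, hv1, hv2⟩ := H (c * t) (by positivity)
    have hsub : {x | t < v x} ⊆ {x | ENNReal.ofReal (t / 2) < v1 x} ∪
        {x | ENNReal.ofReal (t / 2) < v2 x} := by
      intro x hx
      by_contra hcon
      simp only [mem_union, mem_ofPred_eq, not_or, not_lt] at hcon
      have h5 : ENNReal.ofReal (v x) ≤ ENNReal.ofReal t := by
        calc ENNReal.ofReal (v x) ≤ v1 x + v2 x := hsum x
          _ ≤ ENNReal.ofReal (t / 2) + ENNReal.ofReal (t / 2) := add_le_add hcon.1 hcon.2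
          _ = ENNReal.ofReal t := by
              rw [← ENNReal.ofReal_add (by positivity) (by positivity)]
              congr 1; ring
      rw [ENNReal.ofReal_le_ofReal_iff ht0.le] at h5
      exact absurd hx (not_lt.2 h5)
    have c1 := cheb (μ := μ) m1 (half_pos ht0) 2
    have c2 := cheb (μ := μ) m2 (half_pos ht0) 4
    have g1 : ENNReal.ofReal ((t / 2) ^ 2)⁻¹ * ENNReal.ofReal (t ^ (q - 1)) =
        ENNReal.ofReal (4 * t ^ (q - 3)) := by
      rw [← ENNReal.ofReal_mul (by positivity)]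
      congr 1
      have : t ^ (q - 1) = t ^ (q - 3) * t ^ 2 := by
        rw [← Real.rpow_natCast t 2, ← Real.rpow_add ht0]; congr 1; push_cast; ring
      rw [this]
      field_simp
      ring
    have g2 : ENNReal.ofReal ((t / 2) ^ 4)⁻¹ * ENNReal.ofReal (t ^ (q - 1)) =
        ENNReal.ofReal (16 * t ^ (q - 5)) := by
      rw [← ENNReal.ofReal_mul (by positivity)]
      congr 1
      have : t ^ (q - 1) = t ^ (q - 5) * t ^ 4 := by
        rw [← Real.rpow_natCast t 4, ← Real.rpow_add ht0]; congr 1; push_cast; ring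
      rw [this]
      field_simp
      ring
    have i1 : ENNReal.ofReal (4 * t ^ (q - 3)) *
        ∫⁻ θ, {θ | c * t < w θ}.indicator (fun θ => ENNReal.ofReal (w θ) ^ 2) θ ∂m =
        ∫⁻ θ, k1 (t, θ) ∂m := by
      rw [← lintegral_const_mul' _ _ ENNReal.ofReal_ne_top]
      apply lintegral_congr
      intro θ
      simp only [hk1]
      by_cases h : c * t < w θ
      · rw [indicator_of_mem (show θ ∈ {θ | c * t < w θ} from h),
          indicator_of_mem (show (t, θ) ∈ {p : ℝ × Θ | c * p.1 < w p.2} from h)]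
      · rw [indicator_of_notMem (show θ ∉ {θ | c * t < w θ} from h),
          indicator_of_notMem (show (t, θ) ∉ {p : ℝ × Θ | c * p.1 < w p.2} from h), mul_zero]
    have i2 : ENNReal.ofReal (16 * t ^ (q - 5)) *
        ∫⁻ θ, {θ | w θ ≤ c * t}.indicator (fun θ => ENNReal.ofReal (w θ) ^ 4) θ ∂m =
        ∫⁻ θ, k2 (t, θ) ∂m := by
      rw [← lintegral_const_mul' _ _ ENNReal.ofReal_ne_top]
      apply lintegral_congr
      intro θ
      simp only [hk2]
      by_cases h : w θ ≤ c * t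
      · rw [indicator_of_mem (show θ ∈ {θ | w θ ≤ c * t} from h),
          indicator_of_mem (show (t, θ) ∈ {p : ℝ × Θ | w p.2 ≤ c * p.1} from h)]
      · rw [indicator_of_notMem (show θ ∉ {θ | w θ ≤ c * t} from h),
          indicator_of_notMem (show (t, θ) ∉ {p : ℝ × Θ | w p.2 ≤ c * p.1} from h), mul_zero]
    calc μ {x | t < v x} * ENNReal.ofReal (t ^ (q - 1)) ≤
          (ENNReal.ofReal ((t / 2) ^ 2)⁻¹ * (A2 *
            ∫⁻ θ, {θ | c * t < w θ}.indicator (fun θ => ENNReal.ofReal (w θ) ^ 2) θ ∂m) +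
          ENNReal.ofReal ((t / 2) ^ 4)⁻¹ * (A4 *
            ∫⁻ θ, {θ | w θ ≤ c * t}.indicator (fun θ => ENNReal.ofReal (w θ) ^ 4) θ ∂m)) *
            ENNReal.ofReal (t ^ (q - 1)) := by
          refine mul_le_mul' ((measure_mono hsub).trans ((measure_union_le _ _).trans
            (add_le_add (c1.trans ?_) (c2.trans ?_)))) le_rfl
          · exact mul_le_mul' le_rfl hv1
          · exact mul_le_mul' le_rfl hv2
      _ = A2 * ((ENNReal.ofReal ((t / 2) ^ 2)⁻¹ * ENNReal.ofReal (t ^ (q - 1))) *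
            ∫⁻ θ, {θ | c * t < w θ}.indicator (fun θ => ENNReal.ofReal (w θ) ^ 2) θ ∂m) +
          A4 * ((ENNReal.ofReal ((t / 2) ^ 4)⁻¹ * ENNReal.ofReal (t ^ (q - 1))) *
            ∫⁻ θ, {θ | w θ ≤ c * t}.indicator (fun θ => ENNReal.ofReal (w θ) ^ 4) θ ∂m) := by
          ring
      _ = _ := by rw [g1, g2, i1, i2]
  have J1 : ∀ θ, ∫⁻ t in Ioi (0:ℝ), k1 (t, θ) ≤
      ENNReal.ofReal (4 * c ^ (2 - q) / (q - 2)) * ENNReal.ofReal (w θ ^ q) := by
    intro θ
    rcases (hw0 θ).eq_or_lt with h0 | h0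
    · have : ∀ t, k1 (t, θ) = 0 := by
        intro t
        simp only [hk1]
        apply indicator_apply_eq_zero.2
        intro _
        rw [← h0]; simp
      simp_rw [this]
      simp
    · have e1 : ∫⁻ t in Ioi (0:ℝ), k1 (t, θ) = ∫⁻ t in Ioo 0 (w θ / c),
          (ENNReal.ofReal 4 * ENNReal.ofReal (w θ) ^ 2) * ENNReal.ofReal (t ^ (q - 3)) := by
        rw [← lintegral_indicator measurableSet_Ioi, ← lintegral_indicator measurableSet_Ioo]
        apply lintegral_congr
        intro t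
        simp only [hk1]
        by_cases ht : 0 < t
        · by_cases h : c * t < w θ
          · have h' : t < w θ / c := by rw [lt_div_iff₀ hc]; linarith
            rw [indicator_of_mem (show t ∈ Ioi (0:ℝ) from ht),
              indicator_of_mem (show t ∈ Ioo 0 (w θ / c) from ⟨ht, h'⟩),
              indicator_of_mem (show (t, θ) ∈ {p : ℝ × Θ | c * p.1 < w p.2} from h)]
            simp only
            rw [ENNReal.ofReal_mul (by norm_num)]
            ring
          · have h' : ¬ t < w θ / c := by rw [lt_div_iff₀ hc]; intro h''; apply h; linarith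
            rw [indicator_of_mem (show t ∈ Ioi (0:ℝ) from ht),
              indicator_of_notMem (show t ∉ Ioo 0 (w θ / c) from fun hh => h' hh.2),
              indicator_of_notMem (show (t, θ) ∉ {p : ℝ × Θ | c * p.1 < w p.2} from h)]
        · rw [indicator_of_notMem (show t ∉ Ioi (0:ℝ) from ht),
            indicator_of_notMem (show t ∉ Ioo 0 (w θ / c) from fun hh => ht hh.1)]
      rw [e1, lintegral_const_mul' _ _ (ENNReal.mul_ne_top ENNReal.ofReal_ne_top
        (ENNReal.pow_ne_top ENNReal.ofReal_ne_top)), int_low h2 (by positivity),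
        ← ENNReal.ofReal_pow h0.le, ← ENNReal.ofReal_mul (by norm_num),
        ← ENNReal.ofReal_mul (by positivity), ← ENNReal.ofReal_mul (by positivity)]
      apply le_of_eq
      congr 1
      rw [Real.div_rpow h0.le hc.le]
      have a1 : w θ ^ q = w θ ^ 2 * w θ ^ (q - 2) := by
        rw [← Real.rpow_natCast (w θ) 2, ← Real.rpow_add h0]; congr 1; push_cast; ring
      have a2 : c ^ (2 - q) = (c ^ (q - 2))⁻¹ := by
        rw [← Real.rpow_neg hc.le]; congr 1; ring
      rw [a1, a2]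
      have : 0 < c ^ (q - 2) := by positivity
      have : 0 < q - 2 := by linarith
      field_simp
  have J2 : ∀ θ, ∫⁻ t in Ioi (0:ℝ), k2 (t, θ) ≤
      ENNReal.ofReal (16 * c ^ (4 - q) / (4 - q)) * ENNReal.ofReal (w θ ^ q) := by
    intro θ
    rcases (hw0 θ).eq_or_lt with h0 | h0
    · have : ∀ t, k2 (t, θ) = 0 := by
        intro t
        simp only [hk2]
        apply indicator_apply_eq_zero.2
        intro _
        rw [← h0]; simp
      simp_rw [this]
      simp
    · have e1 : ∫⁻ t in Ioi (0:ℝ), k2 (t, θ) ≤ ∫⁻ t in Ici (w θ / c),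
          (ENNReal.ofReal 16 * ENNReal.ofReal (w θ) ^ 4) * ENNReal.ofReal (t ^ (q - 5)) := by
        rw [← lintegral_indicator measurableSet_Ioi, ← lintegral_indicator measurableSet_Ici]
        apply lintegral_mono
        intro t
        simp only [hk2]
        by_cases ht : 0 < t
        · by_cases h : w θ ≤ c * t
          · have h' : w θ / c ≤ t := by rw [div_le_iff₀ hc]; linarith
            rw [indicator_of_mem (show t ∈ Ioi (0:ℝ) from ht),
              indicator_of_mem (show t ∈ Ici (w θ / c) from h'),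
              indicator_of_mem (show (t, θ) ∈ {p : ℝ × Θ | w p.2 ≤ c * p.1} from h)]
            simp only
            rw [ENNReal.ofReal_mul (by norm_num)]
            apply le_of_eq
            ring
          · rw [indicator_of_mem (show t ∈ Ioi (0:ℝ) from ht),
              indicator_of_notMem (show (t, θ) ∉ {p : ℝ × Θ | w p.2 ≤ c * p.1} from h)]
            exact zero_le
        · rw [indicator_of_notMem (show t ∉ Ioi (0:ℝ) from ht)]
          exact zero_le
      refine e1.trans ?_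
      rw [lintegral_const_mul' _ _ (ENNReal.mul_ne_top ENNReal.ofReal_ne_top
        (ENNReal.pow_ne_top ENNReal.ofReal_ne_top)), ← restrict_Ioi_eq_restrict_Ici,
        int_high h4 (by positivity),
        ← ENNReal.ofReal_pow h0.le, ← ENNReal.ofReal_mul (by norm_num),
        ← ENNReal.ofReal_mul (by positivity), ← ENNReal.ofReal_mul (by
          have : 0 < 4 - q := by linarith
          positivity)]
      apply le_of_eq
      congr 1
      rw [Real.div_rpow h0.le hc.le]
      have a1 : w θ ^ q = w θ ^ 4 * w θ ^ (q - 4) := by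
        rw [← Real.rpow_natCast (w θ) 4, ← Real.rpow_add h0]; congr 1; push_cast; ring
      have a2 : c ^ (4 - q) = (c ^ (q - 4))⁻¹ := by
        rw [← Real.rpow_neg hc.le]; congr 1; ring
      rw [a1, a2]
      have : 0 < c ^ (q - 4) := by positivity
      have : 0 < 4 - q := by linarith
      field_simp
  have hwq : Measurable fun θ => ENNReal.ofReal (w θ ^ q) :=
    ENNReal.measurable_ofReal.comp (hw.pow_const q)
  have mk1 : Measurable fun t => ∫⁻ θ, k1 (t, θ) ∂m := hk1m.lintegral_prod_right'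
  have mk2 : Measurable fun t => ∫⁻ θ, k2 (t, θ) ∂m := hk2m.lintegral_prod_right'
  calc ∫⁻ t in Ioi (0:ℝ), μ {x | t < v x} * ENNReal.ofReal (t ^ (q - 1)) ≤
        ∫⁻ t in Ioi (0:ℝ), (A2 * ∫⁻ θ, k1 (t, θ) ∂m + A4 * ∫⁻ θ, k2 (t, θ) ∂m) :=
        setLIntegral_mono' measurableSet_Ioi step
    _ = A2 * (∫⁻ t in Ioi (0:ℝ), ∫⁻ θ, k1 (t, θ) ∂m) +
        A4 * ∫⁻ t in Ioi (0:ℝ), ∫⁻ θ, k2 (t, θ) ∂m := by
        rw [lintegral_add_left (mk1.const_mul A2), lintegral_const_mul _ mk1,
          lintegral_const_mul _ mk2]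
    _ = A2 * (∫⁻ θ, (∫⁻ t in Ioi (0:ℝ), k1 (t, θ)) ∂m) +
        A4 * ∫⁻ θ, (∫⁻ t in Ioi (0:ℝ), k2 (t, θ)) ∂m := by
        rw [lintegral_lintegral_swap (f := fun t θ => k1 (t, θ)) hk1m.aemeasurable,
          lintegral_lintegral_swap (f := fun t θ => k2 (t, θ)) hk2m.aemeasurable]
    _ ≤ A2 * (∫⁻ θ, ENNReal.ofReal (4 * c ^ (2 - q) / (q - 2)) * ENNReal.ofReal (w θ ^ q) ∂m) +
        A4 * ∫⁻ θ, ENNReal.ofReal (16 * c ^ (4 - q) / (4 - q)) * ENNReal.ofReal (w θ ^ q) ∂m := by
        gcongr with θ θ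
        · exact J1 θ
        · exact J2 θ
    _ = _ := by
        rw [lintegral_const_mul _ hwq, lintegral_const_mul _ hwq]
        ring

end Pool.Agent.T9h83.RAY
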