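import Pool.Agent.T9h83.RAY.Sup
set_option autoImplicit false

/-! The superposition giving the Gaussian weight `exp(-π|ξ|²)`. -/

namespace Pool.Agent.T9h83.RAY

open Complex MeasureTheory Set
open scoped ENNReal Real ComplexConjugate

/-- the weight function for the superposition -/
noncomputable def kl (l : ℝ) : ℝ≥0∞ := ENNReal.ofReal (l ^ (-(1 / 2) : ℝ) * (1 + l) ^ (-(3 / 4) : ℝ))

lemma kl_meas : Measurable kl := by
  unfold kl
  exact ENNReal.measurable_ofReal.comp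
    ((measurable_id.pow_const _).mul ((measurable_const.add measurable_id).pow_const _))

lemma kl_fin : ∫⁻ l in Ioi (0:ℝ), kl l ≠ ∞ := by
  have hsub : Ioi (0:ℝ) = Ioc 0 1 ∪ Ioi 1 := (Ioc_union_Ioi_eq_Ioi (by norm_num)).symm
  rw [hsub]
  refine (lt_of_le_of_lt (lintegral_union_le _ _ _) (ENNReal.add_lt_top.2 ⟨?_, ?_⟩)).ne
  · have h1 : IntegrableOn (fun x : ℝ => x ^ (-(1 / 2) : ℝ)) (Ioc 0 1) := by
      rw [integrableOn_Ioc_iff_integrableOn_Ioo]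
      exact (intervalIntegral.integrableOn_Ioo_rpow_iff (by norm_num)).2 (by norm_num)
    refine lt_of_le_of_lt ?_ h1.2
    apply setLIntegral_mono' measurableSet_Ioc
    intro x hx
    have hx0 : 0 < x := hx.1
    rw [← ofReal_norm, Real.norm_eq_abs, abs_of_pos (by positivity)]
    unfold kl
    apply ENNReal.ofReal_le_ofReal
    have : (1 + x) ^ (-(3 / 4) : ℝ) ≤ 1 :=
      Real.rpow_le_one_of_one_le_of_nonpos (by linarith) (by norm_num)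
    calc _ ≤ x ^ (-(1 / 2) : ℝ) * 1 := by gcongr
      _ = _ := mul_one _
  · have h1 : IntegrableOn (fun x : ℝ => x ^ (-(5 / 4) : ℝ)) (Ioi 1) :=
      integrableOn_Ioi_rpow_of_lt (by norm_num) (by norm_num)
    refine lt_of_le_of_lt ?_ h1.2
    apply setLIntegral_mono' measurableSet_Ioi
    intro x hx
    have hx1 : 1 < x := hx
    have hx0 : 0 < x := by linarith
    rw [← ofReal_norm, Real.norm_eq_abs, abs_of_pos (by positivity)]
    unfold kl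
    apply ENNReal.ofReal_le_ofReal
    have : (1 + x) ^ (-(3 / 4) : ℝ) ≤ x ^ (-(3 / 4) : ℝ) :=
      Real.rpow_le_rpow_of_nonpos hx0 (by linarith) (by norm_num)
    calc _ ≤ x ^ (-(1 / 2) : ℝ) * x ^ (-(3 / 4) : ℝ) := by gcongr
      _ = x ^ (-(5 / 4) : ℝ) := by rw [← Real.rpow_add hx0]; norm_num

/-- the Gaussian weight -/
noncomputable def gs (ξ : ℂ) : ℂ := ((Real.exp (-π * ‖ξ‖ ^ 2) : ℝ) : ℂ)

lemma gs_cont : Continuous gs := by unfold gs; fun_prop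

lemma int_half {r : ℝ} (hr : 0 < r) :
    ∫ l in Ioi (0:ℝ), l ^ (-(1 / 2) : ℝ) * Real.exp (-(r * l)) = Real.sqrt (π / r) := by
  have := Real.integral_rpow_mul_exp_neg_mul_Ioi (a := 1 / 2) (by norm_num) hr
  rw [show ((1 / 2 : ℝ) - 1) = -(1 / 2) by norm_num] at this
  rw [this, Real.Gamma_one_half_eq, ← Real.sqrt_eq_rpow, ← Real.sqrt_mul (by positivity)]
  congr 1
  field_simp

lemma intOn_half {r : ℝ} (hr : 0 < r) :
    IntegrableOn (fun l : ℝ => l ^ (-(1 / 2) : ℝ) * Real.exp (-(r * l))) (Ioi 0) := by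
  by_contra h
  have h1 := int_half hr
  rw [integral_undef h] at h1
  have : 0 < Real.sqrt (π / r) := Real.sqrt_pos.2 (by positivity)
  linarith

lemma sup_id {ξ : ℂ} (hξ : ξ ≠ 0) :
    IntegrableOn (fun l : ℝ => l ^ (-(1 / 2) : ℝ) * (‖ξ‖ * Real.exp (-π * (1 + l) * ‖ξ‖ ^ 2)))
      (Ioi 0) ∧
    ∫ l in Ioi (0:ℝ), l ^ (-(1 / 2) : ℝ) * (‖ξ‖ * Real.exp (-π * (1 + l) * ‖ξ‖ ^ 2)) =
      Real.exp (-π * ‖ξ‖ ^ 2) := by
  have hn : 0 < ‖ξ‖ := norm_pos_iff.2 hξ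
  have hr : 0 < π * ‖ξ‖ ^ 2 := by positivity
  have e : ∀ l : ℝ, l ^ (-(1 / 2) : ℝ) * (‖ξ‖ * Real.exp (-π * (1 + l) * ‖ξ‖ ^ 2)) =
      (‖ξ‖ * Real.exp (-π * ‖ξ‖ ^ 2)) *
        (l ^ (-(1 / 2) : ℝ) * Real.exp (-(π * ‖ξ‖ ^ 2 * l))) := by
    intro l
    have : -π * (1 + l) * ‖ξ‖ ^ 2 = -π * ‖ξ‖ ^ 2 + -(π * ‖ξ‖ ^ 2 * l) := by ring
    rw [this, Real.exp_add]; ring
  simp_rw [e]
  refine ⟨(intOn_half hr).const_mul _, ?_⟩
  rw [integral_const_mul, int_half hr]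
  have h2 : Real.sqrt (π / (π * ‖ξ‖ ^ 2)) = ‖ξ‖⁻¹ := by
    rw [show π / (π * ‖ξ‖ ^ 2) = (‖ξ‖⁻¹) ^ 2 by field_simp, Real.sqrt_sq (by positivity)]
  rw [h2]
  field_simp

lemma gs_int : Integrable gs := by
  have h1 : Integrable fun ξ : ℂ => Real.exp (-π * ‖ξ‖ ^ 2) := by
    have := GaussianFourier.integrable_cexp_neg_mul_sq_norm_add (V := ℂ) (b := ((π : ℝ) : ℂ))
      (by rw [ofReal_re]; positivity) 0 0
    have h2 := this.norm
    refine h2.congr (Filter.Eventually.of_forall fun ξ => ?_)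
    simp only
    rw [norm_exp]
    congr 1
    simp [← ofReal_pow]
  exact h1.ofReal

lemma norm_gs (ξ : ℂ) : ‖gs ξ‖ = Real.exp (-π * ‖ξ‖ ^ 2) := by
  unfold gs
  rw [norm_real, Real.norm_eq_abs, abs_of_pos (Real.exp_pos _)]

lemma gs_bdd (ξ : ℂ) : ‖gs ξ‖ ≤ 1 := by
  rw [norm_gs, Real.exp_le_one_iff]
  have : 0 ≤ π * ‖ξ‖ ^ 2 := by positivity
  linarith

lemma mul_gs_int {Ω : ℂ → ℂ} (hm : Measurable Ω) {B : ℝ} (hb : ∀ ξ, ‖Ω ξ‖ ≤ B) :
    Integrable fun ξ => Ω ξ * gs ξ := gs_int.bdd_mul hm.aestronglyMeasurable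
  (Filter.Eventually.of_forall hb)

/-- the integrand of the superposition -/
noncomputable def SI (Ω : ℂ → ℂ) (x : ℂ) (t : ℝ) (p : ℂ × ℝ) : ℂ :=
  ((p.2 ^ (-(1 / 2) : ℝ) : ℝ) : ℂ) * (Ω p.1 * wtm (1 + p.2) p.1 * ph x t p.1)

lemma wtm_meas : Measurable fun p : ℝ × ℂ => wtm (1 + p.1) p.2 := by
  unfold wtm
  fun_prop

lemma wtm_meas' : Measurable fun p : ℂ × ℝ => wtm (1 + p.2) p.1 := by
  unfold wtm
  fun_prop

lemma SI_meas {Ω : ℂ → ℂ} (hm : Measurable Ω) (x : ℂ) (t : ℝ) : Measurable (SI Ω x t) := by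
  unfold SI
  exact (measurable_ofReal.comp (measurable_snd.pow_const _)).mul
    (((hm.comp measurable_fst).mul wtm_meas').mul ((ph_cont x t).measurable.comp measurable_fst))

lemma norm_wtm (m : ℝ) (ξ : ℂ) : ‖wtm m ξ‖ = ‖ξ‖ * Real.exp (-π * m * ‖ξ‖ ^ 2) := by
  unfold wtm
  rw [norm_real, Real.norm_eq_abs, abs_of_nonneg (by positivity)]

lemma ae_ne_zero : ∀ᵐ ξ : ℂ, ξ ≠ 0 := by
  rw [ae_iff]
  simp

lemma SI_norm_le {Ω : ℂ → ℂ} (hb : ∀ ξ, ‖Ω ξ‖ ≤ 1) (x : ℂ) (t : ℝ) (ξ : ℂ) {l : ℝ}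
    (hl : 0 < l) : ‖SI Ω x t (ξ, l)‖ₑ ≤
      ENNReal.ofReal (l ^ (-(1 / 2) : ℝ) * (‖ξ‖ * Real.exp (-π * (1 + l) * ‖ξ‖ ^ 2))) := by
  rw [← ofReal_norm]
  apply ENNReal.ofReal_le_ofReal
  unfold SI
  simp only
  rw [norm_mul, norm_mul, norm_mul, norm_ph, norm_wtm, norm_real, Real.norm_eq_abs,
    abs_of_pos (by positivity), mul_one]
  apply mul_le_mul_of_nonneg_left _ (by positivity)
  calc _ ≤ 1 * (‖ξ‖ * Real.exp (-π * (1 + l) * ‖ξ‖ ^ 2)) :=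
        mul_le_mul_of_nonneg_right (hb ξ) (by positivity)
    _ = _ := one_mul _

lemma SI_int {Ω : ℂ → ℂ} (hm : Measurable Ω) (hb : ∀ ξ, ‖Ω ξ‖ ≤ 1) (x : ℂ) (t : ℝ) :
    Integrable (SI Ω x t) ((volume : Measure ℂ).prod (volume.restrict (Ioi (0:ℝ)))) := by
  refine ⟨(SI_meas hm x t).aestronglyMeasurable, ?_⟩
  rw [hasFiniteIntegral_iff_enorm, lintegral_prod _ (SI_meas hm x t).enorm.aemeasurable]
  refine lt_of_le_of_lt ?_ gs_int.2
  apply lintegral_mono_ae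
  filter_upwards [ae_ne_zero] with ξ hξ
  obtain ⟨h1, h2⟩ := sup_id hξ
  calc ∫⁻ l in Ioi (0:ℝ), ‖SI Ω x t (ξ, l)‖ₑ ≤ ∫⁻ l in Ioi (0:ℝ), ENNReal.ofReal
        (l ^ (-(1 / 2) : ℝ) * (‖ξ‖ * Real.exp (-π * (1 + l) * ‖ξ‖ ^ 2))) :=
        setLIntegral_mono' measurableSet_Ioi (fun l hl => SI_norm_le hb x t ξ hl)
    _ = ENNReal.ofReal (Real.exp (-π * ‖ξ‖ ^ 2)) := by
        rw [← ofReal_integral_eq_lintegral_ofReal h1, h2]
        filter_upwards [ae_restrict_mem measurableSet_Ioi] with l hl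
        have : 0 < l := hl
        simp only [Pi.zero_apply]
        positivity
    _ = ‖gs ξ‖ₑ := by rw [← ofReal_norm, norm_gs]

lemma sup_EV {Ω : ℂ → ℂ} (hm : Measurable Ω) (hb : ∀ ξ, ‖Ω ξ‖ ≤ 1) (x : ℂ) (t : ℝ) :
    EV (fun ξ => Ω ξ * gs ξ) x t =
      ∫ l in Ioi (0:ℝ), ((l ^ (-(1 / 2) : ℝ) : ℝ) : ℂ) *
        EV (fun ξ => Ω ξ * wtm (1 + l) ξ) x t := by
  have e1 : EV (fun ξ => Ω ξ * gs ξ) x t =
      ∫ ξ, ∫ l in Ioi (0:ℝ), SI Ω x t (ξ, l) := by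
    unfold EV
    apply integral_congr_ae
    filter_upwards [ae_ne_zero] with ξ hξ
    have h2 := (sup_id hξ).2
    have e2 : ∀ l : ℝ, SI Ω x t (ξ, l) = (Ω ξ * ph x t ξ) *
        ((l ^ (-(1 / 2) : ℝ) * (‖ξ‖ * Real.exp (-π * (1 + l) * ‖ξ‖ ^ 2)) : ℝ) : ℂ) := by
      intro l
      unfold SI wtm
      push_cast
      ring
    simp_rw [e2]
    rw [integral_const_mul]
    have e3 : ∫ l in Ioi (0:ℝ),
        ((l ^ (-(1 / 2) : ℝ) * (‖ξ‖ * Real.exp (-π * (1 + l) * ‖ξ‖ ^ 2)) : ℝ) : ℂ) =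
        ((∫ l in Ioi (0:ℝ),
          l ^ (-(1 / 2) : ℝ) * (‖ξ‖ * Real.exp (-π * (1 + l) * ‖ξ‖ ^ 2)) : ℝ) : ℂ) :=
      integral_ofReal
    rw [e3, h2]
    unfold gs
    ring
  rw [e1, integral_integral_swap (f := fun ξ l => SI Ω x t (ξ, l)) (SI_int hm hb x t)]
  congr 1
  funext l
  unfold SI EV
  simp only
  rw [integral_const_mul]

/-- **The estimate in `L^q` at a fixed time**, with the Gaussian weight. -/
theorem fixg {κ : ℝ} (h1 : 1 ≤ κ) (h2 : κ < 2) {q : ℝ} (hq2 : 2 ≤ q) (hq4 : q ≤ 4) :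
    ∃ C : ℝ≥0∞, C ≠ ∞ ∧ ∀ Ω : ℂ → ℂ, HD Ω → ∀ t : ℝ,
      ∫⁻ x, ‖EV (fun ξ => Ω ξ * gs ξ) x t‖ₑ ^ q ≤ C * jb t ^ (-(κ * ((q - 2) / 2))) := by
  obtain ⟨C, hC, h⟩ := fixq h1 h2 hq2 hq4
  set σ := κ * ((q - 2) / 2) with hσ
  have hσ2 : σ ≤ q - 2 := by
    rw [hσ]; nlinarith
  set K := ∫⁻ l in Ioi (0:ℝ), kl l with hK
  refine ⟨K ^ (q - 1) * (C * K), ENNReal.mul_ne_top (ENNReal.rpow_ne_top_of_nonneg (by linarith)
    kl_fin) (ENNReal.mul_ne_top hC kl_fin), ?_⟩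
  intro Ω hΩ t
  -- the functions
  set W : ℂ × ℝ → ℝ≥0∞ := fun p => ‖EV (fun ξ => Ω ξ * wtm (1 + p.2) ξ) p.1 t‖ₑ with hW
  have hWm : Measurable W := by
    have hG : Measurable fun r : (ℂ × ℝ) × ℂ => Ω r.2 * wtm (1 + r.1.2) r.2 := by
      refine (hΩ.meas.comp measurable_snd).mul ?_
      exact wtm_meas.comp ((measurable_snd.comp measurable_fst).prodMk measurable_snd)
    exact (EV_meas hG (x := fun p : ℂ × ℝ => p.1) measurable_fst
      (t := fun _ => t) measurable_const).enorm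
  set g : ℂ × ℝ → ℝ≥0∞ := fun p => ENNReal.ofReal ((1 + p.2) ^ (3 / 4 : ℝ)) * W p with hg
  have hgm : Measurable g := by
    refine Measurable.mul ?_ hWm
    exact ENNReal.measurable_ofReal.comp ((measurable_const.add measurable_snd).pow_const _)
  have s1 : ∀ x, ‖EV (fun ξ => Ω ξ * gs ξ) x t‖ₑ ≤ ∫⁻ l in Ioi (0:ℝ), kl l * g (x, l) := by
    intro x
    rw [sup_EV hΩ.meas hΩ.bdd]
    refine (enorm_integral_le_lintegral_enorm _).trans ?_
    apply setLIntegral_mono' measurableSet_Ioi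
    intro l hl
    have hl0 : 0 < l := hl
    rw [enorm_mul]
    simp only [hg, hW]
    unfold kl
    rw [← mul_assoc, ← ENNReal.ofReal_mul (by positivity)]
    gcongr
    rw [← ofReal_norm]
    apply ENNReal.ofReal_le_ofReal
    rw [norm_real, Real.norm_eq_abs, abs_of_pos (by positivity), mul_assoc,
      ← Real.rpow_add (by positivity : 0 < 1 + l)]
    norm_num
  have s2 : ∀ x, ‖EV (fun ξ => Ω ξ * gs ξ) x t‖ₑ ^ q ≤
      K ^ (q - 1) * ∫⁻ l in Ioi (0:ℝ), kl l * g (x, l) ^ q := by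
    intro x
    refine (ENNReal.rpow_le_rpow (s1 x) (by linarith)).trans ?_
    exact wjensen kl_meas (hgm.comp measurable_prodMk_left) (by linarith)
  calc ∫⁻ x, ‖EV (fun ξ => Ω ξ * gs ξ) x t‖ₑ ^ q ≤
        ∫⁻ x, K ^ (q - 1) * ∫⁻ l in Ioi (0:ℝ), kl l * g (x, l) ^ q := lintegral_mono s2
    _ = K ^ (q - 1) * ∫⁻ x, ∫⁻ l in Ioi (0:ℝ), kl l * g (x, l) ^ q := by
        rw [lintegral_const_mul' _ _ (ENNReal.rpow_ne_top_of_nonneg (by linarith) kl_fin)]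
    _ = K ^ (q - 1) * ∫⁻ l in Ioi (0:ℝ), ∫⁻ x, kl l * g (x, l) ^ q := by
        rw [lintegral_lintegral_swap]
        exact ((kl_meas.comp measurable_snd).mul (hgm.pow_const q)).aemeasurable
    _ ≤ K ^ (q - 1) * ∫⁻ l in Ioi (0:ℝ), kl l * (C * jb t ^ (-σ)) := by
        refine mul_le_mul' le_rfl ?_
        apply setLIntegral_mono' measurableSet_Ioi
        intro l hl
        have hl0 : 0 < l := hl
        have hm := fixm (by linarith : 0 ≤ κ) hq2 h hΩ (m := 1 + l) (by linarith) t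
        have e1 : ∫⁻ x, kl l * g (x, l) ^ q = kl l * (ENNReal.ofReal ((1 + l) ^ (3 / 4 * q)) *
            ∫⁻ x, ‖EV (fun ξ => Ω ξ * wtm (1 + l) ξ) x t‖ₑ ^ q) := by
          have hfin : kl l ≠ ∞ := ENNReal.ofReal_ne_top
          rw [lintegral_const_mul' _ _ hfin, ← lintegral_const_mul' _ _ ENNReal.ofReal_ne_top]
          congr 1
          apply lintegral_congr
          intro x
          simp only [hg, hW]
          rw [ENNReal.mul_rpow_of_nonneg _ _ (by linarith),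
            ENNReal.ofReal_rpow_of_pos (by positivity), ← Real.rpow_mul (by positivity)]
        rw [e1]
        refine mul_le_mul' le_rfl ?_
        have hle : ENNReal.ofReal ((1 + l) ^ (3 / 4 * q)) * ENNReal.ofReal
              ((1 + l) ^ (1 - 3 * q / 2 + σ)) ≤ 1 := by
          rw [← ENNReal.ofReal_mul (by positivity), ← Real.rpow_add (by positivity),
            ← ENNReal.ofReal_one]
          apply ENNReal.ofReal_le_ofReal
          apply Real.rpow_le_one_of_one_le_of_nonpos (by linarith)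
          linarith
        rw [← hσ] at hm
        calc _ ≤ ENNReal.ofReal ((1 + l) ^ (3 / 4 * q)) * (C * ENNReal.ofReal
              ((1 + l) ^ (1 - 3 * q / 2 + σ)) * jb t ^ (-σ)) := mul_le_mul' le_rfl hm
          _ = C * (ENNReal.ofReal ((1 + l) ^ (3 / 4 * q)) * ENNReal.ofReal
              ((1 + l) ^ (1 - 3 * q / 2 + σ))) * jb t ^ (-σ) := by
              ring
          _ ≤ C * 1 * jb t ^ (-σ) := by gcongr
          _ = _ := by rw [mul_one]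
    _ = K ^ (q - 1) * (C * K) * jb t ^ (-σ) := by
        rw [lintegral_mul_const _ kl_meas, ← hK]
        ring

end Pool.Agent.T9h83.RAY
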