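import Pool.Agent.T9h83.RAY.FixS2
import Pool.Agent.T9h83.RAY.Marc
import Pool.Agent.T9h83.RAY.Sup2
set_option autoImplicit false

/-! The strong-type estimate `L^q → L^q` at a fixed time. -/

namespace Pool.Agent.T9h83.RAY

open Complex MeasureTheory Set FourierTransform
open scoped ENNReal Real ComplexConjugate

/-- **The strong-type estimate** at a fixed time with the weight `|ξ| exp(-π|ξ|²)`. -/
theorem faq {κ : ℝ} (h1 : 1 ≤ κ) (h2 : κ < 2) {q : ℝ} (hq2 : 2 < q) (hq4 : q < 4) :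
    ∃ C : ℝ≥0∞, C ≠ ∞ ∧ ∀ ω : ℝ → ℂ, Measurable ω → (∃ B : ℝ, ∀ θ, ‖ω θ‖ ≤ B) → ∀ t : ℝ,
      ∫⁻ x, ‖EV (FA ω) x t‖ₑ ^ q ≤
        C * jb t ^ (-(κ * ((q - 2) / 2))) * ∫⁻ θ, ‖ω θ‖ₑ ^ q ∂cir := by
  obtain ⟨C4, hC4, h4⟩ := fa4all h1 h2
  set σ := κ * ((q - 2) / 2) with hσ
  refine ⟨ENNReal.ofReal q * (c2 * ENNReal.ofReal (4 / (q - 2)) +
    C4 * ENNReal.ofReal (16 / (4 - q))), ENNReal.mul_ne_top ENNReal.ofReal_ne_top
    (ENNReal.add_ne_top.2 ⟨ENNReal.mul_ne_top c2_fin ENNReal.ofReal_ne_top,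
      ENNReal.mul_ne_top hC4 ENNReal.ofReal_ne_top⟩), ?_⟩
  rintro ω hω ⟨B, hb⟩ t
  set a : ℝ := 1 + |t| with ha
  have ha0 : 0 < a := by positivity
  set c : ℝ := a ^ (κ / 2) with hc
  have hc0 : 0 < c := by positivity
  have hvm : Measurable fun x => ‖EV (FA ω) x t‖ := (EV_cont (FA_int hω hb) t).norm.measurable
  have H := marc (m := cir) (μ := (volume : Measure ℂ)) hq2 hq4 (w := fun θ => ‖ω θ‖) hω.norm
    (fun θ => norm_nonneg _) hvm (fun x => norm_nonneg _) (A2 := c2) (A4 := C4 * jb t ^ (-κ)) hc0 ?_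
  · have e1 : ∫⁻ x, ENNReal.ofReal (‖EV (FA ω) x t‖ ^ q) = ∫⁻ x, ‖EV (FA ω) x t‖ₑ ^ q := by
      apply lintegral_congr
      intro x
      rw [← ofReal_norm, ENNReal.ofReal_rpow_of_nonneg (norm_nonneg _) (by linarith)]
    have e2 : ∫⁻ θ, ENNReal.ofReal (‖ω θ‖ ^ q) ∂cir = ∫⁻ θ, ‖ω θ‖ₑ ^ q ∂cir := by
      apply lintegral_congr
      intro θ
      rw [← ofReal_norm, ENNReal.ofReal_rpow_of_nonneg (norm_nonneg _) (by linarith)]
    rw [e1, e2] at H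
    refine H.trans (mul_le_mul' ?_ le_rfl)
    have hq2' : 0 < q - 2 := by linarith
    have hq4' : 0 < 4 - q := by linarith
    have e3 : ENNReal.ofReal (4 * c ^ (2 - q) / (q - 2)) =
        ENNReal.ofReal (4 / (q - 2)) * jb t ^ (-σ) := by
      rw [jb_rpow, ← ENNReal.ofReal_mul (by positivity)]
      congr 1
      have : c ^ (2 - q) = a ^ (-σ) := by
        rw [hc, ← Real.rpow_mul ha0.le]; congr 1; rw [hσ]; ring
      rw [this]; ring
    have e4 : C4 * jb t ^ (-κ) * ENNReal.ofReal (16 * c ^ (4 - q) / (4 - q)) =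
        C4 * ENNReal.ofReal (16 / (4 - q)) * jb t ^ (-σ) := by
      rw [jb_rpow, jb_rpow, mul_assoc, mul_assoc, ← ENNReal.ofReal_mul (by positivity),
        ← ENNReal.ofReal_mul (by positivity)]
      congr 2
      have : c ^ (4 - q) = a ^ (κ * (4 - q) / 2) := by
        rw [hc, ← Real.rpow_mul ha0.le]; congr 1; ring
      rw [this]
      have h5 : a ^ (-κ) * a ^ (κ * (4 - q) / 2) = a ^ (-σ) := by
        rw [← Real.rpow_add ha0]; congr 1; rw [hσ]; ring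
      calc a ^ (-κ) * (16 * a ^ (κ * (4 - q) / 2) / (4 - q)) =
          16 / (4 - q) * (a ^ (-κ) * a ^ (κ * (4 - q) / 2)) := by ring
        _ = _ := by rw [h5]
    rw [e3, e4]
    apply le_of_eq
    ring
  · intro s hs
    set hi : ℝ → ℂ := {θ | s < ‖ω θ‖}.indicator ω with hhi
    set lo : ℝ → ℂ := {θ | ‖ω θ‖ ≤ s}.indicator ω with hlo
    have mhi : MeasurableSet {θ | s < ‖ω θ‖} := measurableSet_lt measurable_const hω.norm
    have mlo : MeasurableSet {θ | ‖ω θ‖ ≤ s} := measurableSet_le hω.norm measurable_const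
    have hhim : Measurable hi := hω.indicator mhi
    have hlom : Measurable lo := hω.indicator mlo
    have hhib : ∀ θ, ‖hi θ‖ ≤ B := fun θ => (norm_indicator_le_norm_self _ _).trans (hb θ)
    have hlob : ∀ θ, ‖lo θ‖ ≤ B := fun θ => (norm_indicator_le_norm_self _ _).trans (hb θ)
    have hsum : ∀ x, EV (FA ω) x t = EV (FA hi) x t + EV (FA lo) x t := by
      intro x
      rw [← EV_add (FA_int hhim hhib) (FA_int hlom hlob)]
      congr 1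
      funext ξ
      unfold FA
      rw [← add_mul]
      congr 1
      by_cases h : s < ‖ω (arg ξ)‖
      · rw [hhi, hlo, indicator_of_mem (show arg ξ ∈ {θ | s < ‖ω θ‖} from h),
          indicator_of_notMem (show arg ξ ∉ {θ | ‖ω θ‖ ≤ s} from not_le.2 h), add_zero]
      · rw [hhi, hlo, indicator_of_notMem (show arg ξ ∉ {θ | s < ‖ω θ‖} from h),
          indicator_of_mem (show arg ξ ∈ {θ | ‖ω θ‖ ≤ s} from not_lt.1 h), zero_add]
    refine ⟨fun x => ‖EV (FA hi) x t‖ₑ, fun x => ‖EV (FA lo) x t‖ₑ,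
      (EV_cont (FA_int hhim hhib) t).enorm.measurable,
      (EV_cont (FA_int hlom hlob) t).enorm.measurable, ?_, ?_, ?_⟩
    · intro x
      rw [ofReal_norm, hsum]
      exact enorm_add_le _ _
    · rw [fa2 hhim hhib t]
      apply le_of_eq
      congr 1
      apply lintegral_congr
      intro θ
      by_cases h : s < ‖ω θ‖
      · rw [hhi, indicator_of_mem (show θ ∈ {θ | s < ‖ω θ‖} from h),
          indicator_of_mem (show θ ∈ {θ | s < ‖ω θ‖} from h), ofReal_norm]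
      · rw [hhi, indicator_of_notMem (show θ ∉ {θ | s < ‖ω θ‖} from h),
          indicator_of_notMem (show θ ∉ {θ | s < ‖ω θ‖} from h)]
        simp
    · refine (h4 lo hlom ⟨B, hlob⟩ t).trans (le_of_eq ?_)
      congr 1
      apply lintegral_congr
      intro θ
      by_cases h : ‖ω θ‖ ≤ s
      · rw [hlo, indicator_of_mem (show θ ∈ {θ | ‖ω θ‖ ≤ s} from h),
          indicator_of_mem (show θ ∈ {θ | ‖ω θ‖ ≤ s} from h), ofReal_norm]
      · rw [hlo, indicator_of_notMem (show θ ∉ {θ | ‖ω θ‖ ≤ s} from h),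
          indicator_of_notMem (show θ ∉ {θ | ‖ω θ‖ ≤ s} from h)]
        simp

lemma arg_hom {r : ℝ} (hr : 0 < r) (ξ : ℂ) : arg ((r : ℂ) * ξ) = arg ξ := by
  rcases eq_or_ne ξ 0 with h | h
  · rw [h]; simp
  · exact arg_real_mul _ hr

/-- scaling -/
lemma EV_scaleA (ω : ℝ → ℂ) {c : ℝ} (hc : 0 < c) (x : ℂ) (t : ℝ) :
    EV (fun ξ => ω (arg ξ) * wtm (c ^ 2) ξ) x t =
      ((c⁻¹ ^ 3 : ℝ) : ℂ) * EV (FA ω) ((c⁻¹ : ℝ) * x) (t / c ^ 2) := by
  unfold EV FA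
  have h1 := Measure.integral_comp_inv_smul_of_nonneg (volume : Measure ℂ)
    (fun ξ => ω (arg ξ) * wtm (c ^ 2) ξ * ph x t ξ) hc.le
  rw [Complex.finrank_real_complex] at h1
  have h2 : ∀ ξ : ℂ, ω (arg (c⁻¹ • ξ)) * wtm (c ^ 2) (c⁻¹ • ξ) * ph x t (c⁻¹ • ξ) =
      (c⁻¹ : ℝ) * (ω (arg ξ) * wt ξ * ph ((c⁻¹ : ℝ) * x) (t / c ^ 2) ξ) := by
    intro ξ
    have e1 : ω (arg (c⁻¹ • ξ)) = ω (arg ξ) := by
      rw [real_smul, arg_hom (by positivity)]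
    have e2 : wtm (c ^ 2) (c⁻¹ • ξ) = (c⁻¹ : ℝ) * wt ξ := by
      unfold wtm wt
      rw [norm_smul, Real.norm_eq_abs, abs_of_pos (by positivity : 0 < c⁻¹), ← ofReal_mul]
      congr 1
      have : -π * c ^ 2 * (c⁻¹ * ‖ξ‖) ^ 2 = -π * ‖ξ‖ ^ 2 := by field_simp
      rw [this]; ring
    have e3 : ph x t (c⁻¹ • ξ) = ph ((c⁻¹ : ℝ) * x) (t / c ^ 2) ξ := by
      unfold ph
      congr 3
      rw [smul_re, smul_im, norm_smul, Real.norm_eq_abs, abs_of_pos (by positivity : 0 < c⁻¹),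
        re_ofReal_mul, im_ofReal_mul, smul_eq_mul, smul_eq_mul]
      field_simp
    rw [e1, e2, e3]; ring
  simp_rw [h2] at h1
  rw [integral_const_mul] at h1
  rw [real_smul] at h1
  have hc' : (c : ℂ) ≠ 0 := by exact_mod_cast hc.ne'
  have h3 : ∫ ξ : ℂ, ω (arg ξ) * wtm (c ^ 2) ξ * ph x t ξ =
      ((c ^ 2 : ℝ) : ℂ)⁻¹ * ((c⁻¹ : ℝ) *
        ∫ ξ : ℂ, ω (arg ξ) * wt ξ * ph ((c⁻¹ : ℝ) * x) (t / c ^ 2) ξ) := by
    rw [h1]
    push_cast
    field_simp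
  rw [h3]
  push_cast
  field_simp

/-- the estimate for the dilated weights -/
lemma fixmS {κ : ℝ} (h0 : 0 ≤ κ) {q : ℝ} (hq2 : 2 ≤ q) {C : ℝ≥0∞}
    (hC : ∀ ω : ℝ → ℂ, Measurable ω → (∃ B : ℝ, ∀ θ, ‖ω θ‖ ≤ B) → ∀ t : ℝ,
      ∫⁻ x, ‖EV (FA ω) x t‖ₑ ^ q ≤
        C * jb t ^ (-(κ * ((q - 2) / 2))) * ∫⁻ θ, ‖ω θ‖ₑ ^ q ∂cir)
    {ω : ℝ → ℂ} (hω : Measurable ω) {B : ℝ} (hb : ∀ θ, ‖ω θ‖ ≤ B) {m : ℝ} (hm : 1 ≤ m) (t : ℝ) :
    ∫⁻ x, ‖EV (fun ξ => ω (arg ξ) * wtm m ξ) x t‖ₑ ^ q ≤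
      C * ENNReal.ofReal (m ^ (1 - 3 * q / 2 + κ * ((q - 2) / 2))) *
        jb t ^ (-(κ * ((q - 2) / 2))) * ∫⁻ θ, ‖ω θ‖ₑ ^ q ∂cir := by
  set σ := κ * ((q - 2) / 2) with hσ
  have hσ0 : 0 ≤ σ := mul_nonneg h0 (by linarith)
  have hm0 : 0 < m := by linarith
  set c := Real.sqrt m with hc
  have hc0 : 0 < c := Real.sqrt_pos.2 hm0
  have hcm : c ^ 2 = m := Real.sq_sqrt hm0.le
  have hms : Measurable fun x => ‖EV (FA ω) x (t / c ^ 2)‖ₑ ^ q :=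
    (EV_cont (FA_int hω hb) _).enorm.measurable.pow_const q
  set N := ∫⁻ θ, ‖ω θ‖ₑ ^ q ∂cir with hN
  have e1 : ∫⁻ x, ‖EV (fun ξ => ω (arg ξ) * wtm m ξ) x t‖ₑ ^ q =
      ENNReal.ofReal (c⁻¹ ^ 3) ^ q * (ENNReal.ofReal (c⁻¹ ^ 2)⁻¹ *
        ∫⁻ x, ‖EV (FA ω) x (t / c ^ 2)‖ₑ ^ q) := by
    rw [← lint_smul hms (inv_pos.2 hc0), ← lintegral_const_mul' _ _
      (ENNReal.rpow_ne_top_of_nonneg (by linarith) ENNReal.ofReal_ne_top)]
    apply lintegral_congr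
    intro x
    rw [← hcm, EV_scaleA ω hc0, enorm_mul, ENNReal.mul_rpow_of_nonneg _ _ (by linarith)]
    congr 2
    rw [← ofReal_norm, norm_real, Real.norm_eq_abs, abs_of_pos (by positivity)]
  rw [e1]
  have e2 : jb (t / c ^ 2) ^ (-σ) ≤ ENNReal.ofReal (m ^ σ) * jb t ^ (-σ) := by
    rw [jb_rpow, jb_rpow, ← ENNReal.ofReal_mul (by positivity), hcm]
    apply ENNReal.ofReal_le_ofReal
    rw [Real.rpow_neg (by positivity), Real.rpow_neg (by positivity), ← div_eq_mul_inv,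
      inv_le_comm₀ (by positivity) (by positivity), inv_div,
      div_le_iff₀ (by positivity), ← Real.mul_rpow (by positivity) hm0.le]
    apply Real.rpow_le_rpow (by positivity) _ hσ0
    rw [abs_div, abs_of_pos hm0]
    field_simp
    linarith
  have hcr : ∀ s : ℝ, c ^ s = m ^ (s / 2) := by
    intro s
    rw [hc, Real.sqrt_eq_rpow, ← Real.rpow_mul hm0.le]
    congr 1; ring
  have e3 : ENNReal.ofReal (c⁻¹ ^ 3) ^ q = ENNReal.ofReal (m ^ (-(3 * q / 2))) := by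
    rw [ENNReal.ofReal_rpow_of_pos (by positivity)]
    congr 1
    have : c⁻¹ ^ 3 = c ^ (-3 : ℝ) := by
      rw [Real.rpow_neg hc0.le, inv_pow, ← Real.rpow_natCast]; norm_num
    rw [this, ← Real.rpow_mul hc0.le, hcr]
    congr 1; ring
  have e4 : ENNReal.ofReal (c⁻¹ ^ 2)⁻¹ = ENNReal.ofReal (m ^ (1:ℝ)) := by
    rw [Real.rpow_one, inv_pow, inv_inv, hcm]
  rw [e3, e4]
  calc _ ≤ ENNReal.ofReal (m ^ (-(3 * q / 2))) * (ENNReal.ofReal (m ^ (1:ℝ)) *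
        (C * (ENNReal.ofReal (m ^ σ) * jb t ^ (-σ)) * N)) := by
        refine mul_le_mul' le_rfl (mul_le_mul' le_rfl ((hC ω hω ⟨B, hb⟩ _).trans ?_))
        exact mul_le_mul' (mul_le_mul' le_rfl e2) le_rfl
    _ = C * (ENNReal.ofReal (m ^ (-(3 * q / 2))) * ENNReal.ofReal (m ^ (1:ℝ)) *
        ENNReal.ofReal (m ^ σ)) * jb t ^ (-σ) * N := by ring
    _ = _ := by
        rw [← ENNReal.ofReal_mul (by positivity), ← ENNReal.ofReal_mul (by positivity),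
          ← Real.rpow_add hm0, ← Real.rpow_add hm0]
        congr 5
        ring

end Pool.Agent.T9h83.RAY
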