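import Pool.Agent.T9h83.RAY.Der3
import Pool.Agent.T9h83.RAY.Energy
set_option autoImplicit false

/-! The fourth moment at a fixed time, for even functions with the weight `|ξ| exp(-π|ξ|²)`. -/

namespace Pool.Agent.T9h83.RAY

open Complex MeasureTheory Set
open scoped ENNReal Real

/-- the measure on the angles -/
noncomputable def mθ : Measure ℝ := volume.restrict (Ioc (0:ℝ) π)

instance : IsFiniteMeasure mθ := by
  unfold mθ
  exact ⟨by rw [Measure.restrict_apply_univ, Real.volume_Ioc]; exact ENNReal.ofReal_lt_top⟩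

lemma mθ_univ : mθ univ = ENNReal.ofReal π := by
  unfold mθ; rw [Measure.restrict_apply_univ, Real.volume_Ioc, sub_zero]

/-- Gaussian in one direction -/
noncomputable def EE (c θ : ℝ) (p : ℝ × ℝ) : ℝ≥0∞ := ENNReal.ofReal (Real.exp (-c * ss θ p ^ 2))

lemma ss_polar (p : ℝ × ℝ) : ∃ ω : ℝ, ∀ θ, ss θ p = ‖(⟨p.1, p.2⟩ : ℂ)‖ * Real.cos (θ - ω) := by
  set W : ℂ := ⟨p.1, p.2⟩ with hW
  refine ⟨W.arg, fun θ => ?_⟩
  have h1 : p.1 = ‖W‖ * Real.cos W.arg := by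
    have h : W.re = ‖W‖ * Real.cos W.arg := by
      rcases eq_or_ne W 0 with h0 | h0
      · rw [h0]; simp
      · rw [Complex.cos_arg h0]
        have : ‖W‖ ≠ 0 := norm_ne_zero_iff.2 h0
        field_simp
    exact h
  have h2 : p.2 = ‖W‖ * Real.sin W.arg := by
    have h : W.im = ‖W‖ * Real.sin W.arg := by
      rw [Complex.sin_arg]
      rcases eq_or_ne W 0 with h0 | h0
      · rw [h0]; simp
      · have : ‖W‖ ≠ 0 := norm_ne_zero_iff.2 h0
        field_simp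
    exact h
  unfold ss
  rw [Real.cos_sub]
  generalize ‖W‖ = r at *
  generalize W.arg = a at *
  rw [h1, h2]; ring

lemma gauss_le_pow {c : ℝ} (hc : 0 < c) (v : ℝ) : ENNReal.ofReal (Real.exp (-c * v ^ 2)) ≤
    ENNReal.ofReal (1 + 1 / c) * ENNReal.ofReal |v| ^ (-(3 / 4) : ℝ) := by
  rcases eq_or_ne v 0 with rfl | hv
  · rw [abs_zero, ENNReal.ofReal_zero, ENNReal.zero_rpow_of_neg (by norm_num), ENNReal.mul_top]
    · exact le_top
    · exact (ENNReal.ofReal_pos.2 (by positivity)).ne'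
  · have hv0 : 0 < |v| := abs_pos.2 hv
    rw [ENNReal.ofReal_rpow_of_pos hv0, ← ENNReal.ofReal_mul (by positivity)]
    apply ENNReal.ofReal_le_ofReal
    rw [Real.rpow_neg hv0.le, ← div_eq_mul_inv, le_div_iff₀ (by positivity)]
    have h1 : |v| ^ (3 / 4 : ℝ) ≤ 1 + v ^ 2 := by
      rcases le_total |v| 1 with h | h
      · have := Real.rpow_le_one hv0.le h (by norm_num : (0:ℝ) ≤ 3 / 4)
        nlinarith [sq_nonneg v]
      · have h2 : |v| ^ (3 / 4 : ℝ) ≤ |v| ^ (2 : ℝ) :=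
          Real.rpow_le_rpow_of_exponent_le h (by norm_num)
        have h3 : |v| ^ (2 : ℝ) = v ^ 2 := by
          rw [Real.rpow_two, sq_abs]
        linarith
    have h2 : v ^ 2 * Real.exp (-c * v ^ 2) ≤ 1 / c := by
      have h3 := Real.add_one_le_exp (c * v ^ 2)
      have h4 : Real.exp (-c * v ^ 2) = (Real.exp (c * v ^ 2))⁻¹ := by
        rw [← Real.exp_neg]; congr 1; ring
      rw [h4, ← div_eq_mul_inv, div_le_div_iff₀ (Real.exp_pos _) hc]
      linarith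
    have h5 : Real.exp (-c * v ^ 2) ≤ 1 := by
      rw [Real.exp_le_one_iff]
      have : 0 ≤ c * v ^ 2 := by positivity
      linarith
    calc Real.exp (-c * v ^ 2) * |v| ^ (3 / 4 : ℝ) ≤ Real.exp (-c * v ^ 2) * (1 + v ^ 2) := by
          gcongr
      _ = Real.exp (-c * v ^ 2) + v ^ 2 * Real.exp (-c * v ^ 2) := by ring
      _ ≤ 1 + 1 / c := by linarith

/-- integral over the angles -/
noncomputable def kkE (c : ℝ) (p : ℝ × ℝ) : ℝ≥0∞ := ∫⁻ θ, EE c θ p ∂mθ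

lemma kkE_le_pi {c : ℝ} (hc : 0 < c) (p : ℝ × ℝ) : kkE c p ≤ ENNReal.ofReal π := by
  unfold kkE
  calc ∫⁻ θ, EE c θ p ∂mθ ≤ ∫⁻ _, 1 ∂mθ := by
        apply lintegral_mono
        intro θ
        unfold EE
        rw [← ENNReal.ofReal_one]
        apply ENNReal.ofReal_le_ofReal
        rw [Real.exp_le_one_iff]
        have : 0 ≤ c * ss θ p ^ 2 := by positivity
        linarith
    _ = ENNReal.ofReal π := by rw [lintegral_one, mθ_univ]

lemma kkE_le_pow {c : ℝ} (hc : 0 < c) (p : ℝ × ℝ) : kkE c p ≤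
    ENNReal.ofReal (1 + 1 / c) * (ENNReal.ofReal ‖(⟨p.1, p.2⟩ : ℂ)‖ ^ (-(3 / 4) : ℝ) *
      Kσ (3 / 4)) := by
  obtain ⟨ω, hω⟩ := ss_polar p
  set ρ := ‖(⟨p.1, p.2⟩ : ℂ)‖
  rw [← ks_shift (3 / 4) (ω - π / 2)]
  unfold kkE
  have m1 : Measurable fun θ => ks (3 / 4) (θ - (ω - π / 2)) := (ks_meas _).comp (by fun_prop)
  rw [← lintegral_const_mul _ m1, ← lintegral_const_mul _ (m1.const_mul _)]
  unfold mθ
  apply lintegral_mono
  intro θ
  simp only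
  rw [← cos_ks]
  unfold EE
  refine (gauss_le_pow hc _).trans (le_of_eq ?_)
  congr 1
  rw [hω, abs_mul, abs_of_nonneg (norm_nonneg _), ENNReal.ofReal_mul (norm_nonneg _),
    ENNReal.mul_rpow_of_ne_top ENNReal.ofReal_ne_top ENNReal.ofReal_ne_top]

lemma norm_le_rho (p : ℝ × ℝ) : ‖p‖ ≤ ‖(⟨p.1, p.2⟩ : ℂ)‖ := by
  rw [Prod.norm_def]
  exact max_le (Complex.abs_re_le_norm (⟨p.1, p.2⟩ : ℂ)) (Complex.abs_im_le_norm (⟨p.1, p.2⟩ : ℂ))

lemma kk4 {c : ℝ} (hc : 0 < c) : ∃ C : ℝ≥0∞, C < ∞ ∧ ∀ p, kkE c p ^ 4 ≤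
    C * ENNReal.ofReal ((1 + ‖p‖) ^ (-3 : ℝ)) := by
  set K := Kσ (3 / 4) with hK
  have hKt : K < ∞ := Kσ_lt (by norm_num) (by norm_num)
  refine ⟨ENNReal.ofReal π ^ 4 * 8 + (ENNReal.ofReal (1 + 1 / c) * K) ^ 4 * 8, ?_, ?_⟩
  · refine ENNReal.add_lt_top.2 ⟨?_, ?_⟩
    · exact ENNReal.mul_lt_top (ENNReal.pow_lt_top ENNReal.ofReal_lt_top) (by norm_num)
    · exact ENNReal.mul_lt_top (ENNReal.pow_lt_top (ENNReal.mul_lt_top ENNReal.ofReal_lt_top hKt))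
        (by norm_num)
  · intro p
    rw [add_mul]
    have h8 : (1:ℝ) ≤ 8 * 2 ^ (-3 : ℝ) := by
      rw [Real.rpow_neg (by norm_num)]; norm_num
    rcases le_total ‖p‖ 1 with h | h
    · refine le_trans ?_ le_self_add
      have h1 : (1 : ℝ≥0∞) ≤ 8 * ENNReal.ofReal ((1 + ‖p‖) ^ (-3 : ℝ)) := by
        have : (1:ℝ) ≤ 8 * (1 + ‖p‖) ^ (-3 : ℝ) := by
          refine h8.trans ?_
          have : (2:ℝ) ^ (-3 : ℝ) ≤ (1 + ‖p‖) ^ (-3 : ℝ) :=
            Real.rpow_le_rpow_of_nonpos (by positivity) (by linarith) (by norm_num)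
          linarith
        calc (1 : ℝ≥0∞) = ENNReal.ofReal 1 := ENNReal.ofReal_one.symm
          _ ≤ ENNReal.ofReal (8 * (1 + ‖p‖) ^ (-3 : ℝ)) := ENNReal.ofReal_le_ofReal this
          _ = _ := by rw [ENNReal.ofReal_mul (by norm_num)]; norm_num
      calc kkE c p ^ 4 ≤ ENNReal.ofReal π ^ 4 := by gcongr; exact kkE_le_pi hc p
        _ = ENNReal.ofReal π ^ 4 * 1 := (mul_one _).symm
        _ ≤ ENNReal.ofReal π ^ 4 * (8 * ENNReal.ofReal ((1 + ‖p‖) ^ (-3 : ℝ))) := by gcongr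
        _ = _ := by ring
    · refine le_trans ?_ le_add_self
      set ρ := ‖(⟨p.1, p.2⟩ : ℂ)‖ with hρ
      have hρp : ‖p‖ ≤ ρ := norm_le_rho p
      have hρ0 : 0 < ρ := by linarith
      have h2 : ENNReal.ofReal ρ ^ (-3 : ℝ) ≤ 8 * ENNReal.ofReal ((1 + ‖p‖) ^ (-3 : ℝ)) := by
        rw [ENNReal.ofReal_rpow_of_pos hρ0]
        have : ρ ^ (-3 : ℝ) ≤ 8 * (1 + ‖p‖) ^ (-3 : ℝ) := by
          have h3 : ρ ^ (-3 : ℝ) ≤ ((1 + ‖p‖) / 2) ^ (-3 : ℝ) :=
            Real.rpow_le_rpow_of_nonpos (by positivity) (by linarith) (by norm_num)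
          refine h3.trans (le_of_eq ?_)
          rw [Real.div_rpow (by positivity) (by norm_num), Real.rpow_neg (by norm_num : (0:ℝ) ≤ 2)]
          norm_num
          ring
        calc ENNReal.ofReal (ρ ^ (-3 : ℝ)) ≤ ENNReal.ofReal (8 * (1 + ‖p‖) ^ (-3 : ℝ)) :=
              ENNReal.ofReal_le_ofReal this
          _ = _ := by rw [ENNReal.ofReal_mul (by norm_num)]; norm_num
      have e4 : (ENNReal.ofReal ρ ^ (-(3 / 4) : ℝ)) ^ 4 = ENNReal.ofReal ρ ^ (-3 : ℝ) := by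
        rw [← ENNReal.rpow_natCast, ← ENNReal.rpow_mul]
        norm_num
      calc kkE c p ^ 4 ≤ (ENNReal.ofReal (1 + 1 / c) * (ENNReal.ofReal ρ ^ (-(3 / 4) : ℝ) *
            K)) ^ 4 := by gcongr; exact kkE_le_pow hc p
        _ = (ENNReal.ofReal (1 + 1 / c) * K) ^ 4 * (ENNReal.ofReal ρ ^ (-(3 / 4) : ℝ)) ^ 4 := by
            ring
        _ ≤ (ENNReal.ofReal (1 + 1 / c) * K) ^ 4 * (8 * ENNReal.ofReal ((1 + ‖p‖) ^ (-3 : ℝ))) := by
            rw [e4]; gcongr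
        _ = _ := by ring

lemma kk4_int {c : ℝ} (hc : 0 < c) : ∫⁻ p : ℝ × ℝ, kkE c p ^ 4 < ∞ := by
  obtain ⟨C, hC, h⟩ := kk4 hc
  refine lt_of_le_of_lt (lintegral_mono h) ?_
  rw [lintegral_const_mul _ (by fun_prop)]
  refine ENNReal.mul_lt_top hC ?_
  apply finite_integral_one_add_norm
  simp [Module.finrank_prod]
  norm_num

end Pool.Agent.T9h83.RAY
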