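import Pool.Agent.T9h83.RAY.Rel
set_option autoImplicit false

/-! Gaussian integrals over the plane. -/

namespace Pool.Agent.T9h83.RAY

open Complex MeasureTheory

lemma schur_re {A B C : ℂ} {κ : ℝ} (hκ : 0 < κ)
    (h : ∀ x y : ℝ, κ * (x ^ 2 + y ^ 2) ≤ A.re * x ^ 2 + 2 * B.re * x * y + C.re * y ^ 2) :
    0 < A.re ∧ 0 < (C - B ^ 2 / A).re := by
  have hA : κ ≤ A.re := by
    have := h 1 0
    simpa using this
  have hA0 : A ≠ 0 := by
    intro h0
    rw [h0] at hA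
    simp at hA
    linarith
  refine ⟨by linarith, ?_⟩
  set w : ℂ := -B / A with hw
  have e : C - B ^ 2 / A = ((normSq w : ℝ) : ℂ) * A + ((2 * w.re : ℝ) : ℂ) * B + C := by
    have e1 : ((normSq w : ℝ) : ℂ) = (starRingEnd ℂ) w * w := by
      rw [mul_comm, mul_conj]
    have e2 : ((2 * w.re : ℝ) : ℂ) = w + (starRingEnd ℂ) w := by
      rw [add_conj]
    have e3 : w * A = -B := by rw [hw]; field_simp
    rw [e1, e2]
    have e4 : (starRingEnd ℂ) w * w * A = (starRingEnd ℂ) w * (w * A) := by ring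
    rw [e4, e3]
    have e5 : B ^ 2 / A = -(w * B) := by rw [hw]; field_simp
    rw [e5]; ring
  rw [e]
  have h1 := h w.re 1
  have h2 : (((normSq w : ℝ) : ℂ) * A + ((2 * w.re : ℝ) : ℂ) * B + C).re =
      normSq w * A.re + 2 * w.re * B.re + C.re := by
    simp [add_re, mul_re]
  rw [h2, normSq_apply]
  have h3 : 0 ≤ w.im * w.im * A.re := by
    have : 0 ≤ w.im * w.im := mul_self_nonneg _
    have : 0 ≤ A.re := by linarith
    positivity
  nlinarith [sq_nonneg w.re]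

lemma gauss2_int {A B C : ℂ} {κ : ℝ} (hκ : 0 < κ)
    (h : ∀ x y : ℝ, κ * (x ^ 2 + y ^ 2) ≤ A.re * x ^ 2 + 2 * B.re * x * y + C.re * y ^ 2) :
    Integrable (fun p : ℝ × ℝ => cexp (-Real.pi * (A * (p.1 : ℂ) ^ 2 + 2 * B * p.1 * p.2
      + C * (p.2 : ℂ) ^ 2))) (volume.prod volume) := by
  have hg : Integrable (fun x : ℝ => Real.exp (-(Real.pi * κ) * x ^ 2)) :=
    integrable_exp_neg_mul_sq (by positivity)
  refine (hg.mul_prod hg).mono' (by fun_prop) ?_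
  refine Filter.Eventually.of_forall fun p => ?_
  rw [norm_exp, ← Real.exp_add]
  apply Real.exp_le_exp.2
  have e : (-(Real.pi : ℂ) * (A * (p.1 : ℂ) ^ 2 + 2 * B * p.1 * p.2 + C * (p.2 : ℂ) ^ 2)).re =
      -Real.pi * (A.re * p.1 ^ 2 + 2 * B.re * p.1 * p.2 + C.re * p.2 ^ 2) := by
    have e1 : (-(Real.pi : ℂ) * (A * (p.1 : ℂ) ^ 2 + 2 * B * p.1 * p.2 + C * (p.2 : ℂ) ^ 2)) =
        ((-Real.pi * p.1 ^ 2 : ℝ) : ℂ) * A + ((-Real.pi * (2 * p.1 * p.2) : ℝ) : ℂ) * B +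
          ((-Real.pi * p.2 ^ 2 : ℝ) : ℂ) * C := by push_cast; ring
    rw [e1]
    simp only [add_re, re_ofReal_mul]
    ring
  rw [e]
  have := mul_le_mul_of_nonneg_left (h p.1 p.2) Real.pi_pos.le
  linarith

/-- the Gaussian integral over the plane, squared -/
lemma gauss2 {A B C : ℂ} {κ : ℝ} (hκ : 0 < κ)
    (h : ∀ x y : ℝ, κ * (x ^ 2 + y ^ 2) ≤ A.re * x ^ 2 + 2 * B.re * x * y + C.re * y ^ 2) :
    (∫ p : ℝ × ℝ, cexp (-Real.pi * (A * (p.1 : ℂ) ^ 2 + 2 * B * p.1 * p.2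
      + C * (p.2 : ℂ) ^ 2))) ^ 2 * (A * C - B ^ 2) = 1 := by
  obtain ⟨hA, hS⟩ := schur_re hκ h
  have hA0 : A ≠ 0 := by rintro rfl; simp at hA
  have hS0 : C - B ^ 2 / A ≠ 0 := by intro h0; rw [h0] at hS; simp at hS
  have hpi : (Real.pi : ℂ) ≠ 0 := by exact_mod_cast Real.pi_ne_zero
  have h1 : ∫ p : ℝ × ℝ, cexp (-Real.pi * (A * (p.1 : ℂ) ^ 2 + 2 * B * p.1 * p.2
      + C * (p.2 : ℂ) ^ 2)) = (Real.pi / (Real.pi * A)) ^ (1 / 2 : ℂ) *
        (Real.pi / (Real.pi * (C - B ^ 2 / A))) ^ (1 / 2 : ℂ) := by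
    rw [Measure.volume_eq_prod, integral_prod_symm _ (gauss2_int hκ h)]
    have inner : ∀ y : ℝ, ∫ x : ℝ, cexp (-Real.pi * (A * (x : ℂ) ^ 2 + 2 * B * x * y
        + C * (y : ℂ) ^ 2)) = (Real.pi / (Real.pi * A)) ^ (1 / 2 : ℂ) *
          cexp (-(Real.pi * (C - B ^ 2 / A)) * (y : ℂ) ^ 2 + 0 * y + 0) := by
      intro y
      have hb : (-(Real.pi * A)).re < 0 := by
        rw [neg_re, re_ofReal_mul]
        have := mul_pos Real.pi_pos hA
        linarith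
      have e := integral_cexp_quadratic hb (-2 * Real.pi * B * y) (-Real.pi * C * (y : ℂ) ^ 2)
      rw [neg_neg] at e
      have e2 : ∀ x : ℝ, cexp (-Real.pi * (A * (x : ℂ) ^ 2 + 2 * B * x * y + C * (y : ℂ) ^ 2)) =
          cexp (-(Real.pi * A) * (x : ℂ) ^ 2 + (-2 * Real.pi * B * y) * x +
            (-Real.pi * C * (y : ℂ) ^ 2)) := by
        intro x; congr 1; ring
      simp_rw [e2]
      rw [e]
      congr 2
      field_simp
      ring
    simp_rw [inner]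
    rw [integral_const_mul]
    have hb : (-(Real.pi * (C - B ^ 2 / A))).re < 0 := by
      rw [neg_re, re_ofReal_mul]
      have := mul_pos Real.pi_pos hS
      linarith
    have e := integral_cexp_quadratic hb 0 0
    rw [neg_neg] at e
    rw [e]
    simp
  rw [h1, mul_pow]
  have sq : ∀ z : ℂ, (z ^ (1 / 2 : ℂ)) ^ 2 = z := by
    intro z
    rw [← cpow_nat_mul]
    norm_num
  rw [sq, sq]
  have hD : A * C - B ^ 2 ≠ 0 := by
    have : A * C - B ^ 2 = A * (C - B ^ 2 / A) := by field_simp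
    rw [this]
    exact mul_ne_zero hA0 hS0
  field_simp

end Pool.Agent.T9h83.RAY
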