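import Pool.Agent.T9h83.RAY.Blk
set_option autoImplicit false

/-! The estimate at a fixed time for products of blocks: induction over the planar blocks. -/

namespace Pool.Agent.T9h83.RAY

open Complex MeasureTheory Set
open scoped ENNReal Real ComplexConjugate

/-- the measure on the product of circles -/
noncomputable def ciP (P : ℕ) : Measure (Fin P → ℝ) := Measure.pi fun _ => cir

/-- the estimate -/
def SS (q ρ N : ℝ) (P m : ℕ) : Prop :=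
  ∃ C : ℝ≥0∞, C ≠ ∞ ∧ ∀ (h : (Fin P → ℝ) → ℂ) (g : Fin P → ℝ × (Fin P → ℝ) → ℂ)
    (b : Fin m → ℝ × (Fin P → ℝ) → ℂ), Measurable h → (∃ B, ∀ θ, ‖h θ‖ ≤ B) →
    (∀ p, PN N (g p)) → (∀ j, PN N (b j)) → ∀ t : ℝ,
    ∫⁻ x, ‖EZ (FZ h g b) t x‖ₑ ^ q ≤
      C * jb t ^ (-(ρ * (P + m / 2))) * ∫⁻ θ, ‖h θ‖ₑ ^ q ∂(ciP P)

lemma enorm_prod' {ι : Type*} (s : Finset ι) (f : ι → ℂ) : ‖∏ j ∈ s, f j‖ₑ = ∏ j ∈ s, ‖f j‖ₑ := by
  classical
  induction s using Finset.induction_on with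
  | empty => simp
  | insert a s ha ih => rw [Finset.prod_insert ha, Finset.prod_insert ha, enorm_mul, ih]

/-- the base of the induction -/
theorem SS_zero {q : ℝ} (hq2 : 2 < q) {ρ : ℝ} (hρ : ρ < q - 2) {N : ℝ} (hN : 0 ≤ N) (m : ℕ) :
    SS q ρ N 0 m := by
  obtain ⟨C, hC, hl⟩ := lin1 hq2 hρ hN
  refine ⟨C ^ m, ENNReal.pow_ne_top hC, ?_⟩
  rintro h g b hh ⟨B, hB⟩ hg hb t
  set φ : Fin m → ℝ → ℂ := fun j s => b j (s, default) with hφ
  have hφp : ∀ j, Prof N N (fun p : ℝ × ℂ => φ j p.1) := fun j =>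
    (hb j).pb.prof (c := fun _ => default) measurable_const (fun _ _ _ => rfl)
  have hφb : ∀ j s, ‖φ j s‖ ≤ N := fun j s => (hb j).bdd _
  have hE : ∀ x : ZZ 0 m, EZ (FZ h g b) t x =
      h default * ∏ j, E1 (fun s => φ j s * gs (s : ℂ)) (x.2 j) t := by
    intro x
    unfold EZ E1
    have e1 : ∀ ζ : ZZ 0 m, FZ h g b ζ * phZ t x ζ = (fun z : Fin m → ℝ => h default *
        ∏ j, (φ j (z j) * gs ((z j : ℝ) : ℂ) * ph ((x.2 j : ℝ) : ℂ) t ((z j : ℝ) : ℂ))) ζ.2 := by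
      intro ζ
      unfold FZ GZ phZ
      have e2 : arP ζ.1 = default := Subsingleton.elim _ _
      rw [e2]
      simp only [Finset.univ_eq_empty, Finset.prod_empty, one_mul, Finset.prod_mul_distrib, hφ]
      ring
    simp_rw [e1]
    rw [Measure.volume_eq_prod, integral_fun_snd
      (fun z : Fin m → ℝ => h default * ∏ j, (φ j (z j) * gs ((z j : ℝ) : ℂ) *
        ph ((x.2 j : ℝ) : ℂ) t ((z j : ℝ) : ℂ)))]
    have e3 : (volume : Measure (Fin 0 → ℂ)).real univ = 1 := by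
      simp [Measure.real, volume_pi]
    rw [e3, one_smul, integral_const_mul, integral_fintype_prod_volume_eq_prod
      (f := fun (j : Fin m) (s : ℝ) => φ j s * gs (s : ℂ) * ph ((x.2 j : ℝ) : ℂ) t (s : ℂ))]
  have hEm : ∀ j, Measurable fun y : ℝ => ‖E1 (fun s => φ j s * gs (s : ℂ)) y t‖ₑ ^ q := by
    intro j
    have hφm : Measurable (φ j) :=
      (hφp j).meas.comp (measurable_id.prodMk (measurable_const (a := (0:ℂ))))
    have h1 : Measurable fun p : ℝ × ℝ => φ j p.2 * gs ((p.2 : ℝ) : ℂ) *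
        ph ((p.1 : ℝ) : ℂ) t ((p.2 : ℝ) : ℂ) := by
      have h2 : Measurable fun p : ℝ × ℝ => (((p.1 : ℝ) : ℂ), ((p.2 : ℝ) : ℂ)) := by fun_prop
      have h3 := (ph_meas2 t).comp h2
      exact ((hφm.comp measurable_snd).mul (gsr_cont.measurable.comp measurable_snd)).mul h3
    unfold E1
    exact h1.stronglyMeasurable.integral_prod_right'.measurable.enorm.pow_const q
  have e4 : ∀ x : ZZ 0 m, ‖EZ (FZ h g b) t x‖ₑ ^ q = (fun _ : Fin 0 → ℂ => (1 : ℝ≥0∞)) x.1 *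
      (fun y : Fin m → ℝ => ‖h default‖ₑ ^ q *
        ∏ j, ‖E1 (fun s => φ j s * gs (s : ℂ)) (y j) t‖ₑ ^ q) x.2 := by
    intro x
    rw [hE, enorm_mul, ENNReal.mul_rpow_of_nonneg _ _ (by linarith)]
    simp only [one_mul]
    congr 1
    rw [enorm_prod', ENNReal.prod_rpow_of_nonneg (by linarith)]
  simp_rw [e4]
  have hprodm : Measurable fun y : Fin m → ℝ =>
      ∏ j, ‖E1 (fun s => φ j s * gs (s : ℂ)) (y j) t‖ₑ ^ q :=
    Finset.measurable_prod _ fun j _ => (hEm j).comp (measurable_pi_apply j)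
  rw [Measure.volume_eq_prod, lintegral_prod_mul measurable_const.aemeasurable
    (hprodm.const_mul _).aemeasurable, lintegral_const_mul _ hprodm, lint_prod hEm]
  have e5 : ∫⁻ _ : Fin 0 → ℂ, (1 : ℝ≥0∞) = 1 := by simp [volume_pi]
  have e6 : ∫⁻ θ, ‖h θ‖ₑ ^ q ∂(ciP 0) = ‖h default‖ₑ ^ q := by
    have e : ciP 0 univ = 1 := by unfold ciP; simp
    rw [lintegral_unique, e, mul_one]
    congr 3
    exact Subsingleton.elim _ _
  rw [e5, e6, one_mul]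
  have e7 : ∏ j : Fin m, ∫⁻ s : ℝ, ‖E1 (fun s => φ j s * gs (s : ℂ)) s t‖ₑ ^ q ≤
      (C * jb t ^ (-(ρ / 2))) ^ m := by
    calc _ ≤ ∏ _j : Fin m, C * jb t ^ (-(ρ / 2)) :=
          Finset.prod_le_prod' fun j _ => hl (φ j) (hφb j) (hφp j) t
      _ = _ := by simp
  calc _ ≤ ‖h default‖ₑ ^ q * (C * jb t ^ (-(ρ / 2))) ^ m := mul_le_mul' le_rfl e7
    _ = _ := by
        rw [mul_pow, ← ENNReal.rpow_natCast (jb t ^ (-(ρ / 2))), ← ENNReal.rpow_mul]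
        have : -(ρ / 2) * (m : ℝ) = -(ρ * (((0 : ℕ) : ℝ) + m / 2)) := by push_cast; ring
        rw [this]
        ring

/-- the block of functions with the first direction split off -/
noncomputable def FF {P m : ℕ} (h : (Fin (P + 1) → ℝ) → ℂ)
    (g : Fin (P + 1) → ℝ × (Fin (P + 1) → ℝ) → ℂ) (b : Fin m → ℝ × (Fin (P + 1) → ℝ) → ℂ)
    (r : ℝ × ℝ × ZZ P m) : ℂ :=
  FZ (fun θ' => h (cn r.2.1 θ') * g 0 (r.1, cn r.2.1 θ'))
    (fun p v => g p.succ (v.1, cn r.2.1 v.2)) (fun j v => b j (v.1, cn r.2.1 v.2)) r.2.2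

lemma FZ_cn {P m : ℕ} (h : (Fin (P + 1) → ℝ) → ℂ)
    (g : Fin (P + 1) → ℝ × (Fin (P + 1) → ℝ) → ℂ) (b : Fin m → ℝ × (Fin (P + 1) → ℝ) → ℂ)
    (a : ℂ) (ζ : ZZ P m) :
    FZ h g b (cn a ζ.1, ζ.2) = FF h g b (‖a‖ ^ 2, arg a, ζ) * gs a := by
  unfold FF FZ
  rw [GZ_cn, arP_cn]
  simp only [Fin.prod_univ_succ, cn_zero, cn_succ]
  ring

lemma FF_fac {P m : ℕ} (h : (Fin (P + 1) → ℝ) → ℂ)
    (g : Fin (P + 1) → ℝ × (Fin (P + 1) → ℝ) → ℂ) (b : Fin m → ℝ × (Fin (P + 1) → ℝ) → ℂ)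
    (u a : ℝ) (ζ : ZZ P m) :
    FF h g b (u, a, ζ) = g 0 (u, cn a (arP ζ.1)) *
      FZ (fun θ' => h (cn a θ')) (fun p v => g p.succ (v.1, cn a v.2))
        (fun j v => b j (v.1, cn a v.2)) ζ := by
  unfold FF FZ
  ring

lemma FF_meas {P m : ℕ} {h : (Fin (P + 1) → ℝ) → ℂ} (hh : Measurable h)
    {g : Fin (P + 1) → ℝ × (Fin (P + 1) → ℝ) → ℂ} (hg : ∀ p, Measurable (g p))
    {b : Fin m → ℝ × (Fin (P + 1) → ℝ) → ℂ} (hb : ∀ j, Measurable (b j)) :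
    Measurable (FF h g b) := by
  have c1 : Measurable fun r : (ℝ × ℝ) × (Fin P → ℝ) => cn r.1.2 r.2 := by
    have a1 : Measurable fun r : (ℝ × ℝ) × (Fin P → ℝ) => (r.1.2, r.2) := by fun_prop
    have a2 := cn_meas.comp a1
    exact a2
  have c2 : Measurable fun r : (ℝ × ℝ) × (ℝ × (Fin P → ℝ)) => (r.2.1, cn r.1.2 r.2.2) := by
    have a1 : Measurable fun r : (ℝ × ℝ) × (ℝ × (Fin P → ℝ)) => (r.1.2, r.2.2) := by fun_prop
    have a2 := cn_meas.comp a1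
    have a3 : Measurable fun r : (ℝ × ℝ) × (ℝ × (Fin P → ℝ)) => r.2.1 := by fun_prop
    exact a3.prodMk a2
  have c3 : Measurable fun r : (ℝ × ℝ) × (Fin P → ℝ) =>
      h (cn r.1.2 r.2) * g 0 (r.1.1, cn r.1.2 r.2) := by
    have a1 : Measurable fun r : (ℝ × ℝ) × (Fin P → ℝ) => (r.1.1, cn r.1.2 r.2) :=
      (measurable_fst.comp measurable_fst).prodMk c1
    have a2 := (hg 0).comp a1
    exact (hh.comp c1).mul a2
  have h1 := FZ_meas (Y := ℝ × ℝ) (P := P) (m := m)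
    (h := fun r => h (cn r.1.2 r.2) * g 0 (r.1.1, cn r.1.2 r.2)) c3
    (g := fun p r => g p.succ (r.2.1, cn r.1.2 r.2.2)) (fun p => (hg p.succ).comp c2)
    (b := fun j r => b j (r.2.1, cn r.1.2 r.2.2)) (fun j => (hb j).comp c2)
  have h2 : Measurable fun r : ℝ × ℝ × ZZ P m => ((r.1, r.2.1), r.2.2) := by fun_prop
  have h3 := h1.comp h2
  exact h3

lemma Fh_mul (φ : ℝ → ℂ) (c : ℂ) (τ : ℝ) : Fh (fun u => φ u * c) τ = Fh φ τ * c := by
  unfold Fh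
  rw [← integral_mul_const]
  congr 1; funext u
  ring

lemma FF_Fh {P m : ℕ} (h : (Fin (P + 1) → ℝ) → ℂ)
    (g : Fin (P + 1) → ℝ × (Fin (P + 1) → ℝ) → ℂ) (b : Fin m → ℝ × (Fin (P + 1) → ℝ) → ℂ)
    (τ a : ℝ) (ζ : ZZ P m) :
    Fh (fun u => FF h g b (u, a, ζ)) τ =
      FZ (fun θ' => h (cn a θ') * Fh (fun u => g 0 (u, cn a θ')) τ)
        (fun p v => g p.succ (v.1, cn a v.2)) (fun j v => b j (v.1, cn a v.2)) ζ := by
  simp_rw [FF_fac]
  rw [Fh_mul]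
  unfold FZ
  ring

lemma FF_PS {P m : ℕ} {h : (Fin (P + 1) → ℝ) → ℂ} (hm : Measurable h) {B N : ℝ}
    (hh : ∀ θ, ‖h θ‖ ≤ B) {g : Fin (P + 1) → ℝ × (Fin (P + 1) → ℝ) → ℂ} (hg : ∀ p, PN N (g p))
    {b : Fin m → ℝ × (Fin (P + 1) → ℝ) → ℂ} (hb : ∀ j, PN N (b j)) :
    ∃ A : ℝ, 0 ≤ A ∧ PS (volume : Measure (ZZ P m)) A A (FF h g b) := by
  have hB : 0 ≤ B := (norm_nonneg _).trans (hh 0)
  have hN : 0 ≤ N := (norm_nonneg _).trans ((hg 0).bdd (0, 0))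
  set c0 : ℝ := B * (N ^ P * N ^ m) with hc0
  have hc : 0 ≤ c0 := by positivity
  set G1 : ℝ≥0∞ := ∫⁻ ζ : ZZ P m, ‖GZ ζ‖ₑ with hG1
  have hG1f : G1 ≠ ∞ := (GZ_int (P := P) (m := m)).2.ne
  have hR : ∀ (a : ℝ) (ζ : ZZ P m), ‖FZ (fun θ' => h (cn a θ'))
      (fun p v => g p.succ (v.1, cn a v.2)) (fun j v => b j (v.1, cn a v.2)) ζ‖ₑ ≤
      ENNReal.ofReal c0 * ‖GZ ζ‖ₑ := by
    intro a ζ
    have h1 := FZ_bd (h := fun θ' => h (cn a θ')) (g := fun p v => g p.succ (v.1, cn a v.2))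
      (b := fun j v => b j (v.1, cn a v.2)) (B := B) (N := N) (fun θ => hh _)
      (fun p => (hg p.succ).slice a) (fun j => (hb j).slice a) ζ
    rw [← ofReal_norm, ← ofReal_norm, ← ENNReal.ofReal_mul hc]
    exact ENNReal.ofReal_le_ofReal h1
  set A : ℝ := N * (c0 * G1.toReal) with hA
  have hA0 : 0 ≤ A := by positivity
  have hfin : ∀ s : ℝ, 0 ≤ s → ENNReal.ofReal s * (ENNReal.ofReal c0 * G1) =
      ENNReal.ofReal (s * (c0 * G1.toReal)) := by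
    intro s hs
    rw [ENNReal.ofReal_mul hs, ENNReal.ofReal_mul hc, ENNReal.ofReal_toReal hG1f]
  have hFm : Measurable (FF h g b) :=
    FF_meas hm (fun p => (hg p).pb.meas) fun j => (hb j).pb.meas
  have hca : ∀ a : ℝ, Measurable fun ζ : ZZ P m => cn a (arP ζ.1) := by
    intro a
    have a1 : Measurable fun ζ : ZZ P m => (a, arP ζ.1) :=
      measurable_const.prodMk (arP_meas.comp measurable_fst)
    have a2 := cn_meas.comp a1
    exact a2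
  refine ⟨A, hA0, hFm, ?_, ?_, ?_⟩
  · intro a
    have e1 : ∀ u (ζ : ZZ P m), ‖FF h g b (u, a, ζ)‖ₑ ≤
        ‖g 0 (u, cn a (arP ζ.1))‖ₑ * (ENNReal.ofReal c0 * ‖GZ ζ‖ₑ) := by
      intro u ζ
      rw [FF_fac, enorm_mul]
      exact mul_le_mul' le_rfl (hR a ζ)
    have hmm : Measurable fun p : ℝ × ZZ P m =>
        ‖g 0 (p.1, cn a (arP p.2.1))‖ₑ * (ENNReal.ofReal c0 * ‖GZ p.2‖ₑ) := by
      have a1 : Measurable fun p : ℝ × ZZ P m => (p.1, cn a (arP p.2.1)) :=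
        measurable_fst.prodMk ((hca a).comp measurable_snd)
      have a2 := ((hg 0).pb.meas.comp a1).enorm
      exact a2.mul ((GZ_meas.comp measurable_snd).enorm.const_mul _)
    calc ∫⁻ u, ∫⁻ ζ : ZZ P m, ‖FF h g b (u, a, ζ)‖ₑ ≤ ∫⁻ u, ∫⁻ ζ : ZZ P m,
          ‖g 0 (u, cn a (arP ζ.1))‖ₑ * (ENNReal.ofReal c0 * ‖GZ ζ‖ₑ) :=
          lintegral_mono fun u => lintegral_mono fun ζ => e1 u ζ
      _ = ∫⁻ ζ : ZZ P m, ∫⁻ u, ‖g 0 (u, cn a (arP ζ.1))‖ₑ * (ENNReal.ofReal c0 * ‖GZ ζ‖ₑ) :=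
          lintegral_lintegral_swap hmm.aemeasurable
      _ ≤ ∫⁻ ζ : ZZ P m, ENNReal.ofReal N * (ENNReal.ofReal c0 * ‖GZ ζ‖ₑ) := by
          apply lintegral_mono
          intro ζ
          simp only
          rw [lintegral_mul_const' _ _ (ENNReal.mul_ne_top ENNReal.ofReal_ne_top enorm_ne_top)]
          exact mul_le_mul' ((hg 0).pb.int _) le_rfl
      _ = ENNReal.ofReal N * (ENNReal.ofReal c0 * G1) := by
          rw [lintegral_const_mul' _ _ ENNReal.ofReal_ne_top,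
            lintegral_const_mul' _ _ ENNReal.ofReal_ne_top]
      _ = _ := hfin N hN
  · intro a k
    have e1 : ∀ u (ζ : ZZ P m), ‖FF h g b (u + k, a, ζ) - FF h g b (u, a, ζ)‖ₑ ≤
        ‖g 0 (u + k, cn a (arP ζ.1)) - g 0 (u, cn a (arP ζ.1))‖ₑ *
          (ENNReal.ofReal c0 * ‖GZ ζ‖ₑ) := by
      intro u ζ
      rw [FF_fac, FF_fac, ← sub_mul, enorm_mul]
      exact mul_le_mul' le_rfl (hR a ζ)
    have hmm : Measurable fun p : ℝ × ZZ P m =>
        ‖g 0 (p.1 + k, cn a (arP p.2.1)) - g 0 (p.1, cn a (arP p.2.1))‖ₑ *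
          (ENNReal.ofReal c0 * ‖GZ p.2‖ₑ) := by
      have a1 : Measurable fun p : ℝ × ZZ P m => (p.1, cn a (arP p.2.1)) :=
        measurable_fst.prodMk ((hca a).comp measurable_snd)
      have a0 : Measurable fun p : ℝ × ZZ P m => (p.1 + k, cn a (arP p.2.1)) :=
        (measurable_fst.add_const k).prodMk ((hca a).comp measurable_snd)
      have a2 := (((hg 0).pb.meas.comp a0).sub ((hg 0).pb.meas.comp a1)).enorm
      exact a2.mul ((GZ_meas.comp measurable_snd).enorm.const_mul _)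
    calc ∫⁻ u, ∫⁻ ζ : ZZ P m, ‖FF h g b (u + k, a, ζ) - FF h g b (u, a, ζ)‖ₑ ≤
          ∫⁻ u, ∫⁻ ζ : ZZ P m, ‖g 0 (u + k, cn a (arP ζ.1)) - g 0 (u, cn a (arP ζ.1))‖ₑ *
          (ENNReal.ofReal c0 * ‖GZ ζ‖ₑ) :=
          lintegral_mono fun u => lintegral_mono fun ζ => e1 u ζ
      _ = ∫⁻ ζ : ZZ P m, ∫⁻ u, ‖g 0 (u + k, cn a (arP ζ.1)) - g 0 (u, cn a (arP ζ.1))‖ₑ *
          (ENNReal.ofReal c0 * ‖GZ ζ‖ₑ) :=
          lintegral_lintegral_swap hmm.aemeasurable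
      _ ≤ ∫⁻ ζ : ZZ P m, ENNReal.ofReal (N * |k|) * (ENNReal.ofReal c0 * ‖GZ ζ‖ₑ) := by
          apply lintegral_mono
          intro ζ
          simp only
          rw [lintegral_mul_const' _ _ (ENNReal.mul_ne_top ENNReal.ofReal_ne_top enorm_ne_top)]
          exact mul_le_mul' ((hg 0).pb.mod _ k) le_rfl
      _ = ENNReal.ofReal (N * |k|) * (ENNReal.ofReal c0 * G1) := by
          rw [lintegral_const_mul' _ _ ENNReal.ofReal_ne_top,
            lintegral_const_mul' _ _ ENNReal.ofReal_ne_top]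
      _ = _ := by
          rw [hfin _ (by positivity)]
          congr 1
          rw [hA]; ring
  · intro u a
    have h1 := FZ_int (P := P) (m := m) (h := fun θ' => h (cn a θ') * g 0 (u, cn a θ'))
      (g := fun p v => g p.succ (v.1, cn a v.2)) (b := fun j v => b j (v.1, cn a v.2))
      (B := B * N) (N := N) ?_ ?_ (fun p => (hg p.succ).slice a) (fun j => (hb j).slice a)
    · exact h1
    · have c1 : Measurable fun θ' : Fin P → ℝ => cn a θ' := by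
        have a1 := cn_meas.comp (measurable_prodMk_left (x := a) : Measurable fun θ' : Fin P → ℝ =>
          (a, θ'))
        exact a1
      have a2 := (hg 0).pb.meas.comp (measurable_const.prodMk c1 : Measurable fun θ' : Fin P → ℝ =>
        (u, cn a θ'))
      exact (hm.comp c1).mul a2
    · intro θ'
      rw [norm_mul]
      exact mul_le_mul (hh _) ((hg 0).bdd _) (norm_nonneg _) hB

end Pool.Agent.T9h83.RAY
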