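import Pool.Agent.T9h83.RAY.Ind
set_option autoImplicit false

/-! The estimate at a fixed time for products of blocks: the step of the induction. -/

namespace Pool.Agent.T9h83.RAY

open Complex MeasureTheory Set
open scoped ENNReal Real ComplexConjugate

instance (P : ℕ) : SFinite (ciP P) := by unfold ciP; infer_instance

lemma EZ_meas {P m : ℕ} {F : ZZ P m → ℂ} (hF : Measurable F) (t : ℝ) : Measurable (EZ F t) := by
  have h1 : Measurable fun p : ZZ P m × ZZ P m => F p.2 * phZ t p.1 p.2 :=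
    (hF.comp measurable_snd).mul (phZ_meas t)
  exact h1.stronglyMeasurable.integral_prod_right'.measurable

lemma EZ_cn {P m : ℕ} {h : (Fin (P + 1) → ℝ) → ℂ} {g : Fin (P + 1) → ℝ × (Fin (P + 1) → ℝ) → ℂ}
    {b : Fin m → ℝ × (Fin (P + 1) → ℝ) → ℂ} (hI : Integrable (FZ h g b)) (t : ℝ) (x : ZZ P m)
    (x0 : ℂ) :
    EZ (FZ h g b) t (cn x0 x.1, x.2) =
      EV (fun a => (∫ ζ, FF h g b (‖a‖ ^ 2, arg a, ζ) * phZ t x ζ) * gs a) x0 t := by
  unfold EZ EV
  have hI2 : Integrable fun ζ : ZZ (P + 1) m => FZ h g b ζ * phZ t (cn x0 x.1, x.2) ζ := by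
    have hm : Measurable fun ζ : ZZ (P + 1) m => phZ t (cn x0 x.1, x.2) ζ := by
      have h1 := (phZ_meas t).comp (measurable_prodMk_left (x := (cn x0 x.1, x.2)) :
        Measurable fun ζ : ZZ (P + 1) m => (((cn x0 x.1, x.2) : ZZ (P + 1) m), ζ))
      exact h1
    exact hI.mul_bdd (c := 1) hm.aestronglyMeasurable
      (Filter.Eventually.of_forall fun ζ => (norm_phZ _ _ _).le)
  rw [int_cz hI2]
  congr 1; funext a
  have e1 : ∀ ζ : ZZ P m, FZ h g b (cn a ζ.1, ζ.2) * phZ t (cn x0 x.1, x.2) (cn a ζ.1, ζ.2) =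
      (FF h g b (‖a‖ ^ 2, arg a, ζ) * phZ t x ζ) * (gs a * ph x0 t a) := by
    intro ζ
    rw [FZ_cn, phZ_cn]
    ring
  simp_rw [e1]
  rw [integral_mul_const]
  ring

/-- the choice of `κ` -/
lemma kappa {q : ℝ} (hq2 : 2 < q) {ρ : ℝ} (hρ : ρ < q - 2) :
    ∃ κ : ℝ, 1 ≤ κ ∧ κ < 2 ∧ ρ < κ * ((q - 2) / 2) := by
  have hq0 : 0 < q - 2 := by linarith
  have ha : ρ * 2 / (q - 2) < 2 := by
    rw [div_lt_iff₀ hq0]; linarith
  refine ⟨max 1 ((ρ * 2 / (q - 2) + 2) / 2), le_max_left _ _, max_lt (by norm_num) (by linarith), ?_⟩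
  have h4 : (ρ * 2 / (q - 2) + 2) / 2 ≤ max 1 ((ρ * 2 / (q - 2) + 2) / 2) := le_max_right _ _
  have h5 : ρ * 2 / (q - 2) < max 1 ((ρ * 2 / (q - 2) + 2) / 2) := by linarith
  rw [div_lt_iff₀ hq0] at h5
  linarith

/-- **The step of the induction.** -/
theorem SS_succ {q : ℝ} (hq2 : 2 < q) (hq4 : q < 4) {ρ : ℝ} (hρ0 : 0 ≤ ρ) (hρ : ρ < q - 2)
    {N : ℝ} (hN : 0 ≤ N) {P m : ℕ} (hS : SS q ρ N P m) : SS q ρ N (P + 1) m := by
  obtain ⟨κ, k1, k2, k3⟩ := kappa hq2 hρ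
  obtain ⟨C1, hC1, hst⟩ := planarStep k1 k2 hq2 hq4
  obtain ⟨C2, hC2, hih⟩ := hS
  have hq0 : 0 < q := by linarith
  set γ := κ * ((q - 2) / 2) / q with hγ
  set γ' := ρ / q with hγ'
  have hγ'0 : 0 ≤ γ' := by positivity
  have hγγ : γ' < γ := by rw [hγ, hγ']; gcongr
  have hγ'1 : γ' ≤ 1 := by
    rw [hγ', div_le_one hq0]; linarith
  obtain ⟨K, hK, hkt⟩ := kt_int hγ'0 hγγ hγ'1
  have h2N : ENNReal.ofReal (2 * N) ^ q ≠ ∞ :=
    ENNReal.rpow_ne_top_of_nonneg hq0.le ENNReal.ofReal_ne_top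
  refine ⟨K ^ q * (C1 * (C2 * ENNReal.ofReal (2 * N) ^ q)), ENNReal.mul_ne_top
    (ENNReal.rpow_ne_top_of_nonneg hq0.le hK)
    (ENNReal.mul_ne_top hC1 (ENNReal.mul_ne_top hC2 h2N)), ?_⟩
  rintro h g b hh ⟨B, hB⟩ hg hb t
  have hgm : ∀ p, Measurable (g p) := fun p => (hg p).pb.meas
  have hbm : ∀ j, Measurable (b j) := fun j => (hb j).pb.meas
  have hB0 : 0 ≤ B := (norm_nonneg _).trans (hB 0)
  have hI : Integrable (FZ h g b) := FZ_int hh hB hg hb
  obtain ⟨A, hA, hPS⟩ := FF_PS hh hB hg hb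
  have hkfin : ∫⁻ τ, kt γ t τ ≠ ∞ := by
    refine ne_top_of_le_ne_top (ENNReal.mul_ne_top hK ?_) (hkt t)
    exact ENNReal.rpow_ne_top_of_ne_zero (jb_ne_zero t) (jb_ne_top t)
  have hEm : Measurable fun x : ZZ (P + 1) m => ‖EZ (FZ h g b) t x‖ₑ ^ q :=
    (EZ_meas (FZ_meas1 hh hgm hbm) t).enorm.pow_const q
  rw [lint_cz hEm]
  simp_rw [EZ_cn hI t]
  refine (hst t hkfin hA hA hPS (ν := (volume : Measure (ZZ P m)))
    (φ := fun p : ZZ P m × ZZ P m => phZ t p.1 p.2) (phZ_meas t)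
    (fun p => (norm_phZ _ _ _).le)).trans ?_
  simp only
  set R : ℝ≥0∞ := jb t ^ (-(ρ * (P + m / 2))) with hR
  set J : ℝ≥0∞ := ∫⁻ θ, ‖h θ‖ₑ ^ q ∂(ciP (P + 1)) with hJ
  -- the inner estimate
  have key : ∀ τ : ℝ, jb τ ^ q * ∫⁻ θ, (∫⁻ x : ZZ P m,
      ‖∫ ζ, Fh (fun u => FF h g b (u, θ, ζ)) τ * phZ t x ζ‖ₑ ^ q) ∂cir ≤
      C2 * ENNReal.ofReal (2 * N) ^ q * R * J := by
    intro τ
    have hjq : jb τ ^ q ≠ ∞ := ENNReal.rpow_ne_top_of_nonneg hq0.le (jb_ne_top _)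
    rw [← lintegral_const_mul' _ _ hjq]
    have e1 : ∀ θ : ℝ, jb τ ^ q * ∫⁻ x : ZZ P m,
        ‖∫ ζ, Fh (fun u => FF h g b (u, θ, ζ)) τ * phZ t x ζ‖ₑ ^ q ≤
        C2 * ENNReal.ofReal (2 * N) ^ q * R * ∫⁻ θ', ‖h (cn θ θ')‖ₑ ^ q ∂(ciP P) := by
      intro θ
      set h' : (Fin P → ℝ) → ℂ := fun θ' => h (cn θ θ') * Fh (fun u => g 0 (u, cn θ θ')) τ with hh'
      have c1 : Measurable fun θ' : Fin P → ℝ => cn θ θ' := by
        have a1 := cn_meas.comp (measurable_prodMk_left (x := θ) : Measurable fun θ' : Fin P → ℝ =>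
          (θ, θ'))
        exact a1
      have h'm : Measurable h' := by
        have a2 := (Fh_meas (hgm 0)).comp (measurable_const.prodMk c1 :
          Measurable fun θ' : Fin P → ℝ => (τ, cn θ θ'))
        exact (hh.comp c1).mul a2
      have hFb : ∀ θ' : Fin P → ℝ, ‖Fh (fun u => g 0 (u, cn θ θ')) τ‖ ≤ N := by
        intro θ'
        have h3 := Fh_bd0 (hg 0).pb (cn θ θ') τ
        rw [← ofReal_norm] at h3
        exact (ENNReal.ofReal_le_ofReal_iff hN).1 h3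
      have h'b : ∀ θ', ‖h' θ'‖ ≤ B * N := by
        intro θ'
        rw [hh']
        simp only
        rw [norm_mul]
        exact mul_le_mul (hB _) (hFb θ') (norm_nonneg _) hB0
      have e2 := hih h' (fun p v => g p.succ (v.1, cn θ v.2)) (fun j v => b j (v.1, cn θ v.2))
        h'm ⟨_, h'b⟩ (fun p => (hg p.succ).slice θ) (fun j => (hb j).slice θ) t
      have e3 : ∀ x : ZZ P m, EZ (FZ h' (fun p v => g p.succ (v.1, cn θ v.2))
          (fun j v => b j (v.1, cn θ v.2))) t x =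
          ∫ ζ, Fh (fun u => FF h g b (u, θ, ζ)) τ * phZ t x ζ := by
        intro x
        unfold EZ
        congr 1; funext ζ
        rw [FF_Fh]
      simp_rw [e3] at e2
      rw [← hR] at e2
      calc _ ≤ jb τ ^ q * (C2 * R * ∫⁻ θ', ‖h' θ'‖ₑ ^ q ∂(ciP P)) := mul_le_mul' le_rfl e2
        _ = C2 * R * ∫⁻ θ', jb τ ^ q * ‖h' θ'‖ₑ ^ q ∂(ciP P) := by
            rw [lintegral_const_mul' _ _ hjq]; ring
        _ ≤ C2 * R * ∫⁻ θ', ENNReal.ofReal (2 * N) ^ q * ‖h (cn θ θ')‖ₑ ^ q ∂(ciP P) := by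
            refine mul_le_mul' le_rfl (lintegral_mono fun θ' => ?_)
            simp only
            rw [hh']
            simp only
            rw [enorm_mul, ENNReal.mul_rpow_of_nonneg _ _ hq0.le, ← mul_assoc, mul_comm,
              ← mul_assoc, ← ENNReal.mul_rpow_of_nonneg _ _ hq0.le]
            refine mul_le_mul' (ENNReal.rpow_le_rpow ?_ hq0.le) le_rfl
            have h5 := Fh_bd hN hN (hg 0).pb (cn θ θ') τ
            rw [← ofReal_norm]
            unfold jb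
            rw [← ENNReal.ofReal_mul (norm_nonneg _)]
            apply ENNReal.ofReal_le_ofReal
            linarith
        _ = _ := by
            rw [lintegral_const_mul' _ _ h2N]; ring
    refine (lintegral_mono e1).trans (le_of_eq ?_)
    have hm5 : Measurable fun θ => ‖h θ‖ₑ ^ q := hh.enorm.pow_const q
    have e6 : J = ∫⁻ θ, ∫⁻ θ', ‖h (cn θ θ')‖ₑ ^ q ∂(ciP P) ∂cir := by
      rw [hJ]
      exact lint_cn cir hm5
    have hm6 : Measurable fun θ : ℝ => ∫⁻ θ', ‖h (cn θ θ')‖ₑ ^ q ∂(ciP P) := by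
      have a1 := hm5.comp (cn_meas (P := P) (α := ℝ))
      exact a1.lintegral_prod_right'
    rw [lintegral_const_mul _ hm6, e6]
  calc _ ≤ (∫⁻ τ, kt γ t τ) ^ (q - 1) * ∫⁻ τ, kt γ t τ *
        (C1 * (C2 * ENNReal.ofReal (2 * N) ^ q * R * J)) := by
        refine mul_le_mul' le_rfl (lintegral_mono fun τ => ?_)
        exact mul_le_mul' le_rfl (mul_le_mul' le_rfl (key τ))
    _ = (∫⁻ τ, kt γ t τ) ^ q * (C1 * (C2 * ENNReal.ofReal (2 * N) ^ q * R * J)) := by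
        rw [lintegral_mul_const _ (kt_meas γ t), ← mul_assoc]
        congr 1
        have e : ∀ y : ℝ≥0∞, y ^ (q - 1) * y = y ^ q := by
          intro y
          calc y ^ (q - 1) * y = y ^ (q - 1) * y ^ (1:ℝ) := by rw [ENNReal.rpow_one]
            _ = y ^ q := by
                rw [← ENNReal.rpow_add_of_nonneg _ _ (by linarith) (by norm_num)]
                congr 1; ring
        exact e _
    _ ≤ (K * jb t ^ (-γ')) ^ q * (C1 * (C2 * ENNReal.ofReal (2 * N) ^ q * R * J)) :=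
        mul_le_mul' (ENNReal.rpow_le_rpow (hkt t) hq0.le) le_rfl
    _ = K ^ q * (C1 * (C2 * ENNReal.ofReal (2 * N) ^ q)) * (jb t ^ (-ρ) * R) * J := by
        rw [ENNReal.mul_rpow_of_nonneg _ _ hq0.le, ← ENNReal.rpow_mul]
        have : -γ' * q = -ρ := by rw [hγ']; field_simp
        rw [this]
        ring
    _ = _ := by
        rw [hR, ← ENNReal.rpow_add _ _ (jb_ne_zero t) (jb_ne_top t)]
        congr 3
        push_cast
        ring

/-- **The estimate at a fixed time.** -/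
theorem SS_all {q : ℝ} (hq2 : 2 < q) (hq4 : q < 4) {ρ : ℝ} (hρ0 : 0 ≤ ρ) (hρ : ρ < q - 2)
    {N : ℝ} (hN : 0 ≤ N) (P m : ℕ) : SS q ρ N P m := by
  induction P with
  | zero => exact SS_zero hq2 hρ hN m
  | succ P ih => exact SS_succ hq2 hq4 hρ0 hρ hN ih

end Pool.Agent.T9h83.RAY
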