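import Pool.Agent.T9h83.RAY.BS
set_option autoImplicit false

/-! The integral over space and time, all exponents. -/

namespace Pool.Agent.T9h83.RAY

open Complex MeasureTheory Set
open scoped ENNReal Real ComplexConjugate

section base

variable {Z0 X0 : Type} [MeasurableSpace Z0] [MeasurableSpace X0]
  {μ0 : Measure Z0} [IsFiniteMeasure μ0] {φ0 : (ℝ × X0) × Z0 → ℂ}

lemma polB {P m : ℕ} {φ : (Fin P → ℝ) × Z0 → ℝ≥0∞} (hφ : Measurable φ) :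
    ∫⁻ ζ : ZZ P m × Z0, φ (arP ζ.1.1, ζ.2) * ‖GZ ζ.1‖ₑ ∂(volume.prod μ0) =
      c3 ^ P * c4 ^ m * ∫⁻ v, φ v ∂((ciP P).prod μ0) := by
  have ha : Measurable fun ζ : ZZ P m × Z0 => (arP ζ.1.1, ζ.2) :=
    (arP_meas.comp (measurable_fst.comp measurable_fst)).prodMk measurable_snd
  have h1 : Measurable fun ζ : ZZ P m × Z0 => φ (arP ζ.1.1, ζ.2) * ‖GZ ζ.1‖ₑ :=
    (hφ.comp ha).mul (GZ_meas.comp measurable_fst).enorm
  have hc : c3 ^ P * c4 ^ m ≠ ∞ :=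
    ENNReal.mul_ne_top (ENNReal.pow_ne_top c3_fin) (ENNReal.pow_ne_top c4_fin)
  rw [lintegral_prod_symm _ h1.aemeasurable, lintegral_prod_symm _ hφ.aemeasurable,
    ← lintegral_const_mul' _ _ hc]
  apply lintegral_congr
  intro s
  exact polZ (φ := fun θ => φ (θ, s)) (hφ.comp measurable_prodMk_right)

lemma EB_sup (h0 : ∀ p, ‖φ0 p‖ = 1) {P m : ℕ} (F : ZZ P m × Z0 → ℂ) (t : ℝ) (x : ZZ P m × X0) :
    ‖EB μ0 φ0 F t x‖ₑ ≤ ∫⁻ ζ, ‖F ζ‖ₑ ∂(volume.prod μ0) := by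
  unfold EB
  refine (enorm_integral_le_lintegral_enorm _).trans (le_of_eq ?_)
  apply lintegral_congr
  intro ζ
  rw [enorm_mul, ← ofReal_norm (phB φ0 t x ζ), norm_phB h0, ENNReal.ofReal_one, mul_one]

lemma FB_bd1 {P m : ℕ} {h : (Fin P → ℝ) × Z0 → ℂ} {g : Fin P → ℝ × ((Fin P → ℝ) × Z0) → ℂ}
    {b : Fin m → ℝ × ((Fin P → ℝ) × Z0) → ℂ} {N : ℝ}
    (hg : ∀ p, PN N (g p)) (hb : ∀ j, PN N (b j)) (ζ : ZZ P m × Z0) :
    ‖FB h g b ζ‖ₑ ≤ ENNReal.ofReal N ^ P * ENNReal.ofReal N ^ m *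
      (‖h (arP ζ.1.1, ζ.2)‖ₑ * ‖GZ ζ.1‖ₑ) := by
  unfold FB
  rw [enorm_mul, enorm_mul, enorm_mul, enorm_prod', enorm_prod']
  have e1 : ∏ p, ‖g p (‖ζ.1.1 p‖ ^ 2, (arP ζ.1.1, ζ.2))‖ₑ ≤ ENNReal.ofReal N ^ P := by
    calc _ ≤ ∏ _p : Fin P, ENNReal.ofReal N := Finset.prod_le_prod' fun p _ => by
            rw [← ofReal_norm]; exact ENNReal.ofReal_le_ofReal ((hg p).bdd _)
      _ = _ := by simp
  have e2 : ∏ j, ‖b j (ζ.1.2 j, (arP ζ.1.1, ζ.2))‖ₑ ≤ ENNReal.ofReal N ^ m := by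
    calc _ ≤ ∏ _j : Fin m, ENNReal.ofReal N := Finset.prod_le_prod' fun j _ => by
            rw [← ofReal_norm]; exact ENNReal.ofReal_le_ofReal ((hb j).bdd _)
      _ = _ := by simp
  calc _ ≤ ‖h (arP ζ.1.1, ζ.2)‖ₑ *
        (ENNReal.ofReal N ^ P * ENNReal.ofReal N ^ m * ‖GZ ζ.1‖ₑ) :=
        mul_le_mul' le_rfl (mul_le_mul' (mul_le_mul' e1 e2) le_rfl)
    _ = _ := by ring

end base

/-- **The integral over space and time.** -/
theorem joint_FB {q : ℝ} {P m k : ℕ} (hk : k ≤ 1) (hn : 2 ≤ 2 * P + m + k)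
    (hq : 2 + 2 / ((2 * P + m + k : ℕ) : ℝ) < q) {N : ℝ} (hN : 0 ≤ N) :
    ∃ C : ℝ≥0∞, C ≠ ∞ ∧ ∀ (h : (Fin P → ℝ) × (Fin k → ℝ) → ℂ)
    (g : Fin P → ℝ × ((Fin P → ℝ) × (Fin k → ℝ)) → ℂ)
    (b : Fin m → ℝ × ((Fin P → ℝ) × (Fin k → ℝ)) → ℂ), Measurable h → (∃ B, ∀ v, ‖h v‖ ≤ B) →
    (∀ p, PN N (g p)) → (∀ j, PN N (b j)) →
    ∫⁻ t, ∫⁻ x, ‖EB (muk k) (phk k) (FB h g b) t x‖ₑ ^ q ∂(volume.prod volume) ≤
      C * ∫⁻ v, ‖h v‖ₑ ^ q ∂((ciP P).prod (muk k)) := by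
  set n : ℝ := ((2 * P + m + k : ℕ) : ℝ) with hn'
  have hn2 : (2 : ℝ) ≤ n := by rw [hn']; exact_mod_cast hn
  have hn0 : 0 < n := by linarith
  have h2n : 2 / n ≤ 1 := by rw [div_le_one hn0]; exact hn2
  have h2n0 : 0 < 2 / n := by positivity
  set s : ℝ := min q (7 / 2) with hs
  have hs1 : 2 + 2 / n < s := lt_min hq (by linarith)
  have hs4 : s < 4 := lt_of_le_of_lt (min_le_right _ _) (by norm_num)
  have hsq : s ≤ q := min_le_left _ _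
  have hs2 : 2 < s := by linarith
  have hs0 : 0 < s := by linarith
  have hq0 : 0 < q := by linarith
  obtain ⟨C, hC, hfix⟩ := TT_chain hk hn hs1 hs4 hN
  set ρ : Measure ((Fin P → ℝ) × (Fin k → ℝ)) := (ciP P).prod (muk k) with hρ
  set U : ℝ≥0∞ := ρ univ with hU
  have hUf : U ≠ ∞ := measure_ne_top _ _
  set M : ℝ≥0∞ := ENNReal.ofReal N ^ P * ENNReal.ofReal N ^ m * (c3 ^ P * c4 ^ m) with hM
  have hMf : M ≠ ∞ := by
    rw [hM]
    refine ENNReal.mul_ne_top (ENNReal.mul_ne_top ?_ ?_) (ENNReal.mul_ne_top ?_ ?_)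
    · exact ENNReal.pow_ne_top ENNReal.ofReal_ne_top
    · exact ENNReal.pow_ne_top ENNReal.ofReal_ne_top
    · exact ENNReal.pow_ne_top c3_fin
    · exact ENNReal.pow_ne_top c4_fin
  set a1 : ℝ := (q - s) / q with ha1
  set a2 : ℝ := s / q with ha2
  have ha1' : 0 ≤ a1 := div_nonneg (by linarith) hq0.le
  have ha2' : 0 ≤ a2 := by positivity
  have ha12 : a1 + a2 = 1 := by rw [ha1, ha2]; field_simp; ring
  have hsqd : 1 ≤ q / s := by rw [le_div_iff₀ hs0]; linarith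
  refine ⟨M ^ (q - s) * C * ((U ^ (q - 1)) ^ a1 * (U ^ (q / s - 1)) ^ a2), ?_, ?_⟩
  · refine ENNReal.mul_ne_top (ENNReal.mul_ne_top ?_ hC) (ENNReal.mul_ne_top ?_ ?_)
    · exact ENNReal.rpow_ne_top_of_nonneg (by linarith) hMf
    · exact ENNReal.rpow_ne_top_of_nonneg ha1' (ENNReal.rpow_ne_top_of_nonneg (by linarith) hUf)
    · exact ENNReal.rpow_ne_top_of_nonneg ha2' (ENNReal.rpow_ne_top_of_nonneg (by linarith) hUf)
  rintro h g b hh ⟨B, hB⟩ hg hb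
  set H1 : ℝ≥0∞ := ∫⁻ v, ‖h v‖ₑ ∂ρ with hH1
  set Hs : ℝ≥0∞ := ∫⁻ v, ‖h v‖ₑ ^ s ∂ρ with hHs
  set Hq : ℝ≥0∞ := ∫⁻ v, ‖h v‖ₑ ^ q ∂ρ with hHq
  have hH1f : H1 ≠ ∞ := by
    refine ne_top_of_le_ne_top (b := ENNReal.ofReal B * U) (ENNReal.mul_ne_top
      ENNReal.ofReal_ne_top hUf) ?_
    rw [hH1, hU, ← lintegral_const]
    apply lintegral_mono
    intro θ
    simp only
    rw [← ofReal_norm]
    exact ENNReal.ofReal_le_ofReal (hB θ)
  have hsup : ∀ t x, ‖EB (muk k) (phk k) (FB h g b) t x‖ₑ ≤ M * H1 := by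
    intro t x
    refine (EB_sup (norm_phk k) _ t x).trans ?_
    calc ∫⁻ ζ, ‖FB h g b ζ‖ₑ ∂(volume.prod (muk k)) ≤
          ∫⁻ ζ : ZZ P m × (Fin k → ℝ), ENNReal.ofReal N ^ P * ENNReal.ofReal N ^ m *
          (‖h (arP ζ.1.1, ζ.2)‖ₑ * ‖GZ ζ.1‖ₑ) ∂(volume.prod (muk k)) :=
          lintegral_mono fun ζ => FB_bd1 hg hb ζ
      _ = ENNReal.ofReal N ^ P * ENNReal.ofReal N ^ m * (c3 ^ P * c4 ^ m * H1) := by
          rw [lintegral_const_mul' _ _ (ENNReal.mul_ne_top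
            (ENNReal.pow_ne_top ENNReal.ofReal_ne_top) (ENNReal.pow_ne_top ENNReal.ofReal_ne_top)),
            polB (φ := fun v => ‖h v‖ₑ) hh.enorm]
      _ = _ := by rw [hM]; ring
  have hMH : (M * H1) ^ (q - s) ≠ ∞ :=
    ENNReal.rpow_ne_top_of_nonneg (by linarith) (ENNReal.mul_ne_top hMf hH1f)
  have hpow : ∀ t x, ‖EB (muk k) (phk k) (FB h g b) t x‖ₑ ^ q ≤
      (M * H1) ^ (q - s) * ‖EB (muk k) (phk k) (FB h g b) t x‖ₑ ^ s := by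
    intro t x
    calc ‖EB (muk k) (phk k) (FB h g b) t x‖ₑ ^ q =
          ‖EB (muk k) (phk k) (FB h g b) t x‖ₑ ^ (q - s) *
          ‖EB (muk k) (phk k) (FB h g b) t x‖ₑ ^ s := by
          rw [← ENNReal.rpow_add_of_nonneg _ _ (by linarith) (by linarith)]
          congr 1; ring
      _ ≤ _ := mul_le_mul' (ENNReal.rpow_le_rpow (hsup t x) (by linarith)) le_rfl
  have b1 : H1 ^ (q - s) ≤ (U ^ (q - 1) * Hq) ^ a1 := by
    have e1 : H1 ^ (q - s) = (H1 ^ q) ^ a1 := by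
      rw [← ENNReal.rpow_mul]; congr 1; rw [ha1]; field_simp
    rw [e1]
    apply ENNReal.rpow_le_rpow _ ha1'
    exact hoel hh.enorm (by linarith)
  have b2 : Hs ≤ (U ^ (q / s - 1) * Hq) ^ a2 := by
    have e1 : Hs = (Hs ^ (q / s)) ^ a2 := by
      rw [← ENNReal.rpow_mul]
      have : q / s * a2 = 1 := by rw [ha2]; field_simp
      rw [this, ENNReal.rpow_one]
    rw [e1]
    apply ENNReal.rpow_le_rpow _ ha2'
    have h3 := hoel (μ := ρ) (hh.enorm.pow_const s) hsqd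
    refine h3.trans (le_of_eq ?_)
    congr 1
    apply lintegral_congr
    intro θ
    rw [← ENNReal.rpow_mul]
    congr 1; field_simp
  have h1 := hfix h g b hh ⟨B, hB⟩ hg hb 0
  simp only [neg_zero, ENNReal.rpow_zero, one_mul] at h1
  calc ∫⁻ t, ∫⁻ x, ‖EB (muk k) (phk k) (FB h g b) t x‖ₑ ^ q ∂(volume.prod volume) ≤
        ∫⁻ t, (M * H1) ^ (q - s) *
          ∫⁻ x, ‖EB (muk k) (phk k) (FB h g b) t x‖ₑ ^ s ∂(volume.prod volume) := by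
        apply lintegral_mono
        intro t
        simp only
        refine (lintegral_mono (hpow t)).trans ?_
        rw [lintegral_const_mul' _ _ hMH]
    _ = (M * H1) ^ (q - s) *
          ∫⁻ t, ∫⁻ x, ‖EB (muk k) (phk k) (FB h g b) t x‖ₑ ^ s ∂(volume.prod volume) :=
        lintegral_const_mul' _ _ hMH
    _ ≤ (M * H1) ^ (q - s) * (C * Hs) := mul_le_mul' le_rfl h1
    _ = M ^ (q - s) * C * (H1 ^ (q - s) * Hs) := by
        rw [ENNReal.mul_rpow_of_nonneg _ _ (by linarith)]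
        ring
    _ ≤ M ^ (q - s) * C * ((U ^ (q - 1) * Hq) ^ a1 * (U ^ (q / s - 1) * Hq) ^ a2) :=
        mul_le_mul' le_rfl (mul_le_mul' b1 b2)
    _ = _ := by
        rw [ENNReal.mul_rpow_of_nonneg _ _ ha1', ENNReal.mul_rpow_of_nonneg _ _ ha2']
        have e : Hq ^ a1 * Hq ^ a2 = Hq := by
          rw [← ENNReal.rpow_add_of_nonneg _ _ ha1' ha2', ha12, ENNReal.rpow_one]
        calc _ = M ^ (q - s) * C * ((U ^ (q - 1)) ^ a1 * (U ^ (q / s - 1)) ^ a2) *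
              (Hq ^ a1 * Hq ^ a2) := by ring
          _ = _ := by rw [e]

end Pool.Agent.T9h83.RAY
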