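import Pool.Agent.T9h83.RAY.JProf
set_option autoImplicit false

/-! Profiles with an arbitrary parameter. -/

namespace Pool.Agent.T9h83.RAY

open Complex MeasureTheory Set
open scoped ENNReal Real ComplexConjugate

section

variable {Y : Type} [MeasurableSpace Y]

/-- the profile of a function on a planar block; `a` is the angle -/
noncomputable def gtY (L : ℝ) (c : ℂ) (a : Y → ℝ) (g : ℝ × Y → ℂ) (v : ℝ × Y) : ℂ :=
  (Sr c (cexp ((a v.2 : ℝ) * I))).indicator (fun u => g (Real.sqrt u, v.2)) v.1 * (ew L v.1 : ℝ)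

/-- the hypotheses on a function on a planar block -/
structure RBY (c : ℂ) (a : Y → ℝ) (g : ℝ × Y → ℂ) : Prop where
  meas : Measurable g
  bdd : ∀ (y : Y) (r : ℝ), 0 < r → c + r * cexp ((a y : ℝ) * I) ∈ Qs → ‖g (r, y)‖ ≤ 1
  var : ∀ y : Y, eVariationOn (fun r => g (r, y))
    {r : ℝ | 0 < r ∧ c + r * cexp ((a y : ℝ) * I) ∈ Qs} ≤ 1

lemma gtY_PN {R : ℝ} (hR : 0 ≤ R) {c : ℂ} (hc : ‖c‖ ≤ R) {a : Y → ℝ} (ha : Measurable a)
    {g : ℝ × Y → ℂ} (hg : RBY c a g) : PN (NN R) (gtY ((R + 2) ^ 2) c a g) := by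
  set L := (R + 2) ^ 2 with hL
  have hL0 : 0 ≤ L := by positivity
  set W := Real.exp (π * L) with hW
  have hW0 : 0 < W := Real.exp_pos _
  have hpi := Real.pi_pos
  have hNN : NN R = W + (L * W + (3 * W + L * (W * π))) := rfl
  have he : ∀ a : ℝ, ‖cexp ((a : ℝ) * I)‖ = 1 := fun a => norm_exp_ofReal_mul_I a
  have hbd : ∀ y : Y, ∀ u ∈ Sr c (cexp ((a y : ℝ) * I)), ‖g (Real.sqrt u, y)‖ ≤ 1 :=
    fun y u hu => hg.bdd y _ (Real.sqrt_pos.2 hu.1) hu.2
  have hvar : ∀ y : Y, eVariationOn (fun u => g (Real.sqrt u, y))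
      (Sr c (cexp ((a y : ℝ) * I))) ≤ 1 := by
    intro y
    refine le_trans ?_ (hg.var y)
    have := eVariationOn.comp_le_of_monotoneOn (fun r : ℝ => g (r, y))
      (s := {r : ℝ | 0 < r ∧ c + r * cexp ((a y : ℝ) * I) ∈ Qs})
      (t := Sr c (cexp ((a y : ℝ) * I))) (fun u => Real.sqrt u)
      (fun u _ v _ huv => Real.sqrt_le_sqrt huv)
      (fun u hu => ⟨Real.sqrt_pos.2 hu.1, hu.2⟩)
    exact this
  refine ⟨⟨?_, ?_, ?_⟩, ?_⟩
  · -- measurability
    have hd : Measurable fun v : ℝ × Y => cexp ((a v.2 : ℝ) * I) := by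
      have h1 : Measurable fun v : ℝ × Y => ((a v.2 : ℝ) : ℂ) :=
        measurable_ofReal.comp (ha.comp measurable_snd)
      exact (h1.mul_const I).cexp
    have hs : Measurable fun v : ℝ × Y =>
        c + (Real.sqrt v.1 : ℝ) * cexp ((a v.2 : ℝ) * I) :=
      measurable_const.add
        ((measurable_ofReal.comp (Real.continuous_sqrt.measurable.comp measurable_fst)).mul hd)
    have hset : MeasurableSet {v : ℝ × Y | 0 < v.1 ∧
        c + (Real.sqrt v.1 : ℝ) * cexp ((a v.2 : ℝ) * I) ∈ Qs} :=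
      (measurableSet_lt measurable_const measurable_fst).inter (hs Qs_meas)
    have e : gtY L c a g = fun v : ℝ × Y =>
        {v : ℝ × Y | 0 < v.1 ∧
          c + (Real.sqrt v.1 : ℝ) * cexp ((a v.2 : ℝ) * I) ∈ Qs}.indicator
          (fun v => g (Real.sqrt v.1, v.2)) v * (ew L v.1 : ℝ) := by
      funext v
      unfold gtY
      congr 1
    rw [e]
    have hgs : Measurable fun v : ℝ × Y => g (Real.sqrt v.1, v.2) := by
      have a1 : Measurable fun v : ℝ × Y => (Real.sqrt v.1, v.2) :=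
        (Real.continuous_sqrt.measurable.comp measurable_fst).prodMk measurable_snd
      have a2 := hg.meas.comp a1
      exact a2
    exact (hgs.indicator hset).mul
      (measurable_ofReal.comp ((ew_cont L).measurable.comp measurable_fst))
  · intro y
    refine (core_int hL0 (Sr_sub hc (he _)) (hbd y)).trans (ENNReal.ofReal_le_ofReal ?_)
    rw [hNN]
    have : 0 ≤ 3 * W + L * (W * π) := by positivity
    linarith
  · intro y k
    refine (core_mod (Sr_ord _ _) (Sr_meas _ _) hL0 (Sr_sub hc (he _)) (hbd y) (hvar y) k).trans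
      (ENNReal.ofReal_le_ofReal ?_)
    rw [hNN]
    apply mul_le_mul_of_nonneg_right _ (abs_nonneg k)
    have : 0 ≤ L * W := by positivity
    linarith
  · intro v
    refine (core_bd hL0 (hbd v.2) v.1).trans ?_
    rw [hNN]
    have : 0 ≤ L * W + (3 * W + L * (W * π)) := by positivity
    linarith

/-- the profile of a function on a line -/
noncomputable def btY (b : ℝ × Y → ℂ) (v : ℝ × Y) : ℂ :=
  (Icc (-1 : ℝ) 1).indicator (fun s => b (s, v.2)) v.1 * (el v.1 : ℝ)

/-- the hypotheses on a function on a line -/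
structure LBY (b : ℝ × Y → ℂ) : Prop where
  meas : Measurable b
  bdd : ∀ (y : Y) (s : ℝ), |s| ≤ 1 → ‖b (s, y)‖ ≤ 1
  var : ∀ y : Y, eVariationOn (fun s => b (s, y)) (Icc (-1) 1) ≤ 1

lemma btY_PN {R : ℝ} (hR : 0 ≤ R) {b : ℝ × Y → ℂ} (hb : LBY b) : PN (NN R) (btY b) := by
  set L := (R + 2) ^ 2 with hL
  have hL4 : 4 ≤ L := by rw [hL]; nlinarith
  have hL0 : 0 ≤ L := by linarith
  set W := Real.exp (π * L) with hW
  have hW0 : 0 < W := Real.exp_pos _
  have hpi := Real.pi_pos
  have hNN : NN R = W + (L * W + (3 * W + L * (W * π))) := rfl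
  set E := Real.exp π with hE
  have hE0 : 0 < E := Real.exp_pos _
  have hEW : E ≤ W := by
    apply Real.exp_le_exp.2
    nlinarith
  have hbd : ∀ y : Y, ∀ u ∈ Icc (-1 : ℝ) 1, ‖b (u, y)‖ ≤ 1 := fun y u hu =>
    hb.bdd y u (abs_le.2 hu)
  have hb1 : ∀ v : ℝ × Y, ‖btY b v‖ ≤ E := by
    intro v
    unfold btY
    rw [norm_mul, norm_real, Real.norm_eq_abs, abs_of_pos (el_pos _)]
    calc _ ≤ 1 * E := mul_le_mul (ind_le (hbd v.2) v.1) (el_le _) (el_pos _).le zero_le_one
      _ = _ := one_mul _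
  refine ⟨⟨?_, ?_, ?_⟩, ?_⟩
  · have e : btY b = fun v : ℝ × Y =>
        {v : ℝ × Y | v.1 ∈ Icc (-1 : ℝ) 1}.indicator b v * (el v.1 : ℝ) := by
      funext v
      unfold btY
      congr 1
    rw [e]
    exact (hb.meas.indicator (measurable_fst measurableSet_Icc)).mul
      (measurable_ofReal.comp (el_cont.measurable.comp measurable_fst))
  · intro y
    have h1 : ∀ u, ‖btY b (u, y)‖ₑ ≤
        (Icc (-1 : ℝ) 1).indicator (fun _ => ENNReal.ofReal E) u := by
      intro u
      by_cases h : u ∈ Icc (-1 : ℝ) 1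
      · rw [indicator_of_mem h, ← ofReal_norm]
        exact ENNReal.ofReal_le_ofReal (hb1 _)
      · unfold btY
        simp only
        rw [indicator_of_notMem h, indicator_of_notMem h, zero_mul, enorm_zero]
    refine (lintegral_mono h1).trans ?_
    rw [lintegral_indicator measurableSet_Icc, setLIntegral_const, Real.volume_Icc,
      ← ENNReal.ofReal_mul hE0.le]
    apply ENNReal.ofReal_le_ofReal
    rw [hNN]
    have h2 : 0 ≤ 3 * W + L * (W * π) := by positivity
    have h3 : 2 * E ≤ L * W := by nlinarith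
    linarith
  · intro y k
    set gi : ℝ → ℂ := (Icc (-1 : ℝ) 1).indicator (fun s => b (s, y)) with hgi
    have hmod := bt_mod (hbd y) (hb.var y) k
    have hpt : ∀ u, ‖btY b (u + k, y) - btY b (u, y)‖ₑ ≤
        ENNReal.ofReal E * ‖gi (u + k) - gi u‖ₑ +
          (Icc (-1 : ℝ) 1).indicator (fun _ => ENNReal.ofReal (E * π * (2 * |k|))) u := by
      intro u
      have e1 : btY b (u + k, y) - btY b (u, y) =
          (gi (u + k) - gi u) * (el (u + k) : ℝ) +
            gi u * ((el (u + k) - el u : ℝ) : ℂ) := by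
        unfold btY
        push_cast; ring
      rw [e1]
      refine (enorm_add_le _ _).trans (add_le_add ?_ ?_)
      · rw [enorm_mul, mul_comm]
        refine mul_le_mul' ?_ le_rfl
        rw [← ofReal_norm, norm_real, Real.norm_eq_abs, abs_of_pos (el_pos _)]
        exact ENNReal.ofReal_le_ofReal (el_le _)
      · by_cases hu : u ∈ Icc (-1 : ℝ) 1
        · rw [indicator_of_mem hu, ← ofReal_norm, norm_mul, norm_real, Real.norm_eq_abs]
          apply ENNReal.ofReal_le_ofReal
          have h2 := el_lip (u + k) u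
          rw [add_sub_cancel_left] at h2
          calc _ ≤ 1 * (E * π * (2 * |k|)) :=
                mul_le_mul (ind_le (hbd y) u) h2 (abs_nonneg _) zero_le_one
            _ = _ := one_mul _
        · have : gi u = 0 := indicator_of_notMem hu _
          rw [this, zero_mul, enorm_zero]
          exact zero_le
    refine (lintegral_mono hpt).trans ?_
    have hm : Measurable fun u : ℝ =>
        (Icc (-1 : ℝ) 1).indicator (fun _ => ENNReal.ofReal (E * π * (2 * |k|))) u :=
      measurable_const.indicator measurableSet_Icc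
    rw [lintegral_add_right _ hm, lintegral_const_mul' _ _ ENNReal.ofReal_ne_top,
      lintegral_indicator measurableSet_Icc, setLIntegral_const, Real.volume_Icc]
    calc ENNReal.ofReal E * (∫⁻ u, ‖gi (u + k) - gi u‖ₑ) +
          ENNReal.ofReal (E * π * (2 * |k|)) * ENNReal.ofReal (1 - (-1)) ≤
        ENNReal.ofReal E * ENNReal.ofReal (3 * |k|) +
          ENNReal.ofReal (E * π * (2 * |k|)) * ENNReal.ofReal (1 - (-1)) :=
          add_le_add (mul_le_mul' le_rfl hmod) le_rfl
      _ = ENNReal.ofReal ((3 * E + 4 * (E * π)) * |k|) := by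
          rw [← ENNReal.ofReal_mul hE0.le, ← ENNReal.ofReal_mul (by positivity),
            ← ENNReal.ofReal_add (by positivity) (by positivity)]
          congr 1
          ring
      _ ≤ _ := by
          apply ENNReal.ofReal_le_ofReal
          apply mul_le_mul_of_nonneg_right _ (abs_nonneg k)
          rw [hNN]
          have h3 : 4 * (E * π) ≤ L * (W * π) := by
            apply mul_le_mul hL4 _ (by positivity) hL0
            exact mul_le_mul_of_nonneg_right hEW hpi.le
          have h4 : 0 ≤ L * W := by positivity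
          linarith
  · intro v
    refine (hb1 v).trans ?_
    rw [hNN]
    have : 0 ≤ L * W + (3 * W + L * (W * π)) := by positivity
    linarith

lemma gtY_gs {R : ℝ} {c : ℂ} (hc : ‖c‖ ≤ R) (a : Y → ℝ) (g : ℝ × Y → ℂ)
    {ξ : ℂ} (hξ : ξ ≠ 0) {y : Y} (hy : a y = arg ξ) :
    gtY ((R + 2) ^ 2) c a g (‖ξ‖ ^ 2, y) * gs ξ =
      Qs.indicator (fun _ => g (‖ξ‖, y)) (c + ξ) := by
  have hn : 0 < ‖ξ‖ := norm_pos_iff.2 hξ
  have hs : Real.sqrt (‖ξ‖ ^ 2) = ‖ξ‖ := Real.sqrt_sq hn.le
  have hpol : (‖ξ‖ : ℂ) * cexp ((a y : ℝ) * I) = ξ := by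
    rw [hy]; exact norm_mul_exp_arg_mul_I _
  unfold gtY
  simp only
  by_cases h : c + ξ ∈ Qs
  · have h1 : ‖ξ‖ ^ 2 ∈ Sr c (cexp ((a y : ℝ) * I)) := by
      refine ⟨by positivity, ?_⟩
      rw [hs, hpol]
      exact h
    rw [indicator_of_mem h1, indicator_of_mem h, hs]
    have h2 := Sr_sub hc (norm_exp_ofReal_mul_I _) h1
    rw [ew_eq h2.1 h2.2, mul_assoc]
    unfold gs
    rw [← ofReal_mul, ← Real.exp_add]
    simp
  · have h1 : ‖ξ‖ ^ 2 ∉ Sr c (cexp ((a y : ℝ) * I)) := by
      intro h2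
      apply h
      have := h2.2
      rwa [hs, hpol] at this
    rw [indicator_of_notMem h1, indicator_of_notMem h, zero_mul, zero_mul]

lemma btY_gs (b : ℝ × Y → ℂ) (s : ℝ) (y : Y) :
    btY b (s, y) * gs (s : ℂ) = {s : ℝ | |s| ≤ 1}.indicator (fun s => b (s, y)) s := by
  have e : {s : ℝ | |s| ≤ 1} = Icc (-1) 1 := by
    ext s; simp [abs_le]
  rw [e]
  unfold btY
  simp only
  by_cases h : s ∈ Icc (-1 : ℝ) 1
  · rw [indicator_of_mem h, el_eq (abs_le.2 h), gs_real, mul_assoc, ← ofReal_mul,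
      ← Real.exp_add]
    simp
  · rw [indicator_of_notMem h, zero_mul, zero_mul]

lemma gtY_meas {Λ : Type*} [MeasurableSpace Λ] (L : ℝ) (c : ℂ) {a : Y → ℝ} (ha : Measurable a)
    {g : Λ × (ℝ × Y) → ℂ} (hg : Measurable g) :
    Measurable fun r : Λ × (ℝ × Y) => gtY L c a (fun v => g (r.1, v)) r.2 := by
  have hs : Measurable fun r : Λ × (ℝ × Y) =>
      c + (Real.sqrt r.2.1 : ℝ) * cexp ((a r.2.2 : ℝ) * I) := by
    have h1 : Measurable fun r : Λ × (ℝ × Y) => r.2.1 := by fun_prop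
    have h3 : Measurable fun r : Λ × (ℝ × Y) => ((a r.2.2 : ℝ) : ℂ) :=
      measurable_ofReal.comp (ha.comp (measurable_snd.comp measurable_snd))
    have h2 : Measurable fun r : Λ × (ℝ × Y) => cexp ((a r.2.2 : ℝ) * I) :=
      (h3.mul_const I).cexp
    exact measurable_const.add
      ((measurable_ofReal.comp (Real.continuous_sqrt.measurable.comp h1)).mul h2)
  have hset : MeasurableSet {r : Λ × (ℝ × Y) | 0 < r.2.1 ∧
      c + (Real.sqrt r.2.1 : ℝ) * cexp ((a r.2.2 : ℝ) * I) ∈ Qs} :=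
    (measurableSet_lt measurable_const (measurable_fst.comp measurable_snd)).inter (hs Qs_meas)
  have e : (fun r : Λ × (ℝ × Y) => gtY L c a (fun v => g (r.1, v)) r.2) =
      fun r : Λ × (ℝ × Y) => {r : Λ × (ℝ × Y) | 0 < r.2.1 ∧
        c + (Real.sqrt r.2.1 : ℝ) * cexp ((a r.2.2 : ℝ) * I) ∈ Qs}.indicator
        (fun r => g (r.1, (Real.sqrt r.2.1, r.2.2))) r * (ew L r.2.1 : ℝ) := by
    funext r
    unfold gtY
    congr 1
  rw [e]
  have hgs : Measurable fun r : Λ × (ℝ × Y) => g (r.1, (Real.sqrt r.2.1, r.2.2)) := by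
    have a1 : Measurable fun r : Λ × (ℝ × Y) => (r.1, (Real.sqrt r.2.1, r.2.2)) :=
      measurable_fst.prodMk ((Real.continuous_sqrt.measurable.comp
        (measurable_fst.comp measurable_snd)).prodMk (measurable_snd.comp measurable_snd))
    have a2 := hg.comp a1
    exact a2
  exact (hgs.indicator hset).mul
    (measurable_ofReal.comp ((ew_cont L).measurable.comp (measurable_fst.comp measurable_snd)))

lemma btY_meas {Λ : Type*} [MeasurableSpace Λ]
    {b : Λ × (ℝ × Y) → ℂ} (hb : Measurable b) :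
    Measurable fun r : Λ × (ℝ × Y) => btY (fun v => b (r.1, v)) r.2 := by
  have e : (fun r : Λ × (ℝ × Y) => btY (fun v => b (r.1, v)) r.2) =
      fun r : Λ × (ℝ × Y) =>
        {r : Λ × (ℝ × Y) | r.2.1 ∈ Icc (-1 : ℝ) 1}.indicator b r * (el r.2.1 : ℝ) := by
    funext r
    unfold btY
    congr 1
  rw [e]
  have h1 : Measurable fun r : Λ × (ℝ × Y) => r.2.1 := by fun_prop
  exact (hb.indicator (h1 measurableSet_Icc)).mul
    (measurable_ofReal.comp (el_cont.measurable.comp h1))

end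

end Pool.Agent.T9h83.RAY
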