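import Pool.Agent.T9h83.RAY.Ind2
set_option autoImplicit false

/-! The integral in time. -/

namespace Pool.Agent.T9h83.RAY

open Complex MeasureTheory Set
open scoped ENNReal Real ComplexConjugate

/-- the radial part of the Gaussian weight -/
noncomputable def vr (r : ℝ) : ℝ≥0∞ := ENNReal.ofReal (Real.exp (-π * r ^ 2))

lemma vr_meas : Measurable vr := by
  unfold vr
  exact ENNReal.measurable_ofReal.comp (by fun_prop)

lemma enorm_gs (ξ : ℂ) : ‖gs ξ‖ₑ = vr ‖ξ‖ := by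
  rw [← ofReal_norm, norm_gs]; rfl

/-- the constant -/
noncomputable def c3 : ℝ≥0∞ := ∫⁻ r in Ioi (0:ℝ), ENNReal.ofReal r * vr r

lemma pol1 {φ : ℝ → ℝ≥0∞} (hφ : Measurable φ) :
    ∫⁻ ξ : ℂ, φ (arg ξ) * ‖gs ξ‖ₑ = c3 * ∫⁻ θ, φ θ ∂cir := by
  rw [c3, ← polar_sep hφ vr_meas]
  simp_rw [enorm_gs]

lemma c3_fin : c3 ≠ ∞ := by
  intro h
  have h1 := pol1 (φ := fun _ => 1) measurable_const
  simp only [one_mul, lintegral_const] at h1
  rw [h, ENNReal.top_mul cir_ne_zero] at h1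
  exact gs_int.2.ne h1

lemma polP {P : ℕ} : ∀ {φ : (Fin P → ℝ) → ℝ≥0∞}, Measurable φ →
    ∫⁻ ξ : Fin P → ℂ, φ (arP ξ) * ∏ p, ‖gs (ξ p)‖ₑ = c3 ^ P * ∫⁻ θ, φ θ ∂(ciP P) := by
  induction P with
  | zero =>
    intro φ hφ
    have e : ciP 0 univ = 1 := by unfold ciP; simp
    rw [lintegral_unique, lintegral_unique, e]
    simp only [Finset.univ_eq_empty, Finset.prod_empty, mul_one, pow_zero, one_mul, volume_pi]
    rw [Measure.pi_empty_univ, mul_one]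
    congr 1
    exact Subsingleton.elim _ _
  | succ P ih =>
    intro φ hφ
    have hm : Measurable fun ξ : Fin (P + 1) → ℂ => φ (arP ξ) * ∏ p, ‖gs (ξ p)‖ₑ :=
      (hφ.comp arP_meas).mul (Finset.measurable_prod _ fun p _ =>
        (gs_cont.measurable.comp (measurable_pi_apply p)).enorm)
    rw [volume_pi, lint_cn volume hm]
    have hc : ∀ a : ℝ, Measurable fun θ : Fin P → ℝ => cn a θ := by
      intro a
      have a1 := cn_meas.comp (measurable_prodMk_left (x := a) : Measurable fun θ' : Fin P → ℝ =>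
        (a, θ'))
      exact a1
    have e1 : ∀ a : ℂ, ∫⁻ v : Fin P → ℂ, φ (arP (cn a v)) * ∏ p, ‖gs (cn a v p)‖ₑ
        ∂(Measure.pi fun _ => volume) =
        (c3 ^ P * ∫⁻ θ, φ (cn (arg a) θ) ∂(ciP P)) * ‖gs a‖ₑ := by
      intro a
      have i1 := ih (φ := fun θ => φ (cn (arg a) θ)) (hφ.comp (hc (arg a)))
      rw [← i1, ← volume_pi, ← lintegral_mul_const' _ _ enorm_ne_top]
      apply lintegral_congr
      intro v
      rw [arP_cn, Fin.prod_univ_succ]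
      simp only [cn_zero, cn_succ]
      ring
    simp_rw [e1]
    have hm2 : Measurable fun a : ℝ => c3 ^ P * ∫⁻ θ, φ (cn a θ) ∂(ciP P) := by
      have a1 := hφ.comp (cn_meas (P := P) (α := ℝ))
      have a2 : Measurable fun a : ℝ => ∫⁻ θ, φ (cn a θ) ∂(ciP P) := a1.lintegral_prod_right'
      exact a2.const_mul _
    rw [pol1 (φ := fun a => c3 ^ P * ∫⁻ θ, φ (cn a θ) ∂(ciP P)) hm2,
      lintegral_const_mul' _ _ (ENNReal.pow_ne_top c3_fin), ← mul_assoc, pow_succ, mul_comm c3]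
    congr 1
    exact (lint_cn cir hφ).symm

/-- the constant on the line -/
noncomputable def c4 : ℝ≥0∞ := ∫⁻ s : ℝ, ‖gs (s : ℂ)‖ₑ

lemma polZ {P m : ℕ} {φ : (Fin P → ℝ) → ℝ≥0∞} (hφ : Measurable φ) :
    ∫⁻ ζ : ZZ P m, φ (arP ζ.1) * ‖GZ ζ‖ₑ = c3 ^ P * c4 ^ m * ∫⁻ θ, φ θ ∂(ciP P) := by
  have e1 : ∀ ζ : ZZ P m, φ (arP ζ.1) * ‖GZ ζ‖ₑ =
      (fun ξ : Fin P → ℂ => φ (arP ξ) * ∏ p, ‖gs (ξ p)‖ₑ) ζ.1 *
      (fun s : Fin m → ℝ => ∏ j, ‖gs ((s j : ℝ) : ℂ)‖ₑ) ζ.2 := by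
    intro ζ
    unfold GZ
    rw [enorm_mul, enorm_prod', enorm_prod']
    ring
  simp_rw [e1]
  have hm1 : Measurable fun ξ : Fin P → ℂ => φ (arP ξ) * ∏ p, ‖gs (ξ p)‖ₑ :=
    (hφ.comp arP_meas).mul (Finset.measurable_prod _ fun p _ =>
      (gs_cont.measurable.comp (measurable_pi_apply p)).enorm)
  have hm2 : Measurable fun s : Fin m → ℝ => ∏ j, ‖gs ((s j : ℝ) : ℂ)‖ₑ :=
    Finset.measurable_prod _ fun p _ =>
      (gsr_cont.measurable.comp (measurable_pi_apply p)).enorm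
  rw [Measure.volume_eq_prod, lintegral_prod_mul hm1.aemeasurable hm2.aemeasurable, polP hφ,
    lint_prod (f := fun (_ : Fin m) (s : ℝ) => ‖gs (s : ℂ)‖ₑ)
      (fun _ => gsr_cont.measurable.enorm)]
  simp only [Finset.prod_const, Finset.card_univ, Fintype.card_fin]
  rw [← c4]
  ring

/-- the supremum -/
lemma EZ_sup {P m : ℕ} (F : ZZ P m → ℂ) (t : ℝ) (x : ZZ P m) : ‖EZ F t x‖ₑ ≤ ∫⁻ ζ, ‖F ζ‖ₑ := by
  unfold EZ
  refine (enorm_integral_le_lintegral_enorm _).trans (le_of_eq ?_)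
  apply lintegral_congr
  intro ζ
  rw [enorm_mul, ← ofReal_norm (phZ t x ζ), norm_phZ, ENNReal.ofReal_one, mul_one]

lemma FZ_bd1 {P m : ℕ} {h : (Fin P → ℝ) → ℂ} {g : Fin P → ℝ × (Fin P → ℝ) → ℂ}
    {b : Fin m → ℝ × (Fin P → ℝ) → ℂ} {N : ℝ}
    (hg : ∀ p, PN N (g p)) (hb : ∀ j, PN N (b j)) (ζ : ZZ P m) :
    ‖FZ h g b ζ‖ₑ ≤ ENNReal.ofReal N ^ P * ENNReal.ofReal N ^ m * (‖h (arP ζ.1)‖ₑ * ‖GZ ζ‖ₑ) := by
  unfold FZ
  rw [enorm_mul, enorm_mul, enorm_mul, enorm_prod', enorm_prod']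
  have e1 : ∏ p, ‖g p (‖ζ.1 p‖ ^ 2, arP ζ.1)‖ₑ ≤ ENNReal.ofReal N ^ P := by
    calc _ ≤ ∏ _p : Fin P, ENNReal.ofReal N := Finset.prod_le_prod' fun p _ => by
            rw [← ofReal_norm]; exact ENNReal.ofReal_le_ofReal ((hg p).bdd _)
      _ = _ := by simp
  have e2 : ∏ j, ‖b j (ζ.2 j, arP ζ.1)‖ₑ ≤ ENNReal.ofReal N ^ m := by
    calc _ ≤ ∏ _j : Fin m, ENNReal.ofReal N := Finset.prod_le_prod' fun j _ => by
            rw [← ofReal_norm]; exact ENNReal.ofReal_le_ofReal ((hb j).bdd _)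
      _ = _ := by simp
  calc _ ≤ ‖h (arP ζ.1)‖ₑ * (ENNReal.ofReal N ^ P * ENNReal.ofReal N ^ m * ‖GZ ζ‖ₑ) :=
        mul_le_mul' le_rfl (mul_le_mul' (mul_le_mul' e1 e2) le_rfl)
    _ = _ := by ring

lemma c4_fin : c4 ≠ ∞ := gsr_int.2.ne

/-- Hölder's inequality on a finite measure space -/
lemma hoel {Y : Type*} [MeasurableSpace Y] {μ : Measure Y} {w : Y → ℝ≥0∞} (hw : Measurable w)
    {r : ℝ} (hr : 1 ≤ r) : (∫⁻ y, w y ∂μ) ^ r ≤ μ univ ^ (r - 1) * ∫⁻ y, w y ^ r ∂μ := by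
  have h := wjensen (μ := μ) (k := fun _ => 1) (g := w) measurable_const hw hr
  simpa using h

/-- **The integral over space and time.** -/
theorem joint_FZ {q : ℝ} {P m : ℕ} (hn : 2 ≤ 2 * P + m) (hq : 2 + 2 / ((2 * P + m : ℕ) : ℝ) < q)
    {N : ℝ} (hN : 0 ≤ N) :
    ∃ C : ℝ≥0∞, C ≠ ∞ ∧ ∀ (h : (Fin P → ℝ) → ℂ) (g : Fin P → ℝ × (Fin P → ℝ) → ℂ)
    (b : Fin m → ℝ × (Fin P → ℝ) → ℂ), Measurable h → (∃ B, ∀ θ, ‖h θ‖ ≤ B) →
    (∀ p, PN N (g p)) → (∀ j, PN N (b j)) →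
    ∫⁻ t, ∫⁻ x, ‖EZ (FZ h g b) t x‖ₑ ^ q ≤ C * ∫⁻ θ, ‖h θ‖ₑ ^ q ∂(ciP P) := by
  set n : ℝ := ((2 * P + m : ℕ) : ℝ) with hn'
  have hn2 : (2 : ℝ) ≤ n := by rw [hn']; exact_mod_cast hn
  have hn0 : 0 < n := by linarith
  have h2n : 2 / n ≤ 1 := by rw [div_le_one hn0]; exact hn2
  have h2n0 : 0 < 2 / n := by positivity
  set s : ℝ := min q (7 / 2) with hs
  have hs1 : 2 + 2 / n < s := lt_min hq (by linarith)
  have hs4 : s < 4 := lt_of_le_of_lt (min_le_right _ _) (by norm_num)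
  have hsq : s ≤ q := min_le_left _ _
  have hs2 : 2 < s := by linarith
  have hs0 : 0 < s := by linarith
  have hq0 : 0 < q := by linarith
  set ρ : ℝ := ((s - 2) + 2 / n) / 2 with hρ
  have hρ0 : 0 ≤ ρ := by rw [hρ]; linarith
  have hρ1 : ρ < s - 2 := by rw [hρ]; linarith
  have hdec : 1 < ρ * ((P : ℝ) + m / 2) := by
    have e1 : (P : ℝ) + m / 2 = n / 2 := by rw [hn']; push_cast; ring
    rw [e1, hρ]
    have e2 : (s - 2 + 2 / n) / 2 * (n / 2) = ((s - 2) * n + 2) / 4 := by field_simp; ring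
    rw [e2]
    have e3 : 2 < (s - 2) * n := by
      have : 2 / n < s - 2 := by linarith
      rwa [div_lt_iff₀ hn0] at this
    linarith
  obtain ⟨C, hC, hfix⟩ := SS_all hs2 hs4 hρ0 hρ1 hN P m
  set J : ℝ≥0∞ := ∫⁻ t : ℝ, ENNReal.ofReal ((1 + ‖t‖) ^ (-(ρ * ((P : ℝ) + m / 2)))) with hJ
  have hJf : J < ∞ := by
    apply finite_integral_one_add_norm
    simp only [Module.finrank_self, Nat.cast_one]
    exact hdec
  set U : ℝ≥0∞ := ciP P univ with hU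
  have hUf : U ≠ ∞ := by
    rw [hU]
    unfold ciP
    rw [Measure.pi_univ]
    exact ENNReal.prod_ne_top fun i _ => measure_ne_top _ _
  set M : ℝ≥0∞ := ENNReal.ofReal N ^ P * ENNReal.ofReal N ^ m * (c3 ^ P * c4 ^ m) with hM
  have hMf : M ≠ ∞ := by
    rw [hM]
    refine ENNReal.mul_ne_top (ENNReal.mul_ne_top ?_ ?_) (ENNReal.mul_ne_top ?_ ?_)
    · exact ENNReal.pow_ne_top ENNReal.ofReal_ne_top
    · exact ENNReal.pow_ne_top ENNReal.ofReal_ne_top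
    · exact ENNReal.pow_ne_top c3_fin
    · exact ENNReal.pow_ne_top c4_fin
  set a1 : ℝ := (q - s) / q with ha1
  set a2 : ℝ := s / q with ha2
  have ha1' : 0 ≤ a1 := div_nonneg (by linarith) hq0.le
  have ha2' : 0 ≤ a2 := by positivity
  have ha12 : a1 + a2 = 1 := by rw [ha1, ha2]; field_simp; ring
  have hsqd : 1 ≤ q / s := by rw [le_div_iff₀ hs0]; linarith
  refine ⟨M ^ (q - s) * (C * J) * ((U ^ (q - 1)) ^ a1 * (U ^ (q / s - 1)) ^ a2), ?_, ?_⟩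
  · refine ENNReal.mul_ne_top (ENNReal.mul_ne_top ?_ (ENNReal.mul_ne_top hC hJf.ne))
      (ENNReal.mul_ne_top ?_ ?_)
    · exact ENNReal.rpow_ne_top_of_nonneg (by linarith) hMf
    · exact ENNReal.rpow_ne_top_of_nonneg ha1' (ENNReal.rpow_ne_top_of_nonneg (by linarith) hUf)
    · exact ENNReal.rpow_ne_top_of_nonneg ha2' (ENNReal.rpow_ne_top_of_nonneg (by linarith) hUf)
  rintro h g b hh ⟨B, hB⟩ hg hb
  set H1 : ℝ≥0∞ := ∫⁻ θ, ‖h θ‖ₑ ∂(ciP P) with hH1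
  set Hs : ℝ≥0∞ := ∫⁻ θ, ‖h θ‖ₑ ^ s ∂(ciP P) with hHs
  set Hq : ℝ≥0∞ := ∫⁻ θ, ‖h θ‖ₑ ^ q ∂(ciP P) with hHq
  have hH1f : H1 ≠ ∞ := by
    refine ne_top_of_le_ne_top (b := ENNReal.ofReal B * U) (ENNReal.mul_ne_top
      ENNReal.ofReal_ne_top hUf) ?_
    rw [hH1, hU, ← lintegral_const]
    apply lintegral_mono
    intro θ
    simp only
    rw [← ofReal_norm]
    exact ENNReal.ofReal_le_ofReal (hB θ)
  have hsup : ∀ t x, ‖EZ (FZ h g b) t x‖ₑ ≤ M * H1 := by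
    intro t x
    refine (EZ_sup _ t x).trans ?_
    calc ∫⁻ ζ, ‖FZ h g b ζ‖ₑ ≤ ∫⁻ ζ : ZZ P m, ENNReal.ofReal N ^ P * ENNReal.ofReal N ^ m *
          (‖h (arP ζ.1)‖ₑ * ‖GZ ζ‖ₑ) := lintegral_mono fun ζ => FZ_bd1 hg hb ζ
      _ = ENNReal.ofReal N ^ P * ENNReal.ofReal N ^ m * (c3 ^ P * c4 ^ m * H1) := by
          rw [lintegral_const_mul' _ _ (ENNReal.mul_ne_top
            (ENNReal.pow_ne_top ENNReal.ofReal_ne_top) (ENNReal.pow_ne_top ENNReal.ofReal_ne_top)),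
            polZ (φ := fun θ => ‖h θ‖ₑ) hh.enorm]
      _ = _ := by rw [hM]; ring
  have hMH : (M * H1) ^ (q - s) ≠ ∞ :=
    ENNReal.rpow_ne_top_of_nonneg (by linarith) (ENNReal.mul_ne_top hMf hH1f)
  have hpow : ∀ t x, ‖EZ (FZ h g b) t x‖ₑ ^ q ≤
      (M * H1) ^ (q - s) * ‖EZ (FZ h g b) t x‖ₑ ^ s := by
    intro t x
    calc ‖EZ (FZ h g b) t x‖ₑ ^ q = ‖EZ (FZ h g b) t x‖ₑ ^ (q - s) *
          ‖EZ (FZ h g b) t x‖ₑ ^ s := by
          rw [← ENNReal.rpow_add_of_nonneg _ _ (by linarith) (by linarith)]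
          congr 1; ring
      _ ≤ _ := mul_le_mul' (ENNReal.rpow_le_rpow (hsup t x) (by linarith)) le_rfl
  have b1 : H1 ^ (q - s) ≤ (U ^ (q - 1) * Hq) ^ a1 := by
    have e1 : H1 ^ (q - s) = (H1 ^ q) ^ a1 := by
      rw [← ENNReal.rpow_mul]; congr 1; rw [ha1]; field_simp
    rw [e1]
    apply ENNReal.rpow_le_rpow _ ha1'
    exact hoel hh.enorm (by linarith)
  have b2 : Hs ≤ (U ^ (q / s - 1) * Hq) ^ a2 := by
    have e1 : Hs = (Hs ^ (q / s)) ^ a2 := by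
      rw [← ENNReal.rpow_mul]
      have : q / s * a2 = 1 := by rw [ha2]; field_simp
      rw [this, ENNReal.rpow_one]
    rw [e1]
    apply ENNReal.rpow_le_rpow _ ha2'
    have h3 := hoel (μ := ciP P) (hh.enorm.pow_const s) hsqd
    refine h3.trans (le_of_eq ?_)
    congr 1
    apply lintegral_congr
    intro θ
    rw [← ENNReal.rpow_mul]
    congr 1; field_simp
  calc ∫⁻ t, ∫⁻ x, ‖EZ (FZ h g b) t x‖ₑ ^ q ≤
        ∫⁻ t, (M * H1) ^ (q - s) * (C * ENNReal.ofReal ((1 + ‖t‖) ^ (-(ρ * ((P : ℝ) + m / 2)))) *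
          Hs) := by
        apply lintegral_mono
        intro t
        simp only
        refine (lintegral_mono (hpow t)).trans ?_
        rw [lintegral_const_mul' _ _ hMH]
        refine mul_le_mul' le_rfl ?_
        have h1 := hfix h g b hh ⟨B, hB⟩ hg hb t
        rw [jb_rpow] at h1
        exact h1
    _ = (M * H1) ^ (q - s) * (C * J * Hs) := by
        have hHsf : Hs ≠ ∞ := by
          refine ne_top_of_le_ne_top (b := ENNReal.ofReal B ^ s * U) (ENNReal.mul_ne_top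
            (ENNReal.rpow_ne_top_of_nonneg hs0.le ENNReal.ofReal_ne_top) hUf) ?_
          rw [hHs, hU, ← lintegral_const]
          apply lintegral_mono
          intro θ
          simp only
          rw [← ofReal_norm]
          exact ENNReal.rpow_le_rpow (ENNReal.ofReal_le_ofReal (hB θ)) hs0.le
        rw [lintegral_const_mul' _ _ hMH, lintegral_mul_const' _ _ hHsf,
          lintegral_const_mul' _ _ hC]
    _ = M ^ (q - s) * (C * J) * (H1 ^ (q - s) * Hs) := by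
        rw [ENNReal.mul_rpow_of_nonneg _ _ (by linarith)]
        ring
    _ ≤ M ^ (q - s) * (C * J) * ((U ^ (q - 1) * Hq) ^ a1 * (U ^ (q / s - 1) * Hq) ^ a2) :=
        mul_le_mul' le_rfl (mul_le_mul' b1 b2)
    _ = _ := by
        rw [ENNReal.mul_rpow_of_nonneg _ _ ha1', ENNReal.mul_rpow_of_nonneg _ _ ha2']
        have e : Hq ^ a1 * Hq ^ a2 = Hq := by
          rw [← ENNReal.rpow_add_of_nonneg _ _ ha1' ha2', ha12, ENNReal.rpow_one]
        calc _ = M ^ (q - s) * (C * J) * ((U ^ (q - 1)) ^ a1 * (U ^ (q / s - 1)) ^ a2) *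
              (Hq ^ a1 * Hq ^ a2) := by ring
          _ = _ := by rw [e]

end Pool.Agent.T9h83.RAY
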