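import Pool.Agent.T9h83.RAY.JProf
import Pool.Agent.T9h83.RAY.JTime
set_option autoImplicit false

/-! Centres, the cube, and averages. -/

namespace Pool.Agent.T9h83.RAY

open Complex MeasureTheory Set
open scoped ENNReal Real ComplexConjugate

lemma ph_meas3 : Measurable fun p : (ℂ × ℝ) × ℂ => ph p.1.1 p.1.2 p.2 := by
  have : Continuous fun p : (ℂ × ℝ) × ℂ => ph p.1.1 p.1.2 p.2 := by
    unfold ph
    fun_prop
  exact this.measurable

lemma phZ_meas3 {P m : ℕ} : Measurable fun p : (ZZ P m × ℝ) × ZZ P m => phZ p.1.2 p.1.1 p.2 := by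
  unfold phZ
  refine Measurable.mul (Finset.measurable_prod _ fun i _ => ?_)
    (Finset.measurable_prod _ fun j _ => ?_)
  · have h1 : Measurable fun p : (ZZ P m × ℝ) × ZZ P m => ((p.1.1.1 i, p.1.2), p.2.1 i) := by
      fun_prop
    have h2 := ph_meas3.comp h1
    exact h2
  · have h1 : Measurable fun p : (ZZ P m × ℝ) × ZZ P m =>
        ((((p.1.1.2 j : ℝ) : ℂ), p.1.2), ((p.2.2 j : ℝ) : ℂ)) := by fun_prop
    have h2 := ph_meas3.comp h1
    exact h2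

lemma EZ_meas3 {Y : Type*} [MeasurableSpace Y] {P m : ℕ} {G : Y × ZZ P m → ℂ} (hG : Measurable G)
    {x : Y → ZZ P m} (hx : Measurable x) {t : Y → ℝ} (ht : Measurable t) :
    Measurable fun y => EZ (fun ζ => G (y, ζ)) (t y) (x y) := by
  have h1 : Measurable fun p : Y × ZZ P m => ((x p.1, t p.1), p.2) :=
    ((hx.comp measurable_fst).prodMk (ht.comp measurable_fst)).prodMk measurable_snd
  have h2 := phZ_meas3.comp h1
  have h3 : Measurable fun p : Y × ZZ P m => G p * phZ (t p.1) (x p.1) p.2 := hG.mul h2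
  exact h3.stronglyMeasurable.integral_prod_right'.measurable

/-- averages -/
lemma avg_eq {Λ : Type*} [MeasurableSpace Λ] {ν : Measure Λ} [IsFiniteMeasure ν] {P m : ℕ}
    {Φ : Λ × ZZ P m → ℂ} (hΦ : Measurable Φ) {K : ℝ} (hK : ∀ l ζ, ‖Φ (l, ζ)‖ ≤ K * ‖GZ ζ‖)
    (t : ℝ) (x : ZZ P m) :
    EZ (fun ζ => ∫ l, Φ (l, ζ) ∂ν) t x = ∫ l, EZ (fun ζ => Φ (l, ζ)) t x ∂ν := by
  unfold EZ
  have hph : Measurable fun ζ : ZZ P m => phZ t x ζ := by
    have h1 := (phZ_meas t).comp (measurable_prodMk_left (x := x) :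
      Measurable fun ζ : ZZ P m => (x, ζ))
    exact h1
  have hm : Measurable fun p : Λ × ZZ P m => Φ p * phZ t x p.2 := hΦ.mul (hph.comp measurable_snd)
  have hI : Integrable (fun p : Λ × ZZ P m => Φ p * phZ t x p.2) (ν.prod volume) := by
    have h1 : Integrable (fun p : Λ × ZZ P m => K * ‖GZ p.2‖) (ν.prod volume) :=
      (integrable_const K).mul_prod GZ_int.norm
    refine h1.mono' hm.aestronglyMeasurable (Filter.Eventually.of_forall fun p => ?_)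
    rw [norm_mul, norm_phZ, mul_one]
    exact hK p.1 p.2
  rw [integral_integral_swap (f := fun l ζ => Φ (l, ζ) * phZ t x ζ) hI]
  congr 1; funext ζ
  rw [integral_mul_const]

theorem avg_le {Λ : Type*} [MeasurableSpace Λ] {ν : Measure Λ} [IsProbabilityMeasure ν] {P m : ℕ}
    {Φ : Λ × ZZ P m → ℂ} (hΦ : Measurable Φ) {K : ℝ} (hK : ∀ l ζ, ‖Φ (l, ζ)‖ ≤ K * ‖GZ ζ‖)
    {q : ℝ} (hq : 1 ≤ q) :
    ∫⁻ t, ∫⁻ x, ‖EZ (fun ζ => ∫ l, Φ (l, ζ) ∂ν) t x‖ₑ ^ q ≤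
      ∫⁻ l, (∫⁻ t, ∫⁻ x, ‖EZ (fun ζ => Φ (l, ζ)) t x‖ₑ ^ q) ∂ν := by
  set E : (Λ × ℝ) × ZZ P m → ℝ≥0∞ := fun p => ‖EZ (fun ζ => Φ (p.1.1, ζ)) p.1.2 p.2‖ₑ with hE
  have hEm : Measurable E := by
    have h1 : Measurable fun r : ((Λ × ℝ) × ZZ P m) × ZZ P m => Φ (r.1.1.1, r.2) := by
      have h0 : Measurable fun r : ((Λ × ℝ) × ZZ P m) × ZZ P m => (r.1.1.1, r.2) := by fun_prop
      have h2 := hΦ.comp h0
      exact h2
    have h3 := EZ_meas3 (Y := (Λ × ℝ) × ZZ P m) h1 (x := fun p => p.2) measurable_snd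
      (t := fun p => p.1.2) (measurable_snd.comp measurable_fst)
    exact h3.enorm
  have hpt : ∀ t x, ‖EZ (fun ζ => ∫ l, Φ (l, ζ) ∂ν) t x‖ₑ ^ q ≤ ∫⁻ l, E ((l, t), x) ^ q ∂ν := by
    intro t x
    rw [avg_eq hΦ hK]
    refine (ENNReal.rpow_le_rpow (enorm_integral_le_lintegral_enorm _) (by linarith)).trans ?_
    have hm : Measurable fun l => E ((l, t), x) := by
      have h0 : Measurable fun l : Λ => ((l, t), x) := by fun_prop
      have h2 := hEm.comp h0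
      exact h2
    have h4 := hoel (μ := ν) hm hq
    rwa [measure_univ, ENNReal.one_rpow, one_mul] at h4
  have hEq : Measurable fun p => E p ^ q := hEm.pow_const q
  clear_value E
  calc _ ≤ ∫⁻ t, ∫⁻ x, ∫⁻ l, E ((l, t), x) ^ q ∂ν :=
        lintegral_mono fun t => lintegral_mono fun x => hpt t x
    _ = ∫⁻ t, ∫⁻ l, (∫⁻ x, E ((l, t), x) ^ q) ∂ν := by
        apply lintegral_congr
        intro t
        rw [lintegral_lintegral_swap]
        have h0 : Measurable fun p : ZZ P m × Λ => ((p.2, t), p.1) := by fun_prop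
        have h2 := hEq.comp h0
        exact h2.aemeasurable
    _ = ∫⁻ l, (∫⁻ t, ∫⁻ x, E ((l, t), x) ^ q) ∂ν := by
        rw [lintegral_lintegral_swap]
        have h0 : Measurable fun p : (ℝ × Λ) × ZZ P m => ((p.1.2, p.1.1), p.2) := by fun_prop
        have h2 := hEq.comp h0
        exact (h2.lintegral_prod_right' (ν := volume)).aemeasurable
    _ = _ := by rw [hE]

/-- the cube -/
def QZ (P m : ℕ) : Set (ZZ P m) := {ζ | (∀ p, ζ.1 p ∈ Qs) ∧ ∀ j, |ζ.2 j| ≤ 1}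

lemma QZ_meas (P m : ℕ) : MeasurableSet (QZ P m) := by
  have e : QZ P m = (⋂ p, {ζ : ZZ P m | ζ.1 p ∈ Qs}) ∩ ⋂ j, {ζ : ZZ P m | |ζ.2 j| ≤ 1} := by
    ext ζ
    simp [QZ]
  rw [e]
  refine (MeasurableSet.iInter fun p => ?_).inter (MeasurableSet.iInter fun j => ?_)
  · exact ((measurable_pi_apply p).comp measurable_fst) Qs_meas
  · exact measurableSet_le ((measurable_pi_apply j).comp measurable_snd).norm measurable_const

/-- the function with centres `c` -/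
noncomputable def FJ {P m : ℕ} (c : Fin P → ℂ) (h : (Fin P → ℝ) → ℂ)
    (g : Fin P → ℝ × (Fin P → ℝ) → ℂ) (b : Fin m → ℝ × (Fin P → ℝ) → ℂ) (ζ : ZZ P m) : ℂ :=
  h (arP (ζ.1 - c)) * ((∏ p, g p (‖ζ.1 p - c p‖, arP (ζ.1 - c))) *
    ∏ j, b j (ζ.2 j, arP (ζ.1 - c)))

lemma gt_gs {R : ℝ} {c : ℂ} (hc : ‖c‖ ≤ R) {P : ℕ} (p : Fin P) (g : ℝ × (Fin P → ℝ) → ℂ)
    {ξ : Fin P → ℂ} (hξ : ξ p ≠ 0) :
    gt ((R + 2) ^ 2) c p g (‖ξ p‖ ^ 2, arP ξ) * gs (ξ p) =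
      Qs.indicator (fun _ => g (‖ξ p‖, arP ξ)) (c + ξ p) := by
  have hn : 0 < ‖ξ p‖ := norm_pos_iff.2 hξ
  have hs : Real.sqrt (‖ξ p‖ ^ 2) = ‖ξ p‖ := Real.sqrt_sq hn.le
  have hpol : (‖ξ p‖ : ℂ) * cexp ((arP ξ p : ℝ) * I) = ξ p := norm_mul_exp_arg_mul_I _
  unfold gt
  simp only
  by_cases h : c + ξ p ∈ Qs
  · have h1 : ‖ξ p‖ ^ 2 ∈ Sr c (cexp ((arP ξ p : ℝ) * I)) := by
      refine ⟨by positivity, ?_⟩
      rw [hs, hpol]
      exact h
    rw [indicator_of_mem h1, indicator_of_mem h, hs]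
    have h2 := Sr_sub hc (norm_exp_ofReal_mul_I _) h1
    rw [ew_eq h2.1 h2.2, mul_assoc]
    unfold gs
    rw [← ofReal_mul, ← Real.exp_add]
    simp
  · have h1 : ‖ξ p‖ ^ 2 ∉ Sr c (cexp ((arP ξ p : ℝ) * I)) := by
      intro h2
      apply h
      have := h2.2
      rwa [hs, hpol] at this
    rw [indicator_of_notMem h1, indicator_of_notMem h, zero_mul, zero_mul]

lemma bt_gs {P : ℕ} (b : ℝ × (Fin P → ℝ) → ℂ) (s : ℝ) (θ : Fin P → ℝ) :
    bt b (s, θ) * gs (s : ℂ) = {s : ℝ | |s| ≤ 1}.indicator (fun s => b (s, θ)) s := by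
  have e : {s : ℝ | |s| ≤ 1} = Icc (-1) 1 := by
    ext s; simp [abs_le]
  rw [e]
  unfold bt
  simp only
  by_cases h : s ∈ Icc (-1 : ℝ) 1
  · rw [indicator_of_mem h, el_eq (abs_le.2 h), gs_real, mul_assoc, ← ofReal_mul,
      ← Real.exp_add]
    simp
  · rw [indicator_of_notMem h, zero_mul, zero_mul]

lemma FJ_shift {R : ℝ} {P m : ℕ} {c : Fin P → ℂ} (hc : ∀ p, ‖c p‖ ≤ R) (h : (Fin P → ℝ) → ℂ)
    (g : Fin P → ℝ × (Fin P → ℝ) → ℂ) (b : Fin m → ℝ × (Fin P → ℝ) → ℂ) {ξ : ZZ P m}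
    (hξ : ∀ p, ξ.1 p ≠ 0) :
    (QZ P m).indicator (FJ c h g b) (((c, 0) : ZZ P m) + ξ) =
      FZ h (fun p => gt ((R + 2) ^ 2) (c p) p (g p)) (fun j => bt (b j)) ξ := by
  have e1 : ((c, 0) : ZZ P m) + ξ = (c + ξ.1, ξ.2) := by
    ext <;> simp
  rw [e1]
  have e2 : FZ h (fun p => gt ((R + 2) ^ 2) (c p) p (g p)) (fun j => bt (b j)) ξ =
      h (arP ξ.1) * ((∏ p, Qs.indicator (fun _ => g p (‖ξ.1 p‖, arP ξ.1)) (c p + ξ.1 p)) *
        ∏ j, {s : ℝ | |s| ≤ 1}.indicator (fun s => b j (s, arP ξ.1)) (ξ.2 j)) := by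
    unfold FZ GZ
    rw [mul_mul_mul_comm, ← Finset.prod_mul_distrib, ← Finset.prod_mul_distrib]
    congr 2
    · exact Finset.prod_congr rfl fun p _ => gt_gs (hc p) p (g p) (hξ p)
    · exact Finset.prod_congr rfl fun j _ => bt_gs (b j) (ξ.2 j) (arP ξ.1)
  rw [e2]
  by_cases hQ : (c + ξ.1, ξ.2) ∈ QZ P m
  · rw [indicator_of_mem hQ]
    unfold FJ
    simp only [add_sub_cancel_left, Pi.add_apply]
    congr 2
    · refine Finset.prod_congr rfl fun p _ => ?_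
      rw [indicator_of_mem (show c p + ξ.1 p ∈ Qs from hQ.1 p)]
    · refine Finset.prod_congr rfl fun j _ => ?_
      rw [indicator_of_mem (show ξ.2 j ∈ {s : ℝ | |s| ≤ 1} from hQ.2 j)]
  · rw [indicator_of_notMem hQ]
    have h3 : (∃ p, c p + ξ.1 p ∉ Qs) ∨ ∃ j, ¬ |ξ.2 j| ≤ 1 := by
      by_contra hcon
      push Not at hcon
      exact hQ ⟨hcon.1, hcon.2⟩
    rcases h3 with ⟨p, hp⟩ | ⟨j, hj⟩
    · have : ∏ p, Qs.indicator (fun _ => g p (‖ξ.1 p‖, arP ξ.1)) (c p + ξ.1 p) = 0 :=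
        Finset.prod_eq_zero (Finset.mem_univ p) (indicator_of_notMem hp _)
      rw [this, zero_mul, mul_zero]
    · have : ∏ j, {s : ℝ | |s| ≤ 1}.indicator (fun s => b j (s, arP ξ.1)) (ξ.2 j) = 0 :=
        Finset.prod_eq_zero (Finset.mem_univ j)
          (indicator_of_notMem (show ξ.2 j ∉ {s : ℝ | |s| ≤ 1} from hj) _)
      rw [this, mul_zero, mul_zero]

lemma phZ_trans {P m : ℕ} (t : ℝ) (x : ZZ P m) (c : Fin P → ℂ) (η : ZZ P m) :
    phZ t x (((c, 0) : ZZ P m) + η) = (∏ p, ph (x.1 p) t (c p)) *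
      phZ t (x + ((fun p => 2 * t * c p, 0) : ZZ P m)) η := by
  unfold phZ
  have e1 : ∀ p, ph (x.1 p) t ((((c, 0) : ZZ P m) + η).1 p) =
      ph (x.1 p) t (c p) * ph ((x + ((fun p => 2 * t * c p, 0) : ZZ P m)).1 p) t (η.1 p) := by
    intro p
    have : (((c, 0) : ZZ P m) + η).1 p = c p + η.1 p := rfl
    rw [this, ph_trans]
    rfl
  have e2 : ∀ j, ph ((x.2 j : ℝ) : ℂ) t (((((c, 0) : ZZ P m) + η).2 j : ℝ) : ℂ) =
      ph (((x + ((fun p => 2 * t * c p, 0) : ZZ P m)).2 j : ℝ) : ℂ) t ((η.2 j : ℝ) : ℂ) := by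
    intro j
    have a1 : (((c, 0) : ZZ P m) + η).2 j = η.2 j := by simp
    have a2 : (x + ((fun p => 2 * t * c p, 0) : ZZ P m)).2 j = x.2 j := by simp
    rw [a1, a2]
  simp_rw [e1, e2]
  rw [Finset.prod_mul_distrib]
  ring

instance (P m : ℕ) : (volume : Measure (ZZ P m)).IsAddLeftInvariant :=
  Measure.prod.instIsAddLeftInvariant (μ := (volume : Measure (Fin P → ℂ)))
    (ν := (volume : Measure (Fin m → ℝ)))

lemma EZ_trans {P m : ℕ} (F : ZZ P m → ℂ) (t : ℝ) (x : ZZ P m) (c : Fin P → ℂ) :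
    ‖EZ F t x‖ₑ = ‖EZ (fun ζ => F (((c, 0) : ZZ P m) + ζ)) t
      (x + ((fun p => 2 * t * c p, 0) : ZZ P m))‖ₑ := by
  have h1 : EZ F t x = (∏ p, ph (x.1 p) t (c p)) * EZ (fun ζ => F (((c, 0) : ZZ P m) + ζ)) t
      (x + ((fun p => 2 * t * c p, 0) : ZZ P m)) := by
    unfold EZ
    rw [← integral_add_left_eq_self (fun ζ : ZZ P m => F ζ * phZ t x ζ) ((c, 0) : ZZ P m),
      ← integral_const_mul]
    congr 1; funext η
    rw [phZ_trans]
    ring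
  have h2 : ‖∏ p, ph (x.1 p) t (c p)‖ₑ = 1 := by
    rw [enorm_prod']
    apply Finset.prod_eq_one
    intro p _
    rw [← ofReal_norm, norm_ph, ENNReal.ofReal_one]
  rw [h1, enorm_mul, h2, one_mul]

lemma ae_ne {P m : ℕ} : ∀ᵐ ξ : ZZ P m, ∀ p, ξ.1 p ≠ 0 := by
  rw [ae_all_iff]
  intro p
  have h1 : Measure.QuasiMeasurePreserving (fun ξ : ZZ P m => ξ.1 p)
      (volume : Measure (ZZ P m)) (volume : Measure ℂ) := by
    have a1 : Measure.QuasiMeasurePreserving (Prod.fst : ZZ P m → (Fin P → ℂ))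
        (volume : Measure (ZZ P m)) volume := Measure.quasiMeasurePreserving_fst
    have a2 : Measure.QuasiMeasurePreserving (Function.eval p : (Fin P → ℂ) → ℂ)
        (volume : Measure (Fin P → ℂ)) volume := Measure.quasiMeasurePreserving_eval _ p
    exact a2.comp a1
  exact h1.ae ae_ne_zero

end Pool.Agent.T9h83.RAY
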