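import Pool.Agent.T9h83.RAY.JB1
import Pool.Agent.T9h83.RAY.JP2
import Pool.Agent.T9h83.RAY.Joint
set_option autoImplicit false

/-! Centres, the cube, and averages, with rough variables. -/

namespace Pool.Agent.T9h83.RAY

open Complex MeasureTheory Set
open scoped ENNReal Real ComplexConjugate

section base

variable {Z0 X0 : Type} [MeasurableSpace Z0] [MeasurableSpace X0]
  {μ0 : Measure Z0} [IsFiniteMeasure μ0]
  {ν0 : Measure X0} [SFinite ν0] {φ0 : (ℝ × X0) × Z0 → ℂ} {P m : ℕ}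

/-- the cube in the first variables -/
def QB (Z0 : Type) (P m : ℕ) : Set (ZZ P m × Z0) := {ζ | ζ.1 ∈ QZ P m}

lemma QB_meas (P m : ℕ) : MeasurableSet (QB Z0 P m) := measurable_fst (QZ_meas P m)

/-- the function with centres `c` -/
noncomputable def FJB (c : Fin P → ℂ) (h : (Fin P → ℝ) × Z0 → ℂ)
    (g : Fin P → ℝ × ((Fin P → ℝ) × Z0) → ℂ) (b : Fin m → ℝ × ((Fin P → ℝ) × Z0) → ℂ)
    (ζ : ZZ P m × Z0) : ℂ :=
  h (arP (ζ.1.1 - c), ζ.2) * ((∏ p, g p (‖ζ.1.1 p - c p‖, (arP (ζ.1.1 - c), ζ.2))) *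
    ∏ j, b j (ζ.1.2 j, (arP (ζ.1.1 - c), ζ.2)))

/-- the translation -/
def trB (c : Fin P → ℂ) (ζ : ZZ P m × Z0) : ZZ P m × Z0 := (((c, 0) : ZZ P m) + ζ.1, ζ.2)

/-- the profiles -/
noncomputable def gB (R : ℝ) (c : Fin P → ℂ) (g : Fin P → ℝ × ((Fin P → ℝ) × Z0) → ℂ)
    (p : Fin P) : ℝ × ((Fin P → ℝ) × Z0) → ℂ :=
  gtY ((R + 2) ^ 2) (c p) (fun v : (Fin P → ℝ) × Z0 => v.1 p) (g p)

lemma FJB_shift {R : ℝ} {c : Fin P → ℂ} (hc : ∀ p, ‖c p‖ ≤ R) (h : (Fin P → ℝ) × Z0 → ℂ)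
    (g : Fin P → ℝ × ((Fin P → ℝ) × Z0) → ℂ) (b : Fin m → ℝ × ((Fin P → ℝ) × Z0) → ℂ)
    {ξ : ZZ P m × Z0} (hξ : ∀ p, ξ.1.1 p ≠ 0) :
    (QB Z0 P m).indicator (FJB c h g b) (trB c ξ) =
      FB h (gB R c g) (fun j => btY (b j)) ξ := by
  have e1 : ((c, 0) : ZZ P m) + ξ.1 = (c + ξ.1.1, ξ.1.2) := by
    ext <;> simp
  unfold trB
  rw [e1]
  have e2 : FB h (gB R c g) (fun j => btY (b j)) ξ =
      h (arP ξ.1.1, ξ.2) * ((∏ p, Qs.indicator (fun _ => g p (‖ξ.1.1 p‖, (arP ξ.1.1, ξ.2)))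
        (c p + ξ.1.1 p)) *
        ∏ j, {s : ℝ | |s| ≤ 1}.indicator (fun s => b j (s, (arP ξ.1.1, ξ.2))) (ξ.1.2 j)) := by
    unfold FB GZ gB
    rw [mul_mul_mul_comm, ← Finset.prod_mul_distrib, ← Finset.prod_mul_distrib]
    congr 2
    · exact Finset.prod_congr rfl fun p _ => gtY_gs (hc p) _ (g p) (hξ p) rfl
    · exact Finset.prod_congr rfl fun j _ => btY_gs (b j) (ξ.1.2 j) (arP ξ.1.1, ξ.2)
  rw [e2]
  by_cases hQ : ((c + ξ.1.1, ξ.1.2) : ZZ P m) ∈ QZ P m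
  · have hQ' : (((c + ξ.1.1, ξ.1.2), ξ.2) : ZZ P m × Z0) ∈ QB Z0 P m := hQ
    rw [indicator_of_mem hQ']
    unfold FJB
    simp only [add_sub_cancel_left, Pi.add_apply]
    congr 2
    · refine Finset.prod_congr rfl fun p _ => ?_
      rw [indicator_of_mem (show c p + ξ.1.1 p ∈ Qs from hQ.1 p)]
    · refine Finset.prod_congr rfl fun j _ => ?_
      rw [indicator_of_mem (show ξ.1.2 j ∈ {s : ℝ | |s| ≤ 1} from hQ.2 j)]
  · have hQ' : (((c + ξ.1.1, ξ.1.2), ξ.2) : ZZ P m × Z0) ∉ QB Z0 P m := hQ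
    rw [indicator_of_notMem hQ']
    have h3 : (∃ p, c p + ξ.1.1 p ∉ Qs) ∨ ∃ j, ¬ |ξ.1.2 j| ≤ 1 := by
      by_contra hcon
      push Not at hcon
      exact hQ ⟨hcon.1, hcon.2⟩
    rcases h3 with ⟨p, hp⟩ | ⟨j, hj⟩
    · have : ∏ p, Qs.indicator (fun _ => g p (‖ξ.1.1 p‖, (arP ξ.1.1, ξ.2))) (c p + ξ.1.1 p) = 0 :=
        Finset.prod_eq_zero (Finset.mem_univ p) (indicator_of_notMem hp _)
      rw [this, zero_mul, mul_zero]
    · have : ∏ j, {s : ℝ | |s| ≤ 1}.indicator (fun s => b j (s, (arP ξ.1.1, ξ.2))) (ξ.1.2 j) = 0 :=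
        Finset.prod_eq_zero (Finset.mem_univ j)
          (indicator_of_notMem (show ξ.1.2 j ∉ {s : ℝ | |s| ≤ 1} from hj) _)
      rw [this, mul_zero, mul_zero]

lemma phB_trans (t : ℝ) (x : ZZ P m × X0) (c : Fin P → ℂ) (η : ZZ P m × Z0) :
    phB φ0 t x (trB c η) = (∏ p, ph (x.1.1 p) t (c p)) *
      phB φ0 t (x.1 + ((fun p => 2 * t * c p, 0) : ZZ P m), x.2) η := by
  unfold phB trB
  simp only
  rw [phZ_trans]
  ring

/-- the translation preserves the measure -/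
lemma mp_tr {W : Type} [MeasurableSpace W] (ρ : Measure W) [SFinite ρ] (a : ZZ P m) :
    MeasurePreserving (((MeasurableEquiv.addLeft a).prodCongr (MeasurableEquiv.refl W)) :
      ZZ P m × W ≃ᵐ ZZ P m × W) (volume.prod ρ) (volume.prod ρ) := by
  have h1 : MeasurePreserving (fun z : ZZ P m => a + z) volume volume :=
    measurePreserving_add_left _ _
  have h2 : MeasurePreserving (Prod.map (fun z : ZZ P m => a + z) (id : W → W))
      (volume.prod ρ) (volume.prod ρ) := h1.prod (MeasurePreserving.id _)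
  exact h2

lemma EB_trans (F : ZZ P m × Z0 → ℂ) (t : ℝ) (x : ZZ P m × X0) (c : Fin P → ℂ) :
    ‖EB μ0 φ0 F t x‖ₑ = ‖EB μ0 φ0 (fun ζ => F (trB c ζ)) t
      (x.1 + ((fun p => 2 * t * c p, 0) : ZZ P m), x.2)‖ₑ := by
  have h1 : EB μ0 φ0 F t x = (∏ p, ph (x.1.1 p) t (c p)) * EB μ0 φ0 (fun ζ => F (trB c ζ)) t
      (x.1 + ((fun p => 2 * t * c p, 0) : ZZ P m), x.2) := by
    unfold EB
    rw [← (mp_tr μ0 ((c, 0) : ZZ P m)).integral_comp (MeasurableEquiv.measurableEmbedding _),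
      ← integral_const_mul]
    congr 1; funext η
    have e : ((MeasurableEquiv.addLeft ((c, 0) : ZZ P m)).prodCongr (MeasurableEquiv.refl Z0)) η =
        trB c η := rfl
    rw [e, phB_trans]
    ring
  have h2 : ‖∏ p, ph (x.1.1 p) t (c p)‖ₑ = 1 := by
    rw [enorm_prod']
    apply Finset.prod_eq_one
    intro p _
    rw [← ofReal_norm, norm_ph, ENNReal.ofReal_one]
  rw [h1, enorm_mul, h2, one_mul]

lemma ae_neB : ∀ᵐ ξ : ZZ P m × Z0 ∂(volume.prod μ0), ∀ p, ξ.1.1 p ≠ 0 :=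
  Measure.quasiMeasurePreserving_fst.ae ae_ne

/-- averages -/
lemma avgB_eq (hφ : Measurable φ0) (h0 : ∀ p, ‖φ0 p‖ = 1) {Λ : Type*} [MeasurableSpace Λ]
    {ν : Measure Λ} [IsFiniteMeasure ν]
    {Φ : Λ × (ZZ P m × Z0) → ℂ} (hΦ : Measurable Φ) {K : ℝ}
    (hK : ∀ l ζ, ‖Φ (l, ζ)‖ ≤ K * ‖GZ ζ.1‖) (t : ℝ) (x : ZZ P m × X0) :
    EB μ0 φ0 (fun ζ => ∫ l, Φ (l, ζ) ∂ν) t x = ∫ l, EB μ0 φ0 (fun ζ => Φ (l, ζ)) t x ∂ν := by
  unfold EB
  have hph := phB_meas2 hφ (P := P) (m := m) t x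
  have hm : Measurable fun p : Λ × (ZZ P m × Z0) => Φ p * phB φ0 t x p.2 :=
    hΦ.mul (hph.comp measurable_snd)
  have hI : Integrable (fun p : Λ × (ZZ P m × Z0) => Φ p * phB φ0 t x p.2)
      (ν.prod (volume.prod μ0)) := by
    have h1 : Integrable (fun p : Λ × (ZZ P m × Z0) => 1 * (K * ‖GZ p.2.1‖))
        (ν.prod (volume.prod μ0)) :=
      (integrable_const (1 : ℝ)).mul_prod (GB_int μ0 K)
    refine h1.mono' hm.aestronglyMeasurable (Filter.Eventually.of_forall fun p => ?_)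
    rw [norm_mul, norm_phB h0, mul_one, one_mul]
    exact hK p.1 p.2
  rw [integral_integral_swap (f := fun l ζ => Φ (l, ζ) * phB φ0 t x ζ) hI]
  congr 1; funext ζ
  rw [integral_mul_const]

theorem avgB_le (hφ : Measurable φ0) (h0 : ∀ p, ‖φ0 p‖ = 1) {Λ : Type*} [MeasurableSpace Λ]
    {ν : Measure Λ} [IsProbabilityMeasure ν]
    {Φ : Λ × (ZZ P m × Z0) → ℂ} (hΦ : Measurable Φ) {K : ℝ}
    (hK : ∀ l ζ, ‖Φ (l, ζ)‖ ≤ K * ‖GZ ζ.1‖) {q : ℝ} (hq : 1 ≤ q) :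
    ∫⁻ t, ∫⁻ x, ‖EB μ0 φ0 (fun ζ => ∫ l, Φ (l, ζ) ∂ν) t x‖ₑ ^ q ∂(volume.prod ν0) ≤
      ∫⁻ l, (∫⁻ t, ∫⁻ x, ‖EB μ0 φ0 (fun ζ => Φ (l, ζ)) t x‖ₑ ^ q ∂(volume.prod ν0)) ∂ν := by
  set E : (Λ × ℝ) × (ZZ P m × X0) → ℝ≥0∞ :=
    fun p => ‖EB μ0 φ0 (fun ζ => Φ (p.1.1, ζ)) p.1.2 p.2‖ₑ with hE
  have hEm : Measurable E := by
    have h1 : Measurable fun r : ((Λ × ℝ) × (ZZ P m × X0)) × (ZZ P m × Z0) =>
        Φ (r.1.1.1, r.2) := by
      have h0 : Measurable fun r : ((Λ × ℝ) × (ZZ P m × X0)) × (ZZ P m × Z0) =>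
          (r.1.1.1, r.2) := by fun_prop
      have h2 := hΦ.comp h0
      exact h2
    have h3 := EB_meas (μ0 := μ0) hφ (Y := (Λ × ℝ) × (ZZ P m × X0)) h1
      (t := fun p => p.1.2) (measurable_snd.comp measurable_fst)
      (x := fun p => p.2) measurable_snd
    exact h3.enorm
  have hpt : ∀ t x, ‖EB μ0 φ0 (fun ζ => ∫ l, Φ (l, ζ) ∂ν) t x‖ₑ ^ q ≤
      ∫⁻ l, E ((l, t), x) ^ q ∂ν := by
    intro t x
    rw [avgB_eq hφ h0 hΦ hK]
    refine (ENNReal.rpow_le_rpow (enorm_integral_le_lintegral_enorm _) (by linarith)).trans ?_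
    have hm : Measurable fun l => E ((l, t), x) := by
      have h0 : Measurable fun l : Λ => ((l, t), x) := by fun_prop
      have h2 := hEm.comp h0
      exact h2
    have h4 := hoel (μ := ν) hm hq
    rwa [measure_univ, ENNReal.one_rpow, one_mul] at h4
  have hEq : Measurable fun p => E p ^ q := hEm.pow_const q
  clear_value E
  calc _ ≤ ∫⁻ t, ∫⁻ x, ∫⁻ l, E ((l, t), x) ^ q ∂ν ∂(volume.prod ν0) :=
        lintegral_mono fun t => lintegral_mono fun x => hpt t x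
    _ = ∫⁻ t, ∫⁻ l, (∫⁻ x, E ((l, t), x) ^ q ∂(volume.prod ν0)) ∂ν := by
        apply lintegral_congr
        intro t
        rw [lintegral_lintegral_swap]
        have h0 : Measurable fun p : (ZZ P m × X0) × Λ => ((p.2, t), p.1) := by fun_prop
        have h2 := hEq.comp h0
        exact h2.aemeasurable
    _ = ∫⁻ l, (∫⁻ t, ∫⁻ x, E ((l, t), x) ^ q ∂(volume.prod ν0)) ∂ν := by
        rw [lintegral_lintegral_swap]
        have h0 : Measurable fun p : (ℝ × Λ) × (ZZ P m × X0) => ((p.1.2, p.1.1), p.2) := by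
          fun_prop
        have h2 := hEq.comp h0
        exact (h2.lintegral_prod_right' (ν := (volume : Measure (ZZ P m)).prod ν0)).aemeasurable
    _ = _ := by rw [hE]

end base

end Pool.Agent.T9h83.RAY
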