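import Pool.Agent.T9h83.RAY.JB2
set_option autoImplicit false

/-! The final estimate for averages, with at most one rough Cartesian variable. -/

namespace Pool.Agent.T9h83.RAY

open Complex MeasureTheory Set
open scoped ENNReal Real ComplexConjugate

section base

variable {Z0 X0 : Type} [MeasurableSpace Z0] [MeasurableSpace X0]
  {μ0 : Measure Z0} [IsFiniteMeasure μ0]
  {ν0 : Measure X0} [SFinite ν0] {φ0 : (ℝ × X0) × Z0 → ℂ} {P m : ℕ}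
  {Λ : Type} [MeasurableSpace Λ]

/-- the family of functions -/
noncomputable def PhB (R : ℝ) (c : Fin P → ℂ) (h : Λ × ((Fin P → ℝ) × Z0) → ℂ)
    (g : Fin P → Λ × (ℝ × ((Fin P → ℝ) × Z0)) → ℂ)
    (b : Fin m → Λ × (ℝ × ((Fin P → ℝ) × Z0)) → ℂ) (l : Λ) : ZZ P m × Z0 → ℂ :=
  FB (fun v => h (l, v)) (gB R c (fun p w => g p (l, w))) (fun j => btY (fun w => b j (l, w)))

lemma PhB_meas (R : ℝ) (c : Fin P → ℂ) {h : Λ × ((Fin P → ℝ) × Z0) → ℂ} (hm : Measurable h)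
    {g : Fin P → Λ × (ℝ × ((Fin P → ℝ) × Z0)) → ℂ} (hg : ∀ p, Measurable (g p))
    {b : Fin m → Λ × (ℝ × ((Fin P → ℝ) × Z0)) → ℂ} (hb : ∀ j, Measurable (b j)) :
    Measurable fun r : Λ × (ZZ P m × Z0) => PhB R c h g b r.1 r.2 := by
  have ha : ∀ p : Fin P, Measurable fun v : (Fin P → ℝ) × Z0 => v.1 p := fun p => by fun_prop
  have h1 := FB_meas (Y := Λ) (P := P) (m := m) (h := h) hm
    (g := fun p r => gtY ((R + 2) ^ 2) (c p) (fun v : (Fin P → ℝ) × Z0 => v.1 p)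
      (fun v => g p (r.1, v)) r.2)
    (fun p => gtY_meas ((R + 2) ^ 2) (c p) (ha p) (hg p))
    (b := fun j r => btY (fun v => b j (r.1, v)) r.2) (fun j => btY_meas (hb j))
  exact h1

/-- the averaged function -/
noncomputable def AvB (ν : Measure Λ) (c : Fin P → ℂ) (h : Λ × ((Fin P → ℝ) × Z0) → ℂ)
    (g : Fin P → Λ × (ℝ × ((Fin P → ℝ) × Z0)) → ℂ)
    (b : Fin m → Λ × (ℝ × ((Fin P → ℝ) × Z0)) → ℂ) (ζ : ZZ P m × Z0) : ℂ :=
  ∫ l, FJB c (fun v => h (l, v)) (fun p v => g p (l, v)) (fun j v => b j (l, v)) ζ ∂ν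

lemma AvB_shift {R : ℝ} {c : Fin P → ℂ} (hc : ∀ p, ‖c p‖ ≤ R) (ν : Measure Λ)
    (h : Λ × ((Fin P → ℝ) × Z0) → ℂ)
    (g : Fin P → Λ × (ℝ × ((Fin P → ℝ) × Z0)) → ℂ)
    (b : Fin m → Λ × (ℝ × ((Fin P → ℝ) × Z0)) → ℂ)
    {ξ : ZZ P m × Z0} (hξ : ∀ p, ξ.1.1 p ≠ 0) :
    (QB Z0 P m).indicator (AvB ν c h g b) (trB c ξ) = ∫ l, PhB R c h g b l ξ ∂ν := by
  have e1 : ∀ l, PhB R c h g b l ξ = (QB Z0 P m).indicator (FJB c (fun v => h (l, v))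
      (fun p v => g p (l, v)) (fun j v => b j (l, v))) (trB c ξ) := fun l =>
    (FJB_shift hc (fun v => h (l, v)) (fun p v => g p (l, v)) (fun j v => b j (l, v)) hξ).symm
  simp_rw [e1]
  by_cases hQ : trB c ξ ∈ QB Z0 P m
  · rw [indicator_of_mem hQ]
    unfold AvB
    congr 1; funext l
    rw [indicator_of_mem hQ]
  · rw [indicator_of_notMem hQ]
    have e2 : ∀ l, (QB Z0 P m).indicator (FJB c (fun v => h (l, v))
      (fun p v => g p (l, v)) (fun j v => b j (l, v))) (trB c ξ) = 0 := fun l =>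
      indicator_of_notMem hQ _
    simp_rw [e2, integral_zero]

lemma AvB_EB {R : ℝ} {c : Fin P → ℂ} (hc : ∀ p, ‖c p‖ ≤ R) (ν : Measure Λ)
    (h : Λ × ((Fin P → ℝ) × Z0) → ℂ)
    (g : Fin P → Λ × (ℝ × ((Fin P → ℝ) × Z0)) → ℂ)
    (b : Fin m → Λ × (ℝ × ((Fin P → ℝ) × Z0)) → ℂ) (t : ℝ) (q : ℝ) :
    ∫⁻ x, ‖EB μ0 φ0 ((QB Z0 P m).indicator (AvB ν c h g b)) t x‖ₑ ^ q ∂(volume.prod ν0) =
      ∫⁻ x, ‖EB μ0 φ0 (fun ζ => ∫ l, PhB R c h g b l ζ ∂ν) t x‖ₑ ^ q ∂(volume.prod ν0) := by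
  have e1 : ∀ x : ZZ P m × X0, ‖EB μ0 φ0 ((QB Z0 P m).indicator (AvB ν c h g b)) t x‖ₑ ^ q =
      (fun x => ‖EB μ0 φ0 (fun ζ => ∫ l, PhB R c h g b l ζ ∂ν) t x‖ₑ ^ q)
      (x.1 + ((fun p => 2 * t * c p, 0) : ZZ P m), x.2) := by
    intro x
    simp only
    rw [EB_trans _ t x c]
    congr 2
    unfold EB
    apply integral_congr_ae
    filter_upwards [ae_neB] with ξ hξ
    rw [AvB_shift hc ν h g b hξ]
  simp_rw [e1]
  have e2 : ∀ x : ZZ P m × X0, (x.1 + ((fun p => 2 * t * c p, 0) : ZZ P m), x.2) =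
      ((MeasurableEquiv.addLeft ((fun p => 2 * t * c p, 0) : ZZ P m)).prodCongr
        (MeasurableEquiv.refl X0)) x := by
    intro x
    have : ((MeasurableEquiv.addLeft ((fun p => 2 * t * c p, 0) : ZZ P m)).prodCongr
        (MeasurableEquiv.refl X0)) x = (((fun p => 2 * t * c p, 0) : ZZ P m) + x.1, x.2) := rfl
    rw [this, add_comm]
  simp_rw [e2]
  exact (mp_tr ν0 ((fun p => 2 * t * c p, 0) : ZZ P m)).lintegral_comp_emb
    (MeasurableEquiv.measurableEmbedding _) (fun x => ‖EB μ0 φ0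
      (fun ζ => ∫ l, PhB R c h g b l ζ ∂ν) t x‖ₑ ^ q)

end base

/-- **The estimate for averages.** -/
theorem jointB_final {q : ℝ} {P m k : ℕ} (hk : k ≤ 1) (hn : 2 ≤ 2 * P + m + k)
    (hq : 2 + 2 / ((2 * P + m + k : ℕ) : ℝ) < q) {R : ℝ} (hR : 0 ≤ R) :
    ∃ C : ℝ≥0∞, C ≠ ∞ ∧ ∀ c : Fin P → ℂ, (∀ p, ‖c p‖ ≤ R) →
      ∀ {Λ : Type} [MeasurableSpace Λ] {ν : Measure Λ} [IsProbabilityMeasure ν]
      (h : Λ × ((Fin P → ℝ) × (Fin k → ℝ)) → ℂ)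
      (g : Fin P → Λ × (ℝ × ((Fin P → ℝ) × (Fin k → ℝ))) → ℂ)
      (b : Fin m → Λ × (ℝ × ((Fin P → ℝ) × (Fin k → ℝ))) → ℂ), Measurable h →
      (∃ B : ℝ, ∀ p, ‖h p‖ ≤ B) → (∀ p, Measurable (g p)) → (∀ j, Measurable (b j)) →
      (∀ p l, RBY (c p) (fun v : (Fin P → ℝ) × (Fin k → ℝ) => v.1 p) (fun v => g p (l, v))) →
      (∀ j l, LBY (fun v => b j (l, v))) →
      ∫⁻ t, ∫⁻ x, ‖EB (muk k) (phk k) ((QB (Fin k → ℝ) P m).indicator (AvB ν c h g b)) t x‖ₑ ^ q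
        ∂(volume.prod volume) ≤
        C * ∫⁻ l, (∫⁻ v, ‖h (l, v)‖ₑ ^ q ∂((ciP P).prod (muk k))) ∂ν := by
  have hNN : 0 ≤ NN R := by unfold NN; positivity
  obtain ⟨C, hC, hfix⟩ := joint_FB hk hn hq hNN
  have hn0 : (0 : ℝ) < ((2 * P + m + k : ℕ) : ℝ) := by
    have : (2 : ℝ) ≤ ((2 * P + m + k : ℕ) : ℝ) := by exact_mod_cast hn
    linarith
  have hq1 : 1 ≤ q := by
    have : 0 < 2 / ((2 * P + m + k : ℕ) : ℝ) := by positivity
    linarith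
  refine ⟨C, hC, ?_⟩
  rintro c hc Λ _ ν _ h g b hm ⟨B, hB⟩ hg hb hgR hbL
  simp_rw [AvB_EB hc ν h g b]
  have ha : ∀ p : Fin P, Measurable fun v : (Fin P → ℝ) × (Fin k → ℝ) => v.1 p :=
    fun p => by fun_prop
  have hgP : ∀ l p, PN (NN R) (gB R c (fun p w => g p (l, w)) p) := fun l p =>
    gtY_PN hR (hc p) (ha p) (hgR p l)
  have hbP : ∀ l j, PN (NN R) (btY (fun w => b j (l, w))) := fun l j =>
    btY_PN hR (hbL j l)
  have hΦb : ∀ l ζ, ‖PhB R c h g b l ζ‖ ≤ (B * (NN R ^ P * NN R ^ m)) * ‖GZ ζ.1‖ :=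
    fun l ζ => FB_bd' (h := fun v => h (l, v)) hNN (fun v => hB (l, v)) (hgP l) (hbP l) ζ
  refine (avgB_le (phk_meas k) (norm_phk k)
    (Φ := fun r : Λ × (ZZ P m × (Fin k → ℝ)) => PhB R c h g b r.1 r.2)
    (PhB_meas _ c hm hg hb) hΦb hq1).trans ?_
  rw [← lintegral_const_mul' _ _ hC]
  apply lintegral_mono
  intro l
  have hml : Measurable fun v : (Fin P → ℝ) × (Fin k → ℝ) => h (l, v) := by
    have h1 := hm.comp (measurable_prodMk_left (x := l) :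
      Measurable fun v : (Fin P → ℝ) × (Fin k → ℝ) => (l, v))
    exact h1
  exact hfix (fun v => h (l, v)) (gB R c (fun p w => g p (l, w)))
    (fun j => btY (fun w => b j (l, w))) hml ⟨B, fun v => hB (l, v)⟩ (hgP l) (hbP l)

end Pool.Agent.T9h83.RAY
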