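import Pool.Agent.T9h83.RAY.Joint
set_option autoImplicit false

/-! The final estimate for averages of products of blocks with given centres. -/

namespace Pool.Agent.T9h83.RAY

open Complex MeasureTheory Set
open scoped ENNReal Real ComplexConjugate

lemma gt_meas {Λ : Type*} [MeasurableSpace Λ] (L : ℝ) (c : ℂ) {P : ℕ} (p : Fin P)
    {g : Λ × (ℝ × (Fin P → ℝ)) → ℂ} (hg : Measurable g) :
    Measurable fun r : Λ × (ℝ × (Fin P → ℝ)) => gt L c p (fun v => g (r.1, v)) r.2 := by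
  have hs : Measurable fun r : Λ × (ℝ × (Fin P → ℝ)) =>
      c + (Real.sqrt r.2.1 : ℝ) * cexp ((r.2.2 p : ℝ) * I) := by
    have h1 : Measurable fun r : Λ × (ℝ × (Fin P → ℝ)) => r.2.1 := by fun_prop
    have h2 : Measurable fun r : Λ × (ℝ × (Fin P → ℝ)) => cexp ((r.2.2 p : ℝ) * I) := by fun_prop
    exact measurable_const.add
      ((measurable_ofReal.comp (Real.continuous_sqrt.measurable.comp h1)).mul h2)
  have hset : MeasurableSet {r : Λ × (ℝ × (Fin P → ℝ)) | 0 < r.2.1 ∧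
      c + (Real.sqrt r.2.1 : ℝ) * cexp ((r.2.2 p : ℝ) * I) ∈ Qs} :=
    (measurableSet_lt measurable_const (measurable_fst.comp measurable_snd)).inter (hs Qs_meas)
  have e : (fun r : Λ × (ℝ × (Fin P → ℝ)) => gt L c p (fun v => g (r.1, v)) r.2) =
      fun r : Λ × (ℝ × (Fin P → ℝ)) => {r : Λ × (ℝ × (Fin P → ℝ)) | 0 < r.2.1 ∧
        c + (Real.sqrt r.2.1 : ℝ) * cexp ((r.2.2 p : ℝ) * I) ∈ Qs}.indicator
        (fun r => g (r.1, (Real.sqrt r.2.1, r.2.2))) r * (ew L r.2.1 : ℝ) := by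
    funext r
    unfold gt
    congr 1
  rw [e]
  have hgs : Measurable fun r : Λ × (ℝ × (Fin P → ℝ)) => g (r.1, (Real.sqrt r.2.1, r.2.2)) := by
    have a1 : Measurable fun r : Λ × (ℝ × (Fin P → ℝ)) => (r.1, (Real.sqrt r.2.1, r.2.2)) :=
      measurable_fst.prodMk ((Real.continuous_sqrt.measurable.comp
        (measurable_fst.comp measurable_snd)).prodMk (measurable_snd.comp measurable_snd))
    have a2 := hg.comp a1
    exact a2
  exact (hgs.indicator hset).mul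
    (measurable_ofReal.comp ((ew_cont L).measurable.comp (measurable_fst.comp measurable_snd)))

lemma bt_meas {Λ : Type*} [MeasurableSpace Λ] {P : ℕ}
    {b : Λ × (ℝ × (Fin P → ℝ)) → ℂ} (hb : Measurable b) :
    Measurable fun r : Λ × (ℝ × (Fin P → ℝ)) => bt (fun v => b (r.1, v)) r.2 := by
  have e : (fun r : Λ × (ℝ × (Fin P → ℝ)) => bt (fun v => b (r.1, v)) r.2) =
      fun r : Λ × (ℝ × (Fin P → ℝ)) =>
        {r : Λ × (ℝ × (Fin P → ℝ)) | r.2.1 ∈ Icc (-1 : ℝ) 1}.indicator b r * (el r.2.1 : ℝ) := by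
    funext r
    unfold bt
    congr 1
  rw [e]
  have h1 : Measurable fun r : Λ × (ℝ × (Fin P → ℝ)) => r.2.1 := by fun_prop
  exact (hb.indicator (h1 measurableSet_Icc)).mul (measurable_ofReal.comp (el_cont.measurable.comp h1))

section

variable {Λ : Type} [MeasurableSpace Λ] {P m : ℕ}

/-- the family of functions -/
noncomputable def PhL (L : ℝ) (c : Fin P → ℂ) (h : Λ × (Fin P → ℝ) → ℂ)
    (g : Fin P → Λ × (ℝ × (Fin P → ℝ)) → ℂ) (b : Fin m → Λ × (ℝ × (Fin P → ℝ)) → ℂ) (l : Λ) :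
    ZZ P m → ℂ :=
  FZ (fun θ => h (l, θ)) (fun p => gt L (c p) p (fun w => g p (l, w)))
    (fun j => bt (fun w => b j (l, w)))

lemma PhL_meas (L : ℝ) (c : Fin P → ℂ) {h : Λ × (Fin P → ℝ) → ℂ} (hm : Measurable h)
    {g : Fin P → Λ × (ℝ × (Fin P → ℝ)) → ℂ} (hg : ∀ p, Measurable (g p))
    {b : Fin m → Λ × (ℝ × (Fin P → ℝ)) → ℂ} (hb : ∀ j, Measurable (b j)) :
    Measurable fun r : Λ × ZZ P m => PhL L c h g b r.1 r.2 := by
  have h1 := FZ_meas (Y := Λ) (P := P) (m := m) (h := h) hm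
    (g := fun p r => gt L (c p) p (fun v => g p (r.1, v)) r.2)
    (fun p => gt_meas L (c p) p (hg p)) (b := fun j r => bt (fun v => b j (r.1, v)) r.2)
    (fun j => bt_meas (hb j))
  exact h1

/-- the averaged function -/
noncomputable def AvF (ν : Measure Λ) (c : Fin P → ℂ) (h : Λ × (Fin P → ℝ) → ℂ)
    (g : Fin P → Λ × (ℝ × (Fin P → ℝ)) → ℂ) (b : Fin m → Λ × (ℝ × (Fin P → ℝ)) → ℂ)
    (ζ : ZZ P m) : ℂ :=
  ∫ l, FJ c (fun θ => h (l, θ)) (fun p v => g p (l, v)) (fun j v => b j (l, v)) ζ ∂ν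

lemma AvF_shift {R : ℝ} {c : Fin P → ℂ} (hc : ∀ p, ‖c p‖ ≤ R) (ν : Measure Λ)
    (h : Λ × (Fin P → ℝ) → ℂ)
    (g : Fin P → Λ × (ℝ × (Fin P → ℝ)) → ℂ) (b : Fin m → Λ × (ℝ × (Fin P → ℝ)) → ℂ)
    {ξ : ZZ P m} (hξ : ∀ p, ξ.1 p ≠ 0) :
    (QZ P m).indicator (AvF ν c h g b) (((c, 0) : ZZ P m) + ξ) =
      ∫ l, PhL ((R + 2) ^ 2) c h g b l ξ ∂ν := by
  have e1 : ∀ l, PhL ((R + 2) ^ 2) c h g b l ξ = (QZ P m).indicator (FJ c (fun θ => h (l, θ))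
      (fun p v => g p (l, v)) (fun j v => b j (l, v))) (((c, 0) : ZZ P m) + ξ) := fun l =>
    (FJ_shift hc (fun θ => h (l, θ)) (fun p v => g p (l, v)) (fun j v => b j (l, v)) hξ).symm
  simp_rw [e1]
  by_cases hQ : ((c, 0) : ZZ P m) + ξ ∈ QZ P m
  · rw [indicator_of_mem hQ]
    unfold AvF
    congr 1; funext l
    rw [indicator_of_mem hQ]
  · rw [indicator_of_notMem hQ]
    have e2 : ∀ l, (QZ P m).indicator (FJ c (fun θ => h (l, θ))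
      (fun p v => g p (l, v)) (fun j v => b j (l, v))) (((c, 0) : ZZ P m) + ξ) = 0 := fun l =>
      indicator_of_notMem hQ _
    simp_rw [e2, integral_zero]

lemma AvF_EZ {R : ℝ} {c : Fin P → ℂ} (hc : ∀ p, ‖c p‖ ≤ R) (ν : Measure Λ)
    (h : Λ × (Fin P → ℝ) → ℂ)
    (g : Fin P → Λ × (ℝ × (Fin P → ℝ)) → ℂ) (b : Fin m → Λ × (ℝ × (Fin P → ℝ)) → ℂ)
    (t : ℝ) (q : ℝ) :
    ∫⁻ x, ‖EZ ((QZ P m).indicator (AvF ν c h g b)) t x‖ₑ ^ q =
      ∫⁻ x, ‖EZ (fun ζ => ∫ l, PhL ((R + 2) ^ 2) c h g b l ζ ∂ν) t x‖ₑ ^ q := by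
  have e1 : ∀ x, ‖EZ ((QZ P m).indicator (AvF ν c h g b)) t x‖ₑ ^ q =
      (fun x => ‖EZ (fun ζ => ∫ l, PhL ((R + 2) ^ 2) c h g b l ζ ∂ν) t x‖ₑ ^ q)
      (x + ((fun p => 2 * t * c p, 0) : ZZ P m)) := by
    intro x
    simp only
    rw [EZ_trans _ t x c]
    congr 2
    unfold EZ
    apply integral_congr_ae
    filter_upwards [ae_ne] with ξ hξ
    rw [AvF_shift hc ν h g b hξ]
  simp_rw [e1]
  exact lintegral_add_right_eq_self
    (fun x => ‖EZ (fun ζ => ∫ l, PhL ((R + 2) ^ 2) c h g b l ζ ∂ν) t x‖ₑ ^ q) _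

end

/-- **The estimate for averages of products of blocks.** -/
theorem joint_final {q : ℝ} {P m : ℕ} (hn : 2 ≤ 2 * P + m)
    (hq : 2 + 2 / ((2 * P + m : ℕ) : ℝ) < q) {R : ℝ} (hR : 0 ≤ R) :
    ∃ C : ℝ≥0∞, C ≠ ∞ ∧ ∀ c : Fin P → ℂ, (∀ p, ‖c p‖ ≤ R) →
      ∀ {Λ : Type} [MeasurableSpace Λ] {ν : Measure Λ} [IsProbabilityMeasure ν]
      (h : Λ × (Fin P → ℝ) → ℂ) (g : Fin P → Λ × (ℝ × (Fin P → ℝ)) → ℂ)
      (b : Fin m → Λ × (ℝ × (Fin P → ℝ)) → ℂ), Measurable h → (∃ B : ℝ, ∀ p, ‖h p‖ ≤ B) →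
      (∀ p, Measurable (g p)) → (∀ j, Measurable (b j)) →
      (∀ p l, RB (c p) p (fun v => g p (l, v))) → (∀ j l, LB (fun v => b j (l, v))) →
      ∫⁻ t, ∫⁻ x, ‖EZ ((QZ P m).indicator (AvF ν c h g b)) t x‖ₑ ^ q ≤
        C * ∫⁻ l, (∫⁻ θ, ‖h (l, θ)‖ₑ ^ q ∂(ciP P)) ∂ν := by
  have hNN : 0 ≤ NN R := by unfold NN; positivity
  obtain ⟨C, hC, hfix⟩ := joint_FZ hn hq hNN
  have hn0 : (0 : ℝ) < ((2 * P + m : ℕ) : ℝ) := by
    have : (2 : ℝ) ≤ ((2 * P + m : ℕ) : ℝ) := by exact_mod_cast hn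
    linarith
  have hq1 : 1 ≤ q := by
    have : 0 < 2 / ((2 * P + m : ℕ) : ℝ) := by positivity
    linarith
  refine ⟨C, hC, ?_⟩
  rintro c hc Λ _ ν _ h g b hm ⟨B, hB⟩ hg hb hgR hbL
  simp_rw [AvF_EZ hc ν h g b]
  have hgP : ∀ l p, PN (NN R) (gt ((R + 2) ^ 2) (c p) p (fun w => g p (l, w))) := fun l p =>
    gt_PN hR (hc p) (hgR p l)
  have hbP : ∀ l j, PN (NN R) (bt (fun w => b j (l, w))) := fun l j =>
    bt_PN hR (hbL j l)
  have hΦb : ∀ l ζ, ‖PhL ((R + 2) ^ 2) c h g b l ζ‖ ≤ (B * (NN R ^ P * NN R ^ m)) * ‖GZ ζ‖ :=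
    fun l ζ => FZ_bd (h := fun θ => h (l, θ)) (fun θ => hB (l, θ)) (hgP l) (hbP l) ζ
  refine (avg_le (Φ := fun r : Λ × ZZ P m => PhL ((R + 2) ^ 2) c h g b r.1 r.2)
    (PhL_meas _ c hm hg hb) hΦb hq1).trans ?_
  rw [← lintegral_const_mul' _ _ hC]
  apply lintegral_mono
  intro l
  have hml : Measurable fun θ : Fin P → ℝ => h (l, θ) := by
    have h1 := hm.comp (measurable_prodMk_left (x := l) : Measurable fun θ : Fin P → ℝ => (l, θ))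
    exact h1
  exact hfix (fun θ => h (l, θ)) (fun p => gt ((R + 2) ^ 2) (c p) p (fun w => g p (l, w)))
    (fun j => bt (fun w => b j (l, w))) hml ⟨B, fun θ => hB (l, θ)⟩ (hgP l) (hbP l)

end Pool.Agent.T9h83.RAY
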