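import Pool.Agent.T9h83.RAY.JB3
set_option autoImplicit false

/-! The final estimate for averages which may depend on the rough variables. -/

namespace Pool.Agent.T9h83.RAY

open Complex MeasureTheory Set ProbabilityTheory
open scoped ENNReal Real ComplexConjugate unitInterval

section base

variable {Z0 : Type} [MeasurableSpace Z0] {P m : ℕ} {Λ : Type} [MeasurableSpace Λ]

/-- the averaged function -/
noncomputable def AvK (κ : Kernel ((Fin P → ℝ) × Z0) Λ) (c : Fin P → ℂ)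
    (h : Λ × ((Fin P → ℝ) × Z0) → ℂ)
    (g : Fin P → Λ × (ℝ × ((Fin P → ℝ) × Z0)) → ℂ)
    (b : Fin m → Λ × (ℝ × ((Fin P → ℝ) × Z0)) → ℂ) (ζ : ZZ P m × Z0) : ℂ :=
  ∫ l, FJB c (fun v => h (l, v)) (fun p v => g p (l, v)) (fun j v => b j (l, v)) ζ
    ∂(κ (arP (ζ.1.1 - c), ζ.2))

lemma FJB_measl (c : Fin P → ℂ) {h : Λ × ((Fin P → ℝ) × Z0) → ℂ} (hm : Measurable h)
    {g : Fin P → Λ × (ℝ × ((Fin P → ℝ) × Z0)) → ℂ} (hg : ∀ p, Measurable (g p))
    {b : Fin m → Λ × (ℝ × ((Fin P → ℝ) × Z0)) → ℂ} (hb : ∀ j, Measurable (b j)) :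
    Measurable fun r : (ZZ P m × Z0) × Λ => FJB c (fun v => h (r.2, v)) (fun p v => g p (r.2, v))
      (fun j v => b j (r.2, v)) r.1 := by
  have ha : Measurable fun r : (ZZ P m × Z0) × Λ => (arP (r.1.1.1 - c), r.1.2) := by
    have h1 : Measurable fun r : (ZZ P m × Z0) × Λ => r.1.1.1 - c := by fun_prop
    have h2 := arP_meas.comp h1
    have h3 : Measurable fun r : (ZZ P m × Z0) × Λ => r.1.2 := by fun_prop
    exact h2.prodMk h3
  have hl : Measurable fun r : (ZZ P m × Z0) × Λ => r.2 := measurable_snd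
  have h1 : Measurable fun r : (ZZ P m × Z0) × Λ => h (r.2, (arP (r.1.1.1 - c), r.1.2)) := by
    have h2 := hm.comp (hl.prodMk ha)
    exact h2
  have h2 : ∀ p, Measurable fun r : (ZZ P m × Z0) × Λ =>
      g p (r.2, (‖r.1.1.1 p - c p‖, (arP (r.1.1.1 - c), r.1.2))) := by
    intro p
    have h3 : Measurable fun r : (ZZ P m × Z0) × Λ => ‖r.1.1.1 p - c p‖ := by fun_prop
    have h4 := (hg p).comp (hl.prodMk (h3.prodMk ha))
    exact h4
  have h3 : ∀ j, Measurable fun r : (ZZ P m × Z0) × Λ =>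
      b j (r.2, (r.1.1.2 j, (arP (r.1.1.1 - c), r.1.2))) := by
    intro j
    have h3 : Measurable fun r : (ZZ P m × Z0) × Λ => r.1.1.2 j := by fun_prop
    have h4 := (hb j).comp (hl.prodMk (h3.prodMk ha))
    exact h4
  unfold FJB
  exact h1.mul ((Finset.measurable_prod _ fun p _ => h2 p).mul
    (Finset.measurable_prod _ fun j _ => h3 j))

lemma AvB_meas (ν : Measure Λ) [SFinite ν]
    (c : Fin P → ℂ) {h : Λ × ((Fin P → ℝ) × Z0) → ℂ} (hm : Measurable h)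
    {g : Fin P → Λ × (ℝ × ((Fin P → ℝ) × Z0)) → ℂ} (hg : ∀ p, Measurable (g p))
    {b : Fin m → Λ × (ℝ × ((Fin P → ℝ) × Z0)) → ℂ} (hb : ∀ j, Measurable (b j)) :
    Measurable (AvB ν c h g b) := by
  have h5 := FJB_measl c hm hg hb
  exact h5.stronglyMeasurable.integral_prod_right'.measurable

lemma AvK_eq {κ : Kernel ((Fin P → ℝ) × Z0) Λ} {ψ : ((Fin P → ℝ) × Z0) → I → Λ}
    (hψ : Measurable (Function.uncurry ψ)) (hκ : ∀ v, (volume : Measure I).map (ψ v) = κ v)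
    (c : Fin P → ℂ) {h : Λ × ((Fin P → ℝ) × Z0) → ℂ} (hm : Measurable h)
    {g : Fin P → Λ × (ℝ × ((Fin P → ℝ) × Z0)) → ℂ} (hg : ∀ p, Measurable (g p))
    {b : Fin m → Λ × (ℝ × ((Fin P → ℝ) × Z0)) → ℂ} (hb : ∀ j, Measurable (b j)) :
    AvK κ c h g b = AvB (volume : Measure I) c (fun r => h (ψ r.2 r.1, r.2))
      (fun p r => g p (ψ r.2.2 r.1, r.2)) (fun j r => b j (ψ r.2.2 r.1, r.2)) := by
  funext ζ
  unfold AvK AvB
  rw [← hκ]
  have h1 : Measurable fun l : Λ => FJB c (fun v => h (l, v)) (fun p v => g p (l, v))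
      (fun j v => b j (l, v)) ζ := by
    have h2 := (FJB_measl c hm hg hb).comp (measurable_prodMk_left (x := ζ) :
      Measurable fun l : Λ => (ζ, l))
    exact h2
  have h2 : Measurable (ψ (arP (ζ.1.1 - c), ζ.2)) := hψ.of_uncurry_left
  rw [integral_map h2.aemeasurable h1.aestronglyMeasurable]
  rfl

end base

/-- **The estimate for averages depending on the rough variables.** -/
theorem jointK_final {q : ℝ} {P m k : ℕ} (hk : k ≤ 1) (hn : 2 ≤ 2 * P + m + k)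
    (hq : 2 + 2 / ((2 * P + m + k : ℕ) : ℝ) < q) {R : ℝ} (hR : 0 ≤ R) :
    ∃ C : ℝ≥0∞, C ≠ ∞ ∧ ∀ c : Fin P → ℂ, (∀ p, ‖c p‖ ≤ R) →
      ∀ {Λ : Type} [MeasurableSpace Λ] [StandardBorelSpace Λ]
      (κ : Kernel ((Fin P → ℝ) × (Fin k → ℝ)) Λ) [IsMarkovKernel κ]
      (h : Λ × ((Fin P → ℝ) × (Fin k → ℝ)) → ℂ)
      (g : Fin P → Λ × (ℝ × ((Fin P → ℝ) × (Fin k → ℝ))) → ℂ)
      (b : Fin m → Λ × (ℝ × ((Fin P → ℝ) × (Fin k → ℝ))) → ℂ), Measurable h →
      (∃ B : ℝ, ∀ p, ‖h p‖ ≤ B) → (∀ p, Measurable (g p)) → (∀ j, Measurable (b j)) →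
      (∀ p l, RBY (c p) (fun v : (Fin P → ℝ) × (Fin k → ℝ) => v.1 p) (fun v => g p (l, v))) →
      (∀ j l, LBY (fun v => b j (l, v))) →
      Measurable (AvK κ c h g b) ∧
      ∫⁻ t, ∫⁻ x, ‖EB (muk k) (phk k) ((QB (Fin k → ℝ) P m).indicator (AvK κ c h g b)) t x‖ₑ ^ q
        ∂(volume.prod volume) ≤
        C * ∫⁻ v, (∫⁻ l, ‖h (l, v)‖ₑ ^ q ∂(κ v)) ∂((ciP P).prod (muk k)) := by
  obtain ⟨C, hC, hfin⟩ := jointB_final (P := P) (m := m) hk hn hq hR
  refine ⟨C, hC, ?_⟩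
  rintro c hc Λ _ _ κ _ h g b hm ⟨B, hB⟩ hg hb hgR hbL
  have hne : Nonempty Λ := by
    have h1 : κ (0, 0) univ ≠ 0 := by rw [measure_univ]; exact one_ne_zero
    obtain ⟨l, _⟩ := nonempty_of_measure_ne_zero h1
    exact ⟨l⟩
  obtain ⟨ψ, hψ, hκ⟩ := Kernel.exists_measurable_map_eq_unitInterval κ
  have hψ2 : Measurable fun r : I × ((Fin P → ℝ) × (Fin k → ℝ)) => ψ r.2 r.1 := by
    have h1 := hψ.comp (measurable_swap : Measurable fun r : I × ((Fin P → ℝ) × (Fin k → ℝ)) =>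
      r.swap)
    exact h1
  have hψ3 : Measurable fun r : I × (ℝ × ((Fin P → ℝ) × (Fin k → ℝ))) => ψ r.2.2 r.1 := by
    have h0 : Measurable fun r : I × (ℝ × ((Fin P → ℝ) × (Fin k → ℝ))) => (r.1, r.2.2) := by
      fun_prop
    have h1 := hψ2.comp h0
    exact h1
  have hm' : Measurable fun r : I × ((Fin P → ℝ) × (Fin k → ℝ)) => h (ψ r.2 r.1, r.2) :=
    hm.comp (hψ2.prodMk measurable_snd)
  have hg' : ∀ p, Measurable fun r : I × (ℝ × ((Fin P → ℝ) × (Fin k → ℝ))) =>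
      g p (ψ r.2.2 r.1, r.2) := fun p => (hg p).comp (hψ3.prodMk measurable_snd)
  have hb' : ∀ j, Measurable fun r : I × (ℝ × ((Fin P → ℝ) × (Fin k → ℝ))) =>
      b j (ψ r.2.2 r.1, r.2) := fun j => (hb j).comp (hψ3.prodMk measurable_snd)
  have e1 := AvK_eq hψ hκ c hm hg hb
  rw [e1]
  refine ⟨AvB_meas _ c hm' hg' hb', ?_⟩
  refine (hfin c hc (ν := (volume : Measure I)) _ _ _ hm' ⟨B, fun p => hB _⟩ hg' hb' ?_ ?_).trans
    (le_of_eq ?_)
  · intro p u
    refine ⟨?_, ?_, ?_⟩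
    · have h1 := (hg' p).comp (measurable_prodMk_left (x := u) :
        Measurable fun v : ℝ × ((Fin P → ℝ) × (Fin k → ℝ)) => (u, v))
      exact h1
    · intro y r hr hQ
      exact (hgR p (ψ y u)).bdd y r hr hQ
    · intro y
      exact (hgR p (ψ y u)).var y
  · intro j u
    refine ⟨?_, ?_, ?_⟩
    · have h1 := (hb' j).comp (measurable_prodMk_left (x := u) :
        Measurable fun v : ℝ × ((Fin P → ℝ) × (Fin k → ℝ)) => (u, v))
      exact h1
    · intro y s hs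
      exact (hbL j (ψ y u)).bdd y s hs
    · intro y
      exact (hbL j (ψ y u)).var y
  · congr 1
    rw [lintegral_lintegral_swap (hm'.enorm.pow_const q).aemeasurable]
    apply lintegral_congr
    intro v
    have h2 : Measurable (ψ v) := hψ.of_uncurry_left
    have h3 : Measurable fun l : Λ => ‖h (l, v)‖ₑ ^ q := by
      have h4 := hm.comp (measurable_prodMk_right (y := v) : Measurable fun l : Λ => (l, v))
      exact h4.enorm.pow_const q
    rw [← hκ v, lintegral_map h3 h2]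

end Pool.Agent.T9h83.RAY
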