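import Pool.Agent.T9h83.RAY.FixP
import Pool.Agent.T9h83.RAY.BVR
set_option autoImplicit false

/-! Functions of bounded variation along the rays from a point. -/

namespace Pool.Agent.T9h83.RAY

open Complex MeasureTheory Set
open scoped ENNReal Real ComplexConjugate

/-- the square -/
def Qs : Set ℂ := {z | |z.re| ≤ 1 ∧ |z.im| ≤ 1}

lemma Qs_meas : MeasurableSet Qs :=
  (measurableSet_le measurable_re.norm measurable_const).inter
    (measurableSet_le measurable_im.norm measurable_const)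

lemma Qs_norm {z : ℂ} (h : z ∈ Qs) : ‖z‖ ≤ 2 := by
  have := Complex.norm_le_abs_re_add_abs_im z
  linarith [h.1, h.2]

/-- bounded by one on the square and of variation at most one on each ray from `c` -/
structure RayBV (c : ℂ) (f : ℂ → ℂ) : Prop where
  meas : Measurable f
  bdd : ∀ z ∈ Qs, ‖f z‖ ≤ 1
  var : ∀ e : ℂ, eVariationOn (fun r : ℝ => f (c + r * e)) {r : ℝ | 0 < r ∧ c + r * e ∈ Qs} ≤ 1

/-- the direction -/
noncomputable def dirn (ξ : ℂ) : ℂ := if ξ = 0 then 1 else ((‖ξ‖⁻¹ : ℝ) : ℂ) * ξ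

lemma dirn_meas : Measurable dirn := by
  unfold dirn
  refine Measurable.ite (measurableSet_singleton (0:ℂ)) measurable_const ?_
  exact (measurable_ofReal.comp measurable_norm.inv).mul measurable_id

lemma norm_dirn (ξ : ℂ) : ‖dirn ξ‖ = 1 := by
  unfold dirn
  split_ifs with h
  · exact norm_one
  · rw [norm_mul, norm_real, norm_inv, norm_norm]
    exact inv_mul_cancel₀ (norm_ne_zero_iff.2 h)

lemma dirn_hom {r : ℝ} (hr : 0 < r) (ξ : ℂ) : dirn (r * ξ) = dirn ξ := by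
  unfold dirn
  have hr' : (r : ℂ) ≠ 0 := by exact_mod_cast hr.ne'
  by_cases h : ξ = 0
  · simp [h]
  · rw [if_neg h, if_neg (mul_ne_zero hr' h), norm_mul, norm_real, Real.norm_eq_abs,
      abs_of_pos hr, mul_inv]
    push_cast
    field_simp

lemma norm_mul_dirn {ξ : ℂ} (h : ξ ≠ 0) : (‖ξ‖ : ℂ) * dirn ξ = ξ := by
  unfold dirn
  rw [if_neg h]
  have : (‖ξ‖ : ℂ) ≠ 0 := by exact_mod_cast norm_ne_zero_iff.2 h
  push_cast
  field_simp

/-- the set of parameters on a ray -/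
def Sr (c e : ℂ) : Set ℝ := {u : ℝ | 0 < u ∧ c + (Real.sqrt u : ℝ) * e ∈ Qs}

lemma affine_between {a b u v w : ℝ} (hu : |a + u * b| ≤ 1) (hv : |a + v * b| ≤ 1) (h1 : u ≤ w)
    (h2 : w ≤ v) : |a + w * b| ≤ 1 := by
  rw [abs_le] at *
  rcases le_total 0 b with hb | hb
  · constructor <;> nlinarith
  · constructor <;> nlinarith

lemma Sr_ord (c e : ℂ) : (Sr c e).OrdConnected := by
  refine ⟨fun u hu v hv w hw => ?_⟩
  have h0 : 0 < w := lt_of_lt_of_le hu.1 hw.1
  refine ⟨h0, ?_⟩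
  have s1 : Real.sqrt u ≤ Real.sqrt w := Real.sqrt_le_sqrt hw.1
  have s2 : Real.sqrt w ≤ Real.sqrt v := Real.sqrt_le_sqrt hw.2
  have a1 := hu.2
  have a2 := hv.2
  simp only [Qs, mem_ofPred_eq, add_re, add_im, re_ofReal_mul, im_ofReal_mul] at a1 a2 ⊢
  exact ⟨affine_between a1.1 a2.1 s1 s2, affine_between a1.2 a2.2 s1 s2⟩

lemma Sr_meas (c e : ℂ) : MeasurableSet (Sr c e) := by
  have h1 : Measurable fun u : ℝ => c + (Real.sqrt u : ℝ) * e :=
    measurable_const.add ((measurable_ofReal.comp Real.continuous_sqrt.measurable).mul measurable_const)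
  exact (measurableSet_lt measurable_const measurable_id).inter (h1 Qs_meas)

lemma Sr_sub {c e : ℂ} {R : ℝ} (hc : ‖c‖ ≤ R) (he : ‖e‖ = 1) : Sr c e ⊆ Icc 0 ((R + 2) ^ 2) := by
  intro u hu
  refine ⟨hu.1.le, ?_⟩
  have h1 := Qs_norm hu.2
  have h2 : ‖((Real.sqrt u : ℝ) : ℂ) * e‖ = Real.sqrt u := by
    rw [norm_mul, he, mul_one, norm_real, Real.norm_eq_abs, abs_of_nonneg (Real.sqrt_nonneg _)]
  have h3 : ‖((Real.sqrt u : ℝ) : ℂ) * e‖ ≤ ‖c + (Real.sqrt u : ℝ) * e‖ + ‖c‖ := by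
    calc ‖((Real.sqrt u : ℝ) : ℂ) * e‖ = ‖(c + (Real.sqrt u : ℝ) * e) - c‖ := by ring_nf
      _ ≤ _ := norm_sub_le _ _
  rw [h2] at h3
  have h4 : Real.sqrt u ≤ R + 2 := by linarith
  have h5 := Real.sq_sqrt hu.1.le
  have h6 := Real.sqrt_nonneg u
  nlinarith

/-- the profile of a function -/
noncomputable def Gp (L : ℝ) (c : ℂ) (f : ℂ → ℂ) (p : ℝ × ℂ) : ℂ :=
  (Sr c (dirn p.2)).indicator (fun u => f (c + (Real.sqrt u : ℝ) * dirn p.2)) p.1 * (ew L p.1 : ℝ)

lemma Gp_prof {R : ℝ} (hR : 0 ≤ R) {c : ℂ} (hc : ‖c‖ ≤ R) {f : ℂ → ℂ} (hf : RayBV c f) :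
    Prof ((R + 2) ^ 2 * Real.exp (π * (R + 2) ^ 2))
      (3 * Real.exp (π * (R + 2) ^ 2) + (R + 2) ^ 2 * (Real.exp (π * (R + 2) ^ 2) * π))
      (Gp ((R + 2) ^ 2) c f) := by
  set L := (R + 2) ^ 2 with hL
  have hL0 : 0 ≤ L := by positivity
  set W := Real.exp (π * L) with hW
  have hW0 : 0 < W := Real.exp_pos _
  have hpi := Real.pi_pos
  have hbd : ∀ e : ℂ, ∀ u ∈ Sr c e, ‖f (c + (Real.sqrt u : ℝ) * e)‖ ≤ 1 := fun e u hu =>
    hf.bdd _ hu.2
  have hind : ∀ e u, ‖(Sr c e).indicator (fun u => f (c + (Real.sqrt u : ℝ) * e)) u‖ ≤ 1 := by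
    intro e u
    by_cases h : u ∈ Sr c e
    · rw [indicator_of_mem h]; exact hbd e u h
    · rw [indicator_of_notMem h, norm_zero]; exact zero_le_one
  refine ⟨?_, ?_, ?_, ?_⟩
  · -- measurability
    have hd : Measurable fun p : ℝ × ℂ => dirn p.2 := dirn_meas.comp measurable_snd
    have hs : Measurable fun p : ℝ × ℂ => c + (Real.sqrt p.1 : ℝ) * dirn p.2 :=
      measurable_const.add
        ((measurable_ofReal.comp (Real.continuous_sqrt.measurable.comp measurable_fst)).mul hd)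
    have hset : MeasurableSet {p : ℝ × ℂ | 0 < p.1 ∧ c + (Real.sqrt p.1 : ℝ) * dirn p.2 ∈ Qs} :=
      (measurableSet_lt measurable_const measurable_fst).inter (hs Qs_meas)
    have e : Gp L c f = fun p : ℝ × ℂ =>
        {p : ℝ × ℂ | 0 < p.1 ∧ c + (Real.sqrt p.1 : ℝ) * dirn p.2 ∈ Qs}.indicator
          (fun p => f (c + (Real.sqrt p.1 : ℝ) * dirn p.2)) p * (ew L p.1 : ℝ) := by
      funext p
      unfold Gp
      congr 1
    rw [e]
    exact ((hf.meas.comp hs).indicator hset).mul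
      (measurable_ofReal.comp ((ew_cont L).measurable.comp measurable_fst))
  · -- the integral
    intro ξ
    have h1 : ∀ u, ‖Gp L c f (u, ξ)‖ₑ ≤ (Icc 0 L).indicator (fun _ => ENNReal.ofReal W) u := by
      intro u
      unfold Gp
      simp only
      by_cases h : u ∈ Sr c (dirn ξ)
      · rw [indicator_of_mem h, indicator_of_mem (Sr_sub hc (norm_dirn ξ) h), ← ofReal_norm,
          norm_mul, norm_real, Real.norm_eq_abs, abs_of_pos (ew_pos _ _)]
        apply ENNReal.ofReal_le_ofReal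
        calc _ ≤ 1 * W := by
              apply mul_le_mul (hbd _ _ h) (ew_le hL0 u) (ew_pos _ _).le zero_le_one
          _ = W := one_mul _
      · rw [indicator_of_notMem h, zero_mul, enorm_zero]
        exact zero_le
    refine (lintegral_mono h1).trans ?_
    rw [lintegral_indicator measurableSet_Icc, setLIntegral_const, Real.volume_Icc, sub_zero,
      ← ENNReal.ofReal_mul hW0.le, mul_comm]
  · -- homogeneity
    intro r hr u ξ
    unfold Gp
    simp only
    rw [dirn_hom hr]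
  · -- the modulus
    intro ξ h
    set e := dirn ξ with he
    set g : ℝ → ℂ := fun u => f (c + (Real.sqrt u : ℝ) * e) with hg
    have hv : eVariationOn g (Sr c e) ≤ 1 := by
      refine le_trans ?_ (hf.var e)
      have := eVariationOn.comp_le_of_monotoneOn (fun r : ℝ => f (c + r * e))
        (s := {r : ℝ | 0 < r ∧ c + r * e ∈ Qs}) (t := Sr c e) (fun u => Real.sqrt u)
        (fun u _ v _ huv => Real.sqrt_le_sqrt huv)
        (fun u hu => ⟨Real.sqrt_pos.2 hu.1, hu.2⟩)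
      exact this
    have hmod := bv_mod (Sr_ord c e) (Sr_meas c e) hL0 (Sr_sub hc (norm_dirn ξ)) (hbd e) hv h
    set gi : ℝ → ℂ := (Sr c e).indicator g with hgi
    have hGp : ∀ u, Gp L c f (u, ξ) = gi u * (ew L u : ℝ) := fun u => rfl
    have hpt : ∀ u, ‖Gp L c f (u + h, ξ) - Gp L c f (u, ξ)‖ₑ ≤
        ENNReal.ofReal W * ‖gi (u + h) - gi u‖ₑ +
          (Icc 0 L).indicator (fun _ => ENNReal.ofReal (W * π * |h|)) u := by
      intro u
      rw [hGp, hGp]
      have e1 : gi (u + h) * (ew L (u + h) : ℝ) - gi u * (ew L u : ℝ) =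
          (gi (u + h) - gi u) * (ew L (u + h) : ℝ) +
            gi u * ((ew L (u + h) - ew L u : ℝ) : ℂ) := by
        push_cast; ring
      rw [e1]
      refine (enorm_add_le _ _).trans (add_le_add ?_ ?_)
      · rw [enorm_mul, mul_comm]
        gcongr
        rw [← ofReal_norm, norm_real, Real.norm_eq_abs, abs_of_pos (ew_pos _ _)]
        exact ENNReal.ofReal_le_ofReal (ew_le hL0 _)
      · by_cases hu : u ∈ Sr c e
        · rw [indicator_of_mem (Sr_sub hc (norm_dirn ξ) hu), ← ofReal_norm, norm_mul, norm_real,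
            Real.norm_eq_abs]
          apply ENNReal.ofReal_le_ofReal
          have h2 := ew_lip hL0 (u + h) u
          rw [add_sub_cancel_left] at h2
          calc _ ≤ 1 * (W * π * |h|) := mul_le_mul (hind e u) h2 (abs_nonneg _) zero_le_one
            _ = _ := one_mul _
        · have : gi u = 0 := indicator_of_notMem hu _
          rw [this, zero_mul, enorm_zero]
          exact zero_le
    refine (lintegral_mono hpt).trans ?_
    have hm : Measurable fun u : ℝ =>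
        (Icc 0 L).indicator (fun _ => ENNReal.ofReal (W * π * |h|)) u :=
      measurable_const.indicator measurableSet_Icc
    rw [lintegral_add_right _ hm, lintegral_const_mul' _ _ ENNReal.ofReal_ne_top,
      lintegral_indicator measurableSet_Icc, setLIntegral_const, Real.volume_Icc, sub_zero]
    calc ENNReal.ofReal W * (∫⁻ u, ‖gi (u + h) - gi u‖ₑ) +
          ENNReal.ofReal (W * π * |h|) * ENNReal.ofReal L ≤
        ENNReal.ofReal W * ENNReal.ofReal (3 * |h|) +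
          ENNReal.ofReal (W * π * |h|) * ENNReal.ofReal L := by gcongr
      _ = ENNReal.ofReal ((3 * W + L * (W * π)) * |h|) := by
          rw [← ENNReal.ofReal_mul hW0.le, ← ENNReal.ofReal_mul (by positivity),
            ← ENNReal.ofReal_add (by positivity) (by positivity)]
          congr 1
          ring

lemma Gp_gs {R : ℝ} {c : ℂ} (hc : ‖c‖ ≤ R) (f : ℂ → ℂ) {ξ : ℂ} (hξ : ξ ≠ 0) :
    Gp ((R + 2) ^ 2) c f (‖ξ‖ ^ 2, ξ) * gs ξ = Qs.indicator f (c + ξ) := by
  have hn : 0 < ‖ξ‖ := norm_pos_iff.2 hξ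
  have hs : Real.sqrt (‖ξ‖ ^ 2) = ‖ξ‖ := Real.sqrt_sq hn.le
  unfold Gp
  simp only
  by_cases h : c + ξ ∈ Qs
  · have h1 : ‖ξ‖ ^ 2 ∈ Sr c (dirn ξ) := by
      refine ⟨by positivity, ?_⟩
      rw [hs, norm_mul_dirn hξ]
      exact h
    rw [indicator_of_mem h1, indicator_of_mem h, hs, norm_mul_dirn hξ]
    have h2 := Sr_sub hc (norm_dirn ξ) h1
    rw [ew_eq h2.1 h2.2, mul_assoc]
    unfold gs
    rw [← ofReal_mul, ← Real.exp_add]
    simp
  · have h1 : ‖ξ‖ ^ 2 ∉ Sr c (dirn ξ) := by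
      intro h2
      apply h
      have := h2.2
      rwa [hs, norm_mul_dirn hξ] at this
    rw [indicator_of_notMem h1, indicator_of_notMem h, zero_mul, zero_mul]

lemma ph_trans (x c η : ℂ) (t : ℝ) : ph x t (c + η) = ph x t c * ph (x + 2 * t * c) t η := by
  unfold ph
  rw [← Complex.exp_add]
  congr 1
  have h1 : ‖c + η‖ ^ 2 = ‖c‖ ^ 2 + 2 * (c.re * η.re + c.im * η.im) + ‖η‖ ^ 2 := by
    rw [← normSq_eq_norm_sq, ← normSq_eq_norm_sq, ← normSq_eq_norm_sq, normSq_apply,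
      normSq_apply, normSq_apply, add_re, add_im]
    ring
  have h2 : (x + 2 * t * c).re = x.re + 2 * t * c.re := by
    rw [add_re, show (2 * t * c : ℂ) = ((2 * t : ℝ) : ℂ) * c by push_cast; ring, re_ofReal_mul]
  have h3 : (x + 2 * t * c).im = x.im + 2 * t * c.im := by
    rw [add_im, show (2 * t * c : ℂ) = ((2 * t : ℝ) : ℂ) * c by push_cast; ring, im_ofReal_mul]
  rw [h1, h2, h3, add_re, add_im]
  push_cast
  ring

lemma EV_trans (F : ℂ → ℂ) (x c : ℂ) (t : ℝ) :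
    ‖EV F x t‖ₑ = ‖EV (fun ξ => F (c + ξ)) (x + 2 * t * c) t‖ₑ := by
  have h1 : EV F x t = ph x t c * EV (fun ξ => F (c + ξ)) (x + 2 * t * c) t := by
    unfold EV
    rw [← integral_add_left_eq_self (fun ξ => F ξ * ph x t ξ) c, ← integral_const_mul]
    congr 1; funext η
    rw [ph_trans]
    ring
  rw [h1, enorm_mul, ← ofReal_norm (ph x t c), norm_ph, ENNReal.ofReal_one, one_mul]

/-- **The estimate at a fixed time for functions of bounded variation along rays.** -/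
theorem ray_fix {q : ℝ} (hq2 : 2 < q) (hq4 : q ≤ 4) {ρ : ℝ} (hρ0 : 0 ≤ ρ) (hρ : ρ < q - 2)
    {R : ℝ} (hR : 0 ≤ R) :
    ∃ C : ℝ≥0∞, C ≠ ∞ ∧ ∀ c : ℂ, ‖c‖ ≤ R → ∀ f : ℂ → ℂ, RayBV c f → ∀ t : ℝ,
      ∫⁻ x, ‖EV (Qs.indicator f) x t‖ₑ ^ q ≤ C * jb t ^ (-ρ) := by
  have hq0 : 0 < q - 2 := by linarith
  set κ : ℝ := max 1 ((ρ * 2 / (q - 2) + 2) / 2) with hκ
  have ha : ρ * 2 / (q - 2) < 2 := by
    rw [div_lt_iff₀ hq0]; linarith
  have h1 : 1 ≤ κ := le_max_left _ _
  have h2 : κ < 2 := max_lt (by norm_num) (by linarith)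
  have h3 : ρ < κ * ((q - 2) / 2) := by
    have h4 : (ρ * 2 / (q - 2) + 2) / 2 ≤ κ := le_max_right _ _
    have h5 : ρ * 2 / (q - 2) < κ := by linarith
    rw [div_lt_iff₀ hq0] at h5
    linarith
  obtain ⟨C, hC, h⟩ := fixprof h1 h2 hq2 hq4 hρ0 h3
  set W := Real.exp (π * (R + 2) ^ 2) with hW
  have hW0 : 0 < W := Real.exp_pos _
  have hpi := Real.pi_pos
  set N := (R + 2) ^ 2 * W + (3 * W + (R + 2) ^ 2 * (W * π)) with hN
  refine ⟨C * ENNReal.ofReal N ^ q, ENNReal.mul_ne_top hC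
    (ENNReal.rpow_ne_top_of_nonneg (by linarith) ENNReal.ofReal_ne_top), ?_⟩
  intro c hc f hf t
  have hP := Gp_prof hR hc hf
  have h5 := h _ _ N (by positivity) (by positivity) (by positivity) le_rfl _ hP t
  refine le_trans (le_of_eq ?_) h5
  have e1 : ∀ x, ‖EV (Qs.indicator f) x t‖ₑ ^ q =
      (fun x => ‖EV (fun ξ => Gp ((R + 2) ^ 2) c f (‖ξ‖ ^ 2, ξ) * gs ξ) x t‖ₑ ^ q)
        (x + 2 * t * c) := by
    intro x
    simp only
    rw [EV_trans _ x c t]
    congr 2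
    unfold EV
    apply integral_congr_ae
    filter_upwards [ae_ne_zero] with ξ hξ
    rw [Gp_gs hc f hξ]
  simp_rw [e1]
  exact lintegral_add_right_eq_self
    (fun x => ‖EV (fun ξ => Gp ((R + 2) ^ 2) c f (‖ξ‖ ^ 2, ξ) * gs ξ) x t‖ₑ ^ q) _

end Pool.Agent.T9h83.RAY
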