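import Pool.Agent.T9h83.RAY.Ind2
import Pool.Agent.T9h83.RAY.Ray
set_option autoImplicit false

/-! Profiles of functions of bounded variation in the radii and in the linear variables. -/

namespace Pool.Agent.T9h83.RAY

open Complex MeasureTheory Set
open scoped ENNReal Real ComplexConjugate

section core

variable {S : Set ℝ} {L : ℝ} {φ : ℝ → ℂ}

lemma ind_le (hb : ∀ u ∈ S, ‖φ u‖ ≤ 1) (u : ℝ) : ‖S.indicator φ u‖ ≤ 1 := by
  by_cases h : u ∈ S
  · rw [indicator_of_mem h]; exact hb u h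
  · rw [indicator_of_notMem h, norm_zero]; exact zero_le_one

lemma core_bd (hL : 0 ≤ L) (hb : ∀ u ∈ S, ‖φ u‖ ≤ 1) (u : ℝ) :
    ‖S.indicator φ u * (ew L u : ℝ)‖ ≤ Real.exp (π * L) := by
  rw [norm_mul, norm_real, Real.norm_eq_abs, abs_of_pos (ew_pos _ _)]
  calc _ ≤ 1 * Real.exp (π * L) :=
        mul_le_mul (ind_le hb u) (ew_le hL u) (ew_pos _ _).le zero_le_one
    _ = _ := one_mul _

lemma core_int (hL : 0 ≤ L) (hSL : S ⊆ Icc 0 L) (hb : ∀ u ∈ S, ‖φ u‖ ≤ 1) :
    ∫⁻ u, ‖S.indicator φ u * (ew L u : ℝ)‖ₑ ≤ ENNReal.ofReal (L * Real.exp (π * L)) := by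
  have h1 : ∀ u, ‖S.indicator φ u * (ew L u : ℝ)‖ₑ ≤
      (Icc 0 L).indicator (fun _ => ENNReal.ofReal (Real.exp (π * L))) u := by
    intro u
    by_cases h : u ∈ S
    · rw [indicator_of_mem (hSL h), ← ofReal_norm]
      exact ENNReal.ofReal_le_ofReal (core_bd hL hb u)
    · rw [indicator_of_notMem h, zero_mul, enorm_zero]
      exact zero_le
  refine (lintegral_mono h1).trans ?_
  rw [lintegral_indicator measurableSet_Icc, setLIntegral_const, Real.volume_Icc, sub_zero,
    ← ENNReal.ofReal_mul (Real.exp_pos _).le, mul_comm]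

lemma core_mod (hS : S.OrdConnected) (hSm : MeasurableSet S) (hL : 0 ≤ L) (hSL : S ⊆ Icc 0 L)
    (hb : ∀ u ∈ S, ‖φ u‖ ≤ 1) (hv : eVariationOn φ S ≤ 1) (h : ℝ) :
    ∫⁻ u, ‖S.indicator φ (u + h) * (ew L (u + h) : ℝ) - S.indicator φ u * (ew L u : ℝ)‖ₑ ≤
      ENNReal.ofReal ((3 * Real.exp (π * L) + L * (Real.exp (π * L) * π)) * |h|) := by
  set W := Real.exp (π * L) with hW
  have hW0 : 0 < W := Real.exp_pos _
  have hpi := Real.pi_pos
  have hmod := bv_mod hS hSm hL hSL hb hv h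
  set gi : ℝ → ℂ := S.indicator φ with hgi
  have hpt : ∀ u, ‖gi (u + h) * (ew L (u + h) : ℝ) - gi u * (ew L u : ℝ)‖ₑ ≤
      ENNReal.ofReal W * ‖gi (u + h) - gi u‖ₑ +
        (Icc 0 L).indicator (fun _ => ENNReal.ofReal (W * π * |h|)) u := by
    intro u
    have e1 : gi (u + h) * (ew L (u + h) : ℝ) - gi u * (ew L u : ℝ) =
        (gi (u + h) - gi u) * (ew L (u + h) : ℝ) +
          gi u * ((ew L (u + h) - ew L u : ℝ) : ℂ) := by
      push_cast; ring
    rw [e1]
    refine (enorm_add_le _ _).trans (add_le_add ?_ ?_)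
    · rw [enorm_mul, mul_comm]
      refine mul_le_mul' ?_ le_rfl
      rw [← ofReal_norm, norm_real, Real.norm_eq_abs, abs_of_pos (ew_pos _ _)]
      exact ENNReal.ofReal_le_ofReal (ew_le hL _)
    · by_cases hu : u ∈ S
      · rw [indicator_of_mem (hSL hu), ← ofReal_norm, norm_mul, norm_real, Real.norm_eq_abs]
        apply ENNReal.ofReal_le_ofReal
        have h2 := ew_lip hL (u + h) u
        rw [add_sub_cancel_left] at h2
        calc _ ≤ 1 * (W * π * |h|) := mul_le_mul (ind_le hb u) h2 (abs_nonneg _) zero_le_one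
          _ = _ := one_mul _
      · have : gi u = 0 := indicator_of_notMem hu _
        rw [this, zero_mul, enorm_zero]
        exact zero_le
  refine (lintegral_mono hpt).trans ?_
  have hm : Measurable fun u : ℝ =>
      (Icc 0 L).indicator (fun _ => ENNReal.ofReal (W * π * |h|)) u :=
    measurable_const.indicator measurableSet_Icc
  rw [lintegral_add_right _ hm, lintegral_const_mul' _ _ ENNReal.ofReal_ne_top,
    lintegral_indicator measurableSet_Icc, setLIntegral_const, Real.volume_Icc, sub_zero]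
  calc ENNReal.ofReal W * (∫⁻ u, ‖gi (u + h) - gi u‖ₑ) +
        ENNReal.ofReal (W * π * |h|) * ENNReal.ofReal L ≤
      ENNReal.ofReal W * ENNReal.ofReal (3 * |h|) +
        ENNReal.ofReal (W * π * |h|) * ENNReal.ofReal L :=
        add_le_add (mul_le_mul' le_rfl hmod) le_rfl
    _ = ENNReal.ofReal ((3 * W + L * (W * π)) * |h|) := by
        rw [← ENNReal.ofReal_mul hW0.le, ← ENNReal.ofReal_mul (by positivity),
          ← ENNReal.ofReal_add (by positivity) (by positivity)]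
        congr 1
        ring

end core

/-- the constant -/
noncomputable def NN (R : ℝ) : ℝ :=
  Real.exp (π * (R + 2) ^ 2) + ((R + 2) ^ 2 * Real.exp (π * (R + 2) ^ 2) +
    (3 * Real.exp (π * (R + 2) ^ 2) + (R + 2) ^ 2 * (Real.exp (π * (R + 2) ^ 2) * π)))

/-- the profile of a function on a planar block -/
noncomputable def gt (L : ℝ) (c : ℂ) {P : ℕ} (p : Fin P) (g : ℝ × (Fin P → ℝ) → ℂ)
    (v : ℝ × (Fin P → ℝ)) : ℂ :=
  (Sr c (cexp ((v.2 p : ℝ) * I))).indicator (fun u => g (Real.sqrt u, v.2)) v.1 * (ew L v.1 : ℝ)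

/-- the hypotheses on a function on a planar block -/
structure RB (c : ℂ) {P : ℕ} (p : Fin P) (g : ℝ × (Fin P → ℝ) → ℂ) : Prop where
  meas : Measurable g
  bdd : ∀ (θ : Fin P → ℝ) (r : ℝ), 0 < r → c + r * cexp ((θ p : ℝ) * I) ∈ Qs → ‖g (r, θ)‖ ≤ 1
  var : ∀ θ : Fin P → ℝ, eVariationOn (fun r => g (r, θ))
    {r : ℝ | 0 < r ∧ c + r * cexp ((θ p : ℝ) * I) ∈ Qs} ≤ 1

lemma gt_PN {R : ℝ} (hR : 0 ≤ R) {c : ℂ} (hc : ‖c‖ ≤ R) {P : ℕ} {p : Fin P}
    {g : ℝ × (Fin P → ℝ) → ℂ} (hg : RB c p g) : PN (NN R) (gt ((R + 2) ^ 2) c p g) := by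
  set L := (R + 2) ^ 2 with hL
  have hL0 : 0 ≤ L := by positivity
  set W := Real.exp (π * L) with hW
  have hW0 : 0 < W := Real.exp_pos _
  have hpi := Real.pi_pos
  have hNN : NN R = W + (L * W + (3 * W + L * (W * π))) := rfl
  have he : ∀ a : ℝ, ‖cexp ((a : ℝ) * I)‖ = 1 := fun a => norm_exp_ofReal_mul_I a
  have hbd : ∀ θ : Fin P → ℝ, ∀ u ∈ Sr c (cexp ((θ p : ℝ) * I)), ‖g (Real.sqrt u, θ)‖ ≤ 1 :=
    fun θ u hu => hg.bdd θ _ (Real.sqrt_pos.2 hu.1) hu.2
  have hvar : ∀ θ : Fin P → ℝ, eVariationOn (fun u => g (Real.sqrt u, θ))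
      (Sr c (cexp ((θ p : ℝ) * I))) ≤ 1 := by
    intro θ
    refine le_trans ?_ (hg.var θ)
    have := eVariationOn.comp_le_of_monotoneOn (fun r : ℝ => g (r, θ))
      (s := {r : ℝ | 0 < r ∧ c + r * cexp ((θ p : ℝ) * I) ∈ Qs})
      (t := Sr c (cexp ((θ p : ℝ) * I))) (fun u => Real.sqrt u)
      (fun u _ v _ huv => Real.sqrt_le_sqrt huv)
      (fun u hu => ⟨Real.sqrt_pos.2 hu.1, hu.2⟩)
    exact this
  refine ⟨⟨?_, ?_, ?_⟩, ?_⟩
  · -- measurability
    have hd : Measurable fun v : ℝ × (Fin P → ℝ) => cexp ((v.2 p : ℝ) * I) := by fun_prop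
    have hs : Measurable fun v : ℝ × (Fin P → ℝ) =>
        c + (Real.sqrt v.1 : ℝ) * cexp ((v.2 p : ℝ) * I) :=
      measurable_const.add
        ((measurable_ofReal.comp (Real.continuous_sqrt.measurable.comp measurable_fst)).mul hd)
    have hset : MeasurableSet {v : ℝ × (Fin P → ℝ) | 0 < v.1 ∧
        c + (Real.sqrt v.1 : ℝ) * cexp ((v.2 p : ℝ) * I) ∈ Qs} :=
      (measurableSet_lt measurable_const measurable_fst).inter (hs Qs_meas)
    have e : gt L c p g = fun v : ℝ × (Fin P → ℝ) =>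
        {v : ℝ × (Fin P → ℝ) | 0 < v.1 ∧
          c + (Real.sqrt v.1 : ℝ) * cexp ((v.2 p : ℝ) * I) ∈ Qs}.indicator
          (fun v => g (Real.sqrt v.1, v.2)) v * (ew L v.1 : ℝ) := by
      funext v
      unfold gt
      congr 1
    rw [e]
    have hgs : Measurable fun v : ℝ × (Fin P → ℝ) => g (Real.sqrt v.1, v.2) := by
      have a1 : Measurable fun v : ℝ × (Fin P → ℝ) => (Real.sqrt v.1, v.2) :=
        (Real.continuous_sqrt.measurable.comp measurable_fst).prodMk measurable_snd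
      have a2 := hg.meas.comp a1
      exact a2
    exact (hgs.indicator hset).mul
      (measurable_ofReal.comp ((ew_cont L).measurable.comp measurable_fst))
  · intro θ
    refine (core_int hL0 (Sr_sub hc (he _)) (hbd θ)).trans (ENNReal.ofReal_le_ofReal ?_)
    rw [hNN]
    have : 0 ≤ 3 * W + L * (W * π) := by positivity
    linarith
  · intro θ k
    refine (core_mod (Sr_ord _ _) (Sr_meas _ _) hL0 (Sr_sub hc (he _)) (hbd θ) (hvar θ) k).trans
      (ENNReal.ofReal_le_ofReal ?_)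
    rw [hNN]
    apply mul_le_mul_of_nonneg_right _ (abs_nonneg k)
    have : 0 ≤ L * W := by positivity
    linarith
  · intro v
    refine (core_bd hL0 (hbd v.2) v.1).trans ?_
    rw [hNN]
    have : 0 ≤ L * W + (3 * W + L * (W * π)) := by positivity
    linarith

/-- the weight on the line -/
noncomputable def el (s : ℝ) : ℝ := ew 1 (s ^ 2)

lemma el_pos (s : ℝ) : 0 < el s := ew_pos _ _

lemma el_le (s : ℝ) : el s ≤ Real.exp π := by
  have := ew_le (L := 1) zero_le_one (s ^ 2)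
  rwa [mul_one] at this

lemma el_eq {s : ℝ} (hs : |s| ≤ 1) : el s = Real.exp (π * s ^ 2) := by
  unfold el
  apply ew_eq (sq_nonneg s)
  rw [← sq_abs]
  have := abs_nonneg s
  nlinarith

lemma min_sq (a b : ℝ) : |min (a ^ 2) 1 - min (b ^ 2) 1| ≤ 2 * |a - b| := by
  have h1 : ∀ a : ℝ, min (a ^ 2) 1 = (min |a| 1) ^ 2 := by
    intro a
    rw [← sq_abs]
    have ha := abs_nonneg a
    rcases le_total |a| 1 with h | h
    · rw [min_eq_left h, min_eq_left (by nlinarith)]
    · rw [min_eq_right h, min_eq_right (by nlinarith), one_pow]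
  rw [h1, h1, sq_sub_sq, abs_mul]
  have h2 : |min |a| 1 + min |b| 1| ≤ 2 := by
    have c1 : 0 ≤ min |a| 1 := le_min (abs_nonneg a) zero_le_one
    have c2 : 0 ≤ min |b| 1 := le_min (abs_nonneg b) zero_le_one
    rw [abs_of_nonneg (by linarith)]
    linarith [min_le_right |a| 1, min_le_right |b| 1]
  have h3 : |min |a| 1 - min |b| 1| ≤ |a - b| := by
    have := abs_min_sub_min_le_max |a| 1 |b| 1
    rw [sub_self, abs_zero, max_eq_left (abs_nonneg _)] at this
    exact this.trans (abs_abs_sub_abs_le_abs_sub a b)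
  exact mul_le_mul h2 h3 (abs_nonneg _) (by norm_num)

lemma el_lip (a b : ℝ) : |el a - el b| ≤ Real.exp π * π * (2 * |a - b|) := by
  unfold el ew
  have hpi := Real.pi_pos
  have h0 : ∀ a : ℝ, max 0 (min (a ^ 2) 1) = min (a ^ 2) 1 := fun a =>
    max_eq_right (le_min (sq_nonneg a) zero_le_one)
  rw [h0, h0]
  have h1 : ∀ u : ℝ, π * min (u ^ 2) 1 ≤ π := by
    intro u
    have : min (u ^ 2) 1 ≤ 1 := min_le_right _ _
    nlinarith
  refine (exp_lip (h1 a) (h1 b)).trans ?_
  rw [← mul_sub, abs_mul, abs_of_pos hpi, mul_assoc]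
  exact mul_le_mul_of_nonneg_left (mul_le_mul_of_nonneg_left (min_sq a b) hpi.le)
    (Real.exp_pos _).le

lemma el_cont : Continuous el := by
  unfold el
  exact (ew_cont 1).comp (continuous_pow 2)

/-- the profile of a function on a line -/
noncomputable def bt {P : ℕ} (b : ℝ × (Fin P → ℝ) → ℂ) (v : ℝ × (Fin P → ℝ)) : ℂ :=
  (Icc (-1 : ℝ) 1).indicator (fun s => b (s, v.2)) v.1 * (el v.1 : ℝ)

/-- the hypotheses on a function on a line -/
structure LB {P : ℕ} (b : ℝ × (Fin P → ℝ) → ℂ) : Prop where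
  meas : Measurable b
  bdd : ∀ (θ : Fin P → ℝ) (s : ℝ), |s| ≤ 1 → ‖b (s, θ)‖ ≤ 1
  var : ∀ θ : Fin P → ℝ, eVariationOn (fun s => b (s, θ)) (Icc (-1) 1) ≤ 1

lemma bt_mod {φ : ℝ → ℂ} (hb : ∀ u ∈ Icc (-1 : ℝ) 1, ‖φ u‖ ≤ 1)
    (hv : eVariationOn φ (Icc (-1 : ℝ) 1) ≤ 1) (h : ℝ) :
    ∫⁻ u, ‖(Icc (-1 : ℝ) 1).indicator φ (u + h) - (Icc (-1 : ℝ) 1).indicator φ u‖ₑ ≤
      ENNReal.ofReal (3 * |h|) := by
  have hv' : eVariationOn (fun u => φ (u - 1)) (Icc (0 : ℝ) 2) ≤ 1 := by
    refine le_trans ?_ hv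
    have := eVariationOn.comp_le_of_monotoneOn φ (s := Icc (-1 : ℝ) 1) (t := Icc (0 : ℝ) 2)
      (fun u => u - 1) (fun u _ v _ huv => by simpa using huv)
      (fun u hu => ⟨by linarith [hu.1], by linarith [hu.2]⟩)
    exact this
  have h1 := bv_mod (S := Icc (0 : ℝ) 2) ordConnected_Icc measurableSet_Icc (L := 2) (by norm_num)
    le_rfl (g := fun u => φ (u - 1)) (fun u hu => hb _ ⟨by linarith [hu.1], by linarith [hu.2]⟩)
    hv' h
  refine le_trans (le_of_eq ?_) h1
  have e : ∀ u : ℝ, (Icc (0 : ℝ) 2).indicator (fun u => φ (u - 1)) u =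
      (Icc (-1 : ℝ) 1).indicator φ (u - 1) := by
    intro u
    by_cases hu : u ∈ Icc (0 : ℝ) 2
    · rw [indicator_of_mem hu, indicator_of_mem (show u - 1 ∈ Icc (-1 : ℝ) 1 from
        ⟨by linarith [hu.1], by linarith [hu.2]⟩)]
    · rw [indicator_of_notMem hu, indicator_of_notMem]
      intro h'
      exact hu ⟨by linarith [h'.1], by linarith [h'.2]⟩
  simp_rw [e]
  rw [← lintegral_sub_right_eq_self (fun u => ‖(Icc (-1 : ℝ) 1).indicator φ (u + h) -
    (Icc (-1 : ℝ) 1).indicator φ u‖ₑ) 1]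
  apply lintegral_congr
  intro u
  congr 3
  ring

lemma bt_PN {R : ℝ} (hR : 0 ≤ R) {P : ℕ} {b : ℝ × (Fin P → ℝ) → ℂ} (hb : LB b) :
    PN (NN R) (bt b) := by
  set L := (R + 2) ^ 2 with hL
  have hL4 : 4 ≤ L := by rw [hL]; nlinarith
  have hL0 : 0 ≤ L := by linarith
  set W := Real.exp (π * L) with hW
  have hW0 : 0 < W := Real.exp_pos _
  have hpi := Real.pi_pos
  have hNN : NN R = W + (L * W + (3 * W + L * (W * π))) := rfl
  set E := Real.exp π with hE
  have hE0 : 0 < E := Real.exp_pos _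
  have hEW : E ≤ W := by
    apply Real.exp_le_exp.2
    nlinarith
  have hbd : ∀ θ : Fin P → ℝ, ∀ u ∈ Icc (-1 : ℝ) 1, ‖b (u, θ)‖ ≤ 1 := fun θ u hu =>
    hb.bdd θ u (abs_le.2 hu)
  have hb1 : ∀ v : ℝ × (Fin P → ℝ), ‖bt b v‖ ≤ E := by
    intro v
    unfold bt
    rw [norm_mul, norm_real, Real.norm_eq_abs, abs_of_pos (el_pos _)]
    calc _ ≤ 1 * E := mul_le_mul (ind_le (hbd v.2) v.1) (el_le _) (el_pos _).le zero_le_one
      _ = _ := one_mul _
  refine ⟨⟨?_, ?_, ?_⟩, ?_⟩
  · have e : bt b = fun v : ℝ × (Fin P → ℝ) =>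
        {v : ℝ × (Fin P → ℝ) | v.1 ∈ Icc (-1 : ℝ) 1}.indicator b v * (el v.1 : ℝ) := by
      funext v
      unfold bt
      congr 1
    rw [e]
    exact (hb.meas.indicator (measurable_fst measurableSet_Icc)).mul
      (measurable_ofReal.comp (el_cont.measurable.comp measurable_fst))
  · intro θ
    have h1 : ∀ u, ‖bt b (u, θ)‖ₑ ≤
        (Icc (-1 : ℝ) 1).indicator (fun _ => ENNReal.ofReal E) u := by
      intro u
      by_cases h : u ∈ Icc (-1 : ℝ) 1
      · rw [indicator_of_mem h, ← ofReal_norm]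
        exact ENNReal.ofReal_le_ofReal (hb1 _)
      · unfold bt
        simp only
        rw [indicator_of_notMem h, indicator_of_notMem h, zero_mul, enorm_zero]
    refine (lintegral_mono h1).trans ?_
    rw [lintegral_indicator measurableSet_Icc, setLIntegral_const, Real.volume_Icc,
      ← ENNReal.ofReal_mul hE0.le]
    apply ENNReal.ofReal_le_ofReal
    rw [hNN]
    have h2 : 0 ≤ 3 * W + L * (W * π) := by positivity
    have h3 : 2 * E ≤ L * W := by nlinarith
    linarith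
  · intro θ k
    set gi : ℝ → ℂ := (Icc (-1 : ℝ) 1).indicator (fun s => b (s, θ)) with hgi
    have hmod := bt_mod (hbd θ) (hb.var θ) k
    have hpt : ∀ u, ‖bt b (u + k, θ) - bt b (u, θ)‖ₑ ≤
        ENNReal.ofReal E * ‖gi (u + k) - gi u‖ₑ +
          (Icc (-1 : ℝ) 1).indicator (fun _ => ENNReal.ofReal (E * π * (2 * |k|))) u := by
      intro u
      have e1 : bt b (u + k, θ) - bt b (u, θ) =
          (gi (u + k) - gi u) * (el (u + k) : ℝ) +
            gi u * ((el (u + k) - el u : ℝ) : ℂ) := by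
        unfold bt
        push_cast; ring
      rw [e1]
      refine (enorm_add_le _ _).trans (add_le_add ?_ ?_)
      · rw [enorm_mul, mul_comm]
        refine mul_le_mul' ?_ le_rfl
        rw [← ofReal_norm, norm_real, Real.norm_eq_abs, abs_of_pos (el_pos _)]
        exact ENNReal.ofReal_le_ofReal (el_le _)
      · by_cases hu : u ∈ Icc (-1 : ℝ) 1
        · rw [indicator_of_mem hu, ← ofReal_norm, norm_mul, norm_real, Real.norm_eq_abs]
          apply ENNReal.ofReal_le_ofReal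
          have h2 := el_lip (u + k) u
          rw [add_sub_cancel_left] at h2
          calc _ ≤ 1 * (E * π * (2 * |k|)) :=
                mul_le_mul (ind_le (hbd θ) u) h2 (abs_nonneg _) zero_le_one
            _ = _ := one_mul _
        · have : gi u = 0 := indicator_of_notMem hu _
          rw [this, zero_mul, enorm_zero]
          exact zero_le
    refine (lintegral_mono hpt).trans ?_
    have hm : Measurable fun u : ℝ =>
        (Icc (-1 : ℝ) 1).indicator (fun _ => ENNReal.ofReal (E * π * (2 * |k|))) u :=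
      measurable_const.indicator measurableSet_Icc
    rw [lintegral_add_right _ hm, lintegral_const_mul' _ _ ENNReal.ofReal_ne_top,
      lintegral_indicator measurableSet_Icc, setLIntegral_const, Real.volume_Icc]
    calc ENNReal.ofReal E * (∫⁻ u, ‖gi (u + k) - gi u‖ₑ) +
          ENNReal.ofReal (E * π * (2 * |k|)) * ENNReal.ofReal (1 - (-1)) ≤
        ENNReal.ofReal E * ENNReal.ofReal (3 * |k|) +
          ENNReal.ofReal (E * π * (2 * |k|)) * ENNReal.ofReal (1 - (-1)) :=
          add_le_add (mul_le_mul' le_rfl hmod) le_rfl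
      _ = ENNReal.ofReal ((3 * E + 4 * (E * π)) * |k|) := by
          rw [← ENNReal.ofReal_mul hE0.le, ← ENNReal.ofReal_mul (by positivity),
            ← ENNReal.ofReal_add (by positivity) (by positivity)]
          congr 1
          ring
      _ ≤ _ := by
          apply ENNReal.ofReal_le_ofReal
          apply mul_le_mul_of_nonneg_right _ (abs_nonneg k)
          rw [hNN]
          have h3 : 4 * (E * π) ≤ L * (W * π) := by
            apply mul_le_mul hL4 _ (by positivity) hL0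
            exact mul_le_mul_of_nonneg_right hEW hpi.le
          have h4 : 0 ≤ L * W := by positivity
          linarith
  · intro v
    refine (hb1 v).trans ?_
    rw [hNN]
    have : 0 ≤ L * W + (3 * W + L * (W * π)) := by positivity
    linarith

end Pool.Agent.T9h83.RAY
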