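import Pool.Agent.T9h83.RAY.JK
set_option autoImplicit false

/-! The final estimate without boundedness. -/

namespace Pool.Agent.T9h83.RAY

open Complex MeasureTheory Set ProbabilityTheory Filter
open scoped ENNReal Real ComplexConjugate Topology

section base

variable {Z0 : Type} [MeasurableSpace Z0] {P m : ℕ}

lemma one_RBY {Y : Type} [MeasurableSpace Y] (c : ℂ) (a : Y → ℝ) :
    RBY c a (fun _ : ℝ × Y => (1 : ℂ)) := by
  refine ⟨measurable_const, fun y r _ _ => by simp, fun y => ?_⟩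
  rw [eVariationOn.constant_on]
  · exact zero_le
  · intro x hx y hy
    obtain ⟨_, _, rfl⟩ := hx
    obtain ⟨_, _, rfl⟩ := hy
    rfl

lemma one_LBY {Y : Type} [MeasurableSpace Y] : LBY (fun _ : ℝ × Y => (1 : ℂ)) := by
  refine ⟨measurable_const, fun y s _ => by simp, fun y => ?_⟩
  rw [eVariationOn.constant_on]
  · exact zero_le
  · intro x hx y hy
    obtain ⟨_, _, rfl⟩ := hx
    obtain ⟨_, _, rfl⟩ := hy
    rfl

lemma QB_le {R : ℝ} (hR : 0 ≤ R) {c : Fin P → ℂ} (hc : ∀ p, ‖c p‖ ≤ R) {ξ : ZZ P m × Z0}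
    (hξ : ∀ p, ξ.1.1 p ≠ 0) :
    (QB Z0 P m).indicator (fun _ => (1 : ℝ≥0∞)) (trB c ξ) ≤
      ENNReal.ofReal (NN R) ^ P * ENNReal.ofReal (NN R) ^ m * ‖GZ ξ.1‖ₑ := by
  have h1 := FJB_shift hc (fun _ : (Fin P → ℝ) × Z0 => (1 : ℂ)) (fun _ _ => 1)
    (fun (_ : Fin m) _ => 1) hξ
  have ha : ∀ p : Fin P, Measurable fun v : (Fin P → ℝ) × Z0 => v.1 p := fun p => by fun_prop
  have h2 := FB_bd1 (N := NN R) (h := fun _ : (Fin P → ℝ) × Z0 => (1 : ℂ))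
    (g := gB R c (fun _ _ => 1)) (b := fun _ : Fin m => btY (fun _ => (1 : ℂ)))
    (fun p => gtY_PN hR (hc p) (ha p) (one_RBY _ _)) (fun j => btY_PN hR one_LBY) ξ
  rw [← h1] at h2
  refine le_trans (le_of_eq ?_) (h2.trans (le_of_eq ?_))
  · by_cases hQ : trB c ξ ∈ QB Z0 P m
    · rw [indicator_of_mem hQ, indicator_of_mem hQ]
      unfold FJB
      simp
    · rw [indicator_of_notMem hQ, indicator_of_notMem hQ, enorm_zero]
  · rw [enorm_one, one_mul]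

variable {μ0 : Measure Z0} [IsFiniteMeasure μ0]

/-- the directions -/
noncomputable def vc (c : Fin P → ℂ) (ζ : ZZ P m × Z0) : (Fin P → ℝ) × Z0 :=
  (arP (ζ.1.1 - c), ζ.2)

lemma vc_meas (c : Fin P → ℂ) : Measurable (vc (Z0 := Z0) (m := m) c) := by
  unfold vc
  have h1 : Measurable fun r : ZZ P m × Z0 => r.1.1 - c := by fun_prop
  have h2 := arP_meas.comp h1
  exact h2.prodMk measurable_snd

lemma vc_tr (c : Fin P → ℂ) (ξ : ZZ P m × Z0) : vc c (trB c ξ) = (arP ξ.1.1, ξ.2) := by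
  unfold vc trB
  have e : (((c, 0) : ZZ P m) + ξ.1).1 - c = ξ.1.1 := by
    have : (((c, 0) : ZZ P m) + ξ.1).1 = c + ξ.1.1 := rfl
    rw [this, add_sub_cancel_left]
  simp only
  rw [e]

lemma int_QB {R : ℝ} (hR : 0 ≤ R) {c : Fin P → ℂ} (hc : ∀ p, ‖c p‖ ≤ R)
    {φ : (Fin P → ℝ) × Z0 → ℝ≥0∞} (hφ : Measurable φ) :
    ∫⁻ ζ, (QB Z0 P m).indicator (fun ζ => φ (vc c ζ)) ζ ∂(volume.prod μ0) ≤
      ENNReal.ofReal (NN R) ^ P * ENNReal.ofReal (NN R) ^ m * (c3 ^ P * c4 ^ m *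
        ∫⁻ v, φ v ∂((ciP P).prod μ0)) := by
  have hN : ENNReal.ofReal (NN R) ^ P * ENNReal.ofReal (NN R) ^ m ≠ ∞ :=
    ENNReal.mul_ne_top (ENNReal.pow_ne_top ENNReal.ofReal_ne_top)
      (ENNReal.pow_ne_top ENNReal.ofReal_ne_top)
  rw [← polB (m := m) hφ, ← lintegral_const_mul' _ _ hN,
    ← (mp_tr μ0 ((c, 0) : ZZ P m)).lintegral_comp_emb (MeasurableEquiv.measurableEmbedding _)]
  apply lintegral_mono_ae
  filter_upwards [ae_neB (μ0 := μ0) (P := P) (m := m)] with ξ hξ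
  have e : ((MeasurableEquiv.addLeft ((c, 0) : ZZ P m)).prodCongr (MeasurableEquiv.refl Z0)) ξ =
      trB c ξ := rfl
  rw [e]
  have h1 := QB_le (m := m) hR hc hξ
  by_cases hQ : trB c ξ ∈ QB Z0 P m
  · rw [indicator_of_mem hQ] at h1 ⊢
    rw [vc_tr]
    calc φ (arP ξ.1.1, ξ.2) = 1 * φ (arP ξ.1.1, ξ.2) := (one_mul _).symm
      _ ≤ _ := mul_le_mul' h1 le_rfl
      _ = _ := by ring
  · rw [indicator_of_notMem hQ]
    exact zero_le

lemma FJB_le {R : ℝ} {c : Fin P → ℂ} {h : (Fin P → ℝ) × Z0 → ℂ}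
    {g : Fin P → ℝ × ((Fin P → ℝ) × Z0) → ℂ} {b : Fin m → ℝ × ((Fin P → ℝ) × Z0) → ℂ}
    (hg : ∀ p, RBY (c p) (fun v : (Fin P → ℝ) × Z0 => v.1 p) (g p)) (hb : ∀ j, LBY (b j))
    {ζ : ZZ P m × Z0} (hζ : ζ ∈ QB Z0 P m) (hne : ∀ p, ζ.1.1 p ≠ c p) (_ : R = R) :
    ‖FJB c h g b ζ‖ₑ ≤ ‖h (vc c ζ)‖ₑ := by
  unfold FJB vc
  rw [enorm_mul, enorm_mul, enorm_prod', enorm_prod']
  have e1 : ∏ p, ‖g p (‖ζ.1.1 p - c p‖, (arP (ζ.1.1 - c), ζ.2))‖ₑ ≤ 1 := by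
    apply Finset.prod_le_one'
    intro p _
    rw [← ofReal_norm, ← ENNReal.ofReal_one]
    apply ENNReal.ofReal_le_ofReal
    apply (hg p).bdd _ _ (norm_pos_iff.2 (sub_ne_zero.2 (hne p)))
    have hpol : (‖ζ.1.1 p - c p‖ : ℂ) * cexp ((arP (ζ.1.1 - c) p : ℝ) * I) = ζ.1.1 p - c p :=
      norm_mul_exp_arg_mul_I _
    simp only
    rw [hpol, add_sub_cancel]
    exact hζ.1 p
  have e2 : ∏ j, ‖b j (ζ.1.2 j, (arP (ζ.1.1 - c), ζ.2))‖ₑ ≤ 1 := by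
    apply Finset.prod_le_one'
    intro j _
    rw [← ofReal_norm, ← ENNReal.ofReal_one]
    exact ENNReal.ofReal_le_ofReal ((hb j).bdd _ _ (hζ.2 j))
  calc _ ≤ ‖h (arP (ζ.1.1 - c), ζ.2)‖ₑ * (1 * 1) := mul_le_mul' le_rfl (mul_le_mul' e1 e2)
    _ = _ := by rw [mul_one, mul_one]

lemma ae_neC (c : Fin P → ℂ) : ∀ᵐ ζ : ZZ P m × Z0 ∂(volume.prod μ0), ∀ p, ζ.1.1 p ≠ c p := by
  have h1 : ∀ᵐ ξ : ZZ P m, ∀ p, ξ.1 p ≠ c p := by
    rw [ae_all_iff]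
    intro p
    have h1 : Measure.QuasiMeasurePreserving (fun ξ : ZZ P m => ξ.1 p)
        (volume : Measure (ZZ P m)) (volume : Measure ℂ) := by
      have a1 : Measure.QuasiMeasurePreserving (Prod.fst : ZZ P m → (Fin P → ℂ))
          (volume : Measure (ZZ P m)) volume := Measure.quasiMeasurePreserving_fst
      have a2 : Measure.QuasiMeasurePreserving (Function.eval p : (Fin P → ℂ) → ℂ)
          (volume : Measure (Fin P → ℂ)) volume := Measure.quasiMeasurePreserving_eval _ p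
      exact a2.comp a1
    have h2 : ∀ᵐ w : ℂ, w ≠ c p := by
      rw [ae_iff]
      simp
    exact h1.ae h2
  exact Measure.quasiMeasurePreserving_fst.ae h1

end base

end Pool.Agent.T9h83.RAY
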