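import Pool.Agent.T9h83.RAY.JU
set_option autoImplicit false

/-! The final estimate without boundedness: the limit. -/

namespace Pool.Agent.T9h83.RAY

open Complex MeasureTheory Set ProbabilityTheory Filter
open scoped ENNReal Real ComplexConjugate Topology

/-- the truncation -/
noncomputable def trn {W : Type} (N : ℕ) (h : W → ℂ) : W → ℂ :=
  {w | ‖h w‖ ≤ N}.indicator h

lemma trn_meas {W : Type} [MeasurableSpace W] (N : ℕ) {h : W → ℂ} (hm : Measurable h) :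
    Measurable (trn N h) := hm.indicator (measurableSet_le hm.norm measurable_const)

lemma trn_bd {W : Type} (N : ℕ) (h : W → ℂ) (w : W) : ‖trn N h w‖ ≤ N := by
  unfold trn
  by_cases hw : w ∈ {w | ‖h w‖ ≤ N}
  · rw [indicator_of_mem hw]; exact hw
  · rw [indicator_of_notMem hw, norm_zero]; exact Nat.cast_nonneg _

lemma trn_le {W : Type} (N : ℕ) (h : W → ℂ) (w : W) : ‖trn N h w‖ₑ ≤ ‖h w‖ₑ := by
  unfold trn
  by_cases hw : w ∈ {w | ‖h w‖ ≤ N}
  · rw [indicator_of_mem hw]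
  · rw [indicator_of_notMem hw, enorm_zero]; exact zero_le

lemma trn_tendsto {W : Type} (h : W → ℂ) (w : W) :
    Tendsto (fun N : ℕ => trn N h w) atTop (𝓝 (h w)) := by
  apply tendsto_const_nhds.congr'
  obtain ⟨N0, hN0⟩ := exists_nat_ge ‖h w‖
  filter_upwards [eventually_ge_atTop N0] with N hN
  unfold trn
  have : w ∈ {w | ‖h w‖ ≤ N} := hN0.trans (by exact_mod_cast hN)
  rw [indicator_of_mem this]

section base

variable {Z0 : Type} [MeasurableSpace Z0] {P m : ℕ} {Λ : Type} [MeasurableSpace Λ]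

lemma AvK_meas [StandardBorelSpace Λ] (κ : Kernel ((Fin P → ℝ) × Z0) Λ) [IsMarkovKernel κ]
    [Nonempty Λ] (c : Fin P → ℂ) {h : Λ × ((Fin P → ℝ) × Z0) → ℂ} (hm : Measurable h)
    {g : Fin P → Λ × (ℝ × ((Fin P → ℝ) × Z0)) → ℂ} (hg : ∀ p, Measurable (g p))
    {b : Fin m → Λ × (ℝ × ((Fin P → ℝ) × Z0)) → ℂ} (hb : ∀ j, Measurable (b j)) :
    Measurable (AvK κ c h g b) := by
  obtain ⟨ψ, hψ, hκ⟩ := Kernel.exists_measurable_map_eq_unitInterval κ
  have hψ2 : Measurable fun r : unitInterval × ((Fin P → ℝ) × Z0) => ψ r.2 r.1 := by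
    have h1 := hψ.comp (measurable_swap : Measurable fun r : unitInterval × ((Fin P → ℝ) × Z0) =>
      r.swap)
    exact h1
  have hψ3 : Measurable fun r : unitInterval × (ℝ × ((Fin P → ℝ) × Z0)) => ψ r.2.2 r.1 := by
    have h0 : Measurable fun r : unitInterval × (ℝ × ((Fin P → ℝ) × Z0)) => (r.1, r.2.2) := by
      fun_prop
    have h1 := hψ2.comp h0
    exact h1
  have hm' : Measurable fun r : unitInterval × ((Fin P → ℝ) × Z0) => h (ψ r.2 r.1, r.2) :=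
    hm.comp (hψ2.prodMk measurable_snd)
  have hg' : ∀ p, Measurable fun r : unitInterval × (ℝ × ((Fin P → ℝ) × Z0)) =>
      g p (ψ r.2.2 r.1, r.2) := fun p => (hg p).comp (hψ3.prodMk measurable_snd)
  have hb' : ∀ j, Measurable fun r : unitInterval × (ℝ × ((Fin P → ℝ) × Z0)) =>
      b j (ψ r.2.2 r.1, r.2) := fun j => (hb j).comp (hψ3.prodMk measurable_snd)
  rw [AvK_eq hψ hκ c hm hg hb]
  exact AvB_meas _ c hm' hg' hb'

/-- the mass in the direction `v` -/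
noncomputable def mass (κ : Kernel ((Fin P → ℝ) × Z0) Λ) (h : Λ × ((Fin P → ℝ) × Z0) → ℂ)
    (v : (Fin P → ℝ) × Z0) : ℝ≥0∞ := ∫⁻ l, ‖h (l, v)‖ₑ ∂(κ v)

lemma mass_meas (κ : Kernel ((Fin P → ℝ) × Z0) Λ) [IsMarkovKernel κ]
    {h : Λ × ((Fin P → ℝ) × Z0) → ℂ} (hm : Measurable h) : Measurable (mass κ h) := by
  unfold mass
  have h1 : Measurable fun p : ((Fin P → ℝ) × Z0) × Λ => ‖h (p.2, p.1)‖ₑ := by
    have h2 := (hm.comp (measurable_swap : Measurable fun p : ((Fin P → ℝ) × Z0) × Λ =>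
      p.swap)).enorm
    exact h2
  exact h1.lintegral_kernel_prod_right'

lemma mass_fin {ρ : Measure ((Fin P → ℝ) × Z0)} [IsFiniteMeasure ρ]
    (κ : Kernel ((Fin P → ℝ) × Z0) Λ) [IsMarkovKernel κ]
    {h : Λ × ((Fin P → ℝ) × Z0) → ℂ} (hm : Measurable h) {q : ℝ} (hq : 1 ≤ q)
    (hI : ∫⁻ v, (∫⁻ l, ‖h (l, v)‖ₑ ^ q ∂(κ v)) ∂ρ ≠ ∞) : ∫⁻ v, mass κ h v ∂ρ ≠ ∞ := by
  have h1 : ∀ v, mass κ h v ≤ 1 + ∫⁻ l, ‖h (l, v)‖ₑ ^ q ∂(κ v) := by
    intro v
    unfold mass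
    calc ∫⁻ l, ‖h (l, v)‖ₑ ∂(κ v) ≤ ∫⁻ l, (1 + ‖h (l, v)‖ₑ ^ q) ∂(κ v) := by
          apply lintegral_mono
          intro l
          simp only
          rcases le_total ‖h (l, v)‖ₑ 1 with h2 | h2
          · exact h2.trans le_self_add
          · calc ‖h (l, v)‖ₑ = ‖h (l, v)‖ₑ ^ (1 : ℝ) := (ENNReal.rpow_one _).symm
              _ ≤ ‖h (l, v)‖ₑ ^ q := ENNReal.rpow_le_rpow_of_exponent_le h2 hq
              _ ≤ _ := le_add_self
      _ = _ := by
          rw [lintegral_add_left measurable_const, lintegral_const, measure_univ, mul_one]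
  refine ne_top_of_le_ne_top ?_ (lintegral_mono h1)
  rw [lintegral_add_left measurable_const, lintegral_const, one_mul]
  exact ENNReal.add_ne_top.2 ⟨measure_ne_top _ _, hI⟩

lemma FJB_meas1 (c : Fin P → ℂ) {h : Λ × ((Fin P → ℝ) × Z0) → ℂ} (hm : Measurable h)
    {g : Fin P → Λ × (ℝ × ((Fin P → ℝ) × Z0)) → ℂ} (hg : ∀ p, Measurable (g p))
    {b : Fin m → Λ × (ℝ × ((Fin P → ℝ) × Z0)) → ℂ} (hb : ∀ j, Measurable (b j))
    (ζ : ZZ P m × Z0) :
    Measurable fun l : Λ => FJB c (fun v => h (l, v)) (fun p v => g p (l, v))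
      (fun j v => b j (l, v)) ζ := by
  have h2 := (FJB_measl c hm hg hb).comp (measurable_prodMk_left (x := ζ) :
    Measurable fun l : Λ => (ζ, l))
  exact h2

/-- the bound -/
lemma AvK_le {κ : Kernel ((Fin P → ℝ) × Z0) Λ} {c : Fin P → ℂ}
    {h : Λ × ((Fin P → ℝ) × Z0) → ℂ}
    {g : Fin P → Λ × (ℝ × ((Fin P → ℝ) × Z0)) → ℂ}
    {b : Fin m → Λ × (ℝ × ((Fin P → ℝ) × Z0)) → ℂ}
    (hgR : ∀ p l, RBY (c p) (fun v : (Fin P → ℝ) × Z0 => v.1 p) (fun v => g p (l, v)))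
    (hbL : ∀ j l, LBY (fun v => b j (l, v))) {ζ : ZZ P m × Z0} (hζ : ζ ∈ QB Z0 P m)
    (hne : ∀ p, ζ.1.1 p ≠ c p) : ‖AvK κ c h g b ζ‖ₑ ≤ mass κ h (vc c ζ) := by
  unfold AvK mass
  refine (enorm_integral_le_lintegral_enorm _).trans (lintegral_mono fun l => ?_)
  exact FJB_le (R := 0) (h := fun v => h (l, v)) (fun p => hgR p l) (fun j => hbL j l) hζ hne rfl

/-- the pointwise limit -/
lemma AvK_tendsto {κ : Kernel ((Fin P → ℝ) × Z0) Λ} {c : Fin P → ℂ}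
    {h : Λ × ((Fin P → ℝ) × Z0) → ℂ} (hm : Measurable h)
    {g : Fin P → Λ × (ℝ × ((Fin P → ℝ) × Z0)) → ℂ} (hg : ∀ p, Measurable (g p))
    {b : Fin m → Λ × (ℝ × ((Fin P → ℝ) × Z0)) → ℂ} (hb : ∀ j, Measurable (b j))
    (hgR : ∀ p l, RBY (c p) (fun v : (Fin P → ℝ) × Z0 => v.1 p) (fun v => g p (l, v)))
    (hbL : ∀ j l, LBY (fun v => b j (l, v))) {ζ : ZZ P m × Z0} (hζ : ζ ∈ QB Z0 P m)
    (hne : ∀ p, ζ.1.1 p ≠ c p) (hfin : mass κ h (vc c ζ) ≠ ∞) :
    Tendsto (fun N : ℕ => AvK κ c (trn N h) g b ζ) atTop (𝓝 (AvK κ c h g b ζ)) := by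
  unfold AvK
  have hmv : Measurable fun l : Λ => h (l, vc c ζ) := by
    have h1 := hm.comp (measurable_prodMk_right (y := vc c ζ) :
      Measurable fun l : Λ => (l, vc c ζ))
    exact h1
  apply tendsto_integral_of_dominated_convergence (fun l => ‖h (l, vc c ζ)‖)
  · intro N
    exact (FJB_meas1 c (trn_meas N hm) hg hb ζ).aestronglyMeasurable
  · refine ⟨hmv.norm.aestronglyMeasurable, ?_⟩
    rw [hasFiniteIntegral_iff_enorm]
    simp_rw [enorm_norm]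
    exact lt_of_le_of_ne le_top hfin
  · intro N
    refine Filter.Eventually.of_forall fun l => ?_
    have h1 := FJB_le (R := 0) (h := fun v => trn N h (l, v)) (fun p => hgR p l)
      (fun j => hbL j l) hζ hne rfl
    have h2 := h1.trans (trn_le N h (l, vc c ζ))
    rw [← ofReal_norm, ← ofReal_norm, ENNReal.ofReal_le_ofReal_iff (norm_nonneg _)] at h2
    exact h2
  · refine Filter.Eventually.of_forall fun l => ?_
    unfold FJB
    exact (trn_tendsto h (l, (arP (ζ.1.1 - c), ζ.2))).mul_const _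

end base

end Pool.Agent.T9h83.RAY
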