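import Pool.Agent.T9h83.RAY.Der1
set_option autoImplicit false

/-! The radial kernel: the Fourier transform of `r² exp(-π a r²)` on the line. -/

namespace Pool.Agent.T9h83.RAY

open Complex MeasureTheory Metric Filter Topology Set

lemma gg_eq_int {a : ℂ} (ha : 0 < a.re) (s : ℝ) :
    ∫ r : ℝ, cexp (-Real.pi * a * (r : ℂ) ^ 2 + 2 * Real.pi * I * s * r) = gg a s := by
  have h0 := ne_zero_of_re ha
  have hpi : (Real.pi : ℂ) ≠ 0 := by exact_mod_cast Real.pi_ne_zero
  have h1 := integral_cexp_quadratic (b := -Real.pi * a) (by simpa using by positivity)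
    (2 * Real.pi * I * s) 0
  simp only [add_zero] at h1
  rw [h1]
  unfold gg
  have harg : a.arg ≠ Real.pi := by
    intro h
    rw [Complex.arg_eq_pi_iff] at h
    linarith [h.1]
  have e1 : (Real.pi : ℂ) / -(-Real.pi * a) = a⁻¹ := by field_simp
  have e2 : (0 : ℂ) - (2 * Real.pi * I * s) ^ 2 / (4 * (-Real.pi * a)) =
      -Real.pi * (s : ℂ) ^ 2 / a := by
    have : (2 * Real.pi * I * s) ^ 2 = -(4 * Real.pi ^ 2 * s ^ 2 : ℂ) := by
      rw [mul_pow, mul_pow, I_sq, mul_pow]; push_cast; ring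
    rw [this]
    field_simp
    ring
  rw [e1, e2]
  have e3 : (a⁻¹) ^ (1 / 2 : ℂ) = a ^ (-(1 / 2) : ℂ) := by
    rw [cpow_neg, inv_cpow _ _ harg]
  rw [e3]

/-- the Gaussian weight with a quadratic factor is integrable -/
lemma int_r2 {c : ℝ} (hc : 0 < c) : Integrable fun r : ℝ => r ^ 2 * Real.exp (-c * r ^ 2) := by
  have := integrable_rpow_mul_exp_neg_mul_sq hc (s := 2) (by norm_num)
  simpa [Real.rpow_two] using this

lemma norm_cexp_quad (a : ℂ) (s r : ℝ) :
    ‖cexp (-Real.pi * a * (r : ℂ) ^ 2 + 2 * Real.pi * I * s * r)‖ =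
      Real.exp (-Real.pi * a.re * r ^ 2) := by
  rw [norm_exp]
  congr 1
  have e1 : (-Real.pi * a * (r : ℂ) ^ 2 + 2 * Real.pi * I * s * r : ℂ) =
      ((-Real.pi * r ^ 2 : ℝ) : ℂ) * a + ((2 * Real.pi * s * r : ℝ) : ℂ) * I := by
    push_cast; ring
  rw [e1, add_re, re_ofReal_mul, re_ofReal_mul, I_re]
  ring

/-- the integrand of the kernel -/
noncomputable def kI (a : ℂ) (s r : ℝ) : ℂ :=
  (r : ℂ) ^ 2 * cexp (-Real.pi * a * (r : ℂ) ^ 2 + 2 * Real.pi * I * s * r)

lemma norm_kI (a : ℂ) (s r : ℝ) : ‖kI a s r‖ = r ^ 2 * Real.exp (-(Real.pi * a.re) * r ^ 2) := by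
  unfold kI
  rw [norm_mul, norm_cexp_quad, norm_pow, norm_real, Real.norm_eq_abs, sq_abs]
  ring_nf

lemma kI_cont (a : ℂ) : Continuous fun p : ℝ × ℝ => kI a p.1 p.2 := by
  unfold kI; fun_prop

lemma kI_int {a : ℂ} (ha : 0 < a.re) (s : ℝ) : Integrable (kI a s) := by
  refine (int_r2 (mul_pos Real.pi_pos ha)).mono' ?_ (Eventually.of_forall fun r => ?_)
  · exact ((kI_cont a).comp (by fun_prop : Continuous fun r : ℝ => (s, r))).aestronglyMeasurable
  · rw [norm_kI]

lemma ker_eq {a : ℂ} (ha : 0 < a.re) (s : ℝ) :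
    ∫ r : ℝ, kI a s r = -(1 / Real.pi) * ggp a s := by
  have hpi : (Real.pi : ℂ) ≠ 0 := by exact_mod_cast Real.pi_ne_zero
  set ρ := a.re / 2 with hρ
  have hρ0 : 0 < ρ := by positivity
  have hball : ∀ z ∈ ball a ρ, ρ < z.re := by
    intro z hz
    rw [mem_ball, dist_eq_norm] at hz
    have h1 := abs_re_le_norm (z - a)
    rw [sub_re] at h1
    have h2 := (abs_lt.1 (h1.trans_lt hz)).1
    have : a.re = 2 * ρ := by rw [hρ]; ring
    linarith
  have hmeas : ∀ z : ℂ, AEStronglyMeasurable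
      (fun r : ℝ => cexp (-Real.pi * z * (r : ℂ) ^ 2 + 2 * Real.pi * I * s * r)) volume := by
    intro z
    exact (by fun_prop : Continuous fun r : ℝ =>
      cexp (-Real.pi * z * (r : ℂ) ^ 2 + 2 * Real.pi * I * s * r)).aestronglyMeasurable
  have hd := hasDerivAt_integral_of_dominated_loc_of_deriv_le (μ := volume) (𝕜 := ℂ)
    (F := fun (z : ℂ) (r : ℝ) => cexp (-Real.pi * z * (r : ℂ) ^ 2 + 2 * Real.pi * I * s * r))
    (F' := fun z r => -Real.pi * kI z s r)
    (bound := fun r => Real.pi * (r ^ 2 * Real.exp (-(Real.pi * ρ) * r ^ 2)))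
    (ball_mem_nhds a hρ0) (Eventually.of_forall hmeas) ?_ ?_ ?_ ?_ ?_
  · have h1 : HasDerivAt (fun z => gg z s) (∫ r, -Real.pi * kI a s r) a := by
      refine hd.2.congr_of_eventuallyEq ?_
      filter_upwards [ball_mem_nhds a hρ0] with z hz
      rw [gg_eq_int (hρ0.trans (hball z hz))]
    have h2 := h1.unique (gg_hasDeriv ha s)
    rw [integral_const_mul] at h2
    rw [← h2]
    field_simp
  · refine (integrable_exp_neg_mul_sq (b := Real.pi * a.re) (by positivity)).mono' (hmeas a)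
      (Eventually.of_forall fun r => ?_)
    rw [norm_cexp_quad]
    apply le_of_eq
    congr 1; ring
  · exact (((kI_cont a).comp (by fun_prop : Continuous fun r : ℝ => (s, r))).const_smul
      (-(Real.pi : ℂ))).aestronglyMeasurable
  · refine Eventually.of_forall fun r z hz => ?_
    rw [norm_mul, norm_neg, norm_real, Real.norm_eq_abs, abs_of_pos Real.pi_pos, norm_kI]
    have := hball z hz
    have h2 : -(Real.pi * z.re) * r ^ 2 ≤ -(Real.pi * ρ) * r ^ 2 := by
      have : Real.pi * ρ * r ^ 2 ≤ Real.pi * z.re * r ^ 2 := by gcongr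
      linarith
    gcongr
  · exact (int_r2 (by positivity)).const_mul _
  · refine Eventually.of_forall fun r z hz => ?_
    have h1 : HasDerivAt (fun z : ℂ => -Real.pi * z * (r : ℂ) ^ 2 + 2 * Real.pi * I * s * r)
        (-Real.pi * (r : ℂ) ^ 2) z := by
      have := (((hasDerivAt_id z).const_mul (-Real.pi : ℂ)).mul_const ((r : ℂ) ^ 2)).add_const
        (2 * Real.pi * I * s * r)
      refine this.congr_deriv ?_
      ring
    refine h1.cexp.congr_deriv ?_
    unfold kI
    ring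

end Pool.Agent.T9h83.RAY
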