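import Pool.Agent.T9h83.RAY.ProfS
set_option autoImplicit false

/-! The estimate at a fixed time on the line. -/

namespace Pool.Agent.T9h83.RAY

open Complex MeasureTheory Set FourierTransform
open scoped ENNReal Real ComplexConjugate

/-- the extension operator on the line -/
noncomputable def E1 (F : ℝ → ℂ) (y t : ℝ) : ℂ := ∫ s : ℝ, F s * ph (y : ℂ) t (s : ℂ)

lemma ph_real (y t s : ℝ) :
    ph (y : ℂ) t (s : ℂ) = cexp (2 * π * I * ((y * s + t * s ^ 2 : ℝ) : ℂ)) := by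
  unfold ph
  rw [ofReal_re, ofReal_re, ofReal_im, ofReal_im, norm_real, Real.norm_eq_abs, sq_abs]
  congr 3
  ring

lemma gs_real (s : ℝ) : gs (s : ℂ) = ((Real.exp (-π * s ^ 2) : ℝ) : ℂ) := by
  unfold gs
  rw [norm_real, Real.norm_eq_abs, sq_abs]

lemma gsr_cont : Continuous fun s : ℝ => gs (s : ℂ) := gs_cont.comp continuous_ofReal

lemma phr_cont (y t : ℝ) : Continuous fun s : ℝ => ph (y : ℂ) t (s : ℂ) :=
  (ph_cont _ t).comp continuous_ofReal

lemma gsr_int : Integrable fun s : ℝ => gs (s : ℂ) := by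
  simp_rw [gs_real]
  exact (integrable_exp_neg_mul_sq (b := π) Real.pi_pos).ofReal

lemma E1_gs (y t : ℝ) : E1 (fun s => gs (s : ℂ)) y t = gg (1 - 2 * I * t) y := by
  have h : 0 < (1 - 2 * I * t : ℂ).re := by simp
  rw [← gg_eq_int h]
  unfold E1
  congr 1; funext s
  simp only
  rw [gs_real, ph_real, ofReal_exp, ← Complex.exp_add]
  congr 1
  push_cast
  ring

lemma gg_dec {δ : ℝ} (h0 : 0 ≤ δ) (h1 : δ ≤ 1) (t z : ℝ) :
    ‖gg (1 - 2 * I * t) z‖ ≤ 4 * (1 + |t|) ^ (-(1 / 2) + δ) * (1 + |z|) ^ (-δ) := by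
  set T : ℝ := 1 + |t| with hT
  have hT0 : 0 < T := by positivity
  have hpi := Real.pi_gt_three
  set a : ℂ := 1 - 2 * I * t with ha
  have hre : a.re = 1 := by rw [ha]; simp
  have him : a.im = -2 * t := by rw [ha]; simp
  have hns : normSq a = 1 + 4 * t ^ 2 := by rw [normSq_apply, hre, him]; ring
  have hna : T / 2 ≤ ‖a‖ := by
    have e1 : 1 ≤ ‖a‖ := by
      have := abs_re_le_norm a
      rwa [hre, abs_one] at this
    have e2 : 2 * |t| ≤ ‖a‖ := by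
      have := abs_im_le_norm a
      rw [him, abs_mul] at this
      simpa using this
    rw [hT]
    linarith [abs_nonneg t]
  have hna0 : 0 < ‖a‖ := by linarith
  unfold gg
  rw [norm_mul, norm_cpow_half (by rw [hre]; exact one_pos), norm_cexp_div, hre, hns]
  have c1 : Real.sqrt (‖a‖⁻¹) ≤ 2 * T ^ (-(1 / 2) : ℝ) := by
    have e3 : T ^ (-(1 / 2) : ℝ) = Real.sqrt (T⁻¹) := by
      rw [Real.rpow_neg hT0.le, ← Real.sqrt_eq_rpow, Real.sqrt_inv]
    rw [e3, show (2 : ℝ) * Real.sqrt (T⁻¹) = Real.sqrt (4 * T⁻¹) by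
      rw [Real.sqrt_mul (by norm_num), show (4 : ℝ) = 2 ^ 2 by norm_num, Real.sqrt_sq (by norm_num)]]
    apply Real.sqrt_le_sqrt
    rw [inv_le_comm₀ hna0 (by positivity), mul_inv, inv_inv]
    linarith
  set v : ℝ := |z| / T with hv
  have hv0 : 0 ≤ v := by positivity
  have c2 : Real.exp (-π * z ^ 2 * (1 / (1 + 4 * t ^ 2))) ≤ 2 * (1 + v) ^ (-δ) := by
    have e4 : 1 + 4 * t ^ 2 ≤ 4 * T ^ 2 := by
      rw [hT, ← sq_abs t]
      nlinarith [abs_nonneg t]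
    have e5 : z ^ 2 = v ^ 2 * T ^ 2 := by
      rw [hv, div_pow, sq_abs]; field_simp
    have e6 : π / 4 * v ^ 2 ≤ π * z ^ 2 * (1 / (1 + 4 * t ^ 2)) := by
      rw [mul_one_div, le_div_iff₀ (by positivity), e5]
      have : π / 4 * v ^ 2 * (1 + 4 * t ^ 2) ≤ π / 4 * v ^ 2 * (4 * T ^ 2) := by gcongr
      linarith
    have e7 : Real.exp (-π * z ^ 2 * (1 / (1 + 4 * t ^ 2))) ≤ Real.exp (-(π / 4 * v ^ 2)) := by
      apply Real.exp_le_exp.2
      linarith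
    have e8 : Real.exp (-(π / 4 * v ^ 2)) ≤ 2 * (1 + v)⁻¹ := by
      rw [Real.exp_neg, ← div_eq_mul_inv, inv_le_comm₀ (Real.exp_pos _) (by positivity), inv_div]
      have := Real.add_one_le_exp (π / 4 * v ^ 2)
      nlinarith [sq_nonneg (v - 1), sq_nonneg v]
    have e9 : (1 + v)⁻¹ ≤ (1 + v) ^ (-δ) := by
      rw [← Real.rpow_neg_one]
      exact Real.rpow_le_rpow_of_exponent_le (by linarith) (by linarith)
    linarith
  have c3 : (1 + v) ^ (-δ) ≤ T ^ δ * (1 + |z|) ^ (-δ) := by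
    have e10 : 1 + v = (T + |z|) / T := by rw [hv]; field_simp
    have hTz : 0 < T + |z| := by positivity
    rw [e10, Real.rpow_neg (by positivity), Real.div_rpow hTz.le hT0.le, inv_div,
      Real.rpow_neg (by positivity), ← div_eq_mul_inv]
    apply div_le_div_of_nonneg_left (by positivity) (by positivity)
    apply Real.rpow_le_rpow (by positivity) _ h0
    rw [hT]
    linarith [abs_nonneg t]
  calc Real.sqrt (‖a‖⁻¹) * Real.exp (-π * z ^ 2 * (1 / (1 + 4 * t ^ 2))) ≤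
        (2 * T ^ (-(1 / 2) : ℝ)) * (2 * (T ^ δ * (1 + |z|) ^ (-δ))) := by
        apply mul_le_mul c1 (c2.trans _) (Real.exp_pos _).le (by positivity)
        linarith
    _ = 4 * (T ^ (-(1 / 2) : ℝ) * T ^ δ) * (1 + |z|) ^ (-δ) := by ring
    _ = _ := by rw [← Real.rpow_add hT0]

lemma E1_int {F : ℝ → ℂ} (hF : Integrable F) (y t : ℝ) :
    Integrable (fun s : ℝ => F s * ph (y : ℂ) t (s : ℂ)) :=
  hF.mul_bdd (c := 1) (phr_cont y t).aestronglyMeasurable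
    (Filter.Eventually.of_forall fun _ => (norm_ph _ _ _).le)

lemma enorm_mul_ph1 (F : ℝ → ℂ) (y t s : ℝ) : ‖F s * ph (y : ℂ) t (s : ℂ)‖ₑ = ‖F s‖ₑ := by
  rw [enorm_mul, ← ofReal_norm (ph _ t _), norm_ph, ENNReal.ofReal_one, mul_one]

lemma E1_sup (F : ℝ → ℂ) (y t : ℝ) : ‖E1 F y t‖ₑ ≤ ∫⁻ s, ‖F s‖ₑ := by
  unfold E1
  refine (enorm_integral_le_lintegral_enorm _).trans (le_of_eq ?_)
  simp_rw [enorm_mul_ph1]

lemma E1_add {F G : ℝ → ℂ} (hF : Integrable F) (hG : Integrable G) (y t : ℝ) :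
    E1 (fun s => F s + G s) y t = E1 F y t + E1 G y t := by
  unfold E1
  rw [← integral_add (E1_int hF y t) (E1_int hG y t)]
  congr 1; funext s; ring

lemma E1_planch {F : ℝ → ℂ} (hF : Integrable F) {B : ℝ} (hB : ∀ s, ‖F s‖ ≤ B) (t : ℝ) :
    ∫⁻ y, ‖E1 F y t‖ₑ ^ 2 = ∫⁻ s, ‖F s‖ₑ ^ 2 := by
  have hE : ∀ y, E1 F y t = 𝓕 (fun s : ℝ => F s * ph ((0 : ℝ) : ℂ) t (s : ℂ)) (-y) := by
    intro y
    rw [Real.fourier_eq']
    unfold E1
    congr 1; funext s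
    have e : ph (y : ℂ) t (s : ℂ) =
        cexp (↑(-2 * π * inner ℝ s (-y)) * I) * ph ((0 : ℝ) : ℂ) t (s : ℂ) := by
      rw [ph_real, ph_real, ← Complex.exp_add]
      congr 1
      have : inner ℝ s (-y) = -(y * s) := by simp
      rw [this]
      push_cast
      ring
    rw [e, smul_eq_mul]
    ring
  simp_rw [hE]
  rw [lintegral_neg_eq_self (fun y : ℝ => ‖𝓕 (fun s : ℝ => F s * ph ((0 : ℝ) : ℂ) t (s : ℂ)) y‖ₑ ^ 2)]
  have h1 := E1_int hF 0 t
  have h2 : ∀ s : ℝ, ‖F s * ph ((0 : ℝ) : ℂ) t (s : ℂ)‖ ≤ B := fun s => by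
    rw [norm_mul, norm_ph, mul_one]; exact hB s
  rw [Pool.Agent.H153R4.plancherel _ h1 (memLp_two_of_bdd h1 h2)]
  simp_rw [enorm_mul_ph1]

lemma ph_shift1 (y t τ s : ℝ) : ph (y : ℂ) t (s : ℂ) * cexp (((2 * π * τ * s : ℝ) : ℂ) * I) =
    ph ((y + τ : ℝ) : ℂ) t (s : ℂ) := by
  rw [ph_real, ph_real, ← Complex.exp_add]
  congr 1
  push_cast
  ring

/-- **Translations in space.** -/
theorem cutL {B A : ℝ} (hA : 0 ≤ A) {φ : ℝ → ℂ} (h : Prof B A (fun p : ℝ × ℂ => φ p.1))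
    (y t : ℝ) :
    ‖E1 (fun s => φ s * gs (s : ℂ)) y t‖ₑ ≤
      ∫⁻ τ, ‖Fh φ τ‖ₑ * ‖gg (1 - 2 * I * t) (y + τ)‖ₑ := by
  set G : ℝ × ℂ → ℂ := fun p => φ p.1 with hG
  have hφm : Measurable φ := h.meas.comp (measurable_id.prodMk (measurable_const (a := (0:ℂ))))
  have hφi : Integrable φ := h.integrable 0
  have hgb : ∀ s : ℝ, ‖gs (s : ℂ)‖ ≤ 1 := fun s => gs_bdd _
  have gse : ∀ ξ : ℂ, ‖gs ξ‖ₑ ≤ 1 := by
    intro ξ
    rw [← ofReal_norm, ← ENNReal.ofReal_one]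
    exact ENNReal.ofReal_le_ofReal (gs_bdd ξ)
  have hGh : ∀ τ, Gh G (τ, 0) = Fh φ τ := fun τ => rfl
  have hFi : Integrable fun s : ℝ => φ s * gs (s : ℂ) :=
    hφi.mul_bdd (c := 1) gsr_cont.aestronglyMeasurable (Filter.Eventually.of_forall hgb)
  have key : ∀ ε : ℝ, 0 < ε → ‖E1 (fun s => φ s * gs (s : ℂ)) y t‖ₑ ≤
      (∫⁻ τ, ‖Fh φ τ‖ₑ * ‖gg (1 - 2 * I * t) (y + τ)‖ₑ) + ENNReal.ofReal (2 * A * Real.sqrt ε) := by
    intro ε hε
    have hGem : Measurable fun s : ℝ => Ge ε G s 0 := by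
      have h0 : Measurable fun s : ℝ => (s, (0:ℂ)) := measurable_id.prodMk measurable_const
      have h1 := (Ge_meas h ε).comp h0
      exact h1
    have hdiff : ∫⁻ s : ℝ, ‖φ s * gs (s : ℂ) - Ge ε G s 0 * gs (s : ℂ)‖ₑ ≤
        ENNReal.ofReal (2 * A * Real.sqrt ε) := by
      refine le_trans (lintegral_mono fun s => ?_) (Ge_mod hA h hε 0)
      simp only
      rw [← sub_mul, enorm_mul, enorm_sub_rev]
      calc _ ≤ ‖Ge ε G s 0 - φ s‖ₑ * 1 := by gcongr; exact gse _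
        _ = _ := mul_one _
    have hGei : Integrable fun s : ℝ => Ge ε G s 0 * gs (s : ℂ) := by
      have h2 : Integrable fun s : ℝ => φ s * gs (s : ℂ) - Ge ε G s 0 * gs (s : ℂ) :=
        ⟨((hφm.mul gsr_cont.measurable).sub (hGem.mul gsr_cont.measurable)).aestronglyMeasurable,
          lt_of_le_of_lt hdiff ENNReal.ofReal_lt_top⟩
      have h3 := hFi.sub h2
      refine h3.congr (Filter.Eventually.of_forall fun s => ?_)
      simp
    have e1 : ∫ τ : ℝ, dmp ε τ * (Fh φ τ * gg (1 - 2 * I * t) (y + τ)) =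
        E1 (fun s => Ge ε G s 0 * gs (s : ℂ)) y t := by
      have e2 : ∀ τ : ℝ, dmp ε τ * (Fh φ τ * gg (1 - 2 * I * t) (y + τ)) =
          ∫ s : ℝ, (gs (s : ℂ) * ph (y : ℂ) t (s : ℂ)) * (dmp ε τ * (Gh G (τ, 0) *
          cexp (((2 * π * τ * s : ℝ) : ℂ) * I))) := by
        intro τ
        rw [← E1_gs, hGh]
        unfold E1
        rw [← integral_const_mul, ← integral_const_mul]
        congr 1; funext s
        rw [← ph_shift1]
        ring
      simp_rw [e2]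
      have hm : Measurable fun p : ℝ × ℝ => (gs (p.2 : ℂ) * ph (y : ℂ) t (p.2 : ℂ)) *
          (dmp ε p.1 * (Gh G (p.1, 0) * cexp (((2 * π * p.1 * p.2 : ℝ) : ℂ) * I))) := by
        have a1 : Measurable fun p : ℝ × ℝ => gs (p.2 : ℂ) * ph (y : ℂ) t (p.2 : ℂ) :=
          (gsr_cont.mul (phr_cont y t)).measurable.comp measurable_snd
        have a2 : Measurable fun p : ℝ × ℝ => dmp ε p.1 :=
          (dmp_cont ε).measurable.comp measurable_fst
        have a4 : Measurable fun p : ℝ × ℝ => Gh G (p.1, 0) :=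
          (Gh_meas h).comp (measurable_fst.prodMk (measurable_const (a := (0:ℂ))))
        have a3 : Measurable fun p : ℝ × ℝ =>
            cexp (((2 * π * p.1 * p.2 : ℝ) : ℂ) * I) := by fun_prop
        exact a1.mul (a2.mul (a4.mul a3))
      have hI : Integrable (fun p : ℝ × ℝ => (gs (p.2 : ℂ) * ph (y : ℂ) t (p.2 : ℂ)) *
          (dmp ε p.1 * (Gh G (p.1, 0) * cexp (((2 * π * p.1 * p.2 : ℝ) : ℂ) * I))))
          ((volume : Measure ℝ).prod (volume : Measure ℝ)) := by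
        have h1 : Integrable (fun p : ℝ × ℝ => (max B 0 * ‖dmp ε p.1‖) * ‖gs (p.2 : ℂ)‖)
            ((volume : Measure ℝ).prod (volume : Measure ℝ)) :=
          ((dmp_int hε).norm.const_mul (max B 0)).mul_prod gsr_int.norm
        refine h1.mono' hm.aestronglyMeasurable (Filter.Eventually.of_forall fun p => ?_)
        rw [norm_mul, norm_mul, norm_mul, norm_mul, norm_exp_ofReal_mul_I, norm_ph, mul_one,
          mul_one]
        have h2 : ‖Gh G (p.1, 0)‖ ≤ max B 0 := by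
          have h3 := Gh_bd0 h (p.1, 0)
          rw [← ofReal_norm] at h3
          have h4 : ENNReal.ofReal B ≤ ENNReal.ofReal (max B 0) :=
            ENNReal.ofReal_le_ofReal (le_max_left _ _)
          exact (ENNReal.ofReal_le_ofReal_iff (le_max_right _ _)).1 (h3.trans h4)
        calc ‖gs (p.2 : ℂ)‖ * (‖dmp ε p.1‖ * ‖Gh G (p.1, 0)‖) ≤
            ‖gs (p.2 : ℂ)‖ * (‖dmp ε p.1‖ * max B 0) := by gcongr
          _ = _ := by ring
      rw [integral_integral_swap (f := fun τ s : ℝ => (gs (s : ℂ) * ph (y : ℂ) t (s : ℂ)) *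
          (dmp ε τ * (Gh G (τ, 0) * cexp (((2 * π * τ * s : ℝ) : ℂ) * I)))) hI]
      unfold E1
      congr 1; funext s
      rw [integral_const_mul, inner_fub h hε]
      ring
    have e3 : ‖∫ τ : ℝ, dmp ε τ * (Fh φ τ * gg (1 - 2 * I * t) (y + τ))‖ₑ ≤
        ∫⁻ τ, ‖Fh φ τ‖ₑ * ‖gg (1 - 2 * I * t) (y + τ)‖ₑ := by
      refine (enorm_integral_le_lintegral_enorm _).trans (lintegral_mono fun τ => ?_)
      simp only
      rw [enorm_mul, enorm_mul]
      have : ‖dmp ε τ‖ₑ ≤ 1 := by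
        rw [← ofReal_norm, ← ENNReal.ofReal_one]
        exact ENNReal.ofReal_le_ofReal (norm_dmp_le hε τ)
      exact (mul_le_mul' this le_rfl).trans (one_mul _).le
    have e4 : E1 (fun s => φ s * gs (s : ℂ)) y t =
        (∫ τ : ℝ, dmp ε τ * (Fh φ τ * gg (1 - 2 * I * t) (y + τ))) +
        E1 (fun s => φ s * gs (s : ℂ) - Ge ε G s 0 * gs (s : ℂ)) y t := by
      have hs2 : Integrable fun s : ℝ => φ s * gs (s : ℂ) - Ge ε G s 0 * gs (s : ℂ) :=
        hFi.sub hGei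
      rw [e1, ← E1_add hGei hs2]
      congr 1
      funext s
      ring
    rw [e4]
    refine (enorm_add_le _ _).trans (add_le_add e3 ?_)
    exact (E1_sup _ y t).trans hdiff
  -- the limit
  apply ENNReal.le_of_forall_pos_le_add
  intro δ hδ _
  have hc : 0 < 2 * A + 1 := by positivity
  set s : ℝ := δ / (2 * A + 1) with hs
  have hs0 : 0 < s := div_pos (by exact_mod_cast hδ) hc
  refine (key (s ^ 2) (by positivity)).trans ?_
  gcongr
  rw [Real.sqrt_sq hs0.le]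
  apply ENNReal.ofReal_le_of_le_toReal
  rw [ENNReal.coe_toReal]
  calc 2 * A * s ≤ (2 * A + 1) * s := by nlinarith
    _ = δ := by rw [hs]; field_simp

/-- **The estimate at a fixed time on the line.** -/
theorem lin1 {q : ℝ} (hq2 : 2 < q) {ρ : ℝ} (hρ : ρ < q - 2) {N : ℝ} (hN : 0 ≤ N) :
    ∃ C : ℝ≥0∞, C ≠ ∞ ∧ ∀ φ : ℝ → ℂ, (∀ s, ‖φ s‖ ≤ N) → Prof N N (fun p : ℝ × ℂ => φ p.1) →
      ∀ t : ℝ, ∫⁻ y, ‖E1 (fun s => φ s * gs (s : ℂ)) y t‖ₑ ^ q ≤ C * jb t ^ (-(ρ / 2)) := by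
  have hq0 : 0 < q - 2 := by linarith
  obtain ⟨δ, hδ0, hδ1, hδ⟩ : ∃ δ : ℝ, 0 < δ ∧ δ ≤ 1 ∧ (-(1 / 2) + δ) * (q - 2) ≤ -(ρ / 2) := by
    refine ⟨min 1 ((q - 2 - ρ) / (2 * (q - 2))), lt_min one_pos (by apply div_pos <;> linarith),
      min_le_left _ _, ?_⟩
    have h1 : min 1 ((q - 2 - ρ) / (2 * (q - 2))) ≤ (q - 2 - ρ) / (2 * (q - 2)) := min_le_right _ _
    have h2 : (q - 2 - ρ) / (2 * (q - 2)) * (q - 2) = (q - 2 - ρ) / 2 := by field_simp
    nlinarith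
  obtain ⟨K, hK, hkt⟩ := kt_int (γ := δ) (γ' := 0) le_rfl hδ0 zero_le_one
  set M : ℝ≥0∞ := ENNReal.ofReal (2 * N * 4) * K with hM
  have hMf : M ≠ ∞ := ENNReal.mul_ne_top ENNReal.ofReal_ne_top hK
  refine ⟨M ^ (q - 2) * (ENNReal.ofReal N * ENNReal.ofReal N), ENNReal.mul_ne_top
    (ENNReal.rpow_ne_top_of_nonneg hq0.le hMf)
    (ENNReal.mul_ne_top ENNReal.ofReal_ne_top ENNReal.ofReal_ne_top), ?_⟩
  intro φ hb h t
  have hφm : Measurable φ := h.meas.comp (measurable_id.prodMk (measurable_const (a := (0:ℂ))))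
  have hφi : Integrable φ := h.integrable 0
  have hgb : ∀ s : ℝ, ‖gs (s : ℂ)‖ ≤ 1 := fun s => gs_bdd _
  have hsup : ∀ y, ‖E1 (fun s => φ s * gs (s : ℂ)) y t‖ₑ ≤ M * jb t ^ (-(1 / 2) + δ) := by
    intro y
    refine (cutL hN h y t).trans ?_
    have hpt : ∀ τ, ‖Fh φ τ‖ₑ * ‖gg (1 - 2 * I * t) (y + τ)‖ₑ ≤
        (ENNReal.ofReal (2 * N * 4) * jb t ^ (-(1 / 2) + δ)) * kt δ y τ := by
      intro τ
      unfold kt
      rw [← ofReal_norm, ← ofReal_norm, jb_rpow, jb_rpow, jb_rpow,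
        ← ENNReal.ofReal_mul (norm_nonneg _), ← ENNReal.ofReal_mul (by positivity),
        ← ENNReal.ofReal_mul (by positivity), ← ENNReal.ofReal_mul (by positivity)]
      apply ENNReal.ofReal_le_ofReal
      have b1 : ‖Fh φ τ‖ ≤ 2 * N * (1 + |τ|) ^ (-1 : ℝ) := by
        have := Gh_bd hN hN h (τ, 0)
        have hG : Gh (fun p : ℝ × ℂ => φ p.1) (τ, 0) = Fh φ τ := rfl
        rw [hG] at this
        rw [Real.rpow_neg_one, ← div_eq_mul_inv, le_div_iff₀ (by positivity)]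
        simp only at this
        linarith
      have b2 := gg_dec hδ0.le hδ1 t (y + τ)
      calc _ ≤ (2 * N * (1 + |τ|) ^ (-1 : ℝ)) *
            (4 * (1 + |t|) ^ (-(1 / 2) + δ) * (1 + |y + τ|) ^ (-δ)) :=
            mul_le_mul b1 b2 (norm_nonneg _) (by positivity)
        _ = _ := by ring
    refine (lintegral_mono hpt).trans ?_
    rw [lintegral_const_mul _ (kt_meas δ y), hM]
    have h5 := hkt y
    rw [neg_zero, ENNReal.rpow_zero, mul_one] at h5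
    calc _ ≤ ENNReal.ofReal (2 * N * 4) * jb t ^ (-(1 / 2) + δ) * K := mul_le_mul' le_rfl h5
      _ = _ := by ring
  have hFi : Integrable fun s : ℝ => φ s * gs (s : ℂ) :=
    hφi.mul_bdd (c := 1) gsr_cont.aestronglyMeasurable (Filter.Eventually.of_forall hgb)
  have hFb : ∀ s : ℝ, ‖φ s * gs (s : ℂ)‖ ≤ N := by
    intro s
    rw [norm_mul]
    calc _ ≤ N * 1 := mul_le_mul (hb s) (gs_bdd _) (norm_nonneg _) hN
      _ = N := mul_one _
  have hL2 : ∫⁻ y, ‖E1 (fun s => φ s * gs (s : ℂ)) y t‖ₑ ^ 2 ≤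
      ENNReal.ofReal N * ENNReal.ofReal N := by
    rw [E1_planch hFi hFb]
    calc ∫⁻ s : ℝ, ‖φ s * gs (s : ℂ)‖ₑ ^ 2 ≤ ∫⁻ s : ℝ, ENNReal.ofReal N * ‖φ s‖ₑ := by
          apply lintegral_mono
          intro s
          simp only
          rw [sq]
          refine mul_le_mul' ?_ ?_
          · rw [← ofReal_norm]; exact ENNReal.ofReal_le_ofReal (hFb s)
          · rw [enorm_mul]
            have : ‖gs (s : ℂ)‖ₑ ≤ 1 := by
              rw [← ofReal_norm, ← ENNReal.ofReal_one]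
              exact ENNReal.ofReal_le_ofReal (gs_bdd _)
            calc _ ≤ ‖φ s‖ₑ * 1 := mul_le_mul' le_rfl this
              _ = _ := mul_one _
      _ = ENNReal.ofReal N * ∫⁻ s : ℝ, ‖φ s‖ₑ := by
          rw [lintegral_const_mul' _ _ ENNReal.ofReal_ne_top]
      _ ≤ _ := mul_le_mul' le_rfl (h.int 0)
  have hne : (M * jb t ^ (-(1 / 2) + δ)) ^ (q - 2) ≠ ∞ :=
    ENNReal.rpow_ne_top_of_nonneg hq0.le (ENNReal.mul_ne_top hMf
      (ENNReal.rpow_ne_top_of_ne_zero (jb_ne_zero _) (jb_ne_top _)))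
  calc ∫⁻ y, ‖E1 (fun s => φ s * gs (s : ℂ)) y t‖ₑ ^ q ≤
        ∫⁻ y, (M * jb t ^ (-(1 / 2) + δ)) ^ (q - 2) *
          ‖E1 (fun s => φ s * gs (s : ℂ)) y t‖ₑ ^ 2 := by
        apply lintegral_mono
        intro y
        simp only
        calc ‖E1 (fun s => φ s * gs (s : ℂ)) y t‖ₑ ^ q =
              ‖E1 (fun s => φ s * gs (s : ℂ)) y t‖ₑ ^ (q - 2) *
                ‖E1 (fun s => φ s * gs (s : ℂ)) y t‖ₑ ^ (2:ℝ) := by
              rw [← ENNReal.rpow_add_of_nonneg _ _ (by linarith) (by norm_num)]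
              congr 1; ring
          _ ≤ _ := by
              rw [ENNReal.rpow_two]
              exact mul_le_mul' (ENNReal.rpow_le_rpow (hsup y) hq0.le) le_rfl
    _ = (M * jb t ^ (-(1 / 2) + δ)) ^ (q - 2) *
          ∫⁻ y, ‖E1 (fun s => φ s * gs (s : ℂ)) y t‖ₑ ^ 2 := by
        rw [lintegral_const_mul' _ _ hne]
    _ ≤ (M * jb t ^ (-(1 / 2) + δ)) ^ (q - 2) * (ENNReal.ofReal N * ENNReal.ofReal N) :=
        mul_le_mul' le_rfl hL2
    _ = M ^ (q - 2) * (ENNReal.ofReal N * ENNReal.ofReal N) *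
          jb t ^ ((-(1 / 2) + δ) * (q - 2)) := by
        rw [ENNReal.mul_rpow_of_nonneg _ _ hq0.le, ← ENNReal.rpow_mul]
        ring
    _ ≤ _ := by
        refine mul_le_mul' le_rfl ?_
        rw [jb_rpow, jb_rpow]
        apply ENNReal.ofReal_le_ofReal
        exact Real.rpow_le_rpow_of_exponent_le (by linarith [abs_nonneg t]) hδ

end Pool.Agent.T9h83.RAY
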