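import Pool.Agent.T9h83.RAY.Mom
import Pool.Agent.T9h83.RAY.Ker
set_option autoImplicit false

/-! The extension operator on the plane, and its value on even homogeneous functions with the
weight `|ξ| exp(-π|ξ|²)`. -/

namespace Pool.Agent.T9h83.RAY

open Complex MeasureTheory Set
open scoped ENNReal Real ComplexConjugate

/-- the phase -/
noncomputable def ph (x : ℂ) (t : ℝ) (ξ : ℂ) : ℂ :=
  cexp (2 * π * I * ((x.re * ξ.re + x.im * ξ.im + t * ‖ξ‖ ^ 2 : ℝ) : ℂ))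

lemma norm_ph (x : ℂ) (t : ℝ) (ξ : ℂ) : ‖ph x t ξ‖ = 1 := by
  unfold ph
  rw [show (2 * π * I * ((x.re * ξ.re + x.im * ξ.im + t * ‖ξ‖ ^ 2 : ℝ) : ℂ)) =
    ((2 * π * (x.re * ξ.re + x.im * ξ.im + t * ‖ξ‖ ^ 2) : ℝ) : ℂ) * I by push_cast; ring]
  exact norm_exp_ofReal_mul_I _

lemma ph_cont (x : ℂ) (t : ℝ) : Continuous (ph x t) := by
  unfold ph
  fun_prop

/-- the extension operator on the plane -/
noncomputable def EV (F : ℂ → ℂ) (x : ℂ) (t : ℝ) : ℂ := ∫ ξ : ℂ, F ξ * ph x t ξ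

/-- the weight -/
noncomputable def wt (ξ : ℂ) : ℂ := ((‖ξ‖ * Real.exp (-π * ‖ξ‖ ^ 2) : ℝ) : ℂ)

lemma wt_cont : Continuous wt := by unfold wt; fun_prop

/-- the even function with angular part `ω` -/
noncomputable def Oev (ω : ℝ → ℂ) (ξ : ℂ) : ℂ := if 0 < ξ.im then ω (arg ξ) else ω (arg (-ξ))

lemma Oev_meas {ω : ℝ → ℂ} (hω : Measurable ω) : Measurable (Oev ω) := by
  unfold Oev
  refine Measurable.ite ?_ (hω.comp measurable_arg) (hω.comp (measurable_arg.comp measurable_neg))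
  exact measurableSet_lt measurable_const measurable_im

lemma Oev_bdd {ω : ℝ → ℂ} (hb : ∀ θ, ‖ω θ‖ ≤ 1) (ξ : ℂ) : ‖Oev ω ξ‖ ≤ 1 := by
  unfold Oev; split_ifs <;> exact hb _

/-- the integrand in polar coordinates -/
noncomputable def gP (ω : ℝ → ℂ) (x : ℂ) (t : ℝ) (p : ℝ × ℝ) : ℂ :=
  p.1 • (Oev ω (Complex.polarCoord.symm p) * wt (Complex.polarCoord.symm p) *
    ph x t (Complex.polarCoord.symm p))

lemma ph_polar (x : ℂ) (t r θ : ℝ) : ph x t (r * (Real.cos θ + Real.sin θ * I)) =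
    cexp (2 * π * I * (r * ss θ (x.re, x.im)) + 2 * π * I * t * r ^ 2) := by
  unfold ph ss
  have h1 : (r * (Real.cos θ + Real.sin θ * I) : ℂ).re = r * Real.cos θ := by
    rw [re_ofReal_mul]; simp [-ofReal_cos, -ofReal_sin]
  have h2 : (r * (Real.cos θ + Real.sin θ * I) : ℂ).im = r * Real.sin θ := by
    rw [im_ofReal_mul]; simp [-ofReal_cos, -ofReal_sin]
  have h3 : ‖(r * (Real.cos θ + Real.sin θ * I) : ℂ)‖ ^ 2 = r ^ 2 := by
    rw [← normSq_eq_norm_sq, normSq_apply, h1, h2]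
    have := Real.cos_sq_add_sin_sq θ
    linear_combination r ^ 2 * this
  rw [h1, h2, h3]
  congr 1
  push_cast
  ring

lemma wt_polar {r : ℝ} (hr : 0 < r) (θ : ℝ) : wt (r * (Real.cos θ + Real.sin θ * I)) =
    r * cexp (-π * r ^ 2) := by
  unfold wt
  have h3 : ‖(r * (Real.cos θ + Real.sin θ * I) : ℂ)‖ = r := by
    rw [norm_mul, norm_real, Real.norm_eq_abs, abs_of_pos hr, ofReal_cos, ofReal_sin,
      norm_cos_add_sin_mul_I, mul_one]
  rw [h3]
  push_cast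
  ring_nf

lemma gP_pos (ω : ℝ → ℂ) (x : ℂ) (t : ℝ) {r θ : ℝ} (hr : 0 < r) (hθ : θ ∈ Ioo 0 π) :
    gP ω x t (r, θ) = ω θ * kI (1 - 2 * I * t) (ss θ (x.re, x.im)) r := by
  unfold gP
  rw [Complex.polarCoord_symm_apply]
  simp only
  rw [ph_polar, wt_polar hr]
  have h2 : (r * (Real.cos θ + Real.sin θ * I) : ℂ).im = r * Real.sin θ := by
    rw [im_ofReal_mul]; simp [-ofReal_cos, -ofReal_sin]
  have h4 : Oev ω (r * (Real.cos θ + Real.sin θ * I)) = ω θ := by
    unfold Oev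
    rw [h2, if_pos (mul_pos hr (Real.sin_pos_of_mem_Ioo hθ))]
    congr 1
    rw [ofReal_cos, ofReal_sin]
    exact arg_mul_cos_add_sin_mul_I hr ⟨by linarith [hθ.1, Real.pi_pos], hθ.2.le⟩
  rw [h4]
  unfold kI
  have e : cexp (-π * (1 - 2 * I * t) * (r : ℂ) ^ 2 + 2 * π * I * (ss θ (x.re, x.im)) * r) =
      cexp (-π * r ^ 2) * cexp (2 * π * I * (r * ss θ (x.re, x.im)) + 2 * π * I * t * r ^ 2) := by
    rw [← Complex.exp_add]; congr 1; ring
  rw [e, real_smul]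
  ring

lemma gP_neg (ω : ℝ → ℂ) (x : ℂ) (t : ℝ) {r θ : ℝ} (hr : 0 < r) (hθ : θ ∈ Ioo (-π) 0) :
    gP ω x t (r, θ) = ω (θ + π) * kI (1 - 2 * I * t) (ss (θ + π) (x.re, x.im)) (-r) := by
  unfold gP
  rw [Complex.polarCoord_symm_apply]
  simp only
  rw [ph_polar, wt_polar hr]
  have h2 : (r * (Real.cos θ + Real.sin θ * I) : ℂ).im = r * Real.sin θ := by
    rw [im_ofReal_mul]; simp [-ofReal_cos, -ofReal_sin]
  have h4 : Oev ω (r * (Real.cos θ + Real.sin θ * I)) = ω (θ + π) := by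
    unfold Oev
    rw [h2, if_neg (not_lt.2 (mul_nonpos_of_nonneg_of_nonpos hr.le
      (Real.sin_neg_of_neg_of_neg_pi_lt hθ.2 hθ.1).le))]
    congr 1
    have e1 : -(r * (Real.cos θ + Real.sin θ * I) : ℂ) =
        r * (Complex.cos ((θ + π : ℝ)) + Complex.sin ((θ + π : ℝ)) * I) := by
      rw [← ofReal_cos, ← ofReal_sin, Real.cos_add_pi, Real.sin_add_pi]
      push_cast; ring
    rw [e1]
    exact arg_mul_cos_add_sin_mul_I hr ⟨by linarith [hθ.1, Real.pi_pos], by linarith [hθ.2]⟩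
  rw [h4]
  have h5 : ss (θ + π) (x.re, x.im) = -ss θ (x.re, x.im) := by
    unfold ss; rw [Real.cos_add_pi, Real.sin_add_pi]; ring
  rw [h5]
  unfold kI
  have e : cexp (-π * (1 - 2 * I * t) * ((-r : ℝ) : ℂ) ^ 2 +
      2 * π * I * ((-ss θ (x.re, x.im) : ℝ) : ℂ) * ((-r : ℝ) : ℂ)) =
      cexp (-π * r ^ 2) * cexp (2 * π * I * (r * ss θ (x.re, x.im)) + 2 * π * I * t * r ^ 2) := by
    rw [← Complex.exp_add]; congr 1; push_cast; ring
  rw [e, real_smul]
  push_cast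
  ring

lemma polar_symm_meas : Measurable (fun p : ℝ × ℝ => Complex.polarCoord.symm p) := by
  have : (fun p : ℝ × ℝ => Complex.polarCoord.symm p) =
      fun p : ℝ × ℝ => (p.1 : ℂ) * (Real.cos p.2 + Real.sin p.2 * I) := by
    funext p; exact Complex.polarCoord_symm_apply p
  rw [this]
  fun_prop

lemma gP_meas {ω : ℝ → ℂ} (hω : Measurable ω) (x : ℂ) (t : ℝ) : Measurable (gP ω x t) := by
  unfold gP
  exact measurable_fst.smul ((((Oev_meas hω).comp polar_symm_meas).mul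
    (wt_cont.measurable.comp polar_symm_meas)).mul ((ph_cont x t).measurable.comp polar_symm_meas))

lemma gP_bdd {ω : ℝ → ℂ} (hb : ∀ θ, ‖ω θ‖ ≤ 1) (x : ℂ) (t : ℝ) (p : ℝ × ℝ) :
    ‖gP ω x t p‖ ≤ p.1 ^ 2 * Real.exp (-π * p.1 ^ 2) := by
  unfold gP
  rw [norm_smul, norm_mul, norm_mul, norm_ph, mul_one]
  unfold wt
  rw [norm_real, Complex.norm_polarCoord_symm, Real.norm_eq_abs, Real.norm_eq_abs, abs_mul,
    abs_abs, abs_of_pos (Real.exp_pos _), sq_abs]
  calc |p.1| * (‖Oev ω (Complex.polarCoord.symm p)‖ * (|p.1| * Real.exp (-π * p.1 ^ 2))) ≤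
      |p.1| * (1 * (|p.1| * Real.exp (-π * p.1 ^ 2))) := by
        gcongr
        exact Oev_bdd hb _
    _ = |p.1| ^ 2 * Real.exp (-π * p.1 ^ 2) := by ring
    _ = _ := by rw [sq_abs]

lemma ss_meas_th (p : ℝ × ℝ) : Measurable fun θ => ss θ p := by unfold ss; fun_prop

lemma kI_meas_2 (a : ℂ) (p : ℝ × ℝ) : Measurable fun q : ℝ × ℝ => kI a (ss q.2 p) q.1 := by
  have h : Continuous fun q : ℝ × ℝ => kI a (ss q.2 p) q.1 := by
    unfold kI ss
    fun_prop
  exact h.measurable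

lemma hdomL (ν : Measure ℝ) [IsFiniteMeasure ν] (μ : Measure ℝ) [SFinite μ] (hμ : μ ≤ volume)
    {g : ℝ × ℝ → ℂ} (hg : Measurable g)
    (hgb : ∀ p, ‖g p‖ ≤ p.1 ^ 2 * Real.exp (-π * p.1 ^ 2)) : Integrable g (μ.prod ν) := by
  have hr2 : Integrable fun r : ℝ => r ^ 2 * Real.exp (-π * r ^ 2) := int_r2 Real.pi_pos
  have h1 : Integrable (fun p : ℝ × ℝ => (p.1 ^ 2 * Real.exp (-π * p.1 ^ 2)) * (1:ℝ))
      (μ.prod ν) := Integrable.mul_prod (hr2.mono_measure hμ) (integrable_const (1:ℝ))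
  refine h1.mono' hg.aestronglyMeasurable (Filter.Eventually.of_forall fun p => ?_)
  rw [mul_one]
  exact hgb p

/-- **The link.** -/
theorem link {ω : ℝ → ℂ} (hω : Measurable ω) (hb : ∀ θ, ‖ω θ‖ ≤ 1) (x : ℂ) (t : ℝ) :
    EV (fun ξ => Oev ω ξ * wt ξ) x t = -(1 / π) * Fth ω (1 - 2 * I * t) (x.re, x.im) := by
  set a : ℂ := 1 - 2 * I * t with ha'
  have ha : 0 < a.re := by rw [ha']; simp
  have hare : a.re = 1 := by rw [ha']; simp
  have e1 : EV (fun ξ => Oev ω ξ * wt ξ) x t =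
      ∫ p in Ioi (0:ℝ) ×ˢ Ioo (-π) π, gP ω x t p :=
    (Complex.integral_comp_polarCoord_symm (fun ξ => Oev ω ξ * wt ξ * ph x t ξ)).symm
  have : IsFiniteMeasure (volume.restrict (Ioo (-π) π)) :=
    ⟨by rw [Measure.restrict_apply_univ, Real.volume_Ioo]; exact ENNReal.ofReal_lt_top⟩
  have hI : IntegrableOn (gP ω x t) (Ioi (0:ℝ) ×ˢ Ioo (-π) π) (volume.prod volume) := by
    rw [IntegrableOn, ← Measure.prod_restrict]
    exact hdomL _ _ Measure.restrict_le_self (gP_meas hω x t) (gP_bdd hb x t)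
  rw [e1, Measure.volume_eq_prod, setIntegral_prod _ hI]
  -- the function Ψ
  set Ψ : ℝ → ℂ := fun r => ∫ θ, ω θ * kI a (ss θ (x.re, x.im)) r ∂mθ with hΨ
  have e2 : ∀ r ∈ Ioi (0:ℝ), ∫ θ in Ioo (-π) π, gP ω x t (r, θ) = Ψ (-r) + Ψ r := by
    intro r hr
    have hr' : 0 < r := hr
    have hsplit : Ioo (-π) π = Ioc (-π) 0 ∪ Ioo 0 π :=
      (Ioc_union_Ioo_eq_Ioo (by linarith [Real.pi_pos]) Real.pi_pos).symm
    have hint : ∀ s : Set ℝ, s ⊆ Ioo (-π) π → IntegrableOn (fun θ => gP ω x t (r, θ)) s := by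
      intro s hs
      have h1 : IntegrableOn (fun θ => gP ω x t (r, θ)) (Ioo (-π) π) := by
        refine (integrable_const (r ^ 2 * Real.exp (-π * r ^ 2))).mono'
          ((gP_meas hω x t).comp measurable_prodMk_left).aestronglyMeasurable
          (Filter.Eventually.of_forall fun θ => gP_bdd hb x t (r, θ))
      exact h1.mono_set hs
    rw [hsplit, setIntegral_union _ measurableSet_Ioo (hint _ _) (hint _ _)]
    · congr 1
      · rw [integral_Ioc_eq_integral_Ioo, setIntegral_congr_fun measurableSet_Ioo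
          (fun θ hθ => gP_neg ω x t hr' hθ)]
        rw [← integral_Ioc_eq_integral_Ioo,
          ← intervalIntegral.integral_of_le (by linarith [Real.pi_pos])]
        have := intervalIntegral.integral_comp_add_right (a := -π) (b := 0)
          (fun θ => ω θ * kI a (ss θ (x.re, x.im)) (-r)) π
        rw [this, neg_add_cancel, zero_add, intervalIntegral.integral_of_le Real.pi_pos.le]
        rfl
      · rw [setIntegral_congr_fun measurableSet_Ioo (fun θ hθ => gP_pos ω x t hr' hθ),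
          ← integral_Ioc_eq_integral_Ioo]
        rfl
    · rw [Set.disjoint_left]
      intro y hy1 hy2
      exact absurd hy2.1 (not_lt.2 hy1.2)
    · rw [hsplit]; exact subset_union_left
    · rw [hsplit]; exact subset_union_right
  rw [setIntegral_congr_fun measurableSet_Ioi e2]
  -- integrability of Φ on the product
  have hΦm : Measurable fun p : ℝ × ℝ => ω p.2 * kI a (ss p.2 (x.re, x.im)) p.1 := by
    exact (hω.comp measurable_snd).mul (kI_meas_2 a _)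
  have hΦI : Integrable (fun p : ℝ × ℝ => ω p.2 * kI a (ss p.2 (x.re, x.im)) p.1)
      (volume.prod mθ) := by
    refine hdomL mθ volume le_rfl hΦm (fun p => ?_)
    rw [norm_mul, norm_kI, hare, mul_one]
    calc ‖ω p.2‖ * (p.1 ^ 2 * Real.exp (-π * p.1 ^ 2)) ≤
        1 * (p.1 ^ 2 * Real.exp (-π * p.1 ^ 2)) := by gcongr; exact hb _
      _ = _ := one_mul _
  have hΨI : Integrable Ψ := hΦI.integral_prod_left
  have e3 : ∫ r in Ioi (0:ℝ), (Ψ (-r) + Ψ r) = ∫ r, Ψ r := by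
    rw [integral_add hΨI.comp_neg.integrableOn hΨI.integrableOn, integral_comp_neg_Ioi, neg_zero,
      intervalIntegral.integral_Iic_add_Ioi hΨI.integrableOn hΨI.integrableOn]
  rw [e3, hΨ, integral_integral_swap hΦI]
  have e4 : ∀ θ, ∫ r, ω θ * kI a (ss θ (x.re, x.im)) r =
      -(1 / π) * (ω θ * ggp a (ss θ (x.re, x.im))) := by
    intro θ
    rw [integral_const_mul, ker_eq ha]
    ring
  simp_rw [e4]
  rw [integral_const_mul]
  rfl

end Pool.Agent.T9h83.RAY
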