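import Pool.Agent.T9h83.RAY.Four
set_option autoImplicit false

/-! The fourth moment at a fixed time. -/

namespace Pool.Agent.T9h83.RAY

open Complex MeasureTheory Set
open scoped ENNReal Real ComplexConjugate

lemma arg_ne_pi {a : ℂ} (ha : 0 < a.re) : a.arg ≠ π := by
  intro h
  rw [Complex.arg_eq_pi_iff] at h
  linarith [h.1]

lemma conj_two : conj (2 : ℂ) = 2 := map_ofNat (starRingEnd ℂ) 2

lemma conj_gg {a : ℂ} (ha : 0 < a.re) (s : ℝ) : conj (gg a s) = gg (conj a) s := by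
  unfold gg
  rw [map_mul, Complex.conj_cpow _ _ (arg_ne_pi ha), ← Complex.exp_conj]
  simp [conj_ofReal, conj_two]

lemma conj_ggp {a : ℂ} (ha : 0 < a.re) (s : ℝ) : conj (ggp a s) = ggp (conj a) s := by
  unfold ggp
  rw [map_mul, conj_gg ha]
  simp [conj_ofReal, conj_two]

/-- the function at a fixed time -/
noncomputable def Fth (Ω : ℝ → ℂ) (a : ℂ) (p : ℝ × ℝ) : ℂ := ∫ θ, Ω θ * ggp a (ss θ p) ∂mθ

/-- the measure on quadruples of angles -/
noncomputable def M4 : Measure (ℝ × ℝ × ℝ × ℝ) := mθ.prod (mθ.prod (mθ.prod mθ))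

instance : IsFiniteMeasure M4 := by unfold M4; infer_instance

/-- the integrand -/
noncomputable def H4 (Ω : ℝ → ℂ) (a : ℂ) (p : ℝ × ℝ) (q : ℝ × ℝ × ℝ × ℝ) : ℂ :=
  (Ω q.1 * ggp a (ss q.1 p)) * ((conj (Ω q.2.1) * ggp (conj a) (ss q.2.1 p)) *
    ((conj (Ω q.2.2.1) * ggp (conj a) (ss q.2.2.1 p)) * (Ω q.2.2.2 * ggp a (ss q.2.2.2 p))))

lemma ss_meas2 : Measurable fun x : (ℝ × ℝ) × ℝ => ss x.2 x.1 := by unfold ss; fun_prop

lemma H4_meas {Ω : ℝ → ℂ} (hΩ : Measurable Ω) (a : ℂ) :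
    Measurable (Function.uncurry (H4 Ω a)) := by
  have hg : ∀ b : ℂ, Measurable (ggp b) := fun b => (ggp_cont b).measurable
  have hc : Measurable (conj : ℂ → ℂ) := Complex.continuous_conj.measurable
  have hs : ∀ {f : (ℝ × ℝ) × (ℝ × ℝ × ℝ × ℝ) → ℝ}, Measurable f →
      Measurable fun x => ss (f x) x.1 := by
    intro f hf
    exact ss_meas2.comp (measurable_fst.prodMk hf)
  unfold H4 Function.uncurry
  have m1 : Measurable fun x : (ℝ × ℝ) × (ℝ × ℝ × ℝ × ℝ) => x.2.1 := by fun_prop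
  have m2 : Measurable fun x : (ℝ × ℝ) × (ℝ × ℝ × ℝ × ℝ) => x.2.2.1 := by fun_prop
  have m3 : Measurable fun x : (ℝ × ℝ) × (ℝ × ℝ × ℝ × ℝ) => x.2.2.2.1 := by fun_prop
  have m4 : Measurable fun x : (ℝ × ℝ) × (ℝ × ℝ × ℝ × ℝ) => x.2.2.2.2 := by fun_prop
  exact ((hΩ.comp m1).mul ((hg a).comp (hs m1))).mul
    (((hc.comp (hΩ.comp m2)).mul ((hg (conj a)).comp (hs m2))).mul
    (((hc.comp (hΩ.comp m3)).mul ((hg (conj a)).comp (hs m3))).mul
    ((hΩ.comp m4).mul ((hg a).comp (hs m4)))))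

lemma conj_re {a : ℂ} (ha : 0 < a.re) : 0 < (conj a).re := by simpa using ha

lemma EE_meas (c : ℝ) (p : ℝ × ℝ) : Measurable fun θ => EE c θ p := by
  unfold EE ss; fun_prop

lemma H4_int {Ω : ℝ → ℂ} (hΩ : Measurable Ω) (hb : ∀ θ, ‖Ω θ‖ ≤ 1) {a : ℂ} (ha : 0 < a.re) :
    Integrable (Function.uncurry (H4 Ω a)) ((volume : Measure (ℝ × ℝ)).prod M4) := by
  obtain ⟨C, c, hc, hC⟩ := (ggp_GB ha).bd
  have hu : ∀ (f : ℝ → ℂ), (∀ θ, ‖f θ‖ ≤ 1) → ∀ θ p, ‖f θ * ggp a (ss θ p)‖ₑ ≤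
      ENNReal.ofReal |C| * EE c θ p := by
    intro f hf θ p
    rw [enorm_mul]
    have h1 : ‖f θ‖ₑ ≤ 1 := by
      rw [← ofReal_norm, ← ENNReal.ofReal_one]
      exact ENNReal.ofReal_le_ofReal (hf θ)
    have h2 : ‖ggp a (ss θ p)‖ₑ ≤ ENNReal.ofReal |C| * EE c θ p := by
      unfold EE
      rw [← ofReal_norm, ← ENNReal.ofReal_mul (abs_nonneg _)]
      apply ENNReal.ofReal_le_ofReal
      refine (hC _).trans ?_
      gcongr
      exact le_abs_self _
    calc ‖f θ‖ₑ * ‖ggp a (ss θ p)‖ₑ ≤ 1 * (ENNReal.ofReal |C| * EE c θ p) := by gcongr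
      _ = _ := one_mul _
  have hcj : ∀ (f : ℝ → ℂ), (∀ θ, ‖f θ‖ ≤ 1) → ∀ θ p,
      ‖conj (f θ) * ggp (conj a) (ss θ p)‖ₑ ≤ ENNReal.ofReal |C| * EE c θ p := by
    intro f hf θ p
    rw [← conj_ggp ha, ← map_mul]
    have : ‖conj (f θ * ggp a (ss θ p))‖ₑ = ‖f θ * ggp a (ss θ p)‖ₑ := by
      rw [← ofReal_norm, ← ofReal_norm, RCLike.norm_conj]
    rw [this]
    exact hu f hf θ p
  refine ⟨(H4_meas hΩ a).aestronglyMeasurable, ?_⟩
  rw [hasFiniteIntegral_iff_enorm, lintegral_prod _ (H4_meas hΩ a).enorm.aemeasurable]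
  set D := ENNReal.ofReal |C|
  have key : ∀ p, ∫⁻ q, ‖Function.uncurry (H4 Ω a) (p, q)‖ₑ ∂M4 ≤ D ^ 4 * kkE c p ^ 4 := by
    intro p
    have m := EE_meas c p
    have m2 : Measurable fun q : ℝ × ℝ => EE c q.1 p * EE c q.2 p :=
      (m.comp measurable_fst).mul (m.comp measurable_snd)
    have m3 : Measurable fun q : ℝ × ℝ × ℝ => EE c q.1 p * (EE c q.2.1 p * EE c q.2.2 p) :=
      (m.comp measurable_fst).mul (m2.comp measurable_snd)
    calc ∫⁻ q, ‖Function.uncurry (H4 Ω a) (p, q)‖ₑ ∂M4 ≤ ∫⁻ q : ℝ × ℝ × ℝ × ℝ,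
          D ^ 4 * (EE c q.1 p * (EE c q.2.1 p * (EE c q.2.2.1 p * EE c q.2.2.2 p))) ∂M4 := by
            apply lintegral_mono
            intro q
            simp only [Function.uncurry, H4]
            rw [enorm_mul, enorm_mul (conj (Ω q.2.1) * ggp (conj a) (ss q.2.1 p)),
              enorm_mul (conj (Ω q.2.2.1) * ggp (conj a) (ss q.2.2.1 p))]
            calc _ ≤ (D * EE c q.1 p) * ((D * EE c q.2.1 p) * ((D * EE c q.2.2.1 p) *
                  (D * EE c q.2.2.2 p))) := by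
                  gcongr
                  · exact hu Ω hb _ _
                  · exact hcj Ω hb _ _
                  · exact hcj Ω hb _ _
                  · exact hu Ω hb _ _
              _ = _ := by ring
      _ = D ^ 4 * kkE c p ^ 4 := by
            have m4 : Measurable fun q : ℝ × ℝ × ℝ × ℝ =>
                EE c q.1 p * (EE c q.2.1 p * (EE c q.2.2.1 p * EE c q.2.2.2 p)) :=
              (m.comp measurable_fst).mul (m3.comp measurable_snd)
            rw [lintegral_const_mul _ m4]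
            unfold M4
            have e2 : ∫⁻ q : ℝ × ℝ, EE c q.1 p * EE c q.2 p ∂(mθ.prod mθ) =
                kkE c p * kkE c p := lintegral_prod_mul m.aemeasurable m.aemeasurable
            have e3 : ∫⁻ q : ℝ × ℝ × ℝ, EE c q.1 p * (EE c q.2.1 p * EE c q.2.2 p)
                ∂(mθ.prod (mθ.prod mθ)) = kkE c p * (kkE c p * kkE c p) := by
              rw [← e2]
              exact lintegral_prod_mul (ν := mθ.prod mθ) m.aemeasurable m2.aemeasurable
            have e4 := lintegral_prod_mul (μ := mθ) (ν := mθ.prod (mθ.prod mθ)) m.aemeasurable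
              m3.aemeasurable
            rw [e3] at e4
            rw [e4]
            unfold kkE
            ring
  refine lt_of_le_of_lt (lintegral_mono key) ?_
  have mk : Measurable fun p => kkE c p ^ 4 := by
    have : Measurable fun x : (ℝ × ℝ) × ℝ => EE c x.2 x.1 := by unfold EE ss; fun_prop
    exact (this.lintegral_prod_right' (ν := mθ)).pow_const 4
  rw [lintegral_const_mul _ mk]
  exact ENNReal.mul_lt_top (ENNReal.pow_lt_top ENNReal.ofReal_lt_top) (kk4_int hc)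

lemma sin_null (x : ℝ) : ∀ᵐ y ∂mθ, 0 < pp x y := by
  have hc : Set.Countable {y : ℝ | Real.sin (x - y) = 0} := by
    refine (Set.countable_range (fun n : ℤ => x - n * π)).mono ?_
    intro y hy
    obtain ⟨n, hn⟩ := Real.sin_eq_zero_iff.1 hy
    exact ⟨n, by simp only; rw [hn]; ring⟩
  have h0 : volume {y : ℝ | Real.sin (x - y) = 0} = 0 := hc.measure_zero _
  have h1 : ∀ᵐ y ∂(volume : Measure ℝ), Real.sin (x - y) ≠ 0 := by
    rw [ae_iff]; simpa using h0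
  unfold mθ
  filter_upwards [ae_restrict_of_ae h1] with y hy
  unfold pp
  positivity

/-- nondegenerate quadruples -/
def nd : Set (ℝ × ℝ × ℝ × ℝ) := {q | 0 < pp q.1 q.2.2.2 ∧ 0 < pp q.2.1 q.2.2.1}

lemma pp_meas {α : Type*} [MeasurableSpace α] {f g : α → ℝ} (hf : Measurable f)
    (hg : Measurable g) : Measurable fun a => pp (f a) (g a) := by
  unfold pp
  exact (Real.measurable_sin.comp (hf.sub hg)).pow_const 2

lemma mm1 : Measurable fun q : ℝ × ℝ × ℝ × ℝ => q.1 := measurable_fst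
lemma mm2 : Measurable fun q : ℝ × ℝ × ℝ × ℝ => q.2.1 := measurable_fst.comp measurable_snd
lemma mm3 : Measurable fun q : ℝ × ℝ × ℝ × ℝ => q.2.2.1 :=
  measurable_fst.comp (measurable_snd.comp measurable_snd)
lemma mm4 : Measurable fun q : ℝ × ℝ × ℝ × ℝ => q.2.2.2 :=
  measurable_snd.comp (measurable_snd.comp measurable_snd)

lemma nd_meas : MeasurableSet nd := by
  exact (measurableSet_lt measurable_const (pp_meas mm1 mm4)).inter
    (measurableSet_lt measurable_const (pp_meas mm2 mm3))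

lemma M4_null : ∀ᵐ q ∂M4, q ∈ nd := by
  unfold M4
  rw [Measure.ae_prod_mem_iff_ae_ae_mem nd_meas]
  filter_upwards with x
  have hB : MeasurableSet (Prod.mk x ⁻¹' nd) := measurable_prodMk_left nd_meas
  change ∀ᵐ q ∂(mθ.prod (mθ.prod mθ)), q ∈ Prod.mk x ⁻¹' nd
  rw [Measure.ae_prod_mem_iff_ae_ae_mem hB]
  filter_upwards with z
  have hC : MeasurableSet (Prod.mk z ⁻¹' (Prod.mk x ⁻¹' nd)) := measurable_prodMk_left hB
  change ∀ᵐ q ∂(mθ.prod mθ), q ∈ Prod.mk z ⁻¹' (Prod.mk x ⁻¹' nd)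
  rw [Measure.ae_prod_mem_iff_ae_ae_mem hC]
  filter_upwards [sin_null z] with w hw
  filter_upwards [sin_null x] with y hy
  exact ⟨hy, hw⟩

/-- the integrand of the energy -/
noncomputable def ee (κ : ℝ) (q : ℝ × ℝ × ℝ × ℝ) : ℝ≥0∞ :=
  ENNReal.ofReal (dd q.1 q.2.2.2 q.2.1 q.2.2.1) ^ (-κ)

lemma dd_meas {α : Type*} [MeasurableSpace α] {f g h k : α → ℝ} (hf : Measurable f)
    (hg : Measurable g) (hh : Measurable h) (hk : Measurable k) :
    Measurable fun a => dd (f a) (g a) (h a) (k a) := by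
  unfold dd Vr Vi
  fun_prop

lemma ee_meas (κ : ℝ) : Measurable (ee κ) := by
  exact (dd_meas mm1 mm4 mm2 mm3).ennreal_ofReal.pow_const _

/-- the energy constant -/
noncomputable def En (κ : ℝ) : ℝ≥0∞ := ∫⁻ q, ee κ q ∂M4

lemma En_lt {κ : ℝ} (h0 : 0 ≤ κ) (h2 : κ < 2) : En κ < ∞ := by
  have e : En κ = ∫⁻ x, ∫⁻ z, ∫⁻ w, ∫⁻ y, ee κ (x, z, w, y) ∂mθ ∂mθ ∂mθ ∂mθ := by
    unfold En M4
    have m0 := ee_meas κ
    rw [lintegral_prod _ m0.aemeasurable]
    congr 1; funext x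
    have m1 : Measurable fun q : ℝ × ℝ × ℝ => ee κ (x, q) := m0.comp measurable_prodMk_left
    rw [lintegral_prod _ m1.aemeasurable]
    congr 1; funext z
    have m2 : Measurable fun q : ℝ × ℝ => ee κ (x, z, q) := m1.comp measurable_prodMk_left
    rw [lintegral_prod _ m2.aemeasurable]
  rw [e]
  exact energy h0 h2

/-- **The fourth moment.** -/
theorem fourth {κ : ℝ} (h1 : 1 ≤ κ) (h2 : κ < 2) {Ω : ℝ → ℂ} (hΩ : Measurable Ω)
    (hb : ∀ θ, ‖Ω θ‖ ≤ 1) {t : ℝ} (ht : 1 ≤ |t|) :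
    ∫⁻ p, ‖Fth Ω (1 - 2 * I * t) p‖ₑ ^ 4 ≤ ENNReal.ofReal (1400 * |t| ^ (-κ)) * En κ := by
  set a : ℂ := 1 - 2 * I * t with ha'
  have ha : 0 < a.re := by rw [ha']; simp
  have hca : conj a = 1 + 2 * I * t := by rw [ha']; simp [conj_two]
  have hInt := H4_int hΩ hb ha
  -- the product formula
  have e1 : ∀ p, ∫ q, H4 Ω a p q ∂M4 = ((‖Fth Ω a p‖ ^ 4 : ℝ) : ℂ) := by
    intro p
    have c1 : conj (Fth Ω a p) = ∫ θ, conj (Ω θ) * ggp (conj a) (ss θ p) ∂mθ := by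
      unfold Fth
      rw [← integral_conj]
      congr 1; funext θ
      rw [map_mul, conj_ggp ha]
    have f2 : ∫ q : ℝ × ℝ, (conj (Ω q.1) * ggp (conj a) (ss q.1 p)) *
        (Ω q.2 * ggp a (ss q.2 p)) ∂(mθ.prod mθ) = conj (Fth Ω a p) * Fth Ω a p := by
      rw [c1]
      exact integral_prod_mul (fun θ => conj (Ω θ) * ggp (conj a) (ss θ p))
        (fun θ => Ω θ * ggp a (ss θ p))
    have f3 : ∫ q : ℝ × ℝ × ℝ, (conj (Ω q.1) * ggp (conj a) (ss q.1 p)) *
        ((conj (Ω q.2.1) * ggp (conj a) (ss q.2.1 p)) * (Ω q.2.2 * ggp a (ss q.2.2 p)))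
          ∂(mθ.prod (mθ.prod mθ)) = conj (Fth Ω a p) * (conj (Fth Ω a p) * Fth Ω a p) := by
      rw [← f2, c1]
      exact integral_prod_mul (ν := mθ.prod mθ) (fun θ => conj (Ω θ) * ggp (conj a) (ss θ p))
        (fun q : ℝ × ℝ => (conj (Ω q.1) * ggp (conj a) (ss q.1 p)) * (Ω q.2 * ggp a (ss q.2 p)))
    have f4 : ∫ q, H4 Ω a p q ∂M4 =
        Fth Ω a p * (conj (Fth Ω a p) * (conj (Fth Ω a p) * Fth Ω a p)) := by
      rw [← f3]
      unfold M4 H4
      exact integral_prod_mul (ν := mθ.prod (mθ.prod mθ)) (fun θ => Ω θ * ggp a (ss θ p))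
        (fun q : ℝ × ℝ × ℝ => (conj (Ω q.1) * ggp (conj a) (ss q.1 p)) *
        ((conj (Ω q.2.1) * ggp (conj a) (ss q.2.1 p)) * (Ω q.2.2 * ggp a (ss q.2.2 p))))
    rw [f4]
    have g1 : Fth Ω a p * conj (Fth Ω a p) = ((‖Fth Ω a p‖ ^ 2 : ℝ) : ℂ) := by
      rw [mul_conj, normSq_eq_norm_sq]
    calc _ = (Fth Ω a p * conj (Fth Ω a p)) * (Fth Ω a p * conj (Fth Ω a p)) := by ring
      _ = _ := by rw [g1]; push_cast; ring
  have hI1 : Integrable (fun p => ((‖Fth Ω a p‖ ^ 4 : ℝ) : ℂ)) := by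
    have := hInt.integral_prod_left
    simp only [Function.uncurry] at this
    simpa [e1] using this
  have hI2 : Integrable (fun p => ‖Fth Ω a p‖ ^ 4) := by
    have := hI1.norm
    refine this.congr (Filter.Eventually.of_forall fun p => ?_)
    simp
  -- the inner integral
  have e2 : ∀ q ∈ nd, ‖∫ p, H4 Ω a p q‖ₑ ≤ ENNReal.ofReal (1400 * |t| ^ (-κ)) * ee κ q := by
    rintro ⟨x, z, w, y⟩ ⟨hq1, hq2⟩
    unfold ee
    simp only at hq1 hq2 ⊢
    have e3 : ∫ p, H4 Ω a p (x, z, w, y) = (Ω x * conj (Ω z) * conj (Ω w) * Ω y) *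
        Phi x y z w (ggp a) (ggp a) (ggp (conj a)) (ggp (conj a)) := by
      unfold Phi H4
      rw [← integral_const_mul]
      congr 1; funext p
      simp only
      ring
    have e4 : ‖∫ p, H4 Ω a p (x, z, w, y)‖ ≤
        ‖Phi x y z w (ggp a) (ggp a) (ggp (conj a)) (ggp (conj a))‖ := by
      rw [e3, norm_mul]
      have : ‖Ω x * conj (Ω z) * conj (Ω w) * Ω y‖ ≤ 1 := by
        rw [norm_mul, norm_mul, norm_mul, RCLike.norm_conj, RCLike.norm_conj]
        calc ‖Ω x‖ * ‖Ω z‖ * ‖Ω w‖ * ‖Ω y‖ ≤ 1 * 1 * 1 * 1 := by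
              gcongr <;> exact hb _
          _ = 1 := by norm_num
      calc _ ≤ 1 * _ := mul_le_mul_of_nonneg_right this (norm_nonneg _)
        _ = _ := one_mul _
    rcases (dd_nonneg x y z w).eq_or_lt with h0 | h0
    · rw [← h0, ENNReal.ofReal_zero, ENNReal.zero_rpow_of_neg (by linarith), ENNReal.mul_top]
      · exact le_top
      · apply (ENNReal.ofReal_pos.2 _).ne'
        have : 0 < |t| := by linarith
        positivity
    · have h5 := quad_bound hq1 hq2 ht h1 h2.le h0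
      rw [← ha', ← hca] at h5
      have ht0 : 0 < |t| := by linarith
      rw [← ofReal_norm, ENNReal.ofReal_rpow_of_pos h0,
        ← ENNReal.ofReal_mul (by positivity)]
      apply ENNReal.ofReal_le_ofReal
      refine (e4.trans h5).trans (le_of_eq ?_)
      rw [Real.mul_rpow ht0.le h0.le]
      ring
  have e5 : ∫⁻ p, ‖Fth Ω a p‖ₑ ^ 4 = ENNReal.ofReal (∫ p, ‖Fth Ω a p‖ ^ 4) := by
    rw [ofReal_integral_eq_lintegral_ofReal hI2 (Filter.Eventually.of_forall fun p => by positivity)]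
    congr 1; funext p
    rw [ENNReal.ofReal_pow (norm_nonneg _), ofReal_norm]
  have e6 : ENNReal.ofReal (∫ p, ‖Fth Ω a p‖ ^ 4) = ‖∫ p, ∫ q, H4 Ω a p q ∂M4‖ₑ := by
    simp_rw [e1]
    have e7 : ∫ p, ((‖Fth Ω a p‖ ^ 4 : ℝ) : ℂ) = ((∫ p, ‖Fth Ω a p‖ ^ 4 : ℝ) : ℂ) :=
      integral_complex_ofReal
    rw [e7, ← ofReal_norm]
    congr 1
    rw [norm_real, Real.norm_eq_abs, abs_of_nonneg]
    exact integral_nonneg fun p => by positivity
  rw [e5, e6, integral_integral_swap hInt]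
  refine (enorm_integral_le_lintegral_enorm _).trans ?_
  unfold En
  rw [← lintegral_const_mul _ (ee_meas κ)]
  apply lintegral_mono_ae
  filter_upwards [M4_null] with q hq
  exact e2 q hq

end Pool.Agent.T9h83.RAY
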