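import Pool.Agent.T9h83.RAY.EnU
set_option autoImplicit false

/-! The fourth moment at a fixed time, with the `L⁴` norm of the angular function. -/

namespace Pool.Agent.T9h83.RAY

open Complex MeasureTheory Set
open scoped ENNReal Real ComplexConjugate

lemma four_le_sum (a b c d : ℝ≥0∞) : a * b * c * d ≤ a ^ 4 + b ^ 4 + c ^ 4 + d ^ 4 := by
  set m := max (max a b) (max c d) with hm
  have ha : a ≤ m := le_max_of_le_left (le_max_left _ _)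
  have hb : b ≤ m := le_max_of_le_left (le_max_right _ _)
  have hc : c ≤ m := le_max_of_le_right (le_max_left _ _)
  have hd : d ≤ m := le_max_of_le_right (le_max_right _ _)
  have h1 : a * b * c * d ≤ m ^ 4 := by
    calc a * b * c * d ≤ m * m * m * m := by gcongr
      _ = m ^ 4 := by ring
  refine h1.trans ?_
  have h2 : m = a ∨ m = b ∨ m = c ∨ m = d := by
    rw [hm]
    rcases max_choice (max a b) (max c d) with h | h
    · rcases max_choice a b with h' | h' <;> rw [h, h'] <;> simp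
    · rcases max_choice c d with h' | h' <;> rw [h, h'] <;> simp
  rcases h2 with h | h | h | h <;> rw [h]
  · rw [add_assoc, add_assoc]; exact le_self_add
  · rw [add_assoc, add_assoc]
    exact le_trans le_self_add le_add_self
  · rw [add_assoc]
    exact le_trans le_self_add le_add_self
  · exact le_add_self

lemma fourthS1 {κ : ℝ} (h1 : 1 ≤ κ) (h2 : κ < 2) {E1 : ℝ≥0∞}
    (hE : ∀ x : ℝ, ∫⁻ q, ee κ (x, q) ∂(mθ.prod (mθ.prod mθ)) ≤ E1) {Ω : ℝ → ℂ}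
    (hΩ : Measurable Ω) (hb : ∀ θ, ‖Ω θ‖ ≤ 1) {t : ℝ} (ht : 1 ≤ |t|) :
    ∫⁻ p, ‖Fth Ω (1 - 2 * I * t) p‖ₑ ^ 4 ≤ ENNReal.ofReal (1400 * |t| ^ (-κ)) *
      (4 * (E1 * ∫⁻ θ, ‖Ω θ‖ₑ ^ 4 ∂mθ)) := by
  set a : ℂ := 1 - 2 * I * t with ha'
  have ha : 0 < a.re := by rw [ha']; simp
  have hca : conj a = 1 + 2 * I * t := by rw [ha']; simp [conj_two]
  have hInt := H4_int hΩ hb ha
  -- the product formula
  have e1 : ∀ p, ∫ q, H4 Ω a p q ∂M4 = ((‖Fth Ω a p‖ ^ 4 : ℝ) : ℂ) := by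
    intro p
    have c1 : conj (Fth Ω a p) = ∫ θ, conj (Ω θ) * ggp (conj a) (ss θ p) ∂mθ := by
      unfold Fth
      rw [← integral_conj]
      congr 1; funext θ
      rw [map_mul, conj_ggp ha]
    have f2 : ∫ q : ℝ × ℝ, (conj (Ω q.1) * ggp (conj a) (ss q.1 p)) *
        (Ω q.2 * ggp a (ss q.2 p)) ∂(mθ.prod mθ) = conj (Fth Ω a p) * Fth Ω a p := by
      rw [c1]
      exact integral_prod_mul (fun θ => conj (Ω θ) * ggp (conj a) (ss θ p))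
        (fun θ => Ω θ * ggp a (ss θ p))
    have f3 : ∫ q : ℝ × ℝ × ℝ, (conj (Ω q.1) * ggp (conj a) (ss q.1 p)) *
        ((conj (Ω q.2.1) * ggp (conj a) (ss q.2.1 p)) * (Ω q.2.2 * ggp a (ss q.2.2 p)))
          ∂(mθ.prod (mθ.prod mθ)) = conj (Fth Ω a p) * (conj (Fth Ω a p) * Fth Ω a p) := by
      rw [← f2, c1]
      exact integral_prod_mul (ν := mθ.prod mθ) (fun θ => conj (Ω θ) * ggp (conj a) (ss θ p))
        (fun q : ℝ × ℝ => (conj (Ω q.1) * ggp (conj a) (ss q.1 p)) * (Ω q.2 * ggp a (ss q.2 p)))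
    have f4 : ∫ q, H4 Ω a p q ∂M4 =
        Fth Ω a p * (conj (Fth Ω a p) * (conj (Fth Ω a p) * Fth Ω a p)) := by
      rw [← f3]
      unfold M4 H4
      exact integral_prod_mul (ν := mθ.prod (mθ.prod mθ)) (fun θ => Ω θ * ggp a (ss θ p))
        (fun q : ℝ × ℝ × ℝ => (conj (Ω q.1) * ggp (conj a) (ss q.1 p)) *
        ((conj (Ω q.2.1) * ggp (conj a) (ss q.2.1 p)) * (Ω q.2.2 * ggp a (ss q.2.2 p))))
    rw [f4]
    have g1 : Fth Ω a p * conj (Fth Ω a p) = ((‖Fth Ω a p‖ ^ 2 : ℝ) : ℂ) := by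
      rw [mul_conj, normSq_eq_norm_sq]
    calc _ = (Fth Ω a p * conj (Fth Ω a p)) * (Fth Ω a p * conj (Fth Ω a p)) := by ring
      _ = _ := by rw [g1]; push_cast; ring
  have hI1 : Integrable (fun p => ((‖Fth Ω a p‖ ^ 4 : ℝ) : ℂ)) := by
    have := hInt.integral_prod_left
    simp only [Function.uncurry] at this
    simpa [e1] using this
  have hI2 : Integrable (fun p => ‖Fth Ω a p‖ ^ 4) := by
    have := hI1.norm
    refine this.congr (Filter.Eventually.of_forall fun p => ?_)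
    simp
  -- the inner integral
  have e2 : ∀ q ∈ nd, ‖∫ p, H4 Ω a p q‖ₑ ≤ ENNReal.ofReal (1400 * |t| ^ (-κ)) *
      ((‖Ω q.1‖ₑ ^ 4 + ‖Ω q.2.1‖ₑ ^ 4 + ‖Ω q.2.2.1‖ₑ ^ 4 + ‖Ω q.2.2.2‖ₑ ^ 4) * ee κ q) := by
    rintro ⟨x, z, w, y⟩ ⟨hq1, hq2⟩
    unfold ee
    simp only at hq1 hq2 ⊢
    have e3 : ∫ p, H4 Ω a p (x, z, w, y) = (Ω x * conj (Ω z) * conj (Ω w) * Ω y) *
        Phi x y z w (ggp a) (ggp a) (ggp (conj a)) (ggp (conj a)) := by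
      unfold Phi H4
      rw [← integral_const_mul]
      congr 1; funext p
      simp only
      ring
    have e4 : ‖Ω x * conj (Ω z) * conj (Ω w) * Ω y‖ₑ ≤
        ‖Ω x‖ₑ ^ 4 + ‖Ω z‖ₑ ^ 4 + ‖Ω w‖ₑ ^ 4 + ‖Ω y‖ₑ ^ 4 := by
      rw [enorm_mul, enorm_mul, enorm_mul]
      have hcj : ∀ z : ℂ, ‖conj z‖ₑ = ‖z‖ₑ := fun z => by
        rw [← ofReal_norm, ← ofReal_norm, RCLike.norm_conj]
      rw [hcj, hcj]
      exact four_le_sum _ _ _ _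
    have ht0 : 0 < |t| := by linarith
    have e5 : ‖Phi x y z w (ggp a) (ggp a) (ggp (conj a)) (ggp (conj a))‖ₑ ≤
        ENNReal.ofReal (1400 * |t| ^ (-κ)) * ENNReal.ofReal (dd x y z w) ^ (-κ) := by
      rcases (dd_nonneg x y z w).eq_or_lt with h0 | h0
      · rw [← h0, ENNReal.ofReal_zero, ENNReal.zero_rpow_of_neg (by linarith), ENNReal.mul_top]
        · exact le_top
        · apply (ENNReal.ofReal_pos.2 _).ne'
          positivity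
      · have h5 := quad_bound hq1 hq2 ht h1 h2.le h0
        rw [← ha', ← hca] at h5
        rw [← ofReal_norm, ENNReal.ofReal_rpow_of_pos h0,
          ← ENNReal.ofReal_mul (by positivity)]
        apply ENNReal.ofReal_le_ofReal
        refine h5.trans (le_of_eq ?_)
        rw [Real.mul_rpow ht0.le h0.le]
        ring
    rw [e3, enorm_mul]
    calc _ ≤ (‖Ω x‖ₑ ^ 4 + ‖Ω z‖ₑ ^ 4 + ‖Ω w‖ₑ ^ 4 + ‖Ω y‖ₑ ^ 4) *
          (ENNReal.ofReal (1400 * |t| ^ (-κ)) * ENNReal.ofReal (dd x y z w) ^ (-κ)) :=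
          mul_le_mul' e4 e5
      _ = _ := by ring
  have e5 : ∫⁻ p, ‖Fth Ω a p‖ₑ ^ 4 = ENNReal.ofReal (∫ p, ‖Fth Ω a p‖ ^ 4) := by
    rw [ofReal_integral_eq_lintegral_ofReal hI2 (Filter.Eventually.of_forall fun p => by positivity)]
    congr 1; funext p
    rw [ENNReal.ofReal_pow (norm_nonneg _), ofReal_norm]
  have e6 : ENNReal.ofReal (∫ p, ‖Fth Ω a p‖ ^ 4) = ‖∫ p, ∫ q, H4 Ω a p q ∂M4‖ₑ := by
    simp_rw [e1]
    have e7 : ∫ p, ((‖Fth Ω a p‖ ^ 4 : ℝ) : ℂ) = ((∫ p, ‖Fth Ω a p‖ ^ 4 : ℝ) : ℂ) :=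
      integral_complex_ofReal
    rw [e7, ← ofReal_norm]
    congr 1
    rw [norm_real, Real.norm_eq_abs, abs_of_nonneg]
    exact integral_nonneg fun p => by positivity
  rw [e5, e6, integral_integral_swap hInt]
  refine (enorm_integral_le_lintegral_enorm _).trans ?_
  have hu : Measurable fun θ => ‖Ω θ‖ₑ ^ 4 := hΩ.enorm.pow_const 4
  refine le_trans ?_ (mul_le_mul' le_rfl (four_terms hE hu))
  rw [← lintegral_const_mul' _ _ ENNReal.ofReal_ne_top]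
  apply lintegral_mono_ae
  filter_upwards [M4_null] with q hq
  exact e2 q hq

lemma Fth_smul (c : ℂ) (Ω : ℝ → ℂ) (a : ℂ) (p : ℝ × ℝ) :
    Fth (fun θ => c * Ω θ) a p = c * Fth Ω a p := by
  unfold Fth
  rw [← integral_const_mul]
  congr 1; funext θ; ring

/-- **The fourth moment**, with the `L⁴` norm of the angular function. -/
theorem fourthS {κ : ℝ} (h1 : 1 ≤ κ) (h2 : κ < 2) {E1 : ℝ≥0∞}
    (hE : ∀ x : ℝ, ∫⁻ q, ee κ (x, q) ∂(mθ.prod (mθ.prod mθ)) ≤ E1) {Ω : ℝ → ℂ}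
    (hΩ : Measurable Ω) {B : ℝ} (hb : ∀ θ, ‖Ω θ‖ ≤ B) {t : ℝ} (ht : 1 ≤ |t|) :
    ∫⁻ p, ‖Fth Ω (1 - 2 * I * t) p‖ₑ ^ 4 ≤ ENNReal.ofReal (1400 * |t| ^ (-κ)) *
      (4 * (E1 * ∫⁻ θ, ‖Ω θ‖ₑ ^ 4 ∂mθ)) := by
  set c : ℝ := |B| + 1 with hc
  have hc0 : 0 < c := by positivity
  set Ω' : ℝ → ℂ := fun θ => ((c⁻¹ : ℝ) : ℂ) * Ω θ with hΩ'
  have hΩm : Measurable Ω' := measurable_const.mul hΩ
  have hb' : ∀ θ, ‖Ω' θ‖ ≤ 1 := by
    intro θ
    rw [hΩ']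
    simp only
    rw [norm_mul, norm_real, Real.norm_eq_abs, abs_of_pos (inv_pos.2 hc0), inv_mul_le_iff₀ hc0]
    have := hb θ
    have h3 := le_abs_self B
    rw [hc]; linarith
  have e : Ω = fun θ => (c : ℂ) * Ω' θ := by
    funext θ
    rw [hΩ']
    simp only
    have : (c : ℂ) ≠ 0 := by exact_mod_cast hc0.ne'
    push_cast
    field_simp
  have h3 := fourthS1 h1 h2 hE hΩm hb' ht
  have ec : ‖(c : ℂ)‖ₑ ≠ ∞ := enorm_ne_top
  have e1 : ∫⁻ p, ‖Fth Ω (1 - 2 * I * t) p‖ₑ ^ 4 =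
      ‖(c : ℂ)‖ₑ ^ 4 * ∫⁻ p, ‖Fth Ω' (1 - 2 * I * t) p‖ₑ ^ 4 := by
    rw [← lintegral_const_mul' _ _ (ENNReal.pow_ne_top ec)]
    apply lintegral_congr
    intro p
    rw [e, Fth_smul, enorm_mul, mul_pow]
  have e2 : ∫⁻ θ, ‖Ω θ‖ₑ ^ 4 ∂mθ = ‖(c : ℂ)‖ₑ ^ 4 * ∫⁻ θ, ‖Ω' θ‖ₑ ^ 4 ∂mθ := by
    rw [← lintegral_const_mul' _ _ (ENNReal.pow_ne_top ec)]
    apply lintegral_congr
    intro θ
    conv_lhs => rw [e]
    simp only
    rw [enorm_mul, mul_pow]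
  rw [e1, e2]
  calc _ ≤ ‖(c : ℂ)‖ₑ ^ 4 * (ENNReal.ofReal (1400 * |t| ^ (-κ)) *
      (4 * (E1 * ∫⁻ θ, ‖Ω' θ‖ₑ ^ 4 ∂mθ))) := by gcongr
    _ = _ := by ring

end Pool.Agent.T9h83.RAY
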