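import Pool.Agent.T9h83.RAY.TL4
import Pool.Agent.W771.LayerN
set_option autoImplicit false

/-! One rough variable: the estimate with weights in time. -/

namespace Pool.Agent.T9h83.RAY

open Complex MeasureTheory Set
open scoped ENNReal NNReal Real ComplexConjugate

/-- Hölder in time -/
lemma hold_n (n : ℕ) (hn : 2 ≤ n) (V Z : ℝ → ℝ≥0∞) (hV : Measurable V) (hZ : Measurable Z) :
    ∫⁻ t, V t * Z t ≤ (∫⁻ t, V t ^ ((n : ℝ) / (n - 1))) ^ (((n : ℝ) - 1) / n) *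
      (∫⁻ t, Z t ^ n) ^ (1 / (n : ℝ)) := by
  have hn1 : (1 : ℝ) < n := by exact_mod_cast (by omega : 1 < n)
  have hc := (Real.HolderConjugate.conjExponent hn1).symm
  unfold Real.conjExponent at hc
  have h := ENNReal.lintegral_mul_le_Lp_mul_Lq (volume : Measure ℝ) hc
    hV.aemeasurable hZ.aemeasurable
  simp only [Pi.mul_apply, ENNReal.rpow_natCast] at h
  have e : 1 / ((n : ℝ) / (n - 1)) = ((n : ℝ) - 1) / n := by
    rw [one_div_div]
  rwa [e] at h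

/-- the halved interval -/
def I2 : Set ℝ := Icc (-(1 / 2) : ℝ) (1 / 2)

/-- the function on the halved interval -/
noncomputable def aw (w : ℝ → ℂ) (c : ℂ) (u : ℝ) (_ : Unit) : ℂ := I2.indicator (fun u => c * w (2 * u)) u

/-- the extension operator of `W771` -/
noncomputable def Ew (w : ℝ → ℂ) (x t : ℝ) : ℂ := Pool.Agent.W771.E1 (aw w 1) x t ()

lemma Ew_smul (w : ℝ → ℂ) (c : ℂ) (x t : ℝ) (l : Unit) :
    Pool.Agent.W771.E1 (aw w c) x t l = c * Ew w x t := by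
  unfold Ew Pool.Agent.W771.E1
  rw [← integral_const_mul]
  congr 1; funext u
  unfold aw
  by_cases hu : u ∈ I2
  · rw [indicator_of_mem hu, indicator_of_mem hu]; ring
  · rw [indicator_of_notMem hu, indicator_of_notMem hu]; ring

lemma aw_meas {w : ℝ → ℂ} (hw : Measurable w) (c : ℂ) : Measurable (Function.uncurry (aw w c)) := by
  have h1 : Measurable fun u : ℝ => c * w (2 * u) :=
    (hw.comp (measurable_const_mul (2 : ℝ))).const_mul c
  have h2 : Measurable (I2.indicator fun u => c * w (2 * u)) := h1.indicator measurableSet_Icc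
  exact h2.comp measurable_fst

lemma sq_half {q : ℝ} (x : ℝ≥0∞) : (x ^ 2) ^ (q / 2) = x ^ q := by
  rw [← ENNReal.rpow_natCast, ← ENNReal.rpow_mul]
  congr 1
  push_cast
  ring

/-- the homogeneous estimate -/
lemma Ew_hom (n : ℕ) (hn : 2 ≤ n) {q : ℝ} (hq : 2 < n * (q - 2)) :
    ∃ C : ℝ≥0∞, C ≠ ∞ ∧ ∀ w : ℝ → ℂ, Measurable w →
      ∫⁻ u in I2, ‖w (2 * u)‖ₑ ^ q ≠ ∞ →
      ∫⁻ t : ℝ, (∫⁻ x : ℝ, ‖Ew w x t‖ₑ ^ q) ^ n ≤ C * (∫⁻ u in I2, ‖w (2 * u)‖ₑ ^ q) ^ n := by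
  have hn1 : (2 : ℝ) ≤ n := by exact_mod_cast hn
  have hq2 : 2 < q := by
    by_contra hc
    push Not at hc
    nlinarith
  have hq0 : 0 < q := by linarith
  obtain ⟨C, hC⟩ := Pool.Agent.W771.oneVarN n hn q q hq hq0 (by nlinarith)
  refine ⟨C, ENNReal.coe_ne_top, ?_⟩
  intro w hw hfin
  set M : ℝ≥0∞ := ∫⁻ u in I2, ‖w (2 * u)‖ₑ ^ q with hM
  have hwm : Measurable fun u : ℝ => ‖w (2 * u)‖ₑ ^ q :=
    (hw.comp (measurable_const_mul (2 : ℝ))).enorm.pow_const q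
  by_cases hM0 : M = 0
  · -- the function vanishes
    have h1 : (fun u : ℝ => ‖w (2 * u)‖ₑ ^ q) =ᵐ[volume.restrict I2] 0 := by
      rw [hM, lintegral_eq_zero_iff hwm] at hM0
      exact hM0
    have h2 : ∀ x t, Ew w x t = 0 := by
      intro x t
      unfold Ew Pool.Agent.W771.E1 aw
      have h3 : ∀ᵐ u : ℝ, u ∈ I2 → w (2 * u) = 0 := by
        have h4 := (ae_restrict_iff' (measurableSet_Icc)).1 h1
        filter_upwards [h4] with u hu hu2
        have h5 := hu hu2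
        simp only [Pi.zero_apply, ENNReal.rpow_eq_zero_iff] at h5
        rcases h5 with h5 | h5
        · exact enorm_eq_zero.1 h5.1
        · linarith [h5.2]
      rw [← integral_zero ℝ ℂ]
      apply integral_congr_ae
      filter_upwards [h3] with u hu
      by_cases hu2 : u ∈ I2
      · rw [indicator_of_mem hu2, hu hu2]; ring
      · rw [indicator_of_notMem hu2]; ring
    have h6 : ∫⁻ t : ℝ, (∫⁻ x : ℝ, ‖Ew w x t‖ₑ ^ q) ^ n = 0 := by
      simp_rw [h2, enorm_zero, ENNReal.zero_rpow_of_pos hq0, lintegral_zero]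
      rw [zero_pow (by omega), lintegral_zero]
    rw [h6]
    exact zero_le
  · have hMr : 0 < M.toReal := ENNReal.toReal_pos hM0 hfin
    set c : ℝ := M.toReal ^ (-(1 / q)) with hc
    have hc0 : 0 < c := Real.rpow_pos_of_pos hMr _
    have hcq : ‖(c : ℂ)‖ₑ ^ q = M⁻¹ := by
      rw [← ofReal_norm, norm_real, Real.norm_of_nonneg hc0.le, hc,
        ENNReal.ofReal_rpow_of_nonneg (by positivity) hq0.le, ← Real.rpow_mul hMr.le]
      have : -(1 / q) * q = -1 := by field_simp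
      rw [this, Real.rpow_neg_one, ENNReal.ofReal_inv_of_pos hMr, ENNReal.ofReal_toReal hfin]
    have h1 := hC Unit (Measure.dirac ()) (aw w c) (aw_meas hw c)
      (fun u hu l => by
        unfold aw
        exact indicator_of_notMem hu _)
      (by
        have e1 : ∀ u ∈ I2, Pool.Agent.W771.N2 (Measure.dirac ()) (aw w c) u ^ (q / 2) =
            M⁻¹ * ‖w (2 * u)‖ₑ ^ q := by
          intro u hu
          unfold Pool.Agent.W771.N2 aw
          rw [lintegral_dirac, indicator_of_mem hu, sq_half, enorm_mul,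
            ENNReal.mul_rpow_of_nonneg _ _ hq0.le, hcq]
        have e2 : ∫⁻ u in I2, Pool.Agent.W771.N2 (Measure.dirac ()) (aw w c) u ^ (q / 2) =
            ∫⁻ u in I2, M⁻¹ * ‖w (2 * u)‖ₑ ^ q :=
          setLIntegral_congr_fun measurableSet_Icc e1
        rw [show Icc (-(1 / 2) : ℝ) (1 / 2) = I2 from rfl, e2, lintegral_const_mul _ hwm, ← hM,
          ENNReal.inv_mul_cancel hM0 hfin])
    have e3 : ∀ x t, Pool.Agent.W771.M2 (Measure.dirac ()) (aw w c) x t ^ (q / 2) =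
        M⁻¹ * ‖Ew w x t‖ₑ ^ q := by
      intro x t
      unfold Pool.Agent.W771.M2
      rw [lintegral_dirac, sq_half, Ew_smul, enorm_mul, ENNReal.mul_rpow_of_nonneg _ _ hq0.le, hcq]
    have hMi : M⁻¹ ≠ ∞ := ENNReal.inv_ne_top.mpr hM0
    simp only [e3, lintegral_const_mul' _ _ hMi, mul_pow] at h1
    rw [lintegral_const_mul' _ _ (ENNReal.pow_ne_top hMi)] at h1
    have e4 : M ^ n * (M⁻¹) ^ n = 1 := by
      rw [← mul_pow, ENNReal.mul_inv_cancel hM0 hfin, one_pow]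
    calc ∫⁻ t : ℝ, (∫⁻ x : ℝ, ‖Ew w x t‖ₑ ^ q) ^ n =
        M ^ n * ((M⁻¹) ^ n * ∫⁻ t : ℝ, (∫⁻ x : ℝ, ‖Ew w x t‖ₑ ^ q) ^ n) := by
          rw [← mul_assoc, e4, one_mul]
      _ ≤ M ^ n * C := mul_le_mul' le_rfl h1
      _ = _ := mul_comm _ _

/-- the change of variables -/
lemma Ew_eq (w : ℝ → ℂ) (y t : ℝ) :
    ∫ s in Icc (-1 : ℝ) 1, w s * ph (y : ℂ) t (s : ℂ) = 2 * Ew w (-4 * π * y) (-8 * π * t) := by
  unfold Ew Pool.Agent.W771.E1
  have h1 := Measure.integral_comp_mul_left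
    (fun s : ℝ => (Icc (-1 : ℝ) 1).indicator (fun s => w s * ph (y : ℂ) t (s : ℂ)) s) (2 : ℝ)
  have h2 : ∀ u : ℝ, (Icc (-1 : ℝ) 1).indicator (fun s => w s * ph (y : ℂ) t (s : ℂ)) (2 * u) =
      aw w 1 u () * Pool.Agent.W771.ph (-4 * π * y) (-8 * π * t) u := by
    intro u
    unfold aw
    by_cases hu : u ∈ I2
    · have hu' : 2 * u ∈ Icc (-1 : ℝ) 1 := by
        unfold I2 at hu
        rw [mem_Icc] at hu ⊢
        constructor <;> linarith [hu.1, hu.2]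
      rw [indicator_of_mem hu, indicator_of_mem hu', ph_real, one_mul]
      unfold Pool.Agent.W771.ph
      congr 2
      push_cast
      ring
    · have hu' : 2 * u ∉ Icc (-1 : ℝ) 1 := by
        intro h
        apply hu
        unfold I2
        rw [mem_Icc] at h ⊢
        constructor <;> linarith [h.1, h.2]
      rw [indicator_of_notMem hu, indicator_of_notMem hu', zero_mul]
  simp_rw [h2] at h1
  rw [h1, integral_indicator measurableSet_Icc]
  rw [abs_of_pos (by norm_num : (0 : ℝ) < 2⁻¹)]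
  rw [real_smul]
  push_cast
  ring

lemma Ew_meas {w : ℝ → ℂ} (hw : Measurable w) : Measurable fun p : ℝ × ℝ => Ew w p.1 p.2 := by
  have h1 := Pool.Agent.W771.E1_meas (aw w 1) (aw_meas hw 1)
  have h2 : Measurable fun p : ℝ × ℝ => (p, ()) := by fun_prop
  have h3 := h1.comp h2
  exact h3

/-- **One rough variable.** -/
theorem ov (n : ℕ) (hn : 2 ≤ n) {q e : ℝ} (hq : 2 < n * (q - 2)) (he : ((n : ℝ) - 1) / n < e) :
    ∃ C : ℝ≥0∞, C ≠ ∞ ∧ ∀ w : ℝ → ℂ, Measurable w → (∃ B : ℝ, ∀ s, ‖w s‖ ≤ B) → ∀ c : ℝ,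
      ∫⁻ t, jb (t - c) ^ (-e) * ∫⁻ y : ℝ,
        ‖∫ s in Icc (-1 : ℝ) 1, w s * ph (y : ℂ) t (s : ℂ)‖ₑ ^ q ≤
      C * ∫⁻ s in Icc (-1 : ℝ) 1, ‖w s‖ₑ ^ q := by
  have hn1 : (2 : ℝ) ≤ n := by exact_mod_cast hn
  have hn0 : (0 : ℝ) < n := by linarith
  have hnn : (0 : ℝ) < (n : ℝ) - 1 := by linarith
  have hq2 : 2 < q := by
    by_contra hc
    push Not at hc
    nlinarith
  have hq0 : 0 < q := by linarith
  obtain ⟨C, hC, hh⟩ := Ew_hom n hn hq
  have hs : 1 < e * ((n : ℝ) / (n - 1)) := by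
    rw [div_lt_iff₀ hn0] at he
    rw [← mul_div_assoc, lt_div_iff₀ hnn]
    linarith
  have hJf := jb_int hs
  set J : ℝ≥0∞ := ∫⁻ τ, jb τ ^ (-(e * ((n : ℝ) / (n - 1)))) with hJ
  set k1 : ℝ≥0∞ := ‖(2 : ℂ)‖ₑ ^ q * ENNReal.ofReal |(-4 * π)⁻¹| with hk1
  have hk1f : k1 ≠ ∞ := ENNReal.mul_ne_top
    (ENNReal.rpow_ne_top_of_nonneg hq0.le enorm_ne_top) ENNReal.ofReal_ne_top
  set k2 : ℝ≥0∞ := ENNReal.ofReal |(-8 * π)⁻¹| with hk2
  set k3 : ℝ≥0∞ := ENNReal.ofReal |(2 : ℝ)⁻¹| with hk3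
  have hpi := Real.pi_pos
  have hn00 : 0 ≤ 1 / (n : ℝ) := by positivity
  have hn01 : 0 ≤ ((n : ℝ) - 1) / n := by positivity
  refine ⟨J ^ (((n : ℝ) - 1) / n) * (k1 ^ n * (k2 * C)) ^ (1 / (n : ℝ)) * k3, ?_, ?_⟩
  · refine ENNReal.mul_ne_top (ENNReal.mul_ne_top (ENNReal.rpow_ne_top_of_nonneg hn01 hJf)
      (ENNReal.rpow_ne_top_of_nonneg hn00 (ENNReal.mul_ne_top (ENNReal.pow_ne_top hk1f)
        (ENNReal.mul_ne_top ENNReal.ofReal_ne_top hC)))) ENNReal.ofReal_ne_top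
  rintro w hw ⟨B, hB⟩ c
  set S : ℝ≥0∞ := ∫⁻ s in Icc (-1 : ℝ) 1, ‖w s‖ₑ ^ q with hS
  have hwm : Measurable fun s : ℝ => ‖w s‖ₑ ^ q := hw.enorm.pow_const q
  -- the norm on the halved interval
  have hM : ∫⁻ u in I2, ‖w (2 * u)‖ₑ ^ q = k3 * S := by
    have h1 := Pool.Agent.W771.lint_scale (fun s => (Icc (-1 : ℝ) 1).indicator
      (fun s => ‖w s‖ₑ ^ q) s) (hwm.indicator measurableSet_Icc) 2 (by norm_num)
    rw [lintegral_indicator measurableSet_Icc] at h1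
    rw [hS, hk3, ← h1, show I2 = Icc (-(1 / 2) : ℝ) (1 / 2) from rfl,
      ← lintegral_indicator measurableSet_Icc]
    apply lintegral_congr
    intro u
    by_cases hu : u ∈ Icc (-(1 / 2) : ℝ) (1 / 2)
    · have hu' : 2 * u ∈ Icc (-1 : ℝ) 1 := by
        rw [mem_Icc] at hu ⊢
        constructor <;> linarith [hu.1, hu.2]
      rw [indicator_of_mem hu, indicator_of_mem hu']
    · have hu' : 2 * u ∉ Icc (-1 : ℝ) 1 := by
        intro h
        apply hu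
        rw [mem_Icc] at h ⊢
        constructor <;> linarith [h.1, h.2]
      rw [indicator_of_notMem hu, indicator_of_notMem hu']
  have hSf : S ≠ ∞ := by
    refine ne_top_of_le_ne_top (b := ENNReal.ofReal B ^ q * volume (Icc (-1 : ℝ) 1))
      (ENNReal.mul_ne_top (ENNReal.rpow_ne_top_of_nonneg hq0.le ENNReal.ofReal_ne_top) ?_) ?_
    · rw [Real.volume_Icc]; exact ENNReal.ofReal_ne_top
    · rw [hS, ← setLIntegral_const]
      apply lintegral_mono
      intro s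
      simp only
      rw [← ofReal_norm]
      exact ENNReal.rpow_le_rpow (ENNReal.ofReal_le_ofReal (hB s)) hq0.le
  have h1 := hh w hw (by rw [hM]; exact ENNReal.mul_ne_top ENNReal.ofReal_ne_top hSf)
  rw [hM] at h1
  -- the integral in space
  have hEm := Ew_meas hw
  have hEt : ∀ t, Measurable fun x => ‖Ew w x t‖ₑ ^ q := by
    intro t
    have a1 : Measurable fun x : ℝ => (x, t) := by fun_prop
    have a2 := hEm.comp a1
    exact a2.enorm.pow_const q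
  set Φ : ℝ → ℝ≥0∞ := fun t => ∫⁻ x : ℝ, ‖Ew w x t‖ₑ ^ q with hΦ
  have hΦm : Measurable Φ := by
    have a1 : Measurable fun p : ℝ × ℝ => ‖Ew w p.2 p.1‖ₑ ^ q := by
      have b1 := hEm.comp (measurable_swap : Measurable fun p : ℝ × ℝ => p.swap)
      exact b1.enorm.pow_const q
    exact a1.lintegral_prod_right'
  have h2 : ∀ t, ∫⁻ y : ℝ, ‖∫ s in Icc (-1 : ℝ) 1, w s * ph (y : ℂ) t (s : ℂ)‖ₑ ^ q =
      k1 * Φ (-8 * π * t) := by
    intro t
    simp_rw [Ew_eq, enorm_mul, ENNReal.mul_rpow_of_nonneg _ _ hq0.le]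
    have a3 := Pool.Agent.W771.lint_scale (fun x => ‖Ew w x (-8 * π * t)‖ₑ ^ q)
      (hEt (-8 * π * t)) (-4 * π) (by nlinarith)
    rw [lintegral_const_mul' _ _ (ENNReal.rpow_ne_top_of_nonneg hq0.le enorm_ne_top), a3, hk1, hΦ]
    ring
  simp_rw [h2]
  have hV : Measurable fun t => jb (t - c) ^ (-e) :=
    (jb_meas.comp (measurable_id.sub_const c)).pow_const _
  have hZ : Measurable fun t => k1 * Φ (-8 * π * t) :=
    (hΦm.comp (measurable_const_mul (-8 * π))).const_mul k1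
  refine (hold_n n hn _ _ hV hZ).trans ?_
  have h3 : ∫⁻ t, (jb (t - c) ^ (-e)) ^ ((n : ℝ) / (n - 1)) = J := by
    simp_rw [← ENNReal.rpow_mul, neg_mul]
    exact lintegral_sub_right_eq_self (fun t => jb t ^ (-(e * ((n : ℝ) / (n - 1))))) c
  have h4 : ∫⁻ t, (k1 * Φ (-8 * π * t)) ^ n ≤ k1 ^ n * (k2 * C) * (k3 * S) ^ n := by
    simp_rw [mul_pow]
    rw [lintegral_const_mul' _ _ (ENNReal.pow_ne_top hk1f)]
    have a4 := Pool.Agent.W771.lint_scale (fun t => Φ t ^ n) (hΦm.pow_const n) (-8 * π)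
      (by nlinarith)
    rw [a4, ← hk2]
    calc k1 ^ n * (k2 * ∫⁻ t, Φ t ^ n) ≤ k1 ^ n * (k2 * (C * (k3 * S) ^ n)) :=
          mul_le_mul' le_rfl (mul_le_mul' le_rfl h1)
      _ = _ := by rw [mul_pow]; ring
  rw [h3]
  calc J ^ (((n : ℝ) - 1) / n) * (∫⁻ t, (k1 * Φ (-8 * π * t)) ^ n) ^ (1 / (n : ℝ)) ≤
        J ^ (((n : ℝ) - 1) / n) * (k1 ^ n * (k2 * C) * (k3 * S) ^ n) ^ (1 / (n : ℝ)) :=
        mul_le_mul' le_rfl (ENNReal.rpow_le_rpow h4 hn00)
    _ = J ^ (((n : ℝ) - 1) / n) * ((k1 ^ n * (k2 * C)) ^ (1 / (n : ℝ)) * (k3 * S)) := by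
        rw [ENNReal.mul_rpow_of_nonneg _ _ hn00]
        congr 2
        rw [← ENNReal.rpow_natCast, ← ENNReal.rpow_mul, mul_one_div_cancel hn0.ne',
          ENNReal.rpow_one]
    _ = _ := by ring

end Pool.Agent.T9h83.RAY
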