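import Pool.Agent.T9h83.RAY.Sup2
set_option autoImplicit false

/-! Profiles: functions of `|ξ|²` and of the direction, with a modulus of continuity in the mean. -/

namespace Pool.Agent.T9h83.RAY

open Complex MeasureTheory Set
open scoped ENNReal Real ComplexConjugate

lemma polar_bound {F : ℝ × ℂ → ℝ≥0∞} (hF : Measurable F)
    (hom : ∀ r : ℝ, 0 < r → ∀ (u : ℝ) (ξ : ℂ), F (u, r * ξ) = F (u, ξ)) {K : ℝ≥0∞}
    (hK : ∀ ξ, ∫⁻ u, F (u, ξ) ≤ K) :
    ∫⁻ ξ : ℂ, F (‖ξ‖ ^ 2, ξ) ≤ ENNReal.ofReal (2 * π) * K := by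
  rw [← Complex.lintegral_comp_polarCoord_symm]
  have hst : polarCoord.target = Ioi (0:ℝ) ×ˢ Ioo (-π) π := rfl
  set e : ℝ → ℂ := fun θ => Real.cos θ + Real.sin θ * I with he
  have hem : Measurable e := by rw [he]; fun_prop
  have hen : ∀ θ, ‖e θ‖ = 1 := by
    intro θ
    rw [he]
    simp only
    rw [ofReal_cos, ofReal_sin, norm_cos_add_sin_mul_I]
  have h1 : ∀ p ∈ Ioi (0:ℝ) ×ˢ Ioo (-π) π, ENNReal.ofReal p.1 •
      F (‖Complex.polarCoord.symm p‖ ^ 2, Complex.polarCoord.symm p) =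
      ENNReal.ofReal p.1 * F (p.1 ^ 2, e p.2) := by
    intro p hp
    have hp1 : 0 < p.1 := hp.1
    rw [Complex.norm_polarCoord_symm, sq_abs, Complex.polarCoord_symm_apply, smul_eq_mul,
      hom p.1 hp1]
  rw [hst, setLIntegral_congr_fun (measurableSet_Ioi.prod measurableSet_Ioo) h1,
    Measure.volume_eq_prod, ← Measure.prod_restrict]
  have hm : Measurable fun p : ℝ × ℝ => ENNReal.ofReal p.1 * F (p.1 ^ 2, e p.2) :=
    (ENNReal.measurable_ofReal.comp measurable_fst).mul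
      (hF.comp ((measurable_fst.pow_const 2).prodMk (hem.comp measurable_snd)))
  rw [lintegral_prod_symm _ hm.aemeasurable]
  have h2 : ∀ θ : ℝ, ∫⁻ r in Ioi (0:ℝ), ENNReal.ofReal r * F (r ^ 2, e θ) ≤ K := by
    intro θ
    have h3 := lintegral_image_eq_lintegral_abs_deriv_mul (s := Ioi (0:ℝ))
      (f := fun r : ℝ => r ^ 2) (f' := fun r => 2 * r) measurableSet_Ioi
      (fun r _ => by simpa using (hasDerivAt_pow 2 r).hasDerivWithinAt)
      (fun r hr s hs hrs => by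
        have hr' : 0 < r := hr
        have hs' : 0 < s := hs
        exact (sq_eq_sq₀ hr'.le hs'.le).1 hrs) (fun u => F (u, e θ))
    calc ∫⁻ r in Ioi (0:ℝ), ENNReal.ofReal r * F (r ^ 2, e θ) ≤
          ∫⁻ r in Ioi (0:ℝ), ENNReal.ofReal |2 * r| * F (r ^ 2, e θ) := by
          apply setLIntegral_mono' measurableSet_Ioi
          intro r hr
          have hr' : 0 < r := hr
          gcongr
          rw [abs_of_pos (by positivity)]
          linarith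
      _ = ∫⁻ u in (fun r : ℝ => r ^ 2) '' Ioi (0:ℝ), F (u, e θ) := h3.symm
      _ ≤ ∫⁻ u, F (u, e θ) := setLIntegral_le_lintegral _ _
      _ ≤ K := hK _
  calc _ ≤ ∫⁻ _ in Ioo (-π) π, K := lintegral_mono fun θ => h2 θ
    _ = _ := by
        rw [setLIntegral_const, Real.volume_Ioo, mul_comm]
        congr 2
        ring

/-- a profile -/
structure Prof (B A : ℝ) (G : ℝ × ℂ → ℂ) : Prop where
  meas : Measurable G
  int : ∀ ξ, ∫⁻ u, ‖G (u, ξ)‖ₑ ≤ ENNReal.ofReal B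
  hom : ∀ r : ℝ, 0 < r → ∀ (u : ℝ) (ξ : ℂ), G (u, r * ξ) = G (u, ξ)
  mod : ∀ ξ h, ∫⁻ u, ‖G (u + h, ξ) - G (u, ξ)‖ₑ ≤ ENNReal.ofReal (A * |h|)

/-- the Fourier transform of a profile -/
noncomputable def Gh (G : ℝ × ℂ → ℂ) (p : ℝ × ℂ) : ℂ :=
  ∫ u : ℝ, G (u, p.2) * cexp (((-2 * π * u * p.1 : ℝ) : ℂ) * I)

lemma Prof.integrable {B A : ℝ} {G : ℝ × ℂ → ℂ} (h : Prof B A G) (ξ : ℂ) :
    Integrable fun u => G (u, ξ) :=
  ⟨(h.meas.comp measurable_prodMk_right).aestronglyMeasurable,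
    lt_of_le_of_lt (h.int ξ) ENNReal.ofReal_lt_top⟩

lemma Gh_meas {B A : ℝ} {G : ℝ × ℂ → ℂ} (h : Prof B A G) : Measurable (Gh G) := by
  have hc : Measurable fun r : (ℝ × ℂ) × ℝ => cexp (((-2 * π * r.2 * r.1.1 : ℝ) : ℂ) * I) := by
    fun_prop
  have h1 : Measurable fun r : (ℝ × ℂ) × ℝ =>
      G (r.2, r.1.2) * cexp (((-2 * π * r.2 * r.1.1 : ℝ) : ℂ) * I) :=
    (h.meas.comp (measurable_snd.prodMk (measurable_snd.comp measurable_fst))).mul hc
  exact h1.stronglyMeasurable.integral_prod_right'.measurable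

lemma enorm_mul_osc (z : ℂ) (a : ℝ) : ‖z * cexp ((a : ℂ) * I)‖ₑ = ‖z‖ₑ := by
  rw [enorm_mul, ← ofReal_norm (cexp _), norm_exp_ofReal_mul_I, ENNReal.ofReal_one, mul_one]

lemma Gh_bd0 {B A : ℝ} {G : ℝ × ℂ → ℂ} (h : Prof B A G) (p : ℝ × ℂ) :
    ‖Gh G p‖ₑ ≤ ENNReal.ofReal B := by
  unfold Gh
  refine (enorm_integral_le_lintegral_enorm _).trans ?_
  simp_rw [enorm_mul_osc]
  exact h.int _

lemma Gh_bd1 {B A : ℝ} (hA : 0 ≤ A) {G : ℝ × ℂ → ℂ} (h : Prof B A G) (p : ℝ × ℂ) :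
    |p.1| * ‖Gh G p‖ ≤ A := by
  obtain ⟨τ, ξ⟩ := p
  rcases eq_or_ne τ 0 with h0 | h0
  · rw [h0]; simpa using hA
  set s : ℝ := 1 / (2 * τ) with hs
  set g : ℝ → ℂ := fun u => G (u, ξ) with hg
  have hgi : Integrable g := h.integrable ξ
  set E : ℝ → ℂ := fun u => cexp (((-2 * π * u * τ : ℝ) : ℂ) * I) with hE
  have hEc : Continuous E := by rw [hE]; fun_prop
  have hEn : ∀ u, ‖E u‖ = 1 := fun u => norm_exp_ofReal_mul_I _
  have hi : ∀ g' : ℝ → ℂ, Integrable g' → Integrable fun u => g' u * E u := fun g' hg' =>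
    hg'.mul_bdd (c := 1) hEc.aestronglyMeasurable (Filter.Eventually.of_forall fun u => (hEn u).le)
  have hsh : Integrable fun u => g (u + s) := hgi.comp_add_right s
  have e1 : ∫ u, g (u + s) * E u = -∫ u, g u * E u := by
    have e2 : ∫ u, g (u + s) * E u = ∫ u, (fun u => g u * E (u - s)) (u + s) := by
      congr 1; funext u; simp
    rw [e2, integral_add_right_eq_self (fun u => g u * E (u - s)) s, ← integral_neg]
    congr 1; funext u
    have : E (u - s) = -E u := by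
      rw [hE]
      simp only
      have e3 : (((-2 * π * (u - s) * τ : ℝ) : ℂ) * I) =
          ((-2 * π * u * τ : ℝ) : ℂ) * I + π * I := by
        have : -2 * π * (u - s) * τ = -2 * π * u * τ + π := by
          rw [hs]; field_simp; ring
        rw [this]; push_cast; ring
      rw [e3, Complex.exp_add, Complex.exp_pi_mul_I]
      ring
    rw [this]; ring
  have e4 : ∫ u, (g (u + s) - g u) * E u = -(2 * ∫ u, g u * E u) := by
    have : (fun u => (g (u + s) - g u) * E u) = fun u => g (u + s) * E u - g u * E u := by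
      funext u; ring
    rw [this, integral_sub (hi _ hsh) (hi _ hgi), e1]
    ring
  have e5 : ‖∫ u, (g (u + s) - g u) * E u‖ₑ ≤ ENNReal.ofReal (A * |s|) := by
    refine (enorm_integral_le_lintegral_enorm _).trans ?_
    have : ∀ u, ‖(g (u + s) - g u) * E u‖ₑ = ‖g (u + s) - g u‖ₑ := fun u => enorm_mul_osc _ _
    simp_rw [this]
    exact h.mod ξ s
  rw [e4, enorm_neg, ← ofReal_norm, ENNReal.ofReal_le_ofReal_iff (by positivity), norm_mul,
    RCLike.norm_ofNat] at e5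
  have e6 : Gh G (τ, ξ) = ∫ u, g u * E u := rfl
  simp only
  rw [e6]
  have ht : 0 < |τ| := abs_pos.2 h0
  have e7 : |s| = 1 / (2 * |τ|) := by
    rw [hs, abs_div, abs_one, abs_mul, abs_two]
  rw [e7] at e5
  have e8 : A * (1 / (2 * |τ|)) * |τ| = A / 2 := by field_simp
  have e9 : 2 * ‖∫ u, g u * E u‖ * |τ| ≤ A * (1 / (2 * |τ|)) * |τ| :=
    mul_le_mul_of_nonneg_right e5 ht.le
  rw [e8] at e9
  nlinarith

lemma Gh_bd {B A : ℝ} (hA : 0 ≤ A) (hB : 0 ≤ B) {G : ℝ × ℂ → ℂ} (h : Prof B A G) (p : ℝ × ℂ) :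
    (1 + |p.1|) * ‖Gh G p‖ ≤ B + A := by
  have h1 := Gh_bd1 hA h p
  have h2 := Gh_bd0 h p
  rw [← ofReal_norm, ENNReal.ofReal_le_ofReal_iff hB] at h2
  linarith

lemma Gh_hom {G : ℝ × ℂ → ℂ} (h : ∀ r : ℝ, 0 < r → ∀ (u : ℝ) (ξ : ℂ), G (u, r * ξ) = G (u, ξ))
    {r : ℝ} (hr : 0 < r) (τ : ℝ) (ξ : ℂ) : Gh G (τ, r * ξ) = Gh G (τ, ξ) := by
  unfold Gh
  simp only
  simp_rw [h r hr]

end Pool.Agent.T9h83.RAY
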