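import Pool.Agent.T9h83.RAY.SupS
set_option autoImplicit false

/-! The strong-type estimate at a fixed time for profiles. -/

namespace Pool.Agent.T9h83.RAY

open Complex MeasureTheory Set
open scoped ENNReal Real ComplexConjugate

/-- a profile with a parameter -/
structure PB {Y : Type*} [MeasurableSpace Y] (B A : ℝ) (Φ : ℝ × Y → ℂ) : Prop where
  meas : Measurable Φ
  int : ∀ y, ∫⁻ u, ‖Φ (u, y)‖ₑ ≤ ENNReal.ofReal B
  mod : ∀ y h, ∫⁻ u, ‖Φ (u + h, y) - Φ (u, y)‖ₑ ≤ ENNReal.ofReal (A * |h|)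

/-- the Fourier transform on the line -/
noncomputable def Fh (φ : ℝ → ℂ) (τ : ℝ) : ℂ :=
  ∫ u : ℝ, φ u * cexp (((-2 * π * u * τ : ℝ) : ℂ) * I)

section
variable {Y : Type*} [MeasurableSpace Y] {B A : ℝ} {Φ : ℝ × Y → ℂ}

lemma PB.prof (h : PB B A Φ) {c : ℂ → Y} (hc : Measurable c)
    (hom : ∀ r : ℝ, 0 < r → ∀ ξ : ℂ, c (r * ξ) = c ξ) :
    Prof B A (fun p : ℝ × ℂ => Φ (p.1, c p.2)) :=
  ⟨h.meas.comp (measurable_fst.prodMk (hc.comp measurable_snd)), fun ξ => h.int (c ξ),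
    fun r hr u ξ => by simp only; rw [hom r hr], fun ξ k => h.mod (c ξ) k⟩

lemma Fh_meas (h : Measurable Φ) : Measurable fun p : ℝ × Y => Fh (fun u => Φ (u, p.2)) p.1 := by
  have hc : Measurable fun r : (ℝ × Y) × ℝ => cexp (((-2 * π * r.2 * r.1.1 : ℝ) : ℂ) * I) := by
    fun_prop
  have h1 : Measurable fun r : (ℝ × Y) × ℝ =>
      Φ (r.2, r.1.2) * cexp (((-2 * π * r.2 * r.1.1 : ℝ) : ℂ) * I) :=
    (h.comp (measurable_snd.prodMk (measurable_snd.comp measurable_fst))).mul hc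
  exact h1.stronglyMeasurable.integral_prod_right'.measurable

lemma Fh_bd0 (h : PB B A Φ) (y : Y) (τ : ℝ) :
    ‖Fh (fun u => Φ (u, y)) τ‖ₑ ≤ ENNReal.ofReal B :=
  Gh_bd0 (h.prof (c := fun _ => y) measurable_const (fun _ _ _ => rfl)) (τ, 0)

lemma Fh_bd (hA : 0 ≤ A) (hB : 0 ≤ B) (h : PB B A Φ) (y : Y) (τ : ℝ) :
    (1 + |τ|) * ‖Fh (fun u => Φ (u, y)) τ‖ ≤ B + A :=
  Gh_bd hA hB (h.prof (c := fun _ => y) measurable_const (fun _ _ _ => rfl)) (τ, 0)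

end

/-- **The strong-type estimate at a fixed time for profiles.** -/
theorem profS {κ : ℝ} (h1 : 1 ≤ κ) (h2 : κ < 2) {q : ℝ} (hq2 : 2 < q) (hq4 : q < 4) :
    ∃ C : ℝ≥0∞, C ≠ ∞ ∧ ∀ t : ℝ, ∫⁻ τ, kt (κ * ((q - 2) / 2) / q) t τ ≠ ∞ →
      ∀ (B A : ℝ), 0 ≤ B → 0 ≤ A →
      ∀ Φ : ℝ × ℝ → ℂ, PB B A Φ →
      ∫⁻ x, ‖EV (fun ξ => Φ (‖ξ‖ ^ 2, arg ξ) * gs ξ) x t‖ₑ ^ q ≤
        (∫⁻ τ, kt (κ * ((q - 2) / 2) / q) t τ) ^ (q - 1) *
          ∫⁻ τ, kt (κ * ((q - 2) / 2) / q) t τ *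
            (C * (jb τ ^ q * ∫⁻ θ, ‖Fh (fun u => Φ (u, θ)) τ‖ₑ ^ q ∂cir)) := by
  obtain ⟨C, hC, h⟩ := fixgS h1 h2 hq2 hq4
  set σ := κ * ((q - 2) / 2) with hσ
  have hq0 : 0 < q := by linarith
  set γ := σ / q with hγ
  refine ⟨C, hC, ?_⟩
  intro t hkfin B A hB hA Φ hΦ
  set G : ℝ × ℂ → ℂ := fun p => Φ (p.1, arg p.2) with hGdef
  have hG : Prof B A G := hΦ.prof measurable_arg (fun r hr ξ => arg_hom hr ξ)
  set ω : ℝ → ℝ → ℂ := fun τ θ => Fh (fun u => Φ (u, θ)) τ with hω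
  have hωm : Measurable fun p : ℝ × ℝ => ω p.1 p.2 := Fh_meas hΦ.meas
  -- the functions
  set W : ℂ × ℝ → ℝ≥0∞ := fun p => ‖EV (fun ξ => ω p.2 (arg ξ) * gs ξ) p.1 (t + p.2)‖ₑ with hW
  have hWm : Measurable W := by
    have hGG : Measurable fun r : (ℂ × ℝ) × ℂ => ω r.1.2 (arg r.2) * gs r.2 := by
      exact (hωm.comp ((measurable_snd.comp measurable_fst).prodMk
        (measurable_arg.comp measurable_snd))).mul (gs_cont.measurable.comp measurable_snd)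
    exact (EV_meas hGG (x := fun p : ℂ × ℝ => p.1) measurable_fst
      (t := fun p => t + p.2) (measurable_const.add measurable_snd)).enorm
  set g : ℂ × ℝ → ℝ≥0∞ := fun p => jb p.2 ^ (1 : ℝ) * jb (t + p.2) ^ γ * W p with hg
  have hgm : Measurable g := by
    refine Measurable.mul (Measurable.mul ?_ ?_) hWm
    · exact (jb_meas.comp measurable_snd).pow_const _
    · exact (jb_meas.comp (measurable_const.add measurable_snd)).pow_const _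
  have hkg : ∀ x τ, kt γ t τ * g (x, τ) = W (x, τ) := by
    intro x τ
    simp only [hg]
    unfold kt
    have a1 : jb τ ^ (-1 : ℝ) * jb τ ^ (1 : ℝ) = 1 := by
      rw [← ENNReal.rpow_add _ _ (jb_ne_zero _) (jb_ne_top _), neg_add_cancel, ENNReal.rpow_zero]
    have a2 : jb (t + τ) ^ (-γ) * jb (t + τ) ^ γ = 1 := by
      rw [← ENNReal.rpow_add _ _ (jb_ne_zero _) (jb_ne_top _), neg_add_cancel, ENNReal.rpow_zero]
    calc _ = (jb τ ^ (-1 : ℝ) * jb τ ^ (1 : ℝ)) * (jb (t + τ) ^ (-γ) * jb (t + τ) ^ γ) *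
          W (x, τ) := by ring
      _ = _ := by rw [a1, a2, one_mul, one_mul]
  have s1 : ∀ x, ‖EV (fun ξ => Φ (‖ξ‖ ^ 2, arg ξ) * gs ξ) x t‖ₑ ≤
      ∫⁻ τ, kt γ t τ * g (x, τ) := by
    intro x
    simp_rw [hkg x]
    exact cut hA hG x t
  have s2 : ∀ x, ‖EV (fun ξ => Φ (‖ξ‖ ^ 2, arg ξ) * gs ξ) x t‖ₑ ^ q ≤
      (∫⁻ τ, kt γ t τ) ^ (q - 1) * ∫⁻ τ, kt γ t τ * g (x, τ) ^ q := by
    intro x
    refine (ENNReal.rpow_le_rpow (s1 x) hq0.le).trans ?_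
    exact wjensen (kt_meas γ t) (hgm.comp measurable_prodMk_left) (by linarith)
  have s3 : ∀ τ, ∫⁻ x, g (x, τ) ^ q ≤ C * (jb τ ^ q * ∫⁻ θ, ‖ω τ θ‖ₑ ^ q ∂cir) := by
    intro τ
    have hωτ : Measurable (ω τ) := hωm.comp measurable_prodMk_left
    have hωb : ∃ b : ℝ, ∀ θ, ‖ω τ θ‖ ≤ b := by
      refine ⟨B, fun θ => ?_⟩
      have h3 := Fh_bd0 hΦ θ τ
      rw [← ofReal_norm] at h3
      exact (ENNReal.ofReal_le_ofReal_iff hB).1 h3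
    have b1 := h (ω τ) hωτ hωb (t + τ)
    have hjb1 : jb τ ^ q ≠ ∞ := ENNReal.rpow_ne_top_of_nonneg hq0.le (jb_ne_top _)
    have hjb2 : jb (t + τ) ^ σ ≠ ∞ := ENNReal.rpow_ne_top_of_ne_zero (jb_ne_zero _) (jb_ne_top _)
    have b4 : ∀ x, g (x, τ) ^ q = jb τ ^ q * jb (t + τ) ^ σ * W (x, τ) ^ q := by
      intro x
      simp only [hg]
      rw [ENNReal.mul_rpow_of_nonneg _ _ hq0.le, ENNReal.mul_rpow_of_nonneg _ _ hq0.le,
        ← ENNReal.rpow_mul, ← ENNReal.rpow_mul, one_mul]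
      congr 3
      rw [hγ]
      field_simp
    simp_rw [b4]
    rw [lintegral_const_mul' _ _ (ENNReal.mul_ne_top hjb1 hjb2)]
    calc _ ≤ jb τ ^ q * jb (t + τ) ^ σ * (C * jb (t + τ) ^ (-σ) * ∫⁻ θ, ‖ω τ θ‖ₑ ^ q ∂cir) :=
          mul_le_mul' le_rfl b1
      _ = C * (jb τ ^ q * ∫⁻ θ, ‖ω τ θ‖ₑ ^ q ∂cir) * (jb (t + τ) ^ σ * jb (t + τ) ^ (-σ)) := by ring
      _ = _ := by
          rw [← ENNReal.rpow_add _ _ (jb_ne_zero _) (jb_ne_top _), add_neg_cancel,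
            ENNReal.rpow_zero, mul_one]
  calc ∫⁻ x, ‖EV (fun ξ => Φ (‖ξ‖ ^ 2, arg ξ) * gs ξ) x t‖ₑ ^ q ≤
        ∫⁻ x, (∫⁻ τ, kt γ t τ) ^ (q - 1) * ∫⁻ τ, kt γ t τ * g (x, τ) ^ q := lintegral_mono s2
    _ = (∫⁻ τ, kt γ t τ) ^ (q - 1) * ∫⁻ x, ∫⁻ τ, kt γ t τ * g (x, τ) ^ q := by
        rw [lintegral_const_mul' _ _ (ENNReal.rpow_ne_top_of_nonneg (by linarith) hkfin)]
    _ = (∫⁻ τ, kt γ t τ) ^ (q - 1) * ∫⁻ τ, ∫⁻ x, kt γ t τ * g (x, τ) ^ q := by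
        rw [lintegral_lintegral_swap]
        exact (((kt_meas γ t).comp measurable_snd).mul (hgm.pow_const q)).aemeasurable
    _ ≤ _ := by
        refine mul_le_mul' le_rfl (lintegral_mono fun τ => ?_)
        simp only
        have hgτ : Measurable fun x => g (x, τ) ^ q :=
          (hgm.comp measurable_prodMk_right).pow_const q
        rw [lintegral_const_mul _ hgτ]
        exact mul_le_mul' le_rfl (s3 τ)

end Pool.Agent.T9h83.RAY
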