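import Pool.Agent.T9h83.RAY.Alg
set_option autoImplicit false

/-! The relations for four angles. -/

namespace Pool.Agent.T9h83.RAY

open Complex

/-- the square of the sine of the difference of two angles -/
noncomputable def pp (x y : ℝ) : ℝ := Real.sin (x - y) ^ 2

lemma pp_eq (x y : ℝ) : pp x y =
    (1 - (Real.cos (2 * x) * Real.cos (2 * y) + Real.sin (2 * x) * Real.sin (2 * y))) / 2 := by
  unfold pp
  rw [← Real.cos_sub, show 2 * x - 2 * y = 2 * (x - y) by ring, Real.cos_two_mul,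
    Real.cos_sq']
  ring

lemma pp_nonneg (x y : ℝ) : 0 ≤ pp x y := by unfold pp; positivity

lemma pp_le_one (x y : ℝ) : pp x y ≤ 1 := by unfold pp; exact Real.sin_sq_le_one _

/-- the real part of `V` -/
noncomputable def Vr (x y z u : ℝ) : ℝ :=
  Real.cos (2 * x) + Real.cos (2 * y) - Real.cos (2 * z) - Real.cos (2 * u)

/-- the imaginary part of `V` -/
noncomputable def Vi (x y z u : ℝ) : ℝ :=
  Real.sin (2 * x) + Real.sin (2 * y) - Real.sin (2 * z) - Real.sin (2 * u)

/-- the length of `V` -/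
noncomputable def dd (x y z u : ℝ) : ℝ := Real.sqrt (Vr x y z u ^ 2 + Vi x y z u ^ 2)

lemma dd_nonneg (x y z u : ℝ) : 0 ≤ dd x y z u := Real.sqrt_nonneg _

lemma dd_sq (x y z u : ℝ) : dd x y z u ^ 2 = Vr x y z u ^ 2 + Vi x y z u ^ 2 :=
  Real.sq_sqrt (by positivity)

/-- the components of `V` -/
noncomputable def RR (w x y z u : ℝ) : ℝ :=
  Real.cos (2 * w) * Vr x y z u + Real.sin (2 * w) * Vi x y z u

lemma RR_le (w x y z u : ℝ) : |RR w x y z u| ≤ dd x y z u := by
  apply abs_le_of_sq_le_sq _ (dd_nonneg _ _ _ _)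
  rw [dd_sq]
  unfold RR
  have h := Real.cos_sq_add_sin_sq (2 * w)
  nlinarith [sq_nonneg (Real.cos (2 * w) * Vi x y z u - Real.sin (2 * w) * Vr x y z u),
    sq_nonneg (Vr x y z u), sq_nonneg (Vi x y z u)]

lemma RR_sub (w w' x y z u : ℝ) :
    (RR w x y z u - RR w' x y z u) ^ 2 ≤ 4 * pp w w' * dd x y z u ^ 2 := by
  rw [dd_sq, pp_eq]
  unfold RR
  have h := Real.cos_sq_add_sin_sq (2 * w)
  have h' := Real.cos_sq_add_sin_sq (2 * w')
  set C := Real.cos (2 * w)
  set S := Real.sin (2 * w)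
  set C' := Real.cos (2 * w')
  set S' := Real.sin (2 * w')
  set X := Vr x y z u
  set Y := Vi x y z u
  have e : 4 * ((1 - (C * C' + S * S')) / 2) = (C - C') ^ 2 + (S - S') ^ 2 := by
    linear_combination -h - h'
  rw [e]
  nlinarith [sq_nonneg ((C - C') * Y - (S - S') * X)]

lemma rel (x y z u : ℝ) : Rel (pp x y) (pp x z) (pp x u) (pp y z) (pp y u) (pp z u)
    (RR x x y z u) (RR y x y z u) (RR z x y z u) (RR u x y z u) (dd x y z u) := by
  have hx := Real.cos_sq_add_sin_sq (2 * x)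
  have hy := Real.cos_sq_add_sin_sq (2 * y)
  have hz := Real.cos_sq_add_sin_sq (2 * z)
  have hu := Real.cos_sq_add_sin_sq (2 * u)
  refine ⟨pp_nonneg _ _, pp_nonneg _ _, pp_nonneg _ _, pp_nonneg _ _, pp_nonneg _ _,
    pp_nonneg _ _, pp_le_one _ _, pp_le_one _ _, pp_le_one _ _, pp_le_one _ _, pp_le_one _ _,
    pp_le_one _ _, dd_nonneg _ _ _ _, ?_, ?_, ?_, ?_, ?_, ?_, RR_le _ _ _ _ _, RR_le _ _ _ _ _,
    RR_le _ _ _ _ _, RR_le _ _ _ _ _, RR_sub _ _ _ _ _ _, RR_sub _ _ _ _ _ _⟩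
  · unfold dd
    rw [Real.sqrt_le_left (by norm_num)]
    unfold Vr Vi
    set a := Real.cos (2 * x)
    set b := Real.cos (2 * y)
    set c := Real.cos (2 * z)
    set d := Real.cos (2 * u)
    set a' := Real.sin (2 * x)
    set b' := Real.sin (2 * y)
    set c' := Real.sin (2 * z)
    set d' := Real.sin (2 * u)
    nlinarith [sq_nonneg (a - b), sq_nonneg (a + c), sq_nonneg (a + d), sq_nonneg (b + c),
      sq_nonneg (b + d), sq_nonneg (c - d), sq_nonneg (a' - b'), sq_nonneg (a' + c'),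
      sq_nonneg (a' + d'), sq_nonneg (b' + c'), sq_nonneg (b' + d'), sq_nonneg (c' - d')]
  · rw [dd_sq]
    simp only [pp_eq]
    unfold Vr Vi
    linear_combination -hx / 4 - hy / 4 - hz / 4 - hu / 4
  · simp only [pp_eq]
    unfold RR Vr Vi
    linear_combination -hx / 2
  · simp only [pp_eq]
    unfold RR Vr Vi
    linear_combination -hy / 2
  · simp only [pp_eq]
    unfold RR Vr Vi
    linear_combination -hz / 2
  · simp only [pp_eq]
    unfold RR Vr Vi
    linear_combination -hu / 2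

end Pool.Agent.T9h83.RAY
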