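import Pool.Agent.T9h83.RAY.Lin1
import Pool.Agent.T9h83.RAY.Cons
set_option autoImplicit false

/-! Splitting off a planar block: the abstract step. -/

namespace Pool.Agent.T9h83.RAY

open Complex MeasureTheory Set
open scoped ENNReal Real ComplexConjugate

/-- hypotheses for splitting off a planar block -/
structure PS {Z : Type*} [MeasurableSpace Z] (μ : Measure Z) (B A : ℝ) (F : ℝ × ℝ × Z → ℂ) :
    Prop where
  meas : Measurable F
  int : ∀ θ, ∫⁻ u, ∫⁻ ζ, ‖F (u, θ, ζ)‖ₑ ∂μ ≤ ENNReal.ofReal B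
  mod : ∀ θ h, ∫⁻ u, ∫⁻ ζ, ‖F (u + h, θ, ζ) - F (u, θ, ζ)‖ₑ ∂μ ≤ ENNReal.ofReal (A * |h|)
  fib : ∀ u θ, Integrable (fun ζ => F (u, θ, ζ)) μ

section

variable {Z : Type*} [MeasurableSpace Z] {μ : Measure Z} [SFinite μ] {B A : ℝ}
  {F : ℝ × ℝ × Z → ℂ}

lemma bdd_one_mul {z w : ℂ} (hw : ‖w‖ ≤ 1) : ‖z * w‖ₑ ≤ ‖z‖ₑ := by
  rw [enorm_mul]
  have : ‖w‖ₑ ≤ 1 := by
    rw [← ofReal_norm, ← ENNReal.ofReal_one]
    exact ENNReal.ofReal_le_ofReal hw
  calc _ ≤ ‖z‖ₑ * 1 := mul_le_mul' le_rfl this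
    _ = _ := mul_one _

lemma PS.pb (h : PS μ B A F) {φ : Z → ℂ} (hφ : Measurable φ) (hb : ∀ ζ, ‖φ ζ‖ ≤ 1) :
    PB B A (fun p : ℝ × ℝ => ∫ ζ, F (p.1, p.2, ζ) * φ ζ ∂μ) := by
  refine ⟨?_, ?_, ?_⟩
  · have h1 : Measurable fun r : (ℝ × ℝ) × Z => F (r.1.1, r.1.2, r.2) * φ r.2 :=
      (h.meas.comp ((measurable_fst.comp measurable_fst).prodMk
        ((measurable_snd.comp measurable_fst).prodMk measurable_snd))).mul
        (hφ.comp measurable_snd)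
    exact h1.stronglyMeasurable.integral_prod_right'.measurable
  · intro θ
    refine le_trans (lintegral_mono fun u => ?_) (h.int θ)
    simp only
    exact (enorm_integral_le_lintegral_enorm _).trans
      (lintegral_mono fun ζ => bdd_one_mul (hb ζ))
  · intro θ k
    refine le_trans (lintegral_mono fun u => ?_) (h.mod θ k)
    simp only
    have i : ∀ u, Integrable (fun ζ => F (u, θ, ζ) * φ ζ) μ := fun u =>
      (h.fib u θ).mul_bdd (c := 1) hφ.aestronglyMeasurable (Filter.Eventually.of_forall hb)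
    rw [← integral_sub (i (u + k)) (i u)]
    refine (enorm_integral_le_lintegral_enorm _).trans (lintegral_mono fun ζ => ?_)
    simp only
    rw [← sub_mul]
    exact bdd_one_mul (hb ζ)

lemma PS.Fh (h : PS μ B A F) {φ : Z → ℂ} (hφ : Measurable φ) (hb : ∀ ζ, ‖φ ζ‖ ≤ 1) (θ τ : ℝ) :
    Fh (fun u => ∫ ζ, F (u, θ, ζ) * φ ζ ∂μ) τ =
      ∫ ζ, RAY.Fh (fun u => F (u, θ, ζ)) τ * φ ζ ∂μ := by
  unfold RAY.Fh
  have e1 : ∀ u : ℝ, (∫ ζ, F (u, θ, ζ) * φ ζ ∂μ) * cexp (((-2 * π * u * τ : ℝ) : ℂ) * I) =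
      ∫ ζ, F (u, θ, ζ) * φ ζ * cexp (((-2 * π * u * τ : ℝ) : ℂ) * I) ∂μ := fun u =>
    (integral_mul_const _ _).symm
  simp_rw [e1]
  have hm : Measurable fun p : ℝ × Z =>
      F (p.1, θ, p.2) * φ p.2 * cexp (((-2 * π * p.1 * τ : ℝ) : ℂ) * I) := by
    have a1 : Measurable fun p : ℝ × Z => F (p.1, θ, p.2) :=
      h.meas.comp (measurable_fst.prodMk (measurable_const.prodMk measurable_snd))
    have a2 : Measurable fun p : ℝ × Z => cexp (((-2 * π * p.1 * τ : ℝ) : ℂ) * I) := by fun_prop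
    exact (a1.mul (hφ.comp measurable_snd)).mul a2
  have hI : Integrable (fun p : ℝ × Z =>
      F (p.1, θ, p.2) * φ p.2 * cexp (((-2 * π * p.1 * τ : ℝ) : ℂ) * I))
      ((volume : Measure ℝ).prod μ) := by
    refine ⟨hm.aestronglyMeasurable, ?_⟩
    rw [hasFiniteIntegral_iff_enorm, lintegral_prod _ hm.enorm.aemeasurable]
    refine lt_of_le_of_lt (le_trans (lintegral_mono fun u => lintegral_mono fun ζ => ?_) (h.int θ))
      ENNReal.ofReal_lt_top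
    simp only
    rw [enorm_mul_osc]
    exact bdd_one_mul (hb ζ)
  rw [integral_integral_swap (f := fun (u : ℝ) (ζ : Z) =>
    F (u, θ, ζ) * φ ζ * cexp (((-2 * π * u * τ : ℝ) : ℂ) * I)) hI]
  congr 1; funext ζ
  rw [← integral_mul_const]
  congr 1; funext u
  ring

/-- **The abstract step.** -/
theorem planarStep {κ : ℝ} (h1 : 1 ≤ κ) (h2 : κ < 2) {q : ℝ} (hq2 : 2 < q) (hq4 : q < 4) :
    ∃ C : ℝ≥0∞, C ≠ ∞ ∧ ∀ t : ℝ, ∫⁻ τ, kt (κ * ((q - 2) / 2) / q) t τ ≠ ∞ →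
      ∀ {Z : Type} [MeasurableSpace Z] {μ : Measure Z} [SFinite μ] {B A : ℝ}
      {F : ℝ × ℝ × Z → ℂ}, 0 ≤ B → 0 ≤ A → PS μ B A F →
      ∀ {X : Type} [MeasurableSpace X] {ν : Measure X} [SFinite ν] {φ : X × Z → ℂ},
      Measurable φ → (∀ p, ‖φ p‖ ≤ 1) →
      ∫⁻ x, (∫⁻ x0, ‖EV (fun ξ => (∫ ζ, F (‖ξ‖ ^ 2, arg ξ, ζ) * φ (x, ζ) ∂μ) * gs ξ) x0 t‖ₑ ^ q) ∂ν ≤
        (∫⁻ τ, kt (κ * ((q - 2) / 2) / q) t τ) ^ (q - 1) *
          ∫⁻ τ, kt (κ * ((q - 2) / 2) / q) t τ * (C * (jb τ ^ q * ∫⁻ θ, (∫⁻ x,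
            ‖∫ ζ, RAY.Fh (fun u => F (u, θ, ζ)) τ * φ (x, ζ) ∂μ‖ₑ ^ q ∂ν) ∂cir)) := by
  obtain ⟨C, hC, h⟩ := profS h1 h2 hq2 hq4
  refine ⟨C, hC, ?_⟩
  intro t hkfin Z _ μ _ B A F hB hA hF X _ ν _ φ hφ hb
  set γ := κ * ((q - 2) / 2) / q with hγ
  set kk := ∫⁻ τ, kt γ t τ with hkk
  set H : X × ℝ × ℝ → ℝ≥0∞ := fun p =>
    ‖∫ ζ, RAY.Fh (fun u => F (u, p.2.2, ζ)) p.2.1 * φ (p.1, ζ) ∂μ‖ₑ ^ q with hH
  have hHm : Measurable H := by
    have a1 : Measurable fun p : ℝ × (ℝ × Z) => RAY.Fh (fun u => F (u, p.2)) p.1 :=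
      Fh_meas (Y := ℝ × Z) hF.meas
    have a2 : Measurable fun r : (X × ℝ × ℝ) × Z =>
        RAY.Fh (fun u => F (u, r.1.2.2, r.2)) r.1.2.1 * φ (r.1.1, r.2) := by
      have b1 : Measurable fun r : (X × ℝ × ℝ) × Z => (r.1.2.1, (r.1.2.2, r.2)) := by fun_prop
      have b2 : Measurable fun r : (X × ℝ × ℝ) × Z => (r.1.1, r.2) := by fun_prop
      exact (a1.comp b1).mul (hφ.comp b2)
    exact a2.stronglyMeasurable.integral_prod_right'.measurable.enorm.pow_const q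
  clear_value H
  have s1 : ∀ x, ∫⁻ x0, ‖EV (fun ξ => (∫ ζ, F (‖ξ‖ ^ 2, arg ξ, ζ) * φ (x, ζ) ∂μ) * gs ξ) x0 t‖ₑ ^ q
      ≤ kk ^ (q - 1) * ∫⁻ τ, kt γ t τ * (C * (jb τ ^ q * ∫⁻ θ, H (x, τ, θ) ∂cir)) := by
    intro x
    have hφx : Measurable fun ζ => φ (x, ζ) := hφ.comp measurable_prodMk_left
    have hpb := hF.pb hφx (fun ζ => hb (x, ζ))
    have h3 := h t hkfin B A hB hA _ hpb
    refine h3.trans (le_of_eq ?_)
    congr 1
    apply lintegral_congr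
    intro τ
    congr 3
    apply lintegral_congr
    intro θ
    rw [hH]
    simp only
    rw [hF.Fh hφx (fun ζ => hb (x, ζ))]
  refine (lintegral_mono s1).trans (le_of_eq ?_)
  have hkq : kk ^ (q - 1) ≠ ∞ := ENNReal.rpow_ne_top_of_nonneg (by linarith) hkfin
  rw [lintegral_const_mul' _ _ hkq]
  congr 1
  have hm2 : Measurable fun p : X × ℝ => ∫⁻ θ, H (p.1, p.2, θ) ∂cir := by
    have b0 : Measurable fun r : (X × ℝ) × ℝ => (r.1.1, r.1.2, r.2) := by fun_prop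
    have b1 := hHm.comp b0
    exact b1.lintegral_prod_right'
  have hjq : Measurable fun τ => jb τ ^ q := jb_meas.pow_const q
  rw [lintegral_lintegral_swap]
  · apply lintegral_congr
    intro τ
    have hm3 : Measurable fun x => ∫⁻ θ, H (x, τ, θ) ∂cir := by
      have b := hm2.comp (measurable_prodMk_right (y := τ) : Measurable fun x : X => (x, τ))
      exact b
    rw [lintegral_const_mul _ ((hm3.const_mul _).const_mul _), lintegral_const_mul _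
      (hm3.const_mul _), lintegral_const_mul _ hm3, lintegral_lintegral_swap]
    · rw [hH]
    · have b0 : Measurable fun r : X × ℝ => (r.1, τ, r.2) := by fun_prop
      have b1 := hHm.comp b0
      exact b1.aemeasurable
  · exact (((kt_meas γ t).comp measurable_snd).mul
      (((hjq.comp measurable_snd).mul hm2).const_mul C)).aemeasurable

end

end Pool.Agent.T9h83.RAY
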