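import Pool.Agent.T9h83.RAY.FixS3
import Pool.Agent.T9h83.RAY.FixP
set_option autoImplicit false

/-! The strong-type estimate with the Gaussian weight `exp(-π|ξ|²)`. -/

namespace Pool.Agent.T9h83.RAY

open Complex MeasureTheory Set
open scoped ENNReal Real ComplexConjugate

lemma sup_EVb {Ω : ℂ → ℂ} (hm : Measurable Ω) {B : ℝ} (hb : ∀ ξ, ‖Ω ξ‖ ≤ B) (x : ℂ) (t : ℝ) :
    EV (fun ξ => Ω ξ * gs ξ) x t =
      ∫ l in Ioi (0:ℝ), ((l ^ (-(1 / 2) : ℝ) : ℝ) : ℂ) *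
        EV (fun ξ => Ω ξ * wtm (1 + l) ξ) x t := by
  set c : ℝ := |B| + 1 with hc
  have hc0 : 0 < c := by positivity
  set Ω' : ℂ → ℂ := fun ξ => ((c⁻¹ : ℝ) : ℂ) * Ω ξ with hΩ'
  have hb' : ∀ ξ, ‖Ω' ξ‖ ≤ 1 := by
    intro ξ
    rw [hΩ']
    simp only
    rw [norm_mul, norm_real, Real.norm_eq_abs, abs_of_pos (inv_pos.2 hc0), inv_mul_le_iff₀ hc0]
    linarith [hb ξ, le_abs_self B]
  have hΩm' : Measurable Ω' := measurable_const.mul hm
  have h := sup_EV (Ω := Ω') hΩm' hb' x t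
  have e1 : EV (fun ξ => Ω' ξ * gs ξ) x t = ((c⁻¹ : ℝ) : ℂ) * EV (fun ξ => Ω ξ * gs ξ) x t := by
    rw [← EV_smul]
    congr 1; funext ξ
    rw [hΩ']; ring
  have e2 : ∀ l : ℝ, ((l ^ (-(1 / 2) : ℝ) : ℝ) : ℂ) * EV (fun ξ => Ω' ξ * wtm (1 + l) ξ) x t =
      ((c⁻¹ : ℝ) : ℂ) * (((l ^ (-(1 / 2) : ℝ) : ℝ) : ℂ) *
        EV (fun ξ => Ω ξ * wtm (1 + l) ξ) x t) := by
    intro l
    rw [mul_left_comm, ← EV_smul ((c⁻¹ : ℝ) : ℂ)]
    congr 2; funext ξ
    rw [hΩ']; ring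
  rw [e1] at h
  simp_rw [e2] at h
  rw [integral_const_mul] at h
  have hc' : ((c⁻¹ : ℝ) : ℂ) ≠ 0 := by exact_mod_cast (inv_pos.2 hc0).ne'
  exact mul_left_cancel₀ hc' h

/-- **The strong-type estimate at a fixed time**, with the Gaussian weight. -/
theorem fixgS {κ : ℝ} (h1 : 1 ≤ κ) (h2 : κ < 2) {q : ℝ} (hq2 : 2 < q) (hq4 : q < 4) :
    ∃ C : ℝ≥0∞, C ≠ ∞ ∧ ∀ ω : ℝ → ℂ, Measurable ω → (∃ B : ℝ, ∀ θ, ‖ω θ‖ ≤ B) → ∀ t : ℝ,
      ∫⁻ x, ‖EV (fun ξ => ω (arg ξ) * gs ξ) x t‖ₑ ^ q ≤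
        C * jb t ^ (-(κ * ((q - 2) / 2))) * ∫⁻ θ, ‖ω θ‖ₑ ^ q ∂cir := by
  obtain ⟨C, hC, h⟩ := faq h1 h2 hq2 hq4
  set σ := κ * ((q - 2) / 2) with hσ
  have hσ2 : σ ≤ q - 2 := by
    rw [hσ]; nlinarith
  set K := ∫⁻ l in Ioi (0:ℝ), kl l with hK
  refine ⟨K ^ (q - 1) * (C * K), ENNReal.mul_ne_top (ENNReal.rpow_ne_top_of_nonneg (by linarith)
    kl_fin) (ENNReal.mul_ne_top hC kl_fin), ?_⟩
  rintro ω hω ⟨B, hb⟩ t
  set N := ∫⁻ θ, ‖ω θ‖ₑ ^ q ∂cir with hN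
  have hΩm : Measurable fun ξ : ℂ => ω (arg ξ) := hω.comp measurable_arg
  -- the functions
  set W : ℂ × ℝ → ℝ≥0∞ := fun p => ‖EV (fun ξ => ω (arg ξ) * wtm (1 + p.2) ξ) p.1 t‖ₑ with hW
  have hWm : Measurable W := by
    have hG : Measurable fun r : (ℂ × ℝ) × ℂ => ω (arg r.2) * wtm (1 + r.1.2) r.2 := by
      refine (hΩm.comp measurable_snd).mul ?_
      exact wtm_meas.comp ((measurable_snd.comp measurable_fst).prodMk measurable_snd)
    exact (EV_meas hG (x := fun p : ℂ × ℝ => p.1) measurable_fst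
      (t := fun _ => t) measurable_const).enorm
  set g : ℂ × ℝ → ℝ≥0∞ := fun p => ENNReal.ofReal ((1 + p.2) ^ (3 / 4 : ℝ)) * W p with hg
  have hgm : Measurable g := by
    refine Measurable.mul ?_ hWm
    exact ENNReal.measurable_ofReal.comp ((measurable_const.add measurable_snd).pow_const _)
  have s1 : ∀ x, ‖EV (fun ξ => ω (arg ξ) * gs ξ) x t‖ₑ ≤
      ∫⁻ l in Ioi (0:ℝ), kl l * g (x, l) := by
    intro x
    rw [sup_EVb hΩm (fun ξ => hb _)]
    refine (enorm_integral_le_lintegral_enorm _).trans ?_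
    apply setLIntegral_mono' measurableSet_Ioi
    intro l hl
    have hl0 : 0 < l := hl
    rw [enorm_mul]
    simp only [hg, hW]
    unfold kl
    rw [← mul_assoc, ← ENNReal.ofReal_mul (by positivity)]
    gcongr
    rw [← ofReal_norm]
    apply ENNReal.ofReal_le_ofReal
    rw [norm_real, Real.norm_eq_abs, abs_of_pos (by positivity), mul_assoc,
      ← Real.rpow_add (by positivity : 0 < 1 + l)]
    norm_num
  have s2 : ∀ x, ‖EV (fun ξ => ω (arg ξ) * gs ξ) x t‖ₑ ^ q ≤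
      K ^ (q - 1) * ∫⁻ l in Ioi (0:ℝ), kl l * g (x, l) ^ q := by
    intro x
    refine (ENNReal.rpow_le_rpow (s1 x) (by linarith)).trans ?_
    exact wjensen kl_meas (hgm.comp measurable_prodMk_left) (by linarith)
  calc ∫⁻ x, ‖EV (fun ξ => ω (arg ξ) * gs ξ) x t‖ₑ ^ q ≤
        ∫⁻ x, K ^ (q - 1) * ∫⁻ l in Ioi (0:ℝ), kl l * g (x, l) ^ q := lintegral_mono s2
    _ = K ^ (q - 1) * ∫⁻ x, ∫⁻ l in Ioi (0:ℝ), kl l * g (x, l) ^ q := by
        rw [lintegral_const_mul' _ _ (ENNReal.rpow_ne_top_of_nonneg (by linarith) kl_fin)]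
    _ = K ^ (q - 1) * ∫⁻ l in Ioi (0:ℝ), ∫⁻ x, kl l * g (x, l) ^ q := by
        rw [lintegral_lintegral_swap]
        exact ((kl_meas.comp measurable_snd).mul (hgm.pow_const q)).aemeasurable
    _ ≤ K ^ (q - 1) * ∫⁻ l in Ioi (0:ℝ), kl l * (C * jb t ^ (-σ) * N) := by
        refine mul_le_mul' le_rfl ?_
        apply setLIntegral_mono' measurableSet_Ioi
        intro l hl
        have hl0 : 0 < l := hl
        have hm := fixmS (by linarith : 0 ≤ κ) hq2.le h hω hb (m := 1 + l) (by linarith) t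
        have e1 : ∫⁻ x, kl l * g (x, l) ^ q = kl l * (ENNReal.ofReal ((1 + l) ^ (3 / 4 * q)) *
            ∫⁻ x, ‖EV (fun ξ => ω (arg ξ) * wtm (1 + l) ξ) x t‖ₑ ^ q) := by
          have hfin : kl l ≠ ∞ := ENNReal.ofReal_ne_top
          rw [lintegral_const_mul' _ _ hfin, ← lintegral_const_mul' _ _ ENNReal.ofReal_ne_top]
          congr 1
          apply lintegral_congr
          intro x
          simp only [hg, hW]
          rw [ENNReal.mul_rpow_of_nonneg _ _ (by linarith),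
            ENNReal.ofReal_rpow_of_pos (by positivity), ← Real.rpow_mul (by positivity)]
        rw [e1]
        refine mul_le_mul' le_rfl ?_
        have hle : ENNReal.ofReal ((1 + l) ^ (3 / 4 * q)) * ENNReal.ofReal
              ((1 + l) ^ (1 - 3 * q / 2 + σ)) ≤ 1 := by
          rw [← ENNReal.ofReal_mul (by positivity), ← Real.rpow_add (by positivity),
            ← ENNReal.ofReal_one]
          apply ENNReal.ofReal_le_ofReal
          apply Real.rpow_le_one_of_one_le_of_nonpos (by linarith)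
          linarith
        rw [← hσ, ← hN] at hm
        calc _ ≤ ENNReal.ofReal ((1 + l) ^ (3 / 4 * q)) * (C * ENNReal.ofReal
              ((1 + l) ^ (1 - 3 * q / 2 + σ)) * jb t ^ (-σ) * N) := mul_le_mul' le_rfl hm
          _ = C * (ENNReal.ofReal ((1 + l) ^ (3 / 4 * q)) * ENNReal.ofReal
              ((1 + l) ^ (1 - 3 * q / 2 + σ))) * jb t ^ (-σ) * N := by
              ring
          _ ≤ C * 1 * jb t ^ (-σ) * N := by gcongr
          _ = _ := by rw [mul_one]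
    _ = K ^ (q - 1) * (C * K) * jb t ^ (-σ) * N := by
        rw [lintegral_mul_const _ kl_meas, ← hK]
        ring

end Pool.Agent.T9h83.RAY
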