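import Pool.Agent.T9h83.RAY.JTime
set_option autoImplicit false

/-! Blocks on top of an abstract base. -/

namespace Pool.Agent.T9h83.RAY

open Complex MeasureTheory Set
open scoped ENNReal Real ComplexConjugate

section split

variable {A B C Z : Type} [MeasurableSpace A] [MeasurableSpace B] [MeasurableSpace C]
  [MeasurableSpace Z] {μA : Measure A} {μB : Measure B} {μC : Measure C} [SFinite μA] [SFinite μB]
  [SFinite μC] {ρ : Measure Z} [SFinite ρ]

/-- the equivalence with an additional factor -/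
def esp (Z : Type) [MeasurableSpace Z] (e : A × B ≃ᵐ C) : A × (B × Z) ≃ᵐ C × Z :=
  MeasurableEquiv.prodAssoc.symm.trans (e.prodCongr (MeasurableEquiv.refl _))

lemma esp_apply (e : A × B ≃ᵐ C) (p : A × (B × Z)) : esp Z e p = (e (p.1, p.2.1), p.2.2) := rfl

lemma mp_esp {e : A × B ≃ᵐ C} (he : MeasurePreserving e (μA.prod μB) μC) :
    MeasurePreserving (esp Z e) (μA.prod (μB.prod ρ)) (μC.prod ρ) := by
  have h1 : MeasurePreserving (MeasurableEquiv.prodAssoc.symm : A × (B × Z) ≃ᵐ (A × B) × Z)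
      (μA.prod (μB.prod ρ)) ((μA.prod μB).prod ρ) := (measurePreserving_prodAssoc _ _ _).symm
  have h2 : MeasurePreserving (Prod.map e (MeasurableEquiv.refl Z))
      ((μA.prod μB).prod ρ) (μC.prod ρ) := he.prod (MeasurePreserving.id _)
  exact h2.comp h1

lemma lint_split {e : A × B ≃ᵐ C} (he : MeasurePreserving e (μA.prod μB) μC) {f : C × Z → ℝ≥0∞}
    (hf : Measurable f) :
    ∫⁻ z, f z ∂(μC.prod ρ) = ∫⁻ b, ∫⁻ a, f (e (a, b.1), b.2) ∂μA ∂(μB.prod ρ) := by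
  have h1 : Measurable fun p => f (esp Z e p) := hf.comp (esp Z e).measurable
  rw [← (mp_esp (ρ := ρ) he).lintegral_comp_emb (esp Z e).measurableEmbedding,
    lintegral_prod_symm _ h1.aemeasurable]
  simp_rw [esp_apply]

lemma int_split {e : A × B ≃ᵐ C} (he : MeasurePreserving e (μA.prod μB) μC) {F : C × Z → ℂ}
    (hF : Integrable F (μC.prod ρ)) :
    ∫ z, F z ∂(μC.prod ρ) = ∫ a, ∫ b, F (e (a, b.1), b.2) ∂(μB.prod ρ) ∂μA := by
  have h1 := (mp_esp (ρ := ρ) he).integral_comp (esp Z e).measurableEmbedding F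
  have h2 : Integrable (fun p => F (esp Z e p)) (μA.prod (μB.prod ρ)) :=
    (mp_esp (ρ := ρ) he).integrable_comp_of_integrable hF
  rw [← h1, integral_prod _ h2]
  simp_rw [esp_apply]

end split

/-- splitting off the first linear block -/
noncomputable def ecl (P m : ℕ) : ℝ × ZZ P m ≃ᵐ ZZ P (m + 1) :=
  (((MeasurableEquiv.refl ℝ).prodCongr MeasurableEquiv.prodComm).trans
    (MeasurableEquiv.prodAssoc.symm.trans ((ecn ℝ m).prodCongr (MeasurableEquiv.refl _)))).trans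
    MeasurableEquiv.prodComm

lemma ecl_apply {P m : ℕ} (p : ℝ × ZZ P m) : ecl P m p = (p.2.1, cn p.1 p.2.2) := by
  have : ecl P m p = (p.2.1, ecn ℝ m (p.1, p.2.2)) := rfl
  rw [this, ecn_apply]

lemma mp_ecl (P m : ℕ) : MeasurePreserving (ecl P m)
    ((volume : Measure ℝ).prod (volume : Measure (ZZ P m))) (volume : Measure (ZZ P (m + 1))) := by
  have h0 : MeasurePreserving
      (Prod.map (MeasurableEquiv.refl ℝ) (Prod.swap : ZZ P m → (Fin m → ℝ) × (Fin P → ℂ)))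
      ((volume : Measure ℝ).prod ((volume : Measure (Fin P → ℂ)).prod
        (volume : Measure (Fin m → ℝ))))
      ((volume : Measure ℝ).prod ((volume : Measure (Fin m → ℝ)).prod
        (volume : Measure (Fin P → ℂ)))) :=
    (MeasurePreserving.id _).prod Measure.measurePreserving_swap
  have h1 : MeasurePreserving (MeasurableEquiv.prodAssoc.symm :
      ℝ × ((Fin m → ℝ) × (Fin P → ℂ)) ≃ᵐ _)
      ((volume : Measure ℝ).prod ((volume : Measure (Fin m → ℝ)).prod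
        (volume : Measure (Fin P → ℂ))))
      (((volume : Measure ℝ).prod (volume : Measure (Fin m → ℝ))).prod
        (volume : Measure (Fin P → ℂ))) := (measurePreserving_prodAssoc _ _ _).symm
  have h2 : MeasurePreserving (ecn ℝ m) ((volume : Measure ℝ).prod (volume : Measure (Fin m → ℝ)))
      (volume : Measure (Fin (m + 1) → ℝ)) := mp_ecn volume m
  have h3 : MeasurePreserving (Prod.map (ecn ℝ m) (MeasurableEquiv.refl (Fin P → ℂ)))
      (((volume : Measure ℝ).prod (volume : Measure (Fin m → ℝ))).prod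
        (volume : Measure (Fin P → ℂ)))
      ((volume : Measure (Fin (m + 1) → ℝ)).prod (volume : Measure (Fin P → ℂ))) :=
    h2.prod (MeasurePreserving.id _)
  have h4 : MeasurePreserving (Prod.swap : (Fin (m + 1) → ℝ) × (Fin P → ℂ) → ZZ P (m + 1))
      ((volume : Measure (Fin (m + 1) → ℝ)).prod (volume : Measure (Fin P → ℂ)))
      ((volume : Measure (Fin P → ℂ)).prod (volume : Measure (Fin (m + 1) → ℝ))) :=
    Measure.measurePreserving_swap
  exact h4.comp ((h3.comp h1).comp h0)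

section base

variable {Z0 X0 : Type} [MeasurableSpace Z0] [MeasurableSpace X0]

/-- the phase -/
noncomputable def phB (φ0 : (ℝ × X0) × Z0 → ℂ) {P m : ℕ} (t : ℝ) (x : ZZ P m × X0)
    (ζ : ZZ P m × Z0) : ℂ := phZ t x.1 ζ.1 * φ0 ((t, x.2), ζ.2)

lemma norm_phB {φ0 : (ℝ × X0) × Z0 → ℂ} (h0 : ∀ p, ‖φ0 p‖ = 1) {P m : ℕ} (t : ℝ)
    (x : ZZ P m × X0) (ζ : ZZ P m × Z0) : ‖phB φ0 t x ζ‖ = 1 := by
  unfold phB
  rw [norm_mul, norm_phZ, h0, one_mul]

lemma phZ_meas3' {P m : ℕ} : Measurable fun p : (ZZ P m × ℝ) × ZZ P m => phZ p.1.2 p.1.1 p.2 := by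
  unfold phZ
  have hph : Measurable fun p : (ℂ × ℝ) × ℂ => ph p.1.1 p.1.2 p.2 := by
    have : Continuous fun p : (ℂ × ℝ) × ℂ => ph p.1.1 p.1.2 p.2 := by
      unfold ph
      fun_prop
    exact this.measurable
  refine Measurable.mul (Finset.measurable_prod _ fun i _ => ?_)
    (Finset.measurable_prod _ fun j _ => ?_)
  · have h1 : Measurable fun p : (ZZ P m × ℝ) × ZZ P m => ((p.1.1.1 i, p.1.2), p.2.1 i) := by
      fun_prop
    have h2 := hph.comp h1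
    exact h2
  · have h1 : Measurable fun p : (ZZ P m × ℝ) × ZZ P m =>
        ((((p.1.1.2 j : ℝ) : ℂ), p.1.2), ((p.2.2 j : ℝ) : ℂ)) := by fun_prop
    have h2 := hph.comp h1
    exact h2

lemma phB_meas {φ0 : (ℝ × X0) × Z0 → ℂ} (h0 : Measurable φ0) {P m : ℕ} :
    Measurable fun p : (ℝ × (ZZ P m × X0)) × (ZZ P m × Z0) => phB φ0 p.1.1 p.1.2 p.2 := by
  unfold phB
  have h1 : Measurable fun p : (ℝ × (ZZ P m × X0)) × (ZZ P m × Z0) =>
      ((p.1.2.1, p.1.1), p.2.1) := by fun_prop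
  have h2 : Measurable fun p : (ℝ × (ZZ P m × X0)) × (ZZ P m × Z0) =>
      ((p.1.1, p.1.2.2), p.2.2) := by fun_prop
  have h3 := phZ_meas3'.comp h1
  have h4 := h0.comp h2
  exact h3.mul h4

/-- the extension operator -/
noncomputable def EB (μ0 : Measure Z0) (φ0 : (ℝ × X0) × Z0 → ℂ) {P m : ℕ} (F : ZZ P m × Z0 → ℂ)
    (t : ℝ) (x : ZZ P m × X0) : ℂ :=
  ∫ ζ, F ζ * phB φ0 t x ζ ∂(volume.prod μ0)

lemma EB_meas {μ0 : Measure Z0} [SFinite μ0] {φ0 : (ℝ × X0) × Z0 → ℂ} (h0 : Measurable φ0)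
    {P m : ℕ} {Y : Type*} [MeasurableSpace Y] {G : Y × (ZZ P m × Z0) → ℂ} (hG : Measurable G)
    {t : Y → ℝ} (ht : Measurable t) {x : Y → ZZ P m × X0} (hx : Measurable x) :
    Measurable fun y => EB μ0 φ0 (fun ζ => G (y, ζ)) (t y) (x y) := by
  have h1 : Measurable fun p : Y × (ZZ P m × Z0) => ((t p.1, x p.1), p.2) :=
    ((ht.comp measurable_fst).prodMk (hx.comp measurable_fst)).prodMk measurable_snd
  have h2 := (phB_meas h0).comp h1
  have h3 : Measurable fun p : Y × (ZZ P m × Z0) => G p * phB φ0 (t p.1) (x p.1) p.2 := hG.mul h2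
  exact h3.stronglyMeasurable.integral_prod_right'.measurable

/-- the functions -/
noncomputable def FB {P m : ℕ} (h : (Fin P → ℝ) × Z0 → ℂ)
    (g : Fin P → ℝ × ((Fin P → ℝ) × Z0) → ℂ) (b : Fin m → ℝ × ((Fin P → ℝ) × Z0) → ℂ)
    (ζ : ZZ P m × Z0) : ℂ :=
  h (arP ζ.1.1, ζ.2) * (((∏ p, g p (‖ζ.1.1 p‖ ^ 2, (arP ζ.1.1, ζ.2))) *
    ∏ j, b j (ζ.1.2 j, (arP ζ.1.1, ζ.2))) * GZ ζ.1)

/-- joint measurability -/
lemma FB_meas {Y : Type*} [MeasurableSpace Y] {P m : ℕ} {h : Y × ((Fin P → ℝ) × Z0) → ℂ}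
    (hh : Measurable h) {g : Fin P → Y × (ℝ × ((Fin P → ℝ) × Z0)) → ℂ}
    (hg : ∀ p, Measurable (g p)) {b : Fin m → Y × (ℝ × ((Fin P → ℝ) × Z0)) → ℂ}
    (hb : ∀ j, Measurable (b j)) :
    Measurable fun r : Y × (ZZ P m × Z0) => FB (fun θ => h (r.1, θ)) (fun p v => g p (r.1, v))
      (fun j v => b j (r.1, v)) r.2 := by
  unfold FB
  have ha : Measurable fun r : Y × (ZZ P m × Z0) => (arP r.2.1.1, r.2.2) := by
    have h1 : Measurable fun r : Y × (ZZ P m × Z0) => r.2.1.1 := by fun_prop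
    have h2 : Measurable fun r : Y × (ZZ P m × Z0) => r.2.2 := by fun_prop
    exact (arP_meas.comp h1).prodMk h2
  refine Measurable.mul ?_ (Measurable.mul (Measurable.mul
    (Finset.measurable_prod _ fun i _ => ?_) (Finset.measurable_prod _ fun j _ => ?_)) ?_)
  · have h1 := hh.comp (measurable_fst.prodMk ha)
    exact h1
  · have h2 : Measurable fun r : Y × (ZZ P m × Z0) => ‖r.2.1.1 i‖ ^ 2 := by fun_prop
    have h1 := (hg i).comp (measurable_fst.prodMk (h2.prodMk ha))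
    exact h1
  · have h2 : Measurable fun r : Y × (ZZ P m × Z0) => r.2.1.2 j := by fun_prop
    have h1 := (hb j).comp (measurable_fst.prodMk (h2.prodMk ha))
    exact h1
  · exact GZ_meas.comp (measurable_fst.comp measurable_snd)

lemma FB_meas1 {P m : ℕ} {h : (Fin P → ℝ) × Z0 → ℂ} {g : Fin P → ℝ × ((Fin P → ℝ) × Z0) → ℂ}
    {b : Fin m → ℝ × ((Fin P → ℝ) × Z0) → ℂ} (hh : Measurable h) (hg : ∀ p, Measurable (g p))
    (hb : ∀ j, Measurable (b j)) : Measurable (FB h g b) := by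
  have h1 := FB_meas (Y := Unit) (h := fun p => h p.2) (hh.comp measurable_snd)
    (g := fun p v => g p v.2) (fun p => (hg p).comp measurable_snd)
    (b := fun j v => b j v.2) (fun j => (hb j).comp measurable_snd)
  have h2 := h1.comp (measurable_prodMk_left (x := ()) :
    Measurable fun ζ : ZZ P m × Z0 => ((), ζ))
  exact h2

/-- the pointwise bound -/
lemma FB_bd {P m : ℕ} {h : (Fin P → ℝ) × Z0 → ℂ} {g : Fin P → ℝ × ((Fin P → ℝ) × Z0) → ℂ}
    {b : Fin m → ℝ × ((Fin P → ℝ) × Z0) → ℂ} {N : ℝ} (hN : 0 ≤ N)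
    (hg : ∀ p, PN N (g p)) (hb : ∀ j, PN N (b j)) (ζ : ZZ P m × Z0) :
    ‖FB h g b ζ‖ ≤ (N ^ P * N ^ m) * (‖h (arP ζ.1.1, ζ.2)‖ * ‖GZ ζ.1‖) := by
  unfold FB
  rw [norm_mul, norm_mul, norm_mul, norm_prod, norm_prod]
  have e1 : ∏ p, ‖g p (‖ζ.1.1 p‖ ^ 2, (arP ζ.1.1, ζ.2))‖ ≤ N ^ P := by
    calc _ ≤ ∏ _p : Fin P, N :=
          Finset.prod_le_prod (fun _ _ => norm_nonneg _) fun p _ => (hg p).bdd _
      _ = N ^ P := by simp
  have e2 : ∏ j, ‖b j (ζ.1.2 j, (arP ζ.1.1, ζ.2))‖ ≤ N ^ m := by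
    calc _ ≤ ∏ _j : Fin m, N :=
          Finset.prod_le_prod (fun _ _ => norm_nonneg _) fun j _ => (hb j).bdd _
      _ = N ^ m := by simp
  calc _ ≤ ‖h (arP ζ.1.1, ζ.2)‖ * ((N ^ P * N ^ m) * ‖GZ ζ.1‖) := by
        apply mul_le_mul_of_nonneg_left _ (norm_nonneg _)
        apply mul_le_mul_of_nonneg_right _ (norm_nonneg _)
        exact mul_le_mul e1 e2 (by positivity) (by positivity)
    _ = _ := by ring

lemma FB_bd' {P m : ℕ} {h : (Fin P → ℝ) × Z0 → ℂ} {g : Fin P → ℝ × ((Fin P → ℝ) × Z0) → ℂ}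
    {b : Fin m → ℝ × ((Fin P → ℝ) × Z0) → ℂ} {B N : ℝ} (hN : 0 ≤ N) (hh : ∀ v, ‖h v‖ ≤ B)
    (hg : ∀ p, PN N (g p)) (hb : ∀ j, PN N (b j)) (ζ : ZZ P m × Z0) :
    ‖FB h g b ζ‖ ≤ B * (N ^ P * N ^ m) * ‖GZ ζ.1‖ := by
  refine (FB_bd hN hg hb ζ).trans ?_
  calc _ ≤ (N ^ P * N ^ m) * (B * ‖GZ ζ.1‖) := by
        apply mul_le_mul_of_nonneg_left _ (by positivity)
        exact mul_le_mul_of_nonneg_right (hh _) (norm_nonneg _)
    _ = _ := by ring

lemma GB_int {P m : ℕ} (μ0 : Measure Z0) [IsFiniteMeasure μ0] (K : ℝ) :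
    Integrable (fun ζ : ZZ P m × Z0 => K * ‖GZ ζ.1‖) (volume.prod μ0) := by
  have h1 : Integrable (fun ζ : ZZ P m × Z0 => ‖GZ ζ.1‖ * K) (volume.prod μ0) :=
    (GZ_int.norm).mul_prod (integrable_const K)
  exact h1.congr (Filter.Eventually.of_forall fun ζ => mul_comm _ _)

lemma FB_int {P m : ℕ} {μ0 : Measure Z0} [IsFiniteMeasure μ0] {h : (Fin P → ℝ) × Z0 → ℂ}
    {g : Fin P → ℝ × ((Fin P → ℝ) × Z0) → ℂ}
    {b : Fin m → ℝ × ((Fin P → ℝ) × Z0) → ℂ} {B N : ℝ} (hN : 0 ≤ N) (hm : Measurable h)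
    (hh : ∀ v, ‖h v‖ ≤ B) (hg : ∀ p, PN N (g p)) (hb : ∀ j, PN N (b j)) :
    Integrable (FB h g b) ((volume : Measure (ZZ P m)).prod μ0) := by
  refine (GB_int μ0 (B * (N ^ P * N ^ m))).mono'
    (FB_meas1 hm (fun p => (hg p).pb.meas) fun j => (hb j).pb.meas).aestronglyMeasurable
    (Filter.Eventually.of_forall fun ζ => FB_bd' hN hh hg hb ζ)

lemma cnB_meas {P : ℕ} (a : ℝ) :
    Measurable fun v : (Fin P → ℝ) × Z0 => (cn a v.1, v.2) := by
  have h1 : Measurable fun v : (Fin P → ℝ) × Z0 => (a, v.1) :=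
    measurable_const.prodMk measurable_fst
  have h2 := cn_meas.comp h1
  exact h2.prodMk measurable_snd

/-- the slices -/
lemma PN.sliceB {P : ℕ} {N : ℝ} {g : ℝ × ((Fin (P + 1) → ℝ) × Z0) → ℂ} (hg : PN N g) (a : ℝ) :
    PN N (fun v : ℝ × ((Fin P → ℝ) × Z0) => g (v.1, (cn a v.2.1, v.2.2))) := by
  have hc : Measurable fun v : ℝ × ((Fin P → ℝ) × Z0) => (v.1, (cn a v.2.1, v.2.2)) := by
    have h2 := (cnB_meas (Z0 := Z0) (P := P) a).comp
      (measurable_snd : Measurable fun v : ℝ × ((Fin P → ℝ) × Z0) => v.2)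
    exact measurable_fst.prodMk h2
  refine ⟨⟨?_, fun y => hg.pb.int (cn a y.1, y.2), fun y k => hg.pb.mod (cn a y.1, y.2) k⟩,
    fun p => hg.bdd _⟩
  have h3 := hg.pb.meas.comp hc
  exact h3

end base

end Pool.Agent.T9h83.RAY
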