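import Pool.Agent.T9h83.RAY.TB1
set_option autoImplicit false

/-! The step for planar blocks with weights in time: preparations. -/

namespace Pool.Agent.T9h83.RAY

open Complex MeasureTheory Set
open scoped ENNReal Real ComplexConjugate

section split2

variable {A B C Z : Type} [MeasurableSpace A] [MeasurableSpace B] [MeasurableSpace C]
  [MeasurableSpace Z] {μA : Measure A} {μB : Measure B} {μC : Measure C} [SFinite μA] [SFinite μB]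
  [SFinite μC] {ρ : Measure Z} [SFinite ρ]

lemma lint_split' {e : A × B ≃ᵐ C} (he : MeasurePreserving e (μA.prod μB) μC) {f : C × Z → ℝ≥0∞}
    (hf : Measurable f) :
    ∫⁻ z, f z ∂(μC.prod ρ) = ∫⁻ a, ∫⁻ b, f (e (a, b.1), b.2) ∂(μB.prod ρ) ∂μA := by
  have h1 : Measurable fun p => f (esp Z e p) := hf.comp (esp Z e).measurable
  rw [← (mp_esp (ρ := ρ) he).lintegral_comp_emb (esp Z e).measurableEmbedding,
    lintegral_prod _ h1.aemeasurable]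
  simp_rw [esp_apply]

end split2

instance (P : ℕ) : IsFiniteMeasure (ciP P) := by unfold ciP; infer_instance

section base

variable {Z0 X0 : Type} [MeasurableSpace Z0] [MeasurableSpace X0]

/-- the functions with the first direction split off -/
noncomputable def FFB {P m : ℕ} (h : (Fin (P + 1) → ℝ) × Z0 → ℂ)
    (g : Fin (P + 1) → ℝ × ((Fin (P + 1) → ℝ) × Z0) → ℂ)
    (b : Fin m → ℝ × ((Fin (P + 1) → ℝ) × Z0) → ℂ) (r : ℝ × ℝ × (ZZ P m × Z0)) : ℂ :=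
  FB (fun v => h (cn r.2.1 v.1, v.2) * g 0 (r.1, (cn r.2.1 v.1, v.2)))
    (fun p w => g p.succ (w.1, (cn r.2.1 w.2.1, w.2.2)))
    (fun j w => b j (w.1, (cn r.2.1 w.2.1, w.2.2))) r.2.2

lemma FB_cn {P m : ℕ} (h : (Fin (P + 1) → ℝ) × Z0 → ℂ)
    (g : Fin (P + 1) → ℝ × ((Fin (P + 1) → ℝ) × Z0) → ℂ)
    (b : Fin m → ℝ × ((Fin (P + 1) → ℝ) × Z0) → ℂ) (a : ℂ) (ζ : ZZ P m × Z0) :
    FB h g b ((cn a ζ.1.1, ζ.1.2), ζ.2) = FFB h g b (‖a‖ ^ 2, arg a, ζ) * gs a := by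
  unfold FFB FB
  rw [GZ_cn, arP_cn]
  simp only [Fin.prod_univ_succ, cn_zero, cn_succ]
  ring

lemma FFB_fac {P m : ℕ} (h : (Fin (P + 1) → ℝ) × Z0 → ℂ)
    (g : Fin (P + 1) → ℝ × ((Fin (P + 1) → ℝ) × Z0) → ℂ)
    (b : Fin m → ℝ × ((Fin (P + 1) → ℝ) × Z0) → ℂ) (u a : ℝ) (ζ : ZZ P m × Z0) :
    FFB h g b (u, a, ζ) = g 0 (u, (cn a (arP ζ.1.1), ζ.2)) *
      FB (fun v => h (cn a v.1, v.2)) (fun p w => g p.succ (w.1, (cn a w.2.1, w.2.2)))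
        (fun j w => b j (w.1, (cn a w.2.1, w.2.2))) ζ := by
  unfold FFB FB
  ring

lemma FFB_meas {P m : ℕ} {h : (Fin (P + 1) → ℝ) × Z0 → ℂ} (hh : Measurable h)
    {g : Fin (P + 1) → ℝ × ((Fin (P + 1) → ℝ) × Z0) → ℂ} (hg : ∀ p, Measurable (g p))
    {b : Fin m → ℝ × ((Fin (P + 1) → ℝ) × Z0) → ℂ} (hb : ∀ j, Measurable (b j)) :
    Measurable (FFB h g b) := by
  have c1 : Measurable fun r : (ℝ × ℝ) × ((Fin P → ℝ) × Z0) => (cn r.1.2 r.2.1, r.2.2) := by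
    have a1 : Measurable fun r : (ℝ × ℝ) × ((Fin P → ℝ) × Z0) => (r.1.2, r.2.1) := by fun_prop
    have a2 := cn_meas.comp a1
    have a3 : Measurable fun r : (ℝ × ℝ) × ((Fin P → ℝ) × Z0) => r.2.2 := by fun_prop
    exact a2.prodMk a3
  have c2 : Measurable fun r : (ℝ × ℝ) × (ℝ × ((Fin P → ℝ) × Z0)) =>
      (r.2.1, (cn r.1.2 r.2.2.1, r.2.2.2)) := by
    have a1 : Measurable fun r : (ℝ × ℝ) × (ℝ × ((Fin P → ℝ) × Z0)) => (r.1.2, r.2.2.1) := by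
      fun_prop
    have a2 := cn_meas.comp a1
    have a3 : Measurable fun r : (ℝ × ℝ) × (ℝ × ((Fin P → ℝ) × Z0)) => r.2.1 := by fun_prop
    have a4 : Measurable fun r : (ℝ × ℝ) × (ℝ × ((Fin P → ℝ) × Z0)) => r.2.2.2 := by fun_prop
    exact a3.prodMk (a2.prodMk a4)
  have c3 : Measurable fun r : (ℝ × ℝ) × ((Fin P → ℝ) × Z0) =>
      h (cn r.1.2 r.2.1, r.2.2) * g 0 (r.1.1, (cn r.1.2 r.2.1, r.2.2)) := by
    have a1 : Measurable fun r : (ℝ × ℝ) × ((Fin P → ℝ) × Z0) =>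
        (r.1.1, (cn r.1.2 r.2.1, r.2.2)) := (measurable_fst.comp measurable_fst).prodMk c1
    have a2 := (hg 0).comp a1
    have a3 := hh.comp c1
    exact a3.mul a2
  have h1 := FB_meas (Y := ℝ × ℝ) (P := P) (m := m)
    (h := fun r : (ℝ × ℝ) × ((Fin P → ℝ) × Z0) =>
      h (cn r.1.2 r.2.1, r.2.2) * g 0 (r.1.1, (cn r.1.2 r.2.1, r.2.2))) c3
    (g := fun p r => g p.succ (r.2.1, (cn r.1.2 r.2.2.1, r.2.2.2))) (fun p => (hg p.succ).comp c2)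
    (b := fun j r => b j (r.2.1, (cn r.1.2 r.2.2.1, r.2.2.2))) (fun j => (hb j).comp c2)
  have h2 : Measurable fun r : ℝ × ℝ × (ZZ P m × Z0) => ((r.1, r.2.1), r.2.2) := by fun_prop
  have h3 := h1.comp h2
  exact h3

lemma FFB_Fh {P m : ℕ} (h : (Fin (P + 1) → ℝ) × Z0 → ℂ)
    (g : Fin (P + 1) → ℝ × ((Fin (P + 1) → ℝ) × Z0) → ℂ)
    (b : Fin m → ℝ × ((Fin (P + 1) → ℝ) × Z0) → ℂ) (τ a : ℝ) (ζ : ZZ P m × Z0) :
    Fh (fun u => FFB h g b (u, a, ζ)) τ =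
      FB (fun v => h (cn a v.1, v.2) * Fh (fun u => g 0 (u, (cn a v.1, v.2))) τ)
        (fun p w => g p.succ (w.1, (cn a w.2.1, w.2.2)))
        (fun j w => b j (w.1, (cn a w.2.1, w.2.2))) ζ := by
  simp_rw [FFB_fac]
  rw [Fh_mul]
  unfold FB
  ring

lemma FFB_PS {P m : ℕ} {μ0 : Measure Z0} [IsFiniteMeasure μ0] {h : (Fin (P + 1) → ℝ) × Z0 → ℂ}
    (hm : Measurable h) {B N : ℝ} (hB : 0 ≤ B) (hN : 0 ≤ N)
    (hh : ∀ v, ‖h v‖ ≤ B) {g : Fin (P + 1) → ℝ × ((Fin (P + 1) → ℝ) × Z0) → ℂ}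
    (hg : ∀ p, PN N (g p))
    {b : Fin m → ℝ × ((Fin (P + 1) → ℝ) × Z0) → ℂ} (hb : ∀ j, PN N (b j)) :
    ∃ A : ℝ, 0 ≤ A ∧ PS ((volume : Measure (ZZ P m)).prod μ0) A A (FFB h g b) := by
  set c0 : ℝ := B * (N ^ P * N ^ m) with hc0
  have hc : 0 ≤ c0 := by positivity
  set G1 : ℝ≥0∞ := ∫⁻ ζ : ZZ P m × Z0, ‖GZ ζ.1‖ₑ ∂(volume.prod μ0) with hG1
  have hG1f : G1 ≠ ∞ := by
    have h1 := (GB_int (P := P) (m := m) μ0 1).2
    rw [hasFiniteIntegral_iff_enorm] at h1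
    refine ne_top_of_le_ne_top h1.ne (lintegral_mono fun ζ => ?_)
    simp only [one_mul]
    rw [enorm_norm]
  have hR : ∀ (a : ℝ) (ζ : ZZ P m × Z0), ‖FB (fun v => h (cn a v.1, v.2))
      (fun p w => g p.succ (w.1, (cn a w.2.1, w.2.2)))
      (fun j w => b j (w.1, (cn a w.2.1, w.2.2))) ζ‖ₑ ≤ ENNReal.ofReal c0 * ‖GZ ζ.1‖ₑ := by
    intro a ζ
    have h1 := FB_bd' (h := fun v : (Fin P → ℝ) × Z0 => h (cn a v.1, v.2))
      (g := fun p w => g p.succ (w.1, (cn a w.2.1, w.2.2)))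
      (b := fun j w => b j (w.1, (cn a w.2.1, w.2.2))) (B := B) hN (fun θ => hh _)
      (fun p => (hg p.succ).sliceB a) (fun j => (hb j).sliceB a) ζ
    rw [← ofReal_norm, ← ofReal_norm, ← ENNReal.ofReal_mul hc]
    exact ENNReal.ofReal_le_ofReal h1
  set A : ℝ := N * (c0 * G1.toReal) with hA
  have hA0 : 0 ≤ A := by positivity
  have hfin : ∀ s : ℝ, 0 ≤ s → ENNReal.ofReal s * (ENNReal.ofReal c0 * G1) =
      ENNReal.ofReal (s * (c0 * G1.toReal)) := by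
    intro s hs
    rw [ENNReal.ofReal_mul hs, ENNReal.ofReal_mul hc, ENNReal.ofReal_toReal hG1f]
  have hFm : Measurable (FFB h g b) :=
    FFB_meas hm (fun p => (hg p).pb.meas) fun j => (hb j).pb.meas
  have hca : ∀ a : ℝ, Measurable fun ζ : ZZ P m × Z0 => (cn a (arP ζ.1.1), ζ.2) := by
    intro a
    have a1 : Measurable fun ζ : ZZ P m × Z0 => (arP ζ.1.1, ζ.2) :=
      (arP_meas.comp (measurable_fst.comp measurable_fst)).prodMk measurable_snd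
    have a2 := (cnB_meas (Z0 := Z0) (P := P) a).comp a1
    exact a2
  have hGm : Measurable fun ζ : ZZ P m × Z0 => ENNReal.ofReal c0 * ‖GZ ζ.1‖ₑ :=
    (GZ_meas.comp measurable_fst).enorm.const_mul _
  refine ⟨A, hA0, hFm, ?_, ?_, ?_⟩
  · intro a
    have e1 : ∀ u (ζ : ZZ P m × Z0), ‖FFB h g b (u, a, ζ)‖ₑ ≤
        ‖g 0 (u, (cn a (arP ζ.1.1), ζ.2))‖ₑ * (ENNReal.ofReal c0 * ‖GZ ζ.1‖ₑ) := by
      intro u ζ
      rw [FFB_fac, enorm_mul]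
      exact mul_le_mul' le_rfl (hR a ζ)
    have hmm : Measurable fun p : ℝ × (ZZ P m × Z0) =>
        ‖g 0 (p.1, (cn a (arP p.2.1.1), p.2.2))‖ₑ * (ENNReal.ofReal c0 * ‖GZ p.2.1‖ₑ) := by
      have a1 : Measurable fun p : ℝ × (ZZ P m × Z0) => (p.1, (cn a (arP p.2.1.1), p.2.2)) :=
        measurable_fst.prodMk ((hca a).comp measurable_snd)
      have a2 := ((hg 0).pb.meas.comp a1).enorm
      exact a2.mul (hGm.comp measurable_snd)
    calc ∫⁻ u, ∫⁻ ζ : ZZ P m × Z0, ‖FFB h g b (u, a, ζ)‖ₑ ∂(volume.prod μ0) ≤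
          ∫⁻ u, ∫⁻ ζ : ZZ P m × Z0,
          ‖g 0 (u, (cn a (arP ζ.1.1), ζ.2))‖ₑ * (ENNReal.ofReal c0 * ‖GZ ζ.1‖ₑ)
            ∂(volume.prod μ0) :=
          lintegral_mono fun u => lintegral_mono fun ζ => e1 u ζ
      _ = ∫⁻ ζ : ZZ P m × Z0, (∫⁻ u, ‖g 0 (u, (cn a (arP ζ.1.1), ζ.2))‖ₑ *
            (ENNReal.ofReal c0 * ‖GZ ζ.1‖ₑ)) ∂(volume.prod μ0) :=
          lintegral_lintegral_swap hmm.aemeasurable
      _ ≤ ∫⁻ ζ : ZZ P m × Z0, ENNReal.ofReal N * (ENNReal.ofReal c0 * ‖GZ ζ.1‖ₑ)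
            ∂(volume.prod μ0) := by
          apply lintegral_mono
          intro ζ
          simp only
          rw [lintegral_mul_const' _ _ (ENNReal.mul_ne_top ENNReal.ofReal_ne_top enorm_ne_top)]
          exact mul_le_mul' ((hg 0).pb.int _) le_rfl
      _ = ENNReal.ofReal N * (ENNReal.ofReal c0 * G1) := by
          rw [lintegral_const_mul' _ _ ENNReal.ofReal_ne_top,
            lintegral_const_mul' _ _ ENNReal.ofReal_ne_top]
      _ = _ := hfin N hN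
  · intro a k
    have e1 : ∀ u (ζ : ZZ P m × Z0), ‖FFB h g b (u + k, a, ζ) - FFB h g b (u, a, ζ)‖ₑ ≤
        ‖g 0 (u + k, (cn a (arP ζ.1.1), ζ.2)) - g 0 (u, (cn a (arP ζ.1.1), ζ.2))‖ₑ *
          (ENNReal.ofReal c0 * ‖GZ ζ.1‖ₑ) := by
      intro u ζ
      rw [FFB_fac, FFB_fac, ← sub_mul, enorm_mul]
      exact mul_le_mul' le_rfl (hR a ζ)
    have hmm : Measurable fun p : ℝ × (ZZ P m × Z0) =>
        ‖g 0 (p.1 + k, (cn a (arP p.2.1.1), p.2.2)) - g 0 (p.1, (cn a (arP p.2.1.1), p.2.2))‖ₑ *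
          (ENNReal.ofReal c0 * ‖GZ p.2.1‖ₑ) := by
      have a1 : Measurable fun p : ℝ × (ZZ P m × Z0) => (p.1, (cn a (arP p.2.1.1), p.2.2)) :=
        measurable_fst.prodMk ((hca a).comp measurable_snd)
      have a0 : Measurable fun p : ℝ × (ZZ P m × Z0) => (p.1 + k, (cn a (arP p.2.1.1), p.2.2)) :=
        (measurable_fst.add_const k).prodMk ((hca a).comp measurable_snd)
      have a2 := (((hg 0).pb.meas.comp a0).sub ((hg 0).pb.meas.comp a1)).enorm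
      exact a2.mul (hGm.comp measurable_snd)
    calc ∫⁻ u, ∫⁻ ζ : ZZ P m × Z0, ‖FFB h g b (u + k, a, ζ) - FFB h g b (u, a, ζ)‖ₑ
          ∂(volume.prod μ0) ≤
          ∫⁻ u, ∫⁻ ζ : ZZ P m × Z0,
          ‖g 0 (u + k, (cn a (arP ζ.1.1), ζ.2)) - g 0 (u, (cn a (arP ζ.1.1), ζ.2))‖ₑ *
          (ENNReal.ofReal c0 * ‖GZ ζ.1‖ₑ) ∂(volume.prod μ0) :=
          lintegral_mono fun u => lintegral_mono fun ζ => e1 u ζ
      _ = ∫⁻ ζ : ZZ P m × Z0, (∫⁻ u,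
          ‖g 0 (u + k, (cn a (arP ζ.1.1), ζ.2)) - g 0 (u, (cn a (arP ζ.1.1), ζ.2))‖ₑ *
          (ENNReal.ofReal c0 * ‖GZ ζ.1‖ₑ)) ∂(volume.prod μ0) :=
          lintegral_lintegral_swap hmm.aemeasurable
      _ ≤ ∫⁻ ζ : ZZ P m × Z0, ENNReal.ofReal (N * |k|) * (ENNReal.ofReal c0 * ‖GZ ζ.1‖ₑ)
            ∂(volume.prod μ0) := by
          apply lintegral_mono
          intro ζ
          simp only
          rw [lintegral_mul_const' _ _ (ENNReal.mul_ne_top ENNReal.ofReal_ne_top enorm_ne_top)]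
          exact mul_le_mul' ((hg 0).pb.mod _ k) le_rfl
      _ = ENNReal.ofReal (N * |k|) * (ENNReal.ofReal c0 * G1) := by
          rw [lintegral_const_mul' _ _ ENNReal.ofReal_ne_top,
            lintegral_const_mul' _ _ ENNReal.ofReal_ne_top]
      _ = _ := by
          rw [hfin _ (by positivity)]
          congr 1
          rw [hA]; ring
  · intro u a
    have c1 := cnB_meas (Z0 := Z0) (P := P) a
    have h1 := FB_int (P := P) (m := m) (μ0 := μ0)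
      (h := fun v => h (cn a v.1, v.2) * g 0 (u, (cn a v.1, v.2)))
      (g := fun p w => g p.succ (w.1, (cn a w.2.1, w.2.2)))
      (b := fun j w => b j (w.1, (cn a w.2.1, w.2.2)))
      (B := B * N) hN ?_ ?_ (fun p => (hg p.succ).sliceB a) (fun j => (hb j).sliceB a)
    · exact h1
    · have a2 := (hg 0).pb.meas.comp (measurable_const.prodMk c1 :
        Measurable fun v : (Fin P → ℝ) × Z0 => (u, (cn a v.1, v.2)))
      exact (hm.comp c1).mul a2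
    · intro θ'
      rw [norm_mul]
      exact mul_le_mul (hh _) ((hg 0).bdd _) (norm_nonneg _) hB

lemma phB_cn (φ0 : (ℝ × X0) × Z0 → ℂ) {P m : ℕ} (t : ℝ) (a b : ℂ) (x : ZZ P m × X0)
    (ζ : ZZ P m × Z0) :
    phB (P := P + 1) φ0 t ((cn a x.1.1, x.1.2), x.2) ((cn b ζ.1.1, ζ.1.2), ζ.2) =
      ph a t b * phB φ0 t x ζ := by
  unfold phB
  simp only
  rw [phZ_cn]
  ring

lemma phB_meas1 {φ0 : (ℝ × X0) × Z0 → ℂ} (h0 : Measurable φ0) {P m : ℕ} (t : ℝ) :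
    Measurable fun p : (ZZ P m × X0) × (ZZ P m × Z0) => phB φ0 t p.1 p.2 := by
  have h1 : Measurable fun p : (ZZ P m × X0) × (ZZ P m × Z0) => ((t, p.1), p.2) := by fun_prop
  have h2 := (phB_meas h0).comp h1
  exact h2

lemma phB_meas2 {φ0 : (ℝ × X0) × Z0 → ℂ} (h0 : Measurable φ0) {P m : ℕ} (t : ℝ)
    (x : ZZ P m × X0) : Measurable fun ζ : ZZ P m × Z0 => phB φ0 t x ζ := by
  have h1 : Measurable fun ζ : ZZ P m × Z0 => ((t, x), ζ) := by fun_prop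
  have h2 := (phB_meas h0).comp h1
  exact h2

lemma EB_cn {φ0 : (ℝ × X0) × Z0 → ℂ} (hφ : Measurable φ0) (h0 : ∀ p, ‖φ0 p‖ = 1)
    {μ0 : Measure Z0} [IsFiniteMeasure μ0] {P m : ℕ}
    {h : (Fin (P + 1) → ℝ) × Z0 → ℂ} {g : Fin (P + 1) → ℝ × ((Fin (P + 1) → ℝ) × Z0) → ℂ}
    {b : Fin m → ℝ × ((Fin (P + 1) → ℝ) × Z0) → ℂ}
    (hI : Integrable (FB h g b) (volume.prod μ0)) (t : ℝ) (x : ZZ P m × X0) (x0 : ℂ) :
    EB μ0 φ0 (FB h g b) t ((cn x0 x.1.1, x.1.2), x.2) =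
      EV (fun a => (∫ ζ, FFB h g b (‖a‖ ^ 2, arg a, ζ) * phB φ0 t x ζ ∂(volume.prod μ0)) * gs a)
        x0 t := by
  unfold EB EV
  have hI2 : Integrable (fun ζ : ZZ (P + 1) m × Z0 =>
      FB h g b ζ * phB φ0 t ((cn x0 x.1.1, x.1.2), x.2) ζ) (volume.prod μ0) :=
    hI.mul_bdd (c := 1) (phB_meas2 hφ t _).aestronglyMeasurable
      (Filter.Eventually.of_forall fun ζ => (norm_phB h0 _ _ _).le)
  rw [int_split (mp_ecz P m) hI2]
  simp_rw [ecz_apply]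
  congr 1; funext a
  have e1 : ∀ ζ : ZZ P m × Z0, FB h g b ((cn a ζ.1.1, ζ.1.2), ζ.2) *
      phB φ0 t ((cn x0 x.1.1, x.1.2), x.2) ((cn a ζ.1.1, ζ.1.2), ζ.2) =
      (FFB h g b (‖a‖ ^ 2, arg a, ζ) * phB φ0 t x ζ) * (gs a * ph x0 t a) := by
    intro ζ
    rw [FB_cn, phB_cn]
    ring
  simp_rw [e1]
  rw [integral_mul_const]
  ring

end base

end Pool.Agent.T9h83.RAY
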