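import Pool.Agent.T9h83.RAY.TP2
set_option autoImplicit false

/-! The kernel for a linear block. -/

namespace Pool.Agent.T9h83.RAY

open Complex MeasureTheory Set
open scoped ENNReal Real ComplexConjugate

lemma gg_dec2 {δ : ℝ} (h0 : 0 ≤ δ) (h1 : δ ≤ 2) (t z : ℝ) :
    ‖gg (1 - 2 * I * t) z‖ ≤ 8 * (1 + |t|) ^ (-(1 / 2) + δ) * (1 + |z|) ^ (-δ) := by
  set T : ℝ := 1 + |t| with hT
  have hT0 : 0 < T := by positivity
  have hpi := Real.pi_gt_three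
  set a : ℂ := 1 - 2 * I * t with ha
  have hre : a.re = 1 := by rw [ha]; simp
  have him : a.im = -2 * t := by rw [ha]; simp
  have hns : normSq a = 1 + 4 * t ^ 2 := by rw [normSq_apply, hre, him]; ring
  have hna : T / 2 ≤ ‖a‖ := by
    have e1 : 1 ≤ ‖a‖ := by
      have := abs_re_le_norm a
      rwa [hre, abs_one] at this
    have e2 : 2 * |t| ≤ ‖a‖ := by
      have := abs_im_le_norm a
      rw [him, abs_mul] at this
      simpa using this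
    rw [hT]
    linarith [abs_nonneg t]
  have hna0 : 0 < ‖a‖ := by linarith
  unfold gg
  rw [norm_mul, norm_cpow_half (by rw [hre]; exact one_pos), norm_cexp_div, hre, hns]
  have c1 : Real.sqrt (‖a‖⁻¹) ≤ 2 * T ^ (-(1 / 2) : ℝ) := by
    have e3 : T ^ (-(1 / 2) : ℝ) = Real.sqrt (T⁻¹) := by
      rw [Real.rpow_neg hT0.le, ← Real.sqrt_eq_rpow, Real.sqrt_inv]
    rw [e3, show (2 : ℝ) * Real.sqrt (T⁻¹) = Real.sqrt (4 * T⁻¹) by
      rw [Real.sqrt_mul (by norm_num), show (4 : ℝ) = 2 ^ 2 by norm_num, Real.sqrt_sq (by norm_num)]]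
    apply Real.sqrt_le_sqrt
    rw [inv_le_comm₀ hna0 (by positivity), mul_inv, inv_inv]
    linarith
  set v : ℝ := |z| / T with hv
  have hv0 : 0 ≤ v := by positivity
  have c2 : Real.exp (-π * z ^ 2 * (1 / (1 + 4 * t ^ 2))) ≤ 4 * (1 + v) ^ (-δ) := by
    have e4 : 1 + 4 * t ^ 2 ≤ 4 * T ^ 2 := by
      rw [hT, ← sq_abs t]
      nlinarith [abs_nonneg t]
    have e5 : z ^ 2 = v ^ 2 * T ^ 2 := by
      rw [hv, div_pow, sq_abs]; field_simp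
    have e6 : π / 4 * v ^ 2 ≤ π * z ^ 2 * (1 / (1 + 4 * t ^ 2)) := by
      rw [mul_one_div, le_div_iff₀ (by positivity), e5]
      have : π / 4 * v ^ 2 * (1 + 4 * t ^ 2) ≤ π / 4 * v ^ 2 * (4 * T ^ 2) := by gcongr
      linarith
    have e7 : Real.exp (-π * z ^ 2 * (1 / (1 + 4 * t ^ 2))) ≤ Real.exp (-(π / 4 * v ^ 2)) := by
      apply Real.exp_le_exp.2
      linarith
    have e8 : Real.exp (-(π / 8 * v ^ 2)) ≤ 2 * (1 + v)⁻¹ := by
      rw [Real.exp_neg, ← div_eq_mul_inv, inv_le_comm₀ (Real.exp_pos _) (by positivity), inv_div]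
      have := Real.add_one_le_exp (π / 8 * v ^ 2)
      nlinarith [sq_nonneg (v - 1), sq_nonneg v]
    have e8' : Real.exp (-(π / 4 * v ^ 2)) ≤ 4 * (1 + v) ^ (-(2 : ℝ)) := by
      have e81 : Real.exp (-(π / 4 * v ^ 2)) = Real.exp (-(π / 8 * v ^ 2)) ^ 2 := by
        rw [← Real.exp_nat_mul]
        congr 1
        push_cast
        ring
      have e82 : (1 + v) ^ (-(2 : ℝ)) = ((1 + v)⁻¹) ^ 2 := by
        rw [Real.rpow_neg (by positivity), inv_pow]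
        congr 1
        exact_mod_cast Real.rpow_natCast (1 + v) 2
      rw [e81, e82]
      calc Real.exp (-(π / 8 * v ^ 2)) ^ 2 ≤ (2 * (1 + v)⁻¹) ^ 2 :=
            pow_le_pow_left₀ (Real.exp_pos _).le e8 2
        _ = _ := by ring
    have e9 : (1 + v) ^ (-(2 : ℝ)) ≤ (1 + v) ^ (-δ) :=
      Real.rpow_le_rpow_of_exponent_le (by linarith) (by linarith)
    linarith
  have c3 : (1 + v) ^ (-δ) ≤ T ^ δ * (1 + |z|) ^ (-δ) := by
    have e10 : 1 + v = (T + |z|) / T := by rw [hv]; field_simp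
    have hTz : 0 < T + |z| := by positivity
    rw [e10, Real.rpow_neg (by positivity), Real.div_rpow hTz.le hT0.le, inv_div,
      Real.rpow_neg (by positivity), ← div_eq_mul_inv]
    apply div_le_div_of_nonneg_left (by positivity) (by positivity)
    apply Real.rpow_le_rpow (by positivity) _ h0
    rw [hT]
    linarith [abs_nonneg t]
  calc Real.sqrt (‖a‖⁻¹) * Real.exp (-π * z ^ 2 * (1 / (1 + 4 * t ^ 2))) ≤
        (2 * T ^ (-(1 / 2) : ℝ)) * (4 * (T ^ δ * (1 + |z|) ^ (-δ))) := by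
        apply mul_le_mul c1 (c2.trans _) (Real.exp_pos _).le (by positivity)
        linarith
    _ = 8 * (T ^ (-(1 / 2) : ℝ) * T ^ δ) * (1 + |z|) ^ (-δ) := by ring
    _ = _ := by rw [← Real.rpow_add hT0]

lemma gg_decE {δ : ℝ} (h0 : 0 ≤ δ) (h1 : δ ≤ 2) (t z : ℝ) :
    ‖gg (1 - 2 * I * t) z‖ₑ ≤ ENNReal.ofReal 8 * (jb t ^ (-(1 / 2) + δ) * jb z ^ (-δ)) := by
  rw [← ofReal_norm, jb_rpow, jb_rpow, ← ENNReal.ofReal_mul (by positivity),
    ← ENNReal.ofReal_mul (by positivity)]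
  apply ENNReal.ofReal_le_ofReal
  have := gg_dec2 h0 h1 t z
  linarith

/-- the kernel -/
noncomputable def kL (t y τ : ℝ) : ℝ≥0∞ := jb τ ^ (-1 : ℝ) * ‖gg (1 - 2 * I * t) (y + τ)‖ₑ

lemma kL_meas (t : ℝ) : Measurable fun p : ℝ × ℝ => kL t p.1 p.2 := by
  unfold kL
  have h1 : Measurable fun p : ℝ × ℝ => p.1 + p.2 := by fun_prop
  exact ((jb_meas.comp measurable_snd).pow_const _).mul
    (((gg_cont (1 - 2 * I * t)).measurable.comp h1).enorm)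

lemma wt2 {a b : ℝ≥0∞} (ha : 1 ≤ a) (hb : 1 ≤ b) (ha' : a ≠ ∞) (hb' : b ≠ ∞)
    {e β e' : ℝ} (he : 0 ≤ e) (hβ : 0 ≤ β) (h : e' ≤ e + β) :
    a ^ (-e) * b ^ (-β) ≤ a ^ (-e') + b ^ (-e') := by
  have key : ∀ m : ℝ≥0∞, 1 ≤ m → m ≠ ∞ → m ≤ a → m ≤ b → a ^ (-e) * b ^ (-β) ≤ m ^ (-e') := by
    intro m hm hm' h1 h2
    have hm0 : m ≠ 0 := (lt_of_lt_of_le one_pos hm).ne'
    have f : ∀ {y : ℝ≥0∞} {s : ℝ}, 0 ≤ s → m ≤ y → y ^ (-s) ≤ m ^ (-s) := by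
      intro y s hs hy
      rw [ENNReal.rpow_neg, ENNReal.rpow_neg]
      exact ENNReal.inv_le_inv.2 (ENNReal.rpow_le_rpow hy hs)
    calc a ^ (-e) * b ^ (-β) ≤ m ^ (-e) * m ^ (-β) := mul_le_mul' (f he h1) (f hβ h2)
      _ = m ^ (-(e + β)) := by
          rw [← ENNReal.rpow_add _ _ hm0 hm']
          congr 1; ring
      _ ≤ m ^ (-e') := ENNReal.rpow_le_rpow_of_exponent_le hm (by linarith)
  rcases le_total a b with h1 | h1
  · exact (key a ha ha' le_rfl h1).trans le_self_add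
  · exact (key b hb hb' h1 le_rfl).trans le_add_self

lemma jb_add_int {s : ℝ} (y : ℝ) : ∫⁻ τ, jb (y + τ) ^ (-s) = ∫⁻ τ, jb τ ^ (-s) :=
  lintegral_add_left_eq_self (fun τ : ℝ => jb τ ^ (-s)) y

lemma jb_cancel (t s : ℝ) : jb t ^ (-s) * jb t ^ s = 1 := by
  rw [← ENNReal.rpow_add _ _ (jb_ne_zero _) (jb_ne_top _), neg_add_cancel, ENNReal.rpow_zero]

/-- the mass of the kernel -/
lemma kL_int {η : ℝ} (h0 : 0 ≤ η) (h1 : η ≤ 1 / 4) (t y : ℝ) :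
    ∫⁻ τ, kL t y τ ≤ ENNReal.ofReal 8 * (2 * ∫⁻ τ, jb τ ^ (-(1 + η))) *
      (jb t ^ (-(1 / 2) + 3 * η) * jb y ^ (-η)) := by
  set J : ℝ≥0∞ := ∫⁻ τ, jb τ ^ (-(1 + η)) with hJ
  have hyf : jb y ^ η ≠ ∞ := ENNReal.rpow_ne_top_of_nonneg h0 (jb_ne_top _)
  have hTf : ENNReal.ofReal 8 * jb t ^ (-(1 / 2) + 3 * η) ≠ ∞ := ENNReal.mul_ne_top
    ENNReal.ofReal_ne_top (ENNReal.rpow_ne_top_of_ne_zero (jb_ne_zero _) (jb_ne_top _))
  have e1 : jb y ^ η * ∫⁻ τ, kL t y τ ≤ ENNReal.ofReal 8 * jb t ^ (-(1 / 2) + 3 * η) * (J + J) := by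
    rw [← lintegral_const_mul' _ _ hyf]
    have hpt : ∀ τ, jb y ^ η * kL t y τ ≤ (ENNReal.ofReal 8 * jb t ^ (-(1 / 2) + 3 * η)) *
        (jb τ ^ (-(1 + η)) + jb (y + τ) ^ (-(1 + η))) := by
      intro τ
      unfold kL
      have a1 : jb y ^ η ≤ jb τ ^ η * jb (y + τ) ^ η := by
        rw [← ENNReal.mul_rpow_of_nonneg _ _ h0]
        have := jb_le_mul τ y
        rw [add_comm τ y] at this
        exact ENNReal.rpow_le_rpow this h0
      have a2 := gg_decE (δ := 3 * η) (by linarith) (by linarith) t (y + τ)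
      have a3 : jb τ ^ (-1 : ℝ) * jb τ ^ η = jb τ ^ (-(1 - η)) := by
        rw [← ENNReal.rpow_add _ _ (jb_ne_zero _) (jb_ne_top _)]
        congr 1; ring
      have a4 : jb (y + τ) ^ (-(3 * η)) * jb (y + τ) ^ η = jb (y + τ) ^ (-(2 * η)) := by
        rw [← ENNReal.rpow_add _ _ (jb_ne_zero _) (jb_ne_top _)]
        congr 1; ring
      calc jb y ^ η * (jb τ ^ (-1 : ℝ) * ‖gg (1 - 2 * I * t) (y + τ)‖ₑ) ≤
            (jb τ ^ η * jb (y + τ) ^ η) * (jb τ ^ (-1 : ℝ) * (ENNReal.ofReal 8 *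
              (jb t ^ (-(1 / 2) + 3 * η) * jb (y + τ) ^ (-(3 * η))))) :=
            mul_le_mul' a1 (mul_le_mul' le_rfl a2)
        _ = (ENNReal.ofReal 8 * jb t ^ (-(1 / 2) + 3 * η)) * ((jb τ ^ (-1 : ℝ) * jb τ ^ η) *
              (jb (y + τ) ^ (-(3 * η)) * jb (y + τ) ^ η)) := by ring
        _ = (ENNReal.ofReal 8 * jb t ^ (-(1 / 2) + 3 * η)) * (jb τ ^ (-(1 - η)) *
              jb (y + τ) ^ (-(2 * η))) := by rw [a3, a4]
        _ ≤ _ := mul_le_mul' le_rfl (wt2 (one_le_jb _) (one_le_jb _) (jb_ne_top _) (jb_ne_top _)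
              (by linarith) (by linarith) (by linarith))
    refine (lintegral_mono hpt).trans (le_of_eq ?_)
    have hm : Measurable fun τ => jb τ ^ (-(1 + η)) := jb_meas.pow_const _
    rw [lintegral_const_mul' _ _ hTf, lintegral_add_left hm, jb_add_int]
  calc ∫⁻ τ, kL t y τ = (jb y ^ (-η) * jb y ^ η) * ∫⁻ τ, kL t y τ := by
        rw [jb_cancel, one_mul]
    _ = jb y ^ (-η) * (jb y ^ η * ∫⁻ τ, kL t y τ) := by ring
    _ ≤ jb y ^ (-η) * (ENNReal.ofReal 8 * jb t ^ (-(1 / 2) + 3 * η) * (J + J)) :=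
        mul_le_mul' le_rfl e1
    _ = _ := by ring

/-- the kernel after integration in space -/
lemma kL_W {q : ℝ} (hq : 2 < q) {η : ℝ} (h0 : 0 < η) (h1 : η ≤ 1 / 4) :
    ∃ C : ℝ≥0∞, C ≠ ∞ ∧ ∀ t τ, ∫⁻ y, (∫⁻ τ', kL t y τ') ^ (q - 1) * kL t y τ ≤
      C * (jb t ^ (-((q - 2) / 2 - η * (3 * q - 1))) * jb τ ^ (-(1 + η))) := by
  have hJf := jb_int (s := 1 + η) (by linarith)
  set J : ℝ≥0∞ := ∫⁻ τ, jb τ ^ (-(1 + η)) with hJ
  set C0 : ℝ≥0∞ := ENNReal.ofReal 8 * (2 * J) with hC0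
  have hC0f : C0 ≠ ∞ := ENNReal.mul_ne_top ENNReal.ofReal_ne_top
    (ENNReal.mul_ne_top (by norm_num) hJf)
  have hq1 : 0 ≤ q - 1 := by linarith
  have hK1 : ∀ t y, ∫⁻ τ, kL t y τ ≤ C0 * (jb t ^ (-(1 / 2) + 3 * η) * jb y ^ (-η)) :=
    fun t y => kL_int h0.le h1 t y
  clear_value C0
  refine ⟨C0 ^ (q - 1) * (ENNReal.ofReal 8 * J), ENNReal.mul_ne_top
    (ENNReal.rpow_ne_top_of_nonneg hq1 hC0f) (ENNReal.mul_ne_top ENNReal.ofReal_ne_top hJf), ?_⟩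
  intro t τ
  set a : ℝ := -(1 / 2) + 3 * η with ha
  set b : ℝ := -(1 / 2) + (1 + 2 * η) with hb
  have hpt : ∀ y, (∫⁻ τ', kL t y τ') ^ (q - 1) * kL t y τ ≤
      (C0 ^ (q - 1) * jb t ^ (a * (q - 1)) * jb τ ^ (-(1 + η)) *
        (ENNReal.ofReal 8 * jb t ^ b)) * jb (y + τ) ^ (-(1 + η)) := by
    intro y
    have b1 : (∫⁻ τ', kL t y τ') ^ (q - 1) ≤
        C0 ^ (q - 1) * (jb t ^ (a * (q - 1)) * jb y ^ (-η)) := by
      calc (∫⁻ τ', kL t y τ') ^ (q - 1) ≤ (C0 * (jb t ^ a * jb y ^ (-η))) ^ (q - 1) :=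
            ENNReal.rpow_le_rpow (hK1 t y) hq1
        _ = C0 ^ (q - 1) * (jb t ^ (a * (q - 1)) * jb y ^ (-(η * (q - 1)))) := by
            rw [ENNReal.mul_rpow_of_nonneg _ _ hq1, ENNReal.mul_rpow_of_nonneg _ _ hq1,
              ← ENNReal.rpow_mul, ← ENNReal.rpow_mul, neg_mul]
        _ ≤ _ := mul_le_mul' le_rfl (mul_le_mul' le_rfl (jb_neg_anti (by nlinarith)))
    have b2 : jb y ^ (-η) ≤ jb τ ^ (-η) * jb (y + τ) ^ η := by
      have b3 : jb τ ^ η ≤ jb y ^ η * jb (y + τ) ^ η := by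
        rw [← ENNReal.mul_rpow_of_nonneg _ _ h0.le]
        exact ENNReal.rpow_le_rpow (jb_le_mul y τ) h0.le
      calc jb y ^ (-η) = jb y ^ (-η) * (jb τ ^ (-η) * jb τ ^ η) := by rw [jb_cancel, mul_one]
        _ ≤ jb y ^ (-η) * (jb τ ^ (-η) * (jb y ^ η * jb (y + τ) ^ η)) :=
            mul_le_mul' le_rfl (mul_le_mul' le_rfl b3)
        _ = (jb y ^ (-η) * jb y ^ η) * (jb τ ^ (-η) * jb (y + τ) ^ η) := by ring
        _ = _ := by rw [jb_cancel, one_mul]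
    have b4 := gg_decE (δ := 1 + 2 * η) (by linarith) (by linarith) t (y + τ)
    have b5 : jb (y + τ) ^ η * jb (y + τ) ^ (-(1 + 2 * η)) = jb (y + τ) ^ (-(1 + η)) := by
      rw [← ENNReal.rpow_add _ _ (jb_ne_zero _) (jb_ne_top _)]
      congr 1; ring
    have b6 : jb τ ^ (-η) * jb τ ^ (-1 : ℝ) = jb τ ^ (-(1 + η)) := by
      rw [← ENNReal.rpow_add _ _ (jb_ne_zero _) (jb_ne_top _)]
      congr 1; ring
    calc (∫⁻ τ', kL t y τ') ^ (q - 1) * kL t y τ ≤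
          (C0 ^ (q - 1) * (jb t ^ (a * (q - 1)) * (jb τ ^ (-η) * jb (y + τ) ^ η))) *
            (jb τ ^ (-1 : ℝ) * (ENNReal.ofReal 8 * (jb t ^ b * jb (y + τ) ^ (-(1 + 2 * η))))) := by
          refine mul_le_mul' (b1.trans (mul_le_mul' le_rfl (mul_le_mul' le_rfl b2))) ?_
          unfold kL
          exact mul_le_mul' le_rfl b4
      _ = C0 ^ (q - 1) * jb t ^ (a * (q - 1)) * (jb τ ^ (-η) * jb τ ^ (-1 : ℝ)) *
            (ENNReal.ofReal 8 * jb t ^ b) * (jb (y + τ) ^ η * jb (y + τ) ^ (-(1 + 2 * η))) := by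
          ring
      _ = _ := by rw [b5, b6]
  have hcf : C0 ^ (q - 1) * jb t ^ (a * (q - 1)) * jb τ ^ (-(1 + η)) *
      (ENNReal.ofReal 8 * jb t ^ b) ≠ ∞ := by
    have f : ∀ t s : ℝ, jb t ^ s ≠ ∞ := fun t s =>
      ENNReal.rpow_ne_top_of_ne_zero (jb_ne_zero _) (jb_ne_top _)
    exact ENNReal.mul_ne_top (ENNReal.mul_ne_top (ENNReal.mul_ne_top
      (ENNReal.rpow_ne_top_of_nonneg hq1 hC0f) (f _ _)) (f _ _))
      (ENNReal.mul_ne_top ENNReal.ofReal_ne_top (f _ _))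
  refine (lintegral_mono hpt).trans (le_of_eq ?_)
  rw [lintegral_const_mul' _ _ hcf]
  have e2 : ∫⁻ y, jb (y + τ) ^ (-(1 + η)) = J :=
    lintegral_add_right_eq_self (fun y : ℝ => jb y ^ (-(1 + η))) τ
  rw [e2]
  have e3 : jb t ^ (a * (q - 1)) * jb t ^ b = jb t ^ (-((q - 2) / 2 - η * (3 * q - 1))) := by
    rw [← ENNReal.rpow_add _ _ (jb_ne_zero _) (jb_ne_top _)]
    congr 1; rw [ha, hb]; ring
  rw [← e3]
  ring

end Pool.Agent.T9h83.RAY
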