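import Pool.Agent.T9h83.RAY.TL1
set_option autoImplicit false

/-! Splitting off a linear block. -/

namespace Pool.Agent.T9h83.RAY

open Complex MeasureTheory Set
open scoped ENNReal Real ComplexConjugate

/-- one function -/
lemma lin1q {q : ℝ} (hq : 1 ≤ q) {B A : ℝ} (hA : 0 ≤ A) {φ : ℝ → ℂ}
    (h : Prof B A (fun p : ℝ × ℂ => φ p.1)) (hFm : Measurable fun τ => Fh φ τ) (y t : ℝ) :
    ‖E1 (fun s => φ s * gs (s : ℂ)) y t‖ₑ ^ q ≤
      (∫⁻ τ, kL t y τ) ^ (q - 1) * ∫⁻ τ, kL t y τ * (jb τ ^ q * ‖Fh φ τ‖ₑ ^ q) := by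
  have hq0 : 0 ≤ q := by linarith
  have hkm : Measurable (kL t y) := by
    have h1 : Measurable fun τ : ℝ => (y, τ) := by fun_prop
    have h2 := (kL_meas t).comp h1
    exact h2
  have hgm : Measurable fun τ => jb τ * ‖Fh φ τ‖ₑ := jb_meas.mul hFm.enorm
  have h2 := cutL hA h y t
  have h3 : ∀ τ, ‖Fh φ τ‖ₑ * ‖gg (1 - 2 * I * t) (y + τ)‖ₑ = kL t y τ * (jb τ * ‖Fh φ τ‖ₑ) := by
    intro τ
    have a1 : jb τ ^ (-1 : ℝ) * jb τ = 1 := by
      have := jb_cancel τ 1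
      rwa [ENNReal.rpow_one] at this
    unfold kL
    calc _ = (jb τ ^ (-1 : ℝ) * jb τ) * (‖Fh φ τ‖ₑ * ‖gg (1 - 2 * I * t) (y + τ)‖ₑ) := by
          rw [a1, one_mul]
      _ = _ := by ring
  simp_rw [h3] at h2
  refine (ENNReal.rpow_le_rpow h2 hq0).trans ?_
  refine (wjensen hkm hgm hq).trans (le_of_eq ?_)
  congr 1
  apply lintegral_congr
  intro τ
  rw [ENNReal.mul_rpow_of_nonneg _ _ hq0]

/-- **The abstract step for linear blocks.** -/
theorem linStep {q : ℝ} (hq : 2 < q) {η : ℝ} (hη0 : 0 < η) (hη : η ≤ 1 / 4) :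
    ∃ C : ℝ≥0∞, C ≠ ∞ ∧ ∀ t : ℝ,
      ∀ {Z : Type} [MeasurableSpace Z] {μ : Measure Z} [SFinite μ] {B A : ℝ}
      {F : ℝ × Z → ℂ}, 0 ≤ B → 0 ≤ A → PS μ B A (fun r : ℝ × ℝ × Z => F (r.1, r.2.2)) →
      ∀ {X : Type} [MeasurableSpace X] {ν : Measure X} [SFinite ν] {φ : X × Z → ℂ},
      Measurable φ → (∀ p, ‖φ p‖ ≤ 1) →
      ∫⁻ x, (∫⁻ y, ‖E1 (fun s => (∫ ζ, F (s, ζ) * φ (x, ζ) ∂μ) * gs (s : ℂ)) y t‖ₑ ^ q) ∂ν ≤
        ∫⁻ τ, (C * (jb t ^ (-((q - 2) / 2 - η * (3 * q - 1))) * jb τ ^ (-(1 + η)))) *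
          (jb τ ^ q * ∫⁻ x, ‖∫ ζ, RAY.Fh (fun u => F (u, ζ)) τ * φ (x, ζ) ∂μ‖ₑ ^ q ∂ν) := by
  obtain ⟨C, hC, hW⟩ := kL_W hq hη0 hη
  refine ⟨C, hC, ?_⟩
  intro t Z _ μ _ B A F hB hA hF X _ ν _ φ hφ hb
  have hFm : Measurable F := by
    have h1 : Measurable fun p : ℝ × Z => (p.1, ((0 : ℝ), p.2)) := by fun_prop
    have h2 := hF.meas.comp h1
    exact h2
  set H : X × ℝ → ℝ≥0∞ := fun p =>
    ‖∫ ζ, RAY.Fh (fun u => F (u, ζ)) p.2 * φ (p.1, ζ) ∂μ‖ₑ ^ q with hH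
  have hHm : Measurable H := by
    have a1 : Measurable fun p : ℝ × Z => RAY.Fh (fun u => F (u, p.2)) p.1 :=
      Fh_meas (Y := Z) hFm
    have a2 : Measurable fun r : (X × ℝ) × Z =>
        RAY.Fh (fun u => F (u, r.2)) r.1.2 * φ (r.1.1, r.2) := by
      have b1 : Measurable fun r : (X × ℝ) × Z => (r.1.2, r.2) := by fun_prop
      have b2 : Measurable fun r : (X × ℝ) × Z => (r.1.1, r.2) := by fun_prop
      exact (a1.comp b1).mul (hφ.comp b2)
    exact a2.stronglyMeasurable.integral_prod_right'.measurable.enorm.pow_const q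
  clear_value H
  have s1 : ∀ x y, ‖E1 (fun s => (∫ ζ, F (s, ζ) * φ (x, ζ) ∂μ) * gs (s : ℂ)) y t‖ₑ ^ q ≤
      (∫⁻ τ, kL t y τ) ^ (q - 1) * ∫⁻ τ, kL t y τ * (jb τ ^ q * H (x, τ)) := by
    intro x y
    have hφx : Measurable fun ζ => φ (x, ζ) := hφ.comp measurable_prodMk_left
    have hpb := hF.pb hφx (fun ζ => hb (x, ζ))
    have hpr := hpb.prof (c := fun _ => (0 : ℝ)) measurable_const (fun _ _ _ => rfl)
    have hF1 : ∀ τ, Fh (fun u => ∫ ζ, F (u, ζ) * φ (x, ζ) ∂μ) τ =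
        ∫ ζ, RAY.Fh (fun u => F (u, ζ)) τ * φ (x, ζ) ∂μ := fun τ =>
      hF.Fh hφx (fun ζ => hb (x, ζ)) 0 τ
    have hm1 : Measurable fun τ => Fh (fun u => ∫ ζ, F (u, ζ) * φ (x, ζ) ∂μ) τ := by
      have b1 := Fh_meas hpb.meas
      have b2 : Measurable fun τ : ℝ => (τ, (0 : ℝ)) := by fun_prop
      have b3 := b1.comp b2
      exact b3
    have h4 := lin1q (q := q) (by linarith) hA hpr hm1 y t
    refine h4.trans (le_of_eq ?_)
    congr 1
    apply lintegral_congr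
    intro τ
    rw [hF1, hH]
  refine (lintegral_mono fun x => lintegral_mono fun y => s1 x y).trans ?_
  have hkm := kL_meas t
  have hkty : ∀ y, Measurable (kL t y) := by
    intro y
    have h1 : Measurable fun τ : ℝ => (y, τ) := by fun_prop
    have h2 := hkm.comp h1
    exact h2
  have hk1 : Measurable fun y => (∫⁻ τ, kL t y τ) ^ (q - 1) :=
    (hkm.lintegral_prod_right' (ν := volume)).pow_const _
  have hkyτ : ∀ τ, Measurable fun y => kL t y τ := by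
    intro τ
    have h1 : Measurable fun y : ℝ => (y, τ) := by fun_prop
    have h2 := hkm.comp h1
    exact h2
  have hjq : Measurable fun τ => jb τ ^ q := jb_meas.pow_const q
  have hHx : ∀ x, Measurable fun τ => H (x, τ) := fun x => hHm.comp measurable_prodMk_left
  have hHτ : ∀ τ, Measurable fun x => H (x, τ) := fun τ => hHm.comp measurable_prodMk_right
  -- the integral in `y`
  have s2 : ∀ x, ∫⁻ y, (∫⁻ τ, kL t y τ) ^ (q - 1) * ∫⁻ τ, kL t y τ * (jb τ ^ q * H (x, τ)) ≤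
      ∫⁻ τ, (C * (jb t ^ (-((q - 2) / 2 - η * (3 * q - 1))) * jb τ ^ (-(1 + η)))) *
        (jb τ ^ q * H (x, τ)) := by
    intro x
    have e1 : ∀ y, (∫⁻ τ, kL t y τ) ^ (q - 1) * ∫⁻ τ, kL t y τ * (jb τ ^ q * H (x, τ)) =
        ∫⁻ τ, ((∫⁻ τ', kL t y τ') ^ (q - 1) * kL t y τ) * (jb τ ^ q * H (x, τ)) := by
      intro y
      have hmm : Measurable fun τ => kL t y τ * (jb τ ^ q * H (x, τ)) :=
        (hkty y).mul (hjq.mul (hHx x))
      rw [← lintegral_const_mul _ hmm]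
      apply lintegral_congr
      intro τ
      ring
    simp_rw [e1]
    rw [lintegral_lintegral_swap]
    · apply lintegral_mono
      intro τ
      simp only
      have hmm : Measurable fun y => (∫⁻ τ', kL t y τ') ^ (q - 1) * kL t y τ := hk1.mul (hkyτ τ)
      rw [lintegral_mul_const _ hmm]
      exact mul_le_mul' (hW t τ) le_rfl
    · exact (((hk1.comp measurable_fst).mul hkm).mul
        ((hjq.comp measurable_snd).mul ((hHx x).comp measurable_snd))).aemeasurable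
  refine (lintegral_mono s2).trans (le_of_eq ?_)
  rw [lintegral_lintegral_swap]
  · apply lintegral_congr
    intro τ
    rw [lintegral_const_mul _ ((hHτ τ).const_mul _), lintegral_const_mul _ (hHτ τ)]
    rw [hH]
  · exact ((((jb_meas.pow_const _).const_mul _).const_mul C).comp measurable_snd).mul
      ((hjq.comp measurable_snd).mul hHm) |>.aemeasurable

end Pool.Agent.T9h83.RAY
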