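import Pool.Agent.T9h83.RAY.TL2
set_option autoImplicit false

/-! The step for linear blocks with weights in time: preparations. -/

namespace Pool.Agent.T9h83.RAY

open Complex MeasureTheory Set
open scoped ENNReal Real ComplexConjugate

lemma GZ_cnl {P m : ℕ} (s : ℝ) (ζ : ZZ P m) :
    GZ ((ζ.1, cn s ζ.2) : ZZ P (m + 1)) = gs (s : ℂ) * GZ ζ := by
  unfold GZ
  simp only [Fin.prod_univ_succ, cn_zero, cn_succ]
  ring

lemma phZ_cnl {P m : ℕ} (t : ℝ) (a b : ℝ) (x ζ : ZZ P m) :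
    phZ (P := P) (m := m + 1) t (x.1, cn a x.2) (ζ.1, cn b ζ.2) =
      ph (a : ℂ) t (b : ℂ) * phZ t x ζ := by
  unfold phZ
  simp only [Fin.prod_univ_succ, cn_zero, cn_succ]
  ring

section base

variable {Z0 X0 : Type} [MeasurableSpace Z0] [MeasurableSpace X0]

/-- the functions with the first linear block split off -/
noncomputable def FLB {P m : ℕ} (h : (Fin P → ℝ) × Z0 → ℂ)
    (g : Fin P → ℝ × ((Fin P → ℝ) × Z0) → ℂ)
    (b : Fin (m + 1) → ℝ × ((Fin P → ℝ) × Z0) → ℂ) (r : ℝ × (ZZ P m × Z0)) : ℂ :=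
  FB (fun v => h v * b 0 (r.1, v)) g (fun j => b j.succ) r.2

lemma FB_cnl {P m : ℕ} (h : (Fin P → ℝ) × Z0 → ℂ)
    (g : Fin P → ℝ × ((Fin P → ℝ) × Z0) → ℂ)
    (b : Fin (m + 1) → ℝ × ((Fin P → ℝ) × Z0) → ℂ) (s : ℝ) (ζ : ZZ P m × Z0) :
    FB h g b ((ζ.1.1, cn s ζ.1.2), ζ.2) = FLB h g b (s, ζ) * gs (s : ℂ) := by
  unfold FLB FB
  rw [GZ_cnl]
  simp only [Fin.prod_univ_succ, cn_zero, cn_succ]
  ring

lemma FLB_fac {P m : ℕ} (h : (Fin P → ℝ) × Z0 → ℂ)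
    (g : Fin P → ℝ × ((Fin P → ℝ) × Z0) → ℂ)
    (b : Fin (m + 1) → ℝ × ((Fin P → ℝ) × Z0) → ℂ) (s : ℝ) (ζ : ZZ P m × Z0) :
    FLB h g b (s, ζ) = b 0 (s, (arP ζ.1.1, ζ.2)) * FB h g (fun j => b j.succ) ζ := by
  unfold FLB FB
  ring

lemma FLB_meas {P m : ℕ} {h : (Fin P → ℝ) × Z0 → ℂ} (hh : Measurable h)
    {g : Fin P → ℝ × ((Fin P → ℝ) × Z0) → ℂ} (hg : ∀ p, Measurable (g p))
    {b : Fin (m + 1) → ℝ × ((Fin P → ℝ) × Z0) → ℂ} (hb : ∀ j, Measurable (b j)) :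
    Measurable (FLB h g b) := by
  have c3 : Measurable fun r : ℝ × ((Fin P → ℝ) × Z0) => h r.2 * b 0 (r.1, r.2) :=
    (hh.comp measurable_snd).mul (hb 0)
  have h1 := FB_meas (Y := ℝ) (P := P) (m := m)
    (h := fun r : ℝ × ((Fin P → ℝ) × Z0) => h r.2 * b 0 (r.1, r.2)) c3
    (g := fun p r => g p r.2) (fun p => (hg p).comp measurable_snd)
    (b := fun j r => b j.succ r.2) (fun j => (hb j.succ).comp measurable_snd)
  exact h1

lemma FLB_Fh {P m : ℕ} (h : (Fin P → ℝ) × Z0 → ℂ)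
    (g : Fin P → ℝ × ((Fin P → ℝ) × Z0) → ℂ)
    (b : Fin (m + 1) → ℝ × ((Fin P → ℝ) × Z0) → ℂ) (τ : ℝ) (ζ : ZZ P m × Z0) :
    Fh (fun u => FLB h g b (u, ζ)) τ =
      FB (fun v => h v * Fh (fun u => b 0 (u, v)) τ) g (fun j => b j.succ) ζ := by
  simp_rw [FLB_fac]
  rw [Fh_mul]
  unfold FB
  ring

lemma FLB_PS {P m : ℕ} {μ0 : Measure Z0} [IsFiniteMeasure μ0] {h : (Fin P → ℝ) × Z0 → ℂ}
    (hm : Measurable h) {B N : ℝ} (hB : 0 ≤ B) (hN : 0 ≤ N)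
    (hh : ∀ v, ‖h v‖ ≤ B) {g : Fin P → ℝ × ((Fin P → ℝ) × Z0) → ℂ}
    (hg : ∀ p, PN N (g p))
    {b : Fin (m + 1) → ℝ × ((Fin P → ℝ) × Z0) → ℂ} (hb : ∀ j, PN N (b j)) :
    ∃ A : ℝ, 0 ≤ A ∧ PS ((volume : Measure (ZZ P m)).prod μ0) A A
      (fun r : ℝ × ℝ × (ZZ P m × Z0) => FLB h g b (r.1, r.2.2)) := by
  set c0 : ℝ := B * (N ^ P * N ^ m) with hc0
  have hc : 0 ≤ c0 := by positivity
  set G1 : ℝ≥0∞ := ∫⁻ ζ : ZZ P m × Z0, ‖GZ ζ.1‖ₑ ∂(volume.prod μ0) with hG1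
  have hG1f : G1 ≠ ∞ := by
    have h1 := (GB_int (P := P) (m := m) μ0 1).2
    rw [hasFiniteIntegral_iff_enorm] at h1
    refine ne_top_of_le_ne_top h1.ne (lintegral_mono fun ζ => ?_)
    simp only [one_mul]
    rw [enorm_norm]
  have hR : ∀ (ζ : ZZ P m × Z0), ‖FB h g (fun j => b j.succ) ζ‖ₑ ≤
      ENNReal.ofReal c0 * ‖GZ ζ.1‖ₑ := by
    intro ζ
    have h1 := FB_bd' (B := B) hN hh hg (fun j => hb j.succ) ζ
    rw [← ofReal_norm, ← ofReal_norm, ← ENNReal.ofReal_mul hc]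
    exact ENNReal.ofReal_le_ofReal h1
  set A : ℝ := N * (c0 * G1.toReal) with hA
  have hA0 : 0 ≤ A := by positivity
  have hfin : ∀ s : ℝ, 0 ≤ s → ENNReal.ofReal s * (ENNReal.ofReal c0 * G1) =
      ENNReal.ofReal (s * (c0 * G1.toReal)) := by
    intro s hs
    rw [ENNReal.ofReal_mul hs, ENNReal.ofReal_mul hc, ENNReal.ofReal_toReal hG1f]
  have hFm : Measurable (FLB h g b) :=
    FLB_meas hm (fun p => (hg p).pb.meas) fun j => (hb j).pb.meas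
  have hca : Measurable fun ζ : ZZ P m × Z0 => (arP ζ.1.1, ζ.2) :=
    (arP_meas.comp (measurable_fst.comp measurable_fst)).prodMk measurable_snd
  have hGm : Measurable fun ζ : ZZ P m × Z0 => ENNReal.ofReal c0 * ‖GZ ζ.1‖ₑ :=
    (GZ_meas.comp measurable_fst).enorm.const_mul _
  refine ⟨A, hA0, ?_, ?_, ?_, ?_⟩
  · have b1 : Measurable fun r : ℝ × ℝ × (ZZ P m × Z0) => (r.1, r.2.2) := by fun_prop
    have b2 := hFm.comp b1
    exact b2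
  · intro a
    simp only
    have e1 : ∀ u (ζ : ZZ P m × Z0), ‖FLB h g b (u, ζ)‖ₑ ≤
        ‖b 0 (u, (arP ζ.1.1, ζ.2))‖ₑ * (ENNReal.ofReal c0 * ‖GZ ζ.1‖ₑ) := by
      intro u ζ
      rw [FLB_fac, enorm_mul]
      exact mul_le_mul' le_rfl (hR ζ)
    have hmm : Measurable fun p : ℝ × (ZZ P m × Z0) =>
        ‖b 0 (p.1, (arP p.2.1.1, p.2.2))‖ₑ * (ENNReal.ofReal c0 * ‖GZ p.2.1‖ₑ) := by
      have a1 : Measurable fun p : ℝ × (ZZ P m × Z0) => (p.1, (arP p.2.1.1, p.2.2)) :=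
        measurable_fst.prodMk (hca.comp measurable_snd)
      have a2 := ((hb 0).pb.meas.comp a1).enorm
      exact a2.mul (hGm.comp measurable_snd)
    calc ∫⁻ u, ∫⁻ ζ : ZZ P m × Z0, ‖FLB h g b (u, ζ)‖ₑ ∂(volume.prod μ0) ≤
          ∫⁻ u, ∫⁻ ζ : ZZ P m × Z0,
          ‖b 0 (u, (arP ζ.1.1, ζ.2))‖ₑ * (ENNReal.ofReal c0 * ‖GZ ζ.1‖ₑ)
            ∂(volume.prod μ0) :=
          lintegral_mono fun u => lintegral_mono fun ζ => e1 u ζ
      _ = ∫⁻ ζ : ZZ P m × Z0, (∫⁻ u, ‖b 0 (u, (arP ζ.1.1, ζ.2))‖ₑ *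
            (ENNReal.ofReal c0 * ‖GZ ζ.1‖ₑ)) ∂(volume.prod μ0) :=
          lintegral_lintegral_swap hmm.aemeasurable
      _ ≤ ∫⁻ ζ : ZZ P m × Z0, ENNReal.ofReal N * (ENNReal.ofReal c0 * ‖GZ ζ.1‖ₑ)
            ∂(volume.prod μ0) := by
          apply lintegral_mono
          intro ζ
          simp only
          rw [lintegral_mul_const' _ _ (ENNReal.mul_ne_top ENNReal.ofReal_ne_top enorm_ne_top)]
          exact mul_le_mul' ((hb 0).pb.int _) le_rfl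
      _ = ENNReal.ofReal N * (ENNReal.ofReal c0 * G1) := by
          rw [lintegral_const_mul' _ _ ENNReal.ofReal_ne_top,
            lintegral_const_mul' _ _ ENNReal.ofReal_ne_top]
      _ = _ := hfin N hN
  · intro a k
    simp only
    have e1 : ∀ u (ζ : ZZ P m × Z0), ‖FLB h g b (u + k, ζ) - FLB h g b (u, ζ)‖ₑ ≤
        ‖b 0 (u + k, (arP ζ.1.1, ζ.2)) - b 0 (u, (arP ζ.1.1, ζ.2))‖ₑ *
          (ENNReal.ofReal c0 * ‖GZ ζ.1‖ₑ) := by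
      intro u ζ
      rw [FLB_fac, FLB_fac, ← sub_mul, enorm_mul]
      exact mul_le_mul' le_rfl (hR ζ)
    have hmm : Measurable fun p : ℝ × (ZZ P m × Z0) =>
        ‖b 0 (p.1 + k, (arP p.2.1.1, p.2.2)) - b 0 (p.1, (arP p.2.1.1, p.2.2))‖ₑ *
          (ENNReal.ofReal c0 * ‖GZ p.2.1‖ₑ) := by
      have a1 : Measurable fun p : ℝ × (ZZ P m × Z0) => (p.1, (arP p.2.1.1, p.2.2)) :=
        measurable_fst.prodMk (hca.comp measurable_snd)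
      have a0 : Measurable fun p : ℝ × (ZZ P m × Z0) => (p.1 + k, (arP p.2.1.1, p.2.2)) :=
        (measurable_fst.add_const k).prodMk (hca.comp measurable_snd)
      have a2 := (((hb 0).pb.meas.comp a0).sub ((hb 0).pb.meas.comp a1)).enorm
      exact a2.mul (hGm.comp measurable_snd)
    calc ∫⁻ u, ∫⁻ ζ : ZZ P m × Z0, ‖FLB h g b (u + k, ζ) - FLB h g b (u, ζ)‖ₑ
          ∂(volume.prod μ0) ≤
          ∫⁻ u, ∫⁻ ζ : ZZ P m × Z0,
          ‖b 0 (u + k, (arP ζ.1.1, ζ.2)) - b 0 (u, (arP ζ.1.1, ζ.2))‖ₑ *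
          (ENNReal.ofReal c0 * ‖GZ ζ.1‖ₑ) ∂(volume.prod μ0) :=
          lintegral_mono fun u => lintegral_mono fun ζ => e1 u ζ
      _ = ∫⁻ ζ : ZZ P m × Z0, (∫⁻ u,
          ‖b 0 (u + k, (arP ζ.1.1, ζ.2)) - b 0 (u, (arP ζ.1.1, ζ.2))‖ₑ *
          (ENNReal.ofReal c0 * ‖GZ ζ.1‖ₑ)) ∂(volume.prod μ0) :=
          lintegral_lintegral_swap hmm.aemeasurable
      _ ≤ ∫⁻ ζ : ZZ P m × Z0, ENNReal.ofReal (N * |k|) * (ENNReal.ofReal c0 * ‖GZ ζ.1‖ₑ)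
            ∂(volume.prod μ0) := by
          apply lintegral_mono
          intro ζ
          simp only
          rw [lintegral_mul_const' _ _ (ENNReal.mul_ne_top ENNReal.ofReal_ne_top enorm_ne_top)]
          exact mul_le_mul' ((hb 0).pb.mod _ k) le_rfl
      _ = ENNReal.ofReal (N * |k|) * (ENNReal.ofReal c0 * G1) := by
          rw [lintegral_const_mul' _ _ ENNReal.ofReal_ne_top,
            lintegral_const_mul' _ _ ENNReal.ofReal_ne_top]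
      _ = _ := by
          rw [hfin _ (by positivity)]
          congr 1
          rw [hA]; ring
  · intro u a
    have h1 := FB_int (P := P) (m := m) (μ0 := μ0)
      (h := fun v => h v * b 0 (u, v)) (g := g) (b := fun j => b j.succ)
      (B := B * N) hN ?_ ?_ hg (fun j => hb j.succ)
    · exact h1
    · have a2 := (hb 0).pb.meas.comp (measurable_prodMk_left (x := u) :
        Measurable fun v : (Fin P → ℝ) × Z0 => (u, v))
      exact hm.mul a2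
    · intro θ'
      rw [norm_mul]
      exact mul_le_mul (hh _) ((hb 0).bdd _) (norm_nonneg _) hB

lemma phB_cnl (φ0 : (ℝ × X0) × Z0 → ℂ) {P m : ℕ} (t : ℝ) (a b : ℝ) (x : ZZ P m × X0)
    (ζ : ZZ P m × Z0) :
    phB (P := P) (m := m + 1) φ0 t ((x.1.1, cn a x.1.2), x.2) ((ζ.1.1, cn b ζ.1.2), ζ.2) =
      ph (a : ℂ) t (b : ℂ) * phB φ0 t x ζ := by
  unfold phB
  simp only
  rw [phZ_cnl]
  ring

lemma EB_cnl {φ0 : (ℝ × X0) × Z0 → ℂ} (hφ : Measurable φ0) (h0 : ∀ p, ‖φ0 p‖ = 1)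
    {μ0 : Measure Z0} [IsFiniteMeasure μ0] {P m : ℕ}
    {h : (Fin P → ℝ) × Z0 → ℂ} {g : Fin P → ℝ × ((Fin P → ℝ) × Z0) → ℂ}
    {b : Fin (m + 1) → ℝ × ((Fin P → ℝ) × Z0) → ℂ}
    (hI : Integrable (FB h g b) (volume.prod μ0)) (t : ℝ) (x : ZZ P m × X0) (y : ℝ) :
    EB μ0 φ0 (FB h g b) t ((x.1.1, cn y x.1.2), x.2) =
      E1 (fun s => (∫ ζ, FLB h g b (s, ζ) * phB φ0 t x ζ ∂(volume.prod μ0)) * gs (s : ℂ))
        y t := by
  unfold EB E1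
  have hI2 : Integrable (fun ζ : ZZ P (m + 1) × Z0 =>
      FB h g b ζ * phB φ0 t ((x.1.1, cn y x.1.2), x.2) ζ) (volume.prod μ0) :=
    hI.mul_bdd (c := 1) (phB_meas2 hφ t _).aestronglyMeasurable
      (Filter.Eventually.of_forall fun ζ => (norm_phB h0 _ _ _).le)
  rw [int_split (mp_ecl P m) hI2]
  simp_rw [ecl_apply]
  congr 1; funext s
  have e1 : ∀ ζ : ZZ P m × Z0, FB h g b ((ζ.1.1, cn s ζ.1.2), ζ.2) *
      phB φ0 t ((x.1.1, cn y x.1.2), x.2) ((ζ.1.1, cn s ζ.1.2), ζ.2) =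
      (FLB h g b (s, ζ) * phB φ0 t x ζ) * (gs (s : ℂ) * ph (y : ℂ) t (s : ℂ)) := by
    intro ζ
    rw [FB_cnl, phB_cnl]
    ring
  simp_rw [e1]
  rw [integral_mul_const]
  ring

end base

end Pool.Agent.T9h83.RAY
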