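import Pool.Agent.T9h83.RAY.TL3
set_option autoImplicit false

/-! The step for linear blocks with weights in time. -/

namespace Pool.Agent.T9h83.RAY

open Complex MeasureTheory Set
open scoped ENNReal Real ComplexConjugate

section base

variable {Z0 X0 : Type} [MeasurableSpace Z0] [MeasurableSpace X0] {P : ℕ} {N : ℝ}
  {μ0 : Measure Z0} [IsFiniteMeasure μ0]
  {ν0 : Measure X0} [SFinite ν0] {φ0 : (ℝ × X0) × Z0 → ℂ} {m : ℕ}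

/-- the new coefficient -/
noncomputable def hL (h : (Fin P → ℝ) × Z0 → ℂ)
    (b0 : ℝ × ((Fin P → ℝ) × Z0) → ℂ) (τ : ℝ) (v : (Fin P → ℝ) × Z0) : ℂ :=
  h v * Fh (fun u => b0 (u, v)) τ

lemma hL_meas {Y : Type*} [MeasurableSpace Y] {τ : Y → ℝ} (hτ : Measurable τ)
    {h : (Fin P → ℝ) × Z0 → ℂ} (hh : Measurable h)
    {b0 : ℝ × ((Fin P → ℝ) × Z0) → ℂ} (hb : Measurable b0) :
    Measurable fun r : Y × ((Fin P → ℝ) × Z0) => hL h b0 (τ r.1) r.2 := by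
  unfold hL
  have a1 := hh.comp (measurable_snd : Measurable fun r : Y × ((Fin P → ℝ) × Z0) => r.2)
  have a2 : Measurable fun r : Y × ((Fin P → ℝ) × Z0) => (τ r.1, r.2) :=
    (hτ.comp measurable_fst).prodMk measurable_snd
  have a3 := (Fh_meas hb).comp a2
  exact a1.mul a3

lemma hL_bd (hN : 0 ≤ N) {h : (Fin P → ℝ) × Z0 → ℂ} {B : ℝ} (hB0 : 0 ≤ B)
    (hB : ∀ v, ‖h v‖ ≤ B)
    {b0 : ℝ × ((Fin P → ℝ) × Z0) → ℂ} (hb : PN N b0) (τ : ℝ) (v : (Fin P → ℝ) × Z0) :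
    ‖hL h b0 τ v‖ ≤ B * N := by
  unfold hL
  rw [norm_mul]
  refine mul_le_mul (hB _) ?_ (norm_nonneg _) hB0
  have h3 := Fh_bd0 hb.pb v τ
  rw [← ofReal_norm] at h3
  exact (ENNReal.ofReal_le_ofReal_iff hN).1 h3

lemma hL_q {q : ℝ} (hq0 : 0 < q) (hN : 0 ≤ N) (h : (Fin P → ℝ) × Z0 → ℂ)
    {b0 : ℝ × ((Fin P → ℝ) × Z0) → ℂ} (hb : PN N b0) (τ : ℝ) (v : (Fin P → ℝ) × Z0) :
    jb τ ^ q * ‖hL h b0 τ v‖ₑ ^ q ≤ ENNReal.ofReal (2 * N) ^ q * ‖h v‖ₑ ^ q := by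
  unfold hL
  rw [enorm_mul, ENNReal.mul_rpow_of_nonneg _ _ hq0.le, ← mul_assoc, mul_comm,
    ← mul_assoc, ← ENNReal.mul_rpow_of_nonneg _ _ hq0.le]
  refine mul_le_mul' (ENNReal.rpow_le_rpow ?_ hq0.le) le_rfl
  have h5 := Fh_bd hN hN hb.pb v τ
  rw [← ofReal_norm]
  unfold jb
  rw [← ENNReal.ofReal_mul (norm_nonneg _)]
  apply ENNReal.ofReal_le_ofReal
  linarith

/-- the integral of the new coefficient -/
lemma hL_int {q : ℝ} (hq0 : 0 < q) (hN : 0 ≤ N) (h : (Fin P → ℝ) × Z0 → ℂ)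
    {b0 : ℝ × ((Fin P → ℝ) × Z0) → ℂ} (hb : PN N b0) (C2 : ℝ≥0∞) (τ : ℝ) :
    jb τ ^ q * ∫⁻ _θ : Unit, 3 * (C2 * ∫⁻ v, ‖hL h b0 τ v‖ₑ ^ q ∂((ciP P).prod μ0))
      ∂(Measure.dirac ()) ≤
      3 * (C2 * ENNReal.ofReal (2 * N) ^ q) * ∫⁻ v, ‖h v‖ₑ ^ q ∂((ciP P).prod μ0) := by
  have hjq : jb τ ^ q ≠ ∞ := ENNReal.rpow_ne_top_of_nonneg hq0.le (jb_ne_top _)
  have h2N : ENNReal.ofReal (2 * N) ^ q ≠ ∞ :=
    ENNReal.rpow_ne_top_of_nonneg hq0.le ENNReal.ofReal_ne_top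
  rw [lintegral_dirac]
  calc jb τ ^ q * (3 * (C2 * ∫⁻ v, ‖hL h b0 τ v‖ₑ ^ q ∂((ciP P).prod μ0))) =
        3 * (C2 * ∫⁻ v, jb τ ^ q * ‖hL h b0 τ v‖ₑ ^ q ∂((ciP P).prod μ0)) := by
        rw [lintegral_const_mul' _ _ hjq]; ring
    _ ≤ 3 * (C2 * ∫⁻ v : (Fin P → ℝ) × Z0,
          ENNReal.ofReal (2 * N) ^ q * ‖h v‖ₑ ^ q ∂((ciP P).prod μ0)) :=
        mul_le_mul' le_rfl (mul_le_mul' le_rfl (lintegral_mono fun v => hL_q hq0 hN h hb τ v))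
    _ = _ := by
        rw [lintegral_const_mul' _ _ h2N]; ring

/-- the integrals at a fixed time -/
noncomputable def GLn (μ0 : Measure Z0) (ν0 : Measure X0) (φ0 : (ℝ × X0) × Z0 → ℂ) (q : ℝ)
    (h : (Fin P → ℝ) × Z0 → ℂ)
    (g : Fin P → ℝ × ((Fin P → ℝ) × Z0) → ℂ)
    (b : Fin (m + 1) → ℝ × ((Fin P → ℝ) × Z0) → ℂ) (r : (ℝ × ℝ) × Unit) : ℝ≥0∞ :=
  ∫⁻ x, ‖EB μ0 φ0 (FB (hL h (b 0) r.1.2) g (fun j => b j.succ)) r.1.1 x‖ₑ ^ q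
    ∂(volume.prod ν0)

lemma GLn_meas (hφ : Measurable φ0) (q : ℝ) {h : (Fin P → ℝ) × Z0 → ℂ} (hh : Measurable h)
    {g : Fin P → ℝ × ((Fin P → ℝ) × Z0) → ℂ} (hg : ∀ p, Measurable (g p))
    {b : Fin (m + 1) → ℝ × ((Fin P → ℝ) × Z0) → ℂ} (hb : ∀ j, Measurable (b j)) :
    Measurable (GLn μ0 ν0 φ0 q h g b) := by
  unfold GLn
  have hτ : Measurable fun y : ((ℝ × ℝ) × Unit) × (ZZ P m × X0) => y.1.1.2 := by fun_prop
  have h1 := FB_meas (m := m) (hL_meas hτ hh (hb 0))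
    (g := fun (p : Fin P) r => g p r.2) (fun p => (hg p).comp measurable_snd)
    (b := fun j r => b j.succ r.2) (fun j => (hb j.succ).comp measurable_snd)
  have ht : Measurable fun y : ((ℝ × ℝ) × Unit) × (ZZ P m × X0) => y.1.1.1 := by fun_prop
  have h2 := (EB_meas (μ0 := μ0) hφ h1 ht (measurable_snd :
    Measurable fun y : ((ℝ × ℝ) × Unit) × (ZZ P m × X0) => y.2)).enorm.pow_const q
  have h3 := h2.lintegral_prod_right' (ν := (volume : Measure (ZZ P m)).prod ν0)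
  exact h3

/-- the estimate at a fixed time -/
lemma fixL (hφ : Measurable φ0) (h0 : ∀ p, ‖φ0 p‖ = 1) {q : ℝ} {k : ℝ × ℝ → ℝ≥0∞}
    (hst : ∀ t : ℝ,
      ∀ {Z : Type} [MeasurableSpace Z] {μ : Measure Z} [SFinite μ] {B A : ℝ}
      {F : ℝ × Z → ℂ}, 0 ≤ B → 0 ≤ A → PS μ B A (fun r : ℝ × ℝ × Z => F (r.1, r.2.2)) →
      ∀ {X : Type} [MeasurableSpace X] {ν : Measure X} [SFinite ν] {φ : X × Z → ℂ},
      Measurable φ → (∀ p, ‖φ p‖ ≤ 1) →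
      ∫⁻ x, (∫⁻ y, ‖E1 (fun s => (∫ ζ, F (s, ζ) * φ (x, ζ) ∂μ) * gs (s : ℂ)) y t‖ₑ ^ q) ∂ν ≤
        ∫⁻ τ, k (t, τ) *
          (jb τ ^ q * ∫⁻ x, ‖∫ ζ, RAY.Fh (fun u => F (u, ζ)) τ * φ (x, ζ) ∂μ‖ₑ ^ q ∂ν))
    (hN : 0 ≤ N) {h : (Fin P → ℝ) × Z0 → ℂ} (hh : Measurable h) {B : ℝ}
    (hB0 : 0 ≤ B) (hB : ∀ v, ‖h v‖ ≤ B)
    {g : Fin P → ℝ × ((Fin P → ℝ) × Z0) → ℂ} (hg : ∀ p, PN N (g p))
    {b : Fin (m + 1) → ℝ × ((Fin P → ℝ) × Z0) → ℂ} (hb : ∀ j, PN N (b j)) (t : ℝ) :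
    ∫⁻ x, ‖EB μ0 φ0 (FB h g b) t x‖ₑ ^ q ∂(volume.prod ν0) ≤
      ∫⁻ τ, k (t, τ) *
        (jb τ ^ q * ∫⁻ θ, GLn μ0 ν0 φ0 q h g b ((t, τ), θ) ∂(Measure.dirac ())) := by
  have hgm : ∀ p, Measurable (g p) := fun p => (hg p).pb.meas
  have hbm : ∀ j, Measurable (b j) := fun j => (hb j).pb.meas
  have hI : Integrable (FB h g b) (volume.prod μ0) := FB_int hN hh hB hg hb
  obtain ⟨A, hA, hPS⟩ := FLB_PS (μ0 := μ0) hh hB0 hN hB hg hb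
  have hEm : Measurable fun x : ZZ P (m + 1) × X0 => ‖EB μ0 φ0 (FB h g b) t x‖ₑ ^ q := by
    have h1 := EB_meas (μ0 := μ0) hφ (Y := ZZ P (m + 1) × X0)
      (G := fun r : (ZZ P (m + 1) × X0) × (ZZ P (m + 1) × Z0) => FB h g b r.2)
      ((FB_meas1 hh hgm hbm).comp measurable_snd) (t := fun _ => t) measurable_const
      (x := fun y => y) measurable_id
    exact h1.enorm.pow_const q
  have h1 := lint_split (ρ := ν0) (mp_ecl P m) hEm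
  simp_rw [ecl_apply] at h1
  have h2 : ∀ (x : ZZ P m × X0) (y : ℝ), EB μ0 φ0 (FB h g b) t ((x.1.1, cn y x.1.2), x.2) =
      E1 (fun s => (∫ ζ, FLB h g b (s, ζ) * phB φ0 t x ζ ∂(volume.prod μ0)) * gs (s : ℂ))
        y t := fun x y => EB_cnl hφ h0 hI t x y
  simp_rw [h2] at h1
  refine (le_of_eq h1).trans ?_
  have h3 := hst t hA hA hPS (ν := (volume : Measure (ZZ P m)).prod ν0)
    (φ := fun p : (ZZ P m × X0) × (ZZ P m × Z0) => phB φ0 t p.1 p.2) (phB_meas1 hφ t)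
    (fun p => (norm_phB h0 _ _ _).le)
  simp only at h3
  refine h3.trans (le_of_eq (lintegral_congr fun τ => ?_))
  rw [lintegral_dirac]
  congr 2
  unfold GLn
  apply lintegral_congr
  intro x
  unfold EB
  congr 2
  congr 1; funext ζ
  rw [FLB_Fh]
  rfl

/-- the choice of the parameter for a linear block -/
lemma parL {q e e' : ℝ} (hq : 2 < q) (h : e' < e + (q - 2) / 2) :
    ∃ η : ℝ, 0 < η ∧ η ≤ 1 / 4 ∧ 0 ≤ (q - 2) / 2 - η * (3 * q - 1) ∧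
      e' ≤ e + ((q - 2) / 2 - η * (3 * q - 1)) := by
  set D : ℝ := e + (q - 2) / 2 - e' with hD
  have hD0 : 0 < D := by rw [hD]; linarith
  have hq3 : 0 < 3 * q - 1 := by linarith
  set M : ℝ := min D ((q - 2) / 2) with hM
  have hM0 : 0 < M := lt_min hD0 (by linarith)
  set η : ℝ := min (1 / 4) (M / (3 * q - 1)) with hη
  have h1 : η * (3 * q - 1) ≤ M := by
    have := min_le_right (1 / 4 : ℝ) (M / (3 * q - 1))
    rw [← hη, le_div_iff₀ hq3] at this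
    exact this
  refine ⟨η, lt_min (by norm_num) (div_pos hM0 hq3), min_le_left _ _, ?_, ?_⟩
  · have := min_le_right D ((q - 2) / 2)
    rw [← hM] at this
    linarith
  · have := min_le_left D ((q - 2) / 2)
    rw [← hM] at this
    linarith

/-- **The step for linear blocks.** -/
theorem TT_linear (hφ : Measurable φ0) (h0 : ∀ p, ‖φ0 p‖ = 1) {q : ℝ} (hq2 : 2 < q)
    (hN : 0 ≤ N) {e e' : ℝ} (he : 0 ≤ e) (hee : e' < e + (q - 2) / 2)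
    (hT : TT μ0 ν0 φ0 q N e' P m) : TT μ0 ν0 φ0 q N e P (m + 1) := by
  obtain ⟨η, k1, k2, k3, k4⟩ := parL hq2 hee
  obtain ⟨C1, hC1, hst⟩ := linStep hq2 k1 k2
  obtain ⟨C2, hC2, hih⟩ := hT
  have hq0 : 0 < q := by linarith
  have h2N : ENNReal.ofReal (2 * N) ^ q ≠ ∞ :=
    ENNReal.rpow_ne_top_of_nonneg hq0.le ENNReal.ofReal_ne_top
  have hJf := jb_int (s := 1 + η) (by linarith)
  set J : ℝ≥0∞ := ∫⁻ τ, jb τ ^ (-(1 + η)) with hJ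
  refine ⟨C1 * (3 * (C2 * ENNReal.ofReal (2 * N) ^ q)) * J, ?_, ?_⟩
  · exact ENNReal.mul_ne_top (ENNReal.mul_ne_top hC1 (ENNReal.mul_ne_top (by norm_num)
      (ENNReal.mul_ne_top hC2 h2N))) hJf
  rintro h g b hh ⟨B, hB⟩ hg hb c
  have hgm : ∀ p, Measurable (g p) := fun p => (hg p).pb.meas
  have hbm : ∀ j, Measurable (b j) := fun j => (hb j).pb.meas
  set B' : ℝ := max B 0 with hB'
  have hBB : ∀ v, ‖h v‖ ≤ B' := fun v => (hB v).trans (le_max_left _ _)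
  have hB'0 : 0 ≤ B' := le_max_right _ _
  set β : ℝ := (q - 2) / 2 - η * (3 * q - 1) with hβ
  have hL : ∀ t, ∫⁻ x, ‖EB μ0 φ0 (FB h g b) t x‖ₑ ^ q ∂(volume.prod ν0) ≤
      ∫⁻ τ, (fun p : ℝ × ℝ => C1 * (jb p.1 ^ (-β) * jb p.2 ^ (-(1 + η)))) (t, τ) *
        (jb τ ^ q * ∫⁻ θ, GLn μ0 ν0 φ0 q h g b ((t, τ), θ) ∂(Measure.dirac ())) := fun t =>
    fixL (k := fun p : ℝ × ℝ => C1 * (jb p.1 ^ (-β) * jb p.2 ^ (-(1 + η)))) hφ h0 hst hN hh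
      hB'0 hBB hg hb t
  have hw : ∀ t τ, jb (t - c) ^ (-e) *
      (fun p : ℝ × ℝ => C1 * (jb p.1 ^ (-β) * jb p.2 ^ (-(1 + η)))) (t, τ) ≤
      C1 * (jb τ ^ (-(1 + η)) * Wt e' c t τ) := by
    intro t τ
    simp only
    have h1 := wt2 (one_le_jb (t - c)) (one_le_jb t) (jb_ne_top _) (jb_ne_top _) he k3 k4
    calc _ = C1 * (jb τ ^ (-(1 + η)) * (jb (t - c) ^ (-e) * jb t ^ (-β))) := by ring
      _ ≤ C1 * (jb τ ^ (-(1 + η)) * (jb (t - c) ^ (-e') + jb t ^ (-e'))) :=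
          mul_le_mul' le_rfl (mul_le_mul' le_rfl h1)
      _ ≤ _ := mul_le_mul' le_rfl (mul_le_mul' le_rfl le_self_add)
  have hG : ∀ (c τ : ℝ) (θ : Unit), ∫⁻ t, jb (t - c) ^ (-e') *
      GLn μ0 ν0 φ0 q h g b ((t, τ), θ) ≤
      (fun (τ : ℝ) (_ : Unit) => C2 * ∫⁻ v, ‖RAY.hL h (b 0) τ v‖ₑ ^ q ∂((ciP P).prod μ0)) τ θ := by
    intro c τ θ
    have hm1 : Measurable (RAY.hL h (b 0) τ) := by
      have a1 := hL_meas (Y := Unit) (τ := fun _ => τ) measurable_const hh (hbm 0)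
      have a2 := a1.comp (measurable_prodMk_left (x := ()) :
        Measurable fun v : (Fin P → ℝ) × Z0 => ((), v))
      exact a2
    exact hih (RAY.hL h (b 0) τ) g (fun j => b j.succ) hm1
      ⟨_, fun v => hL_bd hN hB'0 hBB (hb 0) τ v⟩ hg (fun j => hb j.succ) c
  have hfin := asm (μ := Measure.dirac ()) (k := fun p : ℝ × ℝ => C1 * (jb p.1 ^ (-β) *
      jb p.2 ^ (-(1 + η)))) C1 hw
    (L := fun t => ∫⁻ x, ‖EB μ0 φ0 (FB h g b) t x‖ₑ ^ q ∂(volume.prod ν0))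
    (GLn_meas (μ0 := μ0) (ν0 := ν0) hφ q hh hgm hbm) hL hG
    (fun τ => hL_int (μ0 := μ0) hq0 hN h (hb 0) C2 τ)
  refine hfin.trans (le_of_eq ?_)
  rw [← hJ]
  ring

end base

end Pool.Agent.T9h83.RAY
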