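import Pool.Agent.T9h83.RAY.WT2
set_option autoImplicit false

/-! The step for planar blocks with weights in time. -/

namespace Pool.Agent.T9h83.RAY

open Complex MeasureTheory Set
open scoped ENNReal Real ComplexConjugate

section base

variable {Z0 X0 : Type} [MeasurableSpace Z0] [MeasurableSpace X0]

/-- the estimates with weights in time -/
def TT (μ0 : Measure Z0) (ν0 : Measure X0) (φ0 : (ℝ × X0) × Z0 → ℂ) (q N e : ℝ) (P m : ℕ) :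
    Prop :=
  ∃ C : ℝ≥0∞, C ≠ ∞ ∧ ∀ (h : (Fin P → ℝ) × Z0 → ℂ) (g : Fin P → ℝ × ((Fin P → ℝ) × Z0) → ℂ)
    (b : Fin m → ℝ × ((Fin P → ℝ) × Z0) → ℂ), Measurable h → (∃ B, ∀ v, ‖h v‖ ≤ B) →
    (∀ p, PN N (g p)) → (∀ j, PN N (b j)) → ∀ c : ℝ,
    ∫⁻ t, jb (t - c) ^ (-e) * ∫⁻ x, ‖EB μ0 φ0 (FB h g b) t x‖ₑ ^ q ∂(volume.prod ν0) ≤
      C * ∫⁻ v, ‖h v‖ₑ ^ q ∂((ciP P).prod μ0)

/-- the new coefficient -/
noncomputable def hP {P : ℕ} (h : (Fin (P + 1) → ℝ) × Z0 → ℂ)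
    (g0 : ℝ × ((Fin (P + 1) → ℝ) × Z0) → ℂ) (τ θ : ℝ) (v : (Fin P → ℝ) × Z0) : ℂ :=
  h (cn θ v.1, v.2) * Fh (fun u => g0 (u, (cn θ v.1, v.2))) τ

lemma cnB_meas2 {Y : Type*} [MeasurableSpace Y] {θ : Y → ℝ} (hθ : Measurable θ) {P : ℕ} :
    Measurable fun r : Y × ((Fin P → ℝ) × Z0) => (cn (θ r.1) r.2.1, r.2.2) := by
  have a1 : Measurable fun r : Y × ((Fin P → ℝ) × Z0) => (θ r.1, r.2.1) :=
    (hθ.comp measurable_fst).prodMk (measurable_fst.comp measurable_snd)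
  have a2 := cn_meas.comp a1
  exact a2.prodMk (measurable_snd.comp measurable_snd)

lemma cnB_meas3 {Y : Type*} [MeasurableSpace Y] {θ : Y → ℝ} (hθ : Measurable θ) {P : ℕ} :
    Measurable fun r : Y × (ℝ × ((Fin P → ℝ) × Z0)) => (r.2.1, (cn (θ r.1) r.2.2.1, r.2.2.2)) := by
  have a1 : Measurable fun r : Y × (ℝ × ((Fin P → ℝ) × Z0)) => (r.1, r.2.2) := by fun_prop
  have a2 := (cnB_meas2 (Z0 := Z0) hθ (P := P)).comp a1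
  exact (measurable_fst.comp measurable_snd).prodMk a2

lemma hP_meas {Y : Type*} [MeasurableSpace Y] {τ θ : Y → ℝ} (hτ : Measurable τ)
    (hθ : Measurable θ) {P : ℕ} {h : (Fin (P + 1) → ℝ) × Z0 → ℂ} (hh : Measurable h)
    {g0 : ℝ × ((Fin (P + 1) → ℝ) × Z0) → ℂ} (hg : Measurable g0) :
    Measurable fun r : Y × ((Fin P → ℝ) × Z0) => hP h g0 (τ r.1) (θ r.1) r.2 := by
  unfold hP
  have c1 := cnB_meas2 (Z0 := Z0) hθ (P := P)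
  have a1 := hh.comp c1
  have a2 : Measurable fun r : Y × ((Fin P → ℝ) × Z0) => (τ r.1, (cn (θ r.1) r.2.1, r.2.2)) :=
    (hτ.comp measurable_fst).prodMk c1
  have a3 := (Fh_meas hg).comp a2
  exact a1.mul a3

variable {P : ℕ} {N : ℝ}

lemma hP_bd (hN : 0 ≤ N) {h : (Fin (P + 1) → ℝ) × Z0 → ℂ} {B : ℝ} (hB0 : 0 ≤ B)
    (hB : ∀ v, ‖h v‖ ≤ B)
    {g0 : ℝ × ((Fin (P + 1) → ℝ) × Z0) → ℂ} (hg : PN N g0) (τ θ : ℝ) (v : (Fin P → ℝ) × Z0) :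
    ‖hP h g0 τ θ v‖ ≤ B * N := by
  unfold hP
  rw [norm_mul]
  refine mul_le_mul (hB _) ?_ (norm_nonneg _) hB0
  have h3 := Fh_bd0 hg.pb (cn θ v.1, v.2) τ
  rw [← ofReal_norm] at h3
  exact (ENNReal.ofReal_le_ofReal_iff hN).1 h3

lemma hP_q {q : ℝ} (hq0 : 0 < q) (hN : 0 ≤ N) (h : (Fin (P + 1) → ℝ) × Z0 → ℂ)
    {g0 : ℝ × ((Fin (P + 1) → ℝ) × Z0) → ℂ} (hg : PN N g0) (τ θ : ℝ) (v : (Fin P → ℝ) × Z0) :
    jb τ ^ q * ‖hP h g0 τ θ v‖ₑ ^ q ≤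
      ENNReal.ofReal (2 * N) ^ q * ‖h (cn θ v.1, v.2)‖ₑ ^ q := by
  unfold hP
  rw [enorm_mul, ENNReal.mul_rpow_of_nonneg _ _ hq0.le, ← mul_assoc, mul_comm,
    ← mul_assoc, ← ENNReal.mul_rpow_of_nonneg _ _ hq0.le]
  refine mul_le_mul' (ENNReal.rpow_le_rpow ?_ hq0.le) le_rfl
  have h5 := Fh_bd hN hN hg.pb (cn θ v.1, v.2) τ
  rw [← ofReal_norm]
  unfold jb
  rw [← ENNReal.ofReal_mul (norm_nonneg _)]
  apply ENNReal.ofReal_le_ofReal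
  linarith

variable {μ0 : Measure Z0} [IsFiniteMeasure μ0]

/-- the integral of the new coefficient -/
lemma hP_int {q : ℝ} (hq0 : 0 < q) (hN : 0 ≤ N) {h : (Fin (P + 1) → ℝ) × Z0 → ℂ}
    (hh : Measurable h)
    {g0 : ℝ × ((Fin (P + 1) → ℝ) × Z0) → ℂ} (hg : PN N g0) (C2 : ℝ≥0∞) (τ : ℝ) :
    jb τ ^ q * ∫⁻ θ, 3 * (C2 * ∫⁻ v, ‖hP h g0 τ θ v‖ₑ ^ q ∂((ciP P).prod μ0)) ∂cir ≤
      3 * (C2 * ENNReal.ofReal (2 * N) ^ q) * ∫⁻ v, ‖h v‖ₑ ^ q ∂((ciP (P + 1)).prod μ0) := by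
  have hjq : jb τ ^ q ≠ ∞ := ENNReal.rpow_ne_top_of_nonneg hq0.le (jb_ne_top _)
  have h2N : ENNReal.ofReal (2 * N) ^ q ≠ ∞ :=
    ENNReal.rpow_ne_top_of_nonneg hq0.le ENNReal.ofReal_ne_top
  have hm5 : Measurable fun v : (Fin (P + 1) → ℝ) × Z0 => ‖h v‖ₑ ^ q := hh.enorm.pow_const q
  have hm6 : Measurable fun θ : ℝ => ∫⁻ v : (Fin P → ℝ) × Z0,
      ‖h (cn θ v.1, v.2)‖ₑ ^ q ∂((ciP P).prod μ0) := by
    have c1 := cnB_meas2 (Z0 := Z0) (θ := fun θ : ℝ => θ) measurable_id (P := P)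
    have a1 := hm5.comp c1
    exact a1.lintegral_prod_right'
  have e6 : ∫⁻ v, ‖h v‖ₑ ^ q ∂((ciP (P + 1)).prod μ0) =
      ∫⁻ θ, ∫⁻ v : (Fin P → ℝ) × Z0, ‖h (cn θ v.1, v.2)‖ₑ ^ q ∂((ciP P).prod μ0) ∂cir := by
    have h1 := lint_split' (ρ := μ0) (mp_ecn cir P) hm5
    simp_rw [ecn_apply] at h1
    exact h1
  rw [e6, ← lintegral_const_mul' _ _ hjq, ← lintegral_const_mul _ hm6]
  apply lintegral_mono
  intro θ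
  simp only
  calc jb τ ^ q * (3 * (C2 * ∫⁻ v, ‖hP h g0 τ θ v‖ₑ ^ q ∂((ciP P).prod μ0))) =
        3 * (C2 * ∫⁻ v, jb τ ^ q * ‖hP h g0 τ θ v‖ₑ ^ q ∂((ciP P).prod μ0)) := by
        rw [lintegral_const_mul' _ _ hjq]; ring
    _ ≤ 3 * (C2 * ∫⁻ v : (Fin P → ℝ) × Z0,
          ENNReal.ofReal (2 * N) ^ q * ‖h (cn θ v.1, v.2)‖ₑ ^ q ∂((ciP P).prod μ0)) :=
        mul_le_mul' le_rfl (mul_le_mul' le_rfl (lintegral_mono fun v => hP_q hq0 hN h hg τ θ v))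
    _ = _ := by
        rw [lintegral_const_mul' _ _ h2N]; ring

variable {ν0 : Measure X0} [SFinite ν0] {φ0 : (ℝ × X0) × Z0 → ℂ} {m : ℕ}

/-- the slices of the functions -/
noncomputable def sliB (g : ℝ × ((Fin (P + 1) → ℝ) × Z0) → ℂ) (θ : ℝ)
    (w : ℝ × ((Fin P → ℝ) × Z0)) : ℂ := g (w.1, (cn θ w.2.1, w.2.2))

/-- the integrals at a fixed time -/
noncomputable def GP (μ0 : Measure Z0) (ν0 : Measure X0) (φ0 : (ℝ × X0) × Z0 → ℂ) (q : ℝ)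
    (h : (Fin (P + 1) → ℝ) × Z0 → ℂ)
    (g : Fin (P + 1) → ℝ × ((Fin (P + 1) → ℝ) × Z0) → ℂ)
    (b : Fin m → ℝ × ((Fin (P + 1) → ℝ) × Z0) → ℂ) (r : (ℝ × ℝ) × ℝ) : ℝ≥0∞ :=
  ∫⁻ x, ‖EB μ0 φ0 (FB (hP h (g 0) r.1.2 r.2) (fun p => sliB (g p.succ) r.2)
    (fun j => sliB (b j) r.2)) r.1.1 x‖ₑ ^ q ∂(volume.prod ν0)

lemma GP_meas (hφ : Measurable φ0) (q : ℝ) {h : (Fin (P + 1) → ℝ) × Z0 → ℂ} (hh : Measurable h)
    {g : Fin (P + 1) → ℝ × ((Fin (P + 1) → ℝ) × Z0) → ℂ} (hg : ∀ p, Measurable (g p))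
    {b : Fin m → ℝ × ((Fin (P + 1) → ℝ) × Z0) → ℂ} (hb : ∀ j, Measurable (b j)) :
    Measurable (GP μ0 ν0 φ0 q h g b) := by
  unfold GP
  have hτ : Measurable fun y : ((ℝ × ℝ) × ℝ) × (ZZ P m × X0) => y.1.1.2 := by fun_prop
  have hθ : Measurable fun y : ((ℝ × ℝ) × ℝ) × (ZZ P m × X0) => y.1.2 := by fun_prop
  have c3 := cnB_meas3 (Z0 := Z0) hθ (P := P)
  have h1 := FB_meas (m := m) (hP_meas hτ hθ hh (hg 0))
    (g := fun (p : Fin P) r => g p.succ (r.2.1, (cn r.1.1.2 r.2.2.1, r.2.2.2)))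
    (fun p => (hg p.succ).comp c3)
    (b := fun j r => b j (r.2.1, (cn r.1.1.2 r.2.2.1, r.2.2.2))) (fun j => (hb j).comp c3)
  have ht : Measurable fun y : ((ℝ × ℝ) × ℝ) × (ZZ P m × X0) => y.1.1.1 := by fun_prop
  have h2 := (EB_meas (μ0 := μ0) hφ h1 ht (measurable_snd :
    Measurable fun y : ((ℝ × ℝ) × ℝ) × (ZZ P m × X0) => y.2)).enorm.pow_const q
  have h3 := h2.lintegral_prod_right' (ν := (volume : Measure (ZZ P m)).prod ν0)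
  exact h3

end base

end Pool.Agent.T9h83.RAY
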