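import Pool.Agent.T9h83.RAY.TP
set_option autoImplicit false

/-! The step for planar blocks with weights in time. -/

namespace Pool.Agent.T9h83.RAY

open Complex MeasureTheory Set
open scoped ENNReal Real ComplexConjugate

section base

variable {Z0 X0 : Type} [MeasurableSpace Z0] [MeasurableSpace X0] {P : ℕ} {N : ℝ}
  {μ0 : Measure Z0} [IsFiniteMeasure μ0]
  {ν0 : Measure X0} [SFinite ν0] {φ0 : (ℝ × X0) × Z0 → ℂ} {m : ℕ}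

/-- the estimate at a fixed time -/
lemma fixP (hφ : Measurable φ0) (h0 : ∀ p, ‖φ0 p‖ = 1) {q κ γ γ' : ℝ} {C1 K : ℝ≥0∞} (hK : K ≠ ∞)
    (hq : 2 < q) (hγ : γ = κ * ((q - 2) / 2) / q)
    (hkt : ∀ t, ∫⁻ τ, kt γ t τ ≤ K * jb t ^ (-γ'))
    (hst : ∀ t : ℝ, ∫⁻ τ, kt (κ * ((q - 2) / 2) / q) t τ ≠ ∞ →
      ∀ {Z : Type} [MeasurableSpace Z] {μ : Measure Z} [SFinite μ] {B A : ℝ}
      {F : ℝ × ℝ × Z → ℂ}, 0 ≤ B → 0 ≤ A → PS μ B A F →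
      ∀ {X : Type} [MeasurableSpace X] {ν : Measure X} [SFinite ν] {φ : X × Z → ℂ},
      Measurable φ → (∀ p, ‖φ p‖ ≤ 1) →
      ∫⁻ x, (∫⁻ x0, ‖EV (fun ξ => (∫ ζ, F (‖ξ‖ ^ 2, arg ξ, ζ) * φ (x, ζ) ∂μ) * gs ξ) x0 t‖ₑ ^ q)
        ∂ν ≤ (∫⁻ τ, kt (κ * ((q - 2) / 2) / q) t τ) ^ (q - 1) *
          ∫⁻ τ, kt (κ * ((q - 2) / 2) / q) t τ * (C1 * (jb τ ^ q * ∫⁻ θ, (∫⁻ x,
            ‖∫ ζ, RAY.Fh (fun u => F (u, θ, ζ)) τ * φ (x, ζ) ∂μ‖ₑ ^ q ∂ν) ∂cir)))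
    (hN : 0 ≤ N) {h : (Fin (P + 1) → ℝ) × Z0 → ℂ} (hh : Measurable h) {B : ℝ}
    (hB0 : 0 ≤ B) (hB : ∀ v, ‖h v‖ ≤ B)
    {g : Fin (P + 1) → ℝ × ((Fin (P + 1) → ℝ) × Z0) → ℂ} (hg : ∀ p, PN N (g p))
    {b : Fin m → ℝ × ((Fin (P + 1) → ℝ) × Z0) → ℂ} (hb : ∀ j, PN N (b j)) (t : ℝ) :
    ∫⁻ x, ‖EB μ0 φ0 (FB h g b) t x‖ₑ ^ q ∂(volume.prod ν0) ≤
      ∫⁻ τ, (C1 * ((K * jb t ^ (-γ')) ^ (q - 1) * kt γ t τ)) *
        (jb τ ^ q * ∫⁻ θ, GP μ0 ν0 φ0 q h g b ((t, τ), θ) ∂cir) := by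
  have hgm : ∀ p, Measurable (g p) := fun p => (hg p).pb.meas
  have hbm : ∀ j, Measurable (b j) := fun j => (hb j).pb.meas
  have hI : Integrable (FB h g b) (volume.prod μ0) := FB_int hN hh hB hg hb
  obtain ⟨A, hA, hPS⟩ := FFB_PS (μ0 := μ0) hh hB0 hN hB hg hb
  have hkfin : ∫⁻ τ, kt γ t τ ≠ ∞ := by
    refine ne_top_of_le_ne_top (ENNReal.mul_ne_top hK ?_) (hkt t)
    exact ENNReal.rpow_ne_top_of_ne_zero (jb_ne_zero t) (jb_ne_top t)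
  have hEm : Measurable fun x : ZZ (P + 1) m × X0 => ‖EB μ0 φ0 (FB h g b) t x‖ₑ ^ q := by
    have h1 := EB_meas (μ0 := μ0) hφ (Y := ZZ (P + 1) m × X0)
      (G := fun r : (ZZ (P + 1) m × X0) × (ZZ (P + 1) m × Z0) => FB h g b r.2)
      ((FB_meas1 hh hgm hbm).comp measurable_snd) (t := fun _ => t) measurable_const
      (x := fun y => y) measurable_id
    exact h1.enorm.pow_const q
  have h1 := lint_split (ρ := ν0) (mp_ecz P m) hEm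
  simp_rw [ecz_apply] at h1
  have h2 : ∀ (x : ZZ P m × X0) (x0 : ℂ), EB μ0 φ0 (FB h g b) t ((cn x0 x.1.1, x.1.2), x.2) =
      EV (fun a => (∫ ζ, FFB h g b (‖a‖ ^ 2, arg a, ζ) * phB φ0 t x ζ ∂(volume.prod μ0)) * gs a)
        x0 t := fun x x0 => EB_cn hφ h0 hI t x x0
  simp_rw [h2] at h1
  refine (le_of_eq h1).trans ?_
  rw [hγ] at hkfin hkt
  have h3 := hst t hkfin hA hA hPS (ν := (volume : Measure (ZZ P m)).prod ν0)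
    (φ := fun p : (ZZ P m × X0) × (ZZ P m × Z0) => phB φ0 t p.1 p.2) (phB_meas1 hφ t)
    (fun p => (norm_phB h0 _ _ _).le)
  simp only at h3
  refine h3.trans ?_
  have hkq : (∫⁻ τ, kt (κ * ((q - 2) / 2) / q) t τ) ^ (q - 1) ≤ (K * jb t ^ (-γ')) ^ (q - 1) :=
    ENNReal.rpow_le_rpow (hkt t) (by linarith)
  have hKf : (K * jb t ^ (-γ')) ^ (q - 1) ≠ ∞ :=
    ENNReal.rpow_ne_top_of_nonneg (by linarith) (ENNReal.mul_ne_top hK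
      (ENNReal.rpow_ne_top_of_ne_zero (jb_ne_zero t) (jb_ne_top t)))
  refine (mul_le_mul' hkq le_rfl).trans ?_
  rw [← lintegral_const_mul' _ _ hKf, hγ]
  refine le_of_eq (lintegral_congr fun τ => ?_)
  have h4 : ∀ (θ : ℝ), (∫⁻ x : ZZ P m × X0, ‖∫ ζ, RAY.Fh (fun u => FFB h g b (u, θ, ζ)) τ *
      phB φ0 t x ζ ∂(volume.prod μ0)‖ₑ ^ q ∂(volume.prod ν0)) =
      GP μ0 ν0 φ0 q h g b ((t, τ), θ) := by
    intro θ
    unfold GP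
    apply lintegral_congr
    intro x
    unfold EB
    congr 2
    congr 1; funext ζ
    rw [FFB_Fh]
    rfl
  simp_rw [h4]
  ring

/-- **The step for planar blocks.** -/
theorem TT_planar (hφ : Measurable φ0) (h0 : ∀ p, ‖φ0 p‖ = 1) {q : ℝ} (hq2 : 2 < q) (hq4 : q < 4)
    (hN : 0 ≤ N) {e e' : ℝ} (he : 0 ≤ e) (hee : e' < e + (q - 2))
    (hT : TT μ0 ν0 φ0 q N e' P m) : TT μ0 ν0 φ0 q N e (P + 1) m := by
  obtain ⟨κ, γ, γ', ε, k1, k2, k3, k4, k5, k6, k7, k8, k9, k10⟩ := parP hq2 hee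
  obtain ⟨C1, hC1, hst⟩ := planarStep k1 k2 hq2 hq4
  obtain ⟨C2, hC2, hih⟩ := hT
  obtain ⟨K, hK, hkt⟩ := kt_int k4 k5 k6
  have hq0 : 0 < q := by linarith
  have h2N : ENNReal.ofReal (2 * N) ^ q ≠ ∞ :=
    ENNReal.rpow_ne_top_of_nonneg hq0.le ENNReal.ofReal_ne_top
  have hJf := jb_int (s := 1 + ε) (by linarith)
  set J : ℝ≥0∞ := ∫⁻ τ, jb τ ^ (-(1 + ε)) with hJ
  refine ⟨(C1 * K ^ (q - 1)) * (3 * (C2 * ENNReal.ofReal (2 * N) ^ q)) * J, ?_, ?_⟩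
  · refine ENNReal.mul_ne_top (ENNReal.mul_ne_top (ENNReal.mul_ne_top hC1
      (ENNReal.rpow_ne_top_of_nonneg (by linarith) hK)) (ENNReal.mul_ne_top (by norm_num)
      (ENNReal.mul_ne_top hC2 h2N))) hJf
  rintro h g b hh ⟨B, hB⟩ hg hb c
  have hgm : ∀ p, Measurable (g p) := fun p => (hg p).pb.meas
  have hbm : ∀ j, Measurable (b j) := fun j => (hb j).pb.meas
  have hB0 : 0 ≤ B ∨ IsEmpty ((Fin (P + 1) → ℝ) × Z0) := by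
    rcases isEmpty_or_nonempty ((Fin (P + 1) → ℝ) × Z0) with h1 | ⟨⟨v⟩⟩
    · exact Or.inr h1
    · exact Or.inl ((norm_nonneg _).trans (hB v))
  set B' : ℝ := max B 0 with hB'
  have hBB : ∀ v, ‖h v‖ ≤ B' := fun v => (hB v).trans (le_max_left _ _)
  have hB'0 : 0 ≤ B' := le_max_right _ _
  have hL : ∀ t, ∫⁻ x, ‖EB μ0 φ0 (FB h g b) t x‖ₑ ^ q ∂(volume.prod ν0) ≤
      ∫⁻ τ, (fun p : ℝ × ℝ => C1 * ((K * jb p.1 ^ (-γ')) ^ (q - 1) * kt γ p.1 p.2)) (t, τ) *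
        (jb τ ^ q * ∫⁻ θ, GP μ0 ν0 φ0 q h g b ((t, τ), θ) ∂cir) := fun t =>
    fixP hφ h0 hK hq2 k3 hkt hst hN hh hB'0 hBB hg hb t
  have hw : ∀ t τ, jb (t - c) ^ (-e) *
      (fun p : ℝ × ℝ => C1 * ((K * jb p.1 ^ (-γ')) ^ (q - 1) * kt γ p.1 p.2)) (t, τ) ≤
      (C1 * K ^ (q - 1)) * (jb τ ^ (-(1 + ε)) * Wt e' c t τ) := by
    intro t τ
    simp only
    have h1 := wtP hq2 he k7.le k8 k9 k10 K c t τ
    calc _ = C1 * (jb (t - c) ^ (-e) * ((K * jb t ^ (-γ')) ^ (q - 1) * kt γ t τ)) := by ring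
      _ ≤ C1 * (K ^ (q - 1) * (jb τ ^ (-(1 + ε)) * Wt e' c t τ)) := mul_le_mul' le_rfl h1
      _ = _ := by ring
  have hG : ∀ c τ θ, ∫⁻ t, jb (t - c) ^ (-e') * GP μ0 ν0 φ0 q h g b ((t, τ), θ) ≤
      C2 * ∫⁻ v, ‖hP h (g 0) τ θ v‖ₑ ^ q ∂((ciP P).prod μ0) := by
    intro c τ θ
    have hm1 : Measurable (hP h (g 0) τ θ) := by
      have a1 := hP_meas (Y := Unit) (τ := fun _ => τ) (θ := fun _ => θ) measurable_const
        measurable_const hh (hgm 0)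
      have a2 := a1.comp (measurable_prodMk_left (x := ()) :
        Measurable fun v : (Fin P → ℝ) × Z0 => ((), v))
      exact a2
    exact hih (hP h (g 0) τ θ) (fun p => sliB (g p.succ) θ) (fun j => sliB (b j) θ) hm1
      ⟨_, fun v => hP_bd hN hB'0 hBB (hg 0) τ θ v⟩ (fun p => (hg p.succ).sliceB θ)
      (fun j => (hb j).sliceB θ) c
  have hfin := asm (μ := cir) (k := fun p : ℝ × ℝ => C1 * ((K * jb p.1 ^ (-γ')) ^ (q - 1) *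
    kt γ p.1 p.2)) (C1 * K ^ (q - 1)) hw
    (L := fun t => ∫⁻ x, ‖EB μ0 φ0 (FB h g b) t x‖ₑ ^ q ∂(volume.prod ν0))
    (GP_meas (μ0 := μ0) (ν0 := ν0) hφ q hh hgm hbm) hL hG
    (fun τ => hP_int (μ0 := μ0) hq0 hN hh (hg 0) C2 τ)
  refine hfin.trans (le_of_eq ?_)
  rw [← hJ]
  ring

end base

end Pool.Agent.T9h83.RAY
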