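import Pool.Agent.T9h83.RAY.TB2
set_option autoImplicit false

/-! Weights in time. -/

namespace Pool.Agent.T9h83.RAY

open Complex MeasureTheory Set
open scoped ENNReal Real ComplexConjugate

lemma one_le_jb (t : ℝ) : 1 ≤ jb t := by
  unfold jb
  rw [← ENNReal.ofReal_one]
  exact ENNReal.ofReal_le_ofReal (by linarith [abs_nonneg t])

lemma jb_le_mul (t τ : ℝ) : jb τ ≤ jb t * jb (t + τ) := by
  unfold jb
  rw [← ENNReal.ofReal_mul (by positivity)]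
  apply ENNReal.ofReal_le_ofReal
  have h1 : |τ| ≤ |t| + |t + τ| := by
    calc |τ| = |(t + τ) - t| := by ring_nf
      _ ≤ |t + τ| + |t| := abs_sub _ _
      _ = _ := add_comm _ _
  nlinarith [abs_nonneg t, abs_nonneg (t + τ)]

lemma jb_neg_anti {t e e' : ℝ} (h : e' ≤ e) : jb t ^ (-e) ≤ jb t ^ (-e') :=
  ENNReal.rpow_le_rpow_of_exponent_le (one_le_jb t) (by linarith)

/-- the product of three weights -/
lemma wt3 {a b d : ℝ≥0∞} (ha : 1 ≤ a) (hb : 1 ≤ b) (hd : 1 ≤ d) (ha' : a ≠ ∞) (hb' : b ≠ ∞)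
    (hd' : d ≠ ∞) {e β γ e' : ℝ} (he : 0 ≤ e) (hβ : 0 ≤ β) (hγ : 0 ≤ γ) (h : e' ≤ e + β + γ) :
    a ^ (-e) * b ^ (-β) * d ^ (-γ) ≤ a ^ (-e') + b ^ (-e') + d ^ (-e') := by
  have key : ∀ m : ℝ≥0∞, 1 ≤ m → m ≠ ∞ → m ≤ a → m ≤ b → m ≤ d →
      a ^ (-e) * b ^ (-β) * d ^ (-γ) ≤ m ^ (-e') := by
    intro m hm hm' h1 h2 h3
    have hm0 : m ≠ 0 := (lt_of_lt_of_le one_pos hm).ne'
    have f : ∀ {y : ℝ≥0∞} {s : ℝ}, 0 ≤ s → m ≤ y → y ^ (-s) ≤ m ^ (-s) := by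
      intro y s hs hy
      rw [ENNReal.rpow_neg, ENNReal.rpow_neg]
      exact ENNReal.inv_le_inv.2 (ENNReal.rpow_le_rpow hy hs)
    calc a ^ (-e) * b ^ (-β) * d ^ (-γ) ≤ m ^ (-e) * m ^ (-β) * m ^ (-γ) :=
          mul_le_mul' (mul_le_mul' (f he h1) (f hβ h2)) (f hγ h3)
      _ = m ^ (-(e + β + γ)) := by
          rw [← ENNReal.rpow_add _ _ hm0 hm', ← ENNReal.rpow_add _ _ hm0 hm']
          congr 1; ring
      _ ≤ m ^ (-e') := ENNReal.rpow_le_rpow_of_exponent_le hm (by linarith)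
  rcases le_total a b with h1 | h1
  · rcases le_total a d with h2 | h2
    · exact (key a ha ha' le_rfl h1 h2).trans (le_self_add.trans le_self_add)
    · exact (key d hd hd' h2 (h2.trans h1) le_rfl).trans le_add_self
  · rcases le_total b d with h2 | h2
    · exact (key b hb hb' h1 le_rfl h2).trans (le_add_self.trans le_self_add)
    · exact (key d hd hd' (h2.trans h1) h2 le_rfl).trans le_add_self

/-- the sum of the weights -/
noncomputable def Wt (e c t τ : ℝ) : ℝ≥0∞ :=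
  jb (t - c) ^ (-e) + jb t ^ (-e) + jb (t + τ) ^ (-e)

/-- the weights for a planar block -/
lemma wtP {q e e' γ γ' ε : ℝ} (hq : 2 < q) (he : 0 ≤ e) (hε : 0 ≤ ε) (h1 : ε ≤ γ' * (q - 1))
    (h2 : ε ≤ γ) (h3 : e' ≤ e + (γ' * (q - 1) - ε) + (γ - ε)) (K : ℝ≥0∞) (c t τ : ℝ) :
    jb (t - c) ^ (-e) * ((K * jb t ^ (-γ')) ^ (q - 1) * kt γ t τ) ≤
      K ^ (q - 1) * (jb τ ^ (-(1 + ε)) * Wt e' c t τ) := by
  have hq1 : 0 ≤ q - 1 := by linarith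
  have e0 : jb τ ^ (-1 : ℝ) = jb τ ^ (-(1 + ε)) * jb τ ^ ε := by
    rw [← ENNReal.rpow_add _ _ (jb_ne_zero _) (jb_ne_top _)]
    congr 1; ring
  have e1 : jb τ ^ ε ≤ jb t ^ ε * jb (t + τ) ^ ε := by
    rw [← ENNReal.mul_rpow_of_nonneg _ _ hε]
    exact ENNReal.rpow_le_rpow (jb_le_mul t τ) hε
  have e2 : jb t ^ (-(γ' * (q - 1))) * jb t ^ ε = jb t ^ (-(γ' * (q - 1) - ε)) := by
    rw [← ENNReal.rpow_add _ _ (jb_ne_zero _) (jb_ne_top _)]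
    congr 1; ring
  have e3 : jb (t + τ) ^ (-γ) * jb (t + τ) ^ ε = jb (t + τ) ^ (-(γ - ε)) := by
    rw [← ENNReal.rpow_add _ _ (jb_ne_zero _) (jb_ne_top _)]
    congr 1; ring
  have e4 := wt3 (one_le_jb (t - c)) (one_le_jb t) (one_le_jb (t + τ)) (jb_ne_top _) (jb_ne_top _)
    (jb_ne_top _) he (sub_nonneg.2 h1) (sub_nonneg.2 h2) h3
  calc jb (t - c) ^ (-e) * ((K * jb t ^ (-γ')) ^ (q - 1) * kt γ t τ) =
        K ^ (q - 1) * (jb τ ^ (-1 : ℝ) * (jb (t - c) ^ (-e) *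
          (jb t ^ (-(γ' * (q - 1))) * jb (t + τ) ^ (-γ)))) := by
        unfold kt
        rw [ENNReal.mul_rpow_of_nonneg _ _ hq1, ← ENNReal.rpow_mul, neg_mul]
        ring
    _ ≤ K ^ (q - 1) * ((jb τ ^ (-(1 + ε)) * (jb t ^ ε * jb (t + τ) ^ ε)) * (jb (t - c) ^ (-e) *
          (jb t ^ (-(γ' * (q - 1))) * jb (t + τ) ^ (-γ)))) := by
        rw [e0]
        exact mul_le_mul' le_rfl (mul_le_mul' (mul_le_mul' le_rfl e1) le_rfl)
    _ = K ^ (q - 1) * (jb τ ^ (-(1 + ε)) * (jb (t - c) ^ (-e) *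
          (jb t ^ (-(γ' * (q - 1))) * jb t ^ ε) * (jb (t + τ) ^ (-γ) * jb (t + τ) ^ ε))) := by ring
    _ ≤ _ := by
        rw [e2, e3]
        exact mul_le_mul' le_rfl (mul_le_mul' le_rfl e4)

/-- the choice of the parameters for a planar block -/
lemma parP {q e e' : ℝ} (hq : 2 < q) (h : e' < e + (q - 2)) :
    ∃ κ γ γ' ε : ℝ, 1 ≤ κ ∧ κ < 2 ∧ γ = κ * ((q - 2) / 2) / q ∧ 0 ≤ γ' ∧ γ' < γ ∧ γ' ≤ 1 ∧ 0 < ε ∧
      ε ≤ γ' * (q - 1) ∧ ε ≤ γ ∧ e' ≤ e + (γ' * (q - 1) - ε) + (γ - ε) := by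
  set gs : ℝ := (q - 2) / q with hgs
  have hq0 : 0 < q := by linarith
  have hgs0 : 0 < gs := div_pos (by linarith) hq0
  have hgs1 : gs ≤ 1 := by rw [hgs, div_le_one hq0]; linarith
  have hgq : gs * q = q - 2 := by rw [hgs]; field_simp
  set D : ℝ := e + (q - 2) - e' with hD
  have hD0 : 0 < D := by rw [hD]; linarith
  set δ : ℝ := min (gs / 4) (D / (2 * q + 1)) with hδ
  have hδ0 : 0 < δ := lt_min (by linarith) (div_pos hD0 (by linarith))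
  have hδ1 : δ ≤ gs / 4 := min_le_left _ _
  have hδ2 : δ * (2 * q + 1) ≤ D := by
    have := min_le_right (gs / 4) (D / (2 * q + 1))
    rw [← hδ, le_div_iff₀ (by linarith)] at this
    exact this
  refine ⟨2 - 2 * (δ / gs), gs - δ, gs - 2 * δ, δ, ?_, ?_, ?_, ?_, ?_, ?_, hδ0, ?_, ?_, ?_⟩
  · have : δ / gs ≤ 1 / 4 := by rw [div_le_iff₀ hgs0]; linarith
    linarith
  · have : 0 < δ / gs := div_pos hδ0 hgs0
    linarith
  · have h1 : (2 - 2 * (δ / gs)) * ((q - 2) / 2) / q = (1 - δ / gs) * gs := by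
      rw [hgs]; ring
    rw [h1]
    field_simp
  · linarith
  · linarith
  · linarith
  · nlinarith
  · linarith
  · have h5 : e + ((gs - 2 * δ) * (q - 1) - δ) + (gs - δ - δ) = e + gs * q - δ * (2 * q + 1) := by
      ring
    rw [h5, hgq]
    linarith

lemma jb_int {s : ℝ} (hs : 1 < s) : ∫⁻ τ, jb τ ^ (-s) ≠ ∞ := by
  have h1 : ∫⁻ τ : ℝ, ENNReal.ofReal ((1 + ‖τ‖) ^ (-s)) < ∞ := by
    apply finite_integral_one_add_norm
    simp only [Module.finrank_self, Nat.cast_one]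
    exact hs
  refine ne_of_lt (lt_of_le_of_lt (le_of_eq ?_) h1)
  apply lintegral_congr
  intro τ
  rw [jb_rpow, Real.norm_eq_abs]

end Pool.Agent.T9h83.RAY
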