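import Pool.Agent.T9h83.RAY.WT1
set_option autoImplicit false

/-! Weights in time: the assembly. -/

namespace Pool.Agent.T9h83.RAY

open Complex MeasureTheory Set
open scoped ENNReal Real ComplexConjugate

lemma Wt_meas (e c : ℝ) : Measurable fun p : ℝ × ℝ => Wt e c p.1 p.2 := by
  unfold Wt
  have h1 : Measurable fun p : ℝ × ℝ => p.1 - c := by fun_prop
  have h2 : Measurable fun p : ℝ × ℝ => p.1 + p.2 := by fun_prop
  exact (((jb_meas.comp h1).pow_const _).add ((jb_meas.comp measurable_fst).pow_const _)).add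
    ((jb_meas.comp h2).pow_const _)

/-- **The assembly.** -/
theorem asm {Θ : Type} [MeasurableSpace Θ] {μ : Measure Θ} [SFinite μ] {q e e' ε : ℝ}
    {k : ℝ × ℝ → ℝ≥0∞} (K0 : ℝ≥0∞) {c : ℝ}
    (hw : ∀ t τ, jb (t - c) ^ (-e) * k (t, τ) ≤ K0 * (jb τ ^ (-(1 + ε)) * Wt e' c t τ))
    {L : ℝ → ℝ≥0∞} {G : (ℝ × ℝ) × Θ → ℝ≥0∞} (hGm : Measurable G)
    (hL : ∀ t, L t ≤ ∫⁻ τ, k (t, τ) * (jb τ ^ q * ∫⁻ θ, G ((t, τ), θ) ∂μ))
    {D : ℝ → Θ → ℝ≥0∞} (hG : ∀ c τ θ, ∫⁻ t, jb (t - c) ^ (-e') * G ((t, τ), θ) ≤ D τ θ)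
    {J : ℝ≥0∞} (hD : ∀ τ, jb τ ^ q * ∫⁻ θ, 3 * D τ θ ∂μ ≤ J) :
    ∫⁻ t, jb (t - c) ^ (-e) * L t ≤ K0 * J * ∫⁻ τ, jb τ ^ (-(1 + ε)) := by
  have hjn : ∀ t c s : ℝ, jb (t - c) ^ s ≠ ∞ := fun t c s =>
    ENNReal.rpow_ne_top_of_ne_zero (jb_ne_zero _) (jb_ne_top _)
  have hjm : ∀ s : ℝ, Measurable fun τ => jb τ ^ s := fun s => jb_meas.pow_const s
  have hG2 : Measurable fun p : ℝ × ℝ => ∫⁻ θ, G (p, θ) ∂μ := hGm.lintegral_prod_right'
  have hWm := Wt_meas e' c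
  -- the first step
  have s1 : ∀ t, jb (t - c) ^ (-e) * L t ≤ ∫⁻ τ, K0 * ((jb τ ^ (-(1 + ε)) * jb τ ^ q) *
      (Wt e' c t τ * ∫⁻ θ, G ((t, τ), θ) ∂μ)) := by
    intro t
    calc jb (t - c) ^ (-e) * L t ≤ jb (t - c) ^ (-e) *
          ∫⁻ τ, k (t, τ) * (jb τ ^ q * ∫⁻ θ, G ((t, τ), θ) ∂μ) := mul_le_mul' le_rfl (hL t)
      _ = ∫⁻ τ, jb (t - c) ^ (-e) * (k (t, τ) * (jb τ ^ q * ∫⁻ θ, G ((t, τ), θ) ∂μ)) :=
          (lintegral_const_mul' _ _ (hjn t c (-e))).symm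
      _ ≤ _ := by
          apply lintegral_mono
          intro τ
          simp only
          calc jb (t - c) ^ (-e) * (k (t, τ) * (jb τ ^ q * ∫⁻ θ, G ((t, τ), θ) ∂μ)) =
                (jb (t - c) ^ (-e) * k (t, τ)) * (jb τ ^ q * ∫⁻ θ, G ((t, τ), θ) ∂μ) := by ring
            _ ≤ (K0 * (jb τ ^ (-(1 + ε)) * Wt e' c t τ)) *
                (jb τ ^ q * ∫⁻ θ, G ((t, τ), θ) ∂μ) := mul_le_mul' (hw t τ) le_rfl
            _ = _ := by ring
  -- the inner integral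
  have s2 : ∀ τ, ∫⁻ t, Wt e' c t τ * ∫⁻ θ, G ((t, τ), θ) ∂μ ≤ ∫⁻ θ, 3 * D τ θ ∂μ := by
    intro τ
    have a1 : Measurable fun p : ℝ × Θ => G ((p.1, τ), p.2) := by
      have b1 : Measurable fun p : ℝ × Θ => ((p.1, τ), p.2) := by fun_prop
      have b2 := hGm.comp b1
      exact b2
    have a2 : Measurable fun t : ℝ => Wt e' c t τ := by
      have b1 : Measurable fun t : ℝ => (t, τ) := by fun_prop
      have b2 := hWm.comp b1
      exact b2
    have a3 : ∀ t, Measurable fun θ => G ((t, τ), θ) := by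
      intro t
      have b1 : Measurable fun θ : Θ => (t, θ) := by fun_prop
      have b2 := a1.comp b1
      exact b2
    have a4 : ∀ θ, Measurable fun t => G ((t, τ), θ) := by
      intro θ
      have b1 : Measurable fun t : ℝ => (t, θ) := by fun_prop
      have b2 := a1.comp b1
      exact b2
    calc ∫⁻ t, Wt e' c t τ * ∫⁻ θ, G ((t, τ), θ) ∂μ =
          ∫⁻ t, ∫⁻ θ, Wt e' c t τ * G ((t, τ), θ) ∂μ := by
          apply lintegral_congr
          intro t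
          rw [lintegral_const_mul _ (a3 t)]
      _ = ∫⁻ θ, (∫⁻ t, Wt e' c t τ * G ((t, τ), θ)) ∂μ :=
          lintegral_lintegral_swap ((a2.comp measurable_fst).mul a1).aemeasurable
      _ ≤ _ := by
          apply lintegral_mono
          intro θ
          simp only
          have c1 := hG c τ θ
          have c2 := hG 0 τ θ
          have c3 := hG (-τ) τ θ
          simp only [sub_zero, sub_neg_eq_add] at c2 c3
          have m1 : Measurable fun t => jb (t - c) ^ (-e') * G ((t, τ), θ) :=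
            ((jb_meas.comp (measurable_id.sub_const c)).pow_const _).mul (a4 θ)
          have m2 : Measurable fun t => jb t ^ (-e') * G ((t, τ), θ) :=
            (jb_meas.pow_const _).mul (a4 θ)
          calc ∫⁻ t, Wt e' c t τ * G ((t, τ), θ) = ∫⁻ t, (jb (t - c) ^ (-e') * G ((t, τ), θ) +
                jb t ^ (-e') * G ((t, τ), θ)) + jb (t + τ) ^ (-e') * G ((t, τ), θ) := by
                apply lintegral_congr
                intro t
                unfold Wt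
                ring
            _ = (∫⁻ t, jb (t - c) ^ (-e') * G ((t, τ), θ)) +
                (∫⁻ t, jb t ^ (-e') * G ((t, τ), θ)) +
                ∫⁻ t, jb (t + τ) ^ (-e') * G ((t, τ), θ) := by
                have m12 : Measurable fun t => jb (t - c) ^ (-e') * G ((t, τ), θ) +
                    jb t ^ (-e') * G ((t, τ), θ) := m1.add m2
                rw [lintegral_add_left m12, lintegral_add_left m1]
            _ ≤ D τ θ + D τ θ + D τ θ := add_le_add (add_le_add c1 c2) c3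
            _ = 3 * D τ θ := by ring
  have hm3 : Measurable fun p : ℝ × ℝ => K0 * ((jb p.2 ^ (-(1 + ε)) * jb p.2 ^ q) *
      (Wt e' c p.1 p.2 * ∫⁻ θ, G (p, θ) ∂μ)) :=
    ((((hjm _).comp measurable_snd).mul ((hjm q).comp measurable_snd)).mul
      (hWm.mul hG2)).const_mul K0
  calc ∫⁻ t, jb (t - c) ^ (-e) * L t ≤
        ∫⁻ t, ∫⁻ τ, K0 * ((jb τ ^ (-(1 + ε)) * jb τ ^ q) *
          (Wt e' c t τ * ∫⁻ θ, G ((t, τ), θ) ∂μ)) := lintegral_mono s1
    _ = ∫⁻ τ, ∫⁻ t, K0 * ((jb τ ^ (-(1 + ε)) * jb τ ^ q) *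
          (Wt e' c t τ * ∫⁻ θ, G ((t, τ), θ) ∂μ)) :=
        lintegral_lintegral_swap hm3.aemeasurable
    _ ≤ ∫⁻ τ, K0 * J * jb τ ^ (-(1 + ε)) := by
        apply lintegral_mono
        intro τ
        simp only
        have a5 : Measurable fun t : ℝ => Wt e' c t τ * ∫⁻ θ, G ((t, τ), θ) ∂μ := by
          have b1 : Measurable fun t : ℝ => (t, τ) := by fun_prop
          have b2 := (hWm.mul hG2).comp b1
          exact b2
        rw [lintegral_const_mul _ (a5.const_mul _), lintegral_const_mul _ a5]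
        calc K0 * ((jb τ ^ (-(1 + ε)) * jb τ ^ q) *
              ∫⁻ t, Wt e' c t τ * ∫⁻ θ, G ((t, τ), θ) ∂μ) ≤
              K0 * ((jb τ ^ (-(1 + ε)) * jb τ ^ q) * ∫⁻ θ, 3 * D τ θ ∂μ) :=
              mul_le_mul' le_rfl (mul_le_mul' le_rfl (s2 τ))
          _ = K0 * jb τ ^ (-(1 + ε)) * (jb τ ^ q * ∫⁻ θ, 3 * D τ θ ∂μ) := by ring
          _ ≤ K0 * jb τ ^ (-(1 + ε)) * J := mul_le_mul' le_rfl (hD τ)
          _ = _ := by ring
    _ = _ := lintegral_const_mul _ (hjm _)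

end Pool.Agent.T9h83.RAY
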